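import Pool.Agent.Work.MP_10f4af_ag.T1

/-! # The Chow rings of the powers of a variety -/

open Function Function.Embedding

namespace Pool.Agent.Work.MP_10f4af_ag

open MP_ffcd14_ag hiding len vl cyc pl Weil idl_hmg mem_idl idl_prime idl_le_iff

universe u

variable {k : Type u} [Field k] [IsAlgClosed k] {P : Amb}

/-- The Chow ring. -/
def CR (X : SV k P) : Type u := TC X

namespace CR

variable (X : SV k P)

noncomputable instance : AddCommGroup (CR X) := inferInstanceAs (AddCommGroup (TC X))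

noncomputable instance : Module ℚ (CR X) := inferInstanceAs (Module ℚ (TC X))

/-- The underlying class. -/
noncomputable def val : CR X →ₗ[ℚ] Cl X := (TC X).subtype

variable {X} in
theorem mem (x : CR X) : val X x ∈ TC X := x.2

variable {X} in
theorem ext {x y : CR X} (h : val X x = val X y) : x = y := Subtype.ext h

variable {X} in
/-- A class as an element of the ring. -/
def mk (x : Cl X) (h : x ∈ TC X) : CR X := ⟨x, h⟩

@[simp] theorem val_mk (x : Cl X) (h : x ∈ TC X) : val X (mk x h) = x := rfl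

noncomputable instance : CommRing (CR X) where
  mul x y := mk (mul X (val X x) (val X y)) (mul_mem_TC X x.mem y.mem)
  one := mk (cyc X X.pts) (CH_le X 0 (one_mem_CH X))
  mul_comm x y := ext (cmul_comm X x.mem y.mem)
  mul_assoc x y z := ext (cmul_assoc X x.mem y.mem z.mem)
  mul_one x := ext (cmul_one X x.mem)
  one_mul x := ext ((cmul_comm X (CH_le X 0 (one_mem_CH X)) x.mem).trans (cmul_one X x.mem))
  right_distrib x y z := ext (cadd_mul X x.mem y.mem z.mem)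
  left_distrib x y z := ext <| by
    change mul X _ (val X y + val X z) = mul X _ _ + mul X _ _
    rw [cmul_comm X x.mem (add_mem y.mem z.mem), cadd_mul X y.mem z.mem x.mem,
      cmul_comm X x.mem y.mem, cmul_comm X x.mem z.mem]
  zero_mul x := ext <| by
    have := csmul_mul X 0 x.mem x.mem
    rwa [zero_smul, zero_smul] at this
  mul_zero x := ext <| by
    have := csmul_mul X 0 x.mem x.mem
    rw [zero_smul, zero_smul] at this
    exact (cmul_comm X x.mem (zero_mem _)).trans this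

theorem val_mul (x y : CR X) : val X (x * y) = mul X (val X x) (val X y) := rfl

theorem val_one : val X 1 = cyc X X.pts := rfl

noncomputable instance : Algebra ℚ (CR X) :=
  Algebra.ofModule (fun q x y => ext (csmul_mul X q x.mem y.mem)) fun q x y => by
    rw [mul_comm, mul_comm x]
    exact ext (csmul_mul X q y.mem x.mem)

/-- The part of codimension `i`. -/
noncomputable def gr (i : ℕ) : Submodule ℚ (CR X) := (CH X i).comap (val X)

variable {X}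

theorem mul_gr {i j : ℕ} {x y : CR X} (hx : x ∈ gr X i) (hy : y ∈ gr X j) :
    x * y ∈ gr X (i + j) := mul_mem_CH X hx hy

theorem one_gr : (1 : CR X) ∈ gr X 0 := one_mem_CH X

theorem ind {p : CR X → Prop} (h1 : ∀ i, ∀ x ∈ gr X i, p x) (h2 : ∀ x y, p x → p y → p (x + y))
    (x : CR X) : p x := by
  obtain ⟨x, hx⟩ := x
  have hx' := hx
  rw [TC_eq] at hx'
  induction hx' using Submodule.iSup_induction' with
  | mem i x h => exact h1 i _ h
  | zero => exact h1 0 _ (zero_mem _)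
  | add x y hx' hy' h h' =>
    exact h2 ⟨x, TC_eq X ▸ hx'⟩ ⟨y, TC_eq X ▸ hy'⟩ (h _) (h' _)

theorem gr_zero {x : CR X} (h : x ∈ gr X 0) : ∃ q : ℚ, x = q • 1 :=
  (CH_zero X h).imp fun _ => ext

theorem gr_gt {i : ℕ} (h : X.dim < i) {x : CR X} (hx : x ∈ gr X i) : x = 0 := by
  have hx' : val X x ∈ CH X i := hx
  rw [CH_gt X h] at hx'
  exact ext hx'

end CR

namespace Mod

variable {X : SV k P} {T T' T'' U : Type} (M : Mod X T) (M' : Mod X T') (M'' : Mod X T'')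

/-- Pull-back. -/
noncomputable def pull (f : T ↪ T') : CR M.Z →ₐ[ℚ] CR M'.Z :=
  AlgHom.ofLinearMap
    { toFun x := CR.mk (pl M.Z M'.Z (M.crd M' f).ε (CR.val _ x)) ((M.pd_co M' f).pl_TC x.mem)
      map_add' x y := CR.ext ((M.pd_co M' f).pl_add x.mem y.mem)
      map_smul' q x := CR.ext ((M.pd_co M' f).pl_smul q x.mem) }
    (CR.ext (M.pd_co M' f).pl_one) fun x y => CR.ext ((M.pd_co M' f).pl_mul x.mem y.mem)

/-- Push-forward. -/
noncomputable def push (f : T ↪ T') : CR M'.Z →ₗ[ℚ] CR M.Z where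
  toFun x := CR.mk (ps M.Z M'.Z (M.crd M' f).ε (CR.val _ x)) ((M.pd_co M' f).ps_TC x.mem)
  map_add' _ _ := CR.ext ((M.pd_co M' f).ps_add _ _)
  map_smul' q _ := CR.ext ((M.pd_co M' f).ps_smul q _)

theorem val_pull (f : T ↪ T') (x : CR M.Z) :
    CR.val _ (M.pull M' f x) = pl M.Z M'.Z (M.crd M' f).ε (CR.val _ x) := rfl

theorem val_push (f : T ↪ T') (x : CR M'.Z) :
    CR.val _ (M.push M' f x) = ps M.Z M'.Z (M.crd M' f).ε (CR.val _ x) := rfl

theorem pull_gr (f : T ↪ T') {i : ℕ} {x : CR M.Z} (h : x ∈ CR.gr _ i) :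
    M.pull M' f x ∈ CR.gr _ i := (M.pd_co M' f).pl_CH h

theorem push_gr (f : T ↪ T') {i j : ℕ} (e : j + M.Z.dim = i + M'.Z.dim) {x : CR M'.Z}
    (h : x ∈ CR.gr _ j) : M.push M' f x ∈ CR.gr _ i := by
  have h1 := (M.pd_co M' f).dim
  refine (M.pd_co M' f).ps_CH ?_
  rwa [show i + (M'.co f).Z.dim = j by omega]

theorem T2_bij {T₀ T₁ T₂ T₃ : Type} {f₁ : T₀ ↪ T₁} {f₂ : T₀ ↪ T₂} {g₁ : T₁ ↪ T₃} {g₂ : T₂ ↪ T₃}
    (h1 : ∀ t, g₁ (f₁ t) = g₂ (f₂ t)) (h2 : ∀ u, u ∈ Set.range g₁ ∨ u ∈ Set.range g₂)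
    (h3 : ∀ a b, g₁ a = g₂ b → b ∈ Set.range f₂) :
    Bijective (Sum.elim g₁ fun b : {t // t ∉ Set.range f₂} => g₂ b.1) := by
  refine ⟨g₁.injective.sumElim (g₂.injective.comp Subtype.val_injective)
    fun a b e => b.2 (h3 a b e), fun u => ?_⟩
  rcases h2 u with ⟨a, rfl⟩ | ⟨b, rfl⟩
  · exact ⟨Sum.inl a, rfl⟩
  · by_cases h : b ∈ Set.range f₂
    · obtain ⟨t, rfl⟩ := h
      exact ⟨Sum.inl (f₁ t), h1 t⟩
    · exact ⟨Sum.inr ⟨b, h⟩, rfl⟩

end Mod

/-- Chow rings as a theory. -/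
noncomputable def CT (X : SV k P) : Th.{u, u} X where
  E M := CR M.Z
  pl M M' f := M.pull M' f
  ps M M' f := M.push M' f
  pl_pl M M' M'' f g x := CR.ext ((M.pd_co M' f).pl_pl (M'.pd_co M'' g) (M.pd_co M'' (f.trans g))
    (M.crd_comp M' M'' fun _ => rfl) x.mem)
  ps_ps M M' M'' f g x := CR.ext ((M.pd_co M' f).ps_ps (M'.pd_co M'' g) (M.pd_co M'' (f.trans g))
    (M.crd_comp M' M'' fun _ => rfl) x.mem)
  pl_id M x := CR.ext <| by
    change pl _ _ (M.crd M _).ε _ = _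
    rw [M.crd_id (f := Embedding.refl _) fun _ => rfl]
    exact pl_id x.mem
  ps_id M x := CR.ext <| by
    change ps _ _ (M.crd M _).ε _ = _
    rw [M.crd_id (f := Embedding.refl _) fun _ => rfl]
    exact ps_id x.mem
  proj_l M M' f x z := CR.ext ((M.pd_co M' f).ps_mul x.mem z.mem)
  proj_r M M' f x z := by
    rw [mul_comm (G := CR M'.Z), mul_comm (G := CR M.Z)]
    exact CR.ext ((M.pd_co M' f).ps_mul x.mem z.mem)
  bc M₀ M₁ M₂ M₃ f₁ f₂ g₁ g₂ h1 h2 h3 x := CR.ext ((M₀.pd_co M₂ f₂).pl_ps (M₀.pd_co M₁ f₁)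
    (M₁.pd (M₂.co f₂) M₃ (Mod.T2_bij h1 h2 h3)) (M₂.pd_co M₃ g₂)
    ((M₀.crd_comp M₂ M₃ fun _ => rfl).trans (M₀.crd_comp M₁ M₃ h1).symm)
    ((M₂.co f₂).crd_comp M₂ M₃ fun _ => rfl) x.mem)

namespace Mod

variable {X : SV k P} {T T' T'' U U' U'' : Type} (M : Mod X T) (M' : Mod X T') (M'' : Mod X T'')

/-- A diagonal of a power. -/
def dgs (r : T → U) : Set (M.S.Pt k) :=
  {z | z ∈ M.Z.pts ∧ ∀ a b, r a = r b → (M.β a).pr z = (M.β b).pr z}

theorem img_eq {r : T' → T} (hr : Surjective r) :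
    ((M'.crd M r).img M.Z.tp : Set (M'.S.Pt k)) = M'.dgs r := by
  ext z
  rw [SetLike.mem_coe, Crd.mem_img_iff]
  constructor
  · rintro ⟨x, hx, rfl⟩
    exact ⟨M'.crd_mem M r hx, fun a b e => by rw [crd_pr, crd_pr, e]⟩
  · rintro ⟨h1, h2⟩
    refine ⟨(M.crd M' (surjInv hr)).pr z, M.crd_mem M' _ h1, M'.pt_ext fun t => ?_⟩
    rw [crd_pr, crd_pr]
    exact h2 _ _ (surjInv_eq hr _)

theorem exists_dgs (r : T → U) : ∃ V : Sub k M.S, (V : Set (M.S.Pt k)) = M.dgs r := by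
  have := M.fin
  refine ⟨_, (img_eq (pow X (Set.range r)) M (Set.rangeFactorization_surjective (f := r))).trans ?_⟩
  simp only [dgs, Subtype.ext_iff, Set.rangeFactorization_coe]

theorem dgs_mem (r : T → U) : cyc M.Z (M.dgs r) ∈ TC M.Z := by
  obtain ⟨V, hV⟩ := M.exists_dgs r
  rw [← hV]
  exact ⟨cS V, cS_mem (hV ▸ fun _ h => h.1), rfl⟩

/-- The class of a diagonal. -/
noncomputable def dg (r : T → U) : CR M.Z := CR.mk _ (M.dgs_mem r)

theorem pull_dg (g : T ↪ T') {r : T → U} (r' : T' → U') (h : ∀ a b, r a = r b → r' (g a) = r' (g b))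
    (h' : ∀ a b, r' a = r' b → a = b ∨ ∃ a₀ b₀, a = g a₀ ∧ b = g b₀ ∧ r a₀ = r b₀) :
    M.pull M' g (M.dg r) = M'.dg r' := by
  obtain ⟨V, hV⟩ := M.exists_dgs r
  refine CR.ext ?_
  change pl _ _ _ (cyc _ (M.dgs r)) = cyc _ (M'.dgs r')
  rw [← hV, (M.pd_co M' g).pl_cyc (hV ▸ fun _ h => h.1)]
  congr 1
  ext z
  rw [SetLike.mem_coe, Bij.mem_xp, ← SetLike.mem_coe, hV]
  refine ⟨fun ⟨h1, h2⟩ => ⟨((M.pd_co M' g).mem z).2 ⟨h1.1, h2⟩, fun a b e => ?_⟩, fun ⟨h1, h2⟩ =>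
    ⟨⟨M.crd_mem M' g h1, fun a b e => ?_⟩, (M'.co g).crd_mem M' _ h1⟩⟩
  · rcases h' a b e with rfl | ⟨a, b, rfl, rfl, e'⟩
    · rfl
    · simpa only [crd_pr] using h1.2 a b e'
  · rw [crd_pr, crd_pr]
    exact h2 _ _ (h a b e)

theorem dg_mul {f : T ↪ T''} {g : T' ↪ T''} (hb : Bijective (Sum.elim f g)) {r : T → U}
    {r' : T' → U'} (r'' : T'' → U'') (h : ∀ a b, r'' (f a) = r'' (f b) ↔ r a = r b)
    (h' : ∀ a b, r'' (g a) = r'' (g b) ↔ r' a = r' b) (h'' : ∀ a b, r'' (f a) ≠ r'' (g b)) :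
    M.pull M'' f (M.dg r) * M'.pull M'' g (M'.dg r') = M''.dg r'' := by
  obtain ⟨V, hV⟩ := M.exists_dgs r
  obtain ⟨W, hW⟩ := M'.exists_dgs r'
  refine CR.ext ?_
  change mul _ (pl _ _ _ (cyc _ (M.dgs r))) (pl _ _ _ (cyc _ (M'.dgs r'))) = cyc _ (M''.dgs r'')
  rw [← hV, ← hW, (M.pd M' M'' hb).mul_pl_pl (hV ▸ fun _ h => h.1) (hW ▸ fun _ h => h.1)]
  congr 1
  ext z
  rw [SetLike.mem_coe, Bij.mem_xp, ← SetLike.mem_coe, hV, ← SetLike.mem_coe, hW]
  refine ⟨fun ⟨h1, h2⟩ => ⟨((M.pd M' M'' hb).mem z).2 ⟨h1.1, h2.1⟩, fun a b e => ?_⟩,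
    fun ⟨h1, h2⟩ => ⟨⟨M.crd_mem M'' f h1, fun a b e => ?_⟩, M'.crd_mem M'' g h1, fun a b e => ?_⟩⟩
  · obtain ⟨a | a, rfl⟩ := hb.2 a <;> obtain ⟨b | b, rfl⟩ := hb.2 b
    · simpa only [crd_pr, Sum.elim_inl] using h1.2 a b ((h a b).1 e)
    · exact (h'' a b e).elim
    · exact (h'' b a e.symm).elim
    · simpa only [crd_pr, Sum.elim_inr] using h2.2 a b ((h' a b).1 e)
  · rw [crd_pr, crd_pr]
    exact h2 _ _ ((h a b).2 e)
  · rw [crd_pr, crd_pr]
    exact h2 _ _ ((h' a b).2 e)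

theorem dg_inj {r : T → U} (h : Injective r) : M.dg r = 1 := by
  refine CR.ext (congrArg (cyc _) (Set.ext fun z => and_iff_left fun a b e => ?_))
  rw [h e]

theorem val_dg {r : T' → T} (hr : Surjective r) :
    CR.val _ (M'.dg r) = cyc _ ((M'.crd M r).img M.Z.tp : Set (M'.S.Pt k)) := by
  rw [M.img_eq M' hr]
  rfl

theorem push_dg (f : T ↪ T') {r : T' → T} (h : ∀ t, r (f t) = t) : M.push M' f (M'.dg r) = 1 := by
  refine CR.ext ?_
  rw [val_push, M.val_dg M' (LeftInverse.surjective h)]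
  exact (M.pd_co M' f).ps_sec _ ((M.crd_comp M' M h).trans (M.crd_id fun _ => rfl))

theorem mul_dg (f f' : T ↪ T') {r : T' → T} (h : ∀ t, r (f t) = t) (h' : ∀ t, r (f' t) = t)
    (x : CR M.Z) : M.pull M' f x * M'.dg r = M.pull M' f' x * M'.dg r := by
  refine CR.ext ?_
  rw [CR.val_mul, CR.val_mul, M.val_dg M' (LeftInverse.surjective h)]
  exact (M.pd_co M' f).mul_sec (M.pd_co M' f') _
    ((M.crd_comp M' M h).trans (M.crd_id fun _ => rfl))
    ((M.crd_comp M' M h').trans (M.crd_id fun _ => rfl)) (fun _ => M'.crd_mem M r) x.mem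

/-- The diagonal. -/
noncomputable def dl : CR (M.prod M).Z := (M.prod M).dg (Sum.elim id id)

theorem val_dl : CR.val _ M.dl = dia M.Z := by
  refine congrArg (cyc _) (Set.ext fun z => ⟨fun ⟨h1, h2⟩ => ⟨(mem_prod.1 h1).1,
    M.pt_ext fun t => h2 (Sum.inl t) (Sum.inr t) rfl⟩, fun ⟨h1, h2⟩ =>
      ⟨mem_prod.2 ⟨h1, (h2 ▸ h1 : snd z ∈ M.Z.pts)⟩, ?_⟩⟩)
  rintro (a | a) (b | b) (rfl : a = b)
  · rfl
  · exact congrArg (M.β a).pr h2
  · exact (congrArg (M.β a).pr h2).symm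
  · rfl

theorem dl_gr : M.dl ∈ CR.gr _ M.Z.dim := by
  change CR.val _ ((M.prod M).dg _) ∈ CH _ _
  have hs : Surjective (Sum.elim id id : T ⊕ T → T) := fun t => ⟨Sum.inl t, rfl⟩
  rw [M.val_dg _ hs]
  refine cyc_mem _ (M.img_eq _ hs ▸ fun _ h => h.1) ?_
  rw [sdim_img_of_inj _ fun x _ y _ e => M.pt_ext fun t => ?_, SV.sdim_tp, prod_dim']
  simpa only [crd_pr, Sum.elim_inl, id] using congrArg (((M.prod M).β (Sum.inl t)).pr) e

end Mod

end Pool.Agent.Work.MP_10f4af_ag
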