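import Pool.Agent.Work.MP_10f4af_ag.DefsA

/-!
# Localised lengths

Plan: `Submonoid.closure (q : Set R)ᶜ = q.primeCompl` by `Submonoid.closure_eq`.  The first four
lemmas are in `Work/MP_ffcd14_ag/Cyc/Mult.lean` (copy the proofs, do not import the file).
`lnM_ne_top`: `IsNoetherianRing.induction_on_isQuotientEquivQuotientPrime`; for `R ⧸ r` either
`r = q` (length one) or `¬ r ≤ q` (length zero).  `lnM_loc`: the lift `R_q → D` is onto and its
kernel lies in `J R_q`, so `(R ⧸ J)_q ≃ D ⧸ J D` and the two lattices of submodules agree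
(`Module.length_eq_of_surjective`).  `lnM_congr` follows from `lnM_loc` with `D = R_q`.
-/

namespace Pool.Agent.Work.MP_10f4af_ag

universe u

variable {R : Type u} [CommRing R]

/-- The length of `M_q` over `R_q`. -/
noncomputable def lnM (q : Ideal R) (M : Type u) [AddCommGroup M] [Module R M] : ℕ∞ :=
  Module.length (Localization (Submonoid.closure (q : Set R)ᶜ))
    (LocalizedModule (Submonoid.closure (q : Set R)ᶜ) M)

theorem len_def (q J : Ideal R) : len q J = (lnM q (R ⧸ J)).toNat := rfl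

variable {A B C : Type u} [AddCommGroup A] [Module R A] [AddCommGroup B] [Module R B]
  [AddCommGroup C] [Module R C]

theorem CA0_mem (p : Ideal R) [hp : p.IsPrime] {x : R} :
    x ∈ Submonoid.closure (p : Set R)ᶜ ↔ x ∉ p := by
  have : Submonoid.closure (p : Set R)ᶜ = p.primeCompl := Submonoid.closure_eq p.primeCompl
  rw [this]
  rfl

theorem lnM_exact (q : Ideal R) (f : A →ₗ[R] B) (g : B →ₗ[R] C) (hf : Function.Injective f)
    (hg : Function.Surjective g) (h : Function.Exact f g) : lnM q B = lnM q A + lnM q C := by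
  exact Module.length_eq_add_of_exact (LocalizedModule.map _ f) (LocalizedModule.map _ g)
    (LocalizedModule.map_injective _ f hf) (LocalizedModule.map_surjective _ g hg)
    (LocalizedModule.map_exact _ f g h)

theorem lnM_equiv (q : Ideal R) (e : A ≃ₗ[R] B) : lnM q A = lnM q B := by
  exact le_antisymm
    (Module.length_le_of_injective _ (LocalizedModule.map_injective _ e.toLinearMap e.injective))
    (Module.length_le_of_surjective _ (LocalizedModule.map_surjective _ e.toLinearMap e.surjective))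

theorem lnM_eq_zero_iff (q J : Ideal R) [q.IsPrime] : lnM q (R ⧸ J) = 0 ↔ ¬ J ≤ q := by
  rw [lnM, Module.length_eq_zero_iff, LocalizedModule.subsingleton_iff]
  constructor
  · intro h hJ
    obtain ⟨r, hr, e⟩ := h (Submodule.Quotient.mk 1)
    rw [← Submodule.Quotient.mk_smul, Submodule.Quotient.mk_eq_zero, smul_eq_mul, mul_one] at e
    exact (CA0_mem q).1 hr (hJ e)
  · intro h m
    obtain ⟨r, hr, hr'⟩ := Set.not_subset.1 h
    obtain ⟨y, rfl⟩ := Submodule.Quotient.mk_surjective _ m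
    refine ⟨r, (CA0_mem q).2 hr', ?_⟩
    rw [← Submodule.Quotient.mk_smul, Submodule.Quotient.mk_eq_zero, smul_eq_mul]
    exact J.mul_mem_right _ hr

theorem lnM_self (q : Ideal R) [q.IsPrime] : lnM q (R ⧸ q) = 1 := by
  have h0 := (lnM_eq_zero_iff q q).not.2 (not_not.2 le_rfl)
  rw [lnM, Module.length_eq_zero_iff, not_subsingleton_iff_nontrivial] at h0
  rw [lnM, Module.length_eq_one_iff, isSimpleModule_iff_toSpanSingleton_surjective]
  refine ⟨h0, fun x hx y => ?_⟩
  induction x using LocalizedModule.induction_on with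
  | _ m s =>
  induction y using LocalizedModule.induction_on with
  | _ m' s' =>
  obtain ⟨a, rfl⟩ := Submodule.Quotient.mk_surjective _ m
  obtain ⟨b, rfl⟩ := Submodule.Quotient.mk_surjective _ m'
  have ha : a ∉ q := fun ha => hx (by
    rw [(Submodule.Quotient.mk_eq_zero _).2 ha, LocalizedModule.zero_mk])
  refine ⟨Localization.mk (b * s) (⟨a, (CA0_mem q).2 ha⟩ * s'), ?_⟩
  rw [LinearMap.toSpanSingleton_apply, LocalizedModule.mk_smul_mk, LocalizedModule.mk_eq]
  refine ⟨1, ?_⟩
  simp only [one_smul, Submonoid.smul_def, ← Submodule.Quotient.mk_smul, smul_eq_mul,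
    Submonoid.coe_mul]
  congr 1
  ring

theorem lnM_eq_zero {q : Ideal R} [q.IsPrime] {s : R} (hs : s ∉ q) (h : ∀ x : A, s • x = 0) :
    lnM q A = 0 := by
  rw [lnM, Module.length_eq_zero_iff, LocalizedModule.subsingleton_iff]
  exact fun m => ⟨s, (CA0_mem q).2 hs, h m⟩

theorem lnM_ne_top [IsNoetherianRing R] [Module.Finite R A] {q : Ideal R} [q.IsPrime]
    (h : ∀ r : Ideal R, r.IsPrime → Module.annihilator R A ≤ r → r ≤ q → r = q) :
    lnM q A ≠ ⊤ := by
  revert h
  refine IsNoetherianRing.induction_on_isQuotientEquivQuotientPrime R (M := A) inferInstance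
    (motive := fun N _ _ _ => (∀ r : Ideal R, r.IsPrime → Module.annihilator R N ≤ r → r ≤ q →
      r = q) → lnM q N ≠ ⊤) ?_ ?_ ?_
  · intro N _ _ _ _ _
    rw [lnM, Module.length_eq_zero]
    exact ENat.zero_ne_top
  · intro N _ _ _ p e h
    rw [lnM_equiv q e]
    by_cases hp : p.1 ≤ q
    · rw [h p.1 p.2 (by rw [e.annihilator_eq, Ideal.annihilator_quotient]) hp, lnM_self]
      exact ENat.one_ne_top
    · rw [(lnM_eq_zero_iff q p.1).2 hp]
      exact ENat.zero_ne_top
  · intro N1 _ _ _ N2 _ _ _ N3 _ _ _ f g hf hg hfg h1 h3 h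
    rw [lnM_exact q f g hf hg hfg]
    exact WithTop.add_ne_top.2
      ⟨h1 fun r hr k => h r hr ((f.annihilator_le_of_injective hf).trans k),
        h3 fun r hr k => h r hr ((g.annihilator_le_of_surjective hg).trans k)⟩

theorem lnM_min [IsNoetherianRing R] {q J : Ideal R} (h : q ∈ J.minimalPrimes) :
    lnM q (R ⧸ J) ≠ ⊤ := by
  have := h.1.1
  refine lnM_ne_top fun r hr h1 h2 => le_antisymm h2 (h.2 ⟨hr, ?_⟩ h2)
  rwa [Ideal.annihilator_quotient] at h1

theorem len_pos [IsNoetherianRing R] {q J : Ideal R} (h : q ∈ J.minimalPrimes) : 0 < len q J := by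
  have := h.1.1
  rw [len_def]
  exact ENat.toNat_pos ((lnM_eq_zero_iff q J).not.2 (not_not.2 h.1.2)) (lnM_min h)

theorem len_self (q : Ideal R) [q.IsPrime] : len q q = 1 := by
  rw [len_def, lnM_self]
  rfl

theorem len_zero {q J : Ideal R} [q.IsPrime] (h : ¬ J ≤ q) : len q J = 0 := by
  rw [len_def, (lnM_eq_zero_iff q J).2 h]
  rfl

theorem lnM_loc {D : Type u} [CommRing D] (ψ : R →+* D) {q : Ideal R} [q.IsPrime]
    (hu : ∀ s ∉ q, IsUnit (ψ s)) (hs : ∀ d, ∃ a, ∃ s ∉ q, d * ψ s = ψ a) {J : Ideal R}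
    (hk : ∀ a, ψ a = 0 → ∃ s ∉ q, s * a ∈ J) :
    lnM q (R ⧸ J) = Module.length D (D ⧸ J.map ψ) := by
  let S := Submonoid.closure (q : Set R)ᶜ
  have hu' : ∀ y : S, IsUnit (ψ y) := fun y => hu y ((CA0_mem q).1 y.2)
  let _ : Algebra R D := ψ.toAlgebra
  let _ : Algebra (Localization S) D := (IsLocalization.lift (M := S) hu').toAlgebra
  have : IsScalarTower R (Localization S) D :=
    IsScalarTower.of_algebraMap_eq fun x => (IsLocalization.lift_eq hu' x).symm
  have hsurj : Function.Surjective (algebraMap (Localization S) D) := by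
    refine (IsLocalization.lift_surjective_iff hu').2 fun d => ?_
    obtain ⟨a, s, h1, h2⟩ := hs d
    exact ⟨(a, ⟨s, (CA0_mem q).2 h1⟩), h2⟩
  have key : ∀ d ∈ J.map ψ, ∃ b ∈ J, ∃ s ∉ q, d * ψ s = ψ b := by
    intro d hd
    induction hd using Submodule.span_induction with
    | mem x hx =>
      obtain ⟨b, hb, rfl⟩ := hx
      exact ⟨b, hb, 1, (Ideal.ne_top_iff_one q).1 Ideal.IsPrime.ne_top', by simp⟩
    | zero => exact ⟨0, J.zero_mem, 1, (Ideal.ne_top_iff_one q).1 Ideal.IsPrime.ne_top', by simp⟩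
    | add x y _ _ hx hy =>
      obtain ⟨b, hb, s, h1, h2⟩ := hx
      obtain ⟨c, hc, t, h3, h4⟩ := hy
      refine ⟨b * t + s * c, J.add_mem (J.mul_mem_right _ hb) (J.mul_mem_left _ hc), s * t,
        q.primeCompl.mul_mem h1 h3, ?_⟩
      simp only [map_mul, map_add]
      linear_combination ψ t * h2 + ψ s * h4
    | smul e x _ hx =>
      obtain ⟨b, hb, s, h1, h2⟩ := hx
      obtain ⟨a, t, h3, h4⟩ := hs e
      refine ⟨a * b, J.mul_mem_left _ hb, t * s, q.primeCompl.mul_mem h3 h1, ?_⟩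
      simp only [map_mul, smul_eq_mul]
      rw [← h2, ← h4]
      ring
  let f : (R ⧸ J) →ₗ[R] (D ⧸ J.map ψ) :=
    (Ideal.quotientMapₐ (J.map ψ) (Algebra.ofId R D) Ideal.le_comap_map).toLinearMap
  have hf : ∀ a, f (Ideal.Quotient.mk J a) = Ideal.Quotient.mk _ (ψ a) := fun a => rfl
  have : IsLocalizedModule S f := by
    refine ⟨fun x => ?_, fun y => ?_, fun {x y} h => ?_⟩
    · rw [Module.End.isUnit_iff]
      have h1 := ((hu' x).map (Ideal.Quotient.mk (J.map ψ))).smul_bijective (β := D ⧸ J.map ψ)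
      convert h1 using 2 with z
      exact Algebra.smul_def (x : R) z
    · obtain ⟨d, rfl⟩ := Ideal.Quotient.mk_surjective y
      obtain ⟨a, s, h1, h2⟩ := hs d
      refine ⟨(Ideal.Quotient.mk J a, ⟨s, (CA0_mem q).2 h1⟩), ?_⟩
      rw [hf, ← h2, mul_comm, Submonoid.smul_def, Algebra.smul_def, map_mul]
      rfl
    · obtain ⟨a, rfl⟩ := Ideal.Quotient.mk_surjective x
      obtain ⟨b, rfl⟩ := Ideal.Quotient.mk_surjective y
      rw [hf, hf, Ideal.Quotient.eq, ← map_sub] at h
      obtain ⟨c, hc, s, h1, h2⟩ := key _ h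
      obtain ⟨t, h3, h4⟩ := hk ((a - b) * s - c) (by rw [map_sub, map_mul, h2, sub_self])
      refine ⟨⟨t * s, (CA0_mem q).2 (q.primeCompl.mul_mem h3 h1)⟩, ?_⟩
      rw [Submonoid.smul_def, Submonoid.smul_def, Algebra.smul_def, Algebra.smul_def,
        Ideal.Quotient.algebraMap_eq, ← map_mul, ← map_mul, Ideal.Quotient.eq]
      have := J.add_mem h4 (J.mul_mem_left t hc)
      convert this using 1
      ring
  rw [← Module.length_eq_of_surjective hsurj]
  exact ((IsLocalizedModule.iso S f).extendScalarsOfIsLocalization S (Localization S)).length_eq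

theorem lnM_atPrime (q J : Ideal R) [q.IsPrime] (D : Type u) [CommRing D] [Algebra R D]
    [IsLocalization.AtPrime D q] :
    lnM q (R ⧸ J) = Module.length D (D ⧸ J.map (algebraMap R D)) := by
  refine lnM_loc _ (fun s hs => IsLocalization.map_units D (⟨s, hs⟩ : q.primeCompl))
    (fun d => ?_) fun a ha => ?_
  · obtain ⟨⟨a, s⟩, h⟩ := IsLocalization.surj q.primeCompl d
    exact ⟨a, s, s.2, h⟩
  · obtain ⟨s, h⟩ := (IsLocalization.map_eq_zero_iff q.primeCompl D a).1 ha
    exact ⟨s, s.2, h ▸ J.zero_mem⟩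

theorem lnM_congr {q J J' : Ideal R} [q.IsPrime] {s : R} (hs : s ∉ q) (h : ∀ g ∈ J, s * g ∈ J')
    (h' : ∀ g ∈ J', s * g ∈ J) : lnM q (R ⧸ J) = lnM q (R ⧸ J') := by
  have key : ∀ {J J' : Ideal R}, (∀ g ∈ J, s * g ∈ J') →
      J.map (algebraMap R (Localization.AtPrime q)) ≤ J'.map (algebraMap R _) := by
    intro J J' h
    refine Ideal.map_le_iff_le_comap.2 fun g hg => ?_
    have := Ideal.mem_map_of_mem (algebraMap R (Localization.AtPrime q)) (h g hg)
    rwa [map_mul, Ideal.unit_mul_mem_iff_mem _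
      (IsLocalization.map_units _ (⟨s, hs⟩ : q.primeCompl))] at this
  rw [lnM_atPrime q J (Localization.AtPrime q), lnM_atPrime q J' (Localization.AtPrime q),
    le_antisymm (key h) (key h')]

theorem min_congr {q J J' : Ideal R} {s : R} (hs : s ∉ q) (h : ∀ g ∈ J, s * g ∈ J')
    (h' : ∀ g ∈ J', s * g ∈ J) (hq : q ∈ J.minimalPrimes) : q ∈ J'.minimalPrimes := by
  refine ⟨⟨hq.1.1, fun g hg => (hq.1.1.mem_or_mem (hq.1.2 (h' g hg))).resolve_left hs⟩,
    fun r hr hle => hq.2 ⟨hr.1, fun g hg => ?_⟩ hle⟩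
  exact (hr.1.mem_or_mem (hr.2 (h g hg))).resolve_left fun k => hs (hle k)

theorem CA0_add (p J : Ideal R) (g : R) :
    lnM p (R ⧸ J) = lnM p (R ⧸ J.colon {g}) + lnM p (R ⧸ (J ⊔ Ideal.span {g})) := by
  have hle : J.colon {g} ≤ Submodule.comap (LinearMap.mul R R g) J := fun x hx => by
    rw [Submodule.mem_colon_singleton, smul_eq_mul, mul_comm] at hx
    exact hx
  refine lnM_exact _ (Submodule.mapQ (J.colon {g}) J (LinearMap.mul R R g) hle)
    (Submodule.factor (le_sup_left : J ≤ J ⊔ Ideal.span {g})) ?_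
    (Submodule.factor_surjective _) ?_
  · rw [injective_iff_map_eq_zero]
    intro x hx
    obtain ⟨y, rfl⟩ := Submodule.Quotient.mk_surjective _ x
    rw [Submodule.mapQ_apply, Submodule.Quotient.mk_eq_zero] at hx
    rw [Submodule.Quotient.mk_eq_zero, Submodule.mem_colon_singleton, smul_eq_mul, mul_comm]
    exact hx
  · intro x
    obtain ⟨y, rfl⟩ := Submodule.Quotient.mk_surjective _ x
    have e : Submodule.factor (le_sup_left : J ≤ J ⊔ Ideal.span {g})
        (Submodule.Quotient.mk y) = Submodule.Quotient.mk y := rfl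
    rw [e, Submodule.Quotient.mk_eq_zero]
    constructor
    · intro hy
      obtain ⟨a, ha, b, hb, rfl⟩ := Submodule.mem_sup.1 hy
      obtain ⟨c, rfl⟩ := Ideal.mem_span_singleton'.1 hb
      refine ⟨Submodule.Quotient.mk c, ?_⟩
      rw [Submodule.mapQ_apply, Submodule.Quotient.eq]
      have : (LinearMap.mul R R g) c - (a + c * g) = -a := by
        simp only [LinearMap.mul_apply']
        ring
      rw [this]
      exact J.neg_mem ha
    · rintro ⟨z, hz⟩
      obtain ⟨c, rfl⟩ := Submodule.Quotient.mk_surjective _ z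
      rw [Submodule.mapQ_apply, Submodule.Quotient.eq] at hz
      have : y = -((LinearMap.mul R R g) c - y) + c * g := by
        simp only [LinearMap.mul_apply']
        ring
      rw [this]
      exact Submodule.add_mem_sup (J.neg_mem hz) (Ideal.mem_span_singleton'.2 ⟨c, rfl⟩)

theorem lnM_mul (q I : Ideal R) [I.IsPrime] (f : R) {g : R} (hg : g ∉ I) :
    lnM q (R ⧸ (I ⊔ Ideal.span {f * g})) =
      lnM q (R ⧸ (I ⊔ Ideal.span {f})) + lnM q (R ⧸ (I ⊔ Ideal.span {g})) := by
  have e1 : (I ⊔ Ideal.span {f * g}).colon {g} = I ⊔ Ideal.span {f} := by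
    ext x
    rw [Submodule.mem_colon_singleton, smul_eq_mul]
    constructor
    · intro h
      obtain ⟨a, ha, b, hb, e⟩ := Submodule.mem_sup.1 h
      obtain ⟨c, rfl⟩ := Ideal.mem_span_singleton'.1 hb
      have h1 : (x - c * f) * g ∈ I := by
        have : (x - c * f) * g = a := by linear_combination -e
        rw [this]
        exact ha
      have h2 := (Ideal.IsPrime.mem_or_mem ‹_› h1).resolve_right hg
      have : x = (x - c * f) + c * f := by ring
      rw [this]
      exact Submodule.add_mem_sup h2 (Ideal.mem_span_singleton'.2 ⟨c, rfl⟩)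
    · intro h
      obtain ⟨a, ha, b, hb, rfl⟩ := Submodule.mem_sup.1 h
      obtain ⟨c, rfl⟩ := Ideal.mem_span_singleton'.1 hb
      have : (a + c * f) * g = a * g + c * (f * g) := by ring
      rw [this]
      exact Submodule.add_mem_sup (I.mul_mem_right _ ha) (Ideal.mem_span_singleton'.2 ⟨c, rfl⟩)
  have e2 : I ⊔ Ideal.span {f * g} ⊔ Ideal.span {g} = I ⊔ Ideal.span {g} := by
    rw [sup_assoc, sup_eq_right.2 (Ideal.span_singleton_le_span_singleton.2 (dvd_mul_left g f))]
  rw [CA0_add q _ g, e1, e2]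

end Pool.Agent.Work.MP_10f4af_ag
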