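import Pool.Agent.Work.MP_10f4af_ag.CAb

/-!
# The Herbrand quotient

Plan for `herb`: `IsNoetherianRing.induction_on_isQuotientEquivQuotientPrime` in `M` (the
hypothesis on annihilators passes to submodules and quotients).  `M ≃ R ⧸ r₀`: if `¬ r₀ ≤ q` all
terms vanish (`lnM_eq_zero`); if `r₀ = q` then `g` acts as zero, both sides are one; if `r₀ ∈ S`
then `g` is injective, and `r₀ ≤ r`, `r ∈ S` force `r = r₀` (`ht_le` with `[g]`, `ht_lt`).
Exact sequences: the snake lemma gives `l(M[g]) + l(M'/g) + l(M''/g) = l(M'[g]) + l(M''[g]) +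
l(M/g)` (split the six term sequence into short exact ones, `SnakeLemma` in
`Mathlib/Algebra/Module/SnakeLemma.lean`, or argue by hand), and `l(M'[g])`, `l(M''[g])` are
finite by `lnM_ne_top`.  `herb_ideal`: `M = R ⧸ I`, `S` the minimal primes of `I` below and
different from `q`; a prime `r` with `I ≤ r < q` does not contain `g`, has `q` minimal over
`r + (g)`, and is minimal over `I` by the height argument.
-/

namespace Pool.Agent.Work.MP_10f4af_ag

universe u

variable {R : Type u} [CommRing R] [IsNoetherianRing R]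

omit [IsNoetherianRing R] in
theorem CA1_split (q : Ideal R) {A B C : Type u} [AddCommGroup A] [Module R A] [AddCommGroup B]
    [Module R B] [AddCommGroup C] [Module R C] (u : A →ₗ[R] B) (v : B →ₗ[R] C)
    (h : Function.Exact u v) :
    lnM q B = lnM q (LinearMap.range u) + lnM q (LinearMap.range v) := by
  refine lnM_exact q (LinearMap.range u).subtype v.rangeRestrict (Submodule.injective_subtype _)
    v.surjective_rangeRestrict ?_
  intro x
  constructor
  · intro hx
    have hx' : v x = 0 := congrArg Subtype.val hx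
    obtain ⟨y, hy⟩ := (h x).mp hx'
    exact ⟨⟨x, y, hy⟩, rfl⟩
  · rintro ⟨⟨_, y, rfl⟩, rfl⟩
    exact Subtype.ext (h.apply_apply_eq_zero y)

omit [IsNoetherianRing R] in
theorem CA1_snake (q : Ideal R) (g : R) {A B C : Type u} [AddCommGroup A] [Module R A]
    [AddCommGroup B] [Module R B] [AddCommGroup C] [Module R C] (u : A →ₗ[R] B) (v : B →ₗ[R] C)
    (hu : Function.Injective u) (hv : Function.Surjective v) (h : Function.Exact u v) :
    lnM q (LinearMap.ker (LinearMap.lsmul R B g)) +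
        lnM q (A ⧸ LinearMap.range (LinearMap.lsmul R A g)) +
        lnM q (C ⧸ LinearMap.range (LinearMap.lsmul R C g)) =
      lnM q (LinearMap.ker (LinearMap.lsmul R A g)) +
        lnM q (LinearMap.ker (LinearMap.lsmul R C g)) +
        lnM q (B ⧸ LinearMap.range (LinearMap.lsmul R B g)) := by
  obtain ⟨σ, hσ⟩ := hv.hasRightInverse
  obtain ⟨ρ, hρ⟩ := hu.hasLeftInverse
  set iA := LinearMap.lsmul R A g with hiA
  set iB := LinearMap.lsmul R B g with hiB
  set iC := LinearMap.lsmul R C g with hiC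
  have h₁ : u.comp iA = iB.comp u := by ext x; simp [hiA, hiB]
  have h₂ : v.comp iB = iC.comp v := by ext x; simp [hiB, hiC]
  let a : LinearMap.ker iA →ₗ[R] LinearMap.ker iB := u.restrict (fun x hx => by
    rw [LinearMap.mem_ker] at hx ⊢
    rw [← LinearMap.comp_apply, ← h₁, LinearMap.comp_apply, hx, map_zero])
  let b : LinearMap.ker iB →ₗ[R] LinearMap.ker iC := v.restrict (fun x hx => by
    rw [LinearMap.mem_ker] at hx ⊢
    rw [← LinearMap.comp_apply, ← h₂, LinearMap.comp_apply, hx, map_zero])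
  let e : (A ⧸ LinearMap.range iA) →ₗ[R] (B ⧸ LinearMap.range iB) :=
    Submodule.mapQ _ _ u (by
      rintro _ ⟨x, rfl⟩
      exact ⟨u x, (congrArg (fun φ : A →ₗ[R] B => φ x) h₁).symm⟩)
  let k : (B ⧸ LinearMap.range iB) →ₗ[R] (C ⧸ LinearMap.range iC) :=
    Submodule.mapQ _ _ v (by
      rintro _ ⟨x, rfl⟩
      exact ⟨v x, (congrArg (fun φ : B →ₗ[R] C => φ x) h₂).symm⟩)
  have hσ' : v ∘ σ = id := funext hσ
  have hρ' : ρ ∘ u = id := funext hρ
  let d := SnakeLemma.δ iA iB iC u v h u v h h₁ h₂ σ hσ' ρ hρ' (LinearMap.ker iC).subtype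
    (LinearMap.exact_subtype_ker_map iC) (LinearMap.range iA).mkQ (LinearMap.exact_map_mkQ_range iA)
  have hbd : Function.Exact b d :=
    SnakeLemma.exact_δ_right iA iB iC u v h u v h h₁ h₂ σ hσ' ρ hρ' (LinearMap.ker iB).subtype
      (LinearMap.exact_subtype_ker_map iB) (LinearMap.ker iC).subtype
      (LinearMap.exact_subtype_ker_map iC) (LinearMap.range iA).mkQ
      (LinearMap.exact_map_mkQ_range iA) b rfl (Submodule.injective_subtype _)
  have hde : Function.Exact d e :=
    SnakeLemma.exact_δ_left iA iB iC u v h u v h h₁ h₂ σ hσ' ρ hρ' (LinearMap.ker iC).subtype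
      (LinearMap.exact_subtype_ker_map iC) (LinearMap.range iA).mkQ
      (LinearMap.exact_map_mkQ_range iA) (LinearMap.range iB).mkQ
      (LinearMap.exact_map_mkQ_range iB) e rfl (Submodule.mkQ_surjective _)
  have hab : Function.Exact a b := by
    intro x
    constructor
    · intro hx
      have hx' : v x = 0 := congrArg Subtype.val hx
      obtain ⟨y, hy⟩ := (h x).mp hx'
      refine ⟨⟨y, ?_⟩, Subtype.ext hy⟩
      rw [LinearMap.mem_ker]
      apply hu
      rw [← LinearMap.comp_apply, h₁, LinearMap.comp_apply, hy, map_zero]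
      exact x.2
    · rintro ⟨y, rfl⟩
      exact Subtype.ext (h.apply_apply_eq_zero y)
  have hek : Function.Exact e k := by
    intro x
    obtain ⟨x, rfl⟩ := Submodule.mkQ_surjective _ x
    constructor
    · intro hx
      have hx' : v x ∈ LinearMap.range iC := (Submodule.Quotient.mk_eq_zero _).mp hx
      obtain ⟨z, hz⟩ := hx'
      obtain ⟨y, rfl⟩ := hv z
      have h0 : v (x - iB y) = 0 := by
        rw [map_sub, ← hz, ← LinearMap.comp_apply v iB, h₂, LinearMap.comp_apply, sub_self]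
      obtain ⟨w, hw⟩ := (h _).mp h0
      refine ⟨Submodule.Quotient.mk w, ?_⟩
      change Submodule.Quotient.mk (u w) = Submodule.Quotient.mk x
      rw [Submodule.Quotient.eq, hw]
      exact ⟨-y, by simp⟩
    · rintro ⟨y, hy⟩
      obtain ⟨y, rfl⟩ := Submodule.mkQ_surjective _ y
      rw [← hy]
      change Submodule.Quotient.mk (v (u y)) = 0
      rw [h.apply_apply_eq_zero]
      rfl
  have ha : Function.Injective a := fun x y hxy => Subtype.ext (hu (congrArg Subtype.val hxy))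
  have hk : Function.Surjective k := by
    intro x
    obtain ⟨x, rfl⟩ := Submodule.mkQ_surjective _ x
    obtain ⟨y, rfl⟩ := hv x
    exact ⟨Submodule.Quotient.mk y, rfl⟩
  have e1 := CA1_split q a b hab
  have e2 := CA1_split q b d hbd
  have e3 := CA1_split q d e hde
  have e4 := CA1_split q e k hek
  have e5 : lnM q (LinearMap.range a) = lnM q (LinearMap.ker iA) :=
    (lnM_equiv q (LinearEquiv.ofInjective a ha)).symm
  have e6 : lnM q (LinearMap.range k) = lnM q (C ⧸ LinearMap.range iC) :=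
    lnM_equiv q (LinearEquiv.ofTop _ (LinearMap.range_eq_top.mpr hk))
  rw [e1, e2, e3, e4, e5, e6]
  ring

omit [IsNoetherianRing R] in
theorem CA1_quot (q I : Ideal R) (g : R) :
    lnM q ((R ⧸ I) ⧸ LinearMap.range (LinearMap.lsmul R (R ⧸ I) g)) =
      lnM q (R ⧸ (I ⊔ Ideal.span {g})) := by
  have h : LinearMap.range (LinearMap.lsmul R (R ⧸ I) g) =
      Submodule.map (Submodule.mkQ I) (I ⊔ Ideal.span {g}) := by
    ext x
    constructor
    · rintro ⟨y, rfl⟩
      obtain ⟨y, rfl⟩ := Submodule.mkQ_surjective I y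
      refine ⟨g * y, Ideal.mem_sup_right (Ideal.mul_mem_right _ _ (Ideal.subset_span rfl)), ?_⟩
      rw [LinearMap.lsmul_apply, ← map_smul, smul_eq_mul]
    · rintro ⟨y, hy, rfl⟩
      obtain ⟨a, ha, b, hb, rfl⟩ := Submodule.mem_sup.mp hy
      obtain ⟨c, rfl⟩ := Ideal.mem_span_singleton'.mp hb
      refine ⟨Submodule.mkQ I c, ?_⟩
      rw [LinearMap.lsmul_apply, ← map_smul, smul_eq_mul, map_add, mul_comm,
        show Submodule.mkQ I a = 0 from (Submodule.Quotient.mk_eq_zero _).mpr ha, zero_add]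
  exact lnM_equiv q ((Submodule.quotEquivOfEq _ _ h).trans
    (Submodule.quotientQuotientEquivQuotient I (I ⊔ Ideal.span {g}) le_sup_left))

theorem CA1_between {p r q : Ideal R} [p.IsPrime] [r.IsPrime] {g : R}
    (h : q ∈ (p ⊔ Ideal.span {g}).minimalPrimes) (h₁ : p ≤ r) (h₂ : r < q) : p = r := by
  by_contra hne
  have : q.IsPrime := h.1.1
  have e1 : ht p q ≤ ([g] : List R).length := ht_le (by rwa [Ideal.ofList_singleton])
  have e2 := ht_lt (lt_of_le_of_ne h₁ hne) h₂.le
  have e3 := ht_lt h₂ (le_refl q)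
  have e4 : (1 : ℕ∞) + 1 ≤ 1 :=
    calc (1 : ℕ∞) + 1 ≤ (ht q q + 1) + 1 := by gcongr; exact le_add_self
      _ ≤ ht r q + 1 := by gcongr
      _ ≤ ht p q := e2
      _ ≤ 1 := by simpa using e1
  exact absurd e4 (by decide)

theorem CA1_prime {q : Ideal R} [q.IsPrime] {g : R} (hg : g ∈ q) (S : Finset (Ideal R))
    (hS : ∀ r ∈ S, r.IsPrime ∧ g ∉ r ∧ q ∈ (r ⊔ Ideal.span {g}).minimalPrimes)
    (p : Ideal R) [p.IsPrime] (hp : p ≤ q → p = q ∨ p ∈ S) :
    lnM q ((R ⧸ p) ⧸ LinearMap.range (LinearMap.lsmul R (R ⧸ p) g)) =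
      lnM q (LinearMap.ker (LinearMap.lsmul R (R ⧸ p) g)) +
        ∑ r ∈ S, lnM r (R ⧸ p) * lnM q (R ⧸ (r ⊔ Ideal.span {g})) := by
  have hle : ∀ r ∈ S, r < q := fun r hr =>
    lt_of_le_of_ne (le_sup_left.trans (hS r hr).2.2.1.2) fun e => (hS r hr).2.1 (e ▸ hg)
  have hz : ∀ r ∈ S, ¬ p ≤ r → lnM r (R ⧸ p) * lnM q (R ⧸ (r ⊔ Ideal.span {g})) = 0 := by
    intro r hr h
    have := (hS r hr).1
    rw [(lnM_eq_zero_iff r p).mpr h, zero_mul]
  rw [CA1_quot]
  by_cases hpq : p ≤ q
  · rcases hp hpq with rfl | hpS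
    · have e1 : p ⊔ Ideal.span {g} = p :=
        sup_eq_left.mpr ((Ideal.span_singleton_le_iff_mem _).mpr hg)
      have e2 : LinearMap.ker (LinearMap.lsmul R (R ⧸ p) g) = ⊤ := by
        rw [eq_top_iff]
        intro x _
        obtain ⟨x, rfl⟩ := Submodule.mkQ_surjective p x
        rw [LinearMap.mem_ker, LinearMap.lsmul_apply, ← map_smul]
        exact (Submodule.Quotient.mk_eq_zero _).mpr (Ideal.mul_mem_right _ _ hg)
      rw [e1, lnM_equiv p (LinearEquiv.ofTop _ e2), Finset.sum_eq_zero, add_zero]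
      intro r hr
      exact hz r hr fun h => (hS r hr).2.1 (h hg)
    · have e2 : lnM q (LinearMap.ker (LinearMap.lsmul R (R ⧸ p) g)) = 0 := by
        refine lnM_eq_zero (s := 1) ((Ideal.ne_top_iff_one q).mp Ideal.IsPrime.ne_top') ?_
        rintro ⟨x, hx⟩
        obtain ⟨x, rfl⟩ := Submodule.mkQ_surjective p x
        rw [LinearMap.mem_ker, LinearMap.lsmul_apply, ← map_smul] at hx
        have hx' : g * x ∈ p := (Submodule.Quotient.mk_eq_zero _).mp hx
        rw [one_smul]
        exact Subtype.ext ((Submodule.Quotient.mk_eq_zero _).mpr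
          ((Ideal.IsPrime.mem_or_mem ‹_› hx').resolve_left (hS p hpS).2.1))
      rw [e2, zero_add, Finset.sum_eq_single_of_mem p hpS, lnM_self, one_mul]
      intro r hr hne
      have := (hS r hr).1
      exact hz r hr fun h => hne (CA1_between (hS p hpS).2.2 h (hle r hr)).symm
  · obtain ⟨s, hsp, hsq⟩ := SetLike.not_le_iff_exists.mp hpq
    have e2 : lnM q (LinearMap.ker (LinearMap.lsmul R (R ⧸ p) g)) = 0 := by
      refine lnM_eq_zero hsq ?_
      rintro ⟨x, hx⟩
      obtain ⟨x, rfl⟩ := Submodule.mkQ_surjective p x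
      refine Subtype.ext ?_
      change s • Submodule.mkQ p x = 0
      rw [← map_smul]
      exact (Submodule.Quotient.mk_eq_zero _).mpr (Ideal.mul_mem_right _ _ hsp)
    rw [e2, zero_add, Finset.sum_eq_zero fun r hr => hz r hr fun h => hpq (h.trans (hle r hr).le)]
    exact (lnM_eq_zero_iff q _).mpr fun h => hpq (le_sup_left.trans h)

theorem CA1_ker_ne_top {q : Ideal R} [q.IsPrime] {g : R} (S : Finset (Ideal R))
    (hS : ∀ r ∈ S, g ∉ r) (M : Type u) [AddCommGroup M] [Module R M] [Module.Finite R M]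
    (hM : ∀ r : Ideal R, r.IsPrime → Module.annihilator R M ≤ r → r ≤ q → r = q ∨ r ∈ S) :
    lnM q (LinearMap.ker (LinearMap.lsmul R M g)) ≠ ⊤ := by
  refine lnM_ne_top fun r hr h hq => ?_
  rcases hM r hr ((LinearMap.annihilator_le_of_injective _
    (Submodule.injective_subtype _)).trans h) hq with e | e
  · exact e
  · refine absurd (h ?_) (hS r e)
    rw [Module.mem_annihilator]
    rintro ⟨x, hx⟩
    exact Subtype.ext hx

theorem herb {q : Ideal R} [q.IsPrime] {g : R} (hg : g ∈ q) (S : Finset (Ideal R))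
    (hS : ∀ r ∈ S, r.IsPrime ∧ g ∉ r ∧ q ∈ (r ⊔ Ideal.span {g}).minimalPrimes)
    (M : Type u) [AddCommGroup M] [Module R M] [Module.Finite R M]
    (hM : ∀ r : Ideal R, r.IsPrime → Module.annihilator R M ≤ r → r ≤ q → r = q ∨ r ∈ S) :
    lnM q (M ⧸ LinearMap.range (LinearMap.lsmul R M g)) =
      lnM q (LinearMap.ker (LinearMap.lsmul R M g)) +
        ∑ r ∈ S, lnM r M * lnM q (R ⧸ (r ⊔ Ideal.span {g})) := by
  have h1 : (1 : R) ∉ q := (Ideal.ne_top_iff_one q).mp Ideal.IsPrime.ne_top'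
  induction ‹Module.Finite R M› using
    IsNoetherianRing.induction_on_isQuotientEquivQuotientPrime R with
  | subsingleton N =>
    rw [lnM_eq_zero h1 fun x => Subsingleton.elim _ _, lnM_eq_zero h1 fun x => Subsingleton.elim _ _,
      zero_add, Finset.sum_eq_zero]
    intro r hr
    have := (hS r hr).1
    rw [lnM_eq_zero (s := 1) ((Ideal.ne_top_iff_one r).mp Ideal.IsPrime.ne_top')
      fun x : N => Subsingleton.elim _ _, zero_mul]
  | quotient N p f =>
    have := p.2
    have hp : p.1 ≤ q → p.1 = q ∨ p.1 ∈ S := hM p.1 p.2 (by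
      rw [f.annihilator_eq, Ideal.annihilator_quotient])
    have e1 : lnM q (N ⧸ LinearMap.range (LinearMap.lsmul R N g)) =
        lnM q ((R ⧸ p.1) ⧸ LinearMap.range (LinearMap.lsmul R (R ⧸ p.1) g)) := by
      refine lnM_equiv q (Submodule.Quotient.equiv _ _ f ?_)
      ext x
      constructor
      · rintro ⟨_, ⟨y, rfl⟩, rfl⟩
        exact ⟨f y, by simp⟩
      · rintro ⟨y, rfl⟩
        exact ⟨g • f.symm y, ⟨f.symm y, rfl⟩, by simp⟩
    have e2 : lnM q (LinearMap.ker (LinearMap.lsmul R N g)) =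
        lnM q (LinearMap.ker (LinearMap.lsmul R (R ⧸ p.1) g)) := by
      refine lnM_equiv q (f.ofSubmodules _ _ ?_)
      ext x
      constructor
      · rintro ⟨y, hy, rfl⟩
        have hy' : g • y = 0 := hy
        change g • f y = 0
        rw [← map_smul, hy', map_zero]
      · intro hx
        have hx' : g • x = 0 := hx
        refine ⟨f.symm x, ?_, by simp⟩
        change g • f.symm x = 0
        rw [← map_smul, hx', map_zero]
    rw [e1, e2, CA1_prime hg S hS p.1 hp]
    congr 1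
    exact Finset.sum_congr rfl fun r _ => by rw [lnM_equiv r f]
  | exact N₁ N₂ N₃ u v hu hv h h₁ h₃ =>
    have k₁ : ∀ r : Ideal R, r.IsPrime → Module.annihilator R N₁ ≤ r → r ≤ q → r = q ∨ r ∈ S :=
      fun r hr e => hM r hr ((LinearMap.annihilator_le_of_injective u hu).trans e)
    have k₃ : ∀ r : Ideal R, r.IsPrime → Module.annihilator R N₃ ≤ r → r ≤ q → r = q ∨ r ∈ S :=
      fun r hr e => hM r hr ((LinearMap.annihilator_le_of_surjective v hv).trans e)
    have f₁ := CA1_ker_ne_top S (fun r hr => (hS r hr).2.1) N₁ k₁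
    have f₃ := CA1_ker_ne_top S (fun r hr => (hS r hr).2.1) N₃ k₃
    have e := CA1_snake q g u v hu hv h
    rw [h₁ k₁, h₃ k₃] at e
    have e' : ∑ r ∈ S, lnM r N₂ * lnM q (R ⧸ (r ⊔ Ideal.span {g})) =
        ∑ r ∈ S, lnM r N₁ * lnM q (R ⧸ (r ⊔ Ideal.span {g})) +
          ∑ r ∈ S, lnM r N₃ * lnM q (R ⧸ (r ⊔ Ideal.span {g})) := by
      rw [← Finset.sum_add_distrib]
      exact Finset.sum_congr rfl fun r _ => by rw [lnM_exact r u v hu hv h, add_mul]
    rw [e']
    have f₄ : lnM q (LinearMap.ker (LinearMap.lsmul R N₁ g)) +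
        lnM q (LinearMap.ker (LinearMap.lsmul R N₃ g)) ≠ ⊤ := WithTop.add_ne_top.mpr ⟨f₁, f₃⟩
    refine ENat.add_right_injective_of_ne_top f₄ ?_
    beta_reduce
    rw [← e]
    ring

theorem herb_ideal {I q : Ideal R} {g : R} (h : q ∈ (I ⊔ Ideal.span {g}).minimalPrimes) :
    (len q (I ⊔ Ideal.span {g}) : ℚ) =
      (lnM q (LinearMap.ker (LinearMap.lsmul R (R ⧸ I) g))).toNat + dv g (cyI I) q := by
  classical
  have : q.IsPrime := h.1.1
  have hg : g ∈ q := h.1.2 (Ideal.mem_sup_right (Ideal.subset_span rfl))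
  have hfin := Ideal.finite_minimalPrimes_of_isNoetherianRing R I
  set S := hfin.toFinset.filter fun r => r < q with hSdef
  have hmin : ∀ r : Ideal R, I ≤ r → r < q → r.IsPrime →
      g ∉ r ∧ q ∈ (r ⊔ Ideal.span {g}).minimalPrimes := by
    intro r hI hr hp
    refine ⟨fun hgr => hr.not_ge (h.2 ⟨hp, sup_le hI ?_⟩ hr.le), ⟨h.1.1, sup_le hr.le ?_⟩, ?_⟩
    · exact (Ideal.span_singleton_le_iff_mem _).mpr hgr
    · exact (Ideal.span_singleton_le_iff_mem _).mpr hg
    · rintro y ⟨hy, hy'⟩ hyq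
      exact h.2 ⟨hy, (sup_le_sup_right hI _).trans hy'⟩ hyq
  have hmem : ∀ r, r ∈ S ↔ r ∈ I.minimalPrimes ∧ r < q := fun r => by simp [hSdef]
  have hS : ∀ r ∈ S, r.IsPrime ∧ g ∉ r ∧ q ∈ (r ⊔ Ideal.span {g}).minimalPrimes := fun r hr =>
    have hr' := (hmem r).mp hr
    ⟨hr'.1.1.1, hmin r hr'.1.1.2 hr'.2 hr'.1.1.1⟩
  have hM : ∀ r : Ideal R, r.IsPrime → Module.annihilator R (R ⧸ I) ≤ r → r ≤ q →
      r = q ∨ r ∈ S := by
    intro r hr hI hq
    rw [Ideal.annihilator_quotient] at hI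
    rcases hq.eq_or_lt with e | e
    · exact Or.inl e
    · obtain ⟨r₀, h₀, h₀'⟩ := Ideal.exists_minimalPrimes_le hI
      have := h₀.1.1
      have := CA1_between (hmin r₀ h₀.1.2 (h₀'.trans_lt e) h₀.1.1).2 h₀' e
      exact Or.inr ((hmem r).mpr ⟨this ▸ h₀, e⟩)
  have e := herb hg S hS (R ⧸ I) hM
  rw [CA1_quot] at e
  have f₁ := CA1_ker_ne_top S (fun r hr => (hS r hr).2.1) (R ⧸ I) hM
  have e' : ∑ r ∈ S, lnM r (R ⧸ I) * lnM q (R ⧸ (r ⊔ Ideal.span {g})) =
      ((∑ r ∈ S, len r I * len q (r ⊔ Ideal.span {g}) : ℕ) : ℕ∞) := by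
    rw [Nat.cast_sum]
    refine Finset.sum_congr rfl fun r hr => ?_
    rw [Nat.cast_mul, len_def, len_def, ENat.coe_toNat (lnM_min ((hmem r).mp hr).1),
      ENat.coe_toNat (lnM_min (hS r hr).2.2)]
  rw [len_def, e, e', ENat.toNat_add f₁ (ENat.coe_ne_top _), ENat.toNat_coe, Nat.cast_add]
  congr 1
  have e2 : dv g (cyI I) q = (cyI I).sum fun p c => c * mult [g] p q := dvs_apply [g] (cyI I) q
  rw [e2, Finsupp.sum_of_support_subset (cyI I) (s := hfin.toFinset) _ _ (by simp),
    ← Finset.sum_subset (Finset.filter_subset (fun r => r < q) hfin.toFinset), Nat.cast_sum]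
  · refine Finset.sum_congr rfl fun r hr => ?_
    have e3 : mult [g] r q = dv g (Finsupp.single r 1) q := mult_eq [g] r q
    rw [e3, dv_of_notMem (hS r hr).2.1, cyI_of_mem (hS r hr).2.2, cyI_of_mem ((hmem r).mp hr).1,
      Nat.cast_mul]
  · intro r hr hr'
    have e3 : mult [g] r q = 0 := by
      by_contra hne
      have hle : r ≤ q := le_sup_left.trans (le_of_mult hne)
      refine hr' (Finset.mem_filter.mpr ⟨hr, lt_of_le_of_ne hle fun e => ?_⟩)
      exact (mult_one_ne.mp hne).1 (e ▸ hg)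
    rw [e3, mul_zero]
  · intro r hr
    rw [Set.Finite.mem_toFinset]
    by_contra hne
    exact Finsupp.mem_support_iff.mp hr (cyI_of_notMem hne)

end Pool.Agent.Work.MP_10f4af_ag
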