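import Pool.Agent.Work.MP_10f4af_ag.CA1

/-!
# Divisors commute; the bound by the length

Plan.  `mult_swap`: if `f ∈ p` then `q` is minimal over `p + (g)`, so `ht p q ≤ 1` and both sides
vanish (`le_ht`).  Otherwise use `herb_ideal` twice: the kernel of `g` on `R ⧸ (p + f)` and the
kernel of `f` on `R ⧸ (p + g)` are isomorphic (both are quotients of
`{(x, y) | g x - f y ∈ p}` by the same submodule).  `mult_perm`: induction on the permutation,
generalising `p`; expand with `dvs_apply`.  `cons`: for `r ≤ q` minimal over `p + (f)`, `q` is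
minimal over `r + (l)`.  `swap`: let `mult l r q ≠ 0`; if `r` contains `p + (f, g)` then it is
minimal over it (a smaller prime `r'` has `ht r' q ≤ |l| ≤ ht r q`, against `ht_lt`).
`dvs_le_len`: induction on `l` generalising `I`; for `r'` with `mult l r' q ≠ 0` containing
`I + (g)` the same height argument gives minimality, and `herb_ideal` gives
`dv g (cyI I) r' ≤ cyI (I + g) r'`.
-/

namespace Pool.Agent.Work.MP_10f4af_ag

universe u

variable {R : Type u} [CommRing R]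

theorem CA2_ofList_perm {fs gs : List R} (e : fs.Perm gs) : Ideal.ofList fs = Ideal.ofList gs := by
  unfold Ideal.ofList
  congr 1
  ext x
  exact e.mem_iff

theorem CA2_min_mono {J J' q : Ideal R} (hq : q ∈ J.minimalPrimes) (h : J ≤ J') (h' : J' ≤ q) :
    q ∈ J'.minimalPrimes :=
  ⟨⟨hq.1.1, h'⟩, fun _ hr hrq => hq.2 ⟨hr.1, h.trans hr.2⟩ hrq⟩

/-- The pairs `(x, y)` with `g x - f y ∈ p`. -/
def CA2_K (p : Ideal R) (f g : R) : Submodule R (R × R) :=
  Submodule.comap (g • LinearMap.fst R R R - f • LinearMap.snd R R R) p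

theorem CA2_mem_K {p : Ideal R} {f g : R} {z : R × R} :
    z ∈ CA2_K p f g ↔ g * z.1 - f * z.2 ∈ p := by
  simp [CA2_K]

theorem CA2_mem_ker {J : Ideal R} {g x : R} :
    Ideal.Quotient.mk J x ∈ LinearMap.ker (LinearMap.lsmul R (R ⧸ J) g) ↔ g * x ∈ J := by
  rw [LinearMap.mem_ker, LinearMap.lsmul_apply, ← Ideal.Quotient.eq_zero_iff_mem, map_mul]
  rfl

theorem CA2_mem_sup {p : Ideal R} {f x : R} :
    x ∈ p ⊔ Ideal.span {f} ↔ ∃ y, x - f * y ∈ p := by
  constructor
  · intro h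
    obtain ⟨a, ha, b, hb, rfl⟩ := Submodule.mem_sup.1 h
    obtain ⟨y, rfl⟩ := Ideal.mem_span_singleton'.1 hb
    exact ⟨y, by simpa [mul_comm] using ha⟩
  · rintro ⟨y, hy⟩
    have : x = (x - f * y) + y * f := by ring
    rw [this]
    exact Submodule.add_mem_sup hy (Ideal.mem_span_singleton'.2 ⟨y, rfl⟩)

/-- The first coordinate. -/
noncomputable def CA2_fst (p : Ideal R) (f g : R) :
    CA2_K p f g →ₗ[R] LinearMap.ker (LinearMap.lsmul R (R ⧸ (p ⊔ Ideal.span {f})) g) :=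
  LinearMap.codRestrict _
    ((p ⊔ Ideal.span {f}).mkQ ∘ₗ LinearMap.fst R R R ∘ₗ (CA2_K p f g).subtype) fun z =>
      CA2_mem_ker.2 (CA2_mem_sup.2 ⟨z.1.2, CA2_mem_K.1 z.2⟩)

/-- The second coordinate. -/
noncomputable def CA2_snd (p : Ideal R) (f g : R) :
    CA2_K p f g →ₗ[R] LinearMap.ker (LinearMap.lsmul R (R ⧸ (p ⊔ Ideal.span {g})) f) :=
  LinearMap.codRestrict _
    ((p ⊔ Ideal.span {g}).mkQ ∘ₗ LinearMap.snd R R R ∘ₗ (CA2_K p f g).subtype) fun z =>
      CA2_mem_ker.2 (CA2_mem_sup.2 ⟨z.1.1, by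
        have := p.neg_mem (CA2_mem_K.1 z.2)
        rwa [neg_sub] at this⟩)

theorem CA2_fst_surj (p : Ideal R) (f g : R) : Function.Surjective (CA2_fst p f g) := by
  rintro ⟨x, hx⟩
  obtain ⟨x, rfl⟩ := Ideal.Quotient.mk_surjective x
  obtain ⟨y, hy⟩ := CA2_mem_sup.1 (CA2_mem_ker.1 hx)
  exact ⟨⟨(x, y), CA2_mem_K.2 hy⟩, rfl⟩

theorem CA2_snd_surj (p : Ideal R) (f g : R) : Function.Surjective (CA2_snd p f g) := by
  rintro ⟨y, hy⟩
  obtain ⟨y, rfl⟩ := Ideal.Quotient.mk_surjective y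
  obtain ⟨x, hx⟩ := CA2_mem_sup.1 (CA2_mem_ker.1 hy)
  refine ⟨⟨(x, y), CA2_mem_K.2 ?_⟩, rfl⟩
  have := p.neg_mem hx
  rwa [neg_sub] at this

theorem CA2_fst_ker {p : Ideal R} {f g : R} {z : CA2_K p f g} :
    z ∈ LinearMap.ker (CA2_fst p f g) ↔ ∃ y, z.1.1 - f * y ∈ p := by
  rw [← CA2_mem_sup, ← Ideal.Quotient.eq_zero_iff_mem, LinearMap.mem_ker, Subtype.ext_iff]
  rfl

theorem CA2_snd_ker {p : Ideal R} {f g : R} {z : CA2_K p f g} :
    z ∈ LinearMap.ker (CA2_snd p f g) ↔ ∃ y, z.1.2 - g * y ∈ p := by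
  rw [← CA2_mem_sup, ← Ideal.Quotient.eq_zero_iff_mem, LinearMap.mem_ker, Subtype.ext_iff]
  rfl

theorem CA2_ker_eq {p : Ideal R} [hp : p.IsPrime] {f g : R} (hf : f ∉ p) (hg : g ∉ p) :
    LinearMap.ker (CA2_fst p f g) = LinearMap.ker (CA2_snd p f g) := by
  ext z
  rw [CA2_fst_ker, CA2_snd_ker]
  have hz := CA2_mem_K.1 z.2
  refine exists_congr fun y => ⟨fun h => ?_, fun h => ?_⟩
  · have h1 : f * (z.1.2 - g * y) ∈ p := by
      have e : f * (z.1.2 - g * y) = g * (z.1.1 - f * y) - (g * z.1.1 - f * z.1.2) := by ring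
      rw [e]
      exact p.sub_mem (p.mul_mem_left _ h) hz
    exact (hp.mem_or_mem h1).resolve_left hf
  · have h1 : g * (z.1.1 - f * y) ∈ p := by
      have e : g * (z.1.1 - f * y) = f * (z.1.2 - g * y) + (g * z.1.1 - f * z.1.2) := by ring
      rw [e]
      exact p.add_mem (p.mul_mem_left _ h) hz
    exact (hp.mem_or_mem h1).resolve_left hg

theorem CA2_lnM_ker (q : Ideal R) {p : Ideal R} [p.IsPrime] {f g : R} (hf : f ∉ p) (hg : g ∉ p) :
    lnM q (LinearMap.ker (LinearMap.lsmul R (R ⧸ (p ⊔ Ideal.span {f})) g)) =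
      lnM q (LinearMap.ker (LinearMap.lsmul R (R ⧸ (p ⊔ Ideal.span {g})) f)) :=
  lnM_equiv q ((((CA2_fst p f g).quotKerEquivOfSurjective (CA2_fst_surj p f g)).symm.trans
    (Submodule.quotEquivOfEq _ _ (CA2_ker_eq hf hg))).trans
      ((CA2_snd p f g).quotKerEquivOfSurjective (CA2_snd_surj p f g)))

theorem CA2_two (p : Ideal R) (f g : R) :
    p ⊔ Ideal.ofList [f, g] = p ⊔ Ideal.span {f} ⊔ Ideal.span {g} := by
  rw [Ideal.ofList_cons, Ideal.ofList_singleton, sup_assoc]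

variable [IsNoetherianRing R]

theorem CA2_dvs_mono (l : List R) {a b : Ideal R →₀ ℚ} {q : Ideal R}
    (h : ∀ r, mult l r q ≠ 0 → a r ≤ b r) : dvs l a q ≤ dvs l b q := by
  have h1 : 0 ≤ dvs l (b - a) q := by
    rw [dvs_apply]
    refine Finset.sum_nonneg fun r _ => ?_
    by_cases hr : mult l r q = 0
    · simp [hr]
    · exact mul_nonneg (by simpa using h r hr) (mult_nonneg l r q)
  rw [map_sub, Finsupp.sub_apply] at h1
  exact sub_nonneg.1 h1

theorem CA2_dvs_congr (l : List R) {a b : Ideal R →₀ ℚ} {q : Ideal R}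
    (h : ∀ r, mult l r q ≠ 0 → a r = b r) : dvs l a q = dvs l b q :=
  le_antisymm (CA2_dvs_mono l fun r hr => (h r hr).le) (CA2_dvs_mono l fun r hr => (h r hr).ge)

theorem CA2_min {J r q : Ideal R} {l : List R} [hr : r.IsPrime]
    (hq : q ∈ (J ⊔ Ideal.ofList l).minimalPrimes) (hJ : J ≤ r) (hm : mult l r q ≠ 0) :
    r ∈ J.minimalPrimes := by
  refine ⟨⟨hr, hJ⟩, fun r' hr' hle => ?_⟩
  by_contra hne
  have hlt : r' < r := lt_of_le_of_ne hle fun e => hne e.ge
  have := hr'.1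
  have := hq.1.1
  have hrq := le_of_mult hm
  have h1 : q ∈ (r' ⊔ Ideal.ofList l).minimalPrimes :=
    CA2_min_mono hq (sup_le_sup_right hr'.2 _) ((sup_le_sup_right hle _).trans hrq)
  have h2 := ((add_le_add_left (le_ht hm) 1).trans (ht_lt hlt (le_sup_left.trans hrq))).trans
    (ht_le h1)
  exact absurd (by exact_mod_cast h2 : l.length + 1 ≤ l.length) (by omega)

theorem CA2_swap_mem {p q : Ideal R} [p.IsPrime] {f g : R} (hf : f ∈ p)
    (h : q ∈ (p ⊔ Ideal.ofList [f, g]).minimalPrimes) : mult [f, g] p q = mult [g, f] p q := by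
  have h0 : mult [f, g] p q = 0 := by
    rw [mult_eq, dvs_cons, dv_of_mem hf, map_zero, Finsupp.zero_apply]
  rw [h0]
  by_contra hne
  have h1 := le_ht (Ne.symm hne)
  have e : p ⊔ Ideal.ofList [f, g] = p ⊔ Ideal.ofList [g] := by
    rw [CA2_two, sup_eq_left.2 ((Ideal.span_singleton_le_iff_mem _).2 hf), Ideal.ofList_singleton]
  rw [e] at h
  have h2 := h1.trans (ht_le h)
  exact absurd (by exact_mod_cast h2 : [g, f].length ≤ [g].length) (by simp)

theorem mult_swap {p q : Ideal R} [p.IsPrime] {f g : R}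
    (h : q ∈ (p ⊔ Ideal.ofList [f, g]).minimalPrimes) : mult [f, g] p q = mult [g, f] p q := by
  have e : Ideal.ofList [f, g] = Ideal.ofList [g, f] := CA2_ofList_perm (List.Perm.swap g f [])
  by_cases hf : f ∈ p
  · exact CA2_swap_mem hf h
  by_cases hg : g ∈ p
  · exact (CA2_swap_mem hg (e ▸ h)).symm
  have h1 := herb_ideal (CA2_two p f g ▸ h)
  have h2 := herb_ideal (CA2_two p g f ▸ e ▸ h)
  rw [← CA2_two, e, CA2_lnM_ker q hf hg] at h1
  rw [← CA2_two] at h2
  rw [mult_eq, mult_eq, dvs_cons, dvs_cons, dvs_cons, dvs_cons, dvs_nil, dvs_nil, dv_of_notMem hf,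
    dv_of_notMem hg]
  exact add_left_cancel (h1.symm.trans h2)

theorem mult_perm {fs gs : List R} (e : fs.Perm gs) {p q : Ideal R} [p.IsPrime]
    (h : q ∈ (p ⊔ Ideal.ofList fs).minimalPrimes) : mult fs p q = mult gs p q := by
  induction e generalizing p with
  | nil => rfl
  | @cons x l₁ l₂ e ih =>
    rw [mult_eq, mult_eq, dvs_cons, dvs_cons, dvs_apply, dvs_apply]
    refine Finset.sum_congr rfl fun r hr => ?_
    have h1 : mult [x] p r ≠ 0 := by
      rw [mult_eq]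
      exact Finsupp.mem_support_iff.1 hr
    obtain ⟨-, h2⟩ := mult_one_ne.1 h1
    have := h2.1.1
    have h3 : mult l₁ r q = mult l₂ r q := by
      by_cases hrq : r ≤ q
      · refine ih (CA2_min_mono h ?_ (sup_le hrq ?_))
        · rw [Ideal.ofList_cons, ← sup_assoc]
          exact sup_le_sup_right h2.1.2 _
        · refine le_trans ?_ h.1.2
          rw [Ideal.ofList_cons]
          exact le_sup_right.trans le_sup_right
      · have z : ∀ l : List R, mult l r q = 0 := fun l => by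
          by_contra hne
          exact hrq (le_sup_left.trans (le_of_mult hne))
        rw [z, z]
    simp only [h3]
  | swap x y l =>
    have e1 : ∀ a b : R, mult (a :: b :: l) p q = dvs l (dvs [a, b] (Finsupp.single p 1)) q :=
      fun a b => by rw [mult_eq, ← dvs_append]; rfl
    rw [e1, e1]
    refine CA2_dvs_congr l fun r hr => ?_
    rw [← mult_eq, ← mult_eq]
    have e2 : Ideal.ofList [x, y] = Ideal.ofList [y, x] := CA2_ofList_perm (List.Perm.swap y x [])
    have h1 : q ∈ (p ⊔ Ideal.ofList [y, x] ⊔ Ideal.ofList l).minimalPrimes := by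
      rw [sup_assoc, ← Ideal.ofList_append]
      exact h
    by_cases h2 : mult [y, x] p r = 0
    · by_cases h3 : mult [x, y] p r = 0
      · rw [h2, h3]
      · have := prime_of_mult h3
        exact mult_swap (CA2_min h1 (e2 ▸ le_of_mult h3) hr)
    · have := prime_of_mult h2
      exact mult_swap (CA2_min h1 (le_of_mult h2) hr)
  | trans e₁ _ ih₁ ih₂ => exact (ih₁ h).trans (ih₂ (CA2_ofList_perm e₁ ▸ h))

theorem CA2_cyI_nonneg (I r : Ideal R) : 0 ≤ cyI I r := by
  by_cases h : r ∈ I.minimalPrimes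
  · rw [cyI_of_mem h]
    exact Nat.cast_nonneg _
  · rw [cyI_of_notMem h]

theorem dvs_le_len (l : List R) {I q : Ideal R} (h : q ∈ (I ⊔ Ideal.ofList l).minimalPrimes) :
    dvs l (cyI I) q ≤ len q (I ⊔ Ideal.ofList l) := by
  induction l generalizing I with
  | nil =>
    rw [Ideal.ofList_nil, sup_bot_eq] at h ⊢
    rw [dvs_nil, cyI_of_mem h]
  | cons g l ih =>
    rw [Ideal.ofList_cons, ← sup_assoc] at h ⊢
    rw [dvs_cons]
    refine (CA2_dvs_mono l fun r hr => ?_).trans (ih h)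
    by_cases h0 : dv g (cyI I) r = 0
    · rw [h0]
      exact CA2_cyI_nonneg _ _
    have h1 : dvs [g] (cyI I) r ≠ 0 := h0
    rw [dvs_apply] at h1
    obtain ⟨r₀, -, h2⟩ := Finset.exists_ne_zero_of_sum_ne_zero h1
    have h3 : r₀ ∈ I.minimalPrimes := by
      by_contra hn
      exact h2 (by simp [cyI_of_notMem hn])
    obtain ⟨-, h4⟩ := mult_one_ne.1 (right_ne_zero_of_mul h2)
    have := h4.1.1
    have h5 := CA2_min h ((sup_le_sup_right h3.1.2 _).trans h4.1.2) hr
    rw [cyI_of_mem h5, herb_ideal h5]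
    exact le_add_of_nonneg_left (Nat.cast_nonneg _)

theorem mult_le_one {fs : List R} {p q : Ideal R} [p.IsPrime] [q.IsPrime]
    (h : p ⊔ Ideal.ofList fs ≤ q) {s : R} (hs : s ∉ q)
    (h' : ∀ g ∈ q, s * g ∈ p ⊔ Ideal.ofList fs) : mult fs p q ≤ 1 := by
  have h'' : ∀ g ∈ p ⊔ Ideal.ofList fs, s * g ∈ q := fun g hg => q.mul_mem_left s (h hg)
  have hq : q ∈ q.minimalPrimes := by
    rw [Ideal.minimalPrimes_eq_subsingleton_self]
    rfl
  have h1 := dvs_le_len fs (min_congr hs h' h'' hq)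
  rw [cyI_prime, ← mult_eq, len_def, ← lnM_congr hs h' h'', ← len_def, len_self] at h1
  exact_mod_cast h1

end Pool.Agent.Work.MP_10f4af_ag
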