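import Pool.Agent.Work.MP_10f4af_ag.CA2

/-!
# Independence of the local equations

Plan.  `Gen.min`: `min_congr`.  `mult_gen`: if `ht p q < c` both sides vanish (`le_ht`).  Else
exchange the generators one at a time: prove by induction on `gs₂` that for all `gs₁`, `l` with
`gs = gs₁ ++ gs₂`, `|l| = |gs₂|`, `Gen J p q (gs₁ ++ l)` one has
`mult (gs₁ ++ l) p q = mult gs p q`.  For `gs₂ = g :: gs₃` write `s g = x + ∑ b_j l_j` with
`x ∈ p + (gs₁)`.  If some `b_j ∉ q`, move `l_j` to the end (`mult_perm`), replace it by `g`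
(`mult_last`) and move `g` back.  Otherwise `s g ∈ p + (gs₁) + q J`; then `q` is minimal over
`p + (gs₁ ++ gs₃)`: for a prime `r` between them, modulo `r` every `s' y`, `y ∈ J`, is a multiple
of `g`, so `(s s' - z) g ∈ r` with `z ∈ q`, hence `g ∈ r`, `J ≤ r`, `r = q`.  This contradicts
`ht_le`.
-/

namespace Pool.Agent.Work.MP_10f4af_ag

universe u

variable {R : Type u} [CommRing R]

theorem CA3_le {l : List R} {K : Ideal R} : Ideal.ofList l ≤ K ↔ ∀ x ∈ l, x ∈ K :=
  Ideal.span_le

theorem CA3_mem {l : List R} {x : R} (h : x ∈ l) : x ∈ Ideal.ofList l := Ideal.subset_span h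

theorem CA3_mono {l l' : List R} (h : ∀ x ∈ l, x ∈ l') : Ideal.ofList l ≤ Ideal.ofList l' :=
  CA3_le.2 fun x hx => CA3_mem (h x hx)

theorem CA3_split {J q A : Ideal R} {l : List R} (hl : ∀ f ∈ l, f ∈ J) {x : R}
    (hx : x ∈ A ⊔ Ideal.ofList l) : x ∈ A ⊔ q * J ∨ ∃ l₁ a l₂, l = l₁ ++ a :: l₂ ∧
      ∃ b ∉ q, b * a ∈ A ⊔ Ideal.ofList (l₁ ++ l₂) ⊔ Ideal.span {x} := by
  induction l generalizing x with
  | nil =>
    rw [Ideal.ofList_nil, sup_bot_eq] at hx
    exact Or.inl (Ideal.mem_sup_left hx)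
  | cons a l ih =>
    rw [Ideal.ofList_cons, sup_comm (Ideal.span {a}), ← sup_assoc, sup_comm,
      Ideal.mem_span_singleton_sup] at hx
    obtain ⟨b, y, hy, rfl⟩ := hx
    by_cases hb : b ∈ q
    · rcases ih (fun f hf => hl f (List.mem_cons_of_mem _ hf)) hy with h | ⟨l₁, a', l₂, rfl, b', hb', h⟩
      · exact Or.inl (add_mem (Ideal.mem_sup_right (Ideal.mul_mem_mul hb (hl a (by simp)))) h)
      · refine Or.inr ⟨a :: l₁, a', l₂, rfl, b', hb', ?_⟩
        refine (sup_le (sup_le (le_sup_of_le_left le_sup_left) (le_sup_of_le_left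
          (le_sup_of_le_right (CA3_mono fun x hx => List.mem_cons_of_mem _ hx)))) ?_ :
            A ⊔ Ideal.ofList (l₁ ++ l₂) ⊔ Ideal.span {y} ≤ _) h
        rw [Ideal.span_singleton_le_iff_mem]
        have e : y = (b * a + y) - b * a := by ring
        rw [e]
        refine sub_mem (Ideal.mem_sup_right (Ideal.subset_span (by simp))) ?_
        exact Ideal.mul_mem_left _ _ (Ideal.mem_sup_left (Ideal.mem_sup_right (CA3_mem (by simp))))
    · refine Or.inr ⟨[], a, l, rfl, b, hb, ?_⟩
      have e : b * a = (b * a + y) - y := by ring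
      rw [e]
      exact sub_mem (Ideal.mem_sup_right (Ideal.subset_span (by simp))) (Ideal.mem_sup_left hy)

theorem Gen.min {J p q : Ideal R} {fs : List R} (h : Gen J p q fs)
    (hq : q ∈ (p ⊔ J).minimalPrimes) : q ∈ (p ⊔ Ideal.ofList fs).minimalPrimes := by
  obtain ⟨h1, s, hs, h2⟩ := h
  refine min_congr hs (fun g hg => ?_) (fun g hg => Ideal.mul_mem_left _ _ ?_) hq
  · obtain ⟨a, ha, b, hb, rfl⟩ := Submodule.mem_sup.1 hg
    rw [mul_add]
    exact add_mem (Ideal.mul_mem_left _ _ (Ideal.mem_sup_left ha)) (h2 b hb)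
  · exact (sup_le_sup_left (CA3_le.2 h1) p) hg

theorem CA3_drop {J p q : Ideal R} {l₁ l₂ : List R} {g s : R} (hq : q ∈ (p ⊔ J).minimalPrimes)
    (hg : Gen J p q (l₁ ++ g :: l₂)) (hs : s ∉ q) (h : s * g ∈ p ⊔ Ideal.ofList l₁ ⊔ q * J) :
    q ∈ (p ⊔ Ideal.ofList (l₁ ++ l₂)).minimalPrimes := by
  obtain ⟨h1, s', hs', h2⟩ := hg
  have hqp : q.IsPrime := hq.1.1
  refine ⟨⟨hqp, le_trans (sup_le_sup_left (CA3_le.2 fun x hx => h1 x ?_) p) hq.1.2⟩, ?_⟩
  · rcases List.mem_append.1 hx with hx | hx <;> simp [hx]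
  rintro r ⟨hr, hr1⟩ hr2
  have h3 : ∀ y ∈ J, ∃ c, s' * y - c * g ∈ r := by
    intro y hy
    have h4 : p ⊔ Ideal.ofList (l₁ ++ g :: l₂) ≤ Ideal.span {g} ⊔ r := by
      refine sup_le (le_sup_of_le_right (le_sup_left.trans hr1)) (CA3_le.2 fun x hx => ?_)
      by_cases e : x = g
      · exact Ideal.mem_sup_left (Ideal.subset_span e)
      · exact Ideal.mem_sup_right (hr1 (Ideal.mem_sup_right (CA3_mem (by simpa [e] using hx))))
    obtain ⟨c, z, hz, e⟩ := Ideal.mem_span_singleton_sup.1 (h4 (h2 y hy))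
    exact ⟨c, by rw [← e, add_sub_cancel_left]; exact hz⟩
  have h5 : ∀ w ∈ q * J, ∃ z ∈ q, s' * w - z * g ∈ r := by
    intro w hw
    refine Submodule.mul_induction_on hw (fun m hm n hn => ?_) ?_
    · obtain ⟨c, hc⟩ := h3 n hn
      refine ⟨m * c, Ideal.mul_mem_right _ _ hm, ?_⟩
      have e : s' * (m * n) - m * c * g = m * (s' * n - c * g) := by ring
      rw [e]
      exact Ideal.mul_mem_left _ _ hc
    · rintro x y ⟨z, hz, hx⟩ ⟨z', hz', hy⟩
      refine ⟨z + z', add_mem hz hz', ?_⟩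
      have e : s' * (x + y) - (z + z') * g = (s' * x - z * g) + (s' * y - z' * g) := by ring
      rw [e]
      exact add_mem hx hy
  obtain ⟨a, ha, w, hw, e⟩ := Submodule.mem_sup.1 h
  obtain ⟨z, hz, hzr⟩ := h5 w hw
  have har : a ∈ r := hr1 (sup_le_sup_left (CA3_mono fun x hx => List.mem_append_left _ hx) p ha)
  have h6 : (s' * s - z) * g ∈ r := by
    have e2 : (s' * s - z) * g = s' * a + (s' * w - z * g) := by linear_combination (-s') * e
    rw [e2]
    exact add_mem (Ideal.mul_mem_left _ _ har) hzr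
  have hgr : g ∈ r := by
    refine (hr.mem_or_mem h6).resolve_left fun h7 => ?_
    have h8 : s' * s ∈ q := by simpa using add_mem (hr2 h7) hz
    exact (hqp.mem_or_mem h8).elim hs' hs
  refine hq.2 ⟨hr, sup_le (le_sup_left.trans hr1) fun y hy => ?_⟩ hr2
  obtain ⟨c, hc⟩ := h3 y hy
  have h9 : s' * y ∈ r := by simpa using add_mem hc (Ideal.mul_mem_left _ c hgr)
  exact (hr.mem_or_mem h9).resolve_left fun h7 => hs' (hr2 h7)

theorem CA3_step [IsNoetherianRing R] {J p q : Ideal R} [p.IsPrime]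
    (hq : q ∈ (p ⊔ J).minimalPrimes) (gs₂ : List R) : ∀ gs₁ l : List R, Gen J p q (gs₁ ++ gs₂) →
      Gen J p q (gs₁ ++ l) → l.length = gs₂.length → ((gs₁ ++ gs₂).length : ℕ∞) ≤ ht p q →
        mult (gs₁ ++ l) p q = mult (gs₁ ++ gs₂) p q := by
  haveI hqp : q.IsPrime := hq.1.1
  induction gs₂ with
  | nil =>
    intro gs₁ l _ _ e _
    rw [List.length_eq_zero_iff.1 e]
  | cons g gs₃ ih =>
    intro gs₁ l hg hf e hh
    have hgJ : g ∈ J := hg.1 g (by simp)
    obtain ⟨s, hs, h2⟩ := hf.2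
    have h3 := h2 g hgJ
    have h3' := h3
    rw [Ideal.ofList_append, ← sup_assoc] at h3'
    rcases CA3_split (J := J) (q := q) (fun f hfl => hf.1 f (List.mem_append_right _ hfl)) h3' with
      h | ⟨l₁, a, l₂, rfl, b, hb, h⟩
    · have h4 := hh.trans (ht_le (CA3_drop hq hg hs h))
      simp only [List.length_append, List.length_cons, Nat.cast_le] at h4
      omega
    · have hba : b * a ∈ p ⊔ Ideal.ofList (gs₁ ++ (l₁ ++ l₂) ++ [g]) := by
        refine (sup_le (sup_le (sup_le_sup_left (CA3_mono fun x hx => by simp [hx]) p)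
          (le_sup_of_le_right (CA3_mono fun x hx =>
            List.mem_append_left _ (List.mem_append_right _ hx)))) ?_ :
            p ⊔ Ideal.ofList gs₁ ⊔ Ideal.ofList (l₁ ++ l₂) ⊔ Ideal.span {s * g} ≤ _) h
        rw [Ideal.span_singleton_le_iff_mem]
        exact Ideal.mul_mem_left _ _ (Ideal.mem_sup_right (CA3_mem (by simp)))
      have hbs : b * s ∉ q := fun h' => (hqp.mem_or_mem h').elim hb hs
      have p1 : (gs₁ ++ (l₁ ++ a :: l₂)).Perm (gs₁ ++ (l₁ ++ l₂) ++ [a]) := by
        rw [List.append_assoc]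
        exact (List.perm_middle.trans (List.perm_append_singleton _ _).symm).append_left _
      have p2 : (gs₁ ++ [g] ++ (l₁ ++ l₂)).Perm (gs₁ ++ (l₁ ++ l₂) ++ [g]) := by
        rw [List.append_assoc, List.append_assoc gs₁]
        exact List.perm_append_comm.append_left _
      have hG : Gen J p q (gs₁ ++ [g] ++ (l₁ ++ l₂)) := by
        refine ⟨fun f hfl => ?_, b * s, hbs, fun y hy => ?_⟩
        · simp only [List.mem_append, List.mem_singleton] at hfl
          rcases hfl with (h' | rfl) | h' | h'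
          · exact hf.1 f (by simp [h'])
          · exact hgJ
          · exact hf.1 f (by simp [h'])
          · exact hf.1 f (by simp [h'])
        · have h4 : p ⊔ Ideal.ofList (gs₁ ++ (l₁ ++ a :: l₂)) ≤
              Ideal.span {a} ⊔ (p ⊔ Ideal.ofList (gs₁ ++ [g] ++ (l₁ ++ l₂))) := by
            refine sup_le (le_sup_of_le_right le_sup_left) (CA3_le.2 fun x hx => ?_)
            by_cases e : x = a
            · exact Ideal.mem_sup_left (Ideal.subset_span e)
            · refine Ideal.mem_sup_right (Ideal.mem_sup_right (CA3_mem ?_))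
              simp only [List.mem_append, List.mem_cons, e, false_or] at hx ⊢
              tauto
          obtain ⟨c, z, hz, e⟩ := Ideal.mem_span_singleton_sup.1 (h4 (h2 y hy))
          have e2 : b * s * y = c * (b * a) + b * z := by linear_combination (-b) * e
          rw [e2]
          exact add_mem (Ideal.mul_mem_left _ _
            (sup_le_sup_left (CA3_mono fun x hx => p2.mem_iff.2 hx) p hba))
            (Ideal.mul_mem_left _ _ hz)
      have e3 : gs₁ ++ g :: gs₃ = gs₁ ++ [g] ++ gs₃ := by simp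
      rw [mult_perm p1 (hf.min hq), mult_last (g := g) hbs, ← mult_perm p2 (hG.min hq), e3]
      · rw [e3] at hg hh
        exact ih _ _ hg hG (by simp only [List.length_append, List.length_cons] at e ⊢; omega) hh
      · rw [mul_right_comm]
        exact Ideal.mul_mem_right _ _ hba
      · rw [mul_assoc]
        exact Ideal.mul_mem_left _ _ (sup_le_sup_left (CA3_mono fun x hx => p1.mem_iff.1 hx) p h3)

theorem mult_gen [IsNoetherianRing R] {J p q : Ideal R} [p.IsPrime] {fs gs : List R}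
    (hq : q ∈ (p ⊔ J).minimalPrimes) (hf : Gen J p q fs) (hg : Gen J p q gs)
    (e : fs.length = gs.length) : mult fs p q = mult gs p q := by
  by_cases hh : (gs.length : ℕ∞) ≤ ht p q
  · exact CA3_step hq gs [] fs hg hf e hh
  · have h1 : mult fs p q = 0 := by
      by_contra h
      exact hh (e ▸ le_ht h)
    have h2 : mult gs p q = 0 := by
      by_contra h
      exact hh (le_ht h)
    rw [h1, h2]

end Pool.Agent.Work.MP_10f4af_ag
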