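import Pool.Agent.Work.MP_10f4af_ag.CAb

/-!
# Flat base change with integral fibres

Plan.  `lnM_flat`: with `A = R_r`, `D = B_n` (`Localization.AtPrime`), `A → D` is flat and local
(`Localization.localRingHom`), `lnM_atPrime` on both sides, `IsLocalRing.length_baseChange`
(`Algebra.TensorProduct.quotIdealMapEquivTensorQuot`), and `m_A D = m_D` has colength one.
`dv_base`: put `B = R' ⧸ K`, `e r = r.map φ ⊔ K`.  The minimal primes of `e p + (φ f)` are the
`e r`, `r` minimal over `p + (f)` (no flatness needed: take `comap`).  Lengths in `R'` and in `B`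
agree by `lnM_loc` (with `D` the localisation of `B`), and `e` is injective on primes.
-/

namespace Pool.Agent.Work.MP_10f4af_ag

open Finsupp

universe u

variable {R B : Type u} [CommRing R] [CommRing B]

theorem lnM_flat (φ : R →+* B) (hφ : φ.Flat) {r : Ideal R} {n : Ideal B} [r.IsPrime] [n.IsPrime]
    (h : n.comap φ = r) (h' : ∀ b ∈ n, ∃ s ∉ n, s * b ∈ r.map φ) (I : Ideal R) :
    lnM n (B ⧸ I.map φ) = lnM r (R ⧸ I) := by
  let := φ.toAlgebra
  have : Module.Flat R B := hφ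
  have : n.LiesOver r := ⟨h.symm⟩
  let := Localization.AtPrime.algebraOfLiesOver r n
  have e1 : (I.map φ).map (algebraMap B (Localization.AtPrime n)) =
      (I.map (algebraMap R (Localization.AtPrime r))).map
        (algebraMap (Localization.AtPrime r) (Localization.AtPrime n)) := by
    rw [Ideal.map_map, Ideal.map_map, ← IsScalarTower.algebraMap_eq]
    rfl
  have e2 : (IsLocalRing.maximalIdeal (Localization.AtPrime r)).map
      (algebraMap (Localization.AtPrime r) (Localization.AtPrime n)) =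
      IsLocalRing.maximalIdeal (Localization.AtPrime n) := by
    rw [← Localization.AtPrime.map_eq_maximalIdeal, ← Localization.AtPrime.map_eq_maximalIdeal,
      Ideal.map_map, ← IsScalarTower.algebraMap_eq, IsScalarTower.algebraMap_eq R B,
      ← Ideal.map_map]
    refine le_antisymm (Ideal.map_mono (Ideal.map_le_iff_le_comap.2 h.ge))
      (Ideal.map_le_iff_le_comap.2 fun b hb => ?_)
    obtain ⟨s, hs, hsb⟩ := h' b hb
    have h1 := Ideal.mem_map_of_mem (algebraMap B (Localization.AtPrime n)) hsb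
    rw [map_mul] at h1
    exact (Ideal.unit_mul_mem_iff_mem _
      (IsLocalization.map_units (Localization.AtPrime n) (⟨s, hs⟩ : n.primeCompl))).1 h1
  rw [lnM_atPrime n _ (Localization.AtPrime n), lnM_atPrime r _ (Localization.AtPrime r), e1,
    (Algebra.TensorProduct.quotIdealMapEquivTensorQuot (Localization.AtPrime n)
      (I.map (algebraMap R (Localization.AtPrime r)))).toLinearEquiv.length_eq,
    IsLocalRing.length_baseChange, e2]
  have : IsSimpleModule (Localization.AtPrime n) (Localization.AtPrime n ⧸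
      IsLocalRing.maximalIdeal (Localization.AtPrime n)) :=
    isSimpleModule_iff_quot_maximal.2 ⟨_, inferInstance, ⟨LinearEquiv.refl _ _⟩⟩
  rw [Module.length_eq_one (Localization.AtPrime n), mul_one]

theorem CA5_quot {K J n : Ideal B} [n.IsPrime] (hJ : K ≤ J) (hn : K ≤ n)
    [(n.map (Ideal.Quotient.mk K)).IsPrime] : lnM n (B ⧸ J) =
      lnM (n.map (Ideal.Quotient.mk K)) ((B ⧸ K) ⧸ J.map (Ideal.Quotient.mk K)) := by
  have hm : ∀ s, Ideal.Quotient.mk K s ∈ n.map (Ideal.Quotient.mk K) ↔ s ∈ n := fun s => by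
    rw [Ideal.mem_quotient_iff_mem hn]
  rw [lnM_atPrime (n.map (Ideal.Quotient.mk K)) _
    (Localization.AtPrime (n.map (Ideal.Quotient.mk K))), Ideal.map_map]
  refine lnM_loc _ (fun s hs => ?_) (fun d => ?_) fun a ha => ?_
  · exact IsLocalization.map_units _
      (⟨_, fun h => hs ((hm s).1 h)⟩ : (n.map (Ideal.Quotient.mk K)).primeCompl)
  · obtain ⟨⟨a, s, hs⟩, e⟩ := IsLocalization.surj (n.map (Ideal.Quotient.mk K)).primeCompl d
    obtain ⟨a, rfl⟩ := Ideal.Quotient.mk_surjective a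
    obtain ⟨s, rfl⟩ := Ideal.Quotient.mk_surjective s
    exact ⟨a, s, fun h => hs ((hm s).2 h), e⟩
  · obtain ⟨⟨s, hs⟩, e⟩ := (IsLocalization.map_eq_zero_iff
      (n.map (Ideal.Quotient.mk K)).primeCompl _ _).1 ha
    obtain ⟨s, rfl⟩ := Ideal.Quotient.mk_surjective s
    exact ⟨s, fun h => hs ((hm s).2 h), hJ (Ideal.Quotient.eq_zero_iff_mem.1 e)⟩

theorem CA5_min (φ : R →+* B) (K : Ideal B)
    (h : ∀ r : Ideal R, r.IsPrime → (r.map φ ⊔ K).IsPrime ∧ (r.map φ ⊔ K).comap φ = r)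
    (I : Ideal R) (n : Ideal B) :
    n ∈ (I.map φ ⊔ K).minimalPrimes ↔ ∃ r ∈ I.minimalPrimes, r.map φ ⊔ K = n := by
  constructor
  · intro hn
    have := hn.1.1
    obtain ⟨r, hr, hr'⟩ := Ideal.exists_minimalPrimes_le (I := I) (J := n.comap φ)
      (Ideal.map_le_iff_le_comap.1 (le_sup_left.trans hn.1.2))
    have h1 : r.map φ ⊔ K ≤ n :=
      sup_le (Ideal.map_le_iff_le_comap.2 hr') (le_sup_right.trans hn.1.2)
    exact ⟨r, hr, le_antisymm h1
      (hn.2 ⟨(h r hr.1.1).1, sup_le_sup_right (Ideal.map_mono hr.1.2) K⟩ h1)⟩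
  · rintro ⟨r, hr, rfl⟩
    refine ⟨⟨(h r hr.1.1).1, sup_le_sup_right (Ideal.map_mono hr.1.2) K⟩, fun m hm hle => ?_⟩
    have := hm.1
    refine sup_le (Ideal.map_le_iff_le_comap.2 (hr.2 ⟨inferInstance, ?_⟩ ?_))
      (le_sup_right.trans hm.2)
    · exact Ideal.map_le_iff_le_comap.1 (le_sup_left.trans hm.2)
    · exact (Ideal.comap_mono hle).trans (h r hr.1.1).2.le

theorem CA5_len (φ : R →+* B) (K : Ideal B) (hφ : ((Ideal.Quotient.mk K).comp φ).Flat)
    {r : Ideal R} [r.IsPrime] [(r.map φ ⊔ K).IsPrime] (h : (r.map φ ⊔ K).comap φ = r)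
    (I : Ideal R) : len (r.map φ ⊔ K) (I.map φ ⊔ K) = len r I := by
  have : ((r.map φ ⊔ K).map (Ideal.Quotient.mk K)).IsPrime :=
    Ideal.map_isPrime_of_surjective Ideal.Quotient.mk_surjective (by
      rw [Ideal.mk_ker]; exact le_sup_right)
  have e : ∀ J : Ideal R, (J.map φ ⊔ K).map (Ideal.Quotient.mk K) =
      J.map ((Ideal.Quotient.mk K).comp φ) := fun J => by
    rw [Ideal.map_sup, Ideal.map_quotient_self, sup_bot_eq, Ideal.map_map]
  rw [len_def, len_def, CA5_quot le_sup_right le_sup_right, e I,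
    lnM_flat (r := r) _ hφ _ fun b hb => ⟨1, (Ideal.ne_top_iff_one _).1 this.ne_top, ?_⟩]
  · rw [← Ideal.comap_comap, Ideal.comap_map_quotientMk, ← sup_assoc, sup_comm K, sup_assoc,
      sup_idem, h]
  · rwa [one_mul, ← e]

theorem CA5_cyI [IsNoetherianRing R] [IsNoetherianRing B] (φ : R →+* B) (K : Ideal B)
    (hφ : ((Ideal.Quotient.mk K).comp φ).Flat)
    (h : ∀ r : Ideal R, r.IsPrime → (r.map φ ⊔ K).IsPrime ∧ (r.map φ ⊔ K).comap φ = r)
    (I : Ideal R) : cyI (I.map φ ⊔ K) = mapDomain (fun r => r.map φ ⊔ K) (cyI I) := by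
  classical
  have hs : ∀ r ∈ (cyI I).support, r ∈ I.minimalPrimes := fun r hr =>
    not_not.1 fun h' => mem_support_iff.1 hr (cyI_of_notMem h')
  ext n
  by_cases hn : n ∈ (I.map φ ⊔ K).minimalPrimes
  · rw [cyI_of_mem hn]
    obtain ⟨r, hr, rfl⟩ := (CA5_min φ K h I n).1 hn
    have := hr.1.1
    have := (h r this).1
    rw [mapDomain_apply' I.minimalPrimes (cyI I) hs (fun a ha b hb hab => ?_) hr, cyI_of_mem hr,
      CA5_len φ K hφ (h r ‹_›).2]
    rw [← (h a ha.1.1).2, ← (h b hb.1.1).2]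
    exact congrArg _ hab
  · rw [cyI_of_notMem hn]
    refine (notMem_support_iff.1 fun h' => hn ?_).symm
    obtain ⟨r, hr, e⟩ := Finset.mem_image.1 (mapDomain_support h')
    exact (CA5_min φ K h I n).2 ⟨r, hs r hr, e⟩

theorem dv_base [IsNoetherianRing R] [IsNoetherianRing B] (φ : R →+* B) (K : Ideal B)
    (hφ : ((Ideal.Quotient.mk K).comp φ).Flat)
    (h : ∀ r : Ideal R, r.IsPrime → (r.map φ ⊔ K).IsPrime ∧ (r.map φ ⊔ K).comap φ = r)
    (p : Ideal R) [p.IsPrime] (f : R) :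
    dv (φ f) (single (p.map φ ⊔ K) 1) = mapDomain (fun r => r.map φ ⊔ K) (dv f (single p 1)) := by
  by_cases hf : f ∈ p
  · rw [dv_of_mem hf, dv_of_mem (Ideal.mem_sup_left (Ideal.mem_map_of_mem φ hf)), mapDomain_zero]
  have hf' : φ f ∉ p.map φ ⊔ K := fun h' => hf ((h p ‹_›).2.le h')
  rw [dv_of_notMem hf, dv_of_notMem hf', ← CA5_cyI φ K hφ h, Ideal.map_sup, Ideal.map_span,
    Set.image_singleton, sup_right_comm]

end Pool.Agent.Work.MP_10f4af_ag
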