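import Pool.Agent.Work.MP_10f4af_ag.CA1

/-!
# Finite extensions of one-dimensional local domains

Plan.  `lnM_restrict`: induction over `B` with
`IsNoetherianRing.induction_on_isQuotientEquivQuotientPrime` (carry `Module A N`,
`IsScalarTower A B N` inside the motive, or use `Module.compHom`); for `N ≃ B ⧸ n₀` the prime
`n₀` contains `f`, so it lies over `m` and is maximal; `B ⧸ n₀` is an `A ⧸ m`-vector space of
dimension `inertiaDeg` (`Ideal.inertiaDeg_eq_of_isMaximal`), and since `A` is local,
`lnM m N = Module.length A N`.  `len_finite`: `herb` for the `A`-module `B` with `S = {⊥}`; the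
kernel of `f` vanishes and `lnM ⊥ B = finrank A B`.
-/

namespace Pool.Agent.Work.MP_10f4af_ag

open IsLocalRing

universe u

variable {A B : Type u} [CommRing A] [IsDomain A] [IsLocalRing A] [IsNoetherianRing A]
  [CommRing B] [Algebra A B] [Module.Finite A B]

omit [IsDomain A] [IsNoetherianRing A] in
theorem CA6_local (N : Type u) [AddCommGroup N] [Module A N] :
    lnM (maximalIdeal A) N = Module.length A N := by
  have H : Submonoid.closure ((maximalIdeal A : Set A)ᶜ) ≤ IsUnit.submonoid A :=
    Submonoid.closure_le.2 fun x hx => notMem_maximalIdeal.1 hx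
  rw [lnM]
  generalize Submonoid.closure ((maximalIdeal A : Set A)ᶜ) = S at H ⊢
  have := IsLocalization.self H
  have := isLocalizedModule_id S N A
  have hs : Function.Surjective (algebraMap A (Localization S)) := fun y =>
    ⟨(IsLocalization.atUnits A S H).symm y, by
      rw [← (IsLocalization.atUnits A S (S := Localization S) H).commutes]
      exact (IsLocalization.atUnits A S H).apply_symm_apply y⟩
  rw [← Module.length_eq_of_surjective hs]
  exact (IsLocalizedModule.iso S (LinearMap.id : N →ₗ[A] N)).length_eq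

omit [IsLocalRing A] [IsNoetherianRing A] in
theorem CA6_bot (N : Type u) [AddCommGroup N] [Module A N] [Module.Finite A N] :
    lnM (⊥ : Ideal A) N = Module.finrank A N := by
  have H : Submonoid.closure (((⊥ : Ideal A) : Set A)ᶜ) = nonZeroDivisors A := by
    rw [← Submonoid.closure_eq (nonZeroDivisors A)]
    congr 1
    ext x
    simp [mem_nonZeroDivisors_iff_ne_zero]
  rw [lnM, H]
  refine (Module.length_eq_finrank (FractionRing A) _).trans ?_
  rw [IsLocalization.finrank_eq (FractionRing A) (nonZeroDivisors A) le_rfl,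
    IsLocalizedModule.finrank_eq (nonZeroDivisors A)
      (LocalizedModule.mkLinearMap (nonZeroDivisors A) N) le_rfl]

omit [IsDomain A] [IsNoetherianRing A] in
theorem CA6_prime (hA : ∀ n : Ideal A, n.IsPrime → n = ⊥ ∨ n = maximalIdeal A) {f : A}
    (hf : f ≠ 0) (s : Finset (Ideal B)) (hs : ∀ n, n ∈ s ↔ n.IsMaximal) (p : Ideal B) [p.IsPrime]
    (hp : algebraMap A B f ∈ p) :
    Module.length A (B ⧸ p) = ∑ n ∈ s, (n.inertiaDeg A : ℕ∞) * lnM n (B ⧸ p) := by
  have h1 : p.comap (algebraMap A B) = maximalIdeal A :=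
    (hA _ inferInstance).resolve_left fun h => hf (by
      rw [← Ideal.mem_bot, ← h]
      exact hp)
  have : p.LiesOver (maximalIdeal A) := ⟨h1.symm⟩
  have hm : p.IsMaximal :=
    Ideal.isMaximal_of_isIntegral_of_isMaximal_comap p (h1 ▸ maximalIdeal.isMaximal A)
  rw [Finset.sum_eq_single_of_mem p ((hs p).2 hm) fun n hn hne => ?_, lnM_self, mul_one,
    Ideal.inertiaDeg_eq_of_isMaximal (maximalIdeal A) p,
    Module.length_eq_of_surjective (R := A ⧸ maximalIdeal A) Ideal.Quotient.mk_surjective]
  · let : Field (A ⧸ maximalIdeal A) := Ideal.Quotient.field _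
    have : Module.Finite (A ⧸ maximalIdeal A) (B ⧸ p) := Module.Finite.of_restrictScalars_finite A _ _
    exact Module.length_eq_finrank _ _
  · have hn' := (hs n).1 hn
    rw [(lnM_eq_zero_iff n p).2 fun h => hne (hm.eq_of_le hn'.ne_top h).symm, mul_zero]

theorem lnM_restrict (hA : ∀ n : Ideal A, n.IsPrime → n = ⊥ ∨ n = maximalIdeal A) {f : A}
    (hf : f ≠ 0) (s : Finset (Ideal B)) (hs : ∀ n, n ∈ s ↔ n.IsMaximal) (N : Type u)
    [AddCommGroup N] [Module B N] [Module.Finite B N] [Module A N] [IsScalarTower A B N]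
    (hN : ∀ x : N, f • x = 0) :
    lnM (maximalIdeal A) N = ∑ n ∈ s, (n.inertiaDeg A : ℕ∞) * lnM n N := by
  have : IsNoetherianRing B := IsNoetherianRing.of_finite A B
  rw [CA6_local]
  refine IsNoetherianRing.induction_on_isQuotientEquivQuotientPrime B ‹Module.Finite B N›
    (motive := fun N _ _ _ => ∀ [Module A N] [IsScalarTower A B N], (∀ x : N, f • x = 0) →
      Module.length A N = ∑ n ∈ s, (n.inertiaDeg A : ℕ∞) * lnM n N) ?_ ?_ ?_ hN
  · intro N _ _ _ _ _ _ _
    rw [Module.length_eq_zero]
    refine (Finset.sum_eq_zero fun n hn => ?_).symm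
    have hn' := (hs n).1 hn
    rw [lnM_eq_zero ((Ideal.ne_top_iff_one n).1 hn'.ne_top) fun x => Subsingleton.elim _ _,
      mul_zero]
  · intro N _ _ _ p e _ _ h
    have := p.2
    have h1 : algebraMap A B f ∈ p.1 := by
      have h2 := congrArg e (h (e.symm 1))
      rwa [← algebraMap_smul B, map_smul, e.apply_symm_apply, map_zero, Algebra.smul_def, mul_one,
        Ideal.Quotient.algebraMap_eq, Ideal.Quotient.eq_zero_iff_mem] at h2
    simp only [lnM_equiv _ e]
    rw [(e.restrictScalars A).length_eq, CA6_prime hA hf s hs p.1 h1]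
  · intro N₁ _ _ _ N₂ _ _ _ N₃ _ _ _ i g hi hg hex h₁ h₃ _ _ h
    let : Module A N₁ := Module.compHom N₁ (algebraMap A B)
    have : IsScalarTower A B N₁ := IsScalarTower.of_algebraMap_smul fun _ _ => rfl
    let : Module A N₃ := Module.compHom N₃ (algebraMap A B)
    have : IsScalarTower A B N₃ := IsScalarTower.of_algebraMap_smul fun _ _ => rfl
    rw [Module.length_eq_add_of_exact (i.restrictScalars A) (g.restrictScalars A) hi hg hex,
      h₁ fun x => hi (by rw [i.map_smul_of_tower, h, map_zero]), h₃ fun x => ?_,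
      ← Finset.sum_add_distrib]
    · exact Finset.sum_congr rfl fun n _ => by rw [lnM_exact n i g hi hg hex, mul_add]
    · obtain ⟨y, rfl⟩ := hg x
      rw [← g.map_smul_of_tower, h, map_zero]

theorem len_finite [IsDomain B] [FaithfulSMul A B]
    (hA : ∀ n : Ideal A, n.IsPrime → n = ⊥ ∨ n = maximalIdeal A) {f : A} (hf : f ≠ 0)
    (hm : f ∈ maximalIdeal A) (s : Finset (Ideal B)) (hs : ∀ n, n ∈ s ↔ n.IsMaximal) :
    Module.finrank A B * len (maximalIdeal A) (Ideal.span {f}) =
      ∑ n ∈ s, n.inertiaDeg A * len n (Ideal.span {algebraMap A B f}) := by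
  have hmin : maximalIdeal A ∈ (Ideal.span {f}).minimalPrimes := by
    refine ⟨⟨inferInstance, (Ideal.span_singleton_le_iff_mem _).2 hm⟩, fun r hr _ => ?_⟩
    rcases hA r hr.1 with h | h
    · exact absurd (Ideal.mem_bot.1 (h ▸ (Ideal.span_singleton_le_iff_mem _).1 hr.2)) hf
    · exact h.ge
  have h1 := herb hm {⊥} (fun r hr => by
    rw [Finset.mem_singleton.1 hr, bot_sup_eq]
    exact ⟨Ideal.isPrime_bot, fun h => hf (Ideal.mem_bot.1 h), hmin⟩) B
    fun r hr _ _ => (hA r hr).symm.imp_right Finset.mem_singleton.2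
  have hf' : algebraMap A B f ≠ 0 := (map_ne_zero_iff _ (FaithfulSMul.algebraMap_injective A B)).2 hf
  have h2 : lnM (maximalIdeal A) (LinearMap.ker (LinearMap.lsmul A B f)) = 0 := by
    refine lnM_eq_zero ((Ideal.ne_top_iff_one _).1 (maximalIdeal.isMaximal A).ne_top) fun x => ?_
    have hx : f • x.1 = 0 := x.2
    rw [Algebra.smul_def, mul_eq_zero] at hx
    rw [one_smul]
    exact Subtype.ext (hx.resolve_left hf')
  have h3 : LinearMap.range (LinearMap.lsmul A B f) =
      (Ideal.span {algebraMap A B f}).restrictScalars A := by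
    ext x
    simp only [LinearMap.mem_range, LinearMap.lsmul_apply, Submodule.restrictScalars_mem,
      Ideal.mem_span_singleton, Algebra.smul_def]
    exact exists_congr fun y => eq_comm
  rw [h2, zero_add, Finset.sum_singleton, bot_sup_eq, CA6_bot, h3,
    lnM_equiv _ (Submodule.Quotient.restrictScalarsEquiv A (Ideal.span {algebraMap A B f})),
    lnM_restrict hA hf s hs _ fun x => ?_] at h1
  · have h4 := lnM_min hmin
    have h5 : ∀ n ∈ s, lnM n (B ⧸ Ideal.span {algebraMap A B f}) ≠ ⊤ := by
      intro n hn h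
      have hn' := (hs n).1 hn
      have h6 := Finset.single_le_sum (f := fun n : Ideal B => (n.inertiaDeg A : ℕ∞) *
        lnM n (B ⧸ Ideal.span {algebraMap A B f})) (fun _ _ => zero_le) hn
      rw [h1, h, ENat.mul_top (Nat.cast_ne_zero.2 (n.inertiaDeg_pos A).ne'), top_le_iff] at h6
      exact WithTop.mul_ne_top (ENat.natCast_ne_top _) h4 h6
    apply Nat.cast_injective (R := ℕ∞)
    rw [Nat.cast_mul, Nat.cast_sum, len_def, ENat.natCast_toNat h4, ← h1]
    exact Finset.sum_congr rfl fun n hn => by rw [Nat.cast_mul, len_def, ENat.natCast_toNat (h5 n hn)]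
  · obtain ⟨y, rfl⟩ := Ideal.Quotient.mk_surjective x
    rw [← algebraMap_smul B, Algebra.smul_def, Ideal.Quotient.algebraMap_eq,
      Ideal.Quotient.eq_zero_iff_mem.2 (Ideal.mem_span_singleton_self _), zero_mul]

end Pool.Agent.Work.MP_10f4af_ag
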