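import Pool.Agent.Work.MP_10f4af_ag.CA0

/-!
# Iterated divisors: formal properties

Plan: `Ideal.finite_minimalPrimes_of_isNoetherianRing` turns the finsum into a finite sum.
`ht_le` is Krull's height theorem in `R ⧸ p` (`Ideal.height_le_card_of_mem_minimalPrimes_span`,
`Ideal.minimalPrimes_map_of_surjective`).  `dv_mul`: a minimal prime `r` of `p + (f)` is minimal
over `p + (f g)` since there is no prime strictly between `p` and `r` (`ht_le`, `ht_lt`).
`mult_last`: write `mult (fs ++ [f]) p q` as a sum over `r` in the support of `dvs fs [p]`; these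
contain `p + (fs)`, and for `r ≤ q` the ideals `r + (f)`, `r + (g)` agree locally at `q`
(`lnM_congr`, `min_congr`; a common `s` is the product).
-/

namespace Pool.Agent.Work.MP_10f4af_ag

open Finsupp

universe u

variable {R : Type u} [CommRing R]

/-- The cycle of an ideal. -/
noncomputable def cyI (I : Ideal R) : Ideal R →₀ ℚ :=
  ∑ᶠ r ∈ I.minimalPrimes, single r (len r I : ℚ)

/-- Iterated divisors. -/
noncomputable def dvs : List R → (Ideal R →₀ ℚ) →ₗ[ℚ] (Ideal R →₀ ℚ)
  | [] => LinearMap.id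
  | f :: fs => dvs fs ∘ₗ dv f

/-- The height of `q / p`. -/
noncomputable def ht (p q : Ideal R) : ℕ∞ := (q.map (Ideal.Quotient.mk p)).height

theorem dvs_nil (a : Ideal R →₀ ℚ) : dvs [] a = a := rfl

theorem dvs_cons (f : R) (fs : List R) (a : Ideal R →₀ ℚ) :
    dvs (f :: fs) a = dvs fs (dv f a) := rfl

theorem dvs_append (fs gs : List R) (a : Ideal R →₀ ℚ) :
    dvs (fs ++ gs) a = dvs gs (dvs fs a) := by
  induction fs generalizing a with
  | nil => rfl
  | cons f fs ih => rw [List.cons_append, dvs_cons, dvs_cons, ih]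

theorem CAb_foldl (fs : List R) (a : Ideal R →₀ ℚ) :
    fs.foldl (fun a f => dv f a) a = dvs fs a := by
  induction fs generalizing a with
  | nil => rfl
  | cons f fs ih => rw [List.foldl_cons, ih, dvs_cons]

theorem mult_eq (fs : List R) (p q : Ideal R) : mult fs p q = dvs fs (single p 1) q := by
  rw [mult, CAb_foldl]

theorem dvs_apply (fs : List R) (a : Ideal R →₀ ℚ) (q : Ideal R) :
    dvs fs a q = a.sum fun p c => c * mult fs p q := by
  conv_lhs => rw [← sum_single a]
  rw [Finsupp.sum, Finsupp.sum, map_sum, finsetSum_apply]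
  refine Finset.sum_congr rfl fun p _ => ?_
  rw [mult_eq, ← smul_eq_mul, ← Finsupp.smul_apply, ← map_smul, smul_single_one]

theorem CAb_append (fs gs : List R) (p q : Ideal R) : mult (fs ++ gs) p q =
    ∑ r ∈ (dvs fs (single p 1)).support, mult fs p r * mult gs r q := by
  rw [mult_eq, dvs_append, dvs_apply]
  exact Finset.sum_congr rfl fun r _ => by rw [mult_eq fs p r]

theorem CAb_cons (f : R) (fs : List R) (p q : Ideal R) : mult (f :: fs) p q =
    ∑ r ∈ (dvs [f] (single p 1)).support, mult [f] p r * mult fs r q :=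
  CAb_append [f] fs p q

theorem CAb_one (f : R) (p r : Ideal R) : mult [f] p r = dv f (single p 1) r := rfl

theorem CAb_nil {p q : Ideal R} (h : mult [] p q ≠ 0) : p = q := by
  by_contra h'
  exact h (single_eq_of_ne' h')

theorem dv_of_mem {f : R} {p : Ideal R} (h : f ∈ p) : dv f (single p 1) = 0 := by
  rw [dv, linearCombination_single, if_pos h, smul_zero]

theorem dv_of_notMem {f : R} {p : Ideal R} (h : f ∉ p) :
    dv f (single p 1) = cyI (p ⊔ Ideal.span {f}) := by
  rw [dv, linearCombination_single, if_neg h, one_smul, cyI]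

theorem dv_congr {f g : R} {p : Ideal R} (h : f - g ∈ p) :
    dv f (single p 1) = dv g (single p 1) := by
  have key : ∀ {f g : R}, f - g ∈ p → p ⊔ Ideal.span {f} ≤ p ⊔ Ideal.span {g} := fun {f g} h =>
    sup_le le_sup_left ((Ideal.span_singleton_le_iff_mem _).2 (by
      rw [← sub_add_cancel f g]
      exact add_mem (Ideal.mem_sup_left h)
        (Ideal.mem_sup_right (Ideal.mem_span_singleton_self g))))
  have h' : g - f ∈ p := by
    rw [← neg_sub]
    exact neg_mem h
  by_cases hf : f ∈ p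
  · rw [dv_of_mem hf, dv_of_mem (by simpa using add_mem h' hf)]
  · rw [dv_of_notMem hf, dv_of_notMem (fun hg => hf (by simpa using add_mem h hg)),
      le_antisymm (key h) (key h')]

theorem ht_lt {p r q : Ideal R} [p.IsPrime] [q.IsPrime] (h : p < r) (h' : r ≤ q) :
    ht r q + 1 ≤ ht p q := by
  have h1 : (q.map (Ideal.Quotient.mk r)).IsPrime := Ideal.isPrime_map_quotientMk_of_isPrime h'
  have h2 : (q.map (Ideal.Quotient.mk p)).IsPrime :=
    Ideal.isPrime_map_quotientMk_of_isPrime (h.le.trans h')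
  let φ : WithBot (PrimeSpectrum (R ⧸ r)) → PrimeSpectrum (R ⧸ p) :=
    WithBot.recBotCoe ⟨⊥, Ideal.isPrime_bot⟩ (PrimeSpectrum.comap (Ideal.Quotient.factor h.le))
  have h3 : StrictMono φ := by
    refine WithBot.strictMono_iff.2
      ⟨RingHom.strictMono_comap_of_surjective (Ideal.Quotient.factor_surjective h.le), fun x => ?_⟩
    obtain ⟨a, ha, ha'⟩ := SetLike.exists_of_lt h
    change (⊥ : Ideal (R ⧸ p)) < x.asIdeal.comap (Ideal.Quotient.factor h.le)
    refine bot_lt_iff_ne_bot.2 fun e => ha' ?_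
    have h4 : Ideal.Quotient.mk p a ∈ x.asIdeal.comap (Ideal.Quotient.factor h.le) := by
      rw [Ideal.mem_comap, Ideal.Quotient.factor_mk, Ideal.Quotient.eq_zero_iff_mem.2 ha]
      exact zero_mem _
    rw [e] at h4
    exact Ideal.Quotient.eq_zero_iff_mem.1 h4
  have h4 := Order.height_le_height_apply_of_strictMono φ h3 (⟨_, h1⟩ : PrimeSpectrum (R ⧸ r))
  have h5 : φ (⟨_, h1⟩ : PrimeSpectrum (R ⧸ r)) = ⟨_, h2⟩ := by
    refine PrimeSpectrum.ext (Ideal.ext fun x => ?_)
    obtain ⟨a, rfl⟩ := Ideal.Quotient.mk_surjective x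
    exact (Ideal.mem_quotient_iff_mem h').trans (Ideal.mem_quotient_iff_mem (h.le.trans h')).symm
  rw [h5, Order.height_coe_withBot, ← PrimeSpectrum.height_eq_orderHeight,
    ← PrimeSpectrum.height_eq_orderHeight] at h4
  exact h4

variable [IsNoetherianRing R]

theorem cyI_of_mem {I r : Ideal R} (h : r ∈ I.minimalPrimes) : cyI I r = len r I := by
  have hf := Ideal.finite_minimalPrimes_of_isNoetherianRing R I
  rw [cyI, finsum_mem_eq_finite_toFinset_sum _ hf, finsetSum_apply,
    Finset.sum_eq_single_of_mem r (hf.mem_toFinset.2 h) fun _ _ h' => single_eq_of_ne' h',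
    single_eq_same]

theorem cyI_of_notMem {I r : Ideal R} (h : r ∉ I.minimalPrimes) : cyI I r = 0 := by
  have hf := Ideal.finite_minimalPrimes_of_isNoetherianRing R I
  rw [cyI, finsum_mem_eq_finite_toFinset_sum _ hf, finsetSum_apply]
  exact Finset.sum_eq_zero fun r' hr' => single_eq_of_ne' fun e => h (e ▸ hf.mem_toFinset.1 hr')

theorem cyI_prime (p : Ideal R) [p.IsPrime] : cyI p = single p 1 := by
  rw [cyI, Ideal.minimalPrimes_eq_subsingleton_self, finsum_mem_singleton, len_self,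
    Nat.cast_one]

theorem mult_one_ne {f : R} {p r : Ideal R} :
    mult [f] p r ≠ 0 ↔ f ∉ p ∧ r ∈ (p ⊔ Ideal.span {f}).minimalPrimes := by
  rw [CAb_one]
  refine ⟨fun h => ?_, fun h => ?_⟩
  · have hf : f ∉ p := fun hf => h (by rw [dv_of_mem hf, Finsupp.zero_apply])
    rw [dv_of_notMem hf] at h
    exact ⟨hf, by_contra fun h' => h (cyI_of_notMem h')⟩
  · rw [dv_of_notMem h.1, cyI_of_mem h.2]
    exact Nat.cast_ne_zero.2 (len_pos h.2).ne'

theorem CAb_nat (f : R) (p r : Ideal R) : ∃ n : ℕ, mult [f] p r = n := by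
  rw [CAb_one]
  by_cases hf : f ∈ p
  · exact ⟨0, by rw [dv_of_mem hf, Nat.cast_zero, Finsupp.zero_apply]⟩
  · rw [dv_of_notMem hf]
    by_cases hr : r ∈ (p ⊔ Ideal.span {f}).minimalPrimes
    · exact ⟨_, cyI_of_mem hr⟩
    · exact ⟨0, by rw [cyI_of_notMem hr, Nat.cast_zero]⟩

theorem mult_nat (fs : List R) (p q : Ideal R) : ∃ n : ℕ, mult fs p q = n := by
  induction fs generalizing p with
  | nil =>
    by_cases h : p = q
    · exact ⟨1, by rw [h, Nat.cast_one]; exact single_eq_same⟩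
    · exact ⟨0, by rw [Nat.cast_zero]; exact single_eq_of_ne' h⟩
  | cons f fs ih =>
    choose n hn using ih
    choose m hm using CAb_nat f p
    refine ⟨∑ r ∈ (dvs [f] (single p 1)).support, m r * n r, ?_⟩
    simp only [CAb_cons, hn, hm, Nat.cast_sum, Nat.cast_mul]

theorem mult_nonneg (fs : List R) (p q : Ideal R) : 0 ≤ mult fs p q := by
  obtain ⟨n, hn⟩ := mult_nat fs p q
  rw [hn]
  exact Nat.cast_nonneg n

theorem mult_cons_ne {f : R} {fs : List R} {p q : Ideal R} :
    mult (f :: fs) p q ≠ 0 ↔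
      f ∉ p ∧ ∃ r ∈ (p ⊔ Ideal.span {f}).minimalPrimes, mult fs r q ≠ 0 := by
  rw [CAb_cons]
  refine ⟨fun h => ?_, fun ⟨hf, r, hr, h⟩ h' => ?_⟩
  · obtain ⟨r, -, hr⟩ := Finset.exists_ne_zero_of_sum_ne_zero h
    have h1 := mult_one_ne.1 (left_ne_zero_of_mul hr)
    exact ⟨h1.1, r, h1.2, right_ne_zero_of_mul hr⟩
  · have h1 := mult_one_ne.2 ⟨hf, hr⟩
    exact mul_ne_zero h1 h ((Finset.sum_eq_zero_iff_of_nonneg fun r _ =>
      mul_nonneg (mult_nonneg _ _ _) (mult_nonneg _ _ _)).1 h' r (mem_support_iff.2 h1))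

theorem le_of_mult {fs : List R} {p q : Ideal R} (h : mult fs p q ≠ 0) :
    p ⊔ Ideal.ofList fs ≤ q := by
  induction fs generalizing p with
  | nil => rw [Ideal.ofList_nil, sup_bot_eq, CAb_nil h]
  | cons f fs ih =>
    obtain ⟨-, r, hr, h1⟩ := mult_cons_ne.1 h
    rw [Ideal.ofList_cons, ← sup_assoc]
    exact (sup_le_sup_right hr.le _).trans (ih h1)

theorem prime_of_mult {fs : List R} {p q : Ideal R} [p.IsPrime] (h : mult fs p q ≠ 0) :
    q.IsPrime := by
  induction fs generalizing p with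
  | nil => exact CAb_nil h ▸ ‹p.IsPrime›
  | cons f fs ih =>
    obtain ⟨-, r, hr, h1⟩ := mult_cons_ne.1 h
    have := hr.isPrime
    exact ih h1

theorem ht_le {fs : List R} {p q : Ideal R} (h : q ∈ (p ⊔ Ideal.ofList fs).minimalPrimes) :
    ht p q ≤ fs.length := by
  classical
  have h1 : q.map (Ideal.Quotient.mk p) ∈
      (Ideal.span ((fs.map (Ideal.Quotient.mk p)).toFinset : Set (R ⧸ p))).minimalPrimes := by
    have h2 : Ideal.span ((fs.map (Ideal.Quotient.mk p)).toFinset : Set (R ⧸ p)) =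
        (Ideal.ofList fs).map (Ideal.Quotient.mk p) := by
      rw [Ideal.map_ofList, List.coe_toFinset]
    rw [h2, Ideal.minimalPrimes_map_of_surjective Ideal.Quotient.mk_surjective, Ideal.mk_ker,
      sup_comm]
    exact ⟨q, h, rfl⟩
  refine (Ideal.height_le_card_of_mem_minimalPrimes_span_finset h1).trans (Nat.cast_le.2 ?_)
  exact (List.toFinset_card_le _).trans (List.length_map _).le

theorem le_ht {fs : List R} {p q : Ideal R} [p.IsPrime] (h : mult fs p q ≠ 0) :
    (fs.length : ℕ∞) ≤ ht p q := by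
  induction fs generalizing p with
  | nil => exact zero_le
  | cons f fs ih =>
    obtain ⟨hf, r, hr, h1⟩ := mult_cons_ne.1 h
    have := hr.isPrime
    have := prime_of_mult h1
    have h2 : p < r := lt_of_le_of_ne (le_sup_left.trans hr.le) fun e =>
      hf (e ▸ hr.le (Ideal.mem_sup_right (Ideal.mem_span_singleton_self f)))
    rw [List.length_cons, Nat.cast_succ]
    exact (add_le_add (ih h1) le_rfl).trans (ht_lt h2 (le_sup_left.trans (le_of_mult h1)))

theorem dvs_congr (fs : List R) {a b : Ideal R →₀ ℚ} {q : Ideal R} (h : ∀ r ≤ q, a r = b r) :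
    dvs fs a q = dvs fs b q := by
  rw [← sub_eq_zero, ← Finsupp.sub_apply, ← map_sub, dvs_apply, Finsupp.sum]
  refine Finset.sum_eq_zero fun r _ => ?_
  by_cases hr : r ≤ q
  · rw [Finsupp.sub_apply, h r hr, sub_self, zero_mul]
  · refine mul_eq_zero_of_right _ ?_
    by_contra h0
    exact hr (le_sup_left.trans (le_of_mult h0))

theorem CAb_min {a b : R} {p r : Ideal R} [p.IsPrime] (h : r ∈ (p ⊔ Ideal.span {a}).minimalPrimes)
    (hb : b ∈ r) (hp : b ∉ p) : r ∈ (p ⊔ Ideal.span {b}).minimalPrimes := by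
  have := h.isPrime
  refine ⟨⟨this, sup_le (le_sup_left.trans h.le) ((Ideal.span_singleton_le_iff_mem _).2 hb)⟩, ?_⟩
  rintro r' ⟨h1, h2⟩ h3
  by_contra h4
  have h5 : p < r' := lt_of_le_of_ne (le_sup_left.trans h2) fun e =>
    hp (e ▸ h2 (Ideal.mem_sup_right (Ideal.mem_span_singleton_self b)))
  have h6 : ht p r ≤ 1 := ht_le (fs := [a]) (by rwa [Ideal.ofList_singleton])
  have h7 := ht_lt (lt_of_le_not_ge h3 h4) (le_refl r)
  have h8 := (add_le_add (le_add_self.trans h7) (le_refl 1)).trans ((ht_lt h5 h3).trans h6)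
  exact absurd h8 (by decide)

theorem dv_mul {f g : R} {p : Ideal R} [p.IsPrime] (hf : f ∉ p) (hg : g ∉ p) :
    dv (f * g) (single p 1) = dv f (single p 1) + dv g (single p 1) := by
  have hfg : f * g ∉ p := fun h => (Ideal.IsPrime.mem_or_mem ‹_› h).elim hf hg
  rw [dv_of_notMem hf, dv_of_notMem hg, dv_of_notMem hfg]
  ext r
  rw [Finsupp.add_apply]
  have hm : ∀ {a : R}, r ∈ (p ⊔ Ideal.span {a}).minimalPrimes → a ∈ r := fun {a} h =>
    h.le (Ideal.mem_sup_right (Ideal.mem_span_singleton_self a))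
  by_cases hr : r ∈ (p ⊔ Ideal.span {f * g}).minimalPrimes
  · have := hr.isPrime
    have key : ∀ {a : R}, a ∉ p → cyI (p ⊔ Ideal.span {a}) r = len r (p ⊔ Ideal.span {a}) :=
      fun {a} ha => by
        by_cases h : a ∈ r
        · exact cyI_of_mem (CAb_min hr h ha)
        · rw [cyI_of_notMem (mt hm h), len_zero fun h' =>
            h (h' (Ideal.mem_sup_right (Ideal.mem_span_singleton_self a))), Nat.cast_zero]
    have h1 := lnM_min hr
    rw [key hf, key hg, key hfg, len_def, len_def, len_def]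
    rw [lnM_mul r p f hg] at h1 ⊢
    rw [ENat.toNat_add (ne_top_of_le_ne_top h1 le_self_add) (ne_top_of_le_ne_top h1 le_add_self),
      Nat.cast_add]
  · rw [cyI_of_notMem hr, cyI_of_notMem fun h =>
      hr (CAb_min h (Ideal.mul_mem_right _ _ (hm h)) hfg), cyI_of_notMem fun h =>
      hr (CAb_min h (Ideal.mul_mem_left _ _ (hm h)) hfg), add_zero]

omit [IsNoetherianRing R] in
theorem CAb_mem {f g s : R} {r : Ideal R} (h : s * f ∈ r ⊔ Ideal.span {g}) :
    ∀ x ∈ r ⊔ Ideal.span {f}, s * x ∈ r ⊔ Ideal.span {g} := by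
  intro x hx
  obtain ⟨a, ha, b, hb, rfl⟩ := Submodule.mem_sup.1 hx
  obtain ⟨c, rfl⟩ := Ideal.mem_span_singleton'.1 hb
  rw [mul_add, mul_left_comm]
  exact add_mem (Ideal.mem_sup_left (Ideal.mul_mem_left _ _ ha)) (Ideal.mul_mem_left _ _ h)

omit [IsNoetherianRing R] in
theorem CAb_mem' {f g s : R} {r : Ideal R} [r.IsPrime] (hs : s ∉ r)
    (h : s * f ∈ r ⊔ Ideal.span {g}) (hg : g ∈ r) : f ∈ r := by
  rw [sup_eq_left.2 ((Ideal.span_singleton_le_iff_mem _).2 hg)] at h
  exact (Ideal.IsPrime.mem_or_mem ‹_› h).resolve_left hs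

theorem CAb_loc {f g s : R} {r q : Ideal R} [r.IsPrime] [q.IsPrime] (hs : s ∉ q)
    (h : s * f ∈ r ⊔ Ideal.span {g}) (h' : s * g ∈ r ⊔ Ideal.span {f}) :
    mult [f] r q = mult [g] r q := by
  by_cases hr : r ≤ q
  · have hs' : s ∉ r := fun e => hs (hr e)
    rw [CAb_one, CAb_one]
    by_cases hf : f ∈ r
    · rw [dv_of_mem hf, dv_of_mem (CAb_mem' hs' h' hf)]
    · rw [dv_of_notMem hf, dv_of_notMem (mt (CAb_mem' hs' h) hf)]
      by_cases hq : q ∈ (r ⊔ Ideal.span {f}).minimalPrimes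
      · rw [cyI_of_mem hq, cyI_of_mem (min_congr hs (CAb_mem h) (CAb_mem h') hq), len_def,
          len_def, lnM_congr hs (CAb_mem h) (CAb_mem h')]
      · rw [cyI_of_notMem hq, cyI_of_notMem (mt (min_congr hs (CAb_mem h') (CAb_mem h)) hq)]
  · have h0 : ∀ x : R, mult [x] r q = 0 := fun x => by
      by_contra h0
      exact hr (le_sup_left.trans (le_of_mult h0))
    rw [h0, h0]

theorem mult_last {fs : List R} {f g s : R} {p q : Ideal R} [p.IsPrime] [q.IsPrime] (hs : s ∉ q)
    (h : s * f ∈ p ⊔ Ideal.ofList (fs ++ [g])) (h' : s * g ∈ p ⊔ Ideal.ofList (fs ++ [f])) :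
    mult (fs ++ [f]) p q = mult (fs ++ [g]) p q := by
  rw [CAb_append, CAb_append]
  refine Finset.sum_congr rfl fun r hr => ?_
  have h1 : mult fs p r ≠ 0 := by
    rw [mult_eq]
    exact mem_support_iff.1 hr
  have := prime_of_mult h1
  rw [Ideal.ofList_append, Ideal.ofList_singleton, ← sup_assoc] at h h'
  rw [CAb_loc hs (sup_le_sup_right (le_of_mult h1) _ h) (sup_le_sup_right (le_of_mult h1) _ h')]

end Pool.Agent.Work.MP_10f4af_ag
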