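import Mathlib

/-! # Intersection multiplicities -/

namespace Pool.Agent.Work.MP_10f4af_ag

universe u

variable {R : Type u} [CommRing R]

/-- The length of `(R / J)ₚ` over `Rₚ`. -/
noncomputable def len (p J : Ideal R) : ℕ :=
  (Module.length (Localization (Submonoid.closure (p : Set R)ᶜ))
    (LocalizedModule (Submonoid.closure (p : Set R)ᶜ) (R ⧸ J))).toNat

open Classical in
/-- Intersection with a hypersurface: `V(p)` goes to the divisor of `f` on `V(p)`. -/
noncomputable def dv (f : R) : (Ideal R →₀ ℚ) →ₗ[ℚ] (Ideal R →₀ ℚ) :=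
  Finsupp.linearCombination ℚ fun p => if f ∈ p then 0 else
    ∑ᶠ r ∈ (p ⊔ Ideal.span {f}).minimalPrimes, Finsupp.single r (len r (p ⊔ Ideal.span {f}) : ℚ)

/-- The multiplicity of `V(q)` in `V(p) · f₁ · ... · f_c`. -/
noncomputable def mult (fs : List R) (p q : Ideal R) : ℚ :=
  fs.foldl (fun a f => dv f a) (Finsupp.single p 1) q

/-- The elements `fs` of `J` generate `J` on `V(p)` locally at `q`. -/
def Gen (J p q : Ideal R) (fs : List R) : Prop :=
  (∀ f ∈ fs, f ∈ J) ∧ ∃ s ∉ q, ∀ g ∈ J, s * g ∈ p ⊔ Ideal.ofList fs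

end Pool.Agent.Work.MP_10f4af_ag
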