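import Pool.Agent.Work.MP_10f4af_ag.Pre
import Pool.Agent.Work.MP_10f4af_ag.DefsA

/-!
# Chow groups, correspondences, Weil cohomology, Chow-Künneth decompositions

Classical language over an algebraically closed field `k`.  A subvariety of a product of
projective spaces is recorded by its multihomogeneous prime ideal, and a cycle is a finite
rational combination of such ideals.
-/

open MvPolynomial Topology TopologicalSpace

namespace Pool.Agent.Work.MP_10f4af_ag

open MP_ffcd14_ag (Amb ev IsForm Var IsPD)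

universe u v w

variable {k : Type u} [Field k] {P Q S : Amb}

/-- Cycles. -/
abbrev Cyc (k : Type u) [Field k] (P : Amb) := Ideal (MvPolynomial P.V k) →₀ ℚ

/-- The multihomogeneous ideal of a set of points. -/
noncomputable def idl (A : Set (P.Pt k)) : Ideal (MvPolynomial P.V k) :=
  Ideal.span {f | (∃ a, IsForm f a) ∧ ∀ x ∈ A, ev x f = 0}

/-- `q` does not contain all the coordinates of a factor, so that `V(q)` is not empty. -/
def Rel (q : Ideal (MvPolynomial P.V k)) : Prop := ∀ i, ∃ s, X ⟨i, s⟩ ∉ q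

/-- Intersection with `V(J)`, for `J` locally generated by `c` elements: the components `q`
of the intersection, with the multiplicity given by `c` local equations (it vanishes unless `q`
has codimension `c`). -/
noncomputable def gys (J : Ideal (MvPolynomial P.V k)) (c : ℕ) : Cyc k P →ₗ[ℚ] Cyc k P :=
  Finsupp.linearCombination ℚ fun p => ∑ᶠ (q ∈ (p ⊔ J).minimalPrimes) (_ : Rel q),
    Finsupp.single q (mult (Classical.epsilon fun fs => fs.length = c ∧ Gen J p q fs) p q)

/-- The function field generated by the ratios of the homogeneous coordinates `v`. -/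
noncomputable def fld (k : Type u) [Field k] {L : Type u} [Field L] [Algebra k L] (v : P.V → L) :
    IntermediateField k L :=
  IntermediateField.adjoin k {y | ∃ i s t, y = v ⟨i, s⟩ / v ⟨i, t⟩}

open Classical in
/-- For `p` prime, the degree of the field of the coordinates `w` over that of the coordinates `v`,
in the residue field of `p` (zero if infinite). -/
noncomputable def rdeg (k : Type u) [Field k] {R : Type u} [CommRing R] [Algebra k R] (p : Ideal R)
    (v : P.V → R) (w : Q.V → R) : ℕ :=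
  if h : p.IsPrime then
    (fld k fun s => algebraMap R (@Ideal.ResidueField _ _ p h) (v s)).relfinrank
      (fld k fun s => algebraMap R (@Ideal.ResidueField _ _ p h) (w s))
  else 0

/-- The degree of `V(p)` over its projection to the coordinates `ε` (zero if infinite). -/
noncomputable def deg (ε : P.V → Q.V) (p : Ideal (MvPolynomial Q.V k)) : ℕ :=
  rdeg k p (fun s => X (ε s)) X

/-- Push-forward of cycles along the projection to the coordinates `ε`. -/
noncomputable def push (ε : P.V → Q.V) : Cyc k Q →ₗ[ℚ] Cyc k P :=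
  Finsupp.linearCombination ℚ fun p => Finsupp.single (p.comap (rename ε)) (deg ε p : ℚ)

/-- The preimage in `V(I)` under the projection to the coordinates `ε`. -/
noncomputable def pull (ε : P.V → Q.V) (I : Ideal (MvPolynomial Q.V k)) :
    Cyc k P →ₗ[ℚ] Cyc k Q :=
  Finsupp.lmapDomain ℚ ℚ fun p => p.map (rename ε) ⊔ I

/-- The coordinates of the first factor. -/
def vl (s : P.V) : (P.sum Q).V := ⟨Sum.inl s.1, s.2⟩

/-- The coordinates of the second factor. -/
def vr (s : Q.V) : (P.sum Q).V := ⟨Sum.inr s.1, s.2⟩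

/-- A map defined on the coordinates of a product. -/
def vp (f : P.V → S.V) (g : Q.V → S.V) : (P.sum Q).V → S.V
  | ⟨Sum.inl i, s⟩ => f ⟨i, s⟩
  | ⟨Sum.inr j, s⟩ => g ⟨j, s⟩

/-- First component of a point. -/
def fst (z : (P.sum Q).Pt k) : P.Pt k := fun i => z (Sum.inl i)

/-- Second component of a point. -/
def snd (z : (P.sum Q).Pt k) : Q.Pt k := fun i => z (Sum.inr i)

/-- The projective line. -/
def P1 : Amb where
  ι := Unit
  σ _ := Bool

/-- The cycles generated by the subvarieties `Z` satisfying `c`. -/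
def Sp (c : IrreducibleCloseds (P.Pt k) → Prop) : Submodule ℚ (Cyc k P) :=
  Finsupp.supported ℚ ℚ {p | ∃ Z, c Z ∧ p = idl (Z : Set (P.Pt k))}

/-- The fibre over `0` (resp. `∞`) of a cycle on `P × ℙ¹`. -/
noncomputable def fib (b : Bool) : Cyc k (P.sum P1) →ₗ[ℚ] Cyc k P :=
  push vl ∘ₗ gys (Ideal.span {X (vr ⟨(), b⟩)}) 1

/-- Cycles on `A` rationally equivalent to zero: `W₀ - W_∞` for cycles `W` on `A × ℙ¹`. -/
noncomputable def Rt (A : Set (P.Pt k)) : Submodule ℚ (Cyc k P) :=
  (Sp fun W => ∀ z ∈ W, fst z ∈ A).map (fib true - fib false)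

/-- The exterior product of cycles, the coordinates of the factors being `ε` and `η`. -/
noncomputable def ex (ε : P.V → S.V) (η : Q.V → S.V) : Cyc k P →ₗ[ℚ] Cyc k Q →ₗ[ℚ] Cyc k S :=
  Finsupp.linearCombination ℚ fun p =>
    Finsupp.lmapDomain ℚ ℚ fun q => p.map (rename ε) ⊔ q.map (rename η)

/-- The ideal of the diagonal, generated by the minors `x_s y_t - x_t y_s`. -/
noncomputable def dI (k : Type u) [Field k] (ε η : P.V → S.V) : Ideal (MvPolynomial S.V k) :=
  Ideal.span {f | ∃ i s t, f = X (ε ⟨i, s⟩) * X (η ⟨i, t⟩) - X (ε ⟨i, t⟩) * X (η ⟨i, s⟩)}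

/-- The intersection cycle in a smooth variety of dimension `n`: `(a × b) · Δ`. -/
noncomputable def ip (n : ℕ) : Cyc k P →ₗ[ℚ] Cyc k P →ₗ[ℚ] Cyc k P :=
  (ex vl vr).compr₂ (push vl ∘ₗ gys (dI k vl vr) n)

/-- `a` and `b` meet properly in a variety of dimension `n`. -/
def Prp (n : ℕ) (a b : Cyc k P) : Prop :=
  ∀ U V W : IrreducibleCloseds (P.Pt k), idl (V : Set (P.Pt k)) ∈ a.support →
    idl (W : Set (P.Pt k)) ∈ b.support → U ≤ V → U ≤ W →
    Order.height U + n ≤ Order.height V + Order.height W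

/-- The coordinates of the factor `t`. -/
def vj {T : Type} [Finite T] (t : T) (s : P.V) : (pw P T).V := ⟨(t, s.1), s.2⟩

/-- An irreducible smooth projective variety. -/
structure SV (k : Type u) [Field k] (P : Amb) extends Var k P where
  irr : IsIrreducible pts

theorem prod_var [IsAlgClosed k] (X : SV k P) (Y : SV k Q) :
    ∃ Z : SV k (P.sum Q), Z.pts = {z | fst z ∈ X.pts ∧ snd z ∈ Y.pts} ∧ Z.dim = X.dim + Y.dim :=
  ⟨⟨X.toVar.prod Y.toVar, MP_ffcd14_ag.Var.prod_irr X.irr Y.irr⟩, rfl, rfl⟩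

theorem pow_var [IsAlgClosed k] (X : SV k P) (T : Type) [Finite T] :
    ∃ Z : SV k (pw P T), Z.pts = {z | ∀ t, (fun i => z (t, i)) ∈ X.pts} ∧
      Z.dim = Nat.card T * X.dim := by
  obtain ⟨Z, h1, h2⟩ := Pre_smooth X.toVar T
  exact ⟨⟨Z, h1 ▸ Pre_irr X.toVar X.irr T⟩, h1, h2⟩

variable [IsAlgClosed k]

/-- The product `X × Y`. -/
noncomputable def SV.prod (X : SV k P) (Y : SV k Q) : SV k (P.sum Q) := (prod_var X Y).choose

/-- The power `X ^ T`. -/
noncomputable def SV.pow (X : SV k P) (T : Type) [Finite T] : SV k (pw P T) := (pow_var X T).choose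

/-- Cycles modulo rational equivalence on `X`. -/
abbrev Cl (X : SV k P) := Cyc k P ⧸ Rt X.pts

/-- The Chow group of codimension `i`, with rational coefficients. -/
noncomputable def CH (X : SV k P) (i : ℕ) : Submodule ℚ (Cl X) :=
  (Sp fun Z => (Z : Set (P.Pt k)) ⊆ X.pts ∧ Order.height Z + i = X.dim).map (Rt X.pts).mkQ

/-- `a` is a class of codimension `i`. -/
def Cod (X : SV k P) (i : ℕ) (a : Cl X) : Prop := a ∈ CH X i

/-- The class of a cycle. -/
noncomputable def cls (X : SV k P) (a : Cyc k P) : Cl X := (Rt X.pts).mkQ a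

/-- The class of a subvariety. -/
noncomputable def cyc (X : SV k P) (A : Set (P.Pt k)) : Cl X := cls X (Finsupp.single (idl A) 1)

/-- The intersection product: choose representatives which meet properly. -/
noncomputable def mul (X : SV k P) (x y : Cl X) : Cl X :=
  (fun c : Cyc k P × Cyc k P => cls X (ip X.dim c.1 c.2))
    (Classical.epsilon fun c => cls X c.1 = x ∧ cls X c.2 = y ∧ Prp X.dim c.1 c.2)

/-- Pull-back along the projection `Y → X` to the coordinates `ε`. -/
noncomputable def pl (X : SV k P) (Y : SV k Q) (ε : P.V → Q.V) (x : Cl X) : Cl Y :=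
  cls Y (pull ε (idl Y.pts) x.out)

/-- Push-forward along the projection `Y → X` to the coordinates `ε`. -/
noncomputable def ps (X : SV k P) (Y : SV k Q) (ε : P.V → Q.V) (y : Cl Y) : Cl X :=
  cls X (push ε y.out)

/-- The diagonal. -/
noncomputable def dia (X : SV k P) : Cl (X.prod X) :=
  cyc (X.prod X) {z | fst z ∈ X.pts ∧ fst z = snd z}

/-- The action `p₂_* (α · p₁^* z)` of a correspondence. -/
noncomputable def act (X : SV k P) (α : Cl (X.prod X)) (z : Cl X) : Cl X :=
  ps X (X.prod X) vr (mul (X.prod X) α (pl X (X.prod X) vl z))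

/-- The composition `β ∘ α = p₁₃_* (p₁₂^* α · p₂₃^* β)`. -/
noncomputable def comp (X : SV k P) (β α : Cl (X.prod X)) : Cl (X.prod X) :=
  ps (X.prod X) ((X.prod X).prod X) (vp (vl ∘ vl) vr) (mul ((X.prod X).prod X)
    (pl (X.prod X) ((X.prod X).prod X) vl α)
    (pl (X.prod X) ((X.prod X).prod X) (vp (vl ∘ vr) vr) β))

/-- `Z` is the product of `X` and `Y`, with coordinates identified by `ε` and `η`. -/
def IsProd (X : SV k P) (Y : SV k Q) (Z : SV k S) (ε : P.V → S.V) (η : Q.V → S.V) : Prop :=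
  Function.Bijective (Sum.elim ε η) ∧
    (∃ ψ : P.ι ⊕ Q.ι ≃ S.ι, (∀ s, (ε s).1 = ψ (Sum.inl s.1)) ∧ ∀ s, (η s).1 = ψ (Sum.inr s.1)) ∧
    idl Z.pts = (idl X.pts).map (rename ε) ⊔ (idl Y.pts).map (rename η)

/-- `ε` defines a projection `Z = X × Y → X`. -/
def IsPr (X : SV k P) (Z : SV k S) (ε : P.V → S.V) : Prop :=
  ∃ (Q : Amb) (Y : SV k Q) (η : Q.V → S.V), IsProd X Y Z ε η

/-- The data of a cohomology theory with coefficients in `K`: algebras, degree, trace, pull-back,
push-forward, cycle class map. -/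
structure Coh (k : Type u) (K : Type v) [Field k] [Field K] where
  H : ∀ {P : Amb}, SV k P → Type w
  [ring : ∀ {P : Amb} (X : SV k P), Ring (H X)]
  [alg : ∀ {P : Amb} (X : SV k P), Algebra K (H X)]
  dg : ∀ {P : Amb} (X : SV k P), ℕ → H X → Prop
  tr : ∀ {P : Amb} (X : SV k P), H X → K
  up : ∀ {P S : Amb} (X : SV k P) (Z : SV k S), (P.V → S.V) → H X → H Z
  dn : ∀ {P S : Amb} (X : SV k P) (Z : SV k S), (P.V → S.V) → H Z → H X
  cl : ∀ {P : Amb} (X : SV k P), Cl X → H X

attribute [instance] Coh.ring Coh.alg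

variable {K : Type v} [Field K]

/-- Poincaré duality, pull-back and its adjoint for projections, Künneth formula. -/
structure Coh.IsFun (C : Coh.{u, v, w} k K) : Prop where
  pd : ∀ {P : Amb} (X : SV k P), IsPD (C.dg X) (C.tr X) X.dim
  up_hom : ∀ {P S : Amb} (X : SV k P) (Z : SV k S) (ε : P.V → S.V), IsPr X Z ε →
    ∃ f : C.H X →ₐ[K] C.H Z, ⇑f = C.up X Z ε
  up_dg : ∀ {P S : Amb} (X : SV k P) (Z : SV k S) (ε : P.V → S.V), IsPr X Z ε →
    ∀ i x, C.dg X i x → C.dg Z i (C.up X Z ε x)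
  up_id : ∀ {P : Amb} (X : SV k P) (x : C.H X), C.up X X id x = x
  up_up : ∀ {P Q S : Amb} (X : SV k P) (Y : SV k Q) (Z : SV k S) (ε : P.V → Q.V) (η : Q.V → S.V),
    IsPr X Y ε → IsPr Y Z η → ∀ x, C.up X Z (η ∘ ε) x = C.up Y Z η (C.up X Y ε x)
  adj : ∀ {P S : Amb} (X : SV k P) (Z : SV k S) (ε : P.V → S.V), IsPr X Z ε →
    ∀ x z, C.tr X (x * C.dn X Z ε z) = C.tr Z (C.up X Z ε x * z)
  kun : ∀ {P Q S : Amb} (X : SV k P) (Y : SV k Q) (Z : SV k S) (ε : P.V → S.V) (η : Q.V → S.V),
    IsProd X Y Z ε η → Submodule.span K {z | ∃ x y, z = C.up X Z ε x * C.up Y Z η y} = ⊤ ∧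
      ∀ x y, C.tr Z (C.up X Z ε x * C.up Y Z η y) = C.tr X x * C.tr Y y

/-- The properties of the cycle class map. -/
structure Coh.IsCl (C : Coh.{u, v, w} k K) : Prop where
  cl_add : ∀ {P : Amb} (X : SV k P) (a b : Cl X), C.cl X (a + b) = C.cl X a + C.cl X b
  cl_dg : ∀ {P : Amb} (X : SV k P) (i : ℕ) (a : Cl X), Cod X i a → C.dg X (2 * i) (C.cl X a)
  cl_one : ∀ {P : Amb} (X : SV k P), C.cl X (cyc X X.pts) = 1
  cl_pt : ∀ {P : Amb} (X : SV k P), ∀ x ∈ X.pts, C.tr X (C.cl X (cyc X {x})) = 1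
  cl_dia : ∀ {P : Amb} (X : SV k P) (x y : C.H X), C.tr (X.prod X)
    (C.cl (X.prod X) (dia X) * (C.up X (X.prod X) vl x * C.up X (X.prod X) vr y)) = C.tr X (x * y)
  cl_mul : ∀ {P : Amb} (X : SV k P) (i j : ℕ), ∀ a, Cod X i a → ∀ b, Cod X j b →
    C.cl X (mul X a b) = C.cl X a * C.cl X b
  cl_pl : ∀ {P S : Amb} (X : SV k P) (Z : SV k S) (ε : P.V → S.V), IsPr X Z ε →
    ∀ i a, Cod X i a → C.cl Z (pl X Z ε a) = C.up X Z ε (C.cl X a)
  cl_ps : ∀ {P S : Amb} (X : SV k P) (Z : SV k S) (ε : P.V → S.V), IsPr X Z ε →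
    ∀ i a, Cod Z i a → C.cl X (ps X Z ε a) = C.dn X Z ε (C.cl Z a)

/-- A Weil cohomology theory with coefficients in `K`. -/
structure Weil (k : Type u) (K : Type v) [Field k] [IsAlgClosed k] [Field K]
    extends Coh.{u, v, w} k K where
  fn : toCoh.IsFun
  cy : toCoh.IsCl

/-- The action of a correspondence on cohomology. -/
noncomputable def Weil.act (W : Weil.{u, v, w} k K) (X : SV k P) (α : Cl (X.prod X))
    (x : W.H X) : W.H X :=
  W.dn X (X.prod X) vr (W.cl (X.prod X) α * W.up X (X.prod X) vl x)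

/-- A Chow-Künneth decomposition. -/
structure IsCK (W : Weil.{u, v, w} k K) (X : SV k P)
    (π : Fin (2 * X.dim + 1) → Cl (X.prod X)) : Prop where
  mem : ∀ i, π i ∈ CH (X.prod X) X.dim
  orth : ∀ i j, comp X (π i) (π j) = if i = j then π i else 0
  sum : ∑ i, π i = dia X
  act : ∀ i j x, W.dg X j x → W.act X (π i) x = if (i : ℕ) = j then x else 0

/-- The filtration `F ^ m CH ^ i = (π ^ (2 i - m) + ... + π ^ 0) CH ^ i`. -/
noncomputable def Fil (X : SV k P) (i : ℕ) (m : ℤ) (π : Fin (2 * X.dim + 1) → Cl (X.prod X)) :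
    Set (Cl X) :=
  act X (∑ j : Fin (2 * X.dim + 1) with (j.val : ℤ) ≤ 2 * i - m, π j) '' CH X i

/-- The filtration by kernels: `F ^ m CH ^ i` is the common kernel of
`π ^ (2 i), ..., π ^ (2 i - m + 1)`. -/
noncomputable def Ker (X : SV k P) (i m : ℕ) (π : Fin (2 * X.dim + 1) → Cl (X.prod X)) :
    Set (Cl X) :=
  {z | z ∈ CH X i ∧ ∀ j : Fin (2 * X.dim + 1), 2 * i < j + m → j ≤ 2 * i → act X (π j) z = 0}

/-- The subset `F π` does not depend on the decomposition `π`. -/
def Indep (W : Weil.{u, v, w} k K) (X : SV k P)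
    (F : (Fin (2 * X.dim + 1) → Cl (X.prod X)) → Set (Cl X)) : Prop :=
  ∀ π π', IsCK W X π → IsCK W X π' → F π = F π'

/-- The correspondence `p × ... × p` on `X ^ N`. -/
noncomputable def tens (X : SV k P) (N : ℕ) (p : Cl (X.prod X)) :
    Cl ((X.pow (Fin N)).prod (X.pow (Fin N))) :=
  (List.ofFn fun t : Fin N => pl (X.prod X) _ (vp (vl ∘ vj t) (vr ∘ vj t)) p).foldr (mul _)
    (cyc _ ((X.pow (Fin N)).prod (X.pow (Fin N))).pts)

/-- The graph of a permutation of the factors of `X ^ N`. -/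
noncomputable def gr (X : SV k P) {N : ℕ} (σ : Equiv.Perm (Fin N)) :
    Cl ((X.pow (Fin N)).prod (X.pow (Fin N))) :=
  pl _ _ (vp vl fun s : (pw P (Fin N)).V => vr (vj (σ s.1.1) ⟨s.1.2, s.2⟩)) (dia (X.pow (Fin N)))

end Pool.Agent.Work.MP_10f4af_ag
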