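import Pool.Agent.Work.MP_10f4af_ag.M2

/-!
# The Chow ring

Plan.  `height_eq` translates `Order.height` into `sdim`.  `ip_Rt'`, `ip_comm'`, `ip_mem'`:
restrict to the components (`Sp_to`, `prp_iff`) and use `Sp_map`, `Sp_ext` in each variable
(`LinearMap.flip`).  `mul_mk`: the chosen pair `(a', b')` (`Classical.epsilon_spec`) lies in `ZA` by
`Rt_le`; move `a` to `a''` meeting the components of `b` and `b'` properly (`moving`,
`finite_comp`) and use `ip_Rt'` three times.  Ring laws: choose representatives by `moving`; for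
`mul_rcomm` move `b` with respect to `a`, then `c` with respect to the components of `a` and of
the `V ∩ W` (`MvD_meets`); `ip_rcomm`.  Associativity follows from `mul_rcomm` and commutativity.
`exists_pair`: take a point `x`, forms `g m` of a positive degree vanishing at `x` which cut `X`
properly away from `x` (`exists_seq` with `D = {x}`, `Noeth.exists_minor` times a monomial); `V`
and `W` through `x` by `krull_list` for the first `j` and the last `i` forms; the dimensions are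
forced by `krull_list` on `W`; `ip_mem`, `ip_pos`, `ip_nonneg`, `eq_pt_of_sdim`.
-/

open MvPolynomial Topology TopologicalSpace Finsupp

namespace Pool.Agent.Work.MP_10f4af_ag

open MP_ffcd14_ag hiding len vl cyc pl Weil idl_hmg mem_idl idl_prime idl_le_iff

universe u

variable {k : Type u} [Field k] [IsAlgClosed k] {P : Amb} (X : SV k P)

/-- The total Chow group. -/
noncomputable def TC : Submodule ℚ (Cl X) := (ZA X.pts).map (Rt X.pts).mkQ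

theorem cyc_eq (V : Sub k P) : cyc X (V : Set (P.Pt k)) = (Rt X.pts).mkQ (cS V) := rfl

theorem cyc_tp : cyc X X.pts = (Rt X.pts).mkQ (cS X.tp) := rfl

omit X [IsAlgClosed k] in
theorem F1_za {A : Set (P.Pt k)} {a : Cyc k P} :
    a ∈ ZA A ↔ a ∈ Sp fun V : Sub k P => (V : Set (P.Pt k)) ⊆ A := Iff.rfl

omit X [IsAlgClosed k] in
theorem F1_cmp {A : Set (P.Pt k)} {a : Cyc k P} (ha : a ∈ ZA A) :
    a ∈ Sp fun V : Sub k P => (V : Set (P.Pt k)) ⊆ A ∧ a (idl (V : Set (P.Pt k))) ≠ 0 :=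
  Sp_to (F1_za.1 ha) fun _ h1 h2 => ⟨h1, h2⟩

omit X [IsAlgClosed k] in
theorem F1_ext {c c' : Sub k P → Prop} {M : Type*} [AddCommGroup M] [Module ℚ M]
    (f g : Cyc k P →ₗ[ℚ] Cyc k P →ₗ[ℚ] M)
    (h : ∀ V W, c V → c' W → f (cS V) (cS W) = g (cS V) (cS W)) {a b : Cyc k P} (ha : a ∈ Sp c)
    (hb : b ∈ Sp c') : f a b = g a b :=
  Sp_ext (f.flip b) (g.flip b)
    (fun V hV => Sp_ext (f (cS V)) (g (cS V)) (fun W hW => h V W hV hW) hb) ha

omit X [IsAlgClosed k] in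
theorem F1_map {c c' : Sub k P → Prop} {M : Type*} [AddCommGroup M] [Module ℚ M]
    (f : Cyc k P →ₗ[ℚ] Cyc k P →ₗ[ℚ] M) (N : Submodule ℚ M)
    (h : ∀ V W, c V → c' W → f (cS V) (cS W) ∈ N) {a b : Cyc k P} (ha : a ∈ Sp c)
    (hb : b ∈ Sp c') : f a b ∈ N :=
  Sp_map (f.flip b) N (fun V hV => Sp_map (f (cS V)) N (fun W hW => h V W hV hW) hb) ha

theorem mem_CH {i : ℕ} {x : Cl X} : x ∈ CH X i ↔ ∃ a ∈ Sp fun V : Sub k P =>
    (V : Set (P.Pt k)) ⊆ X.pts ∧ sdim V + i = X.dim, (Rt X.pts).mkQ a = x := by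
  have h : (fun Z : Sub k P => (Z : Set (P.Pt k)) ⊆ X.pts ∧ Order.height Z + i = X.dim) =
      fun V : Sub k P => (V : Set (P.Pt k)) ⊆ X.pts ∧ sdim V + i = X.dim := by
    funext Z
    rw [height_eq, ← Nat.cast_add, Nat.cast_inj]
  rw [CH, h, Submodule.mem_map]

theorem CH_le (i : ℕ) : CH X i ≤ TC X :=
  Submodule.map_mono (Sp_mono fun _ h => h.1)

theorem TC_eq : TC X = ⨆ i, CH X i := by
  refine le_antisymm ?_ (iSup_le (CH_le X))
  rintro _ ⟨a, ha, rfl⟩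
  refine Sp_map (Rt X.pts).mkQ _ (fun Z hZ => Submodule.mem_iSup_of_mem (X.dim - sdim Z)
    ((mem_CH X).2 ⟨_, cS_mem ⟨hZ, ?_⟩, rfl⟩)) (F1_za.1 ha)
  exact Nat.add_sub_cancel' (X.toVar.sdim_le X.irr hZ)

theorem cyc_mem {V : Sub k P} (hV : (V : Set (P.Pt k)) ⊆ X.pts) {i : ℕ} (h : sdim V + i = X.dim) :
    cyc X (V : Set (P.Pt k)) ∈ CH X i :=
  (mem_CH X).2 ⟨_, cS_mem ⟨hV, h⟩, rfl⟩

theorem one_mem_CH : cyc X X.pts ∈ CH X 0 :=
  cyc_mem X (V := X.tp) subset_rfl X.sdim_tp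

theorem CH_zero {x : Cl X} (h : x ∈ CH X 0) : ∃ q : ℚ, x = q • cyc X X.pts := by
  obtain ⟨a, ha, rfl⟩ := (mem_CH X).1 h
  have h1 : a ∈ Sp fun Z => Z = X.tp :=
    Sp_mono (fun Z hZ => eq_of_sdim_le hZ.1 (X.sdim_tp.trans hZ.2.symm).le) ha
  exact ⟨_, by rw [cyc_tp, ← map_smul, ← Sp_one h1]⟩

theorem CH_gt {i : ℕ} (h : X.dim < i) : CH X i = ⊥ := by
  refine eq_bot_iff.2 fun x hx => ?_
  obtain ⟨a, ha, rfl⟩ := (mem_CH X).1 hx
  rw [Sp_bot (Sp_mono (fun Z hZ => by have := hZ.2; omega) ha), map_zero]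
  exact zero_mem _

theorem CH_top : CH X X.dim = Submodule.span ℚ ((fun x => cyc X {x}) '' X.pts) := by
  refine le_antisymm (fun x hx => ?_) (Submodule.span_le.2 ?_)
  · obtain ⟨a, ha, rfl⟩ := (mem_CH X).1 hx
    refine Sp_map (Rt X.pts).mkQ _ (fun Z hZ => ?_) ha
    obtain ⟨p, hp⟩ := Z.isIrreducible.nonempty
    rw [eq_pt_of_sdim (by have := hZ.2; omega) hp]
    exact Submodule.subset_span ⟨p, hZ.1 hp, rfl⟩
  · rintro _ ⟨p, hp, rfl⟩
    exact cyc_mem X (V := {p}) (Set.singleton_subset_iff.2 hp) (by rw [sdim_pt, zero_add])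

omit X in
theorem prp_iff {n : ℕ} {a b : Cyc k P} : Prp n a b ↔ ∀ V W : Sub k P,
    a (idl (V : Set (P.Pt k))) ≠ 0 → b (idl (W : Set (P.Pt k))) ≠ 0 → Pp n V W := by
  simp only [Prp, Pp, Finsupp.mem_support_iff, height_eq, ← Nat.cast_add, Nat.cast_le]
  exact ⟨fun h V W h1 h2 U => h U V W h1 h2, fun h U V W h1 h2 => h V W h1 h2 U⟩

variable {a b : Cyc k P}

omit X in
theorem F1_symm {n : ℕ} (h : Prp n a b) : Prp n b a :=
  prp_iff.2 fun V W hV hW => (prp_iff.1 h W V hW hV).symm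

omit X in
theorem F1_add {n : ℕ} {a' : Cyc k P} (h : Prp n a b) (h' : Prp n a' b) : Prp n (a + a') b :=
  prp_iff.2 fun V W hV hW => by
    by_cases h1 : a (idl (V : Set (P.Pt k))) = 0
    · rw [Finsupp.add_apply, h1, zero_add] at hV
      exact prp_iff.1 h' V W hV hW
    · exact prp_iff.1 h V W h1 hW

omit X in
theorem F1_smul {n : ℕ} (q : ℚ) (h : Prp n a b) : Prp n (q • a) b :=
  prp_iff.2 fun V W hV hW => prp_iff.1 h V W (right_ne_zero_of_smul hV) hW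

omit X in
theorem F1_sub {n : ℕ} {a' : Cyc k P} (h : Prp n a b) (h' : Prp n a' b) : Prp n (a - a') b := by
  rw [sub_eq_add_neg, ← neg_one_smul ℚ a']
  exact F1_add h (F1_smul _ h')

omit X in
theorem F1_cS {n : ℕ} {V W : Sub k P} (h : Pp n V W) : Prp n (cS V) (cS W) :=
  prp_iff.2 fun V' W' hV hW => by
    rwa [← of_not_not (mt cS_ne hV), ← of_not_not (mt cS_ne hW)]

theorem ip_comm' (ha : a ∈ ZA X.pts) (hb : b ∈ ZA X.pts) (h : Prp X.dim a b) :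
    ip X.dim a b = ip X.dim b a :=
  F1_ext (ip X.dim) (ip X.dim).flip
    (fun V W hV hW => ip_comm X hV.1 hW.1 (prp_iff.1 h V W hV.2 hW.2)) (F1_cmp ha) (F1_cmp hb)

theorem ip_Rt' (ha : a ∈ Rt X.pts) (hb : b ∈ ZA X.pts) (h : Prp X.dim a b) :
    ip X.dim a b ∈ Rt X.pts :=
  Sp_map (ip X.dim a) _ (fun W hW => ip_Rt X ha hW.1
    (Sp_mono (fun V hV => prp_iff.1 h V W hV.2 hW.2) (F1_cmp (Rt_le _ ha)))) (F1_cmp hb)

theorem ip_mem' {c c' : Sub k P → Prop} (ha : a ∈ ZA X.pts) (hb : b ∈ ZA X.pts) (ha' : a ∈ Sp c)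
    (hb' : b ∈ Sp c') : ip X.dim a b ∈ Sp fun U => ∃ V W, c V ∧ c' W ∧ U ≤ V ∧ U ≤ W ∧
      (U : Set (P.Pt k)) ⊆ X.pts ∧ sdim U + X.dim = sdim V + sdim W :=
  F1_map (ip X.dim) _ (fun V W hV hW => Sp_mono (fun _ hU => ⟨V, W, Sp_of ha' hV.2,
    Sp_of hb' hW.2, hU.1, hU.2.1, fun _ hz => hV.1 (hU.1 hz), hU.2.2⟩) (ip_mem X hV.1 hW.1))
    (F1_cmp ha) (F1_cmp hb)

theorem F1_left {a' : Cyc k P} (e : a - a' ∈ Rt X.pts) (hb : b ∈ ZA X.pts) (h : Prp X.dim a b)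
    (h' : Prp X.dim a' b) : ip X.dim a b - ip X.dim a' b ∈ Rt X.pts := by
  rw [← LinearMap.sub_apply, ← map_sub]
  exact ip_Rt' X e hb (F1_sub h h')

theorem F1_move (ha : a ∈ ZA X.pts) {𝓕 : Set (Sub k P)} (h𝓕 : 𝓕.Finite) :
    ∃ a' ∈ ZA X.pts, a - a' ∈ Rt X.pts ∧
      ∀ V : Sub k P, a' (idl (V : Set (P.Pt k))) ≠ 0 → ∀ F ∈ 𝓕, Pp X.dim V F := by
  obtain ⟨a', h1, h2⟩ := moving X h𝓕 (fun _ => True)
    (Sp_mono (fun _ h => ⟨h, trivial⟩) (F1_za.1 ha))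
  exact ⟨a', F1_za.2 (Sp_mono (fun _ h => h.1) h1), h2, fun V hV => (Sp_of h1 hV).2.2⟩

theorem F1_wd {a' b' : Cyc k P} (ha : a ∈ ZA X.pts) (hb : b ∈ ZA X.pts) (e : a - a' ∈ Rt X.pts)
    (e' : b - b' ∈ Rt X.pts) (h : Prp X.dim a b) (h' : Prp X.dim a' b') :
    ip X.dim a b - ip X.dim a' b' ∈ Rt X.pts := by
  have hb' : b' ∈ ZA X.pts := by
    have := sub_mem hb (Rt_le _ e')
    rwa [sub_sub_cancel] at this
  obtain ⟨c, hc, c1, c2⟩ := F1_move X ha ((finite_comp b).union (finite_comp b'))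
  have p1 : Prp X.dim c b := prp_iff.2 fun V W hV hW => c2 V hV W (Or.inl hW)
  have p2 : Prp X.dim c b' := prp_iff.2 fun V W hV hW => c2 V hV W (Or.inr hW)
  have h1 := F1_left X c1 hb h p1
  have h2 := F1_left X e' hc (F1_symm p1) (F1_symm p2)
  have h3 := F1_left X (a := c) (a' := a') (by
    have := sub_mem e c1
    rwa [sub_sub_sub_cancel_left] at this) hb' p2 h'
  rw [← ip_comm' X hc hb p1, ← ip_comm' X hc hb' p2] at h2
  have h4 := add_mem (add_mem h1 h2) h3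
  rwa [sub_add_sub_cancel, sub_add_sub_cancel] at h4

theorem mul_mk (ha : a ∈ ZA X.pts) (hb : b ∈ ZA X.pts) (h : Prp X.dim a b) :
    mul X ((Rt X.pts).mkQ a) ((Rt X.pts).mkQ b) = (Rt X.pts).mkQ (ip X.dim a b) := by
  obtain ⟨h1, h2, h3⟩ := Classical.epsilon_spec (p := fun c : Cyc k P × Cyc k P =>
    (Rt X.pts).mkQ c.1 = (Rt X.pts).mkQ a ∧ (Rt X.pts).mkQ c.2 = (Rt X.pts).mkQ b ∧
      Prp X.dim c.1 c.2) ⟨(a, b), rfl, rfl, h⟩
  exact ((Submodule.Quotient.eq _).2 (F1_wd X ha hb ((Submodule.Quotient.eq _).1 h1.symm)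
    ((Submodule.Quotient.eq _).1 h2.symm) h h3)).symm

variable {x y z : Cl X}

theorem F1_rep (hx : x ∈ TC X) {𝓕 : Set (Sub k P)} (h𝓕 : 𝓕.Finite) :
    ∃ a ∈ ZA X.pts, (Rt X.pts).mkQ a = x ∧
      ∀ V : Sub k P, a (idl (V : Set (P.Pt k))) ≠ 0 → ∀ F ∈ 𝓕, Pp X.dim V F := by
  obtain ⟨a, ha, rfl⟩ := hx
  obtain ⟨a', h1, h2, h3⟩ := F1_move X ha h𝓕
  exact ⟨a', h1, ((Submodule.Quotient.eq _).2 h2).symm, h3⟩

theorem F1_rep' (hx : x ∈ TC X) (b : Cyc k P) :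
    ∃ a ∈ ZA X.pts, (Rt X.pts).mkQ a = x ∧ Prp X.dim a b := by
  obtain ⟨a, h1, h2, h3⟩ := F1_rep X hx (finite_comp b)
  exact ⟨a, h1, h2, prp_iff.2 fun V W hV hW => h3 V hV W hW⟩

theorem F1_ip (ha : a ∈ ZA X.pts) (hb : b ∈ ZA X.pts) : ip X.dim a b ∈ ZA X.pts :=
  F1_za.2 (Sp_mono (fun _ ⟨_, _, h⟩ => h.2.2.2.2.1)
    (ip_mem' X ha hb (F1_za.1 ha) (F1_za.1 hb)))

theorem F1_prp {c : Cyc k P} (ha : a ∈ ZA X.pts) (hb : b ∈ ZA X.pts)
    (h : ∀ V W U : Sub k P, a (idl (V : Set (P.Pt k))) ≠ 0 → b (idl (W : Set (P.Pt k))) ≠ 0 →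
      c (idl (U : Set (P.Pt k))) ≠ 0 → ∀ T ≤ V, T ≤ W → T ≤ U →
        sdim T + X.dim + X.dim ≤ sdim V + sdim W + sdim U) : Prp X.dim (ip X.dim a b) c :=
  prp_iff.2 fun Z U hZ hU T t1 t2 => by
    obtain ⟨V, W, h1, h2, h3, h4, -, h5⟩ := Sp_of (ip_mem' X ha hb (F1_cmp ha) (F1_cmp hb)) hZ
    have := h V W U h1.2 h2.2 hU T (t1.trans h3) (t1.trans h4) t2
    omega

theorem mul_mem_TC (hx : x ∈ TC X) (hy : y ∈ TC X) : mul X x y ∈ TC X := by
  obtain ⟨b, hb, rfl⟩ := hy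
  obtain ⟨a, ha, rfl, h⟩ := F1_rep' X hx b
  rw [mul_mk X ha hb h]
  exact ⟨_, F1_ip X ha hb, rfl⟩

theorem mul_mem_CH {i j : ℕ} (hx : x ∈ CH X i) (hy : y ∈ CH X j) : mul X x y ∈ CH X (i + j) := by
  obtain ⟨b, hb, rfl⟩ := (mem_CH X).1 hy
  obtain ⟨a, ha, rfl⟩ := (mem_CH X).1 hx
  obtain ⟨a', h1, h2⟩ := moving X (finite_comp b) (fun m => m + i = X.dim) ha
  have h3 : (Rt X.pts).mkQ a = (Rt X.pts).mkQ a' := (Submodule.Quotient.eq _).2 h2
  have h4 := F1_za.2 (Sp_mono (fun _ h => h.1) h1)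
  have h5 := F1_za.2 (Sp_mono (fun _ h => h.1) hb)
  rw [h3, mul_mk X h4 h5 (prp_iff.2 fun V W hV hW => (Sp_of h1 hV).2.2 W hW)]
  refine (mem_CH X).2 ⟨_, Sp_mono ?_ (ip_mem' X h4 h5 h1 hb), rfl⟩
  rintro U ⟨V, W, ⟨-, u1, -⟩, ⟨-, u2⟩, -, -, u3, u4⟩
  exact ⟨u3, by omega⟩

theorem cmul_comm (hx : x ∈ TC X) (hy : y ∈ TC X) : mul X x y = mul X y x := by
  obtain ⟨b, hb, rfl⟩ := hy
  obtain ⟨a, ha, rfl, h⟩ := F1_rep' X hx b
  rw [mul_mk X ha hb h, mul_mk X hb ha (F1_symm h), ip_comm' X ha hb h]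

theorem cmul_one (hx : x ∈ TC X) : mul X x (cyc X X.pts) = x := by
  obtain ⟨a, ha, rfl, h⟩ := F1_rep' X hx (cS X.tp)
  have h1 := Sp_ext ((ip X.dim).flip (cS X.tp)) LinearMap.id (fun V hV => by
    rw [LinearMap.flip_apply, LinearMap.id_apply, ip_top X hV]) (F1_za.1 ha)
  rw [LinearMap.flip_apply, LinearMap.id_apply] at h1
  rw [cyc_tp, mul_mk X ha (F1_za.2 (cS_mem subset_rfl)) h, h1]

theorem cadd_mul (hx : x ∈ TC X) (hy : y ∈ TC X) (hz : z ∈ TC X) :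
    mul X (x + y) z = mul X x z + mul X y z := by
  obtain ⟨c, hc, rfl⟩ := hz
  obtain ⟨a, ha, rfl, h⟩ := F1_rep' X hx c
  obtain ⟨b, hb, rfl, h'⟩ := F1_rep' X hy c
  rw [← map_add, mul_mk X ha hc h, mul_mk X hb hc h', mul_mk X (add_mem ha hb) hc (F1_add h h'),
    map_add, LinearMap.add_apply, map_add]

theorem csmul_mul (q : ℚ) (hx : x ∈ TC X) (hy : y ∈ TC X) : mul X (q • x) y = q • mul X x y := by
  obtain ⟨b, hb, rfl⟩ := hy
  obtain ⟨a, ha, rfl, h⟩ := F1_rep' X hx b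
  rw [← map_smul, mul_mk X ha hb h, mul_mk X (Submodule.smul_mem _ q ha) hb (F1_smul q h),
    map_smul, LinearMap.smul_apply, map_smul]

theorem cmul_rcomm (hx : x ∈ TC X) (hy : y ∈ TC X) (hz : z ∈ TC X) :
    mul X (mul X x y) z = mul X (mul X x z) y := by
  obtain ⟨b, hb, rfl⟩ := hy
  obtain ⟨a, ha, rfl, h1⟩ := F1_rep' X hx b
  choose 𝓦 w1 w2 w3 using fun V : Sub k P => MvD_meets V (finite_comp b)
  obtain ⟨c, hc, rfl, h⟩ := F1_rep X hz
    ((finite_comp a).union ((finite_comp a).biUnion fun V _ => w1 V))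
  have h2 : Prp X.dim a c := prp_iff.2 fun V U hV hU => (h U hU V (Or.inl hV)).symm
  have key : ∀ V W U : Sub k P, a (idl (V : Set (P.Pt k))) ≠ 0 → b (idl (W : Set (P.Pt k))) ≠ 0 →
      c (idl (U : Set (P.Pt k))) ≠ 0 → ∀ T ≤ V, T ≤ W → T ≤ U →
        sdim T + X.dim + X.dim ≤ sdim V + sdim W + sdim U := fun V W U hV hW hU T t1 t2 t3 => by
    obtain ⟨M, m1, m2, m3⟩ := w3 V W hW T t1 t2
    have := h U hU M (Or.inr (Set.mem_biUnion hV m1)) T t3 m2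
    have := prp_iff.1 h1 V W hV hW M (w2 V M m1) m3
    omega
  have h3 := Sp_ext (ip X.dim (ip X.dim a b)) ((ip X.dim).flip b ∘ₗ ip X.dim a) (fun U hU => by
    have h4 := F1_ext ((ip X.dim).compr₂ ((ip X.dim).flip (cS U)))
      (ip X.dim ∘ₗ (ip X.dim).flip (cS U)) (fun V W hV hW => by
        simp only [LinearMap.compr₂_apply, LinearMap.comp_apply, LinearMap.flip_apply]
        exact ip_rcomm X hV.1 hW.1 hU.1 (prp_iff.1 h1 V W hV.2 hW.2)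
          (prp_iff.1 h2 V U hV.2 hU.2) (key V W U hV.2 hW.2 hU.2)) (F1_cmp ha) (F1_cmp hb)
    simpa only [LinearMap.compr₂_apply, LinearMap.comp_apply, LinearMap.flip_apply] using h4)
    (F1_cmp hc)
  rw [LinearMap.comp_apply, LinearMap.flip_apply] at h3
  rw [mul_mk X ha hb h1, mul_mk X ha hc h2, mul_mk X (F1_ip X ha hb) hc (F1_prp X ha hb key),
    mul_mk X (F1_ip X ha hc) hb (F1_prp X ha hc fun V U W hV hU hW T t1 t2 t3 => by
      have := key V W U hV hW hU T t1 t3 t2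
      omega), h3]

theorem cmul_assoc (hx : x ∈ TC X) (hy : y ∈ TC X) (hz : z ∈ TC X) :
    mul X (mul X x y) z = mul X x (mul X y z) := by
  rw [cmul_comm X hx hy, cmul_rcomm X hy hx hz, cmul_comm X (mul_mem_TC X hy hz) hx]

omit X in
theorem F1_pts {c : Cyc k P} (hc : c ∈ Sp fun U : Sub k P => sdim U = 0) :
    ∃ s : Finset (P.Pt k), (∀ p, p ∈ s ↔ c (idl (({p} : Sub k P) : Set (P.Pt k))) ≠ 0) ∧
      c = ∑ p ∈ s, c (idl (({p} : Sub k P) : Set (P.Pt k))) • cS ({p} : Sub k P) := by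
  have hi : Function.Injective fun p : P.Pt k => ({p} : Sub k P) := fun p q e =>
    Set.singleton_injective (congrArg (fun U : Sub k P => (U : Set (P.Pt k))) e)
  have hf := (finite_comp c).preimage hi.injOn
  refine ⟨hf.toFinset, fun p => hf.mem_toFinset, Sp_eq hc (Submodule.sum_mem _ fun p _ =>
    Submodule.smul_mem _ _ (cS_mem (c := fun U => sdim U = 0) (sdim_pt p))) fun T hT => ?_⟩
  obtain ⟨p, hp⟩ := T.isIrreducible.nonempty
  rw [eq_pt_of_sdim (hT.elim id id) hp, finsetSum_apply, Finset.sum_eq_single p]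
  · rw [Finsupp.smul_apply, cS_self, smul_eq_mul, mul_one]
  · intro q _ hq
    rw [Finsupp.smul_apply, cS_ne fun e => hq (hi e), smul_zero]
  · intro h
    rw [of_not_not (mt hf.mem_toFinset.2 h), zero_smul, Finsupp.zero_apply]

theorem F1_pair {i j : ℕ} (h : i + j = X.dim) : ∃ (V W : Sub k P) (x : P.Pt k),
    V ≤ X.tp ∧ W ≤ X.tp ∧ ({x} : Sub k P) ≤ V ∧ ({x} : Sub k P) ≤ W ∧ sdim V = i ∧ sdim W = j ∧
      Pp X.dim V W := by
  obtain ⟨x, hx⟩ := X.irr.nonempty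
  obtain ⟨a, ha⟩ : ∃ a : P.ι →₀ ℕ, ∀ i, 0 < a i :=
    ⟨Finsupp.equivFunOnFinite.symm fun _ => 1, fun _ => Nat.one_pos⟩
  obtain ⟨g, e1, e2, -⟩ := exists_seq (weightedHomogeneousSubmodule k
    (fun s : P.V => Finsupp.single s.1 1) a ⊓ Noeth.vsub {x}) (fun g hg => hg.1) {x}
    (fun z hz => by
      obtain ⟨i, g, hg, h0, h2⟩ := Noeth.exists_minor hz
      obtain ⟨ς, hς⟩ := exists_inCh z
      refine ⟨g * mono ς (a - Finsupp.single i 1), ⟨?_, fun y hy => ?_⟩, ?_⟩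
      · have := hg.mul (mono_form (k := k) ς (a - Finsupp.single i 1))
        rwa [add_tsub_cancel_of_le (Finsupp.single_le_iff.mpr (ha i))] at this
      · rw [hy, ev_mul, h0, zero_mul]
      · rw [ev_mul]
        exact mul_ne_zero h2 (Noeth.ev_mono_ne hς _))
    (Set.finite_singleton X.tp) (I := Empty) (V := k) (fun i => i.elim) (fun i => i.elim)
    (fun i => i.elim) X.dim
  have e3 : ∀ l ≤ X.dim, ∀ U ≤ X.tp, (∀ m < l, Van (U : Set (P.Pt k)) (g m)) →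
      sdim U + l ≤ X.dim := fun l hl U hU hv => by
    rcases e2 l hl _ rfl U hU hv with e | e
    · have := sdim_mono (show U ≤ ({x} : Sub k P) from e)
      rw [sdim_pt] at this
      omega
    · exact e.trans_eq X.sdim_tp
  have key : ∀ (l n : ℕ) (Z : Sub k P), ({x} : Sub k P) ≤ Z → ∃ U, ({x} : Sub k P) ≤ U ∧ U ≤ Z ∧
      (∀ m < n, Van (U : Set (P.Pt k)) (g (l + m))) ∧ sdim Z ≤ sdim U + n := fun l n Z hZ => by
    have hm : ∀ {p : MvPolynomial P.V k → Prop}, (∀ m, p (g m)) →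
        ∀ f ∈ (List.range n).map fun m => g (l + m), p f := fun h f hf => by
      obtain ⟨m, -, rfl⟩ := List.mem_map.1 hf
      exact h _
    obtain ⟨U, u1, u2, u3, u4⟩ := krull_list (hm fun m => ⟨a, (e1 m).1⟩) hZ (hm fun m => (e1 m).2)
    rw [List.length_map, List.length_range] at u4
    exact ⟨U, u1, u2, fun m hm => u3 _ (List.mem_map.2 ⟨m, List.mem_range.2 hm, rfl⟩), u4⟩
  have e4 : ∀ U ≤ X.tp, (∀ m < j, Van (U : Set (P.Pt k)) (g (0 + m))) →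
      (∀ m < i, Van (U : Set (P.Pt k)) (g (j + m))) → sdim U = 0 := fun U hU h1 h2 => by
    have := e3 _ le_rfl U hU fun m hm => by
      rcases lt_or_ge m j with h3 | h3
      · exact zero_add m ▸ h1 m h3
      · exact Nat.add_sub_cancel' h3 ▸ h2 (m - j) (by omega)
    omega
  obtain ⟨V, v1, v2, v3, v4⟩ := key 0 j X.tp (FibA_pt_le hx)
  obtain ⟨W, w1, w2, w3, w4⟩ := key j i X.tp (FibA_pt_le hx)
  obtain ⟨U, -, u2, u3, u4⟩ := key 0 j W w1
  have d0 := X.sdim_tp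
  have d1 := e3 j (by omega) V v2 fun m hm => zero_add m ▸ v3 m hm
  have d2 := e4 U (u2.trans w2) u3 fun m hm => num2_van_mono u2 (w3 m hm)
  refine ⟨V, W, x, v2, w2, v1, w1, by omega, by omega, fun T t1 t2 => ?_⟩
  have := e4 T (t1.trans v2) (fun m hm => num2_van_mono t1 (v3 m hm))
    fun m hm => num2_van_mono t2 (w3 m hm)
  omega

theorem exists_pair {i j : ℕ} (h : i + j = X.dim) : ∃ v ∈ CH X j, ∃ w ∈ CH X i,
    ∃ (s : Finset (P.Pt k)) (m : P.Pt k → ℚ), (∀ p ∈ s, p ∈ X.pts) ∧ 0 < ∑ p ∈ s, m p ∧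
      mul X v w = ∑ p ∈ s, m p • cyc X {p} := by
  obtain ⟨V, W, x, hV, hW, x1, x2, d1, d2, hp⟩ := F1_pair X h
  have h1 := ip_mem X hV hW
  obtain ⟨s, s1, s2⟩ := F1_pts (Sp_mono (fun U hU => by have := hU.2.2; omega) h1)
  have h2 := ip_pos X hV hW hp x1 x2 (by rw [sdim_pt]; omega)
  refine ⟨_, cyc_mem X hV (by omega), _, cyc_mem X hW (by omega), s,
    fun p => ip X.dim (cS V) (cS W) (idl (({p} : Sub k P) : Set (P.Pt k))),
    fun p hs => hV ((Sp_of h1 ((s1 p).1 hs)).1 rfl),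
    Finset.sum_pos' (fun p _ => ip_nonneg X.dim V W _) ⟨x, (s1 x).2 h2.ne', h2⟩, ?_⟩
  rw [cyc_eq, cyc_eq, mul_mk X (F1_za.2 (cS_mem hV)) (F1_za.2 (cS_mem hW)) (F1_cS hp)]
  conv_lhs => rw [s2, map_sum]
  exact Finset.sum_congr rfl fun p _ => map_smul _ _ _

end Pool.Agent.Work.MP_10f4af_ag
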