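import Pool.Agent.Work.MP_10f4af_ag.F1

/-!
# Pull-back and push-forward on Chow groups

Plan.  `pl_mk`, `ps_mk`: `a - (mk a).out ∈ Rt` (`Submodule.Quotient.eq`, `Quotient.out_eq`),
`Pd.pull_cS`, `Bij.ex_cS`, `Rt_le`, `ex_Rt`, `push_Rt`.  `pl_mul`: `moving`, `mul_mk`, `Pd.pp_xp`,
`Pd.ip_ex`.  `ps_mul`: for the components `C` of a representative of `z` move `x` with respect to
the `β.img C` and the families `Crd.gp β C` (see `genpos` in `Cyc/Gp0.lean`); `Pd.ip_proj`.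
`pl_pl`: both products are the set of the `z ∈ Z'` with `ν.pr z ∈ V` (`pr_comp`).  `pl_ps`:
`push_ex`.  `mul_sec`: `Pd.pp_sec`, `Pd.ip_sec`.  `ps_sec`: `push_sec`, `img_img`.
`mul_pl_pl`: `Pd.ip_ex` with `V' = X.tp`, `ip_top`, `Bij.xp_symm`.
-/

open MvPolynomial Topology TopologicalSpace Finsupp

namespace Pool.Agent.Work.MP_10f4af_ag

open MP_ffcd14_ag hiding len vl cyc pl Weil idl_hmg mem_idl idl_prime idl_le_iff

universe u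

variable {k : Type u} [Field k] [IsAlgClosed k] {P Q S P' Q' S' Q'' : Amb} {X : SV k P}
  {Y : SV k Q} {Z : SV k S} {β : Crd k P S} {γ : Crd k Q S}

omit [IsAlgClosed k] in
theorem F2_ext {c : Sub k P → Prop} {c' : Sub k Q → Prop} {M : Type*} [AddCommGroup M]
    [Module ℚ M] (f g : Cyc k P →ₗ[ℚ] Cyc k Q →ₗ[ℚ] M)
    (h : ∀ V W, c V → c' W → f (cS V) (cS W) = g (cS V) (cS W)) {a : Cyc k P} {b : Cyc k Q}
    (ha : a ∈ Sp c) (hb : b ∈ Sp c') : f a b = g a b :=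
  Sp_ext (f.flip b) (g.flip b)
    (fun V hV => Sp_ext (f (cS V)) (g (cS V)) (fun W hW => h V W hV hW) hb) ha

omit [IsAlgClosed k] in
theorem F2_out (x : Cl X) : (Rt X.pts).mkQ x.out = x := Quotient.out_eq x

omit [IsAlgClosed k] in
theorem F2_sub (a : Cyc k P) : ((Rt X.pts).mkQ a).out - a ∈ Rt X.pts :=
  (Submodule.Quotient.eq _).1 (F2_out (X := X) _)

theorem F2_za {x : Cl X} (hx : x ∈ TC X) : x.out ∈ ZA X.pts := by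
  obtain ⟨a, ha, rfl⟩ := hx
  have := add_mem (Rt_le _ (F2_sub (X := X) a)) ha
  rwa [sub_add_cancel] at this

theorem pl_id {x : Cl X} (hx : x ∈ TC X) : pl X X id x = x := by
  have h := Sp_ext (pull id (idl X.pts)) LinearMap.id (fun V hV => by
    rw [LinearMap.id_apply, pull, cS, lmapDomain_apply, mapDomain_single, rename_id,
      Ideal.map_idₐ, sup_eq_left.2 (idl_anti hV)]) (F1_za.1 (F2_za hx))
  rw [pl, h, LinearMap.id_apply, cls, F2_out]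

theorem ps_id {x : Cl X} (hx : x ∈ TC X) : ps X X id x = x := by
  have h := Sp_ext (push id) LinearMap.id (fun V _ => by rw [LinearMap.id_apply, push_refl])
    (F1_za.1 (F2_za hx))
  rw [ps, h, LinearMap.id_apply, cls, F2_out]

namespace Pd

variable (h : Pd X Y Z β γ)
include h

theorem F2_mem {V : Sub k P} (hV : (V : Set (P.Pt k)) ⊆ X.pts) {z : S.Pt k} :
    z ∈ h.bij.xp V Y.tp ↔ z ∈ Z.pts ∧ β.pr z ∈ V := by
  rw [h.bij.mem_xp, h.mem]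
  exact ⟨fun h => ⟨⟨hV h.1, h.2⟩, h.1⟩, fun h => ⟨h.2, h.1.2⟩⟩

theorem F2_ex {c : Sub k P → Prop} {a : Cyc k P} (ha : a ∈ Sp c) :
    ex β.ε γ.ε a (cS Y.tp) ∈ Sp fun T => ∃ V, c V ∧ T = h.bij.xp V Y.tp := by
  refine Sp_mono ?_ (h.bij.ex_mem ha (cS_mem (c := fun W => W = Y.tp) rfl))
  rintro _ ⟨V, _, hV, rfl, rfl⟩
  exact ⟨V, hV, rfl⟩

theorem F2_exz {a : Cyc k P} (ha : a ∈ ZA X.pts) : ex β.ε γ.ε a (cS Y.tp) ∈ ZA Z.pts := by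
  refine F1_za.2 (Sp_mono ?_ (h.F2_ex (F1_za.1 ha)))
  rintro _ ⟨V, hV, rfl⟩
  exact h.xp_sub hV subset_rfl

theorem F2_push {c : Cyc k S} (hc : c ∈ ZA Z.pts) : push β.ε c ∈ ZA X.pts := by
  refine F1_za.2 (Sp_mono ?_ (push_mem h.bij.inj (F1_za.1 hc)))
  rintro _ ⟨V, hV, rfl, -⟩
  exact h.img_sub hV

theorem pl_mk {a : Cyc k P} (ha : a ∈ ZA X.pts) :
    pl X Z β.ε ((Rt X.pts).mkQ a) = (Rt Z.pts).mkQ (ex β.ε γ.ε a (cS Y.tp)) := by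
  have h1 := Sp_ext (pull β.ε (idl Z.pts)) ((ex β.ε γ.ε).flip (cS Y.tp)) (fun V hV => by
    rw [h.pull_cS hV, LinearMap.flip_apply, h.bij.ex_cS]) (F1_za.1 (F2_za ⟨a, ha, rfl⟩))
  have h2 := ex_Rt h.bij (V := Y.tp) (fun z h1 h2 => (h.mem z).2 ⟨h1, h2⟩) (F2_sub (X := X) a)
  rw [map_sub, LinearMap.sub_apply] at h2
  rw [pl, h1, LinearMap.flip_apply]
  exact (Submodule.Quotient.eq _).2 h2

theorem ps_mk (c : Cyc k S) : ps X Z β.ε ((Rt Z.pts).mkQ c) = (Rt X.pts).mkQ (push β.ε c) := by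
  have h1 := push_Rt h.bij.inj (fun z hz => ((h.mem z).1 hz).1) (F2_sub (X := Z) c)
  rw [map_sub] at h1
  exact (Submodule.Quotient.eq _).2 h1

variable {x x' : Cl X} {z z' : Cl Z}

theorem pl_TC (hx : x ∈ TC X) : pl X Z β.ε x ∈ TC Z := by
  obtain ⟨a, ha, rfl⟩ := hx
  exact ⟨_, h.F2_exz ha, (h.pl_mk ha).symm⟩

theorem ps_TC (hz : z ∈ TC Z) : ps X Z β.ε z ∈ TC X := by
  obtain ⟨c, hc, rfl⟩ := hz
  exact ⟨_, h.F2_push hc, (h.ps_mk c).symm⟩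

theorem pl_CH {i : ℕ} (hx : x ∈ CH X i) : pl X Z β.ε x ∈ CH Z i := by
  obtain ⟨a, ha, rfl⟩ := (mem_CH X).1 hx
  refine (mem_CH Z).2 ⟨_, Sp_mono ?_ (h.F2_ex ha),
    (h.pl_mk (F1_za.2 (Sp_mono (fun _ h => h.1) ha))).symm⟩
  rintro _ ⟨V, ⟨h1, h2⟩, rfl⟩
  refine ⟨h.xp_sub h1 subset_rfl, ?_⟩
  rw [h.bij.sdim_xp, Y.sdim_tp, h.dim]
  omega

theorem ps_CH {i : ℕ} (hz : z ∈ CH Z (i + Y.dim)) : ps X Z β.ε z ∈ CH X i := by
  obtain ⟨c, hc, rfl⟩ := (mem_CH Z).1 hz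
  refine (mem_CH X).2 ⟨_, Sp_mono ?_ (push_mem h.bij.inj hc), (h.ps_mk c).symm⟩
  rintro _ ⟨V, ⟨h1, h2⟩, rfl, h3⟩
  have := h.dim
  exact ⟨h.img_sub h1, by omega⟩

theorem pl_add (hx : x ∈ TC X) (hx' : x' ∈ TC X) :
    pl X Z β.ε (x + x') = pl X Z β.ε x + pl X Z β.ε x' := by
  obtain ⟨a, ha, rfl⟩ := hx
  obtain ⟨b, hb, rfl⟩ := hx'
  rw [← map_add, h.pl_mk ha, h.pl_mk hb, h.pl_mk (add_mem ha hb), map_add, LinearMap.add_apply,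
    map_add]

theorem pl_smul (q : ℚ) (hx : x ∈ TC X) : pl X Z β.ε (q • x) = q • pl X Z β.ε x := by
  obtain ⟨a, ha, rfl⟩ := hx
  rw [← map_smul, h.pl_mk ha, h.pl_mk (Submodule.smul_mem _ q ha), map_smul,
    LinearMap.smul_apply, map_smul]

theorem ps_add (z z' : Cl Z) : ps X Z β.ε (z + z') = ps X Z β.ε z + ps X Z β.ε z' := by
  obtain ⟨a, rfl⟩ := (Rt Z.pts).mkQ_surjective z
  obtain ⟨b, rfl⟩ := (Rt Z.pts).mkQ_surjective z'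
  rw [← map_add, h.ps_mk, h.ps_mk, h.ps_mk, map_add, map_add]

theorem ps_smul (q : ℚ) (z : Cl Z) : ps X Z β.ε (q • z) = q • ps X Z β.ε z := by
  obtain ⟨a, rfl⟩ := (Rt Z.pts).mkQ_surjective z
  rw [← map_smul, h.ps_mk, h.ps_mk, map_smul, map_smul]

theorem pl_cyc {V : Sub k P} (hV : (V : Set (P.Pt k)) ⊆ X.pts) :
    pl X Z β.ε (cyc X (V : Set (P.Pt k))) = cyc Z (h.bij.xp V Y.tp : Set (S.Pt k)) := by
  rw [cyc_eq, cyc_eq, h.pl_mk (F1_za.2 (cS_mem hV)), h.bij.ex_cS]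

theorem pl_one : pl X Z β.ε (cyc X X.pts) = cyc Z Z.pts := by
  have h1 := h.pl_cyc (V := X.tp) subset_rfl
  rw [← h.tp] at h1
  exact h1

theorem pl_mul (hx : x ∈ TC X) (hx' : x' ∈ TC X) :
    pl X Z β.ε (mul X x x') = mul Z (pl X Z β.ε x) (pl X Z β.ε x') := by
  obtain ⟨b, hb, rfl⟩ := hx'
  obtain ⟨a, ha, rfl, hp⟩ := F1_rep' X hx b
  have h1 : Prp Z.dim (ex β.ε γ.ε a (cS Y.tp)) (ex β.ε γ.ε b (cS Y.tp)) :=
    prp_iff.2 fun T T' hT hT' => by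
      obtain ⟨V, hV, rfl⟩ := Sp_of (h.F2_ex (F1_cmp ha)) hT
      obtain ⟨W, hW, rfl⟩ := Sp_of (h.F2_ex (F1_cmp hb)) hT'
      exact h.pp_xp (prp_iff.1 hp V W hV.2 hW.2) _
  have h2 := F2_ext ((ip X.dim).compr₂ ((ex β.ε γ.ε).flip (cS Y.tp)))
    ((ip Z.dim).compl₁₂ ((ex β.ε γ.ε).flip (cS Y.tp)) ((ex β.ε γ.ε).flip (cS Y.tp)))
    (fun V W hV hW => by
      simp only [LinearMap.compr₂_apply, LinearMap.compl₁₂_apply, LinearMap.flip_apply]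
      rw [h.bij.ex_cS, h.bij.ex_cS, h.ip_ex hV.1 hW.1 subset_rfl (prp_iff.1 hp V W hV.2 hW.2)])
    (F1_cmp ha) (F1_cmp hb)
  simp only [LinearMap.compr₂_apply, LinearMap.compl₁₂_apply, LinearMap.flip_apply] at h2
  rw [mul_mk X ha hb hp, h.pl_mk ha, h.pl_mk hb, h.pl_mk (F1_ip X ha hb),
    mul_mk Z (h.F2_exz ha) (h.F2_exz hb) h1, h2]

theorem ps_mul (hx : x ∈ TC X) (hz : z ∈ TC Z) :
    ps X Z β.ε (mul Z (pl X Z β.ε x) z) = mul X x (ps X Z β.ε z) := by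
  obtain ⟨c, hc, rfl⟩ := hz
  choose 𝓖 g1 _ g3 using fun C : Sub k S => β.gp C
  obtain ⟨a, ha, rfl, hp⟩ := F1_rep X hx
    ((finite_comp c).biUnion fun C _ => (g1 C).insert (β.img C))
  have key : ∀ (V : Sub k P) (C : Sub k S), a (idl (V : Set (P.Pt k))) ≠ 0 →
      c (idl (C : Set (S.Pt k))) ≠ 0 → Pp Z.dim (h.bij.xp V Y.tp) C := fun V C hV hC U u1 u2 => by
    have h1 := (h.bij.le_xp.1 u1).1
    rw [h.bij.sdim_xp, Y.sdim_tp, h.dim]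
    rcases g3 C U u2 with e | ⟨F, hF, e1, e2⟩
    · have := hp V hV _ (Set.mem_biUnion hC (Set.mem_insert _ _)) _ h1 (β.img_mono u2)
      omega
    · have := hp V hV _ (Set.mem_biUnion hC (Set.mem_insert_of_mem _ hF)) _ h1 e1
      omega
  have h1 : Prp Z.dim (ex β.ε γ.ε a (cS Y.tp)) c := prp_iff.2 fun T C hT hC => by
    obtain ⟨V, hV, rfl⟩ := Sp_of (h.F2_ex (F1_cmp ha)) hT
    exact key V C hV.2 hC
  have h2 : Prp X.dim a (push β.ε c) := prp_iff.2 fun V T hV hT => by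
    obtain ⟨C, hC, rfl, -⟩ := Sp_of (push_mem h.bij.inj (F1_cmp hc)) hT
    exact hp V hV _ (Set.mem_biUnion hC.2 (Set.mem_insert _ _))
  have h3 := F2_ext ((ip Z.dim ∘ₗ (ex β.ε γ.ε).flip (cS Y.tp)).compr₂ (push β.ε))
    ((ip X.dim).compl₂ (push β.ε)) (fun V C hV hC => by
      simp only [LinearMap.compr₂_apply, LinearMap.compl₂_apply, LinearMap.flip_apply,
        LinearMap.comp_apply]
      rw [h.bij.ex_cS, h.ip_proj hV.1 hC.1 (key V C hV.2 hC.2)]) (F1_cmp ha) (F1_cmp hc)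
  simp only [LinearMap.compr₂_apply, LinearMap.compl₂_apply, LinearMap.flip_apply,
    LinearMap.comp_apply] at h3
  rw [h.pl_mk ha, mul_mk Z (h.F2_exz ha) hc h1, h.ps_mk, h.ps_mk, mul_mk X ha (h.F2_push hc) h2,
    h3]

theorem mul_pl_pl {V : Sub k P} {W : Sub k Q} (hV : (V : Set (P.Pt k)) ⊆ X.pts)
    (hW : (W : Set (Q.Pt k)) ⊆ Y.pts) :
    mul Z (pl X Z β.ε (cyc X (V : Set (P.Pt k)))) (pl Y Z γ.ε (cyc Y (W : Set (Q.Pt k)))) =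
      cyc Z (h.bij.xp V W : Set (S.Pt k)) := by
  have e : h.symm.bij.xp W X.tp = h.bij.xp X.tp W := h.bij.xp_symm X.tp W
  rw [h.pl_cyc hV, h.symm.pl_cyc hW, e, cyc_eq, cyc_eq, cyc_eq,
    mul_mk Z (F1_za.2 (cS_mem (h.xp_sub hV subset_rfl))) (F1_za.2 (cS_mem (h.xp_sub subset_rfl hW)))
      (F1_cS (h.pp_xp (Pp_top X V) W)), h.ip_ex hV subset_rfl hW (Pp_top X V), ip_top X hV,
    h.bij.ex_cS]

theorem ps_sec (j : Crd k S P) (e : j.ε ∘ β.ε = id) :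
    ps X Z β.ε (cyc Z (j.img X.tp : Set (S.Pt k))) = cyc X X.pts := by
  rw [cyc_eq, h.ps_mk, push_sec h.bij.inj j (fun z hz => by
    obtain ⟨x, -, rfl⟩ := j.mem_img_iff.1 hz
    exact congrArg j.pr (pr_comp (ν := Crd.refl k P) e x)), img_img (ν := Crd.refl k P) e,
    Crd.img_refl, cyc_tp]

variable {Y' : SV k Q'} {Y'' : SV k Q''} {Z' : SV k S'}

theorem mul_sec {β' : Crd k P S} {γ' : Crd k Q' S} (h' : Pd X Y' Z β' γ') (j : Crd k S P)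
    (e : j.ε ∘ β.ε = id) (e' : j.ε ∘ β'.ε = id) (hj : ∀ x ∈ X.pts, j.pr x ∈ Z.pts)
    (hx : x ∈ TC X) : mul Z (pl X Z β.ε x) (cyc Z (j.img X.tp : Set (S.Pt k))) =
      mul Z (pl X Z β'.ε x) (cyc Z (j.img X.tp : Set (S.Pt k))) := by
  obtain ⟨a, ha, rfl⟩ := hx
  have hΔ : cS (j.img X.tp) ∈ ZA Z.pts := F1_za.2 (cS_mem ((j.img_sub Z.closed).2 hj))
  have h1 : Prp Z.dim (ex β.ε γ.ε a (cS Y.tp)) (cS (j.img X.tp)) := prp_iff.2 fun T C hT hC => by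
    obtain ⟨V, -, rfl⟩ := Sp_of (h.F2_ex (F1_za.1 ha)) hT
    rw [← of_not_not (mt cS_ne hC)]
    exact h.pp_sec j e V
  have h2 : Prp Z.dim (ex β'.ε γ'.ε a (cS Y'.tp)) (cS (j.img X.tp)) :=
    prp_iff.2 fun T C hT hC => by
      obtain ⟨V, -, rfl⟩ := Sp_of (h'.F2_ex (F1_za.1 ha)) hT
      rw [← of_not_not (mt cS_ne hC)]
      exact h'.pp_sec j e' V
  have h3 := Sp_ext ((ip Z.dim).flip (cS (j.img X.tp)) ∘ₗ (ex β.ε γ.ε).flip (cS Y.tp))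
    ((ip Z.dim).flip (cS (j.img X.tp)) ∘ₗ (ex β'.ε γ'.ε).flip (cS Y'.tp)) (fun V hV => by
      simp only [LinearMap.flip_apply, LinearMap.comp_apply]
      rw [h.bij.ex_cS, h'.bij.ex_cS, h.ip_sec j e hj hV, h'.ip_sec j e' hj hV]) (F1_za.1 ha)
  simp only [LinearMap.flip_apply, LinearMap.comp_apply] at h3
  rw [h.pl_mk ha, h'.pl_mk ha, cyc_eq, mul_mk Z (h.F2_exz ha) hΔ h1,
    mul_mk Z (h'.F2_exz ha) hΔ h2, h3]

theorem pl_pl {μ : Crd k S S'} {θ : Crd k Q' S'} {ν : Crd k P S'} {η : Crd k Q'' S'}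
    (h' : Pd Z Y' Z' μ θ) (h'' : Pd X Y'' Z' ν η) (e : μ.ε ∘ β.ε = ν.ε) (hx : x ∈ TC X) :
    pl Z Z' μ.ε (pl X Z β.ε x) = pl X Z' ν.ε x := by
  obtain ⟨a, ha, rfl⟩ := hx
  have h1 := Sp_ext ((ex μ.ε θ.ε).flip (cS Y'.tp) ∘ₗ (ex β.ε γ.ε).flip (cS Y.tp))
    ((ex ν.ε η.ε).flip (cS Y''.tp)) (fun V hV => by
      simp only [LinearMap.flip_apply, LinearMap.comp_apply]
      rw [h.bij.ex_cS, h'.bij.ex_cS, h''.bij.ex_cS]
      refine congrArg cS (SetLike.ext fun z => ?_)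
      rw [h'.F2_mem (h.xp_sub hV subset_rfl), h.F2_mem hV, h''.F2_mem hV, pr_comp e]
      exact ⟨fun h => ⟨h.1, h.2.2⟩, fun h => ⟨h.1, ((h'.mem z).1 h.1).1, h.2⟩⟩) (F1_za.1 ha)
  simp only [LinearMap.flip_apply, LinearMap.comp_apply] at h1
  rw [h.pl_mk ha, h'.pl_mk (h.F2_exz ha), h''.pl_mk ha, h1]

theorem ps_ps {μ : Crd k S S'} {θ : Crd k Q' S'} {ν : Crd k P S'} {η : Crd k Q'' S'}
    (h' : Pd Z Y' Z' μ θ) (h'' : Pd X Y'' Z' ν η) (e : μ.ε ∘ β.ε = ν.ε) {w : Cl Z'}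
    (hw : w ∈ TC Z') : ps X Z β.ε (ps Z Z' μ.ε w) = ps X Z' ν.ε w := by
  obtain ⟨c, hc, rfl⟩ := hw
  rw [h'.ps_mk, h.ps_mk, h''.ps_mk, ← push_comp h.bij.inj h'.bij.inj (F1_za.1 hc), e]

theorem pl_ps {X' : SV k P'} {α : Crd k P P'} {α' : Crd k Q' P'} {β' : Crd k P' S'}
    {γ' : Crd k Q S'} {μ : Crd k S S'} {μ' : Crd k Q'' S'} (h₁ : Pd X Y' X' α α')
    (h₃ : Pd X' Y Z' β' γ') (h₄ : Pd Z Y'' Z' μ μ') (e : μ.ε ∘ β.ε = β'.ε ∘ α.ε)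
    (e' : μ.ε ∘ γ.ε = γ'.ε) {w : Cl X'} (hw : w ∈ TC X') :
    pl X Z β.ε (ps X X' α.ε w) = ps Z Z' μ.ε (pl X' Z' β'.ε w) := by
  obtain ⟨c, hc, rfl⟩ := hw
  rw [h₁.ps_mk, h.pl_mk (h₁.F2_push hc), h₃.pl_mk hc, h₄.ps_mk,
    push_ex h₃.bij h.bij h₁.bij.inj h₄.bij.inj e e' (F1_za.1 hc)
      (cS_mem (c := fun _ => True) trivial)]

end Pd

end Pool.Agent.Work.MP_10f4af_ag
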