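import Pool.Agent.Work.MP_10f4af_ag.T0

/-! # The calculus of correspondences -/

open Function Function.Embedding

namespace Pool.Agent.Work.MP_10f4af_ag

open MP_ffcd14_ag (Amb)

universe u w

variable {k : Type u} [Field k] {P : Amb}

/-- Rings attached to the powers of `X`, with pull-back and push-forward. -/
structure Th (X : SV k P) where
  E : ∀ {T : Type}, Mod X T → Type w
  [ring : ∀ {T : Type} (M : Mod X T), Ring (E M)]
  pl : ∀ {T T' : Type} (M : Mod X T) (M' : Mod X T'), (T ↪ T') → E M →+* E M'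
  ps : ∀ {T T' : Type} (M : Mod X T) (M' : Mod X T'), (T ↪ T') → E M' →+ E M
  pl_pl : ∀ {T T' T'' : Type} (M : Mod X T) (M' : Mod X T') (M'' : Mod X T'') (f : T ↪ T')
    (g : T' ↪ T'') (x : E M), pl M' M'' g (pl M M' f x) = pl M M'' (f.trans g) x
  ps_ps : ∀ {T T' T'' : Type} (M : Mod X T) (M' : Mod X T') (M'' : Mod X T'') (f : T ↪ T')
    (g : T' ↪ T'') (x : E M''), ps M M' f (ps M' M'' g x) = ps M M'' (f.trans g) x
  pl_id : ∀ {T : Type} (M : Mod X T) (x : E M), pl M M (Embedding.refl T) x = x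
  ps_id : ∀ {T : Type} (M : Mod X T) (x : E M), ps M M (Embedding.refl T) x = x
  proj_l : ∀ {T T' : Type} (M : Mod X T) (M' : Mod X T') (f : T ↪ T') (x : E M) (z : E M'),
    ps M M' f (pl M M' f x * z) = x * ps M M' f z
  proj_r : ∀ {T T' : Type} (M : Mod X T) (M' : Mod X T') (f : T ↪ T') (x : E M) (z : E M'),
    ps M M' f (z * pl M M' f x) = ps M M' f z * x
  bc : ∀ {T₀ T₁ T₂ T₃ : Type} (M₀ : Mod X T₀) (M₁ : Mod X T₁) (M₂ : Mod X T₂) (M₃ : Mod X T₃)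
    (f₁ : T₀ ↪ T₁) (f₂ : T₀ ↪ T₂) (g₁ : T₁ ↪ T₃) (g₂ : T₂ ↪ T₃), (∀ t, g₁ (f₁ t) = g₂ (f₂ t)) →
    (∀ u, u ∈ Set.range g₁ ∨ u ∈ Set.range g₂) → (∀ a b, g₁ a = g₂ b → b ∈ Set.range f₂) →
    ∀ x, pl M₀ M₂ f₂ (ps M₀ M₁ f₁ x) = ps M₂ M₃ g₂ (pl M₁ M₃ g₁ x)

attribute [instance] Th.ring

/-- The factors one and two of a triple product. -/
def e12 (T : Type) : T ⊕ T ↪ (T ⊕ T) ⊕ T := inl

/-- The factors one and three of a triple product. -/
def e13 (T : Type) : T ⊕ T ↪ (T ⊕ T) ⊕ T := (inl : T ↪ T ⊕ T).sumMap (Embedding.refl T)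

/-- The factors two and three of a triple product. -/
def e23 (T : Type) : T ⊕ T ↪ (T ⊕ T) ⊕ T := (inr : T ↪ T ⊕ T).sumMap (Embedding.refl T)

/-- An embedding of a sum. -/
def em {A B C : Type} (f : A ↪ C) (g : B ↪ C) (h : ∀ a b, f a ≠ g b) : A ⊕ B ↪ C :=
  ⟨Sum.elim f g, f.injective.sumElim g.injective h⟩

@[simp] theorem em_inl {A B C : Type} (f : A ↪ C) (g : B ↪ C) (h : ∀ a b, f a ≠ g b) (a : A) :
    em f g h (Sum.inl a) = f a := rfl

@[simp] theorem em_inr {A B C : Type} (f : A ↪ C) (g : B ↪ C) (h : ∀ a b, f a ≠ g b) (b : B) :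
    em f g h (Sum.inr b) = g b := rfl

namespace Th

variable {X : SV k P} (E : Th.{u, w} X) {T T' T'' : Type} (M : Mod X T) (M' : Mod X T')
  (M'' : Mod X T'')

theorem pl_pl' {f : T ↪ T'} {g : T' ↪ T''} (h : T ↪ T'') (e : ∀ t, g (f t) = h t) (x : E.E M) :
    E.pl M' M'' g (E.pl M M' f x) = E.pl M M'' h x := by
  rw [E.pl_pl, show f.trans g = h from Embedding.ext e]

theorem ps_ps' {f : T ↪ T'} {g : T' ↪ T''} (h : T ↪ T'') (e : ∀ t, g (f t) = h t) (x : E.E M'') :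
    E.ps M M' f (E.ps M' M'' g x) = E.ps M M'' h x := by
  rw [E.ps_ps, show f.trans g = h from Embedding.ext e]

theorem ps_pl {f : T ↪ T'} (hf : Surjective f) (x : E.E M) : E.ps M M' f (E.pl M M' f x) = x := by
  rw [← E.bc M M M M' (Embedding.refl T) (Embedding.refl T) f f (fun _ => rfl)
    (fun u => Or.inl (hf u)) fun _ b _ => ⟨b, rfl⟩, E.ps_id, E.pl_id]

theorem pl_ps {f : T ↪ T'} (hf : Surjective f) (x : E.E M') :
    E.pl M M' f (E.ps M M' f x) = x := by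
  rw [E.bc M M' M' M' f f (Embedding.refl _) (Embedding.refl _) (fun _ => rfl)
    (fun u => Or.inl ⟨u, rfl⟩) fun _ b _ => hf b, E.pl_id, E.ps_id]

variable [IsAlgClosed k]

theorem ext2 {A B U A' B' U' : Type} (MA : Mod X A) (MB : Mod X B) (MU : Mod X U) (MA' : Mod X A')
    (MB' : Mod X B') (MU' : Mod X U') {g₁ : A ↪ U} {g₂ : B ↪ U} (g₁' : A' ↪ U') (g₂' : B' ↪ U')
    (f₁ : A' ↪ A) (f₂ : B' ↪ B) {F : U' ↪ U} (h : Bijective (Sum.elim g₁ g₂))
    (h' : ∀ u, u ∈ Set.range g₁' ∨ u ∈ Set.range g₂') (e₁ : ∀ a, F (g₁' a) = g₁ (f₁ a))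
    (e₂ : ∀ b, F (g₂' b) = g₂ (f₂ b)) (a : E.E MA) (b : E.E MB) :
    E.ps MU' MU F (E.pl MA MU g₁ a * E.pl MB MU g₂ b) =
      E.pl MA' MU' g₁' (E.ps MA' MA f₁ a) * E.pl MB' MU' g₂' (E.ps MB' MB f₂ b) := by
  classical
  have hd : ∀ a b, g₁ a ≠ g₂ b := fun a b e =>
    Sum.inl_ne_inr (h.1 (a₁ := Sum.inl a) (a₂ := Sum.inr b) e)
  let G : A' ⊕ B ↪ U := em (f₁.trans g₁) g₂ fun a b => hd _ b
  have hex : ∀ u, ∃ v, G v = F u := fun u => by
    rcases h' u with ⟨a, rfl⟩ | ⟨b, rfl⟩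
    · exact ⟨Sum.inl a, (e₁ a).symm⟩
    · exact ⟨Sum.inr (f₂ b), (e₂ b).symm⟩
  choose H hH using hex
  let H' : U' ↪ A' ⊕ B := ⟨H, fun u v e => F.injective (by rw [← hH, ← hH, e])⟩
  have H1 : ∀ a, H' (g₁' a) = Sum.inl a := fun a => G.injective ((hH _).trans (e₁ a))
  have H2 : ∀ b, H' (g₂' b) = Sum.inr (f₂ b) := fun b => G.injective ((hH _).trans (e₂ b))
  rw [← E.ps_ps' MU' (MA'.prod MB) MU (f := H') (g := G) F hH,
    ← E.pl_pl' MB (MA'.prod MB) MU (f := inr) (g := G) g₂ fun _ => rfl, E.proj_r,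
    ← E.bc MA' MA (MA'.prod MB) MU f₁ inl g₁ G (fun _ => rfl) ?_ ?_,
    ← E.pl_pl' MA' MU' (MA'.prod MB) (f := g₁') (g := H') inl H1, E.proj_l,
    ← E.bc MB' MB MU' (MA'.prod MB) f₂ g₂' inr H' (fun b => (H2 b).symm) ?_ ?_]
  · rintro (a | b)
    · exact Or.inr ⟨_, H1 a⟩
    · exact Or.inl ⟨b, rfl⟩
  · intro b u e
    rcases h' u with ⟨a, rfl⟩ | hu
    · exact (Sum.inr_ne_inl (e.trans (H1 a))).elim
    · exact hu
  · intro u
    obtain ⟨a | b, rfl⟩ := h.2 u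
    · exact Or.inl ⟨a, rfl⟩
    · exact Or.inr ⟨Sum.inr b, rfl⟩
  · rintro a (a' | b) e
    · exact ⟨a', rfl⟩
    · exact (hd a b e).elim

theorem extN {A A' : Type} (MA : Mod X A) (MA' : Mod X A') (f : A' ↪ A) (N : ℕ) :
    ∀ {U U' : Type} (MU : Mod X U) (MU' : Mod X U') (j : Fin N → A ↪ U) (j' : Fin N → A' ↪ U')
      (F : U' ↪ U), (Bijective fun p : Fin N × A => j p.1 p.2) →
      (Surjective fun p : Fin N × A' => j' p.1 p.2) → (∀ n a, F (j' n a) = j n (f a)) →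
      ∀ c : Fin N → E.E MA, E.ps MU' MU F (List.ofFn fun n => E.pl MA MU (j n) (c n)).prod =
        (List.ofFn fun n => E.pl MA' MU' (j' n) (E.ps MA' MA f (c n))).prod := by
  induction N with
  | zero =>
    intro U U' MU MU' j j' F h _ _ c
    have : Surjective F := fun u => (h.2 u).choose.1.elim0
    simpa using E.ps_pl MU' MU this 1
  | succ N ih =>
    intro U U' MU MU' j j' F h h' e c
    have := MA.fin
    have := MA'.fin
    let i : Fin N → A ↪ Fin N × A := fun n => ⟨Prod.mk n, Prod.mk_right_injective n⟩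
    let i' : Fin N → A' ↪ Fin N × A' := fun n => ⟨Prod.mk n, Prod.mk_right_injective n⟩
    let g : Fin N × A ↪ U := ⟨fun p => j p.1.succ p.2, fun p q e => by
      have := h.1 (a₁ := (p.1.succ, p.2)) (a₂ := (q.1.succ, q.2)) e
      exact Prod.ext (Fin.succ_injective _ (Prod.mk.inj this).1) (Prod.mk.inj this).2⟩
    let f' : Fin N × A' ↪ Fin N × A := (Embedding.refl _).prodMap f
    let g' : Fin N × A' ↪ U' := ⟨fun p => j' p.1.succ p.2, fun p q e' =>
      (f'.trans g).injective ((e _ _).symm.trans ((congrArg F e').trans (e _ _)))⟩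
    have key : ∀ {B V : Type} (MB : Mod X B) (MV : Mod X V) [Finite B] (j : Fin (N + 1) → B ↪ V)
        (i : Fin N → B ↪ Fin N × B) (g : Fin N × B ↪ V), (∀ n b, g (i n b) = j n.succ b) →
        ∀ c : Fin (N + 1) → E.E MB, (List.ofFn fun n => E.pl MB MV (j n) (c n)).prod =
        E.pl MB MV (j 0) (c 0) * E.pl (Mod.pow X _) MV g
          (List.ofFn fun n => E.pl MB (Mod.pow X _) (i n) (c n.succ)).prod := by
      intro B V MB MV _ j i g hg c
      rw [List.ofFn_succ, List.prod_cons, map_list_prod, List.map_ofFn]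
      congr 3
      funext n
      exact (E.pl_pl' _ _ _ _ (hg n) _).symm
    rw [key MA MU j i g fun _ _ => rfl, key MA' MU' j' i' g' fun _ _ => rfl,
      E.ext2 MA (Mod.pow X _) MU MA' (Mod.pow X _) MU' (j' 0) g' f f' ?_ ?_ (e 0) fun p => e _ _,
      ih (Mod.pow X _) (Mod.pow X _) i i' f' bijective_id surjective_id fun _ _ => rfl]
    · refine ⟨(j 0).injective.sumElim g.injective fun a p e => ?_, fun u => ?_⟩
      · exact Fin.succ_ne_zero _
          (congrArg Prod.fst (h.1 (a₁ := (0, a)) (a₂ := (p.1.succ, p.2)) e)).symm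
      · obtain ⟨⟨n, a⟩, rfl⟩ := h.2 u
        induction n using Fin.cases with
        | zero => exact ⟨Sum.inl a, rfl⟩
        | succ n => exact ⟨Sum.inr (n, a), rfl⟩
    · intro u
      obtain ⟨⟨n, a⟩, rfl⟩ := h' u
      induction n using Fin.cases with
      | zero => exact Or.inl ⟨a, rfl⟩
      | succ n => exact Or.inr ⟨(n, a), rfl⟩

/-- Composition of correspondences. -/
noncomputable def cmp (β α : E.E (M.prod M)) : E.E (M.prod M) :=
  E.ps (M.prod M) ((M.prod M).prod M) (e13 T)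
    (E.pl (M.prod M) _ (e12 T) α * E.pl (M.prod M) _ (e23 T) β)

/-- Action of a correspondence. -/
noncomputable def act (α : E.E (M.prod M)) (z : E.E M) : E.E M :=
  E.ps M (M.prod M) inr (α * E.pl M (M.prod M) inl z)

/-- The triple composition. -/
noncomputable def cmp3 (γ β α : E.E (M.prod M)) : E.E (M.prod M) :=
  E.ps (M.prod M) (((M.prod M).prod M).prod M) ((inl.trans inl).sumMap (Embedding.refl T))
    (E.pl (M.prod M) _ (inl.trans inl) α * E.pl (M.prod M) _ ((e23 T).trans inl) β *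
      E.pl (M.prod M) _ (inr.sumMap (Embedding.refl T)) γ)

theorem cmp3_l (γ β α : E.E (M.prod M)) : E.cmp M γ (E.cmp M β α) = E.cmp3 M γ β α := by
  rw [cmp, cmp, E.bc (M.prod M) _ _ (((M.prod M).prod M).prod M) (e13 T) (e12 T) inl
      ((e13 T).sumMap (Embedding.refl T)) (fun _ => rfl) ?_ ?_, ← E.proj_r,
    E.ps_ps' _ _ _ ((inl.trans inl).sumMap (Embedding.refl T)) (by rintro (t | t) <;> rfl),
    RingHom.map_mul, E.pl_pl, E.pl_pl,
    E.pl_pl' _ _ _ (inr.sumMap (Embedding.refl T)) (by rintro (t | t) <;> rfl)]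
  · rfl
  · rintro (u | t)
    · exact Or.inl ⟨u, rfl⟩
    · exact Or.inr ⟨Sum.inr t, rfl⟩
  · rintro a (b | b) e
    · exact ⟨b, rfl⟩
    · exact (Sum.inl_ne_inr e).elim

theorem cmp3_r (γ β α : E.E (M.prod M)) : E.cmp M (E.cmp M γ β) α = E.cmp3 M γ β α := by
  rw [cmp, cmp, E.bc (M.prod M) _ _ (((M.prod M).prod M).prod M) (e13 T) (e23 T)
      ((e23 T).sumMap (Embedding.refl T)) ((e12 T).sumMap (Embedding.refl T))
      (by rintro (t | t) <;> rfl) ?_ ?_, ← E.proj_l,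
    E.ps_ps' _ _ _ ((inl.trans inl).sumMap (Embedding.refl T)) (by rintro (t | t) <;> rfl),
    RingHom.map_mul, E.pl_pl' _ _ _ (inl.trans inl) (by rintro (t | t) <;> rfl),
    E.pl_pl' _ _ _ ((e23 T).trans inl) (by rintro (t | t) <;> rfl),
    E.pl_pl' _ _ _ (inr.sumMap (Embedding.refl T)) (by rintro (t | t) <;> rfl), ← mul_assoc]
  · rfl
  · rintro ((u | t) | t)
    · exact Or.inr ⟨Sum.inl u, rfl⟩
    · exact Or.inl ⟨Sum.inl (Sum.inr t), rfl⟩
    · exact Or.inr ⟨Sum.inr t, rfl⟩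
  · rintro ((a | a) | a) ((b | b) | b) e <;> first
      | exact ⟨Sum.inl b, rfl⟩ | exact ⟨Sum.inr b, rfl⟩ | cases e

theorem cmp_assoc (γ β α : E.E (M.prod M)) :
    E.cmp M (E.cmp M γ β) α = E.cmp M γ (E.cmp M β α) := by
  rw [cmp3_l, cmp3_r]

theorem act_cmp (β α : E.E (M.prod M))
    (h : Commute (E.pl (M.prod M) ((M.prod M).prod M) (e12 T) α) (E.pl (M.prod M) _ (e23 T) β))
    (x : E.E M) : E.act M (E.cmp M β α) x = E.act M β (E.act M α x) := by
  rw [act, cmp, act, act, E.bc M (M.prod M) (M.prod M) ((M.prod M).prod M) inr inl (e12 T) (e23 T)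
      (fun _ => rfl) ?_ ?_, ← E.proj_r, ← E.proj_l, E.ps_ps' _ _ _ inr fun _ => rfl,
    E.ps_ps' _ _ _ inr fun _ => rfl, h.eq, RingHom.map_mul, mul_assoc, E.pl_pl, E.pl_pl]
  · rfl
  · rintro (u | t)
    · exact Or.inl ⟨u, rfl⟩
    · exact Or.inr ⟨Sum.inr t, rfl⟩
  · rintro a (b | b) e
    · exact ⟨b, rfl⟩
    · exact (Sum.inl_ne_inr e).elim

theorem act_perm (σ : T ≃ T) (α : E.E (M.prod M)) (x : E.E M) :
    E.act M (E.pl (M.prod M) (M.prod M) ((Embedding.refl T).sumMap σ.toEmbedding) α) x =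
      E.pl M M σ.toEmbedding (E.act M α x) := by
  rw [act, act, E.bc M (M.prod M) M (M.prod M) inr σ.toEmbedding
    ((Embedding.refl T).sumMap σ.toEmbedding) inr (fun _ => rfl) ?_ fun _ b _ => σ.surjective b,
    RingHom.map_mul, E.pl_pl' _ _ _ inl fun _ => rfl]
  rintro (u | t)
  · exact Or.inl ⟨Sum.inl u, rfl⟩
  · exact Or.inr ⟨t, rfl⟩

theorem cmp_perm_l (σ : T ≃ T) (β α : E.E (M.prod M)) :
    E.cmp M (E.pl (M.prod M) (M.prod M) ((Embedding.refl T).sumMap σ.toEmbedding) β) α =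
      E.pl (M.prod M) (M.prod M) ((Embedding.refl T).sumMap σ.toEmbedding) (E.cmp M β α) := by
  rw [cmp, cmp, E.bc (M.prod M) ((M.prod M).prod M) (M.prod M) ((M.prod M).prod M) (e13 T)
    ((Embedding.refl T).sumMap σ.toEmbedding) ((Embedding.refl _).sumMap σ.toEmbedding) (e13 T)
    (by rintro (t | t) <;> rfl) ?_ ?_, RingHom.map_mul,
    E.pl_pl' _ _ _ (f := e12 T) (e12 T) fun _ => rfl, E.pl_pl,
    E.pl_pl' _ _ _ (f := e23 T) (((Embedding.refl T).sumMap σ.toEmbedding).trans (e23 T))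
      (by rintro (t | t) <;> rfl)]
  · rintro (u | t)
    · exact Or.inl ⟨Sum.inl u, rfl⟩
    · exact Or.inr ⟨Sum.inr t, rfl⟩
  · rintro - (b | b) -
    · exact ⟨Sum.inl b, rfl⟩
    · exact ⟨Sum.inr (σ.symm b), congrArg Sum.inr (σ.apply_symm_apply b)⟩

theorem cmp_perm_r (σ : T ≃ T) (β α : E.E (M.prod M)) :
    E.cmp M β (E.pl (M.prod M) (M.prod M) (σ.toEmbedding.sumMap (Embedding.refl T)) α) =
      E.pl (M.prod M) (M.prod M) (σ.toEmbedding.sumMap (Embedding.refl T)) (E.cmp M β α) := by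
  rw [cmp, cmp, E.bc (M.prod M) ((M.prod M).prod M) (M.prod M) ((M.prod M).prod M) (e13 T)
    (σ.toEmbedding.sumMap (Embedding.refl T))
    ((σ.toEmbedding.sumMap (Embedding.refl T)).sumMap (Embedding.refl T)) (e13 T)
    (by rintro (t | t) <;> rfl) ?_ ?_, RingHom.map_mul,
    E.pl_pl' _ _ _ (f := e23 T) (e23 T) (by rintro (t | t) <;> rfl), E.pl_pl,
    E.pl_pl' _ _ _ (f := e12 T) ((σ.toEmbedding.sumMap (Embedding.refl T)).trans (e12 T))
      (by rintro (t | t) <;> rfl)]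
  · rintro ((t | t) | t)
    · exact Or.inr ⟨Sum.inl t, rfl⟩
    · exact Or.inl ⟨Sum.inl (Sum.inr t), rfl⟩
    · exact Or.inr ⟨Sum.inr t, rfl⟩
  · rintro - (b | b) -
    · exact ⟨Sum.inl (σ.symm b), congrArg Sum.inl (σ.apply_symm_apply b)⟩
    · exact ⟨Sum.inr b, rfl⟩

theorem cmp_dec (α : E.E (M.prod M)) (b a : E.E M)
    (h : Commute (E.pl M (M.prod M) inl a) α) :
    E.cmp M α (E.pl M (M.prod M) inl b * E.pl M (M.prod M) inr a) =
      E.pl M (M.prod M) inl b * E.pl M (M.prod M) inr (E.act M α a) := by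
  rw [cmp, act, E.bc M (M.prod M) (M.prod M) ((M.prod M).prod M) inr inr (e23 T) (e13 T)
    (fun _ => rfl) ?_ ?_, ← E.proj_l, ← h.eq, RingHom.map_mul, RingHom.map_mul, mul_assoc, E.pl_pl, E.pl_pl,
    E.pl_pl, E.pl_pl]
  · rfl
  · rintro ((t | t) | t)
    · exact Or.inr ⟨Sum.inl t, rfl⟩
    · exact Or.inl ⟨Sum.inl t, rfl⟩
    · exact Or.inr ⟨Sum.inr t, rfl⟩
  · rintro (a | a) (b | b) e <;> first | exact ⟨b, rfl⟩ | cases e

end Th

end Pool.Agent.Work.MP_10f4af_ag
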