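import Pool.Agent.Work.MP_10f4af_ag.T2
import Pool.Agent.Work.MP_10f4af_ag.Defs
import Pool.Agent.Work.MP_10f4af_ag.T1
import Mathlib

-- merged part: Pool.Agent.Work.MP_10f4af_ag.T3
section
/-! # The ring of correspondences -/

open Function Function.Embedding

namespace Pool.Agent.Work.MP_10f4af_ag

open MP_ffcd14_ag (Amb)

universe u

variable {k : Type u} [Field k] [IsAlgClosed k] {P : Amb} {X : SV k P} {T T' U : Type}

namespace Mod

variable (M : Mod X T) (M' : Mod X T')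

theorem pull_pull {T'' : Type} (M'' : Mod X T'') {f : T ↪ T'} {g : T' ↪ T''} (h : T ↪ T'')
    (e : ∀ t, g (f t) = h t) (x : CR M.Z) : M'.pull M'' g (M.pull M' f x) = M.pull M'' h x :=
  (CT X).pl_pl' M M' M'' h e x

theorem push_pull_mul (f : T ↪ T') (x : CR M.Z) (z : CR M'.Z) :
    M.push M' f (M.pull M' f x * z) = x * M.push M' f z := (CT X).proj_l M M' f x z

/-- Composition of correspondences. -/
noncomputable def cmp (β α : CR (M.prod M).Z) : CR (M.prod M).Z :=
  (M.prod M).push ((M.prod M).prod M) (e13 T)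
    ((M.prod M).pull _ (e12 T) α * (M.prod M).pull _ (e23 T) β)

theorem cmp_eq (β α : CR (M.prod M).Z) : M.cmp β α = (CT X).cmp M β α := rfl

theorem crd12 : ((M.prod M).crd ((M.prod M).prod M) (e12 T)).ε = vl := crd_inl _ _

theorem crd13 : ((M.prod M).crd ((M.prod M).prod M) (e13 T)).ε = vp (vl ∘ vl) vr :=
  crd_eq _ _ _ (by rintro (t | t) s <;> rfl)

theorem crd23 : ((M.prod M).crd ((M.prod M).prod M) (e23 T)).ε = vp (vl ∘ vr) vr :=
  crd_eq _ _ _ (by rintro (t | t) s <;> rfl)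

theorem val_cmp (β α : CR (M.prod M).Z) :
    CR.val _ (M.cmp β α) = comp M.Z (CR.val _ β) (CR.val _ α) := by
  rw [cmp, val_push, CR.val_mul, val_pull, val_pull, crd12, crd13, crd23]
  rfl

theorem dl_cmp (α : CR (M.prod M).Z) : M.cmp M.dl α = α := by
  rw [cmp, dl, pull_dg _ _ (e23 T) (Sum.elim id Sum.inr : (T ⊕ T) ⊕ T → T ⊕ T) ?_ ?_,
    mul_dg _ _ (e12 T) (e13 T) (fun _ => rfl) (by rintro (t | t) <;> rfl), push_pull_mul,
    push_dg _ _ _ (by rintro (t | t) <;> rfl), mul_one]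
  · rintro (a | a) (b | b) (rfl : a = b) <;> rfl
  · rintro ((a | a) | a) ((b | b) | b) e <;> cases e <;> first
      | exact Or.inl rfl | exact Or.inr ⟨Sum.inl a, Sum.inr a, rfl, rfl, rfl⟩
      | exact Or.inr ⟨Sum.inr a, Sum.inl a, rfl, rfl, rfl⟩

theorem cmp_dl (α : CR (M.prod M).Z) : M.cmp α M.dl = α := by
  rw [cmp, dl, pull_dg _ _ (e12 T)
      (Sum.elim (Sum.elim Sum.inl Sum.inl) Sum.inr : (T ⊕ T) ⊕ T → T ⊕ T) ?_ ?_, mul_comm,
    mul_dg _ _ (e23 T) (e13 T) (by rintro (t | t) <;> rfl) (by rintro (t | t) <;> rfl),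
    push_pull_mul, push_dg _ _ _ (by rintro (t | t) <;> rfl), mul_one]
  · rintro (a | a) (b | b) (rfl : a = b) <;> rfl
  · rintro ((a | a) | a) ((b | b) | b) e <;> cases e <;> first
      | exact Or.inl rfl | exact Or.inr ⟨Sum.inl a, Sum.inr a, rfl, rfl, rfl⟩
      | exact Or.inr ⟨Sum.inr a, Sum.inl a, rfl, rfl, rfl⟩

end Mod

/-- The ring of correspondences. -/
def Cor (M : Mod X T) : Type u := CR (M.prod M).Z

namespace Cor

variable (M : Mod X T)

noncomputable instance : AddCommGroup (Cor M) := inferInstanceAs (AddCommGroup (CR (M.prod M).Z))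

noncomputable instance : Module ℚ (Cor M) := inferInstanceAs (Module ℚ (CR (M.prod M).Z))

/-- The underlying class. -/
noncomputable def un : Cor M ≃ₗ[ℚ] CR (M.prod M).Z := LinearEquiv.refl ℚ _

noncomputable instance : Ring (Cor M) where
  mul β α := (un M).symm (M.cmp (un M β) (un M α))
  one := (un M).symm M.dl
  mul_assoc γ β α := (CT X).cmp_assoc M γ β α
  one_mul := M.dl_cmp
  mul_one := M.cmp_dl
  left_distrib β α α' := by
    change M.cmp (un M β) (un M (α + α')) = M.cmp (un M β) (un M α) + M.cmp (un M β) (un M α')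
    simp only [Mod.cmp, map_add, add_mul]
  right_distrib β β' α := by
    change M.cmp (un M (β + β')) (un M α) = M.cmp (un M β) (un M α) + M.cmp (un M β') (un M α)
    simp only [Mod.cmp, map_add, mul_add]
  zero_mul α := by
    change M.cmp 0 (un M α) = 0
    simp only [Mod.cmp, map_zero, mul_zero]
  mul_zero α := by
    change M.cmp (un M α) 0 = 0
    simp only [Mod.cmp, map_zero, zero_mul]

theorem un_mul (β α : Cor M) : un M (β * α) = M.cmp (un M β) (un M α) := rfl

theorem un_one : un M 1 = M.dl := rfl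

noncomputable instance : Algebra ℚ (Cor M) :=
  Algebra.ofModule
    (fun q β α => (un M).injective <| by
      simp only [un_mul, Mod.cmp, map_smul, mul_smul_comm])
    fun q β α => (un M).injective <| by
      simp only [un_mul, Mod.cmp, map_smul, smul_mul_assoc]

/-- The underlying class. -/
noncomputable def vv : Cor M →ₗ[ℚ] Cl (M.Z.prod M.Z) := CR.val (M.prod M).Z ∘ₗ (un M).toLinearMap

theorem vv_inj : Injective (vv M) := fun _ _ h => CR.ext h

theorem vv_mul (β α : Cor M) : vv M (β * α) = comp M.Z (vv M β) (vv M α) := M.val_cmp _ _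

theorem vv_one : vv M 1 = dia M.Z := M.val_dl

/-- The correspondences of degree zero. -/
noncomputable def R0 : Subalgebra ℚ (Cor M) :=
  ((CR.gr _ M.Z.dim).comap (un M).toLinearMap).toSubalgebra M.dl_gr fun _ _ hβ hα =>
    Mod.push_gr _ _ _ (by simp only [Mod.prod_dim']; ring)
      (CR.mul_gr (Mod.pull_gr _ _ _ hα) (Mod.pull_gr _ _ _ hβ))

theorem mem_R0 {α : Cor M} : α ∈ R0 M ↔ un M α ∈ CR.gr _ M.Z.dim := Iff.rfl

theorem mem_R0' {α : Cor M} : α ∈ R0 M ↔ vv M α ∈ CH (M.Z.prod M.Z) M.Z.dim := Iff.rfl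

/-- The action on the Chow ring. -/
noncomputable def tau : Cor M →ₐ[ℚ] Module.End ℚ (CR M.Z) :=
  AlgHom.ofLinearMap
    (((LinearMap.mul ℚ (CR (M.prod M).Z)).compl₁₂ (un M).toLinearMap
      (M.pull (M.prod M) inl).toLinearMap).compr₂ (M.push (M.prod M) inr))
    (LinearMap.ext fun z => by
      change M.push (M.prod M) inr (M.dl * M.pull (M.prod M) inl z) = z
      rw [mul_comm, Mod.dl, Mod.mul_dg _ _ inl inr (fun _ => rfl) fun _ => rfl, Mod.push_pull_mul,
        Mod.push_dg _ _ _ fun _ => rfl, mul_one])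
    fun β α => LinearMap.ext fun z => (CT X).act_cmp M β α (mul_comm (G := CR _) _ _) z

theorem tau_apply (α : Cor M) (z : CR M.Z) :
    tau M α z = M.push (M.prod M) inr (un M α * M.pull (M.prod M) inl z) := rfl

theorem val_tau (α : Cor M) (z : CR M.Z) :
    CR.val _ (tau M α z) = act M.Z (vv M α) (CR.val _ z) := by
  rw [tau_apply, Mod.val_push, CR.val_mul, Mod.val_pull]
  exact congrArg₂ (fun a b => ps M.Z (M.Z.prod M.Z) a (mul _ (vv M α) (pl M.Z _ b (CR.val _ z))))
    (M.crd_inr M) (M.crd_inl M)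

theorem tau_gr {α : Cor M} (hα : α ∈ R0 M) {i : ℕ} {z : CR M.Z} (hz : z ∈ CR.gr _ i) :
    tau M α z ∈ CR.gr _ i :=
  Mod.push_gr _ _ _ (by simp only [Mod.prod_dim']; ring) (CR.mul_gr hα (Mod.pull_gr _ _ _ hz))

/-- Reindexing of the two factors. -/
noncomputable def rx (f : T ⊕ T ↪ T ⊕ T) (α : Cor M) : Cor M :=
  (un M).symm ((M.prod M).pull (M.prod M) f (un M α))

theorem un_rx (f : T ⊕ T ↪ T ⊕ T) (α : Cor M) :
    un M (rx M f α) = (M.prod M).pull (M.prod M) f (un M α) := rfl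

theorem rx_mem (f : T ⊕ T ↪ T ⊕ T) {α : Cor M} (h : α ∈ R0 M) : rx M f α ∈ R0 M :=
  Mod.pull_gr _ _ _ h

theorem rx_rx {f g : T ⊕ T ↪ T ⊕ T} (h : T ⊕ T ↪ T ⊕ T) (e : ∀ t, g (f t) = h t) (α : Cor M) :
    rx M g (rx M f α) = rx M h α := Mod.pull_pull _ _ _ h e _

theorem rx_sum (f : T ⊕ T ↪ T ⊕ T) {ι : Type*} (s : Finset ι) (α : ι → Cor M) :
    rx M f (∑ i ∈ s, α i) = ∑ i ∈ s, rx M f (α i) :=
  (un M).injective (by simp only [un_rx, map_sum])

theorem rx_zero (f : T ⊕ T ↪ T ⊕ T) : rx M f 0 = 0 :=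
  (un M).injective (by simp only [un_rx, map_zero])

theorem rx_one {f : T ⊕ T ↪ T ⊕ T} (hf : Surjective f)
    (h : ∀ a b, Sum.elim id id (f a) = Sum.elim id id (f b) ↔ Sum.elim id id a = Sum.elim id id b) :
    rx M f 1 = 1 :=
  Mod.pull_dg _ _ f _ (fun a b => (h a b).2) fun a b e => by
    obtain ⟨a, rfl⟩ := hf a
    obtain ⟨b, rfl⟩ := hf b
    exact Or.inr ⟨a, b, rfl, rfl, (h a b).1 e⟩

/-- The exchange of the two factors. -/
def sw (T : Type) : T ⊕ T ↪ T ⊕ T := (Equiv.sumComm T T).toEmbedding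

theorem sw_one : rx M (sw T) 1 = 1 :=
  rx_one M (Equiv.sumComm T T).surjective (by rintro (a | a) (b | b) <;> rfl)

theorem sw_mul (β α : Cor M) : rx M (sw T) (β * α) = rx M (sw T) α * rx M (sw T) β := by
  let g : (T ⊕ T) ⊕ T ↪ (T ⊕ T) ⊕ T := em (em inr (inr.trans inl) fun _ _ => Sum.inr_ne_inl)
    (inl.trans inl) (by rintro (a | a) b e <;> cases e)
  refine ((CT X).bc (M.prod M) ((M.prod M).prod M) (M.prod M) ((M.prod M).prod M) (e13 T) (sw T) g
    (e13 T) (by rintro (t | t) <;> rfl) ?_ (fun _ b _ => (Equiv.sumComm T T).surjective b)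
    _).trans ?_
  · rintro ((t | t) | t)
    · exact Or.inr ⟨Sum.inl t, rfl⟩
    · exact Or.inl ⟨Sum.inl (Sum.inr t), rfl⟩
    · exact Or.inr ⟨Sum.inr t, rfl⟩
  · change (M.prod M).push _ (e13 T) (Mod.pull _ _ g (_ * _)) = M.cmp _ _
    rw [Mod.cmp, map_mul, un_rx, un_rx, mul_comm,
      Mod.pull_pull _ _ _ ((sw T).trans (e12 T)) (f := e23 T) (by rintro (t | t) <;> rfl),
      Mod.pull_pull _ _ _ ((sw T).trans (e23 T)) (f := e12 T) (by rintro (t | t) <;> rfl),
      Mod.pull_pull _ _ _ ((sw T).trans (e12 T)) fun _ => rfl,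
      Mod.pull_pull _ _ _ ((sw T).trans (e23 T)) fun _ => rfl]

/-- The graph of a permutation. -/
noncomputable def gp (σ : T ≃ T) : Cor M := rx M ((Embedding.refl T).sumMap σ.toEmbedding) 1

theorem gp_mul (σ : T ≃ T) (α : Cor M) :
    gp M σ * α = rx M ((Embedding.refl T).sumMap σ.toEmbedding) α :=
  ((CT X).cmp_perm_l M σ M.dl α).trans (congrArg (rx M _) (M.dl_cmp α))

theorem mul_gp (σ : T ≃ T) (α : Cor M) :
    α * gp M σ = rx M (σ.symm.toEmbedding.sumMap (Embedding.refl T)) α := by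
  have h : gp M σ = rx M (σ.symm.toEmbedding.sumMap (Embedding.refl T)) 1 := by
    rw [gp, ← rx_rx M (f := σ.toEmbedding.sumMap σ.toEmbedding)
      (g := σ.symm.toEmbedding.sumMap (Embedding.refl T)) _ (by rintro (t | t) <;> simp),
      rx_one M (σ.sumCongr σ).surjective (by rintro (a | a) (b | b) <;> simp)]
  rw [h]
  exact ((CT X).cmp_perm_r M σ.symm α M.dl).trans (congrArg (rx M _) (M.cmp_dl α))

theorem gp_gp (σ τ : Equiv.Perm T) : gp M σ * gp M τ = gp M (σ * τ) := by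
  rw [gp_mul, gp, rx_rx M ((Embedding.refl T).sumMap (σ * τ).toEmbedding)
    (by rintro (t | t) <;> rfl), gp]

theorem gp_mem (σ : T ≃ T) : gp M σ ∈ R0 M := rx_mem M _ (one_mem _)

/-- A decomposable correspondence. -/
noncomputable def xx (b a : CR M.Z) : Cor M :=
  (un M).symm (M.pull (M.prod M) inl b * M.pull (M.prod M) inr a)

theorem un_xx (b a : CR M.Z) :
    un M (xx M b a) = M.pull (M.prod M) inl b * M.pull (M.prod M) inr a := rfl

theorem xx_mem {b a : CR M.Z} {i j : ℕ} (hb : b ∈ CR.gr _ i) (ha : a ∈ CR.gr _ j)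
    (e : i + j = M.Z.dim) : xx M b a ∈ R0 M :=
  (mem_R0 M).2 (e ▸ CR.mul_gr (Mod.pull_gr _ _ _ hb) (Mod.pull_gr _ _ _ ha))

theorem mul_xx (α : Cor M) (b a : CR M.Z) : α * xx M b a = xx M b (tau M α a) :=
  (CT X).cmp_dec M α b a (mul_comm (G := CR _) _ _)

theorem xx_smul (q : ℚ) (b a : CR M.Z) : xx M b (q • a) = q • xx M b a := by
  simp only [xx, map_smul, mul_smul_comm]

end Cor

namespace Mod

variable (M : Mod X T) (M' : Mod X T')

/-- The empty embedding. -/
def e0 (T : Type) : Empty ↪ T := Embedding.ofIsEmpty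

theorem exists_dgr (y : CR (pow X Empty).Z) : ∃ q : ℚ, y = q • 1 := by
  induction y using CR.ind with
  | h1 i x hx =>
    rcases i with _ | i
    · exact CR.gr_zero hx
    · exact ⟨0, (CR.gr_gt (by simp [pow_dim]) hx).trans (zero_smul _ _).symm⟩
  | h2 x y hx hy =>
    obtain ⟨q, rfl⟩ := hx
    obtain ⟨q', rfl⟩ := hy
    exact ⟨q + q', (add_smul _ _ _).symm⟩

/-- The degree. -/
noncomputable def dgr (u : CR M.Z) : ℚ := (exists_dgr ((pow X Empty).push M (e0 T) u)).choose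

theorem push_dgr (u : CR M.Z) : (pow X Empty).push M (e0 T) u = M.dgr u • 1 :=
  (exists_dgr _).choose_spec

theorem pull_push0 (u : CR M.Z) : M.push (M.prod M) inr (M.pull (M.prod M) inl u) =
    (pow X Empty).pull M (e0 T) ((pow X Empty).push M (e0 T) u) :=
  ((CT X).bc (pow X Empty) M M (M.prod M) (e0 T) (e0 T) inl inr (fun t => t.elim)
    (by rintro (t | t); exacts [Or.inl ⟨t, rfl⟩, Or.inr ⟨t, rfl⟩]) (fun _ _ e => by cases e) u).symm

theorem tau_xx (b a z : CR M.Z) : Cor.tau M (Cor.xx M b a) z = M.dgr (b * z) • a := by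
  rw [Cor.tau_apply, Cor.un_xx, mul_right_comm, ← map_mul, mul_comm, push_pull_mul, pull_push0,
    push_dgr, map_smul, map_one, mul_smul_comm, mul_one]

end Mod

end Pool.Agent.Work.MP_10f4af_ag
end

-- merged part: Pool.Agent.Work.MP_10f4af_ag.T4
section
/-!
# The exterior product of two correspondences

Plan.  `t2_mul`: `Th.ext2` for the theory `CT X` (file T1), after regrouping the four factors of
the commutative ring `CR` with `mul_mul_mul_comm` and writing each `pull` as a composite with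
`Mod.pull_pull` through `(M.prod M).prod M` (embeddings built with `em`, `Embedding.sumMap`).
`t2_one`: `Mod.dg_mul`.  `t2_mem`: `CR.mul_gr`, `Mod.pull_gr`, `Mod.prod_dim'`.
`lieb` (Lieberman's lemma): `α * γ * β` is `Th.cmp3`; move the fourfold product
`((M.prod M).prod M).prod M` to `(M.prod M).prod (M.prod M)` along the evident bijection `F` of
index sets with `Th.ps_ps'`, `Th.ps_pl` (or `pl_ps`) and `Mod.pull_pull`: the factors `1 2 3 4` of
the triple composition (`β` on `1 2`, `γ` on `2 3`, `α` on `3 4`, image on `1 4`) become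
`inr (inl t)`, `inl (inl t)`, `inl (inr t)`, `inr (inr t)`.
Avoid `change` with underscores (slow unification); state the `Th` facts with full types.
-/

open Function Function.Embedding

namespace Pool.Agent.Work.MP_10f4af_ag

open MP_ffcd14_ag (Amb)

universe u

variable {k : Type u} [Field k] [IsAlgClosed k] {P : Amb} {X : SV k P} {T : Type}

/-- The first factors. -/
def j1 (T : Type) : T ⊕ T ↪ (T ⊕ T) ⊕ (T ⊕ T) := (inl : T ↪ T ⊕ T).sumMap inl

/-- The second factors. -/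
def j2 (T : Type) : T ⊕ T ↪ (T ⊕ T) ⊕ (T ⊕ T) := (inr : T ↪ T ⊕ T).sumMap inr

theorem T4_mul (E : Th.{u, u} X) (M : Mod X T)
    (hc : ∀ x y : E.E (((M.prod M).prod (M.prod M)).prod (M.prod M)), Commute x y)
    (β β' α α' : E.E (M.prod M)) :
    E.cmp (M.prod M) (E.pl (M.prod M) _ (j1 T) β * E.pl (M.prod M) _ (j2 T) α)
        (E.pl (M.prod M) _ (j1 T) β' * E.pl (M.prod M) _ (j2 T) α') =
      E.pl (M.prod M) _ (j1 T) (E.cmp M β β') * E.pl (M.prod M) _ (j2 T) (E.cmp M α α') := by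
  rw [Th.cmp, Th.cmp, Th.cmp, ← E.ext2 ((M.prod M).prod M) ((M.prod M).prod M)
      (((M.prod M).prod (M.prod M)).prod (M.prod M)) (M.prod M) (M.prod M)
      ((M.prod M).prod (M.prod M)) (g₁ := (j1 T).sumMap inl) (g₂ := (j2 T).sumMap inr) (j1 T) (j2 T)
      (e13 T) (e13 T) (F := e13 (T ⊕ T)) ?_ ?_ (by rintro (t | t) <;> rfl)
      (by rintro (t | t) <;> rfl),
    RingHom.map_mul, RingHom.map_mul, RingHom.map_mul, RingHom.map_mul, (hc _ _).mul_mul_mul_comm,
    E.pl_pl' _ _ _ (f := e12 T) ((j1 T).trans (e12 (T ⊕ T))) (fun _ => rfl),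
    E.pl_pl' _ _ _ (f := e12 T) ((j2 T).trans (e12 (T ⊕ T))) (fun _ => rfl),
    E.pl_pl' _ _ _ (f := e23 T) ((j1 T).trans (e23 (T ⊕ T))) (by rintro (t | t) <;> rfl),
    E.pl_pl' _ _ _ (f := e23 T) ((j2 T).trans (e23 (T ⊕ T))) (by rintro (t | t) <;> rfl),
    E.pl_pl, E.pl_pl, E.pl_pl, E.pl_pl]
  · refine ⟨(Embedding.injective _).sumElim (Embedding.injective _) ?_, ?_⟩
    · rintro ((a | a) | a) ((b | b) | b) e <;> cases e
    · rintro (((t | t) | (t | t)) | (t | t))
      exacts [⟨Sum.inl (Sum.inl (Sum.inl t)), rfl⟩, ⟨Sum.inr (Sum.inl (Sum.inl t)), rfl⟩,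
        ⟨Sum.inl (Sum.inl (Sum.inr t)), rfl⟩, ⟨Sum.inr (Sum.inl (Sum.inr t)), rfl⟩,
        ⟨Sum.inl (Sum.inr t), rfl⟩, ⟨Sum.inr (Sum.inr t), rfl⟩]
  · rintro ((t | t) | (t | t))
    exacts [Or.inl ⟨Sum.inl t, rfl⟩, Or.inr ⟨Sum.inl t, rfl⟩, Or.inl ⟨Sum.inr t, rfl⟩,
      Or.inr ⟨Sum.inr t, rfl⟩]

theorem T4_lieb (E : Th.{u, u} X) (M : Mod X T)
    (hc : ∀ x y : E.E ((M.prod M).prod (M.prod M)), Commute x y) (β α γ : E.E (M.prod M)) :
    E.act (M.prod M) (E.pl (M.prod M) _ (j1 T) (E.pl (M.prod M) (M.prod M) (Cor.sw T) β) *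
      E.pl (M.prod M) _ (j2 T) α) γ = E.cmp M (E.cmp M α γ) β := by
  let F : ((T ⊕ T) ⊕ T) ⊕ T ↪ (T ⊕ T) ⊕ (T ⊕ T) :=
    em (em ((Cor.sw T).trans (j1 T)) (inr.trans inl) (by rintro (a | a) b e <;> cases e))
      (inr.trans inr) (by rintro ((a | a) | a) b e <;> cases e)
  have hF : Surjective F := by
    rintro ((t | t) | (t | t))
    exacts [⟨Sum.inl (Sum.inl (Sum.inr t)), rfl⟩, ⟨Sum.inl (Sum.inr t), rfl⟩,
      ⟨Sum.inl (Sum.inl (Sum.inl t)), rfl⟩, ⟨Sum.inr t, rfl⟩]
  rw [E.cmp3_r, Th.cmp3, ← E.ps_pl (((M.prod M).prod M).prod M) ((M.prod M).prod (M.prod M)) hF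
      (_ * _), E.ps_ps' _ _ _ inr (by rintro (t | t) <;> rfl), RingHom.map_mul, RingHom.map_mul,
    E.pl_pl' _ _ _ (g := F) ((Cor.sw T).trans (j1 T)) (fun _ => rfl),
    E.pl_pl' _ _ _ (g := F) inl (by rintro (t | t) <;> rfl),
    E.pl_pl' _ _ _ (g := F) (j2 T) (by rintro (t | t) <;> rfl), Th.act, E.pl_pl, mul_assoc,
    mul_assoc, (hc (E.pl (M.prod M) _ (j2 T) α) _).eq]

namespace Cor

variable (M : Mod X T)

/-- The exterior product. -/
noncomputable def t2 : Cor M →ₗ[ℚ] Cor M →ₗ[ℚ] Cor (M.prod M) :=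
  ((LinearMap.mul ℚ (CR ((M.prod M).prod (M.prod M)).Z)).compl₁₂
    (((M.prod M).pull _ (j1 T)).toLinearMap ∘ₗ (un M).toLinearMap)
    (((M.prod M).pull _ (j2 T)).toLinearMap ∘ₗ (un M).toLinearMap)).compr₂
    (un (M.prod M)).symm.toLinearMap

theorem un_t2 (β α : Cor M) : un (M.prod M) (t2 M β α) =
    (M.prod M).pull _ (j1 T) (un M β) * (M.prod M).pull _ (j2 T) (un M α) := rfl

theorem t2_mul (β β' α α' : Cor M) : t2 M β α * t2 M β' α' = t2 M (β * β') (α * α') := by
  exact T4_mul (CT X) M (fun _ _ => mul_comm (G := CR _) _ _) β β' α α'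

theorem t2_one : t2 M 1 1 = 1 := by
  refine (un (M.prod M)).injective ?_
  rw [un_t2, un_one, un_one, Mod.dl, Mod.dl]
  refine Mod.dg_mul _ _ _ ⟨(j1 T).injective.sumElim (j2 T).injective ?_, ?_⟩ _ ?_ ?_ ?_
  · rintro (a | a) (b | b) e <;> cases e
  · rintro ((t | t) | (t | t))
    exacts [⟨Sum.inl (Sum.inl t), rfl⟩, ⟨Sum.inr (Sum.inl t), rfl⟩, ⟨Sum.inl (Sum.inr t), rfl⟩,
      ⟨Sum.inr (Sum.inr t), rfl⟩]
  · rintro (a | a) (b | b) <;> exact Sum.inl_injective.eq_iff
  · rintro (a | a) (b | b) <;> exact Sum.inr_injective.eq_iff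
  · rintro (a | a) (b | b) <;> exact Sum.inl_ne_inr

theorem t2_mem {β α : Cor M} (hβ : β ∈ R0 M) (hα : α ∈ R0 M) : t2 M β α ∈ R0 (M.prod M) := by
  rw [mem_R0, un_t2, Mod.prod_dim']
  exact CR.mul_gr (Mod.pull_gr _ _ _ hβ) (Mod.pull_gr _ _ _ hα)

theorem lieb (β α γ : Cor M) :
    tau (M.prod M) (t2 M (rx M (sw T) β) α) (un M γ) = un M (α * γ * β) := by
  exact T4_lieb (CT X) M (fun _ _ => mul_comm (G := CR _) _ _) β α γ

end Cor

end Pool.Agent.Work.MP_10f4af_ag
end

-- merged part: Pool.Agent.Work.MP_10f4af_ag.T5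
section
/-!
# The exterior product of `N` correspondences

Plan.  `tn_mul`: `Th.extN` for the theory `CT X` (file T1) with `A = (Unit ⊕ Unit) ⊕ Unit`,
`A' = Unit ⊕ Unit`, `f = e13 Unit`, `List.prod_ofFn`, `Finset.prod_mul_distrib`, `Mod.pull_pull`.
`tn_one`: each factor is `Mod.dg` of a map by `Mod.pull_dg`; induct on a finite set `s` of indices:
the product over `s` is `dg (r s)` with
`r s = Sum.elim Sum.inl fun a => if a ∈ s then Sum.inl a else Sum.inr a`; the step is `Mod.dg_mul`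
for `jt t` and the complementary model `Mod.co` (`Mod.T0_compl`), `dg (r s)` being a pull-back from
the complementary model by `Mod.pull_dg`; the start is `Mod.dg_inj`.
`tn_sum`: `Finset.prod_univ_sum`.  `tn_mem`: `CR.mul_gr`, induction on a finite set, `Mod.pow_dim`.
`gp_tn`: `gp_mul`, `mul_gp`; both sides are products of pull-backs, reindex by `Equiv.prod_comp`.
`vv_tn`, `vv_gp`: `Mod.val_pull`, `Mod.crd_eq`, `Mod.val_dl`, induction on the list.
Avoid `change` with underscores (slow unification); state the `Th` facts with full types.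
-/

open Function Function.Embedding

namespace Pool.Agent.Work.MP_10f4af_ag

open MP_ffcd14_ag (Amb)

universe u

variable {k : Type u} [Field k] [IsAlgClosed k] {P : Amb} {X : SV k P} {N : ℕ}

/-- The factor `t`. -/
def it (t : Fin N) : Unit ↪ Fin N := ⟨fun _ => t, fun _ _ _ => rfl⟩

/-- The two factors `t`. -/
def jt (t : Fin N) : Unit ⊕ Unit ↪ Fin N ⊕ Fin N := (it t).sumMap (it t)

theorem T5_extN {A A' U U' : Type} (MA : Mod X A) (MA' : Mod X A') (f : A' ↪ A) (MU : Mod X U)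
    (MU' : Mod X U') (j : Fin N → A ↪ U) (j' : Fin N → A' ↪ U') (F : U' ↪ U)
    (h : Bijective fun p : Fin N × A => j p.1 p.2) (h' : Surjective fun p : Fin N × A' => j' p.1 p.2)
    (e : ∀ n a, F (j' n a) = j n (f a)) (c : Fin N → CR MA.Z) :
    MU'.push MU F (∏ n, MA.pull MU (j n) (c n)) = ∏ n, MA'.pull MU' (j' n) (MA'.push MA f (c n)) := by
  rw [← List.prod_ofFn, ← List.prod_ofFn]
  exact (CT X).extN MA MA' f N MU MU' j j' F h h' e c

theorem T5_mul (M₁ : Mod X Unit) (M : Mod X (Fin N)) (α β : Fin N → CR (M₁.prod M₁).Z) :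
    M.cmp (∏ t, (M₁.prod M₁).pull (M.prod M) (jt t) (α t))
      (∏ t, (M₁.prod M₁).pull (M.prod M) (jt t) (β t)) =
      ∏ t, (M₁.prod M₁).pull (M.prod M) (jt t) (M₁.cmp (α t) (β t)) := by
  simp only [Mod.cmp]
  rw [← T5_extN ((M₁.prod M₁).prod M₁) (M₁.prod M₁) (e13 Unit) ((M.prod M).prod M) (M.prod M)
    (fun t => (jt t).sumMap (it t)) jt (e13 (Fin N)) ⟨?_, ?_⟩ ?_ (by rintro n (a | a) <;> rfl),
    map_prod, map_prod, ← Finset.prod_mul_distrib]
  · refine congrArg _ (Finset.prod_congr rfl fun t _ => ?_)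
    rw [map_mul, Mod.pull_pull _ _ _ ((jt t).trans (e12 (Fin N))) fun _ => rfl,
      Mod.pull_pull _ _ _ ((jt t).trans (e23 (Fin N))) fun _ => rfl,
      Mod.pull_pull _ _ _ (f := e12 Unit) ((jt t).trans (e12 (Fin N))) fun _ => rfl,
      Mod.pull_pull _ _ _ (f := e23 Unit) ((jt t).trans (e23 (Fin N))) (by rintro (a | a) <;> rfl)]
  · rintro ⟨s, (a | a) | a⟩ ⟨t, (b | b) | b⟩ e <;> cases e <;> rfl
  · rintro ((t | t) | t)
    exacts [⟨(t, Sum.inl (Sum.inl ())), rfl⟩, ⟨(t, Sum.inl (Sum.inr ())), rfl⟩, ⟨(t, Sum.inr ()), rfl⟩]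
  · rintro (t | t)
    exacts [⟨(t, Sum.inl ()), rfl⟩, ⟨(t, Sum.inr ()), rfl⟩]

/-- The diagonal in some of the factors. -/
def T5_r (s : Finset (Fin N)) : Fin N ⊕ Fin N → Fin N ⊕ Fin N :=
  Sum.elim Sum.inl fun a => if a ∈ s then Sum.inl a else Sum.inr a

theorem T5_r_eq {s : Finset (Fin N)} {a b : Fin N ⊕ Fin N} : T5_r s a = T5_r s b ↔
    a = b ∨ (Sum.elim id id a = Sum.elim id id b ∧ Sum.elim id id a ∈ s) := by
  rcases a with a | a <;> rcases b with b | b <;> simp only [T5_r, Sum.elim_inl, Sum.elim_inr, id] <;>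
    grind

theorem T5_range {t : Fin N} {a : Fin N ⊕ Fin N} : a ∈ Set.range (jt t) ↔ Sum.elim id id a = t := by
  refine ⟨by rintro ⟨b | b, rfl⟩ <;> rfl, ?_⟩
  rcases a with a | a <;> rintro rfl
  exacts [⟨Sum.inl (), rfl⟩, ⟨Sum.inr (), rfl⟩]

theorem T5_one (M₁ : Mod X Unit) (M : Mod X (Fin N)) (s : Finset (Fin N)) :
    ∏ t ∈ s, (M₁.prod M₁).pull (M.prod M) (jt t) M₁.dl = (M.prod M).dg (T5_r s) := by
  induction s using Finset.induction_on with
  | empty => exact (Mod.dg_inj _ fun a b e => by simpa using T5_r_eq.1 e).symm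
  | insert t s ht ih =>
    have h1 : ∀ a, Sum.elim id id (jt t a) = t := fun a => T5_range.1 ⟨a, rfl⟩
    have h2 : ∀ a : {a // a ∉ Set.range (jt t)}, Sum.elim id id a.1 ≠ t := fun a e =>
      a.2 (T5_range.2 e)
    rw [Finset.prod_insert ht, ih, ← Mod.pull_dg ((M.prod M).co (jt t)) (M.prod M)
      (Embedding.subtype _) (r := fun a => T5_r s a.1) _ (fun _ _ e => e) fun a b e => ?_]
    · refine Mod.dg_mul _ _ _ (Mod.T0_compl (jt t).injective) _ (fun a b => ?_) (fun a b => ?_)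
        fun a b e => ?_
      · simp [T5_r_eq, h1]
      · simp [T5_r_eq, h2]
      · rcases T5_r_eq.1 e with e | e
        · exact b.2 ⟨a, e⟩
        · exact h2 b (e.1.symm.trans (h1 a))
    · rcases T5_r_eq.1 e with h | ⟨h, h'⟩
      · exact Or.inl h
      · exact Or.inr ⟨⟨a, fun h'' => ht (T5_range.1 h'' ▸ h')⟩,
          ⟨b, fun h'' => ht (T5_range.1 h'' ▸ h ▸ h')⟩, rfl, rfl, e⟩

theorem T5_val {Q : Amb} (Y : SV k Q) (l : List (CR Y)) :
    CR.val Y l.prod = (l.map (CR.val Y)).foldr (mul Y) (cyc Y Y.pts) := by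
  induction l with
  | nil => rfl
  | cons a l ih => rw [List.prod_cons, CR.val_mul, ih, List.map_cons, List.foldr_cons]

namespace Cor

/-- The exterior product. -/
noncomputable def tn (α : Fin N → Cor (Mod.one X)) : Cor (Mod.pow X (Fin N)) :=
  (un _).symm (∏ t, ((Mod.one X).prod (Mod.one X)).pull _ (jt t) (un _ (α t)))

theorem un_tn (α : Fin N → Cor (Mod.one X)) : un _ (tn α) =
    ∏ t, ((Mod.one X).prod (Mod.one X)).pull
      ((Mod.pow X (Fin N)).prod (Mod.pow X (Fin N))) (jt t) (un _ (α t)) := rfl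

theorem tn_mul (α β : Fin N → Cor (Mod.one X)) : tn α * tn β = tn fun t => α t * β t :=
  (un _).injective (T5_mul (Mod.one X) (Mod.pow X (Fin N)) _ _)

theorem tn_one : tn (fun _ : Fin N => (1 : Cor (Mod.one X))) = 1 := by
  refine (un _).injective ((T5_one (Mod.one X) (Mod.pow X (Fin N)) Finset.univ).trans ?_)
  refine CR.ext (congrArg (cyc _) (Set.ext fun z => and_congr_right fun _ =>
    forall₂_congr fun a b => imp_congr_left ?_))
  rw [T5_r_eq]
  exact ⟨fun h => h.elim (congrArg _) And.left, fun h => Or.inr ⟨h, Finset.mem_univ _⟩⟩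

theorem tn_sum {ι : Type} [Fintype ι] (q : Fin N → ι → Cor (Mod.one X)) :
    tn (fun t => ∑ c, q t c) = ∑ f : Fin N → ι, tn fun t => q t (f t) := by
  classical
  refine (un _).injective ?_
  simp only [un_tn, map_sum]
  rw [Finset.prod_univ_sum, Fintype.piFinset_univ]

theorem tn_zero {α : Fin N → Cor (Mod.one X)} {t : Fin N} (h : α t = 0) : tn α = 0 := by
  refine (un _).injective ?_
  rw [un_tn, map_zero]
  exact Finset.prod_eq_zero (Finset.mem_univ t) (by rw [h, map_zero, map_zero])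

theorem tn_mem {α : Fin N → Cor (Mod.one X)} (h : ∀ t, α t ∈ R0 (Mod.one X)) :
    tn α ∈ R0 (Mod.pow X (Fin N)) := by
  have key : ∀ s : Finset (Fin N), ∏ t ∈ s, ((Mod.one X).prod (Mod.one X)).pull
      ((Mod.pow X (Fin N)).prod (Mod.pow X (Fin N))) (jt t) (un _ (α t)) ∈
        CR.gr _ (s.card * X.dim) := fun s => by
    induction s using Finset.induction_on with
    | empty => simpa using CR.one_gr
    | insert t s ht ih =>
      rw [Finset.prod_insert ht, Finset.card_insert_of_notMem ht, add_mul, one_mul, add_comm]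
      exact CR.mul_gr (Mod.pull_gr _ _ _ (h t)) ih
  rw [mem_R0, un_tn, Mod.pow_dim]
  simpa using key Finset.univ

theorem gp_tn (σ : Equiv.Perm (Fin N)) (α : Cor (Mod.one X)) :
    gp (Mod.pow X (Fin N)) σ * tn (fun _ => α) = tn (fun _ => α) * gp (Mod.pow X (Fin N)) σ := by
  refine (un _).injective ?_
  rw [gp_mul, mul_gp, un_rx, un_rx, un_tn, map_prod, map_prod, ← Equiv.prod_comp σ.symm]
  refine Finset.prod_congr rfl fun t _ => ?_
  rw [Mod.pull_pull _ _ _ ((it (σ.symm t)).sumMap (it t)) ?_,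
    Mod.pull_pull _ _ _ ((it (σ.symm t)).sumMap (it t)) (by rintro (a | a) <;> rfl)]
  rintro (a | a)
  exacts [rfl, congrArg Sum.inr (σ.apply_symm_apply t)]

theorem vv_tn (α : Cor (Mod.one X)) :
    vv (Mod.pow X (Fin N)) (tn fun _ => α) = tens X N (vv (Mod.one X) α) := by
  refine (congrArg (CR.val _) ((un_tn _).trans List.prod_ofFn.symm)).trans ((T5_val _ _).trans ?_)
  rw [List.map_ofFn]
  refine congrArg (List.foldr _ _) (congrArg List.ofFn (funext fun t => ?_))
  rw [Function.comp_apply, Mod.val_pull, Mod.crd_eq _ _ _ (ε := vp (vl ∘ vj t) (vr ∘ vj t))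
    (by rintro (a | a) s <;> rfl)]
  rfl

theorem vv_gp (σ : Equiv.Perm (Fin N)) : vv (Mod.pow X (Fin N)) (gp _ σ) = gr X σ := by
  refine (Mod.val_pull _ _ _ _).trans ?_
  rw [un_one, Mod.val_dl, Mod.crd_eq _ _ _
    (ε := vp vl fun s : (pw P (Fin N)).V => vr (vj (σ s.1.1) ⟨s.1.2, s.2⟩))
    (by rintro (a | a) s <;> rfl)]
  rfl

end Cor

end Pool.Agent.Work.MP_10f4af_ag
end

-- merged part: Pool.Agent.Work.MP_10f4af_ag.W0
section
/-!
# First consequences of the definition of a Weil cohomology theory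

Plan.  `IsPD` (in the file `Defs` of `MP_ffcd14_ag`) gives a `GradedAlgebra`; `ind` is
`DirectSum.Decomposition.inductionOn`.  `tr_comm`: induct on `w`; both sides vanish unless the
degrees add up to `2 * dim`.  `gr_of_tr`: subtract the component of degree `i` and use `pd_r`.
`one_ne`: `cl_pt` and linearity of the trace.
-/

namespace Pool.Agent.Work.MP_10f4af_ag

open MP_ffcd14_ag (Amb)

universe u v w

variable {k : Type u} [Field k] [IsAlgClosed k] {K : Type v} [Field K] {P : Amb}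

namespace Weil

variable (W : Weil.{u, v, w} k K)

variable (X : SV k P)

instance fin : Module.Finite K (W.H X) := (W.fn.pd X).1

/-- The trace. -/
noncomputable def trL : W.H X →ₗ[K] K := (W.fn.pd X).2.1.mk' _

theorem trL_apply (x : W.H X) : W.trL X x = W.tr X x := rfl

/-- The part of degree `i`. -/
noncomputable def gr (i : ℕ) : Submodule K (W.H X) := (W.fn.pd X).2.2.1.choose i

variable {W X}

theorem mem_gr {i : ℕ} {x : W.H X} : x ∈ W.gr X i ↔ W.dg X i x :=
  ((W.fn.pd X).2.2.1.choose_spec.2 i x).symm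

variable (W X) in
/-- The grading. -/
@[reducible] noncomputable def W0_ga : GradedAlgebra (W.gr X) := (W.fn.pd X).2.2.1.choose_spec.1.some

theorem mul_gr {i j : ℕ} {x y : W.H X} (hx : x ∈ W.gr X i) (hy : y ∈ W.gr X j) :
    x * y ∈ W.gr X (i + j) := by
  let := W0_ga W X
  exact SetLike.mul_mem_graded hx hy

theorem one_gr : (1 : W.H X) ∈ W.gr X 0 := by
  let := W0_ga W X
  exact SetLike.one_mem_graded _

theorem ind {p : W.H X → Prop} (h1 : ∀ i, ∀ x ∈ W.gr X i, p x)
    (h2 : ∀ x y, p x → p y → p (x + y)) (x : W.H X) : p x := by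
  let := W0_ga W X
  induction x using DirectSum.Decomposition.inductionOn (W.gr X) with
  | zero => exact h1 0 0 (zero_mem _)
  | homogeneous m => exact h1 _ _ m.2
  | add x y hx hy => exact h2 x y hx hy

theorem gr_disj {i j : ℕ} {x : W.H X} (hi : x ∈ W.gr X i) (hj : x ∈ W.gr X j) (h : i ≠ j) :
    x = 0 := by
  let := W0_ga W X
  rw [← DirectSum.decompose_of_mem_same (W.gr X) hj, DirectSum.decompose_of_mem_ne (W.gr X) hi h]

theorem gr_comm {i j : ℕ} {x y : W.H X} (hx : x ∈ W.gr X i) (hy : y ∈ W.gr X j) :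
    x * y = (-1 : K) ^ (i * j) • (y * x) := by
  exact (W.fn.pd X).2.2.2.1 i j x y (mem_gr.1 hx) (mem_gr.1 hy)

theorem even_comm {i : ℕ} {x : W.H X} (hx : x ∈ W.gr X i) (h : Even i) (y : W.H X) :
    Commute x y := by
  induction y using ind with
  | h1 j y hy =>
    have h1 := gr_comm hx hy
    rwa [(h.mul_right j).neg_one_pow, one_smul] at h1
  | h2 y z hy hz => exact hy.add_right hz

theorem tr_gr {i : ℕ} {x : W.H X} (hx : x ∈ W.gr X i) (h : i ≠ 2 * X.dim) : W.trL X x = 0 := by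
  exact (W.fn.pd X).2.2.2.2.1 i x (mem_gr.1 hx) h

theorem tr_comm {i : ℕ} {x : W.H X} (hx : x ∈ W.gr X i) (y : W.H X) :
    W.trL X (y * x) = (-1 : K) ^ i * W.trL X (x * y) := by
  induction y using ind with
  | h1 j y hy =>
    rw [gr_comm hy hx, map_smul, smul_eq_mul]
    by_cases h : i + j = 2 * X.dim
    · congr 1
      rcases Nat.even_or_odd i with h1 | h1
      · rw [h1.neg_one_pow, (h1.mul_left j).neg_one_pow]
      · have h2 : Odd j := by
          rw [Nat.odd_iff] at h1 ⊢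
          omega
        rw [h1.neg_one_pow, (h2.mul h1).neg_one_pow]
    · rw [tr_gr (mul_gr hx hy) h, mul_zero, mul_zero]
  | h2 y z hy hz => rw [add_mul, mul_add x, map_add, map_add, hy, hz, mul_add]

theorem pd_l {x : W.H X} (h : ∀ j, ∀ y ∈ W.gr X j, W.trL X (x * y) = 0) : x = 0 := by
  refine (W.fn.pd X).2.2.2.2.2 x fun y => ?_
  rw [← trL_apply]
  induction y using ind with
  | h1 j y hy => exact h j y hy
  | h2 y z hy hz => rw [mul_add, map_add, hy, hz, add_zero]

theorem pd_r {x : W.H X} (h : ∀ j, ∀ y ∈ W.gr X j, W.trL X (y * x) = 0) : x = 0 := by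
  exact pd_l fun j y hy => by rw [tr_comm hy, h j y hy, mul_zero]

theorem ext_l {x x' : W.H X} (h : ∀ y, W.trL X (x * y) = W.trL X (x' * y)) : x = x' := by
  exact sub_eq_zero.1 (pd_l fun _ y _ => by rw [sub_mul, map_sub, h, sub_self])

theorem ext_r {x x' : W.H X} (h : ∀ y, W.trL X (y * x) = W.trL X (y * x')) : x = x' := by
  exact sub_eq_zero.1 (pd_r fun _ y _ => by rw [mul_sub, map_sub, h, sub_self])

theorem gr_of_tr {i : ℕ} {x : W.H X}
    (h : ∀ j, ∀ y ∈ W.gr X j, j + i ≠ 2 * X.dim → W.trL X (y * x) = 0) : x ∈ W.gr X i := by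
  let := W0_ga W X
  have key : ∀ j, ∀ y ∈ W.gr X j, j + i = 2 * X.dim → ∀ z : W.H X,
      W.trL X (y * z) = W.trL X (y * DirectSum.decompose (W.gr X) z i) := by
    intro j y hy hj z
    induction z using ind with
    | h1 m z hz =>
      by_cases hm : m = i
      · subst hm
        rw [DirectSum.decompose_of_mem_same (W.gr X) hz]
      · rw [DirectSum.decompose_of_mem_ne (W.gr X) hz hm, mul_zero, map_zero,
          tr_gr (mul_gr hy hz) (by omega)]
    | h2 z z' hz hz' =>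
      rw [DirectSum.decompose_add, DirectSum.add_apply, Submodule.coe_add, mul_add, mul_add,
        map_add, map_add, hz, hz']
  have h1 : x = DirectSum.decompose (W.gr X) x i := by
    refine sub_eq_zero.1 (pd_r fun j y hy => ?_)
    rw [mul_sub, map_sub, sub_eq_zero]
    by_cases hj : j + i = 2 * X.dim
    · exact key j y hy hj x
    · rw [h j y hy hj, tr_gr (mul_gr hy (DirectSum.decompose (W.gr X) x i).2) hj]
  rw [h1]
  exact (DirectSum.decompose (W.gr X) x i).2

theorem gr_gt {i : ℕ} {x : W.H X} (h : 2 * X.dim < i) (hx : x ∈ W.gr X i) : x = 0 := by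
  exact pd_r fun j y hy => tr_gr (mul_gr hy hx) (by omega)

theorem one_ne : (1 : W.H X) ≠ 0 := by
  intro h
  obtain ⟨p, hp⟩ := X.irr.nonempty
  have h1 := W.cy.cl_pt X p hp
  rw [← trL_apply, ← mul_one (W.cl X _), h, mul_zero, map_zero] at h1
  exact zero_ne_one h1

end Weil

end Pool.Agent.Work.MP_10f4af_ag
end

-- merged part: Pool.Agent.Work.MP_10f4af_ag.W1
section
/-!
# Cohomology of the powers of a variety

Plan.  `dnL` is linear, and all identities for it follow,
by testing with `pd_r` and `adjL`.  `dn_up_mul'`: induct on `x` and use `tr_comm` twice.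
`bc'`: with `C = M₂.co f₂`, `M₂` is the product of `C` and `M₀`, and `M₃` is the product of `C`
and `M₁` (see `Mod.T2_bij` in T2 for the bijection; reprove it here); test on the spanning
elements `upA c * upA a` of `kun_span`, both sides give `tr c * tr (upA a * x)` by `kun_tr`.
-/

open Function Function.Embedding

namespace Pool.Agent.Work.MP_10f4af_ag

open MP_ffcd14_ag (Amb)

universe u v w

variable {k : Type u} [Field k] [IsAlgClosed k] {K : Type v} [Field K] {P : Amb}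

namespace Weil

variable (W : Weil.{u, v, w} k K)

variable {X : SV k P} {T T' T'' : Type} (M : Mod X T) (M' : Mod X T') (M'' : Mod X T'')

/-- Pull-back. -/
noncomputable def upA (f : T ↪ T') : W.H M.Z →ₐ[K] W.H M'.Z :=
  (W.fn.up_hom _ _ _ (M.isPr M' f)).choose

theorem upA_apply (f : T ↪ T') (x : W.H M.Z) :
    W.upA M M' f x = W.up M.Z M'.Z (M.crd M' f).ε x :=
  congrFun (W.fn.up_hom _ _ _ (M.isPr M' f)).choose_spec x

theorem W1_adj (f : T ↪ T') (x : W.H M.Z) (z : W.H M'.Z) :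
    W.trL M.Z (x * W.dn M.Z M'.Z (M.crd M' f).ε z) = W.trL M'.Z (W.upA M M' f x * z) := by
  rw [upA_apply]
  exact W.fn.adj _ _ _ (M.isPr M' f) x z

theorem dn_linear (f : T ↪ T') : IsLinearMap K (W.dn M.Z M'.Z (M.crd M' f).ε) := by
  refine ⟨fun z z' => ext_r fun y => ?_, fun c z => ext_r fun y => ?_⟩
  · rw [mul_add, map_add, W1_adj, W1_adj, W1_adj, mul_add, map_add]
  · rw [mul_smul_comm, map_smul, W1_adj, W1_adj, mul_smul_comm, map_smul]

/-- Push-forward. -/
noncomputable def dnL (f : T ↪ T') : W.H M'.Z →ₗ[K] W.H M.Z := (W.dn_linear M M' f).mk' _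

theorem dnL_apply (f : T ↪ T') (z : W.H M'.Z) :
    W.dnL M M' f z = W.dn M.Z M'.Z (M.crd M' f).ε z := rfl

theorem adjL (f : T ↪ T') (x : W.H M.Z) (z : W.H M'.Z) :
    W.trL M.Z (x * W.dnL M M' f z) = W.trL M'.Z (W.upA M M' f x * z) := by
  exact W.W1_adj M M' f x z

theorem tr_dnL (f : T ↪ T') (z : W.H M'.Z) : W.trL M.Z (W.dnL M M' f z) = W.trL M'.Z z := by
  rw [← one_mul (W.dnL M M' f z), adjL, map_one, one_mul]

theorem upA_gr (f : T ↪ T') {i : ℕ} {x : W.H M.Z} (h : x ∈ W.gr M.Z i) :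
    W.upA M M' f x ∈ W.gr M'.Z i := by
  rw [upA_apply]
  exact mem_gr.2 (W.fn.up_dg _ _ _ (M.isPr M' f) i x (mem_gr.1 h))

theorem dnL_gr (f : T ↪ T') {i j : ℕ} (e : j + 2 * M.Z.dim = i + 2 * M'.Z.dim) {z : W.H M'.Z}
    (h : z ∈ W.gr M'.Z j) : W.dnL M M' f z ∈ W.gr M.Z i := by
  refine gr_of_tr fun l y hy hl => ?_
  rw [adjL]
  exact tr_gr (mul_gr (W.upA_gr M M' f hy) h) (by omega)

theorem upA_upA {f : T ↪ T'} {g : T' ↪ T''} (h : T ↪ T'') (e : ∀ t, g (f t) = h t) (x : W.H M.Z) :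
    W.upA M' M'' g (W.upA M M' f x) = W.upA M M'' h x := by
  rw [upA_apply, upA_apply, upA_apply, ← M.crd_comp M' M'' e]
  exact (W.fn.up_up _ _ _ _ _ (M.isPr M' f) (M'.isPr M'' g) x).symm

theorem dnL_dnL {f : T ↪ T'} {g : T' ↪ T''} (h : T ↪ T'') (e : ∀ t, g (f t) = h t)
    (x : W.H M''.Z) : W.dnL M M' f (W.dnL M' M'' g x) = W.dnL M M'' h x := by
  refine ext_r fun y => ?_
  rw [adjL, adjL, adjL, W.upA_upA M M' M'' h e]

theorem upA_id (x : W.H M.Z) : W.upA M M (Embedding.refl T) x = x := by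
  rw [upA_apply, M.crd_id (f := Embedding.refl T) fun _ => rfl]
  exact W.fn.up_id _ x

theorem dnL_id (x : W.H M.Z) : W.dnL M M (Embedding.refl T) x = x := by
  refine ext_r fun y => ?_
  rw [adjL, upA_id]

theorem dn_up_mul (f : T ↪ T') (x : W.H M.Z) (z : W.H M'.Z) :
    W.dnL M M' f (W.upA M M' f x * z) = x * W.dnL M M' f z := by
  refine ext_r fun y => ?_
  rw [adjL, ← mul_assoc, ← mul_assoc, adjL, map_mul (W.upA M M' f)]

theorem dn_up_mul' (f : T ↪ T') (x : W.H M.Z) (z : W.H M'.Z) :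
    W.dnL M M' f (z * W.upA M M' f x) = W.dnL M M' f z * x := by
  induction x using ind with
  | h1 i x hx =>
    refine ext_r fun y => ?_
    rw [adjL, ← mul_assoc, ← mul_assoc, tr_comm (W.upA_gr M M' f hx), tr_comm hx, ← mul_assoc,
      ← mul_assoc, adjL, map_mul (W.upA M M' f)]
  | h2 x y hx hy => rw [map_add, mul_add, map_add, hx, hy, mul_add]

theorem kun_span {f : T ↪ T''} {g : T' ↪ T''} (h : Bijective (Sum.elim f g)) :
    Submodule.span K {z | ∃ x y, z = W.upA M M'' f x * W.upA M' M'' g y} = ⊤ := by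
  simp only [upA_apply]
  exact (W.fn.kun _ _ _ _ _ (M.pd M' M'' h).isProd).1

theorem kun_tr {f : T ↪ T''} {g : T' ↪ T''} (h : Bijective (Sum.elim f g)) (x : W.H M.Z)
    (y : W.H M'.Z) :
    W.trL M''.Z (W.upA M M'' f x * W.upA M' M'' g y) = W.trL M.Z x * W.trL M'.Z y := by
  rw [upA_apply, upA_apply]
  exact (W.fn.kun _ _ _ _ _ (M.pd M' M'' h).isProd).2 x y

theorem bc' {T₀ T₁ T₂ T₃ : Type} (M₀ : Mod X T₀) (M₁ : Mod X T₁) (M₂ : Mod X T₂) (M₃ : Mod X T₃)
    (f₁ : T₀ ↪ T₁) (f₂ : T₀ ↪ T₂) (g₁ : T₁ ↪ T₃) (g₂ : T₂ ↪ T₃) (h1 : ∀ t, g₁ (f₁ t) = g₂ (f₂ t))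
    (h2 : ∀ u, u ∈ Set.range g₁ ∨ u ∈ Set.range g₂) (h3 : ∀ a b, g₁ a = g₂ b → b ∈ Set.range f₂)
    (x : W.H M₁.Z) :
    W.upA M₀ M₂ f₂ (W.dnL M₀ M₁ f₁ x) = W.dnL M₂ M₃ g₂ (W.upA M₁ M₃ g₁ x) := by
  have hb : ∀ {A B : Type} (f : A ↪ B) (g : {t // t ∉ Set.range f₂} ↪ B),
      (∀ a b, f a ≠ g b) → (∀ u, u ∈ Set.range f ∨ u ∈ Set.range g) →
      Bijective (Sum.elim g f) := by
    intro A B f g k1 k2
    refine ⟨g.injective.sumElim f.injective fun b a e => k1 a b e.symm, fun u => ?_⟩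
    rcases k2 u with ⟨a, rfl⟩ | ⟨b, rfl⟩
    exacts [⟨Sum.inr a, rfl⟩, ⟨Sum.inl b, rfl⟩]
  have b2 := hb f₂ (Embedding.subtype _) (fun a b e => b.2 ⟨a, e⟩) fun u => by
    by_cases h : u ∈ Set.range f₂
    exacts [Or.inl h, Or.inr ⟨⟨u, h⟩, rfl⟩]
  have b3 := hb g₁ ((Embedding.subtype _).trans g₂) (fun a b e => b.2 (h3 a b e)) fun u => by
    rcases h2 u with h | ⟨b, rfl⟩
    · exact Or.inl h
    · by_cases h : b ∈ Set.range f₂
      · obtain ⟨t, rfl⟩ := h
        exact Or.inl ⟨f₁ t, h1 t⟩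
      · exact Or.inr ⟨⟨b, h⟩, rfl⟩
  refine ext_r fun y => ?_
  have hy : y ∈ Submodule.span K {z | ∃ c a, z = W.upA (M₂.co f₂) M₂ (Embedding.subtype _) c *
      W.upA M₀ M₂ f₂ a} := by
    rw [W.kun_span _ _ _ b2]
    trivial
  induction hy using Submodule.span_induction with
  | mem y hy =>
    obtain ⟨c, a, rfl⟩ := hy
    rw [mul_assoc, ← map_mul, W.kun_tr _ _ _ b2, adjL, adjL, map_mul (W.upA M₂ M₃ g₂),
      W.upA_upA _ _ _ ((Embedding.subtype _).trans g₂) fun _ => rfl,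
      W.upA_upA M₀ M₂ M₃ (f₁.trans g₁) fun t => (h1 t).symm,
      ← W.upA_upA M₀ M₁ M₃ (f := f₁) (g := g₁) (f₁.trans g₁) fun _ => rfl, mul_assoc, ← map_mul,
      W.kun_tr _ _ _ b3]
  | zero => rw [zero_mul, zero_mul]
  | add y z _ _ hy hz => rw [add_mul, add_mul, map_add, map_add, hy, hz]
  | smul c y _ hy => rw [smul_mul_assoc, smul_mul_assoc, map_smul, map_smul, hy]

/-- Cohomology as a theory. -/
noncomputable def HT (X : SV k P) : Th.{u, w} X where
  E M := W.H M.Z
  pl M M' f := W.upA M M' f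
  ps M M' f := W.dnL M M' f
  pl_pl M M' M'' f g x := W.upA_upA M M' M'' (f.trans g) (fun _ => rfl) x
  ps_ps M M' M'' f g x := W.dnL_dnL M M' M'' (f.trans g) (fun _ => rfl) x
  pl_id M x := W.upA_id M x
  ps_id M x := W.dnL_id M x
  proj_l M M' f x z := W.dn_up_mul M M' f x z
  proj_r M M' f x z := W.dn_up_mul' M M' f x z
  bc := W.bc'

end Weil

end Pool.Agent.Work.MP_10f4af_ag
end

-- merged part: Pool.Agent.Work.MP_10f4af_ag.W2
section
/-!
# The cycle class map and the action of correspondences on cohomology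

Plan.  Extend the fields `cl_mul`, `cl_pl`, `cl_ps` from `CH X i` to the ring `CR X` with `CR.ind`.
`clR_smul`: an additive map to a `K`-vector space, `map_ratCast_smul` or clear denominators.
`cast_dgr`: apply `clR` and the trace to `Mod.push_dgr`; on the point `Mod.pow X Empty` the trace
of `1` is `1` by `cl_pt`, `cl_one` (its set of points is a singleton, `Mod.pt_ext`).
`exists_dgr_ne`: `exists_pair` (F1), `cast_dgr`, `cl_pt`.
`rho0_one`: test with `ext_l`, `dn_up_mul'`, `tr_dnL`, `cl_dia`, `Mod.val_dl`, `Mod.crd_inl`.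
`rho0_mul`: `Th.act_cmp` for `HT`, `clR_comm`.  `rho_sw`: `adjL`, `tr_dnL` and `Th.ps_pl` for the
exchange.  `rho_xx`: as `Mod.tau_xx` (T3), or test with `ext_r`, `adjL`, `kun_tr`.
`rho_gp`: `Th.act_perm`.
Avoid `change` with underscores (slow unification); state the `Th` facts with full types.
-/

open Function Function.Embedding

namespace Pool.Agent.Work.MP_10f4af_ag

open MP_ffcd14_ag (Amb)

universe u v w

variable {k : Type u} [Field k] [IsAlgClosed k] {K : Type v} [Field K] {P : Amb}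

namespace Weil

variable (W : Weil.{u, v, w} k K)

/-- The cycle class map as an additive map. -/
noncomputable def W2_cl (X : SV k P) : Cl X →+ W.H X := AddMonoidHom.mk' (W.cl X) (W.cy.cl_add X)

theorem W2_cl_smul [CharZero K] (X : SV k P) (q : ℚ) (a : Cl X) :
    W.W2_cl X (q • a) = (q : K) • W.W2_cl X a :=
  map_ratCast_smul (W.W2_cl X) ℚ K q a

theorem cl_mul' (X : SV k P) (x y : CR X) :
    W.cl X (CR.val X (x * y)) = W.cl X (CR.val X x) * W.cl X (CR.val X y) := by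
  induction x using CR.ind with
  | h1 i x hx =>
    induction y using CR.ind with
    | h1 j y hy => exact W.cy.cl_mul X i j _ hx _ hy
    | h2 y y' h h' => rw [mul_add, map_add, map_add, W.cy.cl_add, W.cy.cl_add, h, h', mul_add]
  | h2 x x' h h' => rw [add_mul, map_add, map_add, W.cy.cl_add, W.cy.cl_add, h, h', add_mul]

/-- The cycle class map. -/
noncomputable def clR (X : SV k P) : CR X →+* W.H X :=
  RingHom.mk' ⟨⟨fun x => W.cl X (CR.val X x), W.cy.cl_one X⟩, W.cl_mul' X⟩ fun x y =>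
    (congrArg (W.cl X) (map_add _ x y)).trans (W.cy.cl_add X _ _)

theorem clR_apply (X : SV k P) (x : CR X) : W.clR X x = W.cl X (CR.val X x) := rfl

theorem clR_gr {X : SV k P} {i : ℕ} {x : CR X} (h : x ∈ CR.gr X i) :
    W.clR X x ∈ W.gr X (2 * i) := by
  exact mem_gr.2 (W.cy.cl_dg X i _ h)

theorem clR_comm {X : SV k P} (x : CR X) (y : W.H X) : Commute (W.clR X x) y := by
  induction x using CR.ind with
  | h1 i x hx => exact even_comm (W.clR_gr hx) (even_two_mul i) y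
  | h2 x x' h h' => rw [RingHom.map_add]; exact h.add_left h'

theorem clR_smul [CharZero K] {X : SV k P} (q : ℚ) (x : CR X) :
    W.clR X (q • x) = (q : K) • W.clR X x := by
  rw [clR_apply, clR_apply, map_smul]
  exact W.W2_cl_smul X q _

variable {X : SV k P} {T T' : Type} (M : Mod X T) (M' : Mod X T')

theorem clR_pull (f : T ↪ T') (x : CR M.Z) :
    W.clR _ (M.pull M' f x) = W.upA M M' f (W.clR _ x) := by
  induction x using CR.ind with
  | h1 i x hx =>
    rw [upA_apply, clR_apply, clR_apply, Mod.val_pull]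
    exact W.cy.cl_pl _ _ _ (M.isPr M' f) i _ hx
  | h2 x x' h h' => simp only [map_add, h, h']

theorem clR_push (f : T ↪ T') (x : CR M'.Z) :
    W.clR _ (M.push M' f x) = W.dnL M M' f (W.clR _ x) := by
  induction x using CR.ind with
  | h1 i x hx =>
    rw [dnL_apply, clR_apply, clR_apply, Mod.val_push]
    exact W.cy.cl_ps _ _ _ (M.isPr M' f) i _ hx
  | h2 x x' h h' => simp only [map_add, h, h']

theorem W2_tr_pt (N : Mod X Empty) : W.trL N.Z 1 = 1 := by
  obtain ⟨x, hx⟩ := N.Z.irr.nonempty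
  have h : N.Z.pts = {x} :=
    Set.eq_singleton_iff_unique_mem.2 ⟨hx, fun y _ => N.pt_ext fun t => t.elim⟩
  have h1 := W.cy.cl_pt N.Z x hx
  rwa [← h, W.cy.cl_one] at h1

theorem cast_dgr [CharZero K] (u : CR M.Z) : (M.dgr u : K) = W.trL M.Z (W.clR _ u) := by
  rw [← W.tr_dnL (Mod.pow X Empty) M (Mod.e0 T), ← clR_push, Mod.push_dgr, clR_smul,
    RingHom.map_one, map_smul, W2_tr_pt, smul_eq_mul, mul_one]

include W in
theorem exists_dgr_ne [CharZero K] {i j : ℕ} (h : i + j = M.Z.dim) :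
    ∃ v ∈ CR.gr M.Z j, ∃ w ∈ CR.gr M.Z i, M.dgr (v * w) ≠ 0 := by
  obtain ⟨v, hv, w, hw, s, m, hs, hm, e⟩ := exists_pair M.Z h
  refine ⟨CR.mk v (CH_le _ j hv), hv, CR.mk w (CH_le _ i hw), hw, fun h0 => hm.ne' ?_⟩
  have h1 := W.cast_dgr M (CR.mk v (CH_le _ j hv) * CR.mk w (CH_le _ i hw))
  have h2 : W.clR _ (CR.mk v (CH_le _ j hv) * CR.mk w (CH_le _ i hw)) =
      ∑ p ∈ s, (m p : K) • W.cl M.Z (cyc M.Z {p}) := by
    rw [clR_apply, CR.val_mul, CR.val_mk, CR.val_mk, e]
    refine (map_sum (W.W2_cl M.Z) _ _).trans (Finset.sum_congr rfl fun p _ => ?_)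
    exact W.W2_cl_smul M.Z _ _
  rw [h0, h2, map_sum, Rat.cast_zero, Finset.sum_congr rfl (g := fun p => (m p : K))
    fun p hp => by rw [map_smul, trL_apply, W.cy.cl_pt _ p (hs p hp), smul_eq_mul, mul_one]] at h1
  exact_mod_cast h1.symm

/-- The action on cohomology. -/
noncomputable def rho0 (α : Cor M) : Module.End K (W.H M.Z) :=
  W.dnL M (M.prod M) inr ∘ₗ LinearMap.mulLeft K (W.clR _ (Cor.un M α)) ∘ₗ
    (W.upA M (M.prod M) inl).toLinearMap

theorem rho0_apply (α : Cor M) (x : W.H M.Z) : W.rho0 M α x =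
    W.dnL M (M.prod M) inr (W.clR _ (Cor.un M α) * W.upA M (M.prod M) inl x) := rfl

theorem W2_up_inl (x : W.H M.Z) :
    W.upA M (M.prod M) inl x = W.up M.Z (M.Z.prod M.Z) vl x :=
  (W.upA_apply M (M.prod M) inl x).trans
    (congrArg (fun a => W.up M.Z (M.Z.prod M.Z) a x) (M.crd_inl M))

theorem W2_up_inr (x : W.H M.Z) :
    W.upA M (M.prod M) inr x = W.up M.Z (M.Z.prod M.Z) vr x :=
  (W.upA_apply M (M.prod M) inr x).trans
    (congrArg (fun a => W.up M.Z (M.Z.prod M.Z) a x) (M.crd_inr M))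

theorem W2_tr_dn (z : W.H (M.prod M).Z) (y : W.H M.Z) :
    W.trL M.Z (W.dnL M (M.prod M) inr z * y) =
      W.trL (M.prod M).Z (z * W.upA M (M.prod M) inr y) := by
  rw [← dn_up_mul', tr_dnL]

theorem rho0_one : W.rho0 M 1 = 1 := by
  refine LinearMap.ext fun x => ext_l fun y => ?_
  rw [rho0_apply, W2_tr_dn, mul_assoc, Cor.un_one, clR_apply, Mod.val_dl, W2_up_inl, W2_up_inr]
  exact W.cy.cl_dia M.Z x y

theorem rho0_mul (β α : Cor M) : W.rho0 M (β * α) = W.rho0 M β * W.rho0 M α := by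
  refine LinearMap.ext fun x => ?_
  have h1 : Commute (W.upA (M.prod M) ((M.prod M).prod M) (e12 T) (W.clR _ (Cor.un M α)))
      (W.upA (M.prod M) ((M.prod M).prod M) (e23 T) (W.clR _ (Cor.un M β))) := by
    rw [← clR_pull]
    exact W.clR_comm _ _
  rw [rho0_apply, Cor.un_mul, Mod.cmp, clR_push, RingHom.map_mul, clR_pull, clR_pull]
  exact (W.HT X).act_cmp M (W.clR _ (Cor.un M β)) (W.clR _ (Cor.un M α)) h1 x

theorem rho0_add (β α : Cor M) : W.rho0 M (β + α) = W.rho0 M β + W.rho0 M α := by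
  refine LinearMap.ext fun x => ?_
  rw [LinearMap.add_apply, rho0_apply, rho0_apply, rho0_apply, LinearEquiv.map_add,
    RingHom.map_add, add_mul, LinearMap.map_add]

/-- The action on cohomology. -/
noncomputable def rho : Cor M →+* Module.End K (W.H M.Z) :=
  RingHom.mk' ⟨⟨W.rho0 M, W.rho0_one M⟩, W.rho0_mul M⟩ (W.rho0_add M)

theorem rho_apply (α : Cor M) (x : W.H M.Z) : W.rho M α x =
    W.dnL M (M.prod M) inr (W.clR _ (Cor.un M α) * W.upA M (M.prod M) inl x) := rfl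

theorem rho_act (α : Cor M) (x : W.H M.Z) : W.rho M α x = W.act M.Z (Cor.vv M α) x := by
  rw [rho_apply, W2_up_inl, dnL_apply]
  exact congrArg (fun a => W.dn M.Z (M.Z.prod M.Z) a
    (W.cl (M.Z.prod M.Z) (Cor.vv M α) * W.up M.Z (M.Z.prod M.Z) vl x)) (M.crd_inr M)

theorem rho_smul [CharZero K] (q : ℚ) (α : Cor M) : W.rho M (q • α) = (q : K) • W.rho M α := by
  refine LinearMap.ext fun x => ?_
  rw [LinearMap.smul_apply, rho_apply, rho_apply, LinearEquiv.map_smul, clR_smul, smul_mul_assoc,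
    LinearMap.map_smul]

theorem clR_tau (α : Cor M) (z : CR M.Z) :
    W.clR _ (Cor.tau M α z) = W.rho M α (W.clR _ z) := by
  rw [Cor.tau_apply, rho_apply, clR_push, RingHom.map_mul, clR_pull]

theorem rho_gr {α : Cor M} (hα : α ∈ Cor.R0 M) {j : ℕ} {x : W.H M.Z} (hx : x ∈ W.gr M.Z j) :
    W.rho M α x ∈ W.gr M.Z j := by
  rw [rho_apply]
  exact W.dnL_gr M (M.prod M) inr (by simp only [Mod.prod_dim']; ring)
    (mul_gr (W.clR_gr ((Cor.mem_R0 M).1 hα)) (W.upA_gr M (M.prod M) inl hx))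

theorem rho_sw (α : Cor M) (x y : W.H M.Z) :
    W.trL M.Z (y * W.rho M (Cor.rx M (Cor.sw T) α) x) = W.trL M.Z (W.rho M α y * x) := by
  have h1 : ∀ z : W.H (M.prod M).Z, W.trL (M.prod M).Z z =
      W.trL (M.prod M).Z (W.upA (M.prod M) (M.prod M) (Cor.sw T) z) := fun z => by
    rw [← W.tr_dnL (M.prod M) (M.prod M) (Cor.sw T) (W.upA (M.prod M) (M.prod M) (Cor.sw T) z)]
    exact congrArg (W.trL (M.prod M).Z)
      ((W.HT X).ps_pl (M.prod M) (M.prod M) (Equiv.sumComm T T).surjective z).symm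
  rw [rho_apply, rho_apply, adjL, W2_tr_dn, h1 (_ * _ * W.upA M (M.prod M) inr x),
    map_mul (W.upA (M.prod M) (M.prod M) (Cor.sw T)), map_mul (W.upA (M.prod M) (M.prod M) (Cor.sw T)),
    W.upA_upA M (M.prod M) (M.prod M) (f := inl) (g := Cor.sw T) inr (fun _ => rfl),
    W.upA_upA M (M.prod M) (M.prod M) (f := inr) (g := Cor.sw T) inl (fun _ => rfl),
    ← clR_pull, Cor.un_rx, ← mul_assoc, (W.clR_comm _ (W.upA M (M.prod M) inr y)).eq]

theorem rho_xx (b a : CR M.Z) (x : W.H M.Z) :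
    W.rho M (Cor.xx M b a) x = W.trL M.Z (W.clR _ b * x) • W.clR _ a := by
  refine ext_l fun y => ?_
  have hb : Bijective (Sum.elim (inl : T ↪ T ⊕ T) (inr : T ↪ T ⊕ T)) := by
    have : Sum.elim (inl : T ↪ T ⊕ T) (inr : T ↪ T ⊕ T) = id := Sum.elim_inl_inr
    rw [this]
    exact bijective_id
  rw [rho_apply, W2_tr_dn, Cor.un_xx, RingHom.map_mul, mul_assoc (W.clR _ _),
    (W.clR_comm _ (W.upA M (M.prod M) inl x)).eq, clR_pull, clR_pull, ← mul_assoc, ← map_mul,
    mul_assoc, ← map_mul, W.kun_tr M M (M.prod M) hb, smul_mul_assoc, map_smul, smul_eq_mul]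

theorem rho_gp (σ : T ≃ T) (x : W.H M.Z) :
    W.rho M (Cor.gp M σ) x = W.upA M M σ.toEmbedding x := by
  have h1 : W.rho M 1 x = x := by rw [RingHom.map_one, Module.End.one_apply]
  rw [rho_apply, Cor.gp, Cor.un_rx, clR_pull]
  exact ((W.HT X).act_perm M σ (W.clR _ (Cor.un M 1)) x).trans
    (congrArg (W.upA M M σ.toEmbedding) h1)

theorem rho_inj0 [CharZero K] (h : M.Z.dim = 0) {p : Cor M} (hp : p ∈ Cor.R0 M)
    (h0 : W.rho M p = 0) : p = 0 := by
  have h1 := (Cor.mem_R0 M).1 hp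
  have h2 := (Cor.mem_R0 M).1 (one_mem (Cor.R0 M))
  rw [h] at h1 h2
  obtain ⟨q, hq⟩ := CR.gr_zero h1
  obtain ⟨q', hq'⟩ := CR.gr_zero h2
  have h3 : q' • p = q • (1 : Cor M) := (Cor.un M).injective (by
    rw [LinearEquiv.map_smul, LinearEquiv.map_smul, hq, hq', smul_comm])
  have h4 := congrArg (fun α => W.rho M α 1) h3
  simp only [rho_smul, h0, smul_zero, RingHom.map_one, LinearMap.zero_apply, LinearMap.smul_apply,
    Module.End.one_apply] at h4
  have h5 : q = 0 := by exact_mod_cast (smul_eq_zero.1 h4.symm).resolve_right one_ne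
  exact (Cor.un M).injective (by rw [hq, h5, zero_smul, LinearEquiv.map_zero])

end Weil

end Pool.Agent.Work.MP_10f4af_ag
end

-- merged part: Pool.Agent.Work.MP_10f4af_ag.W3
section
/-!
# Exterior products of correspondences act factor by factor

Plan.  `rho_t2`: `Th.ext2` for `HT` (classes `clR _` are central, `clR_comm`, so that the four
factors regroup).  `rho_tn`: `Th.extN` for `HT` with `A = Unit ⊕ Unit`, `A' = Unit`, `f = inr`;
for central `c t` the product of the list of `c t * x t` is `(∏ c t) * (list of x t).prod`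
(induction on `N`); `map_prod`, `List.prod_ofFn`, `map_list_prod`.
`span_tn'`: induction on `N` with `kun_span` for `e 0` and the model `Mod.pow X (Fin N)` of the
other factors; for `N = 0` the index set `U` is empty, `kun_tr` with `f = g = refl` and `upA_id`
give `tr (x * y) = tr x * tr y`, so `x = tr x • 1` by `ext_l`.
-/

open Function Function.Embedding

namespace Pool.Agent.Work.MP_10f4af_ag

open MP_ffcd14_ag (Amb)

universe u v w

variable {k : Type u} [Field k] [IsAlgClosed k] {K : Type v} [Field K] {P : Amb}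

namespace Weil

variable (W : Weil.{u, v, w} k K) {X : SV k P} {T : Type} (M : Mod X T) {N : ℕ}

theorem W3_mem {V V' : Type*} [AddCommGroup V] [Module K V] [AddCommGroup V'] [Module K V']
    {s : Set V} (hs : Submodule.span K s = ⊤) (f : V →ₗ[K] V') {p : Submodule K V'}
    (h : ∀ z ∈ s, f z ∈ p) (z : V) : f z ∈ p :=
  (Submodule.span_le (p := p.comap f)).2 h (hs ▸ Submodule.mem_top)

theorem W3_central {R H : Type*} [CommRing R] [Ring H] (φ : R →+* H)
    (hφ : ∀ r y, Commute (φ r) y) {N : ℕ} (c : Fin N → R) (x : Fin N → H) :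
    φ (∏ t, c t) * (List.ofFn x).prod = (List.ofFn fun t => φ (c t) * x t).prod := by
  induction N with
  | zero => simp
  | succ N ih =>
    rw [Fin.prod_univ_succ, List.ofFn_succ, List.ofFn_succ, List.prod_cons, List.prod_cons,
      ← ih, RingHom.map_mul, (hφ _ _).mul_mul_mul_comm]

theorem W3_map {H H' : Type*} [Ring H] [Ring H'] [Algebra K H] [Algebra K H'] (φ : H →ₐ[K] H')
    {N : ℕ} (x : Fin N → H) : φ (List.ofFn x).prod = (List.ofFn fun t => φ (x t)).prod := by
  rw [map_list_prod, List.map_ofFn]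
  rfl

theorem W3_ext2 {A B U A' B' U' : Type} (MA : Mod X A) (MB : Mod X B) (MU : Mod X U)
    (MA' : Mod X A') (MB' : Mod X B') (MU' : Mod X U') {g₁ : A ↪ U} {g₂ : B ↪ U} (g₁' : A' ↪ U')
    (g₂' : B' ↪ U') (f₁ : A' ↪ A) (f₂ : B' ↪ B) {F : U' ↪ U} (h : Bijective (Sum.elim g₁ g₂))
    (h' : ∀ u, u ∈ Set.range g₁' ∨ u ∈ Set.range g₂') (e₁ : ∀ a, F (g₁' a) = g₁ (f₁ a))
    (e₂ : ∀ b, F (g₂' b) = g₂ (f₂ b)) (a : W.H MA.Z) (b : W.H MB.Z) :
    W.dnL MU' MU F (W.upA MA MU g₁ a * W.upA MB MU g₂ b) =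
      W.upA MA' MU' g₁' (W.dnL MA' MA f₁ a) * W.upA MB' MU' g₂' (W.dnL MB' MB f₂ b) :=
  (W.HT X).ext2 MA MB MU MA' MB' MU' g₁' g₂' f₁ f₂ h h' e₁ e₂ a b

theorem W3_extN {A A' U U' : Type} (MA : Mod X A) (MA' : Mod X A') (f : A' ↪ A) (MU : Mod X U)
    (MU' : Mod X U') (j : Fin N → A ↪ U) (j' : Fin N → A' ↪ U') (F : U' ↪ U)
    (h : Bijective fun p : Fin N × A => j p.1 p.2) (h' : Surjective fun p : Fin N × A' => j' p.1 p.2)
    (e : ∀ n a, F (j' n a) = j n (f a)) (c : Fin N → W.H MA.Z) :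
    W.dnL MU' MU F (List.ofFn fun n => W.upA MA MU (j n) (c n)).prod =
      (List.ofFn fun n => W.upA MA' MU' (j' n) (W.dnL MA' MA f (c n))).prod :=
  (W.HT X).extN MA MA' f N MU MU' j j' F h h' e c

theorem rho_t2 (β α : Cor M) (x y : W.H M.Z) : W.rho (M.prod M) (Cor.t2 M β α)
    (W.upA M (M.prod M) inl x * W.upA M (M.prod M) inr y) =
      W.upA M (M.prod M) inl (W.rho M β x) * W.upA M (M.prod M) inr (W.rho M α y) := by
  rw [rho_apply, rho_apply, rho_apply, Cor.un_t2, RingHom.map_mul, map_mul (W.upA _ _ inl),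
    (W.clR_comm _ _).mul_mul_mul_comm, clR_pull, clR_pull,
    W.upA_upA M _ _ (f := inl) (g := inl) (inl.trans (j1 T)) (fun _ => rfl),
    W.upA_upA M _ _ (f := inr) (g := inl) (inl.trans (j2 T)) (fun _ => rfl),
    ← W.upA_upA M (M.prod M) _ (f := inl) (g := j1 T) _ (fun _ => rfl),
    ← W.upA_upA M (M.prod M) _ (f := inl) (g := j2 T) _ (fun _ => rfl), ← map_mul, ← map_mul]
  refine W.W3_ext2 _ _ _ _ _ _ (g₁ := j1 T) (g₂ := j2 T) (F := inr) inl inr inr inr ⟨?_, ?_⟩ ?_
    (fun _ => rfl) (fun _ => rfl) _ _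
  · exact (j1 T).injective.sumElim (j2 T).injective (by rintro (a | a) (b | b) e <;> cases e)
  · rintro ((t | t) | (t | t))
    exacts [⟨Sum.inl (Sum.inl t), rfl⟩, ⟨Sum.inr (Sum.inl t), rfl⟩, ⟨Sum.inl (Sum.inr t), rfl⟩,
      ⟨Sum.inr (Sum.inr t), rfl⟩]
  · rintro (t | t)
    exacts [Or.inl ⟨t, rfl⟩, Or.inr ⟨t, rfl⟩]

theorem span_t2 : Submodule.span K
    {z | ∃ x y, z = W.upA M (M.prod M) inl x * W.upA M (M.prod M) inr y} = ⊤ := by
  refine W.kun_span M M (M.prod M) ⟨Sum.inl_injective.sumElim Sum.inr_injective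
    fun _ _ => Sum.inl_ne_inr, ?_⟩
  rintro (t | t)
  exacts [⟨Sum.inl t, rfl⟩, ⟨Sum.inr t, rfl⟩]

theorem rho_t2_zero {β α : Cor M} (h : W.rho M α = 0) : W.rho (M.prod M) (Cor.t2 M β α) = 0 := by
  refine LinearMap.ext_on (W.span_t2 M) ?_
  rintro _ ⟨x, y, rfl⟩
  rw [rho_t2, h, LinearMap.zero_apply, map_zero, mul_zero, LinearMap.zero_apply]

theorem rho_t2_gr {β α : Cor M} {i j : ℕ} (hβ : ∀ x, W.rho M β x ∈ W.gr M.Z i)
    (hα : ∀ x, W.rho M α x ∈ W.gr M.Z j) (z : W.H (M.prod M).Z) :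
    W.rho (M.prod M) (Cor.t2 M β α) z ∈ W.gr (M.prod M).Z (i + j) := by
  refine W3_mem (W.span_t2 M) _ ?_ z
  rintro _ ⟨x, y, rfl⟩
  rw [rho_t2]
  exact mul_gr (W.upA_gr _ _ _ (hβ x)) (W.upA_gr _ _ _ (hα y))

/-- The ordered product of the pull-backs. -/
noncomputable def pn (x : Fin N → W.H X) : W.H (Mod.pow X (Fin N)).Z :=
  (List.ofFn fun t => W.upA (Mod.one X) (Mod.pow X (Fin N)) (it t) (x t)).prod

theorem rho_tn (α : Fin N → Cor (Mod.one X)) (x : Fin N → W.H X) :
    W.rho _ (Cor.tn α) (W.pn x) = W.pn fun t => W.rho (Mod.one X) (α t) (x t) := by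
  rw [rho_apply, Cor.un_tn, pn, pn, W3_map, W3_central _ W.clR_comm]
  refine Eq.trans (congrArg (fun l => W.dnL _ _ inr (List.ofFn l).prod) (funext fun t => ?_))
    (W.W3_extN ((Mod.one X).prod (Mod.one X)) (Mod.one X) inr
      ((Mod.pow X (Fin N)).prod (Mod.pow X (Fin N))) (Mod.pow X (Fin N)) jt it inr ⟨?_, ?_⟩
      (fun t => ⟨(t, ()), rfl⟩) (fun _ _ => rfl)
      fun t => W.clR _ (Cor.un _ (α t)) * W.upA (Mod.one X) _ inl (x t))
  · rw [map_mul, clR_pull]
    congr 1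
    exact (W.upA_upA (Mod.one X) _ _ (f := it t) (g := inl) (inl.trans (jt t))
      (fun _ => rfl) _).trans
      (W.upA_upA (Mod.one X) _ _ (f := inl) (g := jt t) (inl.trans (jt t)) (fun _ => rfl) _).symm
  · rintro ⟨s, a | a⟩ ⟨t, b | b⟩ e <;> cases e <;> rfl
  · rintro (t | t)
    exacts [⟨(t, Sum.inl ()), rfl⟩, ⟨(t, Sum.inr ()), rfl⟩]

theorem span_tn' (N : ℕ) : ∀ {U : Type} (MU : Mod X U) (e : Fin N → Unit ↪ U),
    (Bijective fun t => e t ()) → Submodule.span K {z | ∃ x : Fin N → W.H X,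
      z = (List.ofFn fun t => W.upA (Mod.one X) MU (e t) (x t)).prod} = ⊤ := by
  induction N with
  | zero =>
    intro U MU e he
    have : IsEmpty U := ⟨fun u => (he.2 u).choose.elim0⟩
    refine eq_top_iff.2 fun z _ => ?_
    have h : z = W.trL MU.Z z • (1 : W.H MU.Z) := ext_l fun y => by
      have h1 := W.kun_tr MU MU MU (f := Embedding.refl U) (g := Embedding.refl U)
        ⟨fun a => isEmptyElim a, fun a => isEmptyElim a⟩ z y
      rw [upA_id, upA_id] at h1
      rw [h1, smul_mul_assoc, one_mul, map_smul, smul_eq_mul]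
    rw [h]
    exact Submodule.smul_mem _ _ (Submodule.subset_span ⟨Fin.elim0, by simp⟩)
  | succ N ih =>
    intro U MU e he
    let g : Fin N ↪ U := ⟨fun n => e n.succ (), fun a b h => Fin.succ_injective _ (he.1 h)⟩
    have hb : Bijective (Sum.elim (e 0) g) := by
      refine ⟨(e 0).injective.sumElim g.injective fun a n h => Fin.succ_ne_zero n (he.1 h).symm,
        fun u => ?_⟩
      obtain ⟨n, rfl⟩ := he.2 u
      induction n using Fin.cases with
      | zero => exact ⟨Sum.inl (), rfl⟩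
      | succ n => exact ⟨Sum.inr n, rfl⟩
    rw [eq_top_iff, ← W.kun_span (Mod.one X) (Mod.pow X (Fin N)) MU hb, Submodule.span_le]
    rintro _ ⟨x, y, rfl⟩
    refine W3_mem (ih (Mod.pow X (Fin N)) it bijective_id)
      (LinearMap.mulLeft K (W.upA (Mod.one X) MU (e 0) x) ∘ₗ
        (W.upA (Mod.pow X (Fin N)) MU g).toLinearMap) ?_ y
    rintro _ ⟨x', rfl⟩
    refine Submodule.subset_span ⟨Fin.cons x x', ?_⟩
    rw [List.ofFn_succ, List.prod_cons, LinearMap.comp_apply, LinearMap.mulLeft_apply,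
      AlgHom.toLinearMap_apply, W3_map]
    congr 3
    funext n
    exact W.upA_upA _ _ _ (f := it n) (g := g) (e n.succ) (fun _ => rfl) _

theorem span_tn : Submodule.span K (Set.range (W.pn : (Fin N → W.H X) → _)) = ⊤ := by
  refine Eq.trans (congrArg _ (Set.ext fun z => exists_congr fun x => eq_comm))
    (W.span_tn' N (Mod.pow X (Fin N)) it bijective_id)

theorem W3_gr {S : Amb} {Z : SV k S} {N : ℕ} {x : Fin N → W.H Z} {n : Fin N → ℕ}
    (h : ∀ t, x t ∈ W.gr Z (n t)) : (List.ofFn x).prod ∈ W.gr Z (∑ t, n t) := by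
  induction N with
  | zero => simpa using one_gr
  | succ N ih =>
    rw [List.ofFn_succ, List.prod_cons, Fin.sum_univ_succ]
    exact mul_gr (h 0) (ih fun t => h t.succ)

theorem rho_tn_gr {α : Fin N → Cor (Mod.one X)} {n : Fin N → ℕ}
    (h : ∀ t x, W.rho (Mod.one X) (α t) x ∈ W.gr X (n t)) (z : W.H (Mod.pow X (Fin N)).Z) :
    W.rho _ (Cor.tn α) z ∈ W.gr (Mod.pow X (Fin N)).Z (∑ t, n t) := by
  refine W3_mem W.span_tn _ ?_ z
  rintro _ ⟨x, rfl⟩
  rw [rho_tn]
  exact W.W3_gr fun t => W.upA_gr (Mod.one X) _ _ (h t (x t))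

theorem rho_gp_pn (σ : Equiv.Perm (Fin N)) (x : Fin N → W.H X) : W.rho _ (Cor.gp _ σ) (W.pn x) =
    (List.ofFn fun t => W.upA (Mod.one X) (Mod.pow X (Fin N)) (it (σ t)) (x t)).prod := by
  rw [rho_gp, pn, W3_map]
  congr 2
  funext t
  exact W.upA_upA _ _ _ (f := it t) (g := σ.toEmbedding) (it (σ t)) (fun _ => rfl) _

end Weil

end Pool.Agent.Work.MP_10f4af_ag
end

-- merged part: Pool.Agent.Work.MP_10f4af_ag.K1
section
/-!
# Families of projectors

A Chow-Künneth decomposition with an arbitrary finite index set `ι` and a degree `n : ι → ℕ`.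

Plan.  `kill`: `rho_gr`, `gr_disj`.  `conj`: `(1 + g) * (1 - g) = 1 = (1 - g) * (1 + g)`.
`dual`: `sw_mul`, `sw_one`, `rx_sum`, `rx_zero`, `rx_mem` (T3); `gr_of_tr`, `rho_sw`, `tr_gr`.
`t2`, `tn`: the lemmas of T4, T5, W3; `CompleteOrthogonalIdempotents` is `idem`, `ortho`,
`complete` (`OrthogonalIdempotents.iff_mul_eq` is convenient).
`phantom`: compare the degree functions `update n c b` and `update n c a` on `tau (q c) z`.
`conj_mem`: `tau` is an algebra map and `tau_gr`.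
-/

open Function Function.Embedding

namespace Pool.Agent.Work.MP_10f4af_ag

open MP_ffcd14_ag (Amb)

universe u v w

variable {k : Type u} [Field k] [IsAlgClosed k] {K : Type v} [Field K] {P : Amb}
  (W : Weil.{u, v, w} k K) {X : SV k P} {T : Type} (M : Mod X T) {ι ι' : Type} [Fintype ι]
  [Fintype ι']

theorem K1_conj {R : Type*} [Ring R] {q : ι → R} (h : CompleteOrthogonalIdempotents q) {u v : R}
    (h1 : u * v = 1) (h2 : v * u = 1) : CompleteOrthogonalIdempotents fun c => u * q c * v := by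
  have e : ∀ x y, u * x * v * (u * y * v) = u * (x * y) * v := fun x y => by
    calc u * x * v * (u * y * v) = u * x * (v * u) * y * v := by simp only [mul_assoc]
      _ = u * (x * y) * v := by rw [h2, mul_one, mul_assoc u]
  refine ⟨⟨fun c => (e _ _).trans (by rw [(h.idem c).eq]), fun c d hcd => (e _ _).trans ?_⟩, ?_⟩
  · rw [h.ortho hcd, mul_zero, zero_mul]
  · rw [← Finset.sum_mul, ← Finset.mul_sum, h.complete, mul_one, h1]

theorem K1_split [DecidableEq ι] {R : Type*} [Ring R] {q : ι → R}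
    (h : CompleteOrthogonalIdempotents q) (a : ι) {p : R} (hpp : p * p = p) (h1 : q a * p = p)
    (h2 : p * q a = p) :
    CompleteOrthogonalIdempotents fun c : Option ι => c.elim p (update q a (q a - p)) := by
  have e1 : ∀ c, c ≠ a → q c * p = 0 := fun c hc => by
    rw [← h1, ← mul_assoc, h.ortho hc, zero_mul]
  have e2 : ∀ c, c ≠ a → p * q c = 0 := fun c hc => by
    rw [← h2, mul_assoc, h.ortho hc.symm, mul_zero]
  refine ⟨⟨?_, ?_⟩, ?_⟩
  · rintro (_ | c)
    · exact hpp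
    · rcases eq_or_ne c a with rfl | hc
      · simp only [Option.elim, update_self, IsIdempotentElem, mul_sub, sub_mul, (h.idem c).eq, h1,
          h2, hpp, sub_self, sub_zero]
      · simp only [Option.elim, update_of_ne hc, h.idem c]
  · rintro (_ | c) (_ | d) hcd
    · exact absurd rfl hcd
    · rcases eq_or_ne d a with rfl | hd
      · simp only [Option.elim, update_self, mul_sub, h2, hpp, sub_self]
      · simp only [Option.elim, update_of_ne hd, e2 d hd]
    · rcases eq_or_ne c a with rfl | hc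
      · simp only [Option.elim, update_self, sub_mul, h1, hpp, sub_self]
      · simp only [Option.elim, update_of_ne hc, e1 c hc]
    · have h3 : c ≠ d := fun e => hcd (congrArg some e)
      have h4 : q c * q d = 0 := h.ortho h3
      rcases eq_or_ne c a with rfl | hc
      · simp only [Option.elim, update_self, update_of_ne h3.symm, sub_mul, h4, e2 d h3.symm,
          sub_self]
      · rcases eq_or_ne d a with rfl | hd
        · simp only [Option.elim, update_self, update_of_ne hc, mul_sub, h4, e1 c hc, sub_self]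
        · simp only [Option.elim, update_of_ne hc, update_of_ne hd, h4]
  · rw [Fintype.sum_option, ← h.complete, ← Finset.add_sum_erase _ q (Finset.mem_univ a)]
    simp only [Option.elim]
    rw [Finset.sum_update_of_mem (Finset.mem_univ a), ← add_assoc, add_sub_cancel,
      Finset.sdiff_singleton_eq_erase]

/-- A family of projectors. -/
structure Fam (q : ι → Cor M) (n : ι → ℕ) : Prop where
  mem : ∀ c, q c ∈ Cor.R0 M
  coi : CompleteOrthogonalIdempotents q
  le : ∀ c, n c ≤ 2 * M.Z.dim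
  img : ∀ c x, W.rho M (q c) x ∈ W.gr M.Z (n c)

/-- The common kernel of the projectors of degree in `s`. -/
def KS (q : ι → Cor M) (n : ι → ℕ) (i : ℕ) (s : ℕ → Prop) : Set (CR M.Z) :=
  {z | z ∈ CR.gr M.Z i ∧ ∀ c, s (n c) → Cor.tau M (q c) z = 0}

/-- The common kernel does not depend on the family. -/
def IS (i : ℕ) (s : ℕ → Prop) : Prop :=
  ∀ (ι ι' : Type) [Fintype ι] [Fintype ι'] (q : ι → Cor M) (n : ι → ℕ) (q' : ι' → Cor M)
    (n' : ι' → ℕ), Fam W M q n → Fam W M q' n' → KS M q n i s ⊆ KS M q' n' i s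

namespace Fam

variable {W M} {q : ι → Cor M} {n : ι → ℕ} {q' : ι' → Cor M} {n' : ι' → ℕ}

theorem kill (h : Fam W M q n) (c : ι) {j : ℕ} {x : W.H M.Z} (hx : x ∈ W.gr M.Z j)
    (hj : j ≠ n c) : W.rho M (q c) x = 0 := by
  exact Weil.gr_disj (W.rho_gr M (h.mem c) hx) (h.img c x) hj

theorem sum_rho (h : Fam W M q n) (x : W.H M.Z) : ∑ c, W.rho M (q c) x = x := by
  rw [← LinearMap.sum_apply, ← map_sum, h.coi.complete, map_one, Module.End.one_apply]

theorem sum_tau (h : Fam W M q n) (z : CR M.Z) : ∑ c, Cor.tau M (q c) z = z := by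
  rw [← LinearMap.sum_apply, ← map_sum, h.coi.complete, map_one, Module.End.one_apply]

theorem rho_cross (h : Fam W M q n) (h' : Fam W M q' n') {a : ι} {b : ι'} (hab : n a ≠ n' b)
    {u : Cor M} (hu : u ∈ Cor.R0 M) : W.rho M (q a * u * q' b) = 0 := by
  refine LinearMap.ext fun x => ?_
  rw [RingHom.map_mul, RingHom.map_mul, Module.End.mul_apply, Module.End.mul_apply]
  exact h.kill a (W.rho_gr M hu (h'.img b x)) hab.symm

theorem conj (h : Fam W M q n) {g : Cor M} (hg : g ∈ Cor.R0 M) (h2 : g * g = 0)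
    (h0 : W.rho M g = 0) : Fam W M (fun c => (1 + g) * q c * (1 - g)) n := by
  refine ⟨fun c => mul_mem (mul_mem (add_mem (one_mem _) hg) (h.mem c)) (sub_mem (one_mem _) hg),
    K1_conj h.coi ?_ ?_, h.le, fun c x => ?_⟩
  · rw [add_mul, one_mul, mul_sub, mul_one, h2, sub_zero, sub_add_cancel]
  · rw [sub_mul, one_mul, mul_add, mul_one, h2, add_zero, add_sub_cancel_right]
  · rw [RingHom.map_mul, RingHom.map_mul, RingHom.map_add, RingHom.map_sub, RingHom.map_one, h0,
      add_zero, sub_zero, one_mul, mul_one]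
    exact h.img c x

theorem redeg [DecidableEq ι] (h : Fam W M q n) {c : ι} (h0 : W.rho M (q c) = 0) {a : ℕ}
    (ha : a ≤ 2 * M.Z.dim) : Fam W M q (update n c a) := by
  refine ⟨h.mem, h.coi, fun d => ?_, fun d x => ?_⟩ <;> rcases eq_or_ne d c with rfl | hd
  · rwa [update_self]
  · rw [update_of_ne hd]
    exact h.le d
  · rw [h0]
    exact zero_mem _
  · rw [update_of_ne hd]
    exact h.img d x

theorem split [DecidableEq ι] (h : Fam W M q n) (a : ι) {p : Cor M} (hp : p ∈ Cor.R0 M)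
    (hpp : p * p = p) (h1 : q a * p = p) (h2 : p * q a = p) :
    Fam W M (fun c : Option ι => c.elim p (update q a (q a - p))) fun c => c.elim (n a) n := by
  have e : ∀ x, W.rho M p x ∈ W.gr M.Z (n a) := fun x => by
    rw [← h1, RingHom.map_mul, Module.End.mul_apply]
    exact h.img a _
  refine ⟨?_, K1_split h.coi a hpp h1 h2, ?_, ?_⟩
  · rintro (_ | c)
    · exact hp
    · rw [Option.elim_some]
      rcases eq_or_ne c a with rfl | hc
      · rw [update_self]
        exact sub_mem (h.mem c) hp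
      · rw [update_of_ne hc]
        exact h.mem c
  · rintro (_ | c)
    · exact h.le a
    · exact h.le c
  · rintro (_ | c) x
    · exact e x
    · rw [Option.elim_some, Option.elim_some]
      rcases eq_or_ne c a with rfl | hc
      · rw [update_self, RingHom.map_sub, LinearMap.sub_apply]
        exact sub_mem (h.img c x) (e x)
      · rw [update_of_ne hc]
        exact h.img c x

theorem dual (h : Fam W M q n) :
    Fam W M (fun c => Cor.rx M (Cor.sw T) (q c)) fun c => 2 * M.Z.dim - n c := by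
  refine ⟨fun c => Cor.rx_mem M _ (h.mem c), ⟨⟨fun c => ?_, fun c d hcd => ?_⟩, ?_⟩,
    fun c => Nat.sub_le _ _, fun c x => Weil.gr_of_tr fun j y hy hj => ?_⟩
  · rw [IsIdempotentElem, ← Cor.sw_mul, (h.coi.idem c).eq]
  · beta_reduce
    rw [← Cor.sw_mul, h.coi.ortho hcd.symm, Cor.rx_zero]
  · rw [← Cor.rx_sum, h.coi.complete, Cor.sw_one]
  · have := h.le c
    rw [W.rho_sw, h.kill c hy (by omega), zero_mul, map_zero]

theorem t2 (h : Fam W M q n) (h' : Fam W M q' n') :
    Fam W (M.prod M) (fun c : ι × ι' => Cor.t2 M (q c.1) (q' c.2)) fun c => n c.1 + n' c.2 := by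
  refine ⟨fun c => Cor.t2_mem M (h.mem _) (h'.mem _), ⟨⟨fun c => ?_, fun c d hcd => ?_⟩, ?_⟩,
    fun c => ?_, fun c => W.rho_t2_gr M (h.img _) (h'.img _)⟩
  · rw [IsIdempotentElem, Cor.t2_mul, (h.coi.idem _).eq, (h'.coi.idem _).eq]
  · beta_reduce
    rw [Cor.t2_mul]
    rcases eq_or_ne c.1 d.1 with e | e
    · rw [h'.coi.ortho fun e' => hcd (Prod.ext e e'), map_zero]
    · rw [h.coi.ortho e, map_zero, LinearMap.zero_apply]
  · rw [Fintype.sum_prod_type]
    simp only [← map_sum, h'.coi.complete]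
    rw [← LinearMap.sum_apply, ← map_sum, h.coi.complete, Cor.t2_one]
  · have h1 := h.le c.1
    have h2 := h'.le c.2
    rw [Mod.prod_dim']
    omega

theorem tn {q : ι → Cor (Mod.one X)} {n : ι → ℕ} (h : Fam W (Mod.one X) q n) (N : ℕ) :
    Fam W (Mod.pow X (Fin N)) (fun f : Fin N → ι => Cor.tn fun t => q (f t))
      fun f => ∑ t, n (f t) := by
  refine ⟨fun f => Cor.tn_mem fun t => h.mem _, ⟨⟨fun f => ?_, fun f g hfg => ?_⟩, ?_⟩,
    fun f => ?_, fun f => W.rho_tn_gr fun t => h.img _⟩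
  · rw [IsIdempotentElem, Cor.tn_mul]
    exact congrArg Cor.tn (funext fun t => (h.coi.idem _).eq)
  · obtain ⟨t, ht⟩ := ne_iff.1 hfg
    rw [Cor.tn_mul]
    exact Cor.tn_zero (t := t) (h.coi.ortho ht)
  · rw [← Cor.tn_sum fun _ => q, h.coi.complete, Cor.tn_one]
  · refine (Finset.sum_le_card_nsmul _ _ (2 * X.dim) fun t _ => h.le _).trans_eq ?_
    rw [Mod.pow_dim, Finset.card_univ, Nat.card_eq_fintype_card, smul_eq_mul, mul_left_comm]

/-- The family on the square, acting by `γ ↦ q a * γ * q' b`. -/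
theorem sq (h : Fam W M q n) (h' : Fam W M q' n') :
    Fam W (M.prod M) (fun c : ι' × ι => Cor.t2 M (Cor.rx M (Cor.sw T) (q' c.1)) (q c.2))
      fun c => 2 * M.Z.dim - n' c.1 + n c.2 := h'.dual.t2 h

theorem mem_sq {s : ℕ → Prop} {γ : Cor M} : Cor.un M γ ∈ KS (M.prod M)
    (fun c : ι' × ι => Cor.t2 M (Cor.rx M (Cor.sw T) (q' c.1)) (q c.2))
    (fun c => 2 * M.Z.dim - n' c.1 + n c.2) M.Z.dim s ↔
    γ ∈ Cor.R0 M ∧ ∀ a b, s (2 * M.Z.dim - n' b + n a) → q a * γ * q' b = 0 := by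
  refine and_congr (Cor.mem_R0 M).symm ⟨fun h a b hs => ?_, fun h c hs => ?_⟩
  · have h1 := h (b, a) hs
    rwa [Cor.lieb, LinearEquiv.map_eq_zero_iff] at h1
  · rw [Cor.lieb, h c.2 c.1 hs, map_zero]

end Fam

variable {W M} in
theorem IS.phantom {i : ℕ} {s : ℕ → Prop} (h : IS W M i s) {a b : ℕ} (ha : a ≤ 2 * M.Z.dim)
    (hb : b ≤ 2 * M.Z.dim) (sa : s a) (sb : ¬ s b) {q : ι → Cor M} {n : ι → ℕ} (hq : Fam W M q n)
    {c : ι} (h0 : W.rho M (q c) = 0) {z : CR M.Z} (hz : z ∈ CR.gr M.Z i) :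
    Cor.tau M (q c) z = 0 := by
  classical
  have h1 := (h ι ι q _ q _ (hq.redeg h0 hb) (hq.redeg h0 ha)
    (a := Cor.tau M (q c) z) ⟨Cor.tau_gr M (hq.mem c) hz, fun d hd => by
      rcases eq_or_ne d c with rfl | e
      · rw [update_self] at hd
        exact absurd hd sb
      · rw [← Module.End.mul_apply, ← map_mul, hq.coi.ortho e, map_zero,
          LinearMap.zero_apply]⟩).2 c (by rwa [update_self])
  rwa [← Module.End.mul_apply, ← map_mul, (hq.coi.idem c).eq] at h1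

end Pool.Agent.Work.MP_10f4af_ag
end

-- merged part: Pool.Agent.Work.MP_10f4af_ag.K0
section
/-!
# Dictionary between decompositions and families

Plan.  A class of `CH` lies in `TC` (`CH_le`), so it is `vv` of an element of `Cor M`
(`CR.mk`); use `vv_inj`, `vv_mul`, `vv_one`, `mem_R0'`, `rho_act`, `val_tau`, `Weil.ind`,
`Fam.kill`, `Fam.sum_rho`, `Finset.sum_fiberwise`.  The image of `CR.gr i` under the idempotent
`∑ c with n c ≤ 2 i - m, q c` is the common kernel of the other members of the family.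
`tau (∑ c with n c = j, q c) z = 0` iff `tau (q c) z = 0` for all `c` with `n c = j`
(multiply by `q c`).
-/

open Function Function.Embedding

namespace Pool.Agent.Work.MP_10f4af_ag

open MP_ffcd14_ag (Amb)

universe u v w

variable {k : Type u} [Field k] [IsAlgClosed k] {K : Type v} [Field K] {P : Amb}
  {W : Weil.{u, v, w} k K} {X : SV k P} {T : Type} {M : Mod X T} {ι : Type} [Fintype ι]

theorem exists_vv (M : Mod X T) {p : Cl (M.Z.prod M.Z)} (h : p ∈ CH (M.Z.prod M.Z) M.Z.dim) :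
    ∃ α ∈ Cor.R0 M, Cor.vv M α = p := by
  exact ⟨(Cor.un M).symm (CR.mk p (CH_le _ _ h)), h, rfl⟩

theorem exists_val {i : ℕ} {z : Cl X} (h : z ∈ CH X i) : ∃ y ∈ CR.gr X i, CR.val X y = z := by
  exact ⟨CR.mk z (CH_le X i h), h, rfl⟩

variable (M) in
/-- The decomposition attached to a family. -/
noncomputable def ofFam (q : ι → Cor M) (n : ι → ℕ) (j : Fin (2 * M.Z.dim + 1)) :
    Cl (M.Z.prod M.Z) := Cor.vv M (∑ c with n c = j, q c)

theorem ofFam_val (q : Fin (2 * M.Z.dim + 1) → Cor M) (j : Fin (2 * M.Z.dim + 1)) :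
    ofFam M q Fin.val j = Cor.vv M (q j) := by
  unfold ofFam
  congr 1
  simp only [Fin.val_inj, Finset.filter_eq', Finset.mem_univ, if_true, Finset.sum_singleton]

theorem IsCK.fam (M : Mod X T) {π : Fin (2 * M.Z.dim + 1) → Cl (M.Z.prod M.Z)}
    (h : IsCK W M.Z π) : ∃ q : Fin (2 * M.Z.dim + 1) → Cor M,
      Fam W M q Fin.val ∧ π = ofFam M q Fin.val := by
  choose q hq hv using fun j => exists_vv M (h.mem j)
  refine ⟨q, ⟨hq, ⟨OrthogonalIdempotents.iff_mul_eq.2 fun i j => Cor.vv_inj M ?_,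
    Cor.vv_inj M ?_⟩, fun c => Nat.lt_succ_iff.1 c.2, fun c x => ?_⟩,
    funext fun j => by rw [ofFam_val, hv]⟩
  · rw [Cor.vv_mul, hv, hv, h.orth]
    split_ifs
    · exact (hv i).symm
    · exact (map_zero _).symm
  · rw [map_sum, Cor.vv_one, ← h.sum]
    exact Finset.sum_congr rfl fun j _ => hv j
  · induction x using Weil.ind with
    | h1 j x hx =>
      rw [Weil.rho_act, hv, h.act c j x (Weil.mem_gr.1 hx)]
      split_ifs with e
      · exact e ▸ hx
      · exact zero_mem _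
    | h2 x y hx hy =>
      rw [map_add]
      exact add_mem hx hy

theorem K0_one {R : Type*} [Ring R] {q : ι → R} (h : OrthogonalIdempotents q) (p : ι → Prop)
    [DecidablePred p] (a : ι) : q a * ∑ c with p c, q c = if p a then q a else 0 := by
  split_ifs with e
  · exact h.mul_sum_of_mem (Finset.mem_filter.2 ⟨Finset.mem_univ _, e⟩)
  · exact h.mul_sum_of_notMem fun e' => e (Finset.mem_filter.1 e').2

theorem K0_fib {R : Type*} [AddCommMonoid R] (q : ι → R) {n : ι → ℕ} {N : ℕ} (h : ∀ c, n c ≤ N)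
    (s : ℕ → Prop) [DecidablePred s] :
    ∑ j : Fin (N + 1) with s j.val, ∑ c with n c = j.val, q c = ∑ c with s (n c), q c := by
  have := Finset.sum_fiberwise_eq_sum_filter Finset.univ
    (Finset.univ.filter fun j : Fin (N + 1) => s j)
    (fun c => (⟨n c, Nat.lt_succ_iff.2 (h c)⟩ : Fin (N + 1))) q
  simpa only [Fin.ext_iff, Finset.mem_filter, Finset.mem_univ, true_and] using this

theorem K0_inj (X : SV k P) : Injective (CR.val X) := fun _ _ => CR.ext

variable {q : ι → Cor M} {n : ι → ℕ}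

theorem Fam.isCK (h : Fam W M q n) : IsCK W M.Z (ofFam M q n) := by
  refine ⟨fun j => (Cor.mem_R0' M).1 (sum_mem fun c _ => h.mem c), fun i j => ?_, ?_,
    fun i j x hx => ?_⟩
  · unfold ofFam
    rw [← Cor.vv_mul, Finset.sum_mul]
    simp only [K0_one h.coi.toOrthogonalIdempotents]
    split_ifs with e
    · subst e
      exact congrArg _ (Finset.sum_congr rfl fun c hc => if_pos (Finset.mem_filter.1 hc).2)
    · rw [Finset.sum_eq_zero fun c hc => if_neg fun e' =>
        e (Fin.ext ((Finset.mem_filter.1 hc).2.symm.trans e')), map_zero]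
  · unfold ofFam
    have := K0_fib q h.le fun _ => True
    simp only [Finset.filter_true] at this
    rw [← map_sum, this, h.coi.complete, Cor.vv_one]
  · unfold ofFam
    have hx' := Weil.mem_gr.2 hx
    rw [← Weil.rho_act, map_sum, LinearMap.sum_apply]
    split_ifs with e
    · refine Eq.trans ?_ (h.sum_rho x)
      exact Finset.sum_subset (Finset.subset_univ _) fun c _ hc => h.kill c hx' fun e' =>
        hc (Finset.mem_filter.2 ⟨Finset.mem_univ _, e'.symm.trans e.symm⟩)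
    · exact Finset.sum_eq_zero fun c hc => h.kill c hx' fun e' =>
        e ((Finset.mem_filter.1 hc).2.symm.trans e'.symm)

theorem Fam.fil_eq (h : Fam W M q n) (i : ℕ) (m : ℤ) :
    Fil M.Z i m (ofFam M q n) = CR.val M.Z '' KS M q n i fun j => 2 * i - m < (j : ℤ) := by
  have e : ∑ j : Fin (2 * M.Z.dim + 1) with (j.val : ℤ) ≤ 2 * i - m, ofFam M q n j =
      Cor.vv M (∑ c with (n c : ℤ) ≤ 2 * i - m, q c) := by
    unfold ofFam
    rw [← map_sum, K0_fib q h.le fun j => (j : ℤ) ≤ 2 * i - m]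
  unfold Fil
  rw [e]
  ext z
  constructor
  · rintro ⟨y, hy, rfl⟩
    obtain ⟨y, hy', rfl⟩ := exists_val hy
    refine ⟨_, ⟨Cor.tau_gr M (sum_mem fun c _ => h.mem c) hy', fun c hc => ?_⟩,
      Cor.val_tau M _ y⟩
    rw [← Module.End.mul_apply, ← map_mul, K0_one h.coi.toOrthogonalIdempotents,
      if_neg (not_le.2 hc), map_zero, LinearMap.zero_apply]
  · rintro ⟨y, ⟨hy, hy'⟩, rfl⟩
    refine ⟨_, hy, ?_⟩
    rw [← Cor.val_tau, map_sum, LinearMap.sum_apply]
    refine congrArg _ (Eq.trans ?_ (h.sum_tau y))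
    exact Finset.sum_subset (Finset.subset_univ _) fun c _ hc => hy' c
      (not_le.1 fun e' => hc (Finset.mem_filter.2 ⟨Finset.mem_univ _, e'⟩))

theorem Fam.ker_eq (h : Fam W M q n) (i m : ℕ) :
    Ker M.Z i m (ofFam M q n) = CR.val M.Z '' KS M q n i fun j => 2 * i < j + m ∧ j ≤ 2 * i := by
  ext z
  constructor
  · rintro ⟨hz, hz'⟩
    obtain ⟨y, hy, rfl⟩ := exists_val hz
    refine ⟨y, ⟨hy, fun c hc => ?_⟩, rfl⟩
    have h1 := hz' ⟨n c, Nat.lt_succ_iff.2 (h.le c)⟩ hc.1 hc.2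
    unfold ofFam at h1
    rw [← Cor.val_tau, map_eq_zero_iff _ (K0_inj _)] at h1
    have h2 := K0_one h.coi.toOrthogonalIdempotents (fun c' => n c' = n c) c
    rw [if_pos rfl] at h2
    rw [← h2, map_mul, Module.End.mul_apply, h1, map_zero]
  · rintro ⟨y, ⟨hy, hy'⟩, rfl⟩
    refine ⟨hy, fun j h1 h2 => ?_⟩
    unfold ofFam
    rw [← Cor.val_tau, map_sum, LinearMap.sum_apply, Finset.sum_eq_zero, map_zero]
    intro c hc
    have e := (Finset.mem_filter.1 hc).2
    exact hy' c ⟨e ▸ h1, e ▸ h2⟩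

theorem K0_IS (M : Mod X T) (i : ℕ) (s : ℕ → Prop)
    (F : (Fin (2 * M.Z.dim + 1) → Cl (M.Z.prod M.Z)) → Set (Cl M.Z))
    (hF : ∀ (ι : Type) [Fintype ι] (q : ι → Cor M) (n : ι → ℕ), Fam W M q n →
      F (ofFam M q n) = CR.val M.Z '' KS M q n i s) : Indep W M.Z F ↔ IS W M i s := by
  constructor
  · intro H ι ι' _ _ q n q' n' h h'
    have := H _ _ h.isCK h'.isCK
    rw [hF _ _ _ h, hF _ _ _ h'] at this
    exact ((Set.image_injective.2 (K0_inj _)) this).subset
  · intro H π π' h h'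
    obtain ⟨q, hq, rfl⟩ := h.fam M
    obtain ⟨q', hq', rfl⟩ := h'.fam M
    rw [hF _ _ _ hq, hF _ _ _ hq', (H _ _ _ _ _ _ hq hq').antisymm (H _ _ _ _ _ _ hq' hq)]

theorem IS_fil (M : Mod X T) (i : ℕ) (m : ℤ) :
    Indep W M.Z (Fil M.Z i m) ↔ IS W M i fun j => 2 * i - m < (j : ℤ) := by
  exact K0_IS M i _ _ fun _ _ _ _ h => h.fil_eq i m

theorem IS_ker (M : Mod X T) (i m : ℕ) :
    Indep W M.Z (Ker M.Z i m) ↔ IS W M i fun j => 2 * i < j + m ∧ j ≤ 2 * i := by
  exact K0_IS M i _ _ fun _ _ _ _ h => h.ker_eq i m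

end Pool.Agent.Work.MP_10f4af_ag
end

-- merged part: Pool.Agent.Work.MP_10f4af_ag.K2
section
/-!
# Independence of the first step implies independence

Plan.  `bplus`: if `dim < i` use `CR.gr_gt`.  Otherwise take `v`, `w` from `exists_dgr_ne`, put
`e = ∑ c with n c = 2 i, q c` and `g = q a * xx v z * e`.  Then `g * g = 0`, `rho g = 0`
(`rho_xx`, `Fam.kill`, `clR_gr`), `tau e w` lies in `KS q`, so `tau ((1 + g) * e) w` lies in `KS`
of the conjugate family (`Fam.conj`), hence in `KS q`; apply `q a`: `tau g w = 0`, and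
`tau g w = dgr (v * tau e w) • tau (q a) z` (`Mod.tau_xx`) with
`dgr (v * tau e w) = dgr (v * w)` by `cast_dgr`, `clR_tau`, `Fam.sum_rho`, `Fam.kill`.
`cross`: `BP` for the family `Fam.sq` and the class `un 1`, `Cor.lieb`.
`ks_eq`: `Fam.sum_tau`, `cross` in both directions.
`H1`: `1 → 2` trivial, `2 → 3` `bplus`, `3 → 4` `ks_eq` (apply item 3 to `X.prod X`, which is
`((Mod.one X).prod (Mod.one X)).Z` by `rfl`, and to `Fam.isCK`), `4 → 1`: for `m ≥ 0` both sides
are `Ker X i m π`; for `m < 0` item 4 with `m = 0` gives `BP`, so both sides are `CH X i`.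
-/

open Function Function.Embedding

namespace Pool.Agent.Work.MP_10f4af_ag

open MP_ffcd14_ag (Amb)

universe u v w

variable {k : Type u} [Field k] [IsAlgClosed k] {K : Type v} [Field K] {P : Amb}
  (W : Weil.{u, v, w} k K) {X : SV k P} {T : Type} (M : Mod X T) {ι ι' : Type} [Fintype ι]
  [Fintype ι']

/-- The projectors of degree `> 2 i` kill the classes of codimension `i`. -/
def BP (i : ℕ) : Prop :=
  ∀ (ι : Type) [Fintype ι] (q : ι → Cor M) (n : ι → ℕ), Fam W M q n →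
    ∀ c, 2 * i < n c → ∀ z ∈ CR.gr M.Z i, Cor.tau M (q c) z = 0

omit [IsAlgClosed k] in
theorem K2_in {R : Type*} [Ring R] {q : ι → R} (h : CompleteOrthogonalIdempotents q)
    {s : Finset ι} {c : ι} (hc : c ∈ s) : q c * ∑ c' ∈ s, q c' = q c := by
  rw [Finset.mul_sum, Finset.sum_eq_single_of_mem c hc fun b _ hb => h.ortho hb.symm]
  exact (h.idem c).eq

omit [IsAlgClosed k] in
theorem K2_out {R : Type*} [Ring R] {q : ι → R} (h : CompleteOrthogonalIdempotents q)
    {s : Finset ι} {c : ι} (hc : c ∉ s) :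
    q c * ∑ c' ∈ s, q c' = 0 ∧ (∑ c' ∈ s, q c') * q c = 0 := by
  constructor
  · rw [Finset.mul_sum]
    exact Finset.sum_eq_zero fun b hb => h.ortho fun e => hc (e ▸ hb)
  · rw [Finset.sum_mul]
    exact Finset.sum_eq_zero fun b hb => h.ortho fun e => hc (e ▸ hb)

omit [IsAlgClosed k] in
theorem K2_idem {R : Type*} [Ring R] {q : ι → R} (h : CompleteOrthogonalIdempotents q)
    (s : Finset ι) : (∑ c' ∈ s, q c') * ∑ c' ∈ s, q c' = ∑ c' ∈ s, q c' := by
  rw [Finset.sum_mul]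
  exact Finset.sum_congr rfl fun c hc => K2_in h hc

theorem K2_tau_mul (β α : Cor M) (z : CR M.Z) :
    Cor.tau M (β * α) z = Cor.tau M β (Cor.tau M α z) := by
  rw [map_mul]
  rfl

theorem K2_rho_mul (β α : Cor M) (x : W.H M.Z) :
    W.rho M (β * α) x = W.rho M β (W.rho M α x) := by
  rw [RingHom.map_mul]
  rfl

theorem BP_iff (i : ℕ) : BP W M i ↔ ∀ π, IsCK W M.Z π → ∀ j : Fin (2 * M.Z.dim + 1),
    2 * i < j.val → ∀ z ∈ CH M.Z i, act M.Z (π j) z = 0 := by
  constructor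
  · intro h π hπ j hj z hz
    obtain ⟨q, hq, rfl⟩ := hπ.fam M
    obtain ⟨y, hy, rfl⟩ := exists_val hz
    rw [ofFam_val, ← Cor.val_tau, h _ q _ hq j hj y hy, map_zero]
  · intro h ι _ q n hq c hc z hz
    have h1 := h _ hq.isCK ⟨n c, Nat.lt_succ_of_le (hq.le c)⟩ hc _ hz
    rw [ofFam, ← Cor.val_tau] at h1
    have h2 : Cor.tau M (∑ c' with n c' = n c, q c') z = 0 :=
      CR.ext (h1.trans (map_zero _).symm)
    rw [← K2_in hq.coi (s := Finset.univ.filter fun c' => n c' = n c) (by simp), K2_tau_mul, h2,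
      map_zero]

variable {W M} {q : ι → Cor M} {n : ι → ℕ} {q' : ι' → Cor M} {n' : ι' → ℕ}

theorem K2_fix (hq : Fam W M q n) {j : ℕ} {x : W.H M.Z} (hx : x ∈ W.gr M.Z j) :
    W.rho M (∑ c with n c = j, q c) x = x := by
  rw [map_sum, LinearMap.sum_apply, Finset.sum_filter_of_ne, hq.sum_rho]
  intro c _ hc
  by_contra e
  exact hc (hq.kill c hx fun e' => e e'.symm)

theorem bplus [CharZero K] {i : ℕ} (h : IS W M i fun j => 2 * i - 0 < (j : ℤ)) : BP W M i := by
  intro ι _ q n hq a ha z hz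
  rcases lt_or_ge M.Z.dim i with hi | hi
  · rw [CR.gr_gt hi hz, map_zero]
  obtain ⟨v, hv, w, hw, hvw⟩ := W.exists_dgr_ne M (Nat.add_sub_cancel' hi)
  have hout : ∀ c, 2 * i < n c → c ∉ Finset.univ.filter fun c => n c = 2 * i := by
    intro c hc
    simp only [Finset.mem_filter, Finset.mem_univ, true_and]
    omega
  have hfix := K2_fix hq (W.clR_gr hw)
  have hee := K2_idem hq.coi (Finset.univ.filter fun c => n c = 2 * i)
  have hce := fun c hc => K2_out hq.coi (hout c hc)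
  have he : (∑ c with n c = 2 * i, q c) ∈ Cor.R0 M := sum_mem fun c _ => hq.mem c
  generalize (∑ c with n c = 2 * i, q c) = e at hfix hee hce he
  have hx : Cor.xx M v z ∈ Cor.R0 M := Cor.xx_mem M hv hz (Nat.sub_add_cancel hi)
  have hρ : W.rho M (q a * Cor.xx M v z * e) = 0 := by
    ext y
    rw [K2_rho_mul, K2_rho_mul, W.rho_xx, map_smul, hq.kill a (W.clR_gr hz) ha.ne, smul_zero]
    rfl
  have hτ : Cor.tau M (q a * Cor.xx M v z * e) w =
      M.dgr (v * Cor.tau M e w) • Cor.tau M (q a) z := by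
    rw [K2_tau_mul, K2_tau_mul, Mod.tau_xx, map_smul]
  have hd : M.dgr (v * Cor.tau M e w) = M.dgr (v * w) := by
    apply Rat.cast_injective (α := K)
    rw [W.cast_dgr, W.cast_dgr, RingHom.map_mul, RingHom.map_mul, W.clR_tau, hfix]
  have hg : q a * Cor.xx M v z * e ∈ Cor.R0 M := mul_mem (mul_mem (hq.mem a) hx) he
  have hgg : (q a * Cor.xx M v z * e) * (q a * Cor.xx M v z * e) = 0 := by
    rw [show (q a * Cor.xx M v z * e) * (q a * Cor.xx M v z * e) =
      q a * Cor.xx M v z * (e * q a) * Cor.xx M v z * e by simp only [mul_assoc],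
      (hce a ha).2, mul_zero, zero_mul, zero_mul]
  have hag : q a * ((1 + q a * Cor.xx M v z * e) * e) = q a * Cor.xx M v z * e := by
    rw [add_mul, one_mul, mul_add, (hce a ha).1, zero_add, mul_assoc _ e, hee, ← mul_assoc,
      ← mul_assoc, (hq.coi.idem a).eq]
  generalize q a * Cor.xx M v z * e = g at hρ hτ hg hgg hag
  have h1 : Cor.tau M ((1 + g) * e) w ∈ KS M (fun c => (1 + g) * q c * (1 - g)) n i
      fun j => 2 * i - 0 < (j : ℤ) := by
    refine ⟨Cor.tau_gr M (mul_mem (add_mem (one_mem _) hg) he) hw, fun c hc => ?_⟩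
    have e1 : (1 - g) * (1 + g) = 1 := by
      rw [sub_mul, one_mul, mul_add, mul_one, hgg, add_zero, add_sub_cancel_right]
    rw [← K2_tau_mul, show (1 + g) * q c * (1 - g) * ((1 + g) * e) =
      (1 + g) * (q c * (((1 - g) * (1 + g)) * e)) by simp only [mul_assoc], e1, one_mul,
      (hce c (by omega)).1, mul_zero, map_zero]
    rfl
  have h2 := (h _ _ _ _ _ _ (hq.conj hg hgg hρ) hq h1).2 a (by omega)
  rw [← K2_tau_mul, hag, hτ, hd] at h2
  exact (smul_eq_zero.1 h2).resolve_left hvw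

theorem cross (h : BP W (M.prod M) M.Z.dim) (hq : Fam W M q n) (hq' : Fam W M q' n') {a : ι}
    {b : ι'} (hab : n' b < n a) : q a * q' b = 0 := by
  have hb := hq'.le b
  have h1 := h _ _ _ (hq.sq hq') (b, a) (by dsimp only; omega) (Cor.un M 1)
    ((Cor.mem_R0 M).1 (one_mem _))
  rw [Cor.lieb, mul_one] at h1
  exact (Cor.un M).map_eq_zero_iff.1 h1

theorem K2_kill (h : BP W (M.prod M) M.Z.dim) (hq : Fam W M q n) (hq' : Fam W M q' n')
    {z : CR M.Z} {a : ι} (hz : ∀ b, n a ≤ n' b → Cor.tau M (q' b) z = 0) :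
    Cor.tau M (q a) z = 0 := by
  rw [← hq'.sum_tau z, map_sum]
  refine Finset.sum_eq_zero fun b _ => ?_
  rcases lt_or_ge (n' b) (n a) with hb | hb
  · rw [← K2_tau_mul, cross h hq hq' hb, map_zero]
    rfl
  · rw [hz b hb, map_zero]

theorem ks_eq (h : BP W (M.prod M) M.Z.dim) {i : ℕ} (h' : BP W M i) (hq : Fam W M q n)
    (hq' : Fam W M q' n') (m : ℕ) : (KS M q n i fun j => 2 * i < j + m ∧ j ≤ 2 * i) =
      KS M q' n' i fun j => 2 * i - (m : ℤ) < (j : ℤ) := by
  ext z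
  constructor
  · rintro ⟨hz, h1⟩
    refine ⟨hz, fun b hb => K2_kill h hq' hq fun c hc => ?_⟩
    rcases lt_or_ge (2 * i) (n c) with h2 | h2
    · exact h' _ q n hq c h2 z hz
    · exact h1 c ⟨by omega, h2⟩
  · rintro ⟨hz, h1⟩
    exact ⟨hz, fun c hc => K2_kill h hq hq' fun b hb => h1 b (by omega)⟩

theorem H1 [CharZero K] (W : Weil.{u, v, w} k K) (C : ∀ P : Amb, SV k P → Prop)
    (hC : ∀ (P : Amb) (X : SV k P), C P X → C (P.sum P) (X.prod X)) :
    List.TFAE [∀ (P : Amb) (X : SV k P), C P X → ∀ i m, Indep W X (Fil X i m),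
      ∀ (P : Amb) (X : SV k P), C P X → ∀ i, Indep W X (Fil X i 0),
      ∀ (P : Amb) (X : SV k P), C P X → ∀ π, IsCK W X π → ∀ (i : ℕ) (j : Fin (2 * X.dim + 1)),
        2 * i < j.val → ∀ z ∈ CH X i, act X (π j) z = 0,
      ∀ (P : Amb) (X : SV k P), C P X → ∀ π π', IsCK W X π → IsCK W X π' → ∀ i m : ℕ,
        Ker X i m π = Fil X i m π'] := by
  tfae_have 1 → 2 := fun h P X hX i => h P X hX i 0
  tfae_have 2 → 3 := fun h P X hX π hπ i =>
    (BP_iff W (Mod.one X) i).1 (bplus ((IS_fil (Mod.one X) i 0).1 (h P X hX i))) π hπ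
  tfae_have 3 → 4 := by
    intro h P X hX π π' hπ hπ' i m
    have b1 : BP W (Mod.one X) i := (BP_iff W (Mod.one X) i).2 fun π hπ => h P X hX π hπ i
    have b2 : BP W ((Mod.one X).prod (Mod.one X)) (Mod.one X).Z.dim :=
      (BP_iff W ((Mod.one X).prod (Mod.one X)) _).2 fun π hπ => h _ _ (hC P X hX) π hπ _
    obtain ⟨q, hq, rfl⟩ := IsCK.fam (Mod.one X) hπ
    obtain ⟨q', hq', rfl⟩ := IsCK.fam (Mod.one X) hπ'
    exact (hq.ker_eq i m).trans
      ((congrArg _ (ks_eq b2 b1 hq hq' m)).trans (hq'.fil_eq i m).symm)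
  tfae_have 4 → 1 := by
    intro h P X hX i m
    rcases le_or_gt 0 m with hm | hm
    · obtain ⟨m, rfl⟩ := Int.eq_ofNat_of_zero_le hm
      exact fun π π' hπ hπ' => (h P X hX π π hπ hπ i m).symm.trans (h P X hX π π' hπ hπ' i m)
    · refine (IS_fil (Mod.one X) i m).2 fun ι ι' _ _ q n q' n' _ hq' z hz => ⟨hz.1, fun c hc => ?_⟩
      have h1 := (hq'.ker_eq i 0).symm.trans
        ((h P X hX _ _ hq'.isCK hq'.isCK i 0).trans (hq'.fil_eq i (0 : ℕ)))
      obtain ⟨y, hy, e⟩ := h1.subset ⟨z, ⟨hz.1, fun c hc => by omega⟩, rfl⟩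
      rw [← CR.ext e]
      exact hy.2 c (by omega)
  tfae_finish

end Pool.Agent.Work.MP_10f4af_ag
end

-- merged part: Pool.Agent.Work.MP_10f4af_ag.A1
section
/-!
# Three lemmas of algebra

Plan.  `nil_of_tri`: `π a * p * π a` is an idempotent (insert `1 = ∑ π b` in `p = p * p`) below
`π a` killed by `ρ`, so it vanishes; then `π a * p * y * π a = 0` for all `y` (insert `1 = ∑ π b`
after `p`).  Put `x a = p * π a * p`, so `x a * y * x a = 0`, `p * x a = x a`, `∑ x a = p`.  By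
induction on a finite set `s` there is `y` with `(p - ∑ a ∈ s, x a) * y = p`: the step is
`(u - x) * (y + y * x * y) = p`.  Take `s = univ`.
`prod_perm_anti`: `ExteriorAlgebra.lift` of the linear map `(Fin N → K) → A`, `e i ↦ f i`
(the square of `∑ c i • f i` vanishes), applied to `AlternatingMap.map_perm` for
`ExteriorAlgebra.ιMulti`; or `Equiv.Perm.swap_induction_on` / adjacent transpositions.
`prod_perm_comm`: `List.Perm.prod_eq'`, `Equiv.Perm.ofFn_comp_perm`.
`alt_zero`: `MultilinearMap.alternatization` of the multilinear map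
`(MultilinearMap.mkPiAlgebraFin K N A).compLinearMap u`, `AlternatingMap.map_linearDependent`,
`LinearIndependent.fintype_card_le_finrank`.
-/

namespace Pool.Agent.Work.MP_10f4af_ag

theorem nil_of_tri {R S ι : Type*} [Ring R] [Ring S] [Fintype ι] (ρ : R →+* S) {π : ι → R}
    (hπ : CompleteOrthogonalIdempotents π)
    (hA : ∀ a b, a ≠ b → ∀ u γ, π a * u * π b * γ * π a = 0)
    (hB : ∀ a p, p * p = p → π a * p = p → p * π a = p → ρ p = 0 → p = 0)
    {p : R} (hp : p * p = p) (h0 : ρ p = 0) : p = 0 := by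
  classical
  have ins : ∀ a (y : R), π a * p * y * π a = π a * p * π a * y * π a := by
    intro a y
    have e : π a * p * y * π a = ∑ b, π a * p * π b * y * π a := by
      rw [← Finset.sum_mul, ← Finset.sum_mul, ← Finset.mul_sum, hπ.complete, mul_one]
    rw [e, Finset.sum_eq_single a (fun b _ hb => hA a b hb.symm p y) (by simp)]
  have h1 : ∀ a, π a * p * π a = 0 := by
    intro a
    have ha : π a * π a = π a := hπ.idem a
    refine hB a _ ?_ ?_ ?_ ?_
    · calc π a * p * π a * (π a * p * π a) = π a * p * (π a * π a) * p * π a := by noncomm_ring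
        _ = π a * (p * p) * π a := by rw [ha, ← ins, mul_assoc (π a) p p]
        _ = _ := by rw [hp]
    · rw [← mul_assoc, ← mul_assoc, ha]
    · rw [mul_assoc, ha]
    · rw [map_mul, map_mul, h0, mul_zero, zero_mul]
  have h2 : ∀ a (y : R), p * π a * p * y * (p * π a * p) = 0 := by
    intro a y
    calc p * π a * p * y * (p * π a * p) = p * (π a * p * (y * p) * π a) * p := by noncomm_ring
      _ = 0 := by rw [ins, h1, zero_mul, zero_mul, mul_zero, zero_mul]
  have h3 : ∀ s : Finset ι, ∃ y, (p - ∑ a ∈ s, p * π a * p) * y = p := by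
    intro s
    induction s using Finset.induction_on with
    | empty => exact ⟨1, by simp⟩
    | insert a s ha ih =>
      obtain ⟨y, hy⟩ := ih
      refine ⟨y + y * (p * π a * p) * y, ?_⟩
      rw [Finset.sum_insert ha, add_comm (p * π a * p), ← sub_sub]
      generalize p - ∑ a ∈ s, p * π a * p = u at hy
      have h4 := h2 a y
      have h5 : p * (p * π a * p) = p * π a * p := by rw [← mul_assoc, ← mul_assoc, hp]
      generalize p * π a * p = x at h4 h5
      calc (u - x) * (y + y * x * y) = u * y + u * y * x * y - x * y - x * y * x * y := by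
            noncomm_ring
        _ = p := by rw [hy, h4, h5, zero_mul, sub_zero, add_sub_cancel_right]
  obtain ⟨y, hy⟩ := h3 Finset.univ
  rw [← Finset.sum_mul, ← Finset.mul_sum, hπ.complete, mul_one, hp, sub_self, zero_mul] at hy
  exact hy.symm

variable {K A V : Type*} [Field K] [Ring A] [Algebra K A] [AddCommGroup V] [Module K V] {N : ℕ}

theorem prod_perm_anti [CharZero K] (f : Fin N → A) (h : ∀ i j, f i * f j = (-1 : K) • (f j * f i))
    (σ : Equiv.Perm (Fin N)) :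
    (List.ofFn fun t => f (σ t)).prod = Equiv.Perm.sign σ • (List.ofFn f).prod := by
  let l : (Fin N → K) →ₗ[K] A := Fintype.linearCombination K f
  have hl : ∀ v, l v * l v = 0 := by
    intro v
    have e : l v * l v = -(l v * l v) := by
      simp only [l, Fintype.linearCombination_apply, Finset.sum_mul_sum]
      conv_rhs => rw [Finset.sum_comm]
      simp only [← Finset.sum_neg_distrib]
      refine Finset.sum_congr rfl fun i _ => Finset.sum_congr rfl fun j _ => ?_
      rw [smul_mul_smul_comm, smul_mul_smul_comm, h i j, neg_one_smul, smul_neg, mul_comm (v i)]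
    have e2 : (2 : K) • (l v * l v) = 0 := by
      rw [two_smul]
      exact add_eq_zero_iff_eq_neg.2 e
    exact (smul_eq_zero.1 e2).resolve_left two_ne_zero
  have k := congrArg (ExteriorAlgebra.lift K ⟨l, hl⟩)
    ((ExteriorAlgebra.ιMulti K N).map_perm (fun i : Fin N => (Pi.single i 1 : Fin N → K)) σ)
  rw [Units.smul_def, map_zsmul, ExteriorAlgebra.ιMulti_apply, ExteriorAlgebra.ιMulti_apply,
    map_list_prod, map_list_prod, List.map_ofFn, List.map_ofFn] at k
  rw [Units.smul_def]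
  simpa [Function.comp_def, l] using k

theorem prod_perm_comm (f : Fin N → A) (h : ∀ i j, Commute (f i) (f j)) (σ : Equiv.Perm (Fin N)) :
    (List.ofFn fun t => f (σ t)).prod = (List.ofFn f).prod := by
  refine List.Perm.prod_eq' (Equiv.Perm.ofFn_comp_perm σ f) ?_
  rw [List.pairwise_ofFn]
  exact fun i j _ => h _ _

theorem alt_zero [Module.Finite K V] (h : Module.finrank K V < N) (u : Fin N → V →ₗ[K] A)
    (y : Fin N → V) :
    ∑ σ : Equiv.Perm (Fin N), Equiv.Perm.sign σ • (List.ofFn fun t => u t (y (σ t))).prod = 0 := by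
  have k := AlternatingMap.map_linearDependent
    (MultilinearMap.alternatization ((MultilinearMap.mkPiAlgebraFin K N A).compLinearMap u)) y
    (fun hy => by
      have := hy.fintype_card_le_finrank
      rw [Fintype.card_fin] at this
      omega)
  rw [MultilinearMap.alternatization_apply] at k
  simpa using k

end Pool.Agent.Work.MP_10f4af_ag
end

-- merged part: Pool.Agent.Work.MP_10f4af_ag.K4
section
/-!
# No phantom projectors

Plan.  `tri`: put `g = q a * u * q b`, so `g * g = 0`, `rho g = 0` (`Fam.rho_cross`), and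
`q' c = (1 + g) * q c * (1 - g)` (`Fam.conj`); compare the families `Fam.sq` for `(q, q)` and
`(q', q)` with `Fam.mem_sq`.  Second case: `γ' = q b * γ * q a` is in `KS` for `(q, q)`, and
`q' a * γ' * q a = - g * γ'`.  First case, `n b < n a`: `q b` is in `KS` for `(q, q)` and
`q' a * q b * q b = - g`, so `q a * u * q b = 0`; if `n a < n b` exchange the roles to get
`q b * γ * q a = 0`.
`below`: if the dimension is `0`, `rho_inj0`.  Otherwise `Fam.split`, then the member
`t2 (rx sw p) p` of `Fam.sq` is killed by `rho` (`rho_t2_zero`); `IS.phantom` with the degrees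
`2 d + 1` and `2 d` in the suitable order, `Cor.lieb` with `γ = 1`.
`nophantom`: `nil_of_tri` in the ring `Cor.R0 M`.  `H4`: dictionary K0 with `M = Mod.one X`
(`X.prod X` is `((Mod.one X).prod (Mod.one X)).Z` by `rfl`).
-/

open Function Function.Embedding

namespace Pool.Agent.Work.MP_10f4af_ag

open MP_ffcd14_ag (Amb)

universe u v w

variable {k : Type u} [Field k] [IsAlgClosed k] {K : Type v} [Field K] {P : Amb}
  (W : Weil.{u, v, w} k K) {X : SV k P} {T : Type} (M : Mod X T) {ι : Type} [Fintype ι]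

/-- The hypothesis on the square. -/
def Hyp : Prop :=
  (IS W (M.prod M) M.Z.dim fun j => 2 * M.Z.dim - 0 < (j : ℤ)) ∨
    IS W (M.prod M) M.Z.dim fun j => 2 * M.Z.dim < j + 1 ∧ j ≤ 2 * M.Z.dim

variable {W M} {q : ι → Cor M} {n : ι → ℕ}

theorem K4_ring {R : Type*} [Ring R] {x y : R} (hx : x * x = x) (hy : y * y = y) (hxy : x * y = 0)
    (hyx : y * x = 0) (u : R) : x * u * y * (x * u * y) = 0 ∧
      (1 + x * u * y) * x * (1 - x * u * y) * y = -(x * u * y) := by
  have h1 : x * u * y * x = 0 := by rw [mul_assoc, hyx, mul_zero]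
  refine ⟨by rw [mul_assoc x u y, ← mul_assoc, ← mul_assoc x u y, h1, zero_mul], ?_⟩
  rw [add_mul, one_mul, h1, add_zero, mul_sub, mul_one, sub_mul, hxy, zero_sub, ← mul_assoc,
    ← mul_assoc, hx, mul_assoc _ y y, hy]

theorem K4_sq {s : ℕ → Prop} (h : IS W (M.prod M) M.Z.dim s) {q' : ι → Cor M} (hq : Fam W M q n)
    (hq' : Fam W M q' n) {γ : Cor M} (hγ : γ ∈ Cor.R0 M)
    (H : ∀ c e, s (2 * M.Z.dim - n e + n c) → q c * γ * q e = 0) {c e : ι}
    (he : s (2 * M.Z.dim - n e + n c)) : q' c * γ * q e = 0 := by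
  have h1 := (Fam.mem_sq (q := q) (n := n) (q' := q) (n' := n) (s := s) (γ := γ)).2 ⟨hγ, H⟩
  have h2 := h _ _ _ _ _ _ (hq.sq hq) (hq'.sq hq) h1
  exact ((Fam.mem_sq (q := q') (n := n) (q' := q) (n' := n) (s := s) (γ := γ)).1 h2).2 c e he

theorem K4_is {s : ℕ → Prop} (h : IS W (M.prod M) M.Z.dim s) (hq : Fam W M q n) {a b : ι}
    (hab : n a ≠ n b) {u γ : Cor M} (hu : u ∈ Cor.R0 M) (hγ : γ ∈ Cor.R0 M)
    (H : ∀ c e, s (2 * M.Z.dim - n e + n c) → q c * (q b * γ) * q e = 0) {e : ι}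
    (he : s (2 * M.Z.dim - n e + n a)) : q a * u * q b * γ * q e = 0 := by
  have hne : a ≠ b := fun e => hab (congrArg n e)
  obtain ⟨h1, h2⟩ := K4_ring (hq.coi.idem a) (hq.coi.idem b) (hq.coi.ortho hne)
    (hq.coi.ortho hne.symm) u
  have hq' := hq.conj (mul_mem (mul_mem (hq.mem a) hu) (hq.mem b)) h1 (hq.rho_cross hq hab hu)
  have h3 := K4_sq h hq hq' (mul_mem (hq.mem b) hγ) H he
  rwa [← mul_assoc, h2, neg_mul, neg_mul, neg_eq_zero] at h3

theorem K4_lt (h : IS W (M.prod M) M.Z.dim fun j => 2 * M.Z.dim - 0 < (j : ℤ)) (hq : Fam W M q n)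
    {a b : ι} (hab : n b < n a) {u : Cor M} (hu : u ∈ Cor.R0 M) : q a * u * q b = 0 := by
  have h1 := K4_is h hq hab.ne' hu (one_mem _) (fun c e hce => ?_) (e := b)
    (by have := hq.le b; omega)
  · rwa [mul_one, mul_assoc, hq.coi.idem b] at h1
  · have := hq.le e
    rw [mul_one]
    by_cases hc : c = b
    · have he : b ≠ e := by
        rintro rfl
        subst hc
        omega
      rw [mul_assoc, hq.coi.ortho he, mul_zero]
    · rw [hq.coi.ortho hc, zero_mul]

theorem Hyp.tri (h : Hyp W M) (hq : Fam W M q n) {a b : ι} (hab : n a ≠ n b) {u γ : Cor M}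
    (hu : u ∈ Cor.R0 M) (hγ : γ ∈ Cor.R0 M) : q a * u * q b * γ * q a = 0 := by
  rcases h with h | h
  · rcases lt_or_gt_of_ne hab with hl | hl
    · rw [mul_assoc, mul_assoc, ← mul_assoc (q b), K4_lt h hq hl hγ, mul_zero]
    · rw [K4_lt h hq hl hu, zero_mul, zero_mul]
  · have h1 := K4_is h hq hab hu (mul_mem hγ (hq.mem a)) (fun c e hce => ?_) (e := a)
      (by have := hq.le a; omega)
    · rwa [mul_assoc, mul_assoc γ, hq.coi.idem a, ← mul_assoc] at h1
    · have := hq.le e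
      by_cases hc : c = b
      · have he : a ≠ e := by
          rintro rfl
          subst hc
          omega
        rw [mul_assoc, mul_assoc, mul_assoc, hq.coi.ortho he, mul_zero, mul_zero, mul_zero]
      · rw [← mul_assoc, hq.coi.ortho hc, zero_mul, zero_mul]

theorem Hyp.below [CharZero K] (h : Hyp W M) (hq : Fam W M q n) (a : ι) {p : Cor M}
    (hp : p ∈ Cor.R0 M) (hpp : p * p = p) (h1 : q a * p = p) (h2 : p * q a = p)
    (h0 : W.rho M p = 0) : p = 0 := by
  classical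
  rcases Nat.eq_zero_or_pos M.Z.dim with hd | hd
  · exact W.rho_inj0 M hd hp h0
  have hQ := hq.split a hp hpp h1 h2
  have e1 : 2 * M.Z.dim + 1 ≤ 2 * (M.prod M).Z.dim := by rw [Mod.prod_dim']; omega
  have e2 : 2 * M.Z.dim ≤ 2 * (M.prod M).Z.dim := (Nat.le_succ _).trans e1
  have e3 : W.rho (M.prod M) (Cor.t2 M (Cor.rx M (Cor.sw T) p) p) = 0 := W.rho_t2_zero M h0
  have e4 : Cor.un M 1 ∈ CR.gr (M.prod M).Z M.Z.dim := (Cor.mem_R0 M).1 (one_mem _)
  have e5 : Cor.tau (M.prod M) (Cor.t2 M (Cor.rx M (Cor.sw T) p) p) (Cor.un M 1) = 0 := by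
    rcases h with h | h
    · exact h.phantom e1 e2 (by omega) (by omega) (hQ.sq hQ) (c := (none, none)) e3 e4
    · exact h.phantom e2 e1 (by omega) (by omega) (hQ.sq hQ) (c := (none, none)) e3 e4
  rw [Cor.lieb, mul_one, hpp] at e5
  exact (Cor.un M).map_eq_zero_iff.1 e5

theorem Hyp.nophantom [CharZero K] (h : Hyp W M) (hq : Fam W M q n) (hn : Injective n) {p : Cor M}
    (hp : p ∈ Cor.R0 M) (hpp : p * p = p) (h0 : W.rho M p = 0) : p = 0 := by
  have hπ : CompleteOrthogonalIdempotents fun a => (⟨q a, hq.mem a⟩ : Cor.R0 M) :=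
    ⟨⟨fun a => Subtype.ext (hq.coi.idem a), fun a b hab => Subtype.ext (hq.coi.ortho hab)⟩,
      Subtype.ext ((map_sum (Cor.R0 M).val _ _).trans hq.coi.complete)⟩
  exact congrArg Subtype.val (nil_of_tri ((W.rho M).comp (Cor.R0 M).val.toRingHom) hπ
    (fun a b hab u γ => Subtype.ext (h.tri hq (hn.ne hab) u.2 γ.2))
    (fun a r h1 h2 h3 h4 => Subtype.ext (h.below hq a r.2 (congrArg Subtype.val h1)
      (congrArg Subtype.val h2) (congrArg Subtype.val h3) h4))
    (p := ⟨p, hp⟩) (Subtype.ext hpp) h0)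

theorem H4' [CharZero K] {π : Fin (2 * M.Z.dim + 1) → Cl (M.Z.prod M.Z)} (hπ : IsCK W M.Z π)
    (h : Indep W _ (Fil (M.Z.prod M.Z) M.Z.dim 0) ∨ Indep W _ (Ker (M.Z.prod M.Z) M.Z.dim 1))
    {p : Cor M} (hp : p ∈ Cor.R0 M) (hpp : p * p = p) (h0 : W.rho M p = 0) : p = 0 := by
  obtain ⟨q, hq, -⟩ := hπ.fam M
  exact Hyp.nophantom (h.imp (IS_fil (M.prod M) M.Z.dim 0).1 (IS_ker (M.prod M) M.Z.dim 1).1) hq
    Fin.val_injective hp hpp h0

theorem H4 [CharZero K] (W : Weil.{u, v, w} k K) (X : SV k P)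
    (π : Fin (2 * X.dim + 1) → Cl (X.prod X)) (hπ : IsCK W X π)
    (h : Indep W _ (Fil (X.prod X) X.dim 0) ∨ Indep W _ (Ker (X.prod X) X.dim 1))
    (p : Cl (X.prod X)) (hp : p ∈ CH (X.prod X) X.dim) (hpp : comp X p p = p)
    (h0 : ∀ x, W.act X p x = 0) : p = 0 := by
  obtain ⟨α, hα, rfl⟩ := exists_vv (Mod.one X) hp
  have e : α = 0 := H4' (M := Mod.one X) hπ h hα
    (Cor.vv_inj _ ((Cor.vv_mul _ α α).trans hpp))
    (LinearMap.ext fun x => (W.rho_act _ α x).trans (h0 x))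
  rw [e]
  exact map_zero _

end Pool.Agent.Work.MP_10f4af_ag
end

-- merged part: Pool.Agent.Work.MP_10f4af_ag.K6
section
/-! # The characterisation of independence -/

open Function Function.Embedding

namespace Pool.Agent.Work.MP_10f4af_ag

open MP_ffcd14_ag (Amb)

universe u v w

variable {k : Type u} [Field k] [IsAlgClosed k] {K : Type v} [Field K] {P : Amb}
  {W : Weil.{u, v, w} k K} {X : SV k P} {T : Type} {M : Mod X T} {ι ι' : Type} [Fintype ι]
  [Fintype ι'] {q : ι → Cor M} {n : ι → ℕ} {q' : ι' → Cor M} {n' : ι' → ℕ}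

theorem tri_of_BP (h : BP W (M.prod M) M.Z.dim) (hq : Fam W M q n) (hq' : Fam W M q' n') {a : ι}
    {b : ι'} (hab : n' b < n a) {γ : Cor M} (hγ : γ ∈ Cor.R0 M) : q a * γ * q' b = 0 := by
  have h1 := h _ _ _ (hq.sq hq') (b, a) (by have := hq'.le b; dsimp only; omega) (Cor.un M γ) hγ
  rw [Cor.lieb] at h1
  exact (Cor.un M).map_eq_zero_iff.1 h1

theorem ks_of_cross (hq : Fam W M q n) (h : ∀ a b, n a < n' b → q' b * q a = 0) (i : ℕ) (r : ℤ) :
    (KS M q n i fun j => r < (j : ℤ)) ⊆ KS M q' n' i fun j => r < (j : ℤ) := by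
  refine fun z hz => ⟨hz.1, fun b hb => ?_⟩
  rw [← hq.sum_tau z, map_sum]
  refine Finset.sum_eq_zero fun a _ => ?_
  by_cases ha : r < n a
  · rw [hz.2 a ha, map_zero]
  · rw [← Module.End.mul_apply, ← map_mul, h a b (by omega), map_zero, LinearMap.zero_apply]

theorem cross_of_tri (hq : Fam W M q n) (hq' : Fam W M q' n')
    (ht : ∀ a b, n b < n a → ∀ γ ∈ Cor.R0 M, q a * γ * q b = 0)
    (hp : ∀ p ∈ Cor.R0 M, p * p = p → W.rho M p = 0 → p = 0) (c : ι') :
    (∀ a, n' c < n a → q a * q' c = 0) ∧ ∀ a, n a < n' c → q' c * q a = 0 := by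
  classical
  have key : ∀ (s t : ι → Prop) [DecidablePred s] [DecidablePred t],
      (∀ a b, s a → t b → n b < n a) → (∑ a with s a, q a) * q' c * ∑ b with t b, q b = 0 := by
    intro s t _ _ h
    simp only [Finset.sum_mul, Finset.mul_sum]
    exact Finset.sum_eq_zero fun b hb => Finset.sum_eq_zero fun a ha =>
      ht a b (h a b (Finset.mem_filter.1 ha).2 (Finset.mem_filter.1 hb).2) _ (hq'.mem c)
  have tot : ∀ (s : ι → Prop) [DecidablePred s],
      ∑ a with ¬ s a, q a = 1 - ∑ a with s a, q a := fun s _ => by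
    rw [← hq.coi.complete, ← Finset.sum_filter_add_sum_filter_not Finset.univ s, add_sub_cancel_left]
  have one : ∀ (s : ι → Prop) [DecidablePred s] (a : ι), s a →
      q a * ∑ a with s a, q a = q a ∧ (∑ a with s a, q a) * q a = q a := fun s _ a ha =>
    ⟨hq.coi.toOrthogonalIdempotents.mul_sum_of_mem (by simpa),
      by
        rw [Finset.sum_mul, Finset.sum_eq_single a (fun b _ h => hq.coi.ortho h)
          fun h => (h (by simpa)).elim, (hq.coi.idem a).eq]⟩
  have mem : ∀ s : Finset ι, ∑ a ∈ s, q a ∈ Cor.R0 M := fun s => sum_mem fun a _ => hq.mem a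
  have hc := (hq'.coi.idem c).eq
  constructor
  · intro a ha
    have h1 := key (fun a => n' c < n a) (fun a => ¬ n' c < n a) fun a b ha hb => by omega
    rw [tot, mul_sub, mul_one, sub_eq_zero] at h1
    have h2 := hp _ (mul_mem (mem (Finset.univ.filter fun a => n' c < n a)) (hq'.mem c))
      (by rw [← mul_assoc, ← h1, mul_assoc, hc]) (by
        rw [Finset.sum_mul, map_sum]
        exact Finset.sum_eq_zero fun b hb => by
          simpa using hq.rho_cross hq' (Finset.mem_filter.1 hb).2.ne' (one_mem _))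
    rw [← (one (fun a => n' c < n a) a ha).1, mul_assoc, h2, mul_zero]
  · intro a ha
    have h1 := key (fun a => ¬ n a < n' c) (fun a => n a < n' c) fun a b ha hb => by omega
    rw [tot, sub_mul, sub_mul, one_mul, sub_eq_zero] at h1
    have h2 := hp _ (mul_mem (hq'.mem c) (mem (Finset.univ.filter fun a => n a < n' c)))
      (by rw [mul_assoc, ← mul_assoc _ (q' c), ← h1, ← mul_assoc, hc]) (by
        rw [Finset.mul_sum, map_sum]
        exact Finset.sum_eq_zero fun b hb => by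
          simpa using hq'.rho_cross hq (Finset.mem_filter.1 hb).2.ne' (one_mem _))
    rw [← (one (fun a => n a < n' c) a ha).2, ← mul_assoc, h2, zero_mul]

theorem IS_of_tri (hq : Fam W M q n) (ht : ∀ a b, n b < n a → ∀ γ ∈ Cor.R0 M, q a * γ * q b = 0)
    (hp : ∀ p ∈ Cor.R0 M, p * p = p → W.rho M p = 0 → p = 0) (i : ℕ) (r : ℤ) :
    IS W M i fun j => r < (j : ℤ) := fun _ _ _ _ _ _ _ _ h1 h2 =>
  (ks_of_cross h1 (fun c a h => (cross_of_tri hq h1 ht hp c).1 a h) i r).trans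
    (ks_of_cross hq (fun a c h => (cross_of_tri hq h2 ht hp c).2 a h) i r)

variable [CharZero K]

theorem indep_of_sq (h : Indep W _ (Fil (X.prod X) X.dim 0)) (i : ℕ) (m : ℤ) :
    Indep W X (Fil X i m) :=
  (IS_fil (Mod.one X) i m).2 fun _ _ _ _ _ _ _ _ h1 h2 => ks_of_cross h1 (fun _ _ h' =>
    cross (bplus ((IS_fil ((Mod.one X).prod (Mod.one X)) _ _).1 h)) h2 h1 h') i _

theorem tri_of_sq (h : Indep W _ (Fil (X.prod X) X.dim 0))
    {π : Fin (2 * X.dim + 1) → Cl (X.prod X)} (hπ : IsCK W X π) (a b : Fin (2 * X.dim + 1))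
    (hab : b < a) (γ : Cl (X.prod X)) (hγ : γ ∈ CH (X.prod X) X.dim) :
    comp X (π a) (comp X γ (π b)) = 0 := by
  obtain ⟨q, hq, rfl⟩ := hπ.fam (Mod.one X)
  obtain ⟨γ, hγ', rfl⟩ := exists_vv (Mod.one X) hγ
  have h1 := congrArg (Cor.vv _) (tri_of_BP
    (bplus ((IS_fil ((Mod.one X).prod (Mod.one X)) _ _).1 h)) hq hq hab hγ')
  rwa [mul_assoc, Cor.vv_mul, Cor.vv_mul, map_zero, ← ofFam_val, ← ofFam_val] at h1

omit [CharZero K] in
theorem indep_of_tri {π : Fin (2 * X.dim + 1) → Cl (X.prod X)} (hπ : IsCK W X π)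
    (ht : ∀ a b, b < a → ∀ γ ∈ CH (X.prod X) X.dim, comp X (π a) (comp X γ (π b)) = 0)
    (hp : ∀ p ∈ CH (X.prod X) X.dim, comp X p p = p → (∀ x, W.act X p x = 0) → p = 0) (i : ℕ)
    (m : ℤ) : Indep W X (Fil X i m) := by
  obtain ⟨q, hq, rfl⟩ := hπ.fam (Mod.one X)
  refine (IS_fil (Mod.one X) i m).2 (IS_of_tri hq (fun a b h γ hγ => Cor.vv_inj _ ?_)
    (fun p h1 h2 h3 => Cor.vv_inj _ ?_) i _)
  · rw [mul_assoc, Cor.vv_mul, Cor.vv_mul, map_zero, ← ofFam_val, ← ofFam_val]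
    exact ht a b h _ hγ
  · rw [map_zero]
    exact hp _ h1 ((Cor.vv_mul _ p p).symm.trans (congrArg _ h2)) fun x =>
      (W.rho_act _ p x).symm.trans (by rw [h3]; rfl)

theorem H5 (W : Weil.{u, v, w} k K) (C : ∀ P : Amb, SV k P → Prop)
    (hC : ∀ (P : Amb) (X : SV k P), C P X → C (P.sum P) (X.prod X)) :
    List.TFAE [∀ (P : Amb) (X : SV k P), C P X → ∀ i m, Indep W X (Fil X i m),
      ∀ (P : Amb) (X : SV k P), C P X → Indep W _ (Fil (X.prod X) X.dim 0),
      ∀ (P : Amb) (X : SV k P), C P X → ∀ π, IsCK W X π → ∀ (i : ℕ) (j : Fin (2 * X.dim + 1)),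
        2 * i < j.val → ∀ z ∈ CH X i, act X (π j) z = 0,
      ∀ (P : Amb) (X : SV k P), C P X → ∀ π π', IsCK W X π → IsCK W X π' → ∀ i m : ℕ,
        Ker X i m π = Fil X i m π',
      ∀ (P : Amb) (X : SV k P), C P X → (∃ π, IsCK W X π) →
        (∃ π, IsCK W X π ∧ ∀ a b, b < a → ∀ γ ∈ CH (X.prod X) X.dim,
          comp X (π a) (comp X γ (π b)) = 0) ∧
        ∀ p ∈ CH (X.prod X) X.dim, comp X p p = p → (∀ x, W.act X p x = 0) → p = 0] := by
  have h := H1 W C hC
  tfae_have 1 ↔ 3 := h.out 0 2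
  tfae_have 1 ↔ 4 := h.out 0 3
  tfae_have 1 → 2 := fun h P X hX => h _ _ (hC P X hX) _ _
  tfae_have 2 → 1 := fun h P X hX => indep_of_sq (h P X hX)
  tfae_have 2 → 5 := fun h P X hX ⟨π, hπ⟩ =>
    ⟨⟨π, hπ, tri_of_sq (h P X hX) hπ⟩, H4 W X π hπ (Or.inl (h P X hX))⟩
  tfae_have 5 → 1 := fun h P X hX i m π π' h1 h2 => by
    obtain ⟨⟨π₀, h3, h4⟩, h5⟩ := h P X hX ⟨π, h1⟩
    exact indep_of_tri h3 h4 h5 i m π π' h1 h2
  tfae_finish

end Pool.Agent.Work.MP_10f4af_ag
end
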