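import Pool.Agent.Work.MP_10f4af_ag.G1

/-!
# Degrees and push-forward

Plan.  `fld k v = IntermediateField.adjoin k (rat v)` by `rfl`.  `isGen_res`: the images of the
variables in the residue field form a generic point.  `relf_eq`: take the normalised generic
point of `exists_gen`, map it by `IsGen.lift` to rescalings (`IsGen.scale`, `rat_scale`) of `v`
and `v'`, and use `IntermediateField.relfinrank_map_map`, `adjoin_map`.  `deg_comp`:
`relfinrank_mul_relfinrank`, `Crd.isGen_img`, `Crd.Img_rat`.  `deg_ne_zero`: `rat v` is finite, so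
the extension is finite iff algebraic iff the ranks agree (`IsGen.rk_rat`, `rk_le_of_alg`,
`rk_insert`).  `deg_congr`: the minors vanish on `V` (`dI_le_iff`), so the ratios agree.
`deg_sec`: `deg_comp`, `deg_congr`, `deg_refl`.  `deg_pt`: ratios in a block of `γ` are constants.
-/

open MvPolynomial Topology TopologicalSpace Finsupp

namespace Pool.Agent.Work.MP_10f4af_ag

open MP_ffcd14_ag hiding len vl cyc pl Weil idl_hmg mem_idl idl_prime idl_le_iff

universe u

variable {k : Type u} [Field k] {P Q S S' : Amb} {L L' : Type u} [Field L] [Algebra k L]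
  [Field L'] [Algebra k L']

theorem isGen_res (V : Sub k P) : IsGen (V : Set (P.Pt k)) fun s =>
    algebraMap (MvPolynomial P.V k) (idl (V : Set (P.Pt k))).ResidueField (X s) := by
  have e : (aeval fun s => algebraMap (MvPolynomial P.V k)
      (idl (V : Set (P.Pt k))).ResidueField (X s)) =
      IsScalarTower.toAlgHom k (MvPolynomial P.V k) (idl (V : Set (P.Pt k))).ResidueField :=
    MvPolynomial.algHom_ext fun s => by rw [aeval_X]; rfl
  refine ⟨fun i => ?_, fun f a hf => ?_⟩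
  · obtain ⟨s, hs⟩ := rel_idl V i
    exact ⟨s, fun h => hs (Ideal.algebraMap_residueField_eq_zero.1 h)⟩
  · rw [e, ← mem_idl hf]
    exact Ideal.algebraMap_residueField_eq_zero

theorem G2_fld (v : P.V → L) : fld k v = IntermediateField.adjoin k (rat v) := rfl

theorem G2_map (ψ : L →ₐ[k] L') (v : P.V → L) : fld k (fun s => ψ (v s)) = (fld k v).map ψ := by
  rw [G2_fld, G2_fld, IntermediateField.adjoin_map]
  congr 1
  ext y
  constructor
  · rintro ⟨i, s, t, rfl⟩
    exact ⟨_, ⟨i, s, t, rfl⟩, map_div₀ ψ _ _⟩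
  · rintro ⟨_, ⟨i, s, t, rfl⟩, rfl⟩
    exact ⟨i, s, t, map_div₀ ψ _ _⟩

theorem G2_scale (v : P.V → L) (μ : P.ι → L) (hμ : ∀ i, μ i ≠ 0) :
    fld k (fun s => μ s.1 * v s) = fld k v := by
  rw [G2_fld, G2_fld, rat_scale v μ hμ]

theorem G2_zero {V : Set (P.Pt k)} {v : P.V → L} (h : IsGen V v) (s : P.V) :
    v s = 0 ↔ Van V (X s) := by
  rw [← h.iff _ _ (IsForm.X s), aeval_X]

theorem G2_norm (β : Crd k P S) {V : Sub k S} {v : S.V → L} {v' : S.V → L'}
    (h : IsGen (V : Set (S.Pt k)) v) (h' : IsGen (V : Set (S.Pt k)) v') {ς : ∀ i, S.σ i}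
    (hv : ∀ i, v ⟨i, ς i⟩ = 1) (ht : IntermediateField.adjoin k (Set.range v) = ⊤) :
    (fld k (v ∘ β.ε)).relfinrank (fld k v) = (fld k (v' ∘ β.ε)).relfinrank (fld k v') := by
  have hv' : ∀ i, v' ⟨i, ς i⟩ ≠ 0 := fun i h0 =>
    one_ne_zero ((hv i).symm.trans ((G2_zero h _).2 ((G2_zero h' _).1 h0)))
  have hμ : ∀ i, (v' ⟨i, ς i⟩)⁻¹ ≠ 0 := fun i => inv_ne_zero (hv' i)
  obtain ⟨ψ, hψ⟩ := h.lift (h'.scale (fun i => (v' ⟨i, ς i⟩)⁻¹) hμ) hv
    (fun i => inv_mul_cancel₀ (hv' i)) ht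
  have e1 : (fld k v).map ψ = fld k v' := by
    rw [← G2_map, ← G2_scale v' _ hμ]
    exact congrArg (fld k) (funext hψ)
  have e2 : (fld k (v ∘ β.ε)).map ψ = fld k (v' ∘ β.ε) := by
    rw [← G2_map, ← G2_scale (v' ∘ β.ε) (fun i => (v' ⟨β.ψ i, ς (β.ψ i)⟩)⁻¹) fun i => hμ _]
    refine congrArg (fld k) (funext fun s => ?_)
    rw [Function.comp_apply, hψ, Function.comp_apply, ← β.fst]
  rw [← e1, ← e2, IntermediateField.relfinrank_map_map]

theorem fld_le (β : Crd k P S) (v : S.V → L) : fld k (v ∘ β.ε) ≤ fld k v :=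
  IntermediateField.adjoin.mono k _ _ (β.Img_rat v)

theorem relf_eq (β : Crd k P S) {V : Sub k S} {v : S.V → L} {v' : S.V → L'}
    (h : IsGen (V : Set (S.Pt k)) v) (h' : IsGen (V : Set (S.Pt k)) v') :
    (fld k (v ∘ β.ε)).relfinrank (fld k v) = (fld k (v' ∘ β.ε)).relfinrank (fld k v') := by
  obtain ⟨ς, hς⟩ := Dim_chart V
  obtain ⟨L₀, _, _, w, hw, h1, ht⟩ := exists_gen V ς hς
  rw [← G2_norm β hw h h1 ht, G2_norm β hw h' h1 ht]

theorem G2_deg (ε : P.V → S.V) (p : Ideal (MvPolynomial S.V k)) [h : p.IsPrime] :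
    deg ε p = (fld k ((fun s => algebraMap (MvPolynomial S.V k) p.ResidueField (X s)) ∘ ε)).relfinrank
      (fld k fun s => algebraMap (MvPolynomial S.V k) p.ResidueField (X s)) :=
  dif_pos h

theorem deg_eq (β : Crd k P S) {V : Sub k S} {v : S.V → L} (h : IsGen (V : Set (S.Pt k)) v) :
    deg β.ε (idl (V : Set (S.Pt k))) = (fld k (v ∘ β.ε)).relfinrank (fld k v) := by
  rw [G2_deg]
  exact relf_eq β (isGen_res V) h

theorem deg_comp (β : Crd k P S) (γ : Crd k S S') (V : Sub k S') :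
    deg (β.comp γ).ε (idl (V : Set (S'.Pt k))) =
      deg β.ε (idl (γ.img V : Set (S.Pt k))) * deg γ.ε (idl (V : Set (S'.Pt k))) := by
  obtain ⟨L₀, _, _, v, hv⟩ := exists_gen' V
  rw [deg_eq _ hv, deg_eq γ hv, deg_eq β (γ.isGen_img hv),
    IntermediateField.relfinrank_mul_relfinrank (fld_le β _) (fld_le γ v)]
  rfl

theorem deg_refl (V : Sub k P) : deg id (idl (V : Set (P.Pt k))) = 1 := by
  obtain ⟨L₀, _, _, v, hv⟩ := exists_gen' V
  exact (deg_eq (Crd.refl k P) hv).trans (IntermediateField.relfinrank_self _)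

theorem G2_evX (β : Crd k P S) (z : S.Pt k) (s : P.V) : ev z (X (β.ε s)) = rp (β.pr z) s := by
  rw [β.rp_pr, ev_X]
  rfl

theorem G2_ratio (β β' : Crd k P S) {V : Sub k S} (h : ∀ z ∈ V, β.pr z = β'.pr z) {v : S.V → L}
    (hv : IsGen (V : Set (S.Pt k)) v) (i : P.ι) (s t : P.σ i) :
    v (β.ε ⟨i, s⟩) / v (β.ε ⟨i, t⟩) = v (β'.ε ⟨i, s⟩) / v (β'.ε ⟨i, t⟩) := by
  have h0 : v (β.ε ⟨i, t⟩) = 0 ↔ v (β'.ε ⟨i, t⟩) = 0 := by
    rw [G2_zero hv, G2_zero hv]
    refine forall₂_congr fun z hz => ?_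
    rw [G2_evX, G2_evX, h z hz]
  by_cases ht : v (β.ε ⟨i, t⟩) = 0
  · rw [ht, h0.1 ht, div_zero, div_zero]
  have hX : ∀ (γ : Crd k P S) (r : P.σ i),
      IsForm (X (γ.ε ⟨i, r⟩) : MvPolynomial S.V k) (single (γ.ψ i) 1) := fun γ r => by
    simpa [γ.fst] using IsForm.X (k := k) (γ.ε ⟨i, r⟩)
  have hf : IsForm (X (β.ε ⟨i, s⟩) * X (β'.ε ⟨i, t⟩) - X (β.ε ⟨i, t⟩) * X (β'.ε ⟨i, s⟩) :
      MvPolynomial S.V k) (single (β.ψ i) 1 + single (β'.ψ i) 1) :=
    IsWeightedHomogeneous.sub ((hX β s).mul (hX β' t)) ((hX β t).mul (hX β' s))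
  have h1 := (hv.iff _ _ hf).2 fun z hz => by
    have e : ∀ f g : MvPolynomial S.V k, ev z (f - g) = ev z f - ev z g := fun f g => by
      simp only [ev_eq, map_sub]
    rw [e, ev_mul, ev_mul, G2_evX, G2_evX, G2_evX, G2_evX, h z hz]
    ring
  simp only [map_sub, map_mul, aeval_X] at h1
  rw [div_eq_div_iff ht (mt h0.2 ht)]
  linear_combination h1

theorem deg_congr (β β' : Crd k P S) {V : Sub k S} (h : ∀ z ∈ V, β.pr z = β'.pr z) :
    deg β.ε (idl (V : Set (S.Pt k))) = deg β'.ε (idl (V : Set (S.Pt k))) := by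
  obtain ⟨L₀, _, _, v, hv⟩ := exists_gen' V
  have e : rat (v ∘ β.ε) = rat (v ∘ β'.ε) := by
    ext y
    refine exists₃_congr fun i s t => ?_
    simp only [Function.comp_apply]
    rw [G2_ratio β β' h hv]
  rw [deg_eq β hv, deg_eq β' hv, G2_fld (v ∘ β.ε), G2_fld (v ∘ β'.ε), e]

theorem deg_sec (β : Crd k P S) (j : Crd k S P) {V : Sub k S} (h : ∀ z ∈ V, j.pr (β.pr z) = z) :
    deg β.ε (idl (V : Set (S.Pt k))) = 1 := by
  have e : deg (j.comp β).ε (idl (V : Set (S.Pt k))) = 1 :=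
    (deg_congr (j.comp β) (Crd.refl k S) h).trans (deg_refl V)
  rw [deg_comp] at e
  exact Nat.eq_one_of_mul_eq_one_left e

theorem G2_blk {β : Crd k P S} (h : Inj β) (i : P.ι) (s : S.σ (β.ψ i)) :
    ∃ s' : P.σ i, β.ε ⟨i, s'⟩ = ⟨β.ψ i, s⟩ := by
  obtain ⟨⟨i', s'⟩, e⟩ := h.blk ⟨β.ψ i, s⟩ i rfl
  have e' : β.ψ i' = β.ψ i := (β.fst ⟨i', s'⟩).symm.trans (congrArg Sigma.fst e)
  obtain rfl := h.ψ e'
  exact ⟨s', e⟩

theorem deg_pt {β : Crd k P S} {γ : Crd k Q S} (h : Bij β γ) {V : Sub k S} {y : Q.Pt k}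
    (hy : ∀ z ∈ V, γ.pr z = y) : deg β.ε (idl (V : Set (S.Pt k))) = 1 := by
  obtain ⟨L₀, _, _, v, hv⟩ := exists_gen' V
  rw [deg_eq β hv, IntermediateField.relfinrank_eq_one_iff, G2_fld v,
    IntermediateField.adjoin_le_iff]
  rintro _ ⟨j, s, t, rfl⟩
  obtain ⟨i | i, rfl⟩ := h.ψ.2 j
  · obtain ⟨s', hs⟩ := G2_blk h.inj i s
    obtain ⟨t', ht⟩ := G2_blk h.inj i t
    refine IntermediateField.subset_adjoin k _ ⟨i, s', t', ?_⟩
    simp only [Function.comp_apply, hs, ht]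
    rfl
  · obtain ⟨s', hs⟩ := G2_blk h.symm.inj i s
    obtain ⟨t', ht⟩ := G2_blk h.symm.inj i t
    have key : v (γ.ε ⟨i, s'⟩) / v (γ.ε ⟨i, t'⟩) =
        algebraMap k L₀ (rp y ⟨i, s'⟩ / rp y ⟨i, t'⟩) := by
      by_cases h0 : rp y ⟨i, t'⟩ = 0
      · have h1 : v (γ.ε ⟨i, t'⟩) = 0 :=
          (G2_zero hv _).2 fun z hz => by rw [G2_evX, hy z hz, h0]
        rw [h0, h1, div_zero, div_zero, map_zero]
      have h1 : v (γ.ε ⟨i, t'⟩) ≠ 0 := fun h1 => by
        obtain ⟨z, hz⟩ := V.isIrreducible.nonempty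
        have := (G2_zero hv _).1 h1 z hz
        rw [G2_evX, hy z hz] at this
        exact h0 this
      have hX : ∀ r : Q.σ i,
          IsForm (X (γ.ε ⟨i, r⟩) : MvPolynomial S.V k) (single (γ.ψ i) 1) := fun r => by
        simpa [γ.fst] using IsForm.X (k := k) (γ.ε ⟨i, r⟩)
      have hf : IsForm (C (rp y ⟨i, t'⟩) * X (γ.ε ⟨i, s'⟩) - C (rp y ⟨i, s'⟩) * X (γ.ε ⟨i, t'⟩) :
          MvPolynomial S.V k) (single (γ.ψ i) 1) :=
        IsWeightedHomogeneous.sub (IsWeightedHomogeneous.C_mul (hX s') _)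
          (IsWeightedHomogeneous.C_mul (hX t') _)
      have h2 := (hv.iff _ _ hf).2 fun z hz => by
        have e1 := G2_evX γ z ⟨i, s'⟩
        have e2 := G2_evX γ z ⟨i, t'⟩
        rw [hy z hz, ev_eq] at e1 e2
        rw [ev_eq, map_sub, map_mul, map_mul, eval_C, eval_C, e1, e2]
        ring
      simp only [map_sub, map_mul, aeval_X, aeval_C] at h2
      rw [map_div₀, div_eq_div_iff h1 ((map_ne_zero _).2 h0)]
      linear_combination h2
    rw [hs, ht] at key
    exact key ▸ IntermediateField.algebraMap_mem _ _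

theorem push_cS {β : Crd k P S} (h : Inj β) (V : Sub k S) :
    push β.ε (cS V) = (deg β.ε (idl (V : Set (S.Pt k))) : ℚ) • cS (β.img V) := by
  rw [push, cS, cS, linearCombination_single, one_smul, comap_idl h.ψ, smul_single, smul_eq_mul,
    mul_one]

theorem push_refl (V : Sub k P) : push id (cS V) = cS V := by
  have h := push_cS (Inj.refl (k := k) (P := P)) V
  rw [Crd.img_refl] at h
  refine h.trans ?_
  change (deg id (idl (V : Set (P.Pt k))) : ℚ) • cS V = cS V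
  rw [deg_refl, Nat.cast_one, one_smul]

theorem push_comp {β : Crd k P S} {γ : Crd k S S'} (h : Inj β) (h' : Inj γ) {c : Sub k S' → Prop}
    {a : Cyc k S'} (ha : a ∈ Sp c) : push (γ.ε ∘ β.ε) a = push β.ε (push γ.ε a) := by
  refine Sp_ext (push (β.comp γ).ε) (push β.ε ∘ₗ push γ.ε) (fun Z _ => ?_) ha
  rw [LinearMap.comp_apply, push_cS (h.comp h'), push_cS h', map_smul, push_cS h, deg_comp,
    Crd.img_comp, smul_smul, Nat.cast_mul, mul_comm]

theorem push_congr {β β' : Crd k P S} (h : Inj β) (h' : Inj β') {a : Cyc k S}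
    (ha : a ∈ Sp fun V => ∀ z ∈ V, β.pr z = β'.pr z) : push β.ε a = push β'.ε a := by
  refine Sp_ext (push β.ε) (push β'.ε) (fun Z hZ => ?_) ha
  rw [push_cS h, push_cS h', deg_congr β β' hZ, β.img_congr β' hZ]

theorem push_sec {β : Crd k P S} (hβ : Inj β) (j : Crd k S P) {V : Sub k S}
    (h : ∀ z ∈ V, j.pr (β.pr z) = z) : push β.ε (cS V) = cS (β.img V) := by
  rw [push_cS hβ, deg_sec β j h, Nat.cast_one, one_smul]

theorem push_nonneg {β : Crd k P S} {a : Cyc k S} (h : ∀ p, 0 ≤ a p) (q) : 0 ≤ push β.ε a q := by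
  classical
  rw [push, linearCombination_apply, Finsupp.sum, Finsupp.finsetSum_apply]
  refine Finset.sum_nonneg fun p _ => ?_
  rw [Finsupp.smul_apply, smul_eq_mul, single_apply]
  refine mul_nonneg (h p) ?_
  split_ifs
  · exact Nat.cast_nonneg _
  · exact le_rfl

theorem G2_rat_finite (v : P.V → L) : (rat v).Finite := by
  refine (Set.finite_range fun x : Σ i, P.σ i × P.σ i => v ⟨x.1, x.2.1⟩ / v ⟨x.1, x.2.2⟩).subset ?_
  rintro _ ⟨i, s, t, rfl⟩
  exact ⟨⟨i, s, t⟩, rfl⟩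

theorem G2_relf {A B : Set L} (h : A ⊆ B) (hB : B.Finite) :
    (IntermediateField.adjoin k A).relfinrank (IntermediateField.adjoin k B) ≠ 0 ↔
      ∀ y ∈ B, IsAlgebraic (Algebra.adjoin k A) y := by
  have hle := IntermediateField.adjoin.mono k _ _ h
  rw [IntermediateField.relfinrank_eq_finrank_of_le hle, IntermediateField.extendScalars_adjoin]
  constructor
  · intro h0 y hy
    have : Module.Finite (IntermediateField.adjoin k A)
        (IntermediateField.adjoin (IntermediateField.adjoin k A) B) :=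
      Module.finite_of_finrank_pos (Nat.pos_of_ne_zero h0)
    rw [← IntermediateField.isAlgebraic_adjoin_iff]
    exact (IntermediateField.isAlgebraic_adjoin_iff_isAlgebraic _ _).1 inferInstance y hy
  · intro H
    have := hB.to_subtype
    have : FiniteDimensional (IntermediateField.adjoin k A)
        (IntermediateField.adjoin (IntermediateField.adjoin k A) B) :=
      IntermediateField.finiteDimensional_adjoin fun y hy =>
        (IntermediateField.isAlgebraic_adjoin_iff.2 (H y hy)).isIntegral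
    exact Module.finrank_pos.ne'

variable [IsAlgClosed k]

theorem deg_ne_zero (β : Crd k P S) (V : Sub k S) :
    deg β.ε (idl (V : Set (S.Pt k))) ≠ 0 ↔ sdim (β.img V) = sdim V := by
  obtain ⟨L₀, _, _, v, hv⟩ := exists_gen' V
  have r1 := hv.rk_rat
  have r2 := (β.isGen_img hv).rk_rat
  rw [deg_eq β hv, G2_fld, G2_fld, G2_relf (β.Img_rat v) (G2_rat_finite v)]
  constructor
  · intro H
    have := rk_le_of_alg H
    rw [r1, r2] at this
    exact le_antisymm (β.sdim_img_le V) (by exact_mod_cast this)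
  · intro e y hy
    by_contra hn
    have h1 := rk_mono (k := k) (Set.insert_subset hy (β.Img_rat v))
    rw [rk_insert hn, r1, r2, e] at h1
    have h2 : sdim V + 1 ≤ sdim V := by exact_mod_cast h1
    omega

theorem push_mem {β : Crd k P S} (h : Inj β) {c : Sub k S → Prop} {a : Cyc k S} (ha : a ∈ Sp c) :
    push β.ε a ∈ Sp fun T => ∃ V, c V ∧ T = β.img V ∧ sdim T = sdim V := by
  refine Sp_map (push β.ε) _ (fun Z hZ => ?_) ha
  rw [push_cS h]
  by_cases h0 : deg β.ε (idl (Z : Set (S.Pt k))) = 0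
  · rw [h0, Nat.cast_zero, zero_smul]
    exact Submodule.zero_mem _
  · exact Submodule.smul_mem _ _ (cS_mem ⟨Z, hZ, rfl, (deg_ne_zero β Z).1 h0⟩)

/-- The coefficient of `T` only depends on the components above `T`. -/
theorem push_coeff {β : Crd k P S} (h : Inj β) {c c' : Sub k S → Prop} {a b : Cyc k S}
    (ha : a ∈ Sp c) (hb : b ∈ Sp c') (T : Sub k P)
    (e : ∀ V, β.img V = T → a (idl (V : Set (S.Pt k))) = b (idl (V : Set (S.Pt k)))) :
    push β.ε a (idl (T : Set (P.Pt k))) = push β.ε b (idl (T : Set (P.Pt k))) := by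
  have h1 : a - b ∈ Sp fun _ : Sub k S => True :=
    Submodule.sub_mem _ (Sp_mono (fun _ _ => trivial) ha) (Sp_mono (fun _ _ => trivial) hb)
  have h2 : a - b ∈ Sp fun V : Sub k S => β.img V ≠ T :=
    Sp_to h1 fun V _ hV hT => hV (by rw [Finsupp.sub_apply, e V hT, sub_self])
  by_contra hn
  have h3 : push β.ε (a - b) (idl (T : Set (P.Pt k))) ≠ 0 := by
    rw [map_sub, Finsupp.sub_apply]
    exact sub_ne_zero.2 hn
  obtain ⟨V, hV, hT, _⟩ := Sp_of (push_mem h h2) h3
  exact hV hT.symm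

/-- On cycles contained in the image of a section the push-forward is injective. -/
theorem push_inj {β : Crd k P S} (hβ : Inj β) (j : Crd k S P) {a : Cyc k S}
    (ha : a ∈ Sp fun V => ∀ z ∈ V, j.pr (β.pr z) = z) (h : push β.ε a = 0) : a = 0 := by
  have hj : ∀ V : Sub k S, (∀ z ∈ V, j.pr (β.pr z) = z) → j.img (β.img V) = V := fun V hV => by
    rw [← Crd.img_comp, (j.comp β).img_congr (Crd.refl k S) hV, Crd.img_refl]
  refine Sp_bot (Sp_to ha fun T hT hn => hn ?_)
  have hb : a (idl (T : Set (S.Pt k))) • cS T ∈ Sp fun Z => Z = T :=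
    Submodule.smul_mem _ _ (cS_mem rfl)
  have key := push_coeff hβ ha hb (β.img T) fun V hV => by
    by_cases hVT : V = T
    · rw [hVT, Finsupp.smul_apply, cS_self, smul_eq_mul, mul_one]
    · rw [Finsupp.smul_apply, cS_ne (Ne.symm hVT), smul_zero]
      by_contra h0
      exact hVT (by rw [← hj V (Sp_of ha h0), hV, hj T hT])
  rw [h, map_smul, push_sec hβ j hT, Finsupp.smul_apply, cS_self, smul_eq_mul, mul_one] at key
  exact key.symm

theorem push_ex_pt {β : Crd k P S} {γ : Crd k Q S} (h : Bij β γ) (V : Sub k P) (y : Q.Pt k) :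
    push β.ε (ex β.ε γ.ε (cS V) (cS ({y} : Sub k Q))) = cS V := by
  rw [h.ex_cS, push_cS h.inj, deg_pt h (y := y) fun z hz => (h.mem_xp.1 hz).2, h.img_xp,
    Nat.cast_one, one_smul]

end Pool.Agent.Work.MP_10f4af_ag
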