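import Pool.Agent.Work.MP_10f4af_ag.Defs
import Pool.Agent.Work.MP_10f4af_ag.CAb

/-!
# Dictionary between subvarieties and ideals

Library: `Work/MP_ffcd14_ag` (files `Forms`, `Cyc/GDefs`, `Cyc/Gen`, `Cyc/Dim`, `Cyc/Noeth`,
`Cyc/GrA`, `Cyc/Img`, `Cyc/FibA`).  `idl` is by `rfl` the `idl` of that library.
`Hmg_min`: the ideal spanned by the forms in `q` is prime (`Hmg.isPrime`) and contains `J`.
`comap_idl`: the comap is homogeneous since `rename` sends `cpt a f` to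
`cpt (a.mapDomain β.ψ) (rename f)` when `β.ψ` is injective; then `Hmg.le`, `Crd.van_img`.
`dI_le_iff`: `eq_mk_of_minors`, `Crd.rp_pr`.  `pr_comp`: a point is determined by `rp`.
-/

open MvPolynomial Topology TopologicalSpace Finsupp

namespace Pool.Agent.Work.MP_10f4af_ag

open MP_ffcd14_ag hiding len vl cyc pl Weil idl_hmg mem_idl idl_prime idl_le_iff

universe u

variable {k : Type u} [Field k] {P Q S S' : Amb}

/-- The cycle of a subvariety. -/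
noncomputable def cS (V : Sub k P) : Cyc k P := single (idl (V : Set (P.Pt k))) 1

/-- A list of forms. -/
def Fm (fs : List (MvPolynomial P.V k)) : Prop := ∀ f ∈ fs, ∃ a, IsForm f a

/-- A coordinate map which forgets some factors. -/
structure Inj (β : Crd k P S) : Prop where
  ψ : Function.Injective β.ψ
  ε : Function.Injective β.ε
  blk : ∀ (s : S.V) (i : P.ι), s.1 = β.ψ i → s ∈ Set.range β.ε

/-- The ideal generated by the first `j` terms. -/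
noncomputable def sq (g : ℕ → MvPolynomial P.V k) (j : ℕ) : Ideal (MvPolynomial P.V k) :=
  Ideal.ofList ((List.range j).map g)

theorem idl_eq (A : Set (P.Pt k)) : idl A = Noeth.idl A := rfl

theorem vl_eq : (vl : P.V → (P.sum Q).V) = (Crd.inl k P Q).ε := rfl

theorem vr_eq : (vr : Q.V → (P.sum Q).V) = (Crd.inr k P Q).ε := rfl

theorem fst_eq (z : (P.sum Q).Pt k) : fst z = (Crd.inl k P Q).pr z := rfl

theorem snd_eq (z : (P.sum Q).Pt k) : snd z = (Crd.inr k P Q).pr z := rfl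

theorem vp_eq (β : Crd k P S) (γ : Crd k Q S) : vp β.ε γ.ε = (β.pair γ).ε := by
  funext s
  rcases s with ⟨i | i, s⟩ <;> rfl

theorem pr_comp {μ : Crd k S S'} {β : Crd k P S} {ν : Crd k P S'} (e : μ.ε ∘ β.ε = ν.ε)
    (z : S'.Pt k) : β.pr (μ.pr z) = ν.pr z := by
  funext i
  have h : (β.pr (μ.pr z) i).rep = (ν.pr z i).rep := funext fun s => by
    have h1 := (β.rp_pr (μ.pr z) ⟨i, s⟩).trans (μ.rp_pr z _)
    have h2 := ν.rp_pr z ⟨i, s⟩
    rw [← e] at h2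
    exact h1.trans h2.symm
  rw [← (β.pr (μ.pr z) i).mk_rep, ← (ν.pr z i).mk_rep]
  simp only [h]

theorem img_img {μ : Crd k S S'} {β : Crd k P S} {ν : Crd k P S'} (e : μ.ε ∘ β.ε = ν.ε)
    (Z : Sub k S') : β.img (μ.img Z) = ν.img Z := by
  rw [← Crd.img_comp]
  exact Crd.img_congr _ _ fun z _ => pr_comp e z

theorem idl_hmg (A : Set (P.Pt k)) : Hmg (idl A) := MP_ffcd14_ag.idl_hmg A

theorem mem_idl {A : Set (P.Pt k)} {f : MvPolynomial P.V k} {a : P.ι →₀ ℕ} (hf : IsForm f a) :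
    f ∈ idl A ↔ Van A f := MP_ffcd14_ag.mem_idl hf

theorem van_idl {A : Set (P.Pt k)} {f : MvPolynomial P.V k} (hf : f ∈ idl A) : Van A f :=
  Noeth.van_of_mem hf

instance idl_prime (T : Sub k P) : (idl (T : Set (P.Pt k))).IsPrime := MP_ffcd14_ag.idl_prime T

theorem idl_le_iff {Z T : Sub k P} :
    idl (Z : Set (P.Pt k)) ≤ idl (T : Set (P.Pt k)) ↔ T ≤ Z := MP_ffcd14_ag.idl_le_iff

theorem idl_inj {Z T : Sub k P} (h : idl (Z : Set (P.Pt k)) = idl (T : Set (P.Pt k))) : Z = T :=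
  le_antisymm (idl_le_iff.1 h.ge) (idl_le_iff.1 h.le)

theorem idl_anti {A B : Set (P.Pt k)} (h : A ⊆ B) : idl B ≤ idl A := by
  exact Ideal.span_mono fun f hf => ⟨hf.1, fun x hx => hf.2 x (h hx)⟩

theorem rel_idl (T : Sub k P) : Rel (idl (T : Set (P.Pt k))) := X_notMem_idl T

theorem Rel.anti {q r : Ideal (MvPolynomial P.V k)} (h : Rel q) (hr : r ≤ q) : Rel r := by
  exact fun i => (h i).imp fun s hs e => hs (hr e)

theorem Hmg_min {J q : Ideal (MvPolynomial P.V k)} (hJ : Hmg J) (h : q ∈ J.minimalPrimes) :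
    Hmg q := by
  have hq : q.IsPrime := h.1.1
  have h1 : Ideal.span {f | (∃ a, IsForm f a) ∧ f ∈ q} ≤ q := Ideal.span_le.2 fun f hf => hf.2
  have h2 : Hmg (Ideal.span {f | (∃ a, IsForm f a) ∧ f ∈ q}) := Hmg.span fun f hf => hf.1
  have h3 := h2.isPrime (fun e => hq.ne_top (top_le_iff.1 (e ▸ h1))) fun f g a b hf hg hfg =>
    (hq.mem_or_mem (h1 hfg)).imp (fun e => Ideal.subset_span ⟨⟨a, hf⟩, e⟩)
      fun e => Ideal.subset_span ⟨⟨b, hg⟩, e⟩
  have h4 := h.2 ⟨h3, hJ.le fun f a hf e => Ideal.subset_span ⟨⟨a, hf⟩, h.1.2 e⟩⟩ h1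
  exact le_antisymm h1 h4 ▸ h2

theorem Hmg_map (β : Crd k P S) {J : Ideal (MvPolynomial P.V k)} (hJ : Hmg J) :
    Hmg (J.map (rename β.ε) : Ideal (MvPolynomial S.V k)) := by
  have h1 : J = Ideal.span {f | (∃ a, IsForm f a) ∧ f ∈ J} :=
    le_antisymm (hJ.le fun f a hf e => Ideal.subset_span ⟨⟨a, hf⟩, e⟩)
      (Ideal.span_le.2 fun f hf => hf.2)
  rw [h1, Ideal.map_span]
  refine Hmg.span ?_
  rintro _ ⟨f, ⟨⟨a, ha⟩, -⟩, rfl⟩
  exact ⟨_, β.form ha⟩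

theorem Fm.hmg {fs : List (MvPolynomial P.V k)} (h : Fm fs) : Hmg (Ideal.ofList fs) := by
  exact Hmg.span h

theorem Fm.map (β : Crd k P S) {fs : List (MvPolynomial P.V k)} (h : Fm fs) :
    Fm (fs.map (rename β.ε)) := by
  intro f hf
  obtain ⟨g, hg, rfl⟩ := List.mem_map.1 hf
  obtain ⟨a, ha⟩ := h g hg
  exact ⟨_, β.form ha⟩

theorem ofList_le_idl {fs : List (MvPolynomial P.V k)} (h : Fm fs) {A : Set (P.Pt k)} :
    Ideal.ofList fs ≤ idl A ↔ ∀ f ∈ fs, Van A f := by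
  exact Ideal.span_le.trans (forall₂_congr fun f hf => (h f hf).elim fun a ha => mem_idl ha)

theorem sq_le_idl {g : ℕ → MvPolynomial P.V k} {a : P.ι →₀ ℕ} (h : ∀ m, IsForm (g m) a) {j : ℕ}
    {A : Set (P.Pt k)} : sq g j ≤ idl A ↔ ∀ m < j, Van A (g m) := by
  rw [sq, ofList_le_idl fun f hf => (List.mem_map.1 hf).elim fun m hm => ⟨a, hm.2 ▸ h m⟩]
  simp

theorem sq_succ (g : ℕ → MvPolynomial P.V k) (j : ℕ) :
    sq g (j + 1) = sq g j ⊔ Ideal.span {g j} := by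
  rw [sq, sq, List.range_succ, List.map_append, Ideal.ofList_append, List.map_singleton,
    Ideal.ofList_singleton]

theorem sq_zero (g : ℕ → MvPolynomial P.V k) : sq g 0 = ⊥ := by
  exact Ideal.ofList_nil

/-- A form times every element of a homogeneous ideal: pass to a homogeneous component. -/
theorem exists_form_mul {J H : Ideal (MvPolynomial P.V k)} (hJ : Hmg J) (hH : Hmg H)
    {s : MvPolynomial P.V k} (h : ∀ g ∈ J, s * g ∈ H) (a : P.ι →₀ ℕ) :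
    ∀ g ∈ J, cpt a s * g ∈ H := by
  have h1 : J ≤ H.colon {cpt a s} := hJ.le fun g e hg hgJ => by
    rw [Submodule.mem_colon_singleton, smul_eq_mul, mul_comm, ← cpt_mul hg]
    exact hH _ (h g hgJ) _
  intro g hg
  have := h1 hg
  rwa [Submodule.mem_colon_singleton, smul_eq_mul, mul_comm] at this

theorem map_le_idl (β : Crd k P S) {J : Ideal (MvPolynomial P.V k)} (hJ : Hmg J) {T : Sub k S} :
    J.map (rename β.ε) ≤ idl (T : Set (S.Pt k)) ↔ J ≤ idl (β.img T : Set (P.Pt k)) := by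
  rw [Ideal.map_le_iff_le_comap]
  exact ⟨fun h => hJ.le fun f a hf e => (mem_idl hf).2 ((β.van_img hf).2 (van_idl (h e))),
    fun h => hJ.le fun f a hf e => (mem_idl (β.form hf)).2 ((β.van_img hf).1 (van_idl (h e)))⟩

theorem map_idl_le (β : Crd k P S) {A : Set (P.Pt k)} {B : Set (S.Pt k)}
    (h : ∀ z ∈ B, β.pr z ∈ A) : (idl A).map (rename β.ε) ≤ idl B := by
  rw [Ideal.map_le_iff_le_comap]
  exact (idl_hmg A).le fun f a hf e => (mem_idl (β.form hf)).2 fun z hz =>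
    (β.ev_rename z f).trans (van_idl e _ (h z hz))

theorem comap_idl {β : Crd k P S} (h : Function.Injective β.ψ) (V : Sub k S) :
    (idl (V : Set (S.Pt k))).comap (rename β.ε) = idl (β.img V : Set (P.Pt k)) := by
  have h1 : ∀ a f, rename β.ε (cpt a f) = cpt (a.mapDomain β.ψ) (rename β.ε f) := fun a f => by
    induction f using MvPolynomial.induction_on' with
    | monomial d r =>
      have h1 : IsForm (monomial d r : MvPolynomial P.V k)
          (Finsupp.weight (fun s : P.V => Finsupp.single s.1 1) d) :=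
        isWeightedHomogeneous_monomial _ d r rfl
      by_cases e : a = Finsupp.weight (fun s : P.V => Finsupp.single s.1 1) d
      · rw [e, cpt_self h1, cpt_self (β.form h1)]
      · rw [GrA_ne h1 e, GrA_ne (β.form h1) fun e' => e (mapDomain_injective h e'), map_zero]
    | add p q hp hq => simp only [map_add, hp, hq]
  have h2 : Hmg ((idl (V : Set (S.Pt k))).comap (rename β.ε)) := fun f hf a => by
    rw [Ideal.mem_comap, h1]
    exact idl_hmg _ _ hf _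
  exact le_antisymm ((map_le_idl β h2).1 Ideal.map_comap_le)
    (Ideal.map_le_iff_le_comap.1 ((map_le_idl β (idl_hmg _)).2 le_rfl))

theorem G0_form (β γ : Crd k P S) (i : P.ι) (s t : P.σ i) :
    IsForm (X (β.ε ⟨i, s⟩) * X (γ.ε ⟨i, t⟩) - X (β.ε ⟨i, t⟩) * X (γ.ε ⟨i, s⟩) : MvPolynomial S.V k)
      (single (β.ψ i) 1 + single (γ.ψ i) 1) := by
  have h : ∀ s t : P.σ i, IsForm (X (β.ε ⟨i, s⟩) * X (γ.ε ⟨i, t⟩) : MvPolynomial S.V k)
      (single (β.ψ i) 1 + single (γ.ψ i) 1) := fun s t => by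
    have := (IsForm.X (k := k) (β.ε ⟨i, s⟩)).mul (IsForm.X (γ.ε ⟨i, t⟩))
    rwa [β.fst, γ.fst] at this
  exact (weightedHomogeneousSubmodule k _ _).sub_mem (h s t) (h t s)

theorem dI_hmg (β γ : Crd k P S) : Hmg (dI k β.ε γ.ε) := by
  refine Hmg.span ?_
  rintro _ ⟨i, s, t, rfl⟩
  exact ⟨_, G0_form β γ i s t⟩

theorem dI_le_iff (β γ : Crd k P S) {A : Set (S.Pt k)} :
    dI k β.ε γ.ε ≤ idl A ↔ ∀ z ∈ A, β.pr z = γ.pr z := by
  rw [dI, Ideal.span_le]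
  constructor
  · intro h z hz
    funext i
    obtain ⟨s₀, hs₀⟩ := Function.ne_iff.mp (β.pr z i).rep_nonzero
    refine ((eq_mk_of_minors (γ.pr z i) hs₀ (fun s => ?_) (β.pr z i).rep_nonzero).trans
      (β.pr z i).mk_rep).symm
    have := van_idl (h ⟨i, s₀, s, rfl⟩) z hz
    simp only [ev_eq, map_sub, map_mul, eval_X, ← β.rp_pr, ← γ.rp_pr, sub_eq_zero] at this
    exact this
  · rintro h _ ⟨i, s, t, rfl⟩
    refine (mem_idl (G0_form β γ i s t)).2 fun z hz => ?_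
    simp only [ev_eq, map_sub, map_mul, eval_X, ← β.rp_pr, ← γ.rp_pr, sub_eq_zero]
    rw [h z hz, mul_comm]

theorem dI_map (ε η : P.V → S.V) (μ : S.V → S'.V) :
    (dI k ε η).map (rename μ) = dI k (μ ∘ ε) (μ ∘ η) := by
  rw [dI, dI, Ideal.map_span]
  congr 1
  ext f
  constructor
  · rintro ⟨_, ⟨i, s, t, rfl⟩, rfl⟩
    exact ⟨i, s, t, by simp⟩
  · rintro ⟨i, s, t, rfl⟩
    exact ⟨_, ⟨i, s, t, rfl⟩, by simp⟩

theorem dI_comm (ε η : P.V → S.V) : dI k ε η = dI k η ε := by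
  have h : ∀ ε η : P.V → S.V, dI k ε η ≤ dI k η ε := fun ε η => Ideal.span_le.2 (by
    rintro _ ⟨i, s, t, rfl⟩
    exact Ideal.subset_span ⟨i, t, s, by ring⟩)
  exact le_antisymm (h _ _) (h _ _)

theorem Inj.refl : Inj (Crd.refl k P) := by
  exact ⟨Function.injective_id, Function.injective_id, fun s _ _ => ⟨s, rfl⟩⟩

theorem Inj.comp {β : Crd k P S} {γ : Crd k S S'} (h : Inj β) (h' : Inj γ) : Inj (β.comp γ) := by
  refine ⟨h'.ψ.comp h.ψ, h'.ε.comp h.ε, fun s i e => ?_⟩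
  obtain ⟨s, rfl⟩ := h'.blk s _ e
  obtain ⟨s, rfl⟩ := h.blk s i (h'.ψ ((γ.fst s).symm.trans e))
  exact ⟨s, rfl⟩

theorem mem_Sp {c : Sub k P → Prop} {a : Cyc k P} :
    a ∈ Sp c ↔ ∀ p, a p ≠ 0 → ∃ Z, c Z ∧ p = idl (Z : Set (P.Pt k)) := by
  exact (mem_supported ℚ a).trans (forall_congr' fun p => imp_congr_left mem_support_iff)

theorem cS_mem {c : Sub k P → Prop} {Z : Sub k P} (h : c Z) : cS Z ∈ Sp c := by
  exact single_mem_supported ℚ 1 ⟨Z, h, rfl⟩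

theorem cS_self (Z : Sub k P) : cS Z (idl (Z : Set (P.Pt k))) = 1 := by
  exact single_eq_same

theorem cS_ne {Z T : Sub k P} (h : Z ≠ T) : cS Z (idl (T : Set (P.Pt k))) = 0 := by
  exact single_eq_of_ne fun e => h (idl_inj e).symm

theorem Sp_eq_span (c : Sub k P → Prop) : Sp c = Submodule.span ℚ (cS '' {Z | c Z}) := by
  rw [Sp, supported_eq_span_single]
  congr 1
  ext a
  constructor
  · rintro ⟨_, ⟨Z, h, rfl⟩, rfl⟩
    exact ⟨Z, h, rfl⟩
  · rintro ⟨Z, h, rfl⟩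
    exact ⟨_, ⟨Z, h, rfl⟩, rfl⟩

theorem Sp_mono {c c' : Sub k P → Prop} (h : ∀ Z, c Z → c' Z) : Sp c ≤ Sp c' := by
  exact supported_mono fun p hp => hp.imp fun Z hZ => ⟨h Z hZ.1, hZ.2⟩

theorem Sp_of {c : Sub k P → Prop} {a : Cyc k P} (h : a ∈ Sp c) {Z : Sub k P}
    (hZ : a (idl (Z : Set (P.Pt k))) ≠ 0) : c Z := by
  obtain ⟨T, h1, h2⟩ := mem_Sp.1 h _ hZ
  exact idl_inj h2 ▸ h1

theorem Sp_to {c c' : Sub k P → Prop} {a : Cyc k P} (h : a ∈ Sp c)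
    (h' : ∀ Z, c Z → a (idl (Z : Set (P.Pt k))) ≠ 0 → c' Z) : a ∈ Sp c' := by
  refine mem_Sp.2 fun p hp => ?_
  obtain ⟨T, h1, rfl⟩ := mem_Sp.1 h _ hp
  exact ⟨T, h' T h1 hp, rfl⟩

theorem Sp_map {c : Sub k P → Prop} {M : Type*} [AddCommGroup M] [Module ℚ M]
    (f : Cyc k P →ₗ[ℚ] M) (N : Submodule ℚ M) (h : ∀ Z, c Z → f (cS Z) ∈ N) {a : Cyc k P}
    (ha : a ∈ Sp c) : f a ∈ N := by
  rw [Sp_eq_span] at ha
  refine (Submodule.span_le (p := N.comap f)).2 ?_ ha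
  rintro _ ⟨Z, hZ, rfl⟩
  exact h Z hZ

theorem Sp_ext {c : Sub k P → Prop} {M : Type*} [AddCommGroup M] [Module ℚ M]
    (f g : Cyc k P →ₗ[ℚ] M) (h : ∀ Z, c Z → f (cS Z) = g (cS Z)) {a : Cyc k P}
    (ha : a ∈ Sp c) : f a = g a := by
  exact sub_eq_zero.1 (Sp_map (f - g) ⊥ (fun Z hZ => sub_eq_zero.2 (h Z hZ)) ha)

theorem Sp_eq {c c' : Sub k P → Prop} {a b : Cyc k P} (ha : a ∈ Sp c) (hb : b ∈ Sp c')
    (h : ∀ T, c T ∨ c' T → a (idl (T : Set (P.Pt k))) = b (idl (T : Set (P.Pt k)))) : a = b := by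
  ext p
  by_contra e
  by_cases h1 : a p = 0
  · obtain ⟨T, h2, rfl⟩ := mem_Sp.1 hb p fun h2 => e (h1.trans h2.symm)
    exact e (h T (Or.inr h2))
  · obtain ⟨T, h2, rfl⟩ := mem_Sp.1 ha p h1
    exact e (h T (Or.inl h2))

theorem finite_comp (a : Cyc k P) : {Z : Sub k P | a (idl (Z : Set (P.Pt k))) ≠ 0}.Finite := by
  exact Set.Finite.preimage (f := fun Z : Sub k P => idl (Z : Set (P.Pt k)))
    (fun _ _ _ _ => idl_inj) a.hasFiniteSupport

theorem Sp_bot {a : Cyc k P} (h : a ∈ Sp fun _ => False) : a = 0 := by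
  exact Sp_eq (c' := fun _ => False) h (zero_mem _) fun _ h => (h.elim id id).elim

theorem Sp_one {T : Sub k P} {a : Cyc k P} (h : a ∈ Sp fun Z => Z = T) :
    a = a (idl (T : Set (P.Pt k))) • cS T := by
  refine Sp_eq (c' := fun Z => Z = T) h (Submodule.smul_mem _ _ (cS_mem rfl)) fun Z hZ => ?_
  rw [hZ.elim id id, Finsupp.smul_apply, cS_self, smul_eq_mul, mul_one]

variable [IsAlgClosed k]

theorem exists_idl {q : Ideal (MvPolynomial P.V k)} [q.IsPrime] (h : Hmg q) (h' : Rel q) :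
    ∃ T : Sub k P, q = idl (T : Set (P.Pt k)) := by
  exact h.rel.resolve_left fun ⟨i, hi⟩ => (h' i).elim fun s hs => hs (hi s)

theorem G0_min {J : Ideal (MvPolynomial P.V k)} (hJ : Hmg J) {V T : Sub k P} (h1 : T ≤ V)
    (h2 : J ≤ idl (T : Set (P.Pt k))) : ∃ U : Sub k P,
      idl (U : Set (P.Pt k)) ∈ (idl (V : Set (P.Pt k)) ⊔ J).minimalPrimes ∧ T ≤ U := by
  obtain ⟨q, h3, h4⟩ := Ideal.exists_minimalPrimes_le (sup_le (idl_le_iff.2 h1) h2)
  have : q.IsPrime := h3.1.1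
  obtain ⟨U, rfl⟩ := exists_idl (Hmg_min ((idl_hmg _).sup hJ) h3) ((rel_idl T).anti h4)
  exact ⟨U, h3, idl_le_iff.1 h4⟩

theorem min_iff {J : Ideal (MvPolynomial P.V k)} (hJ : Hmg J) {V T : Sub k P} :
    idl (T : Set (P.Pt k)) ∈ (idl (V : Set (P.Pt k)) ⊔ J).minimalPrimes ↔
      T ≤ V ∧ J ≤ idl (T : Set (P.Pt k)) ∧
        ∀ U, T ≤ U → U ≤ V → J ≤ idl (U : Set (P.Pt k)) → U = T := by
  constructor
  · intro h
    have h1 := sup_le_iff.1 h.1.2
    exact ⟨idl_le_iff.1 h1.1, h1.2, fun U h2 h3 h4 => le_antisymm (idl_le_iff.1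
      (h.2 ⟨idl_prime U, sup_le (idl_le_iff.2 h3) h4⟩ (idl_le_iff.2 h2))) h2⟩
  · rintro ⟨h1, h2, h3⟩
    obtain ⟨U, h4, h5⟩ := G0_min hJ h1 h2
    have h6 := sup_le_iff.1 h4.1.2
    exact h3 U h5 (idl_le_iff.1 h6.1) h6.2 ▸ h4

/-- The components of `V ∩ V(J)`. -/
theorem exists_cmp {J : Ideal (MvPolynomial P.V k)} (hJ : Hmg J) (V : Sub k P) :
    ∃ 𝓒 : Set (Sub k P), 𝓒.Finite ∧ (∀ T ∈ 𝓒, T ≤ V ∧ J ≤ idl (T : Set (P.Pt k))) ∧
      ∀ U ≤ V, J ≤ idl (U : Set (P.Pt k)) → ∃ T ∈ 𝓒, U ≤ T := by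
  refine ⟨{T | idl (T : Set (P.Pt k)) ∈ (idl (V : Set (P.Pt k)) ⊔ J).minimalPrimes},
    (Ideal.finite_minimalPrimes_of_isNoetherianRing _ _).preimage
      (f := fun Z : Sub k P => idl (Z : Set (P.Pt k))) fun _ _ _ _ => idl_inj,
    fun T hT => ?_, fun U h1 h2 => G0_min hJ h1 h2⟩
  exact ⟨((min_iff hJ).1 hT).1, ((min_iff hJ).1 hT).2.1⟩

end Pool.Agent.Work.MP_10f4af_ag
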