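import Mathlib

/-!
# Products of affine varieties over an algebraically closed field

Plan.  `PX_domain`: write `u = ∑ a_i ⊗ b_i` along a basis of `B`
(`Algebra.TensorProduct.basis A (Module.Basis.ofVectorSpace k B)`, coordinates in `A`).  If
`u v = 0`, then for each `φ : A →ₐ[k] k` the images of `u`, `v` in `B` multiply to zero, so all
coordinates of `u` or all those of `v` are killed by `φ`.  Products of coordinates are therefore
in every maximal ideal of `A` (Zariski's lemma, `IsAlgClosed.algebraMap_bijective_of_isIntegral`,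
`finite_of_finite_type_of_isJacobsonRing`), hence zero (`IsJacobsonRing`).
`PX_equiv`: construct both maps by `Ideal.Quotient.liftₐ`, `Algebra.TensorProduct.lift`,
`MvPolynomial.aeval` along `Equiv.ofBijective (Sum.elim ε η)`.  The last three statements follow
(for flatness take `r = ⊥`: `A ⊗ B` is flat over `A`; `RingHom.Flat` respects isomorphisms).
-/

namespace Pool.Agent.Work.MP_10f4af_ag

open MvPolynomial TensorProduct

universe u

variable {k : Type u} [Field k] {σ τ υ : Type}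

theorem PX_eq_zero [IsAlgClosed k] {A : Type u} [CommRing A] [IsDomain A] [Algebra k A]
    [Algebra.FiniteType k A] {a : A} (h : ∀ φ : A →ₐ[k] k, φ a = 0) : a = 0 := by
  have hJ : IsJacobsonRing A := isJacobsonRing_of_finiteType (A := k)
  have h1 : (⊥ : Ideal A).jacobson = ⊥ := hJ.out (Ideal.IsPrime.isRadical Ideal.isPrime_bot)
  rw [← Ideal.mem_bot, ← h1, Ideal.jacobson, Ideal.mem_sInf]
  rintro m ⟨-, hm⟩
  let _ := Ideal.Quotient.field m
  have hf : Module.Finite k (A ⧸ m) := finite_of_finite_type_of_isJacobsonRing k (A ⧸ m)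
  let e : k ≃ₐ[k] (A ⧸ m) :=
    AlgEquiv.ofBijective (Algebra.ofId k _) IsAlgClosed.algebraMap_bijective_of_isIntegral
  have h2 := h ((e.symm : (A ⧸ m) →ₐ[k] k).comp (Ideal.Quotient.mkₐ k m))
  rw [← Ideal.Quotient.eq_zero_iff_mem]
  exact e.symm.injective (h2.trans (map_zero _).symm)

theorem PX_domain [IsAlgClosed k] (A B : Type u) [CommRing A] [IsDomain A] [Algebra k A]
    [Algebra.FiniteType k A] [CommRing B] [IsDomain B] [Algebra k B] : IsDomain (A ⊗[k] B) := by
  let b := Module.Basis.ofVectorSpace k B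
  let β := Algebra.TensorProduct.basis A b
  have hn : Nontrivial (A ⊗[k] B) :=
    (Algebra.TensorProduct.includeLeft_injective (S := k) (A := A)
      (algebraMap k B).injective).nontrivial
  have key : ∀ (φ : A →ₐ[k] k) (x : A ⊗[k] B) i,
      b.repr (Algebra.TensorProduct.lift ((Algebra.ofId k B).comp φ) (AlgHom.id k B)
        (fun _ _ => Commute.all _ _) x) i = φ (β.repr x i) := by
    intro φ x i
    induction x with
    | zero => simp
    | add x y hx hy => simp only [map_add, Finsupp.add_apply, hx, hy]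
    | tmul a c =>
      simp [β, Algebra.TensorProduct.basis_repr_tmul, ← Algebra.smul_def]
  have hz : NoZeroDivisors (A ⊗[k] B) := ⟨fun {x y} hxy => by
    by_contra hc
    rw [not_or] at hc
    obtain ⟨i, hi⟩ : ∃ i, β.repr x i ≠ 0 := by
      by_contra h0
      simp only [not_exists, not_not] at h0
      exact hc.1 (β.ext_elem fun i => by simp [h0 i])
    obtain ⟨j, hj⟩ : ∃ j, β.repr y j ≠ 0 := by
      by_contra h0
      simp only [not_exists, not_not] at h0
      exact hc.2 (β.ext_elem fun i => by simp [h0 i])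
    refine mul_ne_zero hi hj (PX_eq_zero (k := k) fun φ => ?_)
    have h1 := congrArg (Algebra.TensorProduct.lift ((Algebra.ofId k B).comp φ) (AlgHom.id k B)
      (fun _ _ => Commute.all _ _)) hxy
    rw [map_mul, map_zero] at h1
    rw [map_mul, ← key, ← key]
    rcases mul_eq_zero.1 h1 with h | h <;> simp [h]⟩
  exact NoZeroDivisors.to_isDomain _

variable {ε : σ → υ} {η : τ → υ}

theorem PX_equiv (h : Function.Bijective (Sum.elim ε η)) (r : Ideal (MvPolynomial σ k))
    (K : Ideal (MvPolynomial τ k)) :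
    ∃ e : (MvPolynomial υ k ⧸ (r.map (rename ε) ⊔ K.map (rename η))) ≃ₐ[k]
        (MvPolynomial σ k ⧸ r) ⊗[k] (MvPolynomial τ k ⧸ K),
      (∀ f, e (Ideal.Quotient.mk _ (rename ε f)) = Ideal.Quotient.mk r f ⊗ₜ 1) ∧
      ∀ g, e (Ideal.Quotient.mk _ (rename η g)) = 1 ⊗ₜ Ideal.Quotient.mk K g := by
  let E := Equiv.ofBijective _ h
  let F : MvPolynomial υ k →ₐ[k] (MvPolynomial σ k ⧸ r) ⊗[k] (MvPolynomial τ k ⧸ K) :=
    aeval (R := k) (S₁ := (MvPolynomial σ k ⧸ r) ⊗[k] (MvPolynomial τ k ⧸ K)) fun y =>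
      Sum.elim (fun s => Ideal.Quotient.mk r (X s) ⊗ₜ[k] 1)
        (fun t => 1 ⊗ₜ[k] Ideal.Quotient.mk K (X t)) (E.symm y)
  have hε : F.comp (rename ε) =
      Algebra.TensorProduct.includeLeft.comp (Ideal.Quotient.mkₐ k r) := by
    refine algHom_ext fun s => ?_
    have : E.symm (ε s) = Sum.inl s := E.symm_apply_apply (Sum.inl s)
    simp [F, this]
  have hη : F.comp (rename η) =
      Algebra.TensorProduct.includeRight.comp (Ideal.Quotient.mkₐ k K) := by
    refine algHom_ext fun t => ?_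
    have : E.symm (η t) = Sum.inr t := E.symm_apply_apply (Sum.inr t)
    simp [F, this]
  have h1 : ∀ f, F (rename ε f) = Ideal.Quotient.mk r f ⊗ₜ 1 := fun f => DFunLike.congr_fun hε f
  have h2 : ∀ g, F (rename η g) = 1 ⊗ₜ Ideal.Quotient.mk K g := fun g => DFunLike.congr_fun hη g
  have hF : (r.map (rename ε) ⊔ K.map (rename η) : Ideal (MvPolynomial υ k)) ≤ RingHom.ker F := by
    refine sup_le (Ideal.map_le_iff_le_comap.2 fun f hf => ?_)
      (Ideal.map_le_iff_le_comap.2 fun g hg => ?_)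
    · rw [Ideal.mem_comap, RingHom.mem_ker, h1, Ideal.Quotient.eq_zero_iff_mem.2 hf, zero_tmul]
    · rw [Ideal.mem_comap, RingHom.mem_ker, h2, Ideal.Quotient.eq_zero_iff_mem.2 hg, tmul_zero]
  let F' := Ideal.Quotient.liftₐ (r.map (rename ε) ⊔ K.map (rename η)) F fun a ha => hF ha
  let G1 := Ideal.Quotient.liftₐ r ((Ideal.Quotient.mkₐ k (r.map (rename ε) ⊔ K.map (rename η) :
    Ideal (MvPolynomial υ k))).comp (rename ε)) fun a ha =>
      Ideal.Quotient.eq_zero_iff_mem.2 (Ideal.mem_sup_left (Ideal.mem_map_of_mem _ ha))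
  let G2 := Ideal.Quotient.liftₐ K ((Ideal.Quotient.mkₐ k (r.map (rename ε) ⊔ K.map (rename η) :
    Ideal (MvPolynomial υ k))).comp (rename η)) fun a ha =>
      Ideal.Quotient.eq_zero_iff_mem.2 (Ideal.mem_sup_right (Ideal.mem_map_of_mem _ ha))
  let G := Algebra.TensorProduct.lift G1 G2 fun _ _ => Commute.all _ _
  have g1 : ∀ f, G (Ideal.Quotient.mk r f ⊗ₜ 1) = Ideal.Quotient.mk _ (rename ε f) := fun f => by
    rw [Algebra.TensorProduct.lift_tmul, map_one, mul_one]
    rfl
  have g2 : ∀ g, G (1 ⊗ₜ Ideal.Quotient.mk K g) = Ideal.Quotient.mk _ (rename η g) := fun g => by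
    rw [Algebra.TensorProduct.lift_tmul, map_one, one_mul]
    rfl
  refine ⟨AlgEquiv.ofAlgHom F' G ?_ ?_, h1, h2⟩
  · refine Algebra.TensorProduct.ext (AlgHom.ext fun x => ?_) (AlgHom.ext fun x => ?_)
    · obtain ⟨f, rfl⟩ := Ideal.Quotient.mk_surjective x
      exact (congrArg F' (g1 f)).trans (h1 f)
    · obtain ⟨g, rfl⟩ := Ideal.Quotient.mk_surjective x
      exact (congrArg F' (g2 g)).trans (h2 g)
  · refine Ideal.Quotient.algHom_ext k (algHom_ext fun y => ?_)
    obtain ⟨s | t, rfl⟩ := h.2 y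
    · have h3 := (congrArg G (h1 (X s))).trans (g1 (X s))
      rw [rename_X] at h3
      exact h3
    · have h3 := (congrArg G (h2 (X t))).trans (g2 (X t))
      rw [rename_X] at h3
      exact h3

theorem PX_prime [IsAlgClosed k] [Finite σ] (h : Function.Bijective (Sum.elim ε η))
    (r : Ideal (MvPolynomial σ k)) (K : Ideal (MvPolynomial τ k)) [r.IsPrime] [K.IsPrime] :
    (r.map (rename ε) ⊔ K.map (rename η) : Ideal (MvPolynomial υ k)).IsPrime := by
  obtain ⟨e, -⟩ := PX_equiv h r K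
  have := PX_domain (k := k) (MvPolynomial σ k ⧸ r) (MvPolynomial τ k ⧸ K)
  exact (Ideal.Quotient.isDomain_iff_prime _).1 (e.toMulEquiv.isDomain _)

theorem PX_comap (h : Function.Bijective (Sum.elim ε η)) (r : Ideal (MvPolynomial σ k))
    {K : Ideal (MvPolynomial τ k)} (hK : K ≠ ⊤) :
    (r.map (rename ε) ⊔ K.map (rename η) : Ideal (MvPolynomial υ k)).comap (rename ε) = r := by
  obtain ⟨e, h1, -⟩ := PX_equiv h r K
  refine le_antisymm (fun f hf => ?_) fun f hf => Ideal.mem_sup_left (Ideal.mem_map_of_mem _ hf)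
  have hn : Nontrivial (MvPolynomial τ k ⧸ K) := Ideal.Quotient.nontrivial_iff.2 hK
  have h2 := h1 f
  rw [Ideal.Quotient.eq_zero_iff_mem.2 (Ideal.mem_comap.1 hf), map_zero] at h2
  rw [← Ideal.Quotient.eq_zero_iff_mem]
  refine Algebra.TensorProduct.includeLeft_injective (S := k) (A := MvPolynomial σ k ⧸ r)
    (algebraMap k (MvPolynomial τ k ⧸ K)).injective ?_
  rw [map_zero]
  exact h2.symm

theorem PX_flat (h : Function.Bijective (Sum.elim ε η)) (K : Ideal (MvPolynomial τ k)) :
    ((Ideal.Quotient.mk (K.map (rename η) : Ideal (MvPolynomial υ k))).comp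
      (rename ε : MvPolynomial σ k →ₐ[k] MvPolynomial υ k).toRingHom).Flat := by
  obtain ⟨e, h1, -⟩ := PX_equiv h ⊥ K
  have hI : ((⊥ : Ideal (MvPolynomial σ k)).map (rename ε) ⊔ K.map (rename η) :
      Ideal (MvPolynomial υ k)) = K.map (rename η) := by rw [Ideal.map_bot, bot_sup_eq]
  have f1 : (Ideal.Quotient.mk (⊥ : Ideal (MvPolynomial σ k))).Flat :=
    RingHom.Flat.of_bijective ((Ideal.Quotient.mk_bijective_iff_eq_bot _).2 rfl)
  have f2 : (algebraMap (MvPolynomial σ k ⧸ (⊥ : Ideal (MvPolynomial σ k)))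
      ((MvPolynomial σ k ⧸ (⊥ : Ideal (MvPolynomial σ k))) ⊗[k] (MvPolynomial τ k ⧸ K))).Flat :=
    RingHom.flat_algebraMap_iff.2 inferInstance
  have f3 := RingHom.Flat.of_bijective
    (R := (MvPolynomial σ k ⧸ (⊥ : Ideal (MvPolynomial σ k))) ⊗[k] (MvPolynomial τ k ⧸ K))
    (S := MvPolynomial υ k ⧸ K.map (rename η))
    (f := (e.symm.toRingEquiv.trans (Ideal.quotEquivOfEq hI)).toRingHom)
    (e.symm.toRingEquiv.trans (Ideal.quotEquivOfEq hI)).bijective
  convert (f1.comp f2).comp f3 using 1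
  refine RingHom.ext fun f => ?_
  have h2 : e.symm (Ideal.Quotient.mk ⊥ f ⊗ₜ 1) = Ideal.Quotient.mk _ (rename ε f) :=
    e.symm_apply_eq.2 (h1 f).symm
  exact (congrArg (Ideal.quotEquivOfEq hI) h2).symm

end Pool.Agent.Work.MP_10f4af_ag
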