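import Pool.Agent.Work.MP_10f4af_ag.G0
import Pool.Agent.Work.MP_10f4af_ag.PX

/-!
# Products of subvarieties

Plan.  `Bij.exists_pt`: build `z` blockwise, `z j = mk (fun s => Sum.elim (rp x) (rp y) (e.symm ⟨j, s⟩))`
with `e = Equiv.ofBijective _ h.ε`; the block `j` is `β.ψ i` or `γ.ψ i`, and `Crd.rp_pr`
shows that `β.pr z` and `x` have proportional representatives.  `Bij.exists_lift`: on points
choose the preimage of the pair; `rp_pr` follows from `β.rp_pr`, `γ.rp_pr`.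
`Bij.exists_xp`: the ideal is prime (`PX_prime`), homogeneous and relevant (`PX_comap`), so it is
`idl T` (`exists_idl`), and `T` is the product set (`subset_of_van`, `map_le_idl`).
`Bij.sdim_le`: as `sdim_le_add` in `Cyc/MvDefs`.  `Bij.sdim_xp`: `exists_fp` with `FP_toPt`
gives the lower bound in `P.sum Q`; transport along `β.pair γ` (`sdim_img_of_inj`).
`Bij.dI_sup`: every block of `S` is a block of `β` or of `γ` (`Inj.blk`).
-/

open MvPolynomial Topology TopologicalSpace Finsupp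

namespace Pool.Agent.Work.MP_10f4af_ag

open MP_ffcd14_ag hiding len vl cyc pl Weil idl_hmg mem_idl idl_prime idl_le_iff

universe u

variable {k : Type u} [Field k] {P Q S S' P' Q' : Amb}

/-- `S` is the product of `P` and `Q`, with projections `β` and `γ`. -/
structure Bij (β : Crd k P S) (γ : Crd k Q S) : Prop where
  ε : Function.Bijective (Sum.elim β.ε γ.ε)
  ψ : Function.Bijective (Sum.elim β.ψ γ.ψ)

/-- The coordinates of a product. -/
def G1_e : (P.sum Q).V ≃ P.V ⊕ Q.V where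
  toFun := Amb.elim Sum.inl Sum.inr
  invFun := Sum.elim vl vr
  left_inv := by rintro ⟨i | i, s⟩ <;> rfl
  right_inv := by rintro (s | s) <;> rfl

theorem G1_elim {α : Type} (f : P.V → α) (g : Q.V → α) : Amb.elim f g = Sum.elim f g ∘ G1_e :=
  funext (by rintro ⟨i | i, s⟩ <;> rfl)

theorem G1_swap {A B C : Type} {f : A → C} {g : B → C} (h : Function.Bijective (Sum.elim f g)) :
    Function.Bijective (Sum.elim g f) := by
  convert h.comp (Equiv.sumComm B A).bijective using 1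
  funext s
  rcases s with s | s <;> rfl

theorem G1_assoc {A B C D E F : Type} {f : A → C} {g : B → C} {m : C → E} {t : D → E}
    (h : Function.Bijective (Sum.elim f g)) (h' : Function.Bijective (Sum.elim m t))
    (e : F ≃ B ⊕ D) : Function.Bijective (Sum.elim (m ∘ f) (Sum.elim (m ∘ g) t ∘ e)) := by
  convert (h'.comp (h.sumMap Function.bijective_id)).comp ((Equiv.sumAssoc A B D).symm.bijective.comp
    (Function.bijective_id.sumMap e.bijective)) using 1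
  funext s
  rcases s with s | s
  · rfl
  · simp only [Sum.elim_inr, Function.comp_apply, Sum.map_inr]
    rcases e s with s | s <;> rfl

theorem G1_empty {A B C : Type} [IsEmpty B] {f : A → C} (g : B → C) (h : Function.Bijective f) :
    Function.Bijective (Sum.elim f g) := by
  convert h.comp (Equiv.sumEmpty A B).bijective using 1
  funext s
  rcases s with s | s
  exacts [rfl, isEmptyElim s]

theorem G1_pt {x z : P.Pt k} {μ : P.ι → k} (h : ∀ s, rp z s = μ s.1 * rp x s) : z = x :=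
  funext fun i => by
    rw [← (z i).mk_rep, ← (x i).mk_rep, Projectivization.mk_eq_mk_iff']
    exact ⟨μ i, funext fun s => (h ⟨i, s⟩).symm⟩

theorem G1_map (ε : P.V → S.V) (μ : S.V → S'.V) (p : Ideal (MvPolynomial P.V k)) :
    (p.map (rename ε) : Ideal (MvPolynomial S.V k)).map (rename μ) =
      (p.map (rename (μ ∘ ε)) : Ideal (MvPolynomial S'.V k)) := by
  rw [Ideal.map_mapₐ, rename_comp_rename]

theorem G1_dI (ε η : P.V → S.V) : dI k ε η =
    Ideal.span {f | ∃ a b : P.V, a.1 = b.1 ∧ f = X (ε a) * X (η b) - X (ε b) * X (η a)} := by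
  refine congrArg Ideal.span (Set.ext fun f => ⟨?_, ?_⟩)
  · rintro ⟨i, s, t, e⟩
    exact ⟨⟨i, s⟩, ⟨i, t⟩, rfl, e⟩
  · rintro ⟨⟨i, s⟩, ⟨j, t⟩, rfl, e⟩
    exact ⟨i, s, t, e⟩

theorem G1_ex {p : S.V → Prop} {j : S.ι} {a : S.V} (h : a.1 = j) (h' : p a) : ∃ s, p ⟨j, s⟩ := by
  subst h
  exact ⟨a.2, h'⟩

theorem bij_sum : Bij (Crd.inl k P Q) (Crd.inr k P Q) := ⟨G1_e.symm.bijective, ⟨by
  rintro (i | i) (j | j) h <;> exact h, by
  rintro (i | i)
  exacts [⟨Sum.inl i, rfl⟩, ⟨Sum.inr i, rfl⟩]⟩⟩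

theorem bij_pt {β : Crd k P S} (h : Function.Bijective β.ε) (h' : Function.Bijective β.ψ) :
    Bij β (FP_toPt k S) :=
  have : IsEmpty FP_pt.V := ⟨fun s => s.1.elim⟩
  have : IsEmpty FP_pt.ι := ⟨fun s => s.elim⟩
  ⟨G1_empty _ h, G1_empty _ h'⟩

theorem ex_single (ε : P.V → S.V) (η : Q.V → S.V) (p : Ideal (MvPolynomial P.V k))
    (q : Ideal (MvPolynomial Q.V k)) : ex ε η (single p 1) (single q 1) =
      single (p.map (rename ε) ⊔ q.map (rename η)) (1 : ℚ) := by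
  simp [ex]

theorem G1_single (ε : P.V → S.V) (η : Q.V → S.V) (p : Ideal (MvPolynomial P.V k))
    (q : Ideal (MvPolynomial Q.V k)) (x y : ℚ) : ex ε η (single p x) (single q y) =
      single (p.map (rename ε) ⊔ q.map (rename η)) (x * y) := by
  rw [← smul_single_one p x, ← smul_single_one q y, map_smul, map_smul, LinearMap.smul_apply,
    ex_single, smul_smul, smul_single_one, mul_comm]

theorem ex_swap (ε : P.V → S.V) (η : Q.V → S.V) (a : Cyc k P) (b : Cyc k Q) :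
    ex ε η a b = ex η ε b a := by
  induction a using Finsupp.induction_linear with
  | zero => simp
  | add a a' h h' => simp [h, h']
  | single p c =>
    induction b using Finsupp.induction_linear with
    | zero => simp
    | add b b' h h' => simp [h, h']
    | single q d => simp [ex, sup_comm, mul_comm]

theorem ex_assoc {ε : P.V → S.V} {η : Q.V → S.V} {μ : S.V → S'.V} {θ : P'.V → S'.V}
    {ν : Q'.V → S'.V} {η' : Q.V → Q'.V} {θ' : P'.V → Q'.V} (h : μ ∘ η = ν ∘ η') (h' : θ = ν ∘ θ')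
    (a : Cyc k P) (b : Cyc k Q) (c : Cyc k P') :
    ex μ θ (ex ε η a b) c = ex (μ ∘ ε) ν a (ex η' θ' b c) := by
  induction a using Finsupp.induction_linear with
  | zero => simp
  | add a a' h h' => simp [h, h']
  | single p x =>
    induction b using Finsupp.induction_linear with
    | zero => simp
    | add b b' h h' => simp [h, h']
    | single q y =>
      induction c using Finsupp.induction_linear with
      | zero => simp
      | add c c' h h' => simp [h, h']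
      | single r z =>
        simp only [G1_single, Ideal.map_sup, G1_map, h, h', sup_assoc, mul_assoc]

namespace Bij

variable {β : Crd k P S} {γ : Crd k Q S} (h : Bij β γ)
include h

theorem symm : Bij γ β := ⟨G1_swap h.ε, G1_swap h.ψ⟩

theorem inj : Inj β := by
  refine ⟨(Sum.elim_injective.1 h.ψ.1).1, (Sum.elim_injective.1 h.ε.1).1, fun s i e => ?_⟩
  obtain ⟨t | t, rfl⟩ := h.ε.2 s
  · exact ⟨t, rfl⟩
  · exact absurd (e.symm.trans (γ.fst t)) ((Sum.elim_injective.1 h.ψ.1).2.2 _ _)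

theorem ext {z z' : S.Pt k} (h1 : β.pr z = β.pr z') (h2 : γ.pr z = γ.pr z') : z = z' := by
  refine G1_pt (μ := 1) fun s => Eq.trans ?_ (one_mul _).symm
  obtain ⟨t | t, rfl⟩ := h.ε.2 s
  · exact (β.rp_pr z t).symm.trans (h1 ▸ β.rp_pr z' t)
  · exact (γ.rp_pr z t).symm.trans (h2 ▸ γ.rp_pr z' t)

theorem exists_pt (x : P.Pt k) (y : Q.Pt k) : ∃ z, β.pr z = x ∧ γ.pr z = y := by
  let e := Equiv.ofBijective _ h.ε
  let v : S.V → k := Sum.elim (rp x) (rp y) ∘ e.symm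
  have h1 : ∀ s, v (β.ε s) = rp x s := fun s =>
    congrArg (Sum.elim (rp x) (rp y)) (e.symm_apply_apply (Sum.inl s))
  have h2 : ∀ s, v (γ.ε s) = rp y s := fun s =>
    congrArg (Sum.elim (rp x) (rp y)) (e.symm_apply_apply (Sum.inr s))
  obtain ⟨z, μ, -, hz⟩ := MP_ffcd14_ag.exists_pt v fun j => by
    obtain ⟨i | i, rfl⟩ := h.ψ.2 j
    · obtain ⟨s, hs⟩ := Function.ne_iff.1 (x i).rep_nonzero
      exact G1_ex (p := fun s => v s ≠ 0) (β.fst ⟨i, s⟩) ((h1 _).trans_ne hs)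
    · obtain ⟨s, hs⟩ := Function.ne_iff.1 (y i).rep_nonzero
      exact G1_ex (p := fun s => v s ≠ 0) (γ.fst ⟨i, s⟩) ((h2 _).trans_ne hs)
  exact ⟨z, G1_pt (μ := μ ∘ β.ψ) fun s => by rw [β.rp_pr, hz]; simp only [h1, β.fst]; rfl,
    G1_pt (μ := μ ∘ γ.ψ) fun s => by rw [γ.rp_pr, hz]; simp only [h2, γ.fst]; rfl⟩

theorem exists_lift (α : Crd k P S') (α' : Crd k Q S') : ∃ j : Crd k S S',
    j.ε ∘ β.ε = α.ε ∧ j.ε ∘ γ.ε = α'.ε ∧ j.ψ ∘ β.ψ = α.ψ ∧ j.ψ ∘ γ.ψ = α'.ψ ∧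
      (∀ y, β.pr (j.pr y) = α.pr y) ∧ ∀ y, γ.pr (j.pr y) = α'.pr y := by
  let e := Equiv.ofBijective _ h.ε
  let e' := Equiv.ofBijective _ h.ψ
  let ε : S.V → S'.V := Sum.elim α.ε α'.ε ∘ e.symm
  let ψ : S.ι → S'.ι := Sum.elim α.ψ α'.ψ ∘ e'.symm
  have h1 : ∀ s, ε (β.ε s) = α.ε s := fun s =>
    congrArg (Sum.elim α.ε α'.ε) (e.symm_apply_apply (Sum.inl s))
  have h2 : ∀ s, ε (γ.ε s) = α'.ε s := fun s =>
    congrArg (Sum.elim α.ε α'.ε) (e.symm_apply_apply (Sum.inr s))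
  have h3 : ∀ s, ψ (β.ψ s) = α.ψ s := fun s =>
    congrArg (Sum.elim α.ψ α'.ψ) (e'.symm_apply_apply (Sum.inl s))
  have h4 : ∀ s, ψ (γ.ψ s) = α'.ψ s := fun s =>
    congrArg (Sum.elim α.ψ α'.ψ) (e'.symm_apply_apply (Sum.inr s))
  choose z h5 h6 using fun y => h.exists_pt (α.pr y) (α'.pr y)
  refine ⟨⟨ε, ψ, fun s => ?_, z, fun y s => ?_⟩, funext h1, funext h2, funext h3, funext h4, h5, h6⟩
  · obtain ⟨t | t, rfl⟩ := h.ε.2 s
    · rw [Sum.elim_inl, h1, β.fst, h3, α.fst]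
    · rw [Sum.elim_inr, h2, γ.fst, h4, α'.fst]
  · obtain ⟨t | t, rfl⟩ := h.ε.2 s
    · rw [Sum.elim_inl, h1, ← β.rp_pr, h5, α.rp_pr]
    · rw [Sum.elim_inr, h2, ← γ.rp_pr, h6, α'.rp_pr]

/-- Regrouping `(P × Q) × P' = P × (Q × P')`. -/
theorem assoc {μ : Crd k S S'} {θ : Crd k P' S'} (h' : Bij μ θ) :
    Bij (β.comp μ) ((γ.comp μ).pair θ) :=
  ⟨(congrArg (fun f => Function.Bijective (Sum.elim (μ.ε ∘ β.ε) f)) (G1_elim _ _)).mpr
    (G1_assoc h.ε h'.ε G1_e), G1_assoc h.ψ h'.ψ (Equiv.refl _)⟩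

/-- Regrouping `P × (P' × Q') = (P × P') × Q'`. -/
theorem assoc' {η : Crd k P' Q} {θ : Crd k Q' Q} (h' : Bij η θ) :
    Bij (β.pair (η.comp γ)) (θ.comp γ) := by
  have h1 := G1_swap (G1_assoc (G1_swap h'.ε) (G1_swap h.ε) (G1_e.trans (Equiv.sumComm _ _)))
  have h2 := G1_swap (G1_assoc (G1_swap h'.ψ) (G1_swap h.ψ) (Equiv.sumComm _ _))
  exact ⟨(congrArg (fun f => Function.Bijective (Sum.elim f (γ.ε ∘ θ.ε)))
      (funext (by rintro ⟨i | i, s⟩ <;> rfl))).mp h1,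
    (congrArg (fun f => Function.Bijective (Sum.elim f (γ.ψ ∘ θ.ψ)))
      (funext (by rintro (i | i) <;> rfl))).mp h2⟩

theorem map (T : Amb) : Bij (β.map T) (γ.comp (Crd.inl k S T)) := (h.symm.assoc bij_sum).symm

theorem pair_inj : Inj (β.pair γ) := by
  have h1 : Function.Bijective (β.pair γ).ε :=
    (congrArg Function.Bijective (G1_elim _ _)).mpr (h.ε.comp G1_e.bijective)
  exact ⟨h.ψ.1, h1.1, fun s _ _ => h1.2 s⟩

theorem dI_sup (ε η : S.V → S'.V) :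
    dI k ε η = dI k (ε ∘ β.ε) (η ∘ β.ε) ⊔ dI k (ε ∘ γ.ε) (η ∘ γ.ε) := by
  have key : ∀ {P : Amb} {β : Crd k P S}, dI k (ε ∘ β.ε) (η ∘ β.ε) ≤ dI k ε η := by
    intro P β
    rw [G1_dI, G1_dI]
    refine Ideal.span_mono ?_
    rintro _ ⟨a, b, e, rfl⟩
    exact ⟨β.ε a, β.ε b, by rw [β.fst, β.fst, e], rfl⟩
  have key' : ∀ {P : Amb} {β : Crd k P S}, Inj β → ∀ a b, (β.ε a).1 = b.1 →
      X (ε (β.ε a)) * X (η b) - X (ε b) * X (η (β.ε a)) ∈ dI k (ε ∘ β.ε) (η ∘ β.ε) := by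
    intro P β hβ a b e
    obtain ⟨b, rfl⟩ := hβ.blk b a.1 (e.symm.trans (β.fst a))
    rw [G1_dI]
    exact Ideal.subset_span ⟨a, b, hβ.ψ (by rw [← β.fst, ← β.fst, e]), rfl⟩
  refine le_antisymm ?_ (sup_le key key)
  rw [G1_dI ε, Ideal.span_le]
  rintro _ ⟨a, b, e, rfl⟩
  obtain ⟨t | t, rfl⟩ := h.ε.2 a
  · exact Ideal.mem_sup_left (key' h.inj t b e)
  · exact Ideal.mem_sup_right (key' h.symm.inj t b e)

variable [IsAlgClosed k]

theorem exists_xp (V : Sub k P) (W : Sub k Q) : ∃ T : Sub k S,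
    (∀ z, z ∈ T ↔ β.pr z ∈ V ∧ γ.pr z ∈ W) ∧ idl (T : Set (S.Pt k)) =
      (idl (V : Set (P.Pt k))).map (rename β.ε) ⊔ (idl (W : Set (Q.Pt k))).map (rename γ.ε) := by
  have := PX_prime h.ε (idl (V : Set (P.Pt k))) (idl (W : Set (Q.Pt k)))
  obtain ⟨T, hT⟩ := exists_idl (q := (idl (V : Set (P.Pt k))).map (rename β.ε) ⊔
      (idl (W : Set (Q.Pt k))).map (rename γ.ε))
    ((Hmg_map β (idl_hmg _)).sup (Hmg_map γ (idl_hmg _))) fun j => by
      obtain ⟨i | i, rfl⟩ := h.ψ.2 j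
      · obtain ⟨s, hs⟩ := rel_idl V i
        refine G1_ex (p := fun s => X s ∉ _) (β.fst ⟨i, s⟩) fun e => hs ?_
        rw [← PX_comap h.ε (idl (V : Set (P.Pt k))) (idl_prime W).ne_top, Ideal.mem_comap, rename_X]
        exact e
      · obtain ⟨s, hs⟩ := rel_idl W i
        refine G1_ex (p := fun s => X s ∉ _) (γ.fst ⟨i, s⟩) fun e => hs ?_
        rw [← PX_comap h.symm.ε (idl (W : Set (Q.Pt k))) (idl_prime V).ne_top, Ideal.mem_comap,
          rename_X, sup_comm]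
        exact e
  refine ⟨T, fun z => ⟨fun hz => ⟨?_, ?_⟩, fun hz => ?_⟩, hT.symm⟩
  · exact idl_le_iff.1 ((map_le_idl β (idl_hmg _)).1 (le_sup_left.trans hT.le)) (β.mem_img hz)
  · exact idl_le_iff.1 ((map_le_idl γ (idl_hmg _)).1 (le_sup_right.trans hT.le)) (γ.mem_img hz)
  · refine idl_le_iff.1 (hT.ge.trans (sup_le (map_idl_le β fun y hy => ?_)
      (map_idl_le γ fun y hy => ?_))) (show z ∈ ({z} : Sub k S) from rfl)
    · rw [show y = z from hy]
      exact hz.1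
    · rw [show y = z from hy]
      exact hz.2

/-- The product of two subvarieties. -/
noncomputable def xp (V : Sub k P) (W : Sub k Q) : Sub k S := (h.exists_xp V W).choose

theorem mem_xp {V : Sub k P} {W : Sub k Q} {z : S.Pt k} :
    z ∈ h.xp V W ↔ β.pr z ∈ V ∧ γ.pr z ∈ W := (h.exists_xp V W).choose_spec.1 z

theorem idl_xp (V : Sub k P) (W : Sub k Q) : idl (h.xp V W : Set (S.Pt k)) =
    (idl (V : Set (P.Pt k))).map (rename β.ε) ⊔ (idl (W : Set (Q.Pt k))).map (rename γ.ε) :=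
  (h.exists_xp V W).choose_spec.2

theorem ex_cS (V : Sub k P) (W : Sub k Q) : ex β.ε γ.ε (cS V) (cS W) = cS (h.xp V W) := by
  rw [cS, cS, cS, ex_single, idl_xp]

theorem xp_symm (V : Sub k P) (W : Sub k Q) : h.symm.xp W V = h.xp V W :=
  idl_inj (by rw [idl_xp, idl_xp, sup_comm])

theorem le_xp {V : Sub k P} {W : Sub k Q} {U : Sub k S} :
    U ≤ h.xp V W ↔ β.img U ≤ V ∧ γ.img U ≤ W :=
  ⟨fun H => ⟨(β.img_sub V.isClosed).2 fun _ hx => (h.mem_xp.1 (H hx)).1,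
    (γ.img_sub W.isClosed).2 fun _ hx => (h.mem_xp.1 (H hx)).2⟩,
    fun H _ hx => h.mem_xp.2 ⟨H.1 (β.mem_img hx), H.2 (γ.mem_img hx)⟩⟩

theorem img_xp (V : Sub k P) (W : Sub k Q) : β.img (h.xp V W) = V := by
  refine le_antisymm (h.le_xp.1 le_rfl).1 fun x hx => ?_
  obtain ⟨y, hy⟩ := W.isIrreducible.nonempty
  obtain ⟨z, rfl, rfl⟩ := h.exists_pt x y
  exact β.mem_img (h.mem_xp.2 ⟨hx, hy⟩)

theorem img_xp' (V : Sub k P) (W : Sub k Q) : γ.img (h.xp V W) = W := by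
  rw [← xp_symm, img_xp]

theorem sdim_le (U : Sub k S) : sdim U ≤ sdim (β.img U) + sdim (γ.img U) := by
  obtain ⟨x, hx⟩ := U.isIrreducible.nonempty
  obtain ⟨T, h1, -, h2, h3⟩ := fib_low β hx
  have h4 := sdim_img_of_inj γ (U := T) fun x hx y hy e => h.ext (h2 x hx y hy) e
  have h5 := sdim_mono (γ.img_mono h1)
  omega

theorem sdim_xp (V : Sub k P) (W : Sub k Q) : sdim (h.xp V W) = sdim V + sdim W := by
  refine le_antisymm ((h.sdim_le _).trans_eq (by rw [img_xp, img_xp'])) ?_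
  have hle : ∀ Z Z' : Sub k FP_pt, Z ≤ Z' := fun Z Z' x _ => by
    obtain ⟨y, hy⟩ := Z'.isIrreducible.nonempty
    have : x = y := funext fun i => i.elim
    exact this ▸ hy
  obtain ⟨B, h1, h2, -, h3⟩ := exists_fp (FP_toPt k P) (FP_toPt k Q) (E := V) (E' := W)
    (le_antisymm (hle _ _) (hle _ _))
  have h0 := sdim_le_card ((FP_toPt k P).img V)
  have h4 : IsEmpty FP_pt.V := ⟨fun s => s.1.elim⟩
  rw [Nat.card_of_isEmpty (α := FP_pt.V)] at h0
  have h5 : B ≤ (β.pair γ).img (h.xp V W) := fun b hb => by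
    obtain ⟨z, e1, e2⟩ := h.exists_pt ((Crd.inl k P Q).pr b) ((Crd.inr k P Q).pr b)
    rw [← sum_ext (x := (β.pair γ).pr z) e1 e2]
    exact (β.pair γ).mem_img (h.mem_xp.2 ⟨e1 ▸ h1 ▸ Crd.mem_img _ hb, e2 ▸ h2 ▸ Crd.mem_img _ hb⟩)
  have h6 := (sdim_mono h5).trans (Crd.sdim_img_le _ _)
  omega

theorem ex_mem {c : Sub k P → Prop} {c' : Sub k Q → Prop} {a : Cyc k P} {b : Cyc k Q}
    (ha : a ∈ Sp c) (hb : b ∈ Sp c') :
    ex β.ε γ.ε a b ∈ Sp fun T => ∃ V W, c V ∧ c' W ∧ T = h.xp V W :=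
  Sp_map ((ex β.ε γ.ε).flip b) _ (fun V hV => Sp_map (ex β.ε γ.ε (cS V)) _
    (fun W hW => by rw [h.ex_cS]; exact cS_mem ⟨V, W, hV, hW, rfl⟩) hb) ha

theorem ex_apply {c : Sub k P → Prop} {a : Cyc k P} (ha : a ∈ Sp c) (V : Sub k P) (W : Sub k Q) :
    ex β.ε γ.ε a (cS W) (idl (h.xp V W : Set (S.Pt k))) = a (idl (V : Set (P.Pt k))) := by
  refine Sp_ext ((Finsupp.lapply (idl (h.xp V W : Set (S.Pt k)))).comp ((ex β.ε γ.ε).flip (cS W)))
    (Finsupp.lapply (idl (V : Set (P.Pt k)))) (fun Z _ => ?_) ha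
  change ex β.ε γ.ε (cS Z) (cS W) _ = cS Z _
  rw [h.ex_cS]
  by_cases e : Z = V
  · rw [e, cS_self, cS_self]
  · rw [cS_ne e, cS_ne fun e' => e (by rw [← h.img_xp Z W, e', img_xp])]

end Bij

end Pool.Agent.Work.MP_10f4af_ag
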