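import Pool.Agent.Work.MP_10f4af_ag.G0

/-!
# Cutting with forms

Plan.  `min_form`: `min_iff`, `krg`, `sdim_lt`, `eq_of_sdim_le`.  `of_mult`: induction on `fs`
generalising `V` with `mult_cons_ne`; the intermediate prime is homogeneous (`Hmg_min`) and
relevant (`Rel.anti`, `le_of_mult`), so it is `idl` of a subvariety.  `krull_list`: induction with
`krg`.  `mult_pos`: induction; `f` does not vanish on `V` by `krull_list` for the tail and
`min_iff`; choose the component through `T` with `krg`.  `cut_append`: a prime which is not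
relevant has only such primes above it (`le_of_mult`, `dvs_apply`).
-/

open MvPolynomial Topology TopologicalSpace Finsupp

namespace Pool.Agent.Work.MP_10f4af_ag

open MP_ffcd14_ag hiding len vl cyc pl Weil idl_hmg mem_idl idl_prime idl_le_iff

universe u

variable {k : Type u} [Field k] {P Q S S' : Amb}

open Classical in
/-- Iterated divisors, the empty components being discarded. -/
noncomputable def cut (fs : List (MvPolynomial P.V k)) : Cyc k P →ₗ[ℚ] Cyc k P where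
  toFun a := (dvs fs a).filter Rel
  map_add' a b := by rw [map_add, filter_add]
  map_smul' c a := by rw [map_smul, filter_smul]; rfl

theorem cut_rel (fs : List (MvPolynomial P.V k)) (a : Cyc k P) {q : Ideal (MvPolynomial P.V k)}
    (h : Rel q) : cut fs a q = dvs fs a q := by
  classical
  exact filter_apply_pos _ _ h

theorem cut_not_rel (fs : List (MvPolynomial P.V k)) (a : Cyc k P)
    {q : Ideal (MvPolynomial P.V k)} (h : ¬ Rel q) : cut fs a q = 0 := by
  classical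
  exact filter_apply_neg _ _ h

theorem cut_cS (fs : List (MvPolynomial P.V k)) (V T : Sub k P) :
    cut fs (cS V) (idl (T : Set (P.Pt k))) =
      mult fs (idl (V : Set (P.Pt k))) (idl (T : Set (P.Pt k))) := by
  rw [cut_rel _ _ (rel_idl T), mult_eq, cS]

theorem cut_append (fs gs : List (MvPolynomial P.V k)) (a : Cyc k P) :
    cut (fs ++ gs) a = cut gs (cut fs a) := by
  ext q
  by_cases h : Rel q
  · rw [cut_rel _ _ h, cut_rel _ _ h, dvs_append]
    exact dvs_congr gs fun r hr => (cut_rel fs a (h.anti hr)).symm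
  · rw [cut_not_rel _ _ h, cut_not_rel _ _ h]

theorem cut_nil (V : Sub k P) : cut [] (cS V) = cS V := by
  ext q
  by_cases h : Rel q
  · exact cut_rel _ _ h
  · rw [cut_not_rel _ _ h]
    exact (single_eq_of_ne (by rintro rfl; exact h (rel_idl V))).symm
open Classical in
theorem Gc_one (f : MvPolynomial P.V k) (V : Sub k P) :
    cut [f] (cS V) = (dv f (single (idl (V : Set (P.Pt k))) 1)).filter Rel := rfl


theorem cut_van {V : Sub k P} {f : MvPolynomial P.V k} {a : P.ι →₀ ℕ} (hf : IsForm f a)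
    (h : Van (V : Set (P.Pt k)) f) : cut [f] (cS V) = 0 := by
  rw [Gc_one, dv_of_mem ((mem_idl hf).2 h), filter_zero]

theorem cut_congr {V : Sub k P} {f g : MvPolynomial P.V k} (h : f - g ∈ idl (V : Set (P.Pt k))) :
    cut [f] (cS V) = cut [g] (cS V) := by
  rw [Gc_one, Gc_one, dv_congr h]

theorem cut_mul {V : Sub k P} {f g : MvPolynomial P.V k} (hf : ¬ Van (V : Set (P.Pt k)) f)
    (hg : ¬ Van (V : Set (P.Pt k)) g) :
    cut [f * g] (cS V) = cut [f] (cS V) + cut [g] (cS V) := by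
  classical
  rw [Gc_one, Gc_one, Gc_one, dv_mul (mt van_idl hf) (mt van_idl hg), filter_add]

variable [IsAlgClosed k]
omit [IsAlgClosed k] in
theorem Gc_van {U V : Sub k P} {f : MvPolynomial P.V k} (h : U ≤ V)
    (hf : Van (V : Set (P.Pt k)) f) : Van (U : Set (P.Pt k)) f := fun x hx => hf x (h hx)

omit [IsAlgClosed k] in
theorem Gc_hmg {f : MvPolynomial P.V k} {a : P.ι →₀ ℕ} (hf : IsForm f a) :
    Hmg (Ideal.span {f}) := Hmg.span fun _ hg => ⟨a, hg ▸ hf⟩


theorem min_form {V T : Sub k P} {f : MvPolynomial P.V k} {a : P.ι →₀ ℕ} (hf : IsForm f a)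
    (h : ¬ Van (V : Set (P.Pt k)) f) :
    idl (T : Set (P.Pt k)) ∈ (idl (V : Set (P.Pt k)) ⊔ Ideal.span {f}).minimalPrimes ↔
      T ≤ V ∧ Van (T : Set (P.Pt k)) f ∧ sdim T + 1 = sdim V := by
  simp only [min_iff (Gc_hmg hf), Ideal.span_singleton_le_iff_mem, mem_idl hf]
  refine and_congr_right fun h1 => and_congr_right fun h2 => ⟨fun h3 => ?_, fun h3 U h4 h5 h6 => ?_⟩
  · obtain ⟨U, u1, u2, u3, u4⟩ := krg h1 hf h h2
    rwa [← h3 U u1 u2 u3]
  · have h7 := sdim_lt (h5.lt_of_ne fun e => h (e ▸ h6))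
    exact (eq_of_sdim_le h4 (by omega)).symm

theorem of_mult {fs : List (MvPolynomial P.V k)} (hf : Fm fs) {V : Sub k P}
    {q : Ideal (MvPolynomial P.V k)} (h : mult fs (idl (V : Set (P.Pt k))) q ≠ 0) (hq : Rel q) :
    ∃ T : Sub k P, q = idl (T : Set (P.Pt k)) ∧ T ≤ V ∧ sdim T + fs.length = sdim V ∧
      ∀ f ∈ fs, Van (T : Set (P.Pt k)) f := by
  induction fs generalizing V with
  | nil =>
    rw [mult_eq, dvs_nil] at h
    exact ⟨V, by_contra fun e => h (single_eq_of_ne e), le_rfl, rfl, by simp⟩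
  | cons f fs ih =>
    obtain ⟨h1, r, h2, h3⟩ := mult_cons_ne.1 h
    obtain ⟨a, ha⟩ := hf f List.mem_cons_self
    have := h2.1.1
    obtain ⟨U, rfl⟩ := exists_idl (Hmg_min ((idl_hmg _).sup (Gc_hmg ha)) h2)
      (hq.anti (le_sup_left.trans (le_of_mult h3)))
    obtain ⟨u1, u2, u3⟩ := (min_form ha (mt (mem_idl ha).2 h1)).1 h2
    obtain ⟨T, t1, t2, t3, t4⟩ := ih (fun g hg => hf g (List.mem_cons_of_mem _ hg)) h3
    exact ⟨T, t1, t2.trans u1, by rw [List.length_cons]; omega,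
      List.forall_mem_cons.2 ⟨Gc_van t2 u2, t4⟩⟩

theorem krull_list {fs : List (MvPolynomial P.V k)} (hf : Fm fs) {V T : Sub k P} (h : T ≤ V)
    (hv : ∀ f ∈ fs, Van (T : Set (P.Pt k)) f) : ∃ U, T ≤ U ∧ U ≤ V ∧
      (∀ f ∈ fs, Van (U : Set (P.Pt k)) f) ∧ sdim V ≤ sdim U + fs.length := by
  induction fs with
  | nil => exact ⟨V, h, le_rfl, by simp, le_rfl⟩
  | cons f fs ih =>
    obtain ⟨a, ha⟩ := hf f List.mem_cons_self
    obtain ⟨h1, h2⟩ := List.forall_mem_cons.1 hv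
    obtain ⟨U, u1, u2, u3, u4⟩ := ih (fun g hg => hf g (List.mem_cons_of_mem _ hg)) h2
    rw [List.length_cons]
    by_cases h3 : Van (U : Set (P.Pt k)) f
    · exact ⟨U, u1, u2, List.forall_mem_cons.2 ⟨h3, u3⟩, by omega⟩
    · obtain ⟨W, w1, w2, w3, w4⟩ := krg u1 ha h3 h1
      exact ⟨W, w1, w2.trans u2,
        List.forall_mem_cons.2 ⟨w3, fun g hg => Gc_van w2 (u3 g hg)⟩, by omega⟩

theorem mult_pos {fs : List (MvPolynomial P.V k)} (hf : Fm fs) {V T : Sub k P}
    (h : idl (T : Set (P.Pt k)) ∈ (idl (V : Set (P.Pt k)) ⊔ Ideal.ofList fs).minimalPrimes)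
    (hd : sdim T + fs.length = sdim V) :
    0 < mult fs (idl (V : Set (P.Pt k))) (idl (T : Set (P.Pt k))) := by
  refine (mult_nonneg _ _ _).lt_of_ne' ?_
  simp only [min_iff hf.hmg, ofList_le_idl hf] at h
  induction fs generalizing V with
  | nil =>
    rw [mult_eq, dvs_nil, eq_of_sdim_le h.1 hd.ge, single_eq_same]
    exact one_ne_zero
  | cons f fs ih =>
    obtain ⟨a, ha⟩ := hf f List.mem_cons_self
    have hf' : Fm fs := fun g hg => hf g (List.mem_cons_of_mem _ hg)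
    obtain ⟨h1, h2, h3⟩ := h
    obtain ⟨h4, h5⟩ := List.forall_mem_cons.1 h2
    rw [List.length_cons] at hd
    have h6 : ¬ Van (V : Set (P.Pt k)) f := fun h6 => by
      obtain ⟨U, u1, u2, u3, u4⟩ := krull_list hf' h1 h5
      rw [h3 U u1 u2 (List.forall_mem_cons.2 ⟨Gc_van u2 h6, u3⟩)] at u4
      omega
    obtain ⟨U, u1, u2, u3, u4⟩ := krg h1 ha h6 h4
    exact mult_cons_ne.2 ⟨mt van_idl h6, _, (min_form ha h6).2 ⟨u2, u3, u4⟩,
      ih hf' (by omega) ⟨u1, h5, fun W w1 w2 w3 => h3 W w1 (w2.trans u2)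
        (List.forall_mem_cons.2 ⟨Gc_van w2 u3, w3⟩)⟩⟩

theorem cut_mem {fs : List (MvPolynomial P.V k)} (hf : Fm fs) (V : Sub k P) :
    cut fs (cS V) ∈ Sp fun T => T ≤ V ∧ sdim T + fs.length = sdim V ∧
      ∀ f ∈ fs, Van (T : Set (P.Pt k)) f := by
  refine mem_Sp.2 fun q hq => ?_
  have h : Rel q := by_contra fun h => hq (cut_not_rel _ _ h)
  rw [cut_rel _ _ h, cS, ← mult_eq] at hq
  obtain ⟨T, h1, h2⟩ := of_mult hf hq h
  exact ⟨T, h2, h1⟩

theorem cut_unit {V : Sub k P} {f : MvPolynomial P.V k} {a : P.ι →₀ ℕ} (hf : IsForm f a)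
    (h : ∀ x ∈ V, ev x f ≠ 0) : cut [f] (cS V) = 0 := by
  refine Sp_bot (Sp_mono (fun T hT => ?_)
    (cut_mem (fs := [f]) (List.forall_mem_singleton.2 ⟨a, hf⟩) V))
  obtain ⟨x, hx⟩ := T.isIrreducible.nonempty
  exact h x (hT.1 hx) (hT.2.2 f List.mem_cons_self x hx)

theorem cut_ne_zero {V : Sub k P} (h : 0 < sdim V) :
    ∃ f a, IsForm f a ∧ cut [f] (cS V) ≠ 0 := by
  obtain ⟨x, hx⟩ := V.isIrreducible.nonempty
  obtain ⟨g, h1, h2, h3⟩ := exists_form_pt h x (a := equivFunOnFinite.symm fun _ => 1)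
    fun _ => Nat.one_pos
  obtain ⟨T, -, t2, t3, t4⟩ := krg (U := {x}) (Z := V) (fun y hy => hy ▸ hx) h1 h3
    fun y hy => hy ▸ h2
  refine ⟨g, _, h1, fun e => ?_⟩
  have h4 := cut_cS [g] V T
  rw [e] at h4
  exact mult_one_ne.2 ⟨mt van_idl h3, (min_form h1 h3).2 ⟨t2, t3, t4⟩⟩ h4.symm

end Pool.Agent.Work.MP_10f4af_ag
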