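import Pool.Agent.Work.MP_10f4af_ag.G1
import Pool.Agent.Work.MP_10f4af_ag.Gc
import Pool.Agent.Work.MP_10f4af_ag.CA5

/-!
# Cutting a product

Plan.  One form: `dv_base` with `φ = rename β.ε`, `K = (idl W).map (rename γ.ε)` (`PX_flat`,
`PX_prime`, `PX_comap`); for a prime `r` the ideal `r.map φ ⊔ K` is relevant iff `r` is.  Then
induction on the list with `cut_append`, `cut_mem`, `Sp_ext`.
-/

open MvPolynomial Topology TopologicalSpace Finsupp

namespace Pool.Agent.Work.MP_10f4af_ag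

open MP_ffcd14_ag hiding len vl cyc pl Weil idl_hmg mem_idl idl_prime idl_le_iff

universe u

variable {k : Type u} [Field k] [IsAlgClosed k] {P Q S : Amb} {β : Crd k P S} {γ : Crd k Q S}

theorem G1c_filter {α δ M : Type*} [AddCommMonoid M] (e : α → δ) (p : α → Prop) (q : δ → Prop)
    [DecidablePred p] [DecidablePred q] (a : α →₀ M) (h : ∀ x ∈ a.support, q (e x) ↔ p x) :
    (mapDomain e a).filter q = mapDomain e (a.filter p) := by
  conv_rhs => rw [← a.sum_single, Finsupp.sum, filter_sum, mapDomain_finsetSum]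
  rw [mapDomain, Finsupp.sum, filter_sum]
  refine Finset.sum_congr rfl fun x hx => ?_
  by_cases hp : p x
  · rw [filter_single_of_pos _ hp, filter_single_of_pos _ ((h x hx).2 hp), mapDomain_single]
  · rw [filter_single_of_neg _ hp, filter_single_of_neg _ (mt (h x hx).1 hp), mapDomain_zero]

omit [IsAlgClosed k] in
theorem G1c_rel {q : Ideal (MvPolynomial P.V k)} :
    Rel q ↔ ∀ i, ∃ v : P.V, v.1 = i ∧ X v ∉ q :=
  forall_congr' fun i => ⟨fun ⟨s, hs⟩ => ⟨⟨i, s⟩, rfl, hs⟩, by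
    rintro ⟨⟨j, s⟩, rfl, hs⟩
    exact ⟨s, hs⟩⟩

omit [IsAlgClosed k] in
theorem G1c_iff (h : Bij β γ) (W : Sub k Q) {r : Ideal (MvPolynomial P.V k)} (hr : r ≠ ⊤) :
    Rel (r.map (rename β.ε) ⊔ (idl (W : Set (Q.Pt k))).map (rename γ.ε) :
      Ideal (MvPolynomial S.V k)) ↔ Rel r := by
  rw [G1c_rel, G1c_rel]
  constructor
  · intro H i
    obtain ⟨v, hv, hX⟩ := H (β.ψ i)
    obtain ⟨t, rfl⟩ := h.inj.blk v i hv
    refine ⟨t, h.inj.ψ ((β.fst t).symm.trans hv), fun ht => hX (Ideal.mem_sup_left ?_)⟩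
    exact rename_X (R := k) β.ε t ▸ Ideal.mem_map_of_mem (rename β.ε) ht
  · intro H j
    obtain ⟨i | i, rfl⟩ := h.ψ.2 j
    · obtain ⟨t, rfl, hX⟩ := H i
      refine ⟨β.ε t, β.fst t, fun ht => hX ?_⟩
      rw [← PX_comap h.ε r (idl_prime W).ne_top, Ideal.mem_comap, rename_X]
      exact ht
    · obtain ⟨t, rfl, hX⟩ := G1c_rel.1 (rel_idl W) i
      refine ⟨γ.ε t, γ.fst t, fun ht => hX ?_⟩
      rw [← PX_comap h.symm.ε (idl (W : Set (Q.Pt k))) hr, Ideal.mem_comap, rename_X, sup_comm]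
      exact ht

omit [IsAlgClosed k] in
theorem G1c_ex (ε : P.V → S.V) (η : Q.V → S.V) (a : Cyc k P) (q : Ideal (MvPolynomial Q.V k)) :
    ex ε η a (single q 1) = mapDomain (fun r => r.map (rename ε) ⊔ q.map (rename η)) a := by
  induction a using Finsupp.induction_linear with
  | zero => rw [map_zero, mapDomain_zero, LinearMap.zero_apply]
  | add a b ha hb => rw [map_add, mapDomain_add, LinearMap.add_apply, ha, hb]
  | single p c =>
    rw [← smul_single_one, map_smul, LinearMap.smul_apply, ex_single, mapDomain_smul,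
      mapDomain_single]

open Classical in
theorem G1c_one (h : Bij β γ) (f : MvPolynomial P.V k) (V : Sub k P) (W : Sub k Q) :
    cut [rename β.ε f] (ex β.ε γ.ε (cS V) (cS W)) = ex β.ε γ.ε (cut [f] (cS V)) (cS W) := by
  have e := dv_base (rename β.ε : MvPolynomial P.V k →ₐ[k] MvPolynomial S.V k).toRingHom _
    (PX_flat h.ε (idl (W : Set (Q.Pt k))))
    (fun r _ => ⟨PX_prime h.ε r _, PX_comap h.ε r (idl_prime W).ne_top⟩)
    (idl (V : Set (P.Pt k))) f
  rw [cS, cS, ex_single, G1c_ex]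
  refine (congrArg (Finsupp.filter Rel) e).trans
    (G1c_filter _ Rel Rel _ fun r hr => G1c_iff h W (Ideal.IsPrime.ne_top
      (prime_of_mult (fs := [f]) (p := idl (V : Set (P.Pt k))) ?_)))
  rw [mult_eq]
  exact mem_support_iff.1 hr

theorem cut_ex (h : Bij β γ) {fs : List (MvPolynomial P.V k)} (hf : Fm fs) (V : Sub k P)
    (W : Sub k Q) : cut (fs.map (rename β.ε)) (ex β.ε γ.ε (cS V) (cS W)) =
      ex β.ε γ.ε (cut fs (cS V)) (cS W) := by
  induction fs generalizing V with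
  | nil => rw [List.map_nil, cut_nil, h.ex_cS, cut_nil]
  | cons f fs ih =>
    have e1 := cut_append [rename β.ε f] (fs.map (rename β.ε)) (ex β.ε γ.ε (cS V) (cS W))
    have e2 := cut_append [f] fs (cS V)
    rw [List.singleton_append] at e1 e2
    rw [List.map_cons, e1, e2, G1c_one h]
    exact Sp_ext (cut (fs.map (rename β.ε)) ∘ₗ (ex β.ε γ.ε).flip (cS W))
      ((ex β.ε γ.ε).flip (cS W) ∘ₗ cut fs)
      (fun Z _ => ih (fun g hg => hf g (List.mem_cons_of_mem f hg)) Z)
      (cut_mem (fs := [f]) (fun g hg => hf g (List.mem_singleton.1 hg ▸ List.mem_cons_self)) V)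

end Pool.Agent.Work.MP_10f4af_ag
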