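import Pool.Agent.Work.MP_10f4af_ag.G3c
import Pool.Agent.Work.MP_10f4af_ag.G1c
import Pool.Agent.Work.MP_10f4af_ag.CA6

/-!
# Push-forward commutes with cutting and with exterior products

Plan.  `push_cut_one`: if `f` vanishes on `β.img V` both sides are zero (`cut_van`,
`Crd.van_img`).  If `sdim (β.img V) < sdim V` both are zero (`cut_mem`, `push_mem`,
`deg_ne_zero`, `sdim_lt`).  Otherwise compare coefficients at `T` (`Sp_eq`) with
`exists_setup`, `len_finite`, `Chart.len_eq`, `min_form`, `cut_cS`; the maximal ideals correspond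
to the `U` over `T` (`Chart.ideal_eq`, `Chart.sub_eq`; the set of the `U` is finite since it is
inside the support of the cut).  `push_ex_cS`: both sides are multiples of the cycle of
`h₀.xp (α.img V) W`.  Induction on `sdim W`.  For a point use `deg_comp` in two ways and
`deg_pt`.  Otherwise cut with a form on `W` (`cut_ne_zero`, `push_cut`, `cut_ex`, `ex_swap`,
`Bij.ex_apply`) and cancel the non-zero cycle.
-/

open MvPolynomial Topology TopologicalSpace Finsupp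

namespace Pool.Agent.Work.MP_10f4af_ag

open MP_ffcd14_ag hiding len vl cyc pl Weil idl_hmg mem_idl idl_prime idl_le_iff

universe u

variable {k : Type u} [Field k] [IsAlgClosed k] {P P' Q S S₀ : Amb}

omit [IsAlgClosed k] in
theorem G3_fm {f : MvPolynomial P.V k} {a : P.ι →₀ ℕ} (hf : IsForm f a) : Fm [f] :=
  fun _ hg => ⟨a, List.mem_singleton.1 hg ▸ hf⟩

theorem G3_coeff {β : Crd k P S} (hβ : Inj β) {c : Sub k S → Prop} {a : Cyc k S} (ha : a ∈ Sp c)
    (T : Sub k P) (s : Finset (Sub k S)) (h1 : ∀ U ∈ s, β.img U = T)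
    (h2 : ∀ U, β.img U = T → a (idl (U : Set (S.Pt k))) ≠ 0 → U ∈ s) :
    push β.ε a (idl (T : Set (P.Pt k))) =
      ∑ U ∈ s, a (idl (U : Set (S.Pt k))) * deg β.ε (idl (U : Set (S.Pt k))) := by
  have hb : ∑ U ∈ s, a (idl (U : Set (S.Pt k))) • cS U ∈ Sp fun _ : Sub k S => True :=
    Submodule.sum_mem _ fun U _ => Submodule.smul_mem _ _ (cS_mem trivial)
  rw [push_coeff hβ ha hb T, map_sum, finsetSum_apply]
  · refine Finset.sum_congr rfl fun U hU => ?_
    rw [map_smul, push_cS hβ, h1 U hU, Finsupp.smul_apply, Finsupp.smul_apply, cS_self,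
      smul_eq_mul, smul_eq_mul, mul_one]
  · intro V hV
    rw [finsetSum_apply, Finset.sum_eq_single V]
    · rw [Finsupp.smul_apply, cS_self, smul_eq_mul, mul_one]
    · intro U _ hU
      rw [Finsupp.smul_apply, cS_ne hU, smul_zero]
    · intro h
      rw [of_not_not (mt (h2 V hV) h), zero_smul, Finsupp.zero_apply]

theorem G3_cut {V T : Sub k P} {f : MvPolynomial P.V k} {a : P.ι →₀ ℕ} (hf : IsForm f a)
    (h : ¬ Van (V : Set (P.Pt k)) f) (h1 : T ≤ V) (h2 : Van (T : Set (P.Pt k)) f)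
    (h3 : sdim T + 1 = sdim V) :
    cut [f] (cS V) (idl (T : Set (P.Pt k))) =
      len (idl (T : Set (P.Pt k))) (idl (V : Set (P.Pt k)) ⊔ Ideal.span {f}) ∧
    cut [f] (cS V) (idl (T : Set (P.Pt k))) ≠ 0 := by
  have h4 := (min_form hf h).2 ⟨h1, h2, h3⟩
  have h5 := mt (mem_idl hf).1 h
  rw [cut_cS]
  exact ⟨by rw [CAb_one, dv_of_notMem h5, cyI_of_mem h4], mult_one_ne.2 ⟨h5, h4⟩⟩

theorem G3_main {β : Crd k P S} (hβ : Inj β) {f : MvPolynomial P.V k} {a : P.ι →₀ ℕ}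
    (hf : IsForm f a) {V : Sub k S} (hv : ¬ Van (β.img V : Set (P.Pt k)) f)
    (hd : sdim (β.img V) = sdim V) {T : Sub k P} (hT : T ≤ β.img V)
    (hT' : sdim T + 1 = sdim V) (hTf : Van (T : Set (P.Pt k)) f) :
    push β.ε (cut [rename β.ε f] (cS V)) (idl (T : Set (P.Pt k))) =
      deg β.ε (idl (V : Set (S.Pt k))) * cut [f] (cS (β.img V)) (idl (T : Set (P.Pt k))) := by
  classical
  obtain ⟨A, B, _, _, _, _, _, _, _, _, _, _, _, _, x, z, hz, hA, hx, hr, hn, hU⟩ :=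
    exists_setup hβ hd hT hT'
  have hf' := β.form hf
  have hv' := mt (β.van_img hf).2 hv
  have key : ∀ U ≤ V, β.img U = T → cut [rename β.ε f] (cS V) (idl (U : Set (S.Pt k))) =
      len (idl (U : Set (S.Pt k))) (idl (V : Set (S.Pt k)) ⊔ Ideal.span {rename β.ε f}) ∧
      cut [rename β.ε f] (cS V) (idl (U : Set (S.Pt k))) ≠ 0 := fun U h1 h2 => by
    have h3 : Van (U : Set (S.Pt k)) (rename β.ε f) := (β.van_img hf).1 (h2 ▸ hTf)
    have h4 := sdim_lt (lt_of_le_of_ne h1 fun e => hv' (e ▸ h3))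
    have h5 := β.sdim_img_le U
    rw [h2] at h5
    exact G3_cut hf' hv' h1 h3 (by omega)
  have : Nonempty (Sub k S) := ⟨V⟩
  choose! u hu1 hu2 hu3 hu4 using hn
  have hinj : Set.InjOn u {n | n.IsMaximal} := fun n h1 n' h2 e => by
    have := Ideal.IsMaximal.isPrime h1
    have := Ideal.IsMaximal.isPrime h2
    exact (hu3 n h1).ideal_eq (e ▸ hu3 n' h2)
  have hfin : {n : Ideal B | n.IsMaximal}.Finite := by
    refine Set.Finite.of_finite_image ((finite_comp (cut [rename β.ε f] (cS V))).subset ?_) hinj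
    rintro _ ⟨n, h1, rfl⟩
    exact (key _ (hu1 n h1) (hu2 n h1)).2
  have hs : ∀ n, n ∈ hfin.toFinset ↔ n.IsMaximal := fun n => hfin.mem_toFinset
  have e1 : aeval z (rename β.ε f) = algebraMap A B (aeval x f) := by
    rw [aeval_rename, ← aeval_algebraMap_apply]
    exact congrArg (fun w => aeval w f) (funext hz)
  have e2 := len_finite hA (mt (hx.zero f a hf).1 hv) ((hx.mem f a hf).2 hTf) _ hs
  rw [G3_coeff hβ (cut_mem (G3_fm hf') V) T (hfin.toFinset.image u), Finset.sum_image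
    (by rwa [hfin.coe_toFinset]), (G3_cut hf hv hT hTf (hd ▸ hT')).1, hx.len_eq hf, ← hr,
    ← Nat.cast_mul, e2, Nat.cast_sum]
  · refine Finset.sum_congr rfl fun n h1 => ?_
    have h2 := (hs n).1 h1
    rw [(key _ (hu1 n h2) (hu2 n h2)).1, (hu3 n h2).len_eq hf', e1, hu4 n h2, Nat.cast_mul,
      mul_comm]
  · intro U h1
    obtain ⟨n, h2, rfl⟩ := Finset.mem_image.1 h1
    exact hu2 n ((hs n).1 h2)
  · intro U h1 h2
    obtain ⟨n, h3, h4⟩ := hU U (Sp_of (cut_mem (G3_fm hf') V) h2).1 h1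
    exact Finset.mem_image.2 ⟨n, (hs n).2 h3, (hu3 n h3).sub_eq h4⟩

theorem push_cut_one {β : Crd k P S} (hβ : Inj β) {f : MvPolynomial P.V k} {a : P.ι →₀ ℕ}
    (hf : IsForm f a) (V : Sub k S) :
    push β.ε (cut [rename β.ε f] (cS V)) = cut [f] (push β.ε (cS V)) := by
  rw [push_cS hβ, map_smul]
  by_cases hv : Van (β.img V : Set (P.Pt k)) f
  · rw [cut_van hf hv, cut_van (β.form hf) ((β.van_img hf).1 hv), map_zero, smul_zero]
  have h1 : push β.ε (cut [rename β.ε f] (cS V)) ∈ Sp fun T =>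
      T ≤ β.img V ∧ sdim T + 1 = sdim V ∧ Van (T : Set (P.Pt k)) f := by
    refine Sp_mono ?_ (push_mem hβ (cut_mem (G3_fm (β.form hf)) V))
    rintro _ ⟨U, ⟨h1, h2, h3⟩, rfl, h4⟩
    exact ⟨β.img_mono h1, h4 ▸ h2, (β.van_img hf).2 (h3 _ (List.mem_singleton_self _))⟩
  by_cases hd : sdim (β.img V) = sdim V
  · refine Sp_eq h1 (Submodule.smul_mem _ _ (cut_mem (G3_fm hf) (β.img V))) fun T hT => ?_
    rw [Finsupp.smul_apply, smul_eq_mul]
    rcases hT with hT | hT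
    · exact G3_main hβ hf hv hd hT.1 hT.2.1 hT.2.2
    · exact G3_main hβ hf hv hd hT.1 (hd ▸ hT.2.1) (hT.2.2 _ (List.mem_singleton_self _))
  · rw [of_not_not (mt (deg_ne_zero β V).1 hd), Nat.cast_zero, zero_smul]
    refine Sp_bot (Sp_mono ?_ h1)
    rintro T ⟨h2, h3, h4⟩
    have h5 := sdim_lt (lt_of_le_of_ne h2 fun e => hv (e ▸ h4))
    have h6 := β.sdim_img_le V
    omega

theorem push_cut {β : Crd k P S} (hβ : Inj β) {fs : List (MvPolynomial P.V k)} (hf : Fm fs)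
    (V : Sub k S) :
    push β.ε (cut (fs.map (rename β.ε)) (cS V)) = cut fs (push β.ε (cS V)) := by
  induction fs generalizing V with
  | nil => rw [List.map_nil, cut_nil, push_cS hβ, map_smul, cut_nil]
  | cons f fs ih =>
    obtain ⟨a, ha⟩ := hf f List.mem_cons_self
    have h1 := Sp_ext (push β.ε ∘ₗ cut (fs.map (rename β.ε))) (cut fs ∘ₗ push β.ε)
      (fun Z _ => ih (fun g hg => hf g (List.mem_cons_of_mem _ hg)) Z)
      (cut_mem (G3_fm (β.form ha)) V)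
    rw [List.map_cons, ← List.singleton_append, cut_append, ← List.singleton_append (l := fs),
      cut_append, ← push_cut_one hβ ha]
    exact h1

variable {β : Crd k P' S} {γ : Crd k Q S} {β₀ : Crd k P S₀} {γ₀ : Crd k Q S₀} {α : Crd k P P'}
  {μ : Crd k S₀ S}

theorem G3_img (h : Bij β γ) (h₀ : Bij β₀ γ₀) (e : μ.ε ∘ β₀.ε = β.ε ∘ α.ε)
    (e' : μ.ε ∘ γ₀.ε = γ.ε) (V : Sub k P') (W : Sub k Q) :
    μ.img (h.xp V W) = h₀.xp (α.img V) W := by
  refine le_antisymm (h₀.le_xp.2 ⟨?_, ?_⟩) fun z hz => ?_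
  · rw [img_img (ν := α.comp β) e, Crd.img_comp, h.img_xp]
  · rw [img_img e', h.img_xp']
  · obtain ⟨h1, h2⟩ := h₀.mem_xp.1 hz
    obtain ⟨x, hx, h3⟩ := α.mem_img_iff.1 h1
    obtain ⟨y, rfl, h4⟩ := h.exists_pt x (γ₀.pr z)
    refine μ.mem_img_iff.2 ⟨y, h.mem_xp.2 ⟨hx, h4 ▸ h2⟩, h₀.ext ?_ ?_⟩
    · rw [pr_comp (ν := α.comp β) e]
      exact h3
    · rw [pr_comp e', h4]

theorem G3_cut_ex (h : Bij β γ) {f : MvPolynomial Q.V k} (hf : Fm [f]) (V : Sub k P')
    (W : Sub k Q) :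
    cut [rename γ.ε f] (cS (h.xp V W)) = ex β.ε γ.ε (cS V) (cut [f] (cS W)) := by
  rw [← h.ex_cS, ex_swap, ex_swap β.ε]
  exact cut_ex h.symm hf W V

theorem push_ex_cS (h : Bij β γ) (h₀ : Bij β₀ γ₀) (hα : Inj α) (hμ : Inj μ)
    (e : μ.ε ∘ β₀.ε = β.ε ∘ α.ε) (e' : μ.ε ∘ γ₀.ε = γ.ε) (V : Sub k P') (W : Sub k Q) :
    push μ.ε (ex β.ε γ.ε (cS V) (cS W)) = ex β₀.ε γ₀.ε (push α.ε (cS V)) (cS W) := by
  have key : ∀ W : Sub k Q, deg μ.ε (idl (h.xp V W : Set (S.Pt k))) =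
      deg α.ε (idl (V : Set (P'.Pt k))) → push μ.ε (ex β.ε γ.ε (cS V) (cS W)) =
        ex β₀.ε γ₀.ε (push α.ε (cS V)) (cS W) := fun W hW => by
    rw [h.ex_cS, push_cS hμ, push_cS hα, map_smul, LinearMap.smul_apply, h₀.ex_cS, hW,
      G3_img h h₀ e e']
  generalize hn : sdim W = n
  induction n generalizing W with
  | zero =>
    obtain ⟨y, hy⟩ := W.isIrreducible.nonempty
    have h1 : ({y} : Sub k Q) = W := eq_of_sdim_le (FibA_pt_le hy) (by omega)
    have h2 : ∀ x ∈ W, x = y := fun x hx => by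
      rw [← h1] at hx
      exact hx
    have h3 := deg_comp β₀ μ (h.xp V W)
    have h4 := deg_comp α β (h.xp V W)
    rw [G3_img h h₀ e e', deg_pt h₀ fun z hz => h2 _ (h₀.mem_xp.1 hz).2, one_mul] at h3
    rw [h.img_xp, deg_pt h fun z hz => h2 _ (h.mem_xp.1 hz).2, mul_one] at h4
    exact key W (h3.symm.trans ((congrArg (fun w => deg w _) e).trans h4))
  | succ n ih =>
    obtain ⟨f, a, hf, h0⟩ := cut_ne_zero (V := W) (by omega)
    have hc := cut_mem (G3_fm hf) W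
    have h1 := Sp_ext (push μ.ε ∘ₗ ex β.ε γ.ε (cS V)) (ex β₀.ε γ₀.ε (push α.ε (cS V)))
      (fun Z hZ => ih Z (by have := hZ.2.1; rw [List.length_singleton] at this; omega)) hc
    have h2 := push_cut_one hμ (γ₀.form hf) (h.xp V W)
    rw [rename_rename, e', G3_cut_ex h (G3_fm hf), push_cS hμ, map_smul, G3_img h h₀ e e',
      G3_cut_ex h₀ (G3_fm hf)] at h2
    rw [LinearMap.comp_apply, h2, push_cS hα, map_smul, LinearMap.smul_apply] at h1
    have h3 : ex β₀.ε γ₀.ε (cS (α.img V)) (cut [f] (cS W)) ≠ 0 := fun h3 => by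
      refine h0 (Sp_eq hc (Submodule.zero_mem (Sp fun _ => False)) fun T _ => ?_)
      rw [← h₀.symm.ex_apply hc T (α.img V), ex_swap, h3]
      rfl
    exact key W (Nat.cast_injective (smul_left_injective ℚ h3 h1))

theorem push_ex (h : Bij β γ) (h₀ : Bij β₀ γ₀) (hα : Inj α) (hμ : Inj μ)
    (e : μ.ε ∘ β₀.ε = β.ε ∘ α.ε) (e' : μ.ε ∘ γ₀.ε = γ.ε) {c : Sub k P' → Prop}
    {c' : Sub k Q → Prop} {a : Cyc k P'} {b : Cyc k Q} (ha : a ∈ Sp c) (hb : b ∈ Sp c') :
    push μ.ε (ex β.ε γ.ε a b) = ex β₀.ε γ₀.ε (push α.ε a) b := by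
  refine Sp_ext (push μ.ε ∘ₗ (ex β.ε γ.ε).flip b) ((ex β₀.ε γ₀.ε).flip b ∘ₗ push α.ε)
    (fun V _ => ?_) ha
  exact Sp_ext (push μ.ε ∘ₗ ex β.ε γ.ε (cS V)) (ex β₀.ε γ₀.ε (push α.ε (cS V)))
    (fun W _ => push_ex_cS h h₀ hα hμ e e' V W) hb

end Pool.Agent.Work.MP_10f4af_ag
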