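import Pool.Agent.Work.MP_10f4af_ag.G0
import Pool.Agent.Work.MP_10f4af_ag.CA5

/-!
# Dehomogenisation

Plan.  `homog_lin`: `f' = ∑ b, cpt b f * ∏ i, h i ^ (a i - b i)` with `a` above all degrees which
occur in `f` and `g`.  `len_dehom`: let `C[t] = MvPolynomial P.ι C`, `n' = n.map C` (prime, see
`MvPolynomial.quotientEquivQuotientMvPolynomial`, `MvPolynomial.mem_map_C_iff`),
`D = Localization.AtPrime n'` and `ψ₀ : X s ↦ t s.1 * C (z s)`.  For a form `F` of degree `a`,
`ψ₀ F = monomial a (aeval z F)` (`IsForm.aeval_scale`), so `coeff a (ψ₀ F) = aeval z (cpt a F)` for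
every `F`: the kernel of `ψ₀` is `idl V` and the preimage of `n'` is `idl T`.  Every element of
`C[t]` is `ψ₀ a / ψ₀ s` with `s ∉ idl T` (for `t j` use a variable `X s ∉ idl T` of the block `j`
and `frac` for `z s`).  Apply `lnM_loc` to `R → D`, then `lnM_atPrime` and `lnM_flat` for
`C → C[t]`; the `t j` are units in `D`.
-/

open MvPolynomial Topology TopologicalSpace Finsupp

namespace Pool.Agent.Work.MP_10f4af_ag

open MP_ffcd14_ag hiding len vl cyc pl Weil idl_hmg mem_idl idl_prime idl_le_iff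

universe u

variable {k : Type u} [Field k] {P : Amb}

theorem G3a_prod {h : P.ι → MvPolynomial P.V k} (hh : ∀ i, IsForm (h i) (single i 1))
    (c : P.ι →₀ ℕ) : IsForm (c.prod fun i n => h i ^ n) c := by
  induction c using Finsupp.induction_linear with
  | zero => simpa using IsForm.one
  | add a b ha hb =>
    rw [Finsupp.prod_add_index' (by simp) (by simp [pow_add])]
    exact ha.mul hb
  | single i n =>
    rw [Finsupp.prod_single_index (by simp)]
    have h1 := IsWeightedHomogeneous.pow (hh i) n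
    rw [Finsupp.smul_single, smul_eq_mul, mul_one] at h1
    exact h1

theorem G3a_sum (f : MvPolynomial P.V k) :
    ∃ S : Finset (P.ι →₀ ℕ), ∀ S' : Finset (P.ι →₀ ℕ), S ⊆ S' → ∑ b ∈ S', cpt b f = f := by
  refine ⟨(weightedHomogeneousComponent_finsupp
    (w := fun s : P.V => (Finsupp.single s.1 1 : P.ι →₀ ℕ)) f).toFinset, fun S' h => ?_⟩
  conv_rhs => rw [← sum_weightedHomogeneousComponent
    (fun s : P.V => (Finsupp.single s.1 1 : P.ι →₀ ℕ)) f]
  refine (finsum_eq_sum_of_support_subset _ fun b hb => ?_).symm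
  exact h ((Set.Finite.mem_toFinset _).2 hb)

theorem G3a_homog {h : P.ι → MvPolynomial P.V k} (hh : ∀ i, IsForm (h i) (single i 1))
    (f : MvPolynomial P.V k) {S : Finset (P.ι →₀ ℕ)} (hS : ∑ b ∈ S, cpt b f = f) :
    ∃ f' : MvPolynomial P.V k, IsForm f' (∑ b ∈ S, b) ∧
      ∀ (A : Type u) [CommRing A] [Algebra k A] (z : P.V → A), (∀ i, aeval z (h i) = 1) →
        aeval z f' = aeval z f := by
  refine ⟨∑ b ∈ S, cpt b f * ((∑ b ∈ S, b) - b).prod fun i n => h i ^ n, ?_, ?_⟩
  · refine IsWeightedHomogeneous.sum _ _ _ fun b hb => ?_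
    have h1 := (cpt_form b f).mul (G3a_prod hh ((∑ b ∈ S, b) - b))
    have h2 : b ≤ ∑ b ∈ S, b := Finset.single_le_sum (f := fun b => b) (fun _ _ => zero_le) hb
    rw [add_tsub_cancel_of_le h2] at h1
    exact h1
  · intro A _ _ z hz
    conv_rhs => rw [← hS]
    rw [map_sum, map_sum]
    refine Finset.sum_congr rfl fun b _ => ?_
    rw [map_mul, map_finsuppProd]
    simp only [map_pow, hz, one_pow]
    rw [Finsupp.prod, Finset.prod_const_one, mul_one]

theorem homog_lin {h : P.ι → MvPolynomial P.V k} (hh : ∀ i, IsForm (h i) (single i 1))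
    (f g : MvPolynomial P.V k) : ∃ (f' g' : MvPolynomial P.V k) (a : P.ι →₀ ℕ),
    IsForm f' a ∧ IsForm g' a ∧
      ∀ (A : Type u) [CommRing A] [Algebra k A] (z : P.V → A), (∀ i, aeval z (h i) = 1) →
        aeval z f' = aeval z f ∧ aeval z g' = aeval z g := by
  classical
  obtain ⟨S, hS⟩ := G3a_sum f
  obtain ⟨S', hS'⟩ := G3a_sum g
  obtain ⟨f', h1, h2⟩ := G3a_homog hh f (hS (S ∪ S') Finset.subset_union_left)
  obtain ⟨g', h3, h4⟩ := G3a_homog hh g (hS' (S ∪ S') Finset.subset_union_right)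
  exact ⟨f', g', _, h1, h3, fun A _ _ z hz => ⟨h2 A z hz, h4 A z hz⟩⟩

/-- `C` is a ring of functions on `V` whose localisation at `n` is the local ring along `T`. -/
structure Chart {C : Type u} [CommRing C] [Algebra k C] (z : P.V → C) (V T : Sub k P)
    (n : Ideal C) : Prop where
  zero : ∀ (f : MvPolynomial P.V k) a, IsForm f a → (aeval z f = 0 ↔ Van (V : Set (P.Pt k)) f)
  mem : ∀ (f : MvPolynomial P.V k) a, IsForm f a → (aeval z f ∈ n ↔ Van (T : Set (P.Pt k)) f)
  frac : ∀ c, ∃ (f g : MvPolynomial P.V k) (a : P.ι →₀ ℕ), IsForm f a ∧ IsForm g a ∧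
    ¬ Van (T : Set (P.Pt k)) g ∧ c * aeval z g = aeval z f

variable {C : Type u} [CommRing C] [Algebra k C] {z : P.V → C} {V T T' : Sub k P}
  {n n' : Ideal C}

theorem G3a_le [n'.IsPrime] (h : Chart z V T n) (h' : Chart z V T n') : n ≤ n' := by
  intro c hc
  obtain ⟨f, g, a, hf, hg, hT, e⟩ := h.frac c
  have h1 : aeval z f ∈ n' :=
    (h'.mem f a hf).2 ((h.mem f a hf).1 (e ▸ n.mul_mem_right _ hc))
  rw [← e] at h1
  exact (Ideal.IsPrime.mem_or_mem inferInstance h1).resolve_right
    fun h2 => hT ((h'.mem g a hg).1 h2)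

theorem Chart.ideal_eq [n.IsPrime] [n'.IsPrime] (h : Chart z V T n) (h' : Chart z V T n') :
    n = n' := le_antisymm (G3a_le h h') (G3a_le h' h)

theorem G3a_idl_le (h : Chart z V T n) (h' : Chart z V T' n) :
    idl (T : Set (P.Pt k)) ≤ idl (T' : Set (P.Pt k)) :=
  (idl_hmg _).le fun f a hf h1 =>
    (mem_idl hf).2 ((h'.mem f a hf).1 ((h.mem f a hf).2 ((mem_idl hf).1 h1)))

theorem Chart.sub_eq (h : Chart z V T n) (h' : Chart z V T' n) : T = T' :=
  idl_inj (le_antisymm (G3a_idl_le h h') (G3a_idl_le h' h))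

/-- The cone over the chart. -/
noncomputable def G3a_psi (z : P.V → C) : MvPolynomial P.V k →ₐ[k] MvPolynomial P.ι C :=
  aeval fun s => X s.1 * MvPolynomial.C (z s)

theorem G3a_psi_form (z : P.V → C) {F : MvPolynomial P.V k} {a : P.ι →₀ ℕ} (hF : IsForm F a) :
    G3a_psi z F = monomial a (aeval z F) := by
  have h1 : (aeval (fun s => (MvPolynomial.C (z s) : MvPolynomial P.ι C)) F) =
      MvPolynomial.C (aeval z F) := by
    have h2 := comp_aeval_apply z (IsScalarTower.toAlgHom k C (MvPolynomial P.ι C)) F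
    exact h2.symm
  rw [G3a_psi, hF.aeval_scale (fun i => (X i : MvPolynomial P.ι C))
    (fun s => MvPolynomial.C (z s)), h1, monomial_eq, mul_comm]

theorem G3a_psi_coeff (z : P.V → C) (F : MvPolynomial P.V k) (a : P.ι →₀ ℕ) :
    coeff a (G3a_psi z F) = aeval z (cpt a F) := by
  classical
  induction F using MvPolynomial.induction_on' with
  | monomial d r =>
    have h1 : IsForm (monomial d r : MvPolynomial P.V k)
        (Finsupp.weight (fun s : P.V => Finsupp.single s.1 1) d) :=
      isWeightedHomogeneous_monomial _ d r rfl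
    rw [G3a_psi_form z h1, coeff_monomial]
    split_ifs with h
    · rw [← h, cpt_self h1]
    · rw [GrA_ne h1 fun e => h e.symm, map_zero]
  | add p q hp hq => rw [map_add, coeff_add, hp, hq, map_add, map_add]

theorem G3a_mem (h : Chart z V T n) (F : MvPolynomial P.V k) :
    G3a_psi z F ∈ (n.map MvPolynomial.C : Ideal (MvPolynomial P.ι C)) ↔
      F ∈ idl (T : Set (P.Pt k)) := by
  rw [MvPolynomial.mem_map_C_iff]
  simp only [G3a_psi_coeff]
  constructor
  · intro h1
    exact GrA_mem fun a => (mem_idl (cpt_form a F)).2 ((h.mem _ a (cpt_form a F)).1 (h1 a))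
  · intro h1 a
    exact (h.mem _ a (cpt_form a F)).2 ((mem_idl (cpt_form a F)).1 (idl_hmg _ F h1 a))

theorem G3a_ker (h : Chart z V T n) {F : MvPolynomial P.V k} (hF : G3a_psi z F = 0) :
    F ∈ idl (V : Set (P.Pt k)) := by
  refine GrA_mem fun a => (mem_idl (cpt_form a F)).2 ((h.zero _ a (cpt_form a F)).1 ?_)
  rw [← G3a_psi_coeff, hF, coeff_zero]

theorem G3a_prime (ι : Type) (n : Ideal C) [n.IsPrime] :
    (n.map MvPolynomial.C : Ideal (MvPolynomial ι C)).IsPrime := by
  have h1 : IsDomain (MvPolynomial ι C ⧸ (n.map MvPolynomial.C : Ideal (MvPolynomial ι C))) :=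
    (MvPolynomial.quotientEquivQuotientMvPolynomial (σ := ι) n).symm.toMulEquiv.isDomain _
  exact (Ideal.Quotient.isDomain_iff_prime _).1 h1

theorem G3a_frac [n.IsPrime] (h : Chart z V T n) (b : MvPolynomial P.ι C) :
    ∃ a : MvPolynomial P.V k, ∃ s ∉ idl (T : Set (P.Pt k)), b * G3a_psi z s = G3a_psi z a := by
  have hp := idl_prime T
  induction b using MvPolynomial.induction_on with
  | C c =>
    obtain ⟨f, g, a, hf, hg, hT, e⟩ := h.frac c
    refine ⟨f, g, fun h1 => hT ((mem_idl hg).1 h1), ?_⟩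
    rw [G3a_psi_form z hf, G3a_psi_form z hg, C_mul_monomial, e]
  | add p q hp' hq =>
    obtain ⟨a, s, hs, e⟩ := hp'
    obtain ⟨a', s', hs', e'⟩ := hq
    refine ⟨a * s' + a' * s, s * s', fun h1 => (hp.mem_or_mem h1).elim hs hs', ?_⟩
    rw [map_add, map_mul, map_mul, map_mul, ← e, ← e']
    ring
  | mul_X p j hp' =>
    obtain ⟨a, s, hs, e⟩ := hp'
    obtain ⟨t, ht⟩ := rel_idl T j
    obtain ⟨f, g, c, hf, hg, hT, e'⟩ := h.frac (z ⟨j, t⟩)
    have h1 : f ∉ idl (T : Set (P.Pt k)) := by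
      intro h1
      have h2 := (h.mem f c hf).2 ((mem_idl hf).1 h1)
      rw [← e'] at h2
      rcases Ideal.IsPrime.mem_or_mem inferInstance h2 with h3 | h3
      · refine ht ((mem_idl (IsForm.X _)).2 ((h.mem _ _ (IsForm.X _)).1 ?_))
        rwa [aeval_X]
      · exact hT ((h.mem g c hg).1 h3)
    have h2 : X j * G3a_psi z f = G3a_psi z (X ⟨j, t⟩ * g) := by
      rw [map_mul, G3a_psi_form z hf, G3a_psi_form z hg, ← e', ← C_mul_monomial, G3a_psi, aeval_X,
        mul_assoc]
    refine ⟨a * (X ⟨j, t⟩ * g), s * f, fun h3 => (hp.mem_or_mem h3).elim hs h1, ?_⟩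
    rw [map_mul (G3a_psi z) a, ← h2, ← e, map_mul]
    ring

theorem Chart.len_eq [IsDomain C] [n.IsPrime] (h : Chart z V T n) {f : MvPolynomial P.V k}
    {a : P.ι →₀ ℕ} (hf : IsForm f a) :
    len (idl (T : Set (P.Pt k))) (idl (V : Set (P.Pt k)) ⊔ Ideal.span {f}) =
      len n (Ideal.span {aeval z f}) := by
  classical
  let B := MvPolynomial P.ι C
  let m : Ideal B := n.map MvPolynomial.C
  have hm : m.IsPrime := G3a_prime P.ι n
  let D := Localization.AtPrime m
  let ψ : MvPolynomial P.V k →+* D := (algebraMap B D).comp (G3a_psi z).toRingHom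
  have hψ : ∀ F, ψ F = algebraMap B D (G3a_psi z F) := fun _ => rfl
  have hinj : Function.Injective (algebraMap B D) :=
    IsLocalization.injective D m.primeCompl_le_nonZeroDivisors
  have hu : ∀ b ∉ m, IsUnit (algebraMap B D b) := fun b hb =>
    IsLocalization.map_units D (⟨b, hb⟩ : m.primeCompl)
  have h1 : lnM (idl (T : Set (P.Pt k)))
      (MvPolynomial P.V k ⧸ (idl (V : Set (P.Pt k)) ⊔ Ideal.span {f})) =
      Module.length D (D ⧸ (idl (V : Set (P.Pt k)) ⊔ Ideal.span {f}).map ψ) := by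
    refine lnM_loc ψ (fun s hs => hu _ fun h1 => hs ((G3a_mem h s).1 h1)) (fun d => ?_)
      fun a ha => ?_
    · obtain ⟨⟨b, b', hb'⟩, e⟩ := IsLocalization.surj m.primeCompl d
      obtain ⟨a, s, hs, e1⟩ := G3a_frac h b
      obtain ⟨a', s', hs', e2⟩ := G3a_frac h b'
      have h2 : a' ∉ idl (T : Set (P.Pt k)) := by
        intro h2
        have h3 := (G3a_mem h a').2 h2
        rw [← e2] at h3
        exact (hm.mem_or_mem h3).elim hb' fun h4 => hs' ((G3a_mem h s').1 h4)
      refine ⟨a * s', a' * s, fun h3 => ((idl_prime T).mem_or_mem h3).elim h2 hs, ?_⟩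
      simp only [hψ, map_mul] at e ⊢
      rw [← e1, ← e2, map_mul, map_mul, ← e]
      ring
    · refine ⟨1, (Ideal.ne_top_iff_one _).1 (idl_prime T).ne_top, ?_⟩
      rw [one_mul]
      refine Submodule.mem_sup_left (G3a_ker h (hinj ?_))
      rw [map_zero]
      exact ha
  have h2 : (idl (V : Set (P.Pt k)) ⊔ Ideal.span {f}).map ψ =
      Ideal.span {algebraMap B D (MvPolynomial.C (aeval z f))} := by
    have h3 : (idl (V : Set (P.Pt k))).map ψ = ⊥ := by
      rw [Ideal.map_eq_bot_iff_le_ker]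
      refine (idl_hmg _).le fun F c hF h3 => ?_
      rw [RingHom.mem_ker, hψ, G3a_psi_form z hF, (h.zero F c hF).2 ((mem_idl hF).1 h3),
        map_zero, map_zero]
    have h4 : IsUnit (algebraMap B D (monomial a 1)) := by
      refine hu _ fun h4 => ?_
      have h5 := MvPolynomial.mem_map_C_iff.1 h4 a
      rw [coeff_monomial, if_pos rfl] at h5
      exact (Ideal.ne_top_iff_one _).1 (Ideal.IsPrime.ne_top inferInstance) h5
    have h5 : ψ f = algebraMap B D (MvPolynomial.C (aeval z f)) * algebraMap B D (monomial a 1) := by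
      rw [hψ, G3a_psi_form z hf, ← map_mul, C_mul_monomial, mul_one]
    rw [Ideal.map_sup, h3, bot_sup_eq, Ideal.map_span, Set.image_singleton, h5,
      Ideal.span_singleton_mul_right_unit h4]
  have h3 : lnM m (B ⧸ (Ideal.span {aeval z f}).map (MvPolynomial.C : C →+* B)) =
      lnM n (C ⧸ Ideal.span {aeval z f}) := by
    refine lnM_flat (MvPolynomial.C : C →+* B) ?_ ?_ (fun b hb => ?_) _
    · have h3 : (algebraMap C B).Flat := RingHom.flat_algebraMap_iff.2 inferInstance
      exact h3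
    · ext c
      rw [Ideal.mem_comap, MvPolynomial.mem_map_C_iff]
      constructor
      · intro h3
        simpa using h3 0
      · intro h3 e
        rw [coeff_C]
        split_ifs
        · exact h3
        · exact n.zero_mem
    · exact ⟨1, (Ideal.ne_top_iff_one _).1 hm.ne_top, by rwa [one_mul]⟩
  rw [len_def, len_def, h1, h2, ← h3, lnM_atPrime m _ D, Ideal.map_span, Set.image_singleton,
    Ideal.map_span, Set.image_singleton]

end Pool.Agent.Work.MP_10f4af_ag
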