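import Pool.Agent.Work.MP_10f4af_ag.G3a

/-!
# The local ring along a subvariety

Plan.  Denominators do not vanish at `v` since `T ≤ W`.  An element `f / g` is a unit iff `f` does
not vanish on `T`; the sum of two non-units is a non-unit.  Noetherian: let `w` be a generic point
of `T` normalised by `h` (`exists_gen'`, `IsGen.scale`), `q` the kernel of `aeval w`; by
`homog_lin` the map `aeval` sends the complement of `q` to units, and the lift
`Localization.AtPrime q → Loc` is onto.  Primes: for a prime `n` take the locus `U` (`exists_loc`)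
of the image of `crd` in the residue field of `n`; `T ≤ U ≤ W`, so `U = T` or `U = W`
(`eq_of_sdim_le`, `sdim_lt`).
`integral_loc`: `iInf_valuationSubring_superset`.  For a valuation ring `O` containing `Loc`
rescale each block so that it lies in `O` and has a coordinate equal to one; let `U ≤ V` be the
locus of the residue classes.  For a form `g` not vanishing on `T` the quotient of the monomial
in the coordinates equal to one (`mono`, `Inj.blk`) by `g` is in `O`, so `T ≤ β.img U`; hence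
`β.img U = T` or `U = V`, `h j` does not vanish on `U` and the scaling factor is a unit.
-/

open MvPolynomial Topology TopologicalSpace Finsupp

namespace Pool.Agent.Work.MP_10f4af_ag

open MP_ffcd14_ag hiding len vl cyc pl Weil idl_hmg mem_idl idl_prime idl_le_iff

universe u

variable {k : Type u} [Field k] {P S : Amb} {L : Type u} [Field L] [Algebra k L]

theorem G3b_not_van_mul {T : Sub k P} {f g : MvPolynomial P.V k} {a b : P.ι →₀ ℕ} (hf : IsForm f a)
    (hg : IsForm g b) (h1 : ¬ Van (T : Set (P.Pt k)) f) (h2 : ¬ Van (T : Set (P.Pt k)) g) :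
    ¬ Van (T : Set (P.Pt k)) (f * g) := fun h => (Van.mul hf hg h).elim h1 h2

theorem G3b_add {f g : MvPolynomial P.V k} {a : P.ι →₀ ℕ} (hf : IsForm f a) (hg : IsForm g a) :
    IsForm (f + g) a := IsWeightedHomogeneous.add hf hg

theorem G3b_not_van_one (T : Sub k P) : ¬ Van (T : Set (P.Pt k)) 1 := by
  obtain ⟨x, hx⟩ := T.isIrreducible.nonempty
  intro h
  have := h x hx
  rw [ev_eq, map_one] at this
  exact one_ne_zero this

theorem G3b_lin {A : Type*} [CommRing A] [Algebra k A] {f : MvPolynomial P.V k} {i : P.ι}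
    (hf : IsForm f (single i 1)) (μ : P.ι → A) (v : P.V → A) :
    aeval (fun s => μ s.1 * v s) f = μ i * aeval v f := by
  rw [hf.aeval_scale, Finsupp.prod_single_index (by simp), pow_one]

/-- A normalised generic point. -/
theorem G3b_gen (T : Sub k P) {h : P.ι → MvPolynomial P.V k} (hh : ∀ i, IsForm (h i) (single i 1))
    (hn : ∀ i, ¬ Van (T : Set (P.Pt k)) (h i)) :
    ∃ (K : Type u) (_ : Field K) (_ : Algebra k K) (w : P.V → K), IsGen (T : Set (P.Pt k)) w ∧
      ∀ i, aeval w (h i) = 1 := by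
  obtain ⟨K, _, _, w, hw⟩ := exists_gen' T
  have h0 : ∀ i, aeval w (h i) ≠ 0 := fun i e => hn i ((hw.iff _ _ (hh i)).1 e)
  refine ⟨K, _, _, _, hw.scale (fun i => (aeval w (h i))⁻¹) fun i => inv_ne_zero (h0 i), fun i => ?_⟩
  rw [G3b_lin (hh i) (fun i => (aeval w (h i))⁻¹), inv_mul_cancel₀ (h0 i)]

/-- The locus of a vector modulo a prime. -/
theorem G3b_loc [IsAlgClosed k] {A : Type u} [CommRing A] [Algebra k A] (z : P.V → A) (n : Ideal A)
    [n.IsPrime] (hz : ∀ i, ∃ s, z ⟨i, s⟩ ∉ n) : ∃ U : Sub k P, ∀ (f : MvPolynomial P.V k) a,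
      IsForm f a → (aeval z f ∈ n ↔ Van (U : Set (P.Pt k)) f) := by
  obtain ⟨U, hU⟩ := exists_loc (k := k) (fun s => algebraMap A n.ResidueField (z s)) fun i => by
    obtain ⟨s, hs⟩ := hz i
    exact ⟨s, fun e => hs (Ideal.algebraMap_residueField_eq_zero.1 e)⟩
  refine ⟨U, fun f a hf => ?_⟩
  rw [← hU.iff f a hf, ← Ideal.algebraMap_residueField_eq_zero]
  have := comp_aeval_apply z (IsScalarTower.toAlgHom k A n.ResidueField) f
  exact Eq.congr_left this

theorem G3b_blk {A : Type u} [CommRing A] [Algebra k A] (z : P.V → A) (n : Ideal A)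
    {f : MvPolynomial P.V k} {i : P.ι} (hf : IsForm f (single i 1)) (h : aeval z f ∉ n) :
    ∃ s, z ⟨i, s⟩ ∉ n := by
  classical
  by_contra! h0
  apply h
  rw [← Ideal.Quotient.eq_zero_iff_mem]
  have h1 := comp_aeval_apply z (Ideal.Quotient.mkₐ k n) f
  have h2 := G3b_lin hf (fun j => if j = i then 0 else 1) fun s => Ideal.Quotient.mkₐ k n (z s)
  have h3 : (fun s : P.V => (if s.1 = i then 0 else 1) * Ideal.Quotient.mkₐ k n (z s)) =
      fun s => Ideal.Quotient.mkₐ k n (z s) := by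
    funext ⟨j, s⟩
    by_cases e : j = i
    · subst e
      rw [if_pos rfl, zero_mul]
      exact (Ideal.Quotient.eq_zero_iff_mem.2 (h0 s)).symm
    · rw [if_neg e, one_mul]
  rw [h3, if_pos rfl, zero_mul] at h2
  exact h1.trans h2

theorem G3b_ne {v : P.V → L} {W T : Sub k P} (hv : IsGen (W : Set (P.Pt k)) v) (hT : T ≤ W)
    {g : MvPolynomial P.V k} {a : P.ι →₀ ℕ} (hg : IsForm g a) (h : ¬ Van (T : Set (P.Pt k)) g) :
    aeval v g ≠ 0 := fun e => h fun x hx => (hv.iff g a hg).1 e x (hT hx)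

/-- The rational functions which are defined along `T`. -/
def Loc (v : P.V → L) (T : Sub k P) : Subalgebra k L where
  carrier := {c | ∃ (f g : MvPolynomial P.V k) (a : P.ι →₀ ℕ), IsForm f a ∧ IsForm g a ∧
    ¬ Van (T : Set (P.Pt k)) g ∧ c * aeval v g = aeval v f}
  mul_mem' := by
    rintro c d ⟨f, g, a, hf, hg, hT, e⟩ ⟨f', g', a', hf', hg', hT', e'⟩
    refine ⟨f * f', g * g', a + a', hf.mul hf', hg.mul hg', G3b_not_van_mul hg hg' hT hT', ?_⟩
    rw [map_mul, map_mul, ← e, ← e']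
    ring
  add_mem' := by
    rintro c d ⟨f, g, a, hf, hg, hT, e⟩ ⟨f', g', a', hf', hg', hT', e'⟩
    refine ⟨f * g' + g * f', g * g', a + a', G3b_add (hf.mul hg') (hg.mul hf'), hg.mul hg',
      G3b_not_van_mul hg hg' hT hT', ?_⟩
    rw [map_add, map_mul, map_mul, map_mul, ← e, ← e']
    ring
  algebraMap_mem' := by
    intro r
    exact ⟨C r, 1, 0, isWeightedHomogeneous_C _ r, IsForm.one, G3b_not_van_one T, by simp⟩

/-- A generic point of `W` normalised by linear forms which do not vanish on `T`. -/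
structure Nrm (v : P.V → L) (W T : Sub k P) (h : P.ι → MvPolynomial P.V k) : Prop where
  gen : IsGen (W : Set (P.Pt k)) v
  le : T ≤ W
  form : ∀ i, IsForm (h i) (single i 1)
  one : ∀ i, aeval v (h i) = 1
  ne : ∀ i, ¬ Van (T : Set (P.Pt k)) (h i)

namespace Nrm

variable {v : P.V → L} {W T : Sub k P} {h : P.ι → MvPolynomial P.V k} (H : Nrm v W T h)
include H

theorem mem (s : P.V) : v s ∈ Loc v T := by
  exact ⟨X s, h s.1, single s.1 1, IsForm.X s, H.form s.1, H.ne s.1, by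
    rw [H.one, mul_one, aeval_X]⟩

theorem G3b_coe (f : MvPolynomial P.V k) :
    ((aeval (fun s => (⟨v s, H.mem s⟩ : Loc v T)) f : Loc v T) : L) = aeval v f :=
  comp_aeval_apply (fun s => (⟨v s, H.mem s⟩ : Loc v T)) (Loc v T).val f

theorem G3b_unit {c : Loc v T} {f g : MvPolynomial P.V k} {a : P.ι →₀ ℕ} (hf : IsForm f a)
    (hg : IsForm g a) (hT : ¬ Van (T : Set (P.Pt k)) g) (e : (c : L) * aeval v g = aeval v f) :
    IsUnit c ↔ ¬ Van (T : Set (P.Pt k)) f := by
  constructor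
  · intro hc hf0
    obtain ⟨d, hd⟩ := hc.exists_right_inv
    obtain ⟨f', g', a', hf', hg', hT', e'⟩ := d.2
    have h1 : (c : L) * d = 1 := congrArg Subtype.val hd
    have h2 : IsForm (g * g' - f * f') (a + a') :=
      (weightedHomogeneousSubmodule k _ _).sub_mem (hg.mul hg') (hf.mul hf')
    have h3 : aeval v (g * g' - f * f') = 0 := by
      rw [map_sub, map_mul, map_mul, ← e, ← e']
      linear_combination -(aeval v g * aeval v g') * h1
    refine G3b_not_van_mul hg hg' hT hT' fun x hx => ?_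
    have h4 := (H.gen.iff _ _ h2).1 h3 x (H.le hx)
    have h5 := hf0 x hx
    rw [ev_eq] at h4 h5 ⊢
    rwa [map_sub, map_mul _ f, h5, zero_mul, sub_zero] at h4
  · intro hf0
    have h1 := G3b_ne H.gen H.le hf hf0
    have h2 : (c : L) ≠ 0 := by
      intro h0
      rw [h0, zero_mul] at e
      exact h1 e.symm
    refine IsUnit.of_mul_eq_one ⟨(c : L)⁻¹, g, f, a, hg, hf, hf0, ?_⟩ (Subtype.ext ?_)
    · rw [← e, inv_mul_cancel_left₀ h2]
    · exact mul_inv_cancel₀ h2

theorem G3b_unit' {K : Type u} [Field K] [Algebra k K] {w : P.V → K}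
    (hw : IsGen (T : Set (P.Pt k)) w) (h1 : ∀ i, aeval w (h i) = 1) (f : MvPolynomial P.V k) :
    IsUnit (aeval (fun s => (⟨v s, H.mem s⟩ : Loc v T)) f) ↔ aeval w f ≠ 0 := by
  obtain ⟨f', g', a, hf', hg', e⟩ := homog_lin H.form f 1
  obtain ⟨e1, e2⟩ := e L v H.one
  obtain ⟨e3, e4⟩ := e K w h1
  rw [map_one] at e2 e4
  rw [H.G3b_unit hf' hg' (by rw [← hw.iff _ _ hg', e4]; exact one_ne_zero)
    (by rw [H.G3b_coe, e2, e1, mul_one]), ← hw.iff _ _ hf', e3]

theorem G3b_frac (c : Loc v T) : ∃ (f g : MvPolynomial P.V k) (a : P.ι →₀ ℕ), IsForm f a ∧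
    IsForm g a ∧ ¬ Van (T : Set (P.Pt k)) g ∧
      c * aeval (fun s => (⟨v s, H.mem s⟩ : Loc v T)) g =
        aeval (fun s => (⟨v s, H.mem s⟩ : Loc v T)) f := by
  obtain ⟨f, g, a, hf, hg, hT, e⟩ := c.2
  refine ⟨f, g, a, hf, hg, hT, Subtype.ext ?_⟩
  rw [Subalgebra.coe_mul, H.G3b_coe, H.G3b_coe, e]

theorem isLocal : IsLocalRing (Loc v T) := by
  refine IsLocalRing.of_nonunits_add fun c d hc hd => ?_
  obtain ⟨f, g, a, hf, hg, hT, e⟩ := c.2
  obtain ⟨f', g', a', hf', hg', hT', e'⟩ := d.2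
  rw [mem_nonunits_iff, H.G3b_unit hf hg hT e, not_not] at hc
  rw [mem_nonunits_iff, H.G3b_unit hf' hg' hT' e', not_not] at hd
  rw [mem_nonunits_iff, H.G3b_unit (G3b_add (hf.mul hg') (hg.mul hf')) (hg.mul hg')
    (G3b_not_van_mul hg hg' hT hT') (by
      rw [map_add, map_mul, map_mul, map_mul, ← e, ← e', Subalgebra.coe_add]
      ring), not_not]
  intro x hx
  have h1 := hc x hx
  have h2 := hd x hx
  rw [ev_eq] at h1 h2 ⊢
  rw [map_add, map_mul, map_mul, h1, h2, zero_mul, mul_zero, add_zero]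

theorem noeth : IsNoetherianRing (Loc v T) := by
  obtain ⟨K, _, _, w, hw, h1⟩ := G3b_gen T H.form H.ne
  have := P.finι
  have := P.finσ
  let q : Ideal (MvPolynomial P.V k) := RingHom.ker (aeval w : MvPolynomial P.V k →ₐ[k] K)
  have : q.IsPrime := RingHom.ker_isPrime _
  have hu : ∀ y : q.primeCompl, IsUnit ((aeval (fun s => (⟨v s, H.mem s⟩ : Loc v T)) :
      MvPolynomial P.V k →ₐ[k] Loc v T).toRingHom y) := fun y => (H.G3b_unit' hw h1 y).2 y.2
  refine isNoetherianRing_of_surjective (Localization.AtPrime q) _ (IsLocalization.lift hu) ?_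
  refine (IsLocalization.lift_surjective_iff hu).2 fun c => ?_
  obtain ⟨f, g, a, -, hg, hT, e⟩ := H.G3b_frac c
  exact ⟨(f, ⟨g, fun e' => hT ((hw.iff g a hg).1 e')⟩), e⟩

theorem chart [IsLocalRing (Loc v T)] :
    Chart (fun s => (⟨v s, H.mem s⟩ : Loc v T)) W T (IsLocalRing.maximalIdeal _) := by
  obtain ⟨K, _, _, w, hw, h1⟩ := G3b_gen T H.form H.ne
  refine ⟨fun f a hf => ?_, fun f a hf => ?_, H.G3b_frac⟩
  · rw [← H.gen.iff f a hf, ← H.G3b_coe]
    exact ZeroMemClass.coe_eq_zero.symm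
  · rw [IsLocalRing.mem_maximalIdeal, mem_nonunits_iff, H.G3b_unit' hw h1, not_not, hw.iff f a hf]

theorem mem_fld {y : L} : y ∈ fld k v ↔ ∃ a ∈ Loc v T, ∃ b ∈ Loc v T, y = a / b := by
  constructor
  · intro hy
    have h1 : fld k v ≤ IntermediateField.adjoin k (Loc v T : Set L) := by
      refine IntermediateField.adjoin_le_iff.2 ?_
      rintro _ ⟨i, s, t, rfl⟩
      exact div_mem (IntermediateField.subset_adjoin _ _ (H.mem _))
        (IntermediateField.subset_adjoin _ _ (H.mem _))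
    have h2 := IntermediateField.mem_adjoin_iff_div.1 (h1 hy)
    rwa [Algebra.adjoin_eq] at h2
  · have h1 : ∀ c ∈ Loc v T, c ∈ fld k v := by
      rintro c ⟨f, g, a, hf, hg, hT, e⟩
      rw [eq_div_of_mul_eq (G3b_ne H.gen H.le hg hT) e]
      exact ratio_mem v H.gen.ne hf hg
    rintro ⟨a, ha, b, hb, rfl⟩
    exact div_mem (h1 a ha) (h1 b hb)

theorem primes [IsAlgClosed k] [IsLocalRing (Loc v T)] (hd : sdim T + 1 = sdim W)
    (n : Ideal (Loc v T)) (hn : n.IsPrime) : n = ⊥ ∨ n = IsLocalRing.maximalIdeal _ := by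
  have hc := H.chart
  obtain ⟨U, hU⟩ := G3b_loc (k := k) (fun s => (⟨v s, H.mem s⟩ : Loc v T)) n fun i =>
    G3b_blk _ n (H.form i) (by
      have : aeval (fun s => (⟨v s, H.mem s⟩ : Loc v T)) (h i) = 1 :=
        Subtype.ext ((H.G3b_coe _).trans (H.one i))
      rw [this]
      exact (Ideal.ne_top_iff_one _).1 hn.ne_top)
  have h1 : T ≤ U := subset_of_van U.isClosed fun f a hf h0 =>
    (hc.mem f a hf).1 (IsLocalRing.le_maximalIdeal hn.ne_top ((hU f a hf).2 h0))
  have h2 : U ≤ W := subset_of_van W.isClosed fun f a hf h0 => (hU f a hf).1 (by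
    rw [(hc.zero f a hf).2 h0]
    exact zero_mem _)
  rcases h1.eq_or_lt with e | e
  · subst e
    exact Or.inr (Chart.ideal_eq ⟨hc.zero, hU, hc.frac⟩ hc)
  · have h3 := sdim_lt e
    obtain rfl := eq_of_sdim_le h2 (by omega)
    refine Or.inl (eq_bot_iff.2 fun c hcn => ?_)
    obtain ⟨f, g, a, hf, hg, hT, e'⟩ := hc.frac c
    have h4 := (hc.zero f a hf).2 ((hU f a hf).1 (e' ▸ n.mul_mem_right _ hcn))
    rw [h4] at e'
    refine (mul_eq_zero.1 e').resolve_right fun h5 => hT fun x hx => ?_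
    exact (hc.zero g a hg).1 h5 x (h1 hx)

end Nrm

theorem G3b_between [IsAlgClosed k] {T U W : Sub k P} (h1 : T ≤ U) (h2 : U ≤ W)
    (hd : sdim T + 1 = sdim W) : U = T ∨ sdim W ≤ sdim U := by
  rcases h1.eq_or_lt with e | e
  · exact Or.inl e.symm
  · have := sdim_lt e
    have := sdim_mono h2
    exact Or.inr (by omega)

theorem G3b_val [IsAlgClosed k] {β : Crd k P S} (hβ : Inj β) {V : Sub k S} {v : S.V → L}
    (hv : IsGen (V : Set (S.Pt k)) v) (hd : sdim (β.img V) = sdim V) {T : Sub k P}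
    (hT : T ≤ β.img V) (hT' : sdim T + 1 = sdim V) {h : S.ι → MvPolynomial S.V k}
    (hh : ∀ j, IsForm (h j) (single j 1)) (h1 : ∀ j, aeval v (h j) = 1)
    (hU : ∀ U ≤ V, β.img U = T → ∀ j, ¬ Van (U : Set (S.Pt k)) (h j)) (O : ValuationSubring L)
    (hO : ∀ c ∈ Loc (v ∘ β.ε) T, c ∈ O) (s : S.V) : v s ∈ O := by
  let : Algebra k O := ((algebraMap k L).codRestrict O.toSubring fun c =>
    hO _ (Subalgebra.algebraMap_mem _ c)).toAlgebra
  have : IsScalarTower k O L := IsScalarTower.of_algebraMap_eq fun _ => rfl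
  have hς : ∀ j, ∃ t : S.σ j, v ⟨j, t⟩ ≠ 0 ∧ ∀ t', (v ⟨j, t⟩)⁻¹ * v ⟨j, t'⟩ ∈ O := by
    intro j
    obtain ⟨t₀, ht₀⟩ := hv.ne j
    have : Nonempty (S.σ j) := ⟨t₀⟩
    have := S.finσ j
    obtain ⟨t, ht⟩ := Finite.exists_max fun t : S.σ j => O.valuation (v ⟨j, t⟩)
    have h0 : 0 < O.valuation (v ⟨j, t⟩) :=
      (zero_lt_iff.2 ((Valuation.ne_zero_iff _).2 ht₀)).trans_le (ht t₀)
    refine ⟨t, (Valuation.ne_zero_iff _).1 h0.ne', fun t' => ?_⟩
    rw [← O.valuation_le_one_iff, map_mul, map_inv₀, inv_mul_le_iff₀ h0, mul_one]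
    exact ht t'
  choose ς hς0 hς using hς
  let μ : S.ι → L := fun j => (v ⟨j, ς j⟩)⁻¹
  have hμ : ∀ j, μ j ≠ 0 := fun j => inv_ne_zero (hς0 j)
  let y : S.V → O := fun s => ⟨μ s.1 * v s, hς s.1 s.2⟩
  have hy1 : ∀ j, y ⟨j, ς j⟩ = 1 := fun j => Subtype.ext (inv_mul_cancel₀ (hς0 j))
  have hy : ∀ f : MvPolynomial S.V k, ((aeval y f : O) : L) = aeval (fun s => μ s.1 * v s) f :=
    fun f => comp_aeval_apply y (IsScalarTower.toAlgHom k O L) f
  obtain ⟨U, hU0⟩ := G3b_loc (k := k) y (IsLocalRing.maximalIdeal O) fun j =>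
    ⟨ς j, by rw [hy1]; exact (Ideal.ne_top_iff_one _).1 Ideal.IsPrime.ne_top'⟩
  have hv' := hv.scale μ hμ
  have hUV : U ≤ V := subset_of_van V.isClosed fun f a hf hf0 => (hU0 f a hf).1 (by
    have : aeval y f = 0 := Subtype.ext ((hy f).trans ((hv'.iff f a hf).2 hf0))
    rw [this]
    exact zero_mem _)
  have hς' : ∀ i : P.ι, ∃ t : P.σ i, β.ε ⟨i, t⟩ = ⟨β.ψ i, ς (β.ψ i)⟩ := by
    intro i
    obtain ⟨⟨i', t⟩, e⟩ := hβ.blk ⟨β.ψ i, ς (β.ψ i)⟩ i rfl
    have e' : β.ψ i' = β.ψ i := (β.fst ⟨i', t⟩).symm.trans (congrArg Sigma.fst e)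
    obtain rfl := hβ.ψ e'
    exact ⟨t, e⟩
  choose ς' hς' using hς'
  have hTU : T ≤ β.img U := subset_of_van (β.img U).isClosed fun g a hg hg0 => by
    by_contra hgT
    have h2 := G3b_ne (β.isGen_img hv) hT hg hgT
    have h3 : aeval (v ∘ β.ε) (mono ς' a : MvPolynomial P.V k) / aeval (v ∘ β.ε) g ∈ O :=
      hO _ ⟨_, g, a, mono_form ς' a, hg, hgT, div_mul_cancel₀ _ h2⟩
    have h4 := (hU0 _ _ (β.form hg)).2 ((β.van_img hg).1 hg0)
    refine h4 (IsUnit.of_mul_eq_one ⟨_, h3⟩ (Subtype.ext ?_))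
    have h5 := (β.form hg).aeval_scale μ v
    have h6 := (β.form (mono_form (k := k) ς' a)).aeval_scale μ v
    rw [aeval_rename, aeval_rename, aeval_mono ς' a _ fun i => by
      rw [Function.comp_apply, hς']; exact inv_mul_cancel₀ (hς0 _)] at h6
    rw [aeval_rename β.ε v] at h5
    rw [MulMemClass.coe_mul, hy, h5, OneMemClass.coe_one, h6]
    field_simp
  have hh0 : ¬ Van (U : Set (S.Pt k)) (h s.1) := by
    rcases G3b_between hTU (β.img_mono hUV) (hT'.trans hd.symm) with e | e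
    · exact hU U hUV e s.1
    · rw [eq_of_sdim_le hUV (hd.ge.trans (e.trans (β.sdim_img_le U))), ← hv.iff _ _ (hh s.1), h1]
      exact one_ne_zero
  rw [← hU0 _ _ (hh s.1), IsLocalRing.notMem_maximalIdeal] at hh0
  obtain ⟨d, hd'⟩ := hh0.exists_left_inv
  have h2 : (d : L) * μ s.1 = 1 := by
    have := congrArg Subtype.val hd'
    rwa [MulMemClass.coe_mul, hy, G3b_lin (hh s.1), h1, mul_one] at this
  have h3 : v s = d * y s := by
    change v s = d * (μ s.1 * v s)
    rw [← mul_assoc, h2, one_mul]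
  rw [h3]
  exact mul_mem d.2 (y s).2

theorem integral_loc [IsAlgClosed k] {β : Crd k P S} (hβ : Inj β) {V : Sub k S} {v : S.V → L}
    (hv : IsGen (V : Set (S.Pt k)) v) (hd : sdim (β.img V) = sdim V) {T : Sub k P}
    (hT : T ≤ β.img V) (hT' : sdim T + 1 = sdim V) {h : S.ι → MvPolynomial S.V k}
    (hh : ∀ j, IsForm (h j) (single j 1)) (h1 : ∀ j, aeval v (h j) = 1)
    (hU : ∀ U ≤ V, β.img U = T → ∀ j, ¬ Van (U : Set (S.Pt k)) (h j)) (s : S.V) :
    IsIntegral (Loc (v ∘ β.ε) T) (v s) := by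
  have h2 : v s ∈ (integralClosure (Subring.closure (Loc (v ∘ β.ε) T : Set L)) L).toSubring := by
    rw [← iInf_valuationSubring_superset, Subring.mem_iInf]
    exact fun O => G3b_val hβ hv hd hT hT' hh h1 hU O.1 (fun c hc => O.2 hc) s
  have h3 : Subring.closure (Loc (v ∘ β.ε) T : Set L) = (Loc (v ∘ β.ε) T).toSubring :=
    Subring.closure_eq (Loc (v ∘ β.ε) T).toSubring
  rw [h3] at h2
  exact h2

end Pool.Agent.Work.MP_10f4af_ag
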