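import Pool.Agent.Work.MP_10f4af_ag.G3b
import Pool.Agent.Work.MP_10f4af_ag.G2

/-!
# The finite algebra of a generically finite projection

Plan.  The `U ≤ V` with `β.img U = T` have dimension `sdim V - 1` and are finite in number
(`exists_form_van` for `T`, `finite_div`), and there is one (`Crd.exists_over'`).  Choose linear
forms `h' i` not vanishing on `T` and `h j` not vanishing on these `U` (`exists_form_deg`) with
`h (β.ψ i) = rename β.ε (h' i)`; normalise a generic point `v` of `V` (`IsGen.scale`).  Put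
`A = Loc (v ∘ β.ε) T`, `B = Algebra.adjoin A (range v)` (finite by `integral_loc`).  Every
`b ∈ B` satisfies `b * aeval v (rename β.ε G) = aeval v F` with `G` a form not vanishing on `T` and
`F` a polynomial; `homog_lin` makes the two of the same degree.  A maximal ideal `n` lies over
the maximal ideal of `A`; `U` is the locus (`exists_loc`) of the image of `z` in `B ⧸ n`.
Conversely for `U` with normalised generic point `w` the set of `b` with
`b * aeval v G = aeval v F`, `aeval w G ≠ 0`, `aeval w F = 0` is a proper ideal; a maximal ideal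
above it belongs to some `U' ≤ U`, and `U' = U` by dimension.  Degrees: `deg_eq`, `ratio_mem`,
`Nrm.mem_fld` and the two lemmas below.
-/

open MvPolynomial Topology TopologicalSpace Finsupp

namespace Pool.Agent.Work.MP_10f4af_ag

open MP_ffcd14_ag hiding len vl cyc pl Weil idl_hmg mem_idl idl_prime idl_le_iff

universe u

variable {k : Type u} [Field k] {P S : Amb} {L : Type u} [Field L] [Algebra k L]

theorem finrank_frac (A : Subalgebra k L) (B : Subalgebra A L) [Module.Finite A B]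
    (K₀ K₁ : IntermediateField k L) (h₀ : ∀ y, y ∈ K₀ ↔ ∃ a ∈ A, ∃ b ∈ A, y = a / b)
    (h₁ : ∀ y, y ∈ K₁ ↔ ∃ a ∈ B, ∃ b ∈ B, y = a / b) :
    Module.finrank A B = K₀.relfinrank K₁ := by
  have hAB : ∀ a ∈ A, a ∈ B := fun a ha => B.algebraMap_mem ⟨a, ha⟩
  have hle : K₀ ≤ K₁ := fun y hy => by
    obtain ⟨a, ha, b, hb, rfl⟩ := (h₀ y).1 hy
    exact (h₁ _).2 ⟨a, hAB a ha, b, hAB b hb, rfl⟩
  have hA : ∀ a : A, (a : L) ∈ K₀ := fun a => (h₀ _).2 ⟨a, a.2, 1, one_mem _, (div_one _).symm⟩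
  have hB : ∀ a : B, (a : L) ∈ IntermediateField.extendScalars hle := fun a =>
    (h₁ _).2 ⟨a, a.2, 1, one_mem _, (div_one _).symm⟩
  rw [IntermediateField.relfinrank_eq_finrank_of_le hle]
  set K := IntermediateField.extendScalars hle
  let _ : Algebra A K₀ := (A.val.toRingHom.codRestrict K₀ hA).toAlgebra
  let _ : Algebra B K := (B.val.toRingHom.codRestrict K hB).toAlgebra
  let _ : Algebra A K := ((algebraMap B K).comp (algebraMap A B)).toAlgebra
  have : IsScalarTower A B K := IsScalarTower.of_algebraMap_eq fun _ => rfl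
  have : IsScalarTower A K₀ K := IsScalarTower.of_algebraMap_eq fun _ => rfl
  have : FaithfulSMul A K₀ := (faithfulSMul_iff_algebraMap_injective _ _).2 fun a b h =>
    Subtype.ext (congrArg (fun y : K₀ => (y : L)) h)
  have : FaithfulSMul B K := (faithfulSMul_iff_algebraMap_injective _ _).2 fun a b h =>
    Subtype.ext (congrArg (fun y : K => (y : L)) h)
  have : IsFractionRing A K₀ := IsFractionRing.of_field _ _ fun z => by
    obtain ⟨a, ha, b, hb, e⟩ := (h₀ z).1 z.2
    exact ⟨⟨a, ha⟩, ⟨b, hb⟩, Subtype.ext e⟩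
  have : IsFractionRing B K := IsFractionRing.of_field _ _ fun z => by
    obtain ⟨a, ha, b, hb, e⟩ := (h₁ z).1 z.2
    exact ⟨⟨a, ha⟩, ⟨b, hb⟩, Subtype.ext e⟩
  exact (IsFractionRing.finrank_eq A K₀ B K).symm

theorem finrank_range {F : Type u} [Field F] [Algebra F L] (K₀ : IntermediateField k L)
    (h₀ : ∀ y, y ∈ K₀ ↔ y ∈ Set.range (algebraMap F L)) :
    Module.finrank F L = K₀.relfinrank ⊤ := by
  rw [IntermediateField.relfinrank_top_right]
  refine Algebra.finrank_eq_of_equiv_equiv (RingEquiv.ofBijective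
    ((algebraMap F L).codRestrict K₀ fun a => (h₀ _).2 ⟨a, rfl⟩) ⟨fun a b h =>
      (algebraMap F L).injective (congrArg Subtype.val h), fun y => ?_⟩) (RingEquiv.refl L) ?_
  · obtain ⟨a, ha⟩ := (h₀ y).1 y.2
    exact ⟨a, Subtype.ext ha⟩
  · ext a
    rfl

theorem G3c_lin {A : Type*} [CommRing A] [Algebra k A] {h : MvPolynomial S.V k} {j : S.ι}
    (hh : IsForm h (single j 1)) (μ : S.ι → A) (v : S.V → A) :
    aeval (fun s => μ s.1 * v s) h = μ j * aeval v h := by
  rw [hh.aeval_scale, Finsupp.prod_single_index (h := fun i n => μ i ^ n) (pow_zero _), pow_one]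

theorem G3c_ne {h : MvPolynomial S.V k} {j : S.ι} (hh : IsForm h (single j 1)) {w : S.V → L}
    (h1 : aeval w h = 1) : ∃ s, w ⟨j, s⟩ ≠ 0 := by
  classical
  by_contra hc
  push Not at hc
  have e : (fun s : S.V => (if s.1 = j then 0 else 1) * w s) = w := by
    funext ⟨i, s⟩
    by_cases hi : i = j
    · subst hi
      simp [hc]
    · simp [hi]
  have := G3c_lin hh (fun i => if i = j then 0 else 1) w
  rw [e, h1, if_pos rfl, zero_mul] at this
  exact one_ne_zero this

theorem G3c_norm (W : Sub k S) {h : S.ι → MvPolynomial S.V k}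
    (hh : ∀ j, IsForm (h j) (single j 1)) (hW : ∀ j, ¬ Van (W : Set (S.Pt k)) (h j)) :
    ∃ (L : Type u) (_ : Field L) (_ : Algebra k L) (v : S.V → L), IsGen (W : Set (S.Pt k)) v ∧
      ∀ j, aeval v (h j) = 1 := by
  obtain ⟨L, _, _, v, hv⟩ := exists_gen' W
  have hne : ∀ j, aeval v (h j) ≠ 0 := fun j e => hW j ((hv.iff _ _ (hh j)).1 e)
  exact ⟨L, _, _, _, hv.scale (fun j => (aeval v (h j))⁻¹) fun j => inv_ne_zero (hne j),
    fun j => (G3c_lin (hh j) (fun j => (aeval v (h j))⁻¹) v).trans (inv_mul_cancel₀ (hne j))⟩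

theorem G3c_coord {h : S.ι → MvPolynomial S.V k} (hh : ∀ j, IsForm (h j) (single j 1))
    {w : S.V → L} (h1 : ∀ j, aeval w (h j) = 1) (s : S.V) : w s ∈ fld k w := by
  have := ratio_mem w (fun j => G3c_ne (hh j) (h1 j)) (IsForm.X s) (hh s.1)
  rwa [h1, div_one, aeval_X] at this

theorem G3c_dim [IsAlgClosed k] {β : Crd k P S} {V U : Sub k S} (hd : sdim (β.img V) = sdim V)
    {T : Sub k P} (hT' : sdim T + 1 = sdim V) (hU : U ≤ V) (e : β.img U = T) :
    sdim U + 1 = sdim V := by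
  have h1 := β.sdim_img_le U
  have h2 : U ≠ V := by
    rintro rfl
    rw [e] at hd
    omega
  have h3 := sdim_lt (lt_of_le_of_ne hU h2)
  rw [e] at h1
  omega

theorem G3c_fin [IsAlgClosed k] {β : Crd k P S} {V : Sub k S} (hd : sdim (β.img V) = sdim V)
    {T : Sub k P} (hT' : sdim T + 1 = sdim V) :
    {U : Sub k S | U ≤ V ∧ β.img U = T}.Finite := by
  have : ∃ f a, IsForm f a ∧ Van (T : Set (P.Pt k)) f ∧ ¬ Van (β.img V : Set (P.Pt k)) f := by
    by_contra hc
    push Not at hc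
    have := sdim_mono (show β.img V ≤ T from subset_of_van T.isClosed hc)
    omega
  obtain ⟨f, a, hf, h1, h2⟩ := this
  refine (finite_div V (β.form hf) fun h => h2 ((β.van_img hf).2 h)).subset ?_
  rintro U ⟨hU, e⟩
  exact ⟨hU, G3c_dim hd hT' hU e, (β.van_img hf).1 (e ▸ h1)⟩

section

variable {A B : Type u} [CommRing A] [IsLocalRing A] [CommRing B] [Algebra k A] [Algebra k B]
  [Algebra A B] [IsScalarTower k A B] {β : Crd k P S} {V : Sub k S} {T : Sub k P} {x : P.V → A}
  {z : S.V → B} {h : S.ι → MvPolynomial S.V k}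

omit [IsLocalRing A] in
theorem G3c_ren (hz : ∀ s, z (β.ε s) = algebraMap A B (x s)) (f : MvPolynomial P.V k) :
    aeval z (rename β.ε f) = algebraMap A B (aeval x f) := by
  rw [aeval_rename, ← aeval_algebraMap_apply]
  congr 2
  exact funext hz

theorem G3c_max [IsAlgClosed k] [Module.Finite A B] (hz : ∀ s, z (β.ε s) = algebraMap A B (x s))
    (hx : Chart x (β.img V) T (IsLocalRing.maximalIdeal A))
    (hh : ∀ j, IsForm (h j) (single j 1)) (h1 : ∀ j, aeval z (h j) = 1)
    (h0 : ∀ (f : MvPolynomial S.V k) a, IsForm f a → (aeval z f = 0 ↔ Van (V : Set (S.Pt k)) f))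
    (hfr : ∀ b : B, ∃ (F : MvPolynomial S.V k) (G : MvPolynomial P.V k) (a : P.ι →₀ ℕ),
      IsForm G a ∧ ¬ Van (T : Set (P.Pt k)) G ∧ b * aeval z (rename β.ε G) = aeval z F)
    (n : Ideal B) (hn : n.IsMaximal) : ∃ U ≤ V, β.img U = T ∧ Chart z V U n ∧
      n.inertiaDeg A = deg β.ε (idl (U : Set (S.Pt k))) := by
  have hc : n.comap (algebraMap A B) = IsLocalRing.maximalIdeal A :=
    IsLocalRing.eq_maximalIdeal (Ideal.isMaximal_comap_of_isIntegral_of_isMaximal n)
  have : n.LiesOver (IsLocalRing.maximalIdeal A) := ⟨hc.symm⟩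
  let _ : Field (B ⧸ n) := Ideal.Quotient.field n
  let _ : Field (A ⧸ IsLocalRing.maximalIdeal A) := Ideal.Quotient.field _
  let w : S.V → B ⧸ n := fun s => Ideal.Quotient.mk n (z s)
  have hw : ∀ f : MvPolynomial S.V k, aeval w f = Ideal.Quotient.mk n (aeval z f) := fun f =>
    (aeval_algebraMap_apply (B ⧸ n) z f)
  have hw0 : ∀ f : MvPolynomial S.V k, aeval w f = 0 ↔ aeval z f ∈ n := fun f => by
    rw [hw, Ideal.Quotient.eq_zero_iff_mem]
  have hw1 : ∀ j, aeval w (h j) = 1 := fun j => by rw [hw, h1, map_one]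
  obtain ⟨U, hU⟩ := exists_loc (k := k) w fun j => G3c_ne (hh j) (hw1 j)
  have hUV : U ≤ V := subset_of_van V.isClosed fun f a hf hV =>
    (hU.iff f a hf).1 ((hw0 f).2 (by rw [(h0 f a hf).2 hV]; exact n.zero_mem))
  have hwT : ∀ (f : MvPolynomial P.V k) a, IsForm f a →
      (aeval (w ∘ β.ε) f = 0 ↔ Van (T : Set (P.Pt k)) f) := fun f a hf => by
    rw [← aeval_rename, hw0, G3c_ren hz, ← Ideal.mem_comap, hc, hx.mem f a hf]
  have hT : IsGen (T : Set (P.Pt k)) (w ∘ β.ε) := ⟨(β.isGen_img hU).ne, hwT⟩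
  have hfr' : ∀ b : B, ∃ (f g : MvPolynomial S.V k) (a : S.ι →₀ ℕ), IsForm f a ∧ IsForm g a ∧
      aeval w g ≠ 0 ∧ b * aeval z g = aeval z f := fun b => by
    obtain ⟨F, G, a, hG, hGT, e⟩ := hfr b
    obtain ⟨f, g, c, hf, hg, H⟩ := homog_lin hh F (rename β.ε G)
    refine ⟨f, g, c, hf, hg, ?_, by rw [(H B z h1).1, (H B z h1).2, e]⟩
    rw [(H _ w hw1).2, aeval_rename]
    exact fun e' => hGT ((hwT G a hG).1 e')
  refine ⟨U, hUV, (β.isGen_img hU).unique hT, ⟨h0, fun f a hf => by rw [← hw0, hU.iff f a hf],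
    fun b => ?_⟩, ?_⟩
  · obtain ⟨f, g, a, hf, hg, hne, e⟩ := hfr' b
    exact ⟨f, g, a, hf, hg, fun hv => hne ((hU.iff g a hg).2 hv), e⟩
  have htop : fld k w = ⊤ := by
    rw [eq_top_iff]
    rintro y -
    obtain ⟨b, rfl⟩ := Ideal.Quotient.mk_surjective y
    obtain ⟨f, g, a, hf, hg, hne, e⟩ := hfr' b
    have := ratio_mem w hU.ne hf hg
    rwa [hw f, ← e, map_mul, ← hw, mul_div_cancel_right₀ _ hne] at this
  have hmk : ∀ a : A, algebraMap (A ⧸ IsLocalRing.maximalIdeal A) (B ⧸ n)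
      (Ideal.Quotient.mk _ a) = Ideal.Quotient.mk n (algebraMap A B a) := fun a => rfl
  rw [Ideal.inertiaDeg_eq_of_isMaximal (IsLocalRing.maximalIdeal A) n, deg_eq β hU, htop]
  refine finrank_range _ fun y => ⟨fun hy => ?_, ?_⟩
  · let K : IntermediateField k (B ⧸ n) :=
      (algebraMap (A ⧸ IsLocalRing.maximalIdeal A) (B ⧸ n)).fieldRange.toIntermediateField
        fun c => ⟨Ideal.Quotient.mk _ (algebraMap k A c), by
          rw [hmk, ← IsScalarTower.algebraMap_apply]; rfl⟩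
    have hK : ∀ s, (w ∘ β.ε) s ∈ K := fun s => ⟨Ideal.Quotient.mk _ (x s), by
      rw [hmk, ← hz]; rfl⟩
    have : fld k (w ∘ β.ε) ≤ K := by
      refine IntermediateField.adjoin_le_iff.2 ?_
      rintro _ ⟨i, s, t, rfl⟩
      exact div_mem (hK _) (hK _)
    exact this hy
  · rintro ⟨c, rfl⟩
    obtain ⟨a, rfl⟩ := Ideal.Quotient.mk_surjective c
    obtain ⟨f, g, d, hf, hg, hne, e⟩ := hx.frac a
    have hne' : aeval (w ∘ β.ε) g ≠ 0 := fun e' => hne ((hwT g d hg).1 e')
    have := ratio_mem (w ∘ β.ε) hT.ne hf hg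
    have e' : aeval (w ∘ β.ε) f = Ideal.Quotient.mk n (algebraMap A B a) * aeval (w ∘ β.ε) g := by
      rw [← aeval_rename, ← aeval_rename, hw, hw, G3c_ren hz, G3c_ren hz, ← e, map_mul, map_mul]
    rwa [e', mul_div_cancel_right₀ _ hne', ← hmk] at this

omit [IsLocalRing A] [IsScalarTower k A B] in
theorem G3c_ideal {U : Sub k S} (hU : U ≤ V) (e : β.img U = T)
    (hh : ∀ j, IsForm (h j) (single j 1)) (h1 : ∀ j, aeval z (h j) = 1)
    (hn : ∀ j, ¬ Van (U : Set (S.Pt k)) (h j))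
    (h0 : ∀ (f : MvPolynomial S.V k) a, IsForm f a → (aeval z f = 0 ↔ Van (V : Set (S.Pt k)) f))
    (hfr : ∀ b : B, ∃ (F : MvPolynomial S.V k) (G : MvPolynomial P.V k) (a : P.ι →₀ ℕ),
      IsForm G a ∧ ¬ Van (T : Set (P.Pt k)) G ∧ b * aeval z (rename β.ε G) = aeval z F) :
    ∃ n : Ideal B, n.IsMaximal ∧ ∀ (f : MvPolynomial S.V k) a, IsForm f a →
      Van (U : Set (S.Pt k)) f → aeval z f ∈ n := by
  obtain ⟨L, _, _, w, hw, hw1⟩ := G3c_norm U hh hn
  let I : Ideal B :=
    { carrier := {b | ∃ F G : MvPolynomial S.V k, b * aeval z G = aeval z F ∧ aeval w G ≠ 0 ∧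
        aeval w F = 0}
      add_mem' := by
        rintro b b' ⟨F, G, a1, a2, a3⟩ ⟨F', G', b1, b2, b3⟩
        refine ⟨F * G' + F' * G, G * G', ?_, ?_, ?_⟩
        · simp only [map_add, map_mul, ← a1, ← b1]
          ring
        · rw [map_mul]
          exact mul_ne_zero a2 b2
        · simp only [map_add, map_mul, a3, b3, zero_mul, add_zero]
      zero_mem' := ⟨0, 1, by simp, by simp, by simp⟩
      smul_mem' := by
        rintro c b ⟨F, G, a1, a2, a3⟩
        obtain ⟨F', G', a, hG, hGT, b1⟩ := hfr c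
        refine ⟨F * F', G * rename β.ε G', ?_, ?_, ?_⟩
        · simp only [map_mul, ← a1, ← b1, smul_eq_mul]
          ring
        · rw [map_mul, aeval_rename]
          exact mul_ne_zero a2 fun e' => hGT (e ▸ ((β.isGen_img hw).iff G' a hG).1 e')
        · rw [map_mul, a3, zero_mul] }
  have hI : I ≠ ⊤ := by
    rw [Ideal.ne_top_iff_one]
    rintro ⟨F, G, a1, a2, a3⟩
    obtain ⟨f, g, c, hf, -, H⟩ := homog_lin hh (G - F) 0
    have h2 : aeval z f = 0 := by rw [(H B z h1).1, map_sub, ← a1, one_mul, sub_self]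
    have h3 := (hw.iff f c hf).2 fun y hy => (h0 f c hf).1 h2 y (hU hy)
    rw [(H L w hw1).1, map_sub, a3, sub_zero] at h3
    exact a2 h3
  obtain ⟨n, hn, hIn⟩ := Ideal.exists_le_maximal I hI
  exact ⟨n, hn, fun f a hf hv => hIn ⟨f, 1, by simp, by simp, (hw.iff f a hf).2 hv⟩⟩

end

theorem exists_setup [IsAlgClosed k] {β : Crd k P S} (hβ : Inj β) {V : Sub k S}
    (hd : sdim (β.img V) = sdim V) {T : Sub k P} (hT : T ≤ β.img V) (hT' : sdim T + 1 = sdim V) :
    ∃ (A B : Type u) (_ : CommRing A) (_ : IsDomain A) (_ : IsLocalRing A)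
      (_ : IsNoetherianRing A) (_ : CommRing B) (_ : IsDomain B) (_ : Algebra k A)
      (_ : Algebra k B) (_ : Algebra A B) (_ : IsScalarTower k A B) (_ : Module.Finite A B)
      (_ : FaithfulSMul A B) (x : P.V → A) (z : S.V → B),
      (∀ s, z (β.ε s) = algebraMap A B (x s)) ∧
      (∀ n : Ideal A, n.IsPrime → n = ⊥ ∨ n = IsLocalRing.maximalIdeal A) ∧
      Chart x (β.img V) T (IsLocalRing.maximalIdeal A) ∧
      Module.finrank A B = deg β.ε (idl (V : Set (S.Pt k))) ∧
      (∀ n : Ideal B, n.IsMaximal → ∃ U ≤ V, β.img U = T ∧ Chart z V U n ∧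
        n.inertiaDeg A = deg β.ε (idl (U : Set (S.Pt k)))) ∧
      ∀ U ≤ V, β.img U = T → ∃ n : Ideal B, n.IsMaximal ∧ Chart z V U n := by
  classical
  choose h' hh' hT1 using fun i : P.ι =>
    exists_form_deg (k := k) (Set.finite_singleton T) (single i 1)
  have hex : ∀ j : S.ι, ∃ g : MvPolynomial S.V k, IsForm g (single j 1) ∧
      (∀ U ≤ V, β.img U = T → ¬ Van (U : Set (S.Pt k)) g) ∧
      ∀ i, β.ψ i = j → g = rename β.ε (h' i) := by
    intro j
    by_cases hj : ∃ i, β.ψ i = j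
    · obtain ⟨i, rfl⟩ := hj
      refine ⟨rename β.ε (h' i), ?_, fun U _ e hv => hT1 i T rfl ?_, fun i' e => ?_⟩
      · simpa only [mapDomain_single] using β.form (hh' i)
      · exact e ▸ (β.van_img (hh' i)).2 hv
      · rw [hβ.ψ e]
    · obtain ⟨g, hg, hg'⟩ := exists_form_deg (G3c_fin hd hT') (single j 1)
      exact ⟨g, hg, fun U hU e => hg' U ⟨hU, e⟩, fun i e => absurd ⟨i, e⟩ hj⟩
  choose h hh hU hψ using hex
  obtain ⟨U₀, hU₀, e₀⟩ := β.exists_over' hT
  obtain ⟨L, _, _, v, hv, h1⟩ := G3c_norm V hh fun j hV =>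
    hU j U₀ hU₀ e₀ fun y hy => hV y (hU₀ hy)
  have H : Nrm (v ∘ β.ε) (β.img V) T h' := ⟨β.isGen_img hv, hT, hh', fun i => by
    rw [← aeval_rename, ← hψ _ i rfl, h1], fun i => hT1 i T rfl⟩
  have := H.isLocal
  have := H.noeth
  set A := Loc (v ∘ β.ε) T with hA
  let B : Subalgebra A L := Algebra.adjoin A (Set.range v)
  have : Module.Finite A B := Algebra.finite_adjoin_of_finite_of_isIntegral (Set.finite_range v)
    (by
      rintro _ ⟨s, rfl⟩
      exact integral_loc hβ hv hd hT hT' hh h1 (fun U a b j => hU j U a b) s)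
  have : FaithfulSMul A B := (faithfulSMul_iff_algebraMap_injective _ _).2 fun a b e =>
    Subtype.ext (congrArg (fun y : B => (y : L)) e)
  let z : S.V → B := fun s => ⟨v s, Algebra.subset_adjoin ⟨s, rfl⟩⟩
  have hzv : ∀ f : MvPolynomial S.V k, ((aeval z f : B) : L) = aeval v f := fun f =>
    (aeval_algebraMap_apply L z f).symm
  have hz1 : ∀ j, aeval z (h j) = 1 := fun j => Subtype.ext (by rw [hzv, h1]; rfl)
  have h0 : ∀ (f : MvPolynomial S.V k) a, IsForm f a →
      (aeval z f = 0 ↔ Van (V : Set (S.Pt k)) f) := fun f a hf => by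
    rw [← hv.iff f a hf, ← hzv, ZeroMemClass.coe_eq_zero]
  have hfr : ∀ b : B, ∃ (F : MvPolynomial S.V k) (G : MvPolynomial P.V k) (a : P.ι →₀ ℕ),
      IsForm G a ∧ ¬ Van (T : Set (P.Pt k)) G ∧ b * aeval z (rename β.ε G) = aeval z F := by
    rintro ⟨b, hb⟩
    have one : ¬ Van (T : Set (P.Pt k)) (1 : MvPolynomial P.V k) := fun hc =>
      one_ne_zero ((map_one _).symm.trans (hc _ T.isIrreducible.nonempty.some_mem))
    suffices ∃ (F : MvPolynomial S.V k) (G : MvPolynomial P.V k) (a : P.ι →₀ ℕ),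
        IsForm G a ∧ ¬ Van (T : Set (P.Pt k)) G ∧ b * aeval v (rename β.ε G) = aeval v F by
      obtain ⟨F, G, a, a1, a2, a3⟩ := this
      exact ⟨F, G, a, a1, a2, Subtype.ext (by rw [MulMemClass.coe_mul, hzv, hzv]; exact a3)⟩
    induction hb using Algebra.adjoin_induction with
    | mem y hy =>
      obtain ⟨s, rfl⟩ := hy
      exact ⟨X s, 1, 0, IsForm.one, one, by simp⟩
    | algebraMap r =>
      obtain ⟨f, g, a, -, hg, hne, e⟩ := r.2
      exact ⟨rename β.ε f, g, a, hg, hne, by rw [aeval_rename, aeval_rename]; exact e⟩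
    | add y y' _ _ ih ih' =>
      obtain ⟨F, G, a, a1, a2, a3⟩ := ih
      obtain ⟨F', G', a', b1, b2, b3⟩ := ih'
      refine ⟨F * rename β.ε G' + F' * rename β.ε G, G * G', a + a', a1.mul b1,
        fun hc => (Van.mul a1 b1 hc).elim a2 b2, ?_⟩
      simp only [map_add, map_mul, ← a3, ← b3]
      ring
    | mul y y' _ _ ih ih' =>
      obtain ⟨F, G, a, a1, a2, a3⟩ := ih
      obtain ⟨F', G', a', b1, b2, b3⟩ := ih'
      refine ⟨F * F', G * G', a + a', a1.mul b1, fun hc => (Van.mul a1 b1 hc).elim a2 b2, ?_⟩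
      simp only [map_mul, ← a3, ← b3]
      ring
  have hz : ∀ s, z (β.ε s) = algebraMap A B ⟨(v ∘ β.ε) s, H.mem s⟩ := fun s => rfl
  have hmax := G3c_max hz H.chart hh hz1 h0 hfr
  refine ⟨A, B, inferInstance, inferInstance, inferInstance, inferInstance, inferInstance,
    inferInstance, inferInstance, inferInstance, inferInstance, inferInstance, inferInstance,
    inferInstance, _, z, hz, H.primes (hT'.trans hd.symm), H.chart, ?_, hmax, fun U hUV e => ?_⟩
  · rw [deg_eq β hv]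
    refine finrank_frac A B _ _ (fun y => H.mem_fld) fun y => ⟨fun hy => ?_, ?_⟩
    · have h2 : fld k v ≤ IntermediateField.adjoin k (Set.range v) := by
        refine IntermediateField.adjoin_le_iff.2 ?_
        rintro _ ⟨i, s, t, rfl⟩
        exact div_mem (IntermediateField.subset_adjoin _ _ ⟨_, rfl⟩)
          (IntermediateField.subset_adjoin _ _ ⟨_, rfl⟩)
      have h3 : Algebra.adjoin k (Set.range v) ≤ B.restrictScalars k :=
        Algebra.adjoin_le Algebra.subset_adjoin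
      obtain ⟨a, ha, b, hb, e⟩ := IntermediateField.mem_adjoin_iff_div.1 (h2 hy)
      exact ⟨a, h3 ha, b, h3 hb, e⟩
    · have h2 : ∀ b ∈ B, b ∈ fld k v := by
        intro b hb
        induction hb using Algebra.adjoin_induction with
        | mem y hy =>
          obtain ⟨s, rfl⟩ := hy
          exact G3c_coord hh h1 s
        | algebraMap r => exact fld_le β v (H.mem_fld.2 ⟨r, r.2, 1, one_mem _, (div_one _).symm⟩)
        | add y y' _ _ ih ih' => exact add_mem ih ih'
        | mul y y' _ _ ih ih' => exact mul_mem ih ih'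
      rintro ⟨a, ha, b, hb, rfl⟩
      exact div_mem (h2 a ha) (h2 b hb)
  · obtain ⟨n, hn, hn'⟩ := G3c_ideal hUV e hh hz1 (fun j => hU j U hUV e) h0 hfr
    obtain ⟨U', a1, a2, a3, -⟩ := hmax n hn
    have hle : U' ≤ U := subset_of_van U.isClosed fun f a hf hc =>
      (a3.mem f a hf).1 (hn' f a hf hc)
    have d1 := G3c_dim hd hT' hUV e
    have d2 := G3c_dim hd hT' a1 a2
    exact ⟨n, hn, eq_of_sdim_le hle (by omega) ▸ a3⟩

end Pool.Agent.Work.MP_10f4af_ag
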