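import Pool.Agent.Work.MP_10f4af_ag.Gc
import Pool.Agent.Work.MP_10f4af_ag.CA3

/-!
# Intersection with a local complete intersection

Plan.  `gys_apply`: the set of minimal primes is finite, evaluate the finsum.  `gys_gen`:
`Classical.epsilon_spec` and `mult_gen`.  `gys_mem`: `Hmg_min`, `exists_idl`, `LG.gen'`, `gys_gen`,
`of_mult`.  `gys_coeff`: if `r` is minimal over `idl V ⊔ J` use `gys_gen` (the same `s` works at
`r`); otherwise the left side is zero, and so is the right side by `of_mult`, `min_iff`, `PV`,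
`eq_of_sdim_le`.  `gys_one`: `Sp_one`, `gys_pos`, `mult_nat`, `mult_le_one` (take the product of
the elements `s` over a finite set of forms generating `idl T`).  `gys_gys`: compare the
coefficients at `T` (`Sp_eq`); choose equations of `J` and `J'` at `T`; the components of
`gys J c (cS V)` satisfy `PV J' c'`; `gys_coeff`, `dvs_congr`, `dvs_append`.
`gys_single`: if `f` vanishes on `V` both sides vanish (`gys_mem`, `eq_of_sdim_le`).
-/

open MvPolynomial Topology TopologicalSpace Finsupp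

namespace Pool.Agent.Work.MP_10f4af_ag

open MP_ffcd14_ag hiding len vl cyc pl Weil idl_hmg mem_idl idl_prime idl_le_iff

universe u

variable {k : Type u} [Field k] {P Q S : Amb} {A A' : Set (P.Pt k)}
  {J J' : Ideal (MvPolynomial P.V k)} {c c' : ℕ} {V T : Sub k P}
  {fs : List (MvPolynomial P.V k)}

/-- On `A` the ideal `J` is locally generated by `c` forms. -/
structure LG (A : Set (P.Pt k)) (J : Ideal (MvPolynomial P.V k)) (c : ℕ) : Prop where
  hmg : Hmg J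
  gen : ∀ x ∈ A, (∀ f ∈ J, ev x f = 0) → ∃ fs : List (MvPolynomial P.V k), fs.length = c ∧
    Fm fs ∧ (∀ f ∈ fs, f ∈ J) ∧ ∃ s a, IsForm s a ∧ ev x s ≠ 0 ∧
      ∀ g ∈ J, s * g ∈ idl A ⊔ Ideal.ofList fs

/-- `V` meets `V(J)` in codimension at least `c`. -/
def PV (J : Ideal (MvPolynomial P.V k)) (c : ℕ) (V : Sub k P) : Prop :=
  ∀ U ≤ V, J ≤ idl (U : Set (P.Pt k)) → sdim U + c ≤ sdim V

theorem G4_col {R : Type*} [CommRing R] {H : Ideal R} {s g : R} :
    g ∈ H.colon {s} ↔ s * g ∈ H := by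
  rw [Submodule.mem_colon_singleton, smul_eq_mul, mul_comm]

theorem G4_sup {R : Type*} [CommRing R] {I I' H : Ideal R} {s : R} (h : ∀ g ∈ I, s * g ∈ H)
    (h' : ∀ g ∈ I', s * g ∈ H) : ∀ g ∈ I ⊔ I', s * g ∈ H := fun _ hg =>
  G4_col.1 ((sup_le (fun g hg => G4_col.2 (h g hg)) fun g hg => G4_col.2 (h' g hg) :
    I ⊔ I' ≤ H.colon {s}) hg)

theorem G4_app {R : Type*} [CommRing R] {I I' p : Ideal R} {s s' : R} {l l' : List R}
    (h : ∀ g ∈ I, s * g ∈ p ⊔ Ideal.ofList l) (h' : ∀ g ∈ I', s' * g ∈ p ⊔ Ideal.ofList l') :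
    ∀ g ∈ I ⊔ I', s * s' * g ∈ p ⊔ Ideal.ofList (l ++ l') := by
  rw [Ideal.ofList_append]
  refine G4_sup (fun g hg => ?_) fun g hg => ?_
  · rw [mul_comm s, mul_assoc]
    exact Ideal.mul_mem_left _ _ (sup_le_sup_left le_sup_left p (h g hg))
  · rw [mul_assoc]
    exact Ideal.mul_mem_left _ _ (sup_le_sup_left le_sup_right p (h' g hg))

theorem G4_loc {R : Type*} [CommRing R] [IsNoetherianRing R] {q H : Ideal R} [q.IsPrime]
    {B : Set R} (h : ∀ g ∈ B, ∃ s ∉ q, s * g ∈ H) : ∃ s ∉ q, ∀ g ∈ Ideal.span B, s * g ∈ H := by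
  obtain ⟨t, ht, e⟩ := (Submodule.fg_span_iff_fg_span_finset_subset (R := R) B).1
    (IsNoetherian.noetherian _)
  choose! σ h1 h2 using h
  refine ⟨∏ g ∈ t, σ g, fun h => ?_, fun g hg => G4_col.1 ?_⟩
  · obtain ⟨g, hg, hg'⟩ := Ideal.IsPrime.prod_mem_iff.1 h
    exact h1 g (ht hg) hg'
  · refine (Submodule.span_le.2 fun g hg => G4_col.2 ?_ : Submodule.span R (t : Set R) ≤ _)
      (e.le hg)
    obtain ⟨u, hu⟩ := Finset.dvd_prod_of_mem σ hg
    rw [hu, mul_right_comm]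
    exact Ideal.mul_mem_right _ _ (h2 g (ht hg))

open Classical in
theorem G4_finsum {α : Type*} {B : Set α} (hB : B.Finite) (r : α → Prop) (m : α → ℚ) (q : α) :
    (∑ᶠ (x ∈ B) (_ : r x), single x (m x) : α →₀ ℚ) q = if q ∈ B ∧ r q then m q else 0 := by
  rw [finsum_mem_eq_finite_toFinset_sum _ hB, Finset.sum_apply']
  have e : ∀ x, (∑ᶠ (_ : r x), single x (m x) : α →₀ ℚ) q =
      if q = x then if r q then m q else 0 else 0 := fun x => by
    rw [finsum_eq_if]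
    by_cases h : q = x
    · subst h
      split_ifs <;> simp_all
    · split_ifs <;> simp [h]
  simp only [e, Finset.sum_ite_eq, Set.Finite.mem_toFinset, ite_and]

open Classical in
theorem G4_apply (p q : Ideal (MvPolynomial P.V k)) : gys J c (single p 1) q =
    if q ∈ (p ⊔ J).minimalPrimes ∧ Rel q then
      mult (Classical.epsilon fun fs => fs.length = c ∧ Gen J p q fs) p q else 0 := by
  rw [gys, linearCombination_single, one_smul]
  exact G4_finsum (Ideal.finite_minimalPrimes_of_isNoetherianRing _ _) Rel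
    (fun q => mult (Classical.epsilon fun fs => fs.length = c ∧ Gen J p q fs) p q) q

theorem LG.mono (h : LG A J c) (h' : A' ⊆ A) : LG A' J c := by
  refine ⟨h.hmg, fun x hx hJ => ?_⟩
  obtain ⟨fs, h1, h2, h3, s, a, h4, h5, h6⟩ := h.gen x (h' hx) hJ
  exact ⟨fs, h1, h2, h3, s, a, h4, h5, fun g hg => sup_le_sup_right (idl_anti h') _ (h6 g hg)⟩

theorem LG.map (h : LG A J c) (β : Crd k P S) {B : Set (S.Pt k)} (h' : ∀ z ∈ B, β.pr z ∈ A) :
    LG B (J.map (rename β.ε)) c := by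
  refine ⟨Hmg_map β h.hmg, fun z hz hJ => ?_⟩
  obtain ⟨fs, h1, h2, h3, s, a, h4, h5, h6⟩ := h.gen (β.pr z) (h' z hz) fun f hf => by
    rw [← β.ev_rename]
    exact hJ _ (Ideal.mem_map_of_mem _ hf)
  obtain ⟨b, hb⟩ := h4.rename β.fst
  refine ⟨fs.map (rename β.ε), by rwa [List.length_map], h2.map β, fun f hf => ?_, _, b, hb,
    by rwa [β.ev_rename], fun g hg => G4_col.1 ?_⟩
  · obtain ⟨f', hf', rfl⟩ := List.mem_map.1 hf
    exact Ideal.mem_map_of_mem _ (h3 f' hf')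
  · refine Ideal.map_le_iff_le_comap.2 (fun g hg => G4_col.2 ?_) hg
    have h7 := Ideal.mem_map_of_mem (rename β.ε) (h6 g hg)
    rw [map_mul, Ideal.map_sup] at h7
    refine sup_le_sup (map_idl_le β h') ?_ h7
    exact (Ideal.map_ofList (rename β.ε : MvPolynomial P.V k →ₐ[k] _).toRingHom fs).le

theorem LG.sup (h : LG A J c) (h' : LG A J' c') : LG A (J ⊔ J') (c + c') := by
  refine ⟨h.hmg.sup h'.hmg, fun x hx hJ => ?_⟩
  obtain ⟨fs, h1, h2, h3, s, a, h4, h5, h6⟩ :=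
    h.gen x hx fun f hf => hJ f (Ideal.mem_sup_left hf)
  obtain ⟨fs', h1', h2', h3', s', a', h4', h5', h6'⟩ :=
    h'.gen x hx fun f hf => hJ f (Ideal.mem_sup_right hf)
  refine ⟨fs ++ fs', by rw [List.length_append, h1, h1'],
    fun f hf => (List.mem_append.1 hf).elim (h2 f) (h2' f), fun f hf => ?_, s * s', _,
    h4.mul h4', by rw [ev_mul]; exact mul_ne_zero h5 h5', G4_app h6 h6'⟩
  exact (List.mem_append.1 hf).elim (fun h => Ideal.mem_sup_left (h3 f h))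
    fun h => Ideal.mem_sup_right (h3' f h)

theorem LG.list (h : Fm fs) : LG A (Ideal.ofList fs) fs.length := by
  refine ⟨h.hmg, fun x _ _ => ⟨fs, rfl, h, fun f hf => Ideal.subset_span hf, 1, 0, IsForm.one,
    by simp [ev], fun g hg => ?_⟩⟩
  rw [one_mul]
  exact Ideal.mem_sup_right hg

theorem LG.single {f : MvPolynomial P.V k} {a : P.ι →₀ ℕ} (h : IsForm f a) :
    LG A (Ideal.span {f}) 1 := by
  rw [← Ideal.ofList_singleton]
  exact LG.list (fs := [f]) fun g hg => ⟨a, List.mem_singleton.1 hg ▸ h⟩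

theorem LG.sq {g : ℕ → MvPolynomial P.V k} {a : P.ι →₀ ℕ} (h : ∀ m, IsForm (g m) a) (j : ℕ) :
    LG A (sq g j) j := by
  have h1 := LG.list (A := A) (fs := (List.range j).map g) fun f hf => by
    obtain ⟨m, -, rfl⟩ := List.mem_map.1 hf
    exact ⟨a, h m⟩
  rwa [List.length_map, List.length_range] at h1

theorem LG.gen' (h : LG A J c) (hT : (T : Set (P.Pt k)) ⊆ A) (hJ : J ≤ idl (T : Set (P.Pt k))) :
    ∃ fs : List (MvPolynomial P.V k), fs.length = c ∧ Fm fs ∧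
      ∀ V : Sub k P, (V : Set (P.Pt k)) ⊆ A →
        Gen J (idl (V : Set (P.Pt k))) (idl (T : Set (P.Pt k))) fs := by
  obtain ⟨x, hx⟩ := T.isIrreducible.nonempty
  obtain ⟨fs, h1, h2, h3, s, a, -, h5, h6⟩ := h.gen x (hT hx) fun f hf => van_idl (hJ hf) x hx
  exact ⟨fs, h1, h2, fun V hV => ⟨h3, s, fun hs => h5 (van_idl hs x hx),
    fun g hg => sup_le_sup_right (idl_anti hV) _ (h6 g hg)⟩⟩

theorem gys_apply {p q : Ideal (MvPolynomial P.V k)} (h : q ∈ (p ⊔ J).minimalPrimes)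
    (h' : Rel q) : gys J c (single p 1) q =
      mult (Classical.epsilon fun fs => fs.length = c ∧ Gen J p q fs) p q := by
  rw [G4_apply, if_pos ⟨h, h'⟩]

theorem gys_apply_not {p q : Ideal (MvPolynomial P.V k)}
    (h : ¬ (q ∈ (p ⊔ J).minimalPrimes ∧ Rel q)) : gys J c (single p 1) q = 0 := by
  rw [G4_apply, if_neg h]

theorem gys_gen {p q : Ideal (MvPolynomial P.V k)} [p.IsPrime] (h : q ∈ (p ⊔ J).minimalPrimes)
    (h' : Rel q) (hl : fs.length = c) (hg : Gen J p q fs) :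
    gys J c (single p 1) q = mult fs p q := by
  have h1 := Classical.epsilon_spec (p := fun fs => fs.length = c ∧ Gen J p q fs) ⟨fs, hl, hg⟩
  rw [gys_apply h h', mult_gen h h1.2 hg (h1.1.trans hl.symm)]

theorem gys_nat (p q : Ideal (MvPolynomial P.V k)) : ∃ n : ℕ, gys J c (single p 1) q = n := by
  by_cases h : q ∈ (p ⊔ J).minimalPrimes ∧ Rel q
  · rw [gys_apply h.1 h.2]
    exact mult_nat _ _ _
  · exact ⟨0, by rw [gys_apply_not h, Nat.cast_zero]⟩

variable [IsAlgClosed k]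

theorem gys_mem (h : LG A J c) (hV : (V : Set (P.Pt k)) ⊆ A) :
    gys J c (cS V) ∈ Sp fun T => T ≤ V ∧ J ≤ idl (T : Set (P.Pt k)) ∧ sdim T + c = sdim V := by
  refine mem_Sp.2 fun q hq => ?_
  obtain ⟨h1, h2⟩ := not_not.1 fun h' => hq (gys_apply_not h')
  have := h1.1.1
  obtain ⟨T, rfl⟩ := exists_idl (Hmg_min ((idl_hmg _).sup h.hmg) h1) h2
  obtain ⟨h3, h4, -⟩ := (min_iff h.hmg).1 h1
  obtain ⟨fs, hl, hf, hg⟩ := h.gen' (T := T) (fun x hx => hV (h3 hx)) h4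
  rw [cS, gys_gen h1 h2 hl (hg V hV)] at hq
  obtain ⟨T', e, -, h5, -⟩ := of_mult hf hq h2
  obtain rfl := idl_inj e
  exact ⟨T, ⟨h3, h4, hl ▸ h5⟩, rfl⟩

theorem G4_min (hJ : Hmg J) (hp : PV J c V) (hT : T ≤ V) (h : J ≤ idl (T : Set (P.Pt k)))
    (hd : sdim T + c = sdim V) :
    idl (T : Set (P.Pt k)) ∈ (idl (V : Set (P.Pt k)) ⊔ J).minimalPrimes :=
  (min_iff hJ).2 ⟨hT, h, fun U h1 h2 h3 => (eq_of_sdim_le h1 (by
    have := hp U h2 h3
    omega)).symm⟩

theorem gys_coeff (hJ : Hmg J) (hV : PV J c V) (hl : fs.length = c) (hf : Fm fs)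
    (hg : Gen J (idl (V : Set (P.Pt k))) (idl (T : Set (P.Pt k))) fs)
    {r : Ideal (MvPolynomial P.V k)} (hr : r ≤ idl (T : Set (P.Pt k))) :
    gys J c (cS V) r = dvs fs (cS V) r := by
  have hrel : Rel r := (rel_idl T).anti hr
  obtain ⟨h1, s, hs, h2⟩ := hg
  have hs' : s ∉ r := fun h => hs (hr h)
  rw [cS, ← mult_eq]
  by_cases h : r ∈ (idl (V : Set (P.Pt k)) ⊔ J).minimalPrimes
  · exact gys_gen h hrel hl ⟨h1, s, hs', h2⟩
  · rw [gys_apply_not fun h' => h h'.1]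
    symm
    by_contra hm
    refine h ?_
    obtain ⟨U, rfl, h3, h4, -⟩ := of_mult hf hm hrel
    refine G4_min hJ hV h3 (fun g hg => ?_) (hl ▸ h4)
    exact ((idl_prime U).mem_or_mem (le_of_mult hm (h2 g hg))).resolve_left hs'

theorem gys_pos (h : LG A J c) (hV : (V : Set (P.Pt k)) ⊆ A) (hp : PV J c V) (hT : T ≤ V)
    (hJ : J ≤ idl (T : Set (P.Pt k))) (hd : sdim T + c = sdim V) :
    0 < gys J c (cS V) (idl (T : Set (P.Pt k))) := by
  have h1 := G4_min h.hmg hp hT hJ hd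
  obtain ⟨fs, hl, hf, hg⟩ := h.gen' (T := T) (fun x hx => hV (hT hx)) hJ
  rw [cS, gys_gen h1 (rel_idl T) hl (hg V hV)]
  exact mult_pos hf ((hg V hV).min h1) (hl ▸ hd)

theorem gys_one (h : LG A J c) (hV : (V : Set (P.Pt k)) ⊆ A) (hT : T ≤ V)
    (hJ : J ≤ idl (T : Set (P.Pt k))) (hd : sdim T + c = sdim V)
    (hu : ∀ U ≤ V, J ≤ idl (U : Set (P.Pt k)) → U ≤ T)
    (hl : ∀ g a, IsForm g a → Van (T : Set (P.Pt k)) g →
      ∃ s ∉ idl (T : Set (P.Pt k)), s * g ∈ idl (V : Set (P.Pt k)) ⊔ J) :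
    gys J c (cS V) = cS T := by
  have hp : PV J c V := fun U h1 h2 => by
    have := sdim_mono (hu U h1 h2)
    omega
  have h1 : gys J c (cS V) ∈ Sp fun Z => Z = T :=
    Sp_mono (fun Z hZ => eq_of_sdim_le (hu Z hZ.1 hZ.2.1) (by have := hZ.2.2; omega)) (gys_mem h hV)
  have h2 := gys_pos h hV hp hT hJ hd
  obtain ⟨n, hn⟩ := gys_nat (J := J) (c := c) (idl (V : Set (P.Pt k))) (idl (T : Set (P.Pt k)))
  have h3 : gys J c (cS V) (idl (T : Set (P.Pt k))) ≤ 1 := by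
    obtain ⟨fs, hl', hf, hg⟩ := h.gen' (T := T) (fun x hx => hV (hT hx)) hJ
    rw [cS, gys_gen (G4_min h.hmg hp hT hJ hd) (rel_idl T) hl' (hg V hV)]
    obtain ⟨h4, s, hs, h5⟩ := hg V hV
    obtain ⟨s', hs', h6⟩ := G4_loc (q := idl (T : Set (P.Pt k)))
      (B := {f | (∃ a, IsForm f a) ∧ ∀ x ∈ (T : Set (P.Pt k)), ev x f = 0})
      fun g hg => hg.1.elim fun a ha => hl g a ha hg.2
    refine mult_le_one (sup_le (idl_le_iff.2 hT) (Ideal.span_le.2 fun f hf => hJ (h4 f hf)))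
      (s := s * s') (fun h => ((idl_prime T).mem_or_mem h).elim hs hs') fun g hg => ?_
    rw [mul_assoc]
    exact G4_sup (fun g hg => Ideal.mem_sup_left (Ideal.mul_mem_left _ _ hg)) h5 _ (h6 g hg)
  have h4 : gys J c (cS V) (idl (T : Set (P.Pt k))) = 1 := by
    change gys J c (cS V) _ = _ at hn
    rw [hn] at h2 h3 ⊢
    exact_mod_cast le_antisymm (by exact_mod_cast h3 : n ≤ 1) (by exact_mod_cast h2 : 0 < n)
  rw [Sp_one h1, h4, one_smul]

theorem gys_gys (h : LG A J c) (h' : LG A J' c') (hV : (V : Set (P.Pt k)) ⊆ A) (hp : PV J c V)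
    (hp' : PV (J ⊔ J') (c + c') V) :
    gys J' c' (gys J c (cS V)) = gys (J ⊔ J') (c + c') (cS V) := by
  have ha := gys_mem h hV
  have h1 : gys J' c' (gys J c (cS V)) ∈ Sp fun T => T ≤ V ∧ J ⊔ J' ≤ idl (T : Set (P.Pt k)) :=
    Sp_map _ _ (fun U hU => Sp_mono
      (fun T hT => ⟨hT.1.trans hU.1, sup_le (hU.2.1.trans (idl_le_iff.2 hT.1)) hT.2.1⟩)
      (gys_mem h' fun x hx => hV (hU.1 hx))) ha
  refine Sp_eq h1 (gys_mem (h.sup h') hV) fun T hT => ?_
  obtain ⟨hT, hJ⟩ : T ≤ V ∧ J ⊔ J' ≤ idl (T : Set (P.Pt k)) := hT.elim id fun h => ⟨h.1, h.2.1⟩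
  have hTA : (T : Set (P.Pt k)) ⊆ A := fun x hx => hV (hT hx)
  obtain ⟨fs, hl, hf, hg⟩ := h.gen' hTA (le_sup_left.trans hJ)
  obtain ⟨gs, hl', hf', hg'⟩ := h'.gen' hTA (le_sup_right.trans hJ)
  have hgen : Gen (J ⊔ J') (idl (V : Set (P.Pt k))) (idl (T : Set (P.Pt k))) (fs ++ gs) := by
    obtain ⟨h2, s, hs, h3⟩ := hg V hV
    obtain ⟨h2', s', hs', h3'⟩ := hg' V hV
    exact ⟨fun f hf => (List.mem_append.1 hf).elim (fun h => Ideal.mem_sup_left (h2 f h))
      fun h => Ideal.mem_sup_right (h2' f h), s * s',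
      fun h => ((idl_prime T).mem_or_mem h).elim hs hs', G4_app h3 h3'⟩
  rw [gys_coeff (h.hmg.sup h'.hmg) hp' (by rw [List.length_append, hl, hl'])
    (fun f hf'' => (List.mem_append.1 hf'').elim (hf f) (hf' f)) hgen le_rfl, dvs_append,
    ← dvs_congr gs fun r hr => gys_coeff h.hmg hp hl hf (hg V hV) hr]
  refine Sp_ext (lapply (idl (T : Set (P.Pt k))) ∘ₗ gys J' c')
    (lapply (idl (T : Set (P.Pt k))) ∘ₗ dvs gs) (fun U hU => ?_) ha
  refine gys_coeff h'.hmg (fun W h2 h3 => ?_) hl' hf' (hg' U fun x hx => hV (hU.1 hx)) le_rfl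
  have h4 := hp' W (h2.trans hU.1) (sup_le (hU.2.1.trans (idl_le_iff.2 h2)) h3)
  have h5 := hU.2.2
  omega

theorem gys_comm (h : LG A J c) (h' : LG A J' c') (hV : (V : Set (P.Pt k)) ⊆ A) (hp : PV J c V)
    (hp' : PV J' c' V) (hp'' : PV (J ⊔ J') (c + c') V) :
    gys J' c' (gys J c (cS V)) = gys J c (gys J' c' (cS V)) := by
  rw [gys_gys h h' hV hp hp'', gys_gys h' h hV hp' (by rwa [sup_comm, add_comm]), sup_comm,
    add_comm]

theorem gys_single {f : MvPolynomial P.V k} {a : P.ι →₀ ℕ} (hf : IsForm f a) (V : Sub k P) :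
    gys (Ideal.span {f}) 1 (cS V) = cut [f] (cS V) := by
  ext q
  by_cases hq : Rel q
  · rw [cut_rel _ _ hq, cS, ← mult_eq]
    by_cases h : q ∈ (idl (V : Set (P.Pt k)) ⊔ Ideal.span {f}).minimalPrimes
    · refine gys_gen h hq rfl ⟨fun g hg => ?_, 1, (Ideal.ne_top_iff_one _).1 h.1.1.ne_top,
        fun g hg => ?_⟩
      · exact List.mem_singleton.1 hg ▸ Ideal.mem_span_singleton_self f
      · rw [one_mul, Ideal.ofList_singleton]
        exact Ideal.mem_sup_right hg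
    · rw [gys_apply_not fun h' => h h'.1]
      exact (not_not.1 fun hm => h (mult_one_ne.1 hm).2).symm
  · rw [cut_not_rel _ _ hq, cS, gys_apply_not fun h => hq h.2]

theorem gys_zero (V : Sub k P) : gys ⊥ 0 (cS V) = cS V := by
  ext q
  rw [cS]
  by_cases h : q ∈ (idl (V : Set (P.Pt k)) ⊔ ⊥).minimalPrimes ∧ Rel q
  · refine gys_gen (fs := []) h.1 h.2 rfl ⟨fun g hg => absurd hg List.not_mem_nil, 1,
      (Ideal.ne_top_iff_one _).1 h.1.1.1.ne_top, fun g hg => ?_⟩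
    rw [Ideal.mem_bot.1 hg, mul_zero]
    exact zero_mem _
  · rw [gys_apply_not h]
    refine (single_eq_of_ne fun e => h ?_).symm
    rw [e, sup_bot_eq, Ideal.minimalPrimes_eq_subsingleton_self]
    exact ⟨rfl, rel_idl V⟩

end Pool.Agent.Work.MP_10f4af_ag
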