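import Pool.Agent.Work.MP_10f4af_ag.G4
import Pool.Agent.Work.MP_10f4af_ag.G3

/-!
# Intersection commutes with push-forward and exterior products

Plan.  `PV.img`: lift `U` by `Crd.exists_over'`; `map_le_idl`, `Crd.sdim_img_le`.  `gys_push`:
compare the coefficients at `T` with `J ≤ idl T`, `T ≤ β.img V` (`Sp_eq`, `push_mem`, `gys_mem`;
note `β.img V ⊆ A` by `Crd.mem_img_iff`).  Choose equations `fs` at `T` (`LG.gen'`); for `U` with
`β.img U = T` the renamed equations generate at `U` (`comap_idl`); `gys_coeff`, `cut_rel`,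
`push_coeff`, `push_cut`, `push_cS`, `deg_ne_zero`.  `gys_ex`: the same with `cut_ex`; at `T`
choose the equations at `β.img T`; two cycles `ex a (cS W)`, `ex b (cS W)` have the same
coefficient at `T` if `a`, `b` agree at `β.img T` (`Bij.ex_mem`, `Bij.ex_apply`, `Bij.img_xp`).
`PV.xp`: `Bij.sdim_le`, `Bij.sdim_xp`.
-/

open MvPolynomial Topology TopologicalSpace Finsupp

namespace Pool.Agent.Work.MP_10f4af_ag

open MP_ffcd14_ag hiding len vl cyc pl Weil idl_hmg mem_idl idl_prime idl_le_iff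

universe u

variable {k : Type u} [Field k] [IsAlgClosed k] {P Q S : Amb} {A : Set (P.Pt k)}
  {J : Ideal (MvPolynomial P.V k)} {c : ℕ} {β : Crd k P S} {γ : Crd k Q S}

theorem PV.img {V : Sub k S} (hJ : Hmg J) (h : PV (J.map (rename β.ε)) c V)
    (hd : sdim (β.img V) = sdim V) : PV J c (β.img V) := by
  intro U hU hJU
  obtain ⟨T, hT, rfl⟩ := β.exists_over' hU
  have h1 := h T hT ((map_le_idl β hJ).2 hJU)
  have h2 := β.sdim_img_le T
  omega

theorem PV.xp (h : Bij β γ) (hJ : Hmg J) {V : Sub k P} (hV : PV J c V) (W : Sub k Q) :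
    PV (J.map (rename β.ε)) c (h.xp V W) := by
  intro U hU hJU
  obtain ⟨h1, h2⟩ := h.le_xp.1 hU
  have h3 := hV _ h1 ((map_le_idl β hJ).1 hJU)
  have h4 := h.sdim_le U
  have h5 := sdim_mono h2
  rw [h.sdim_xp]
  omega

omit [IsAlgClosed k] in
theorem G4b_gen (hβ : Function.Injective β.ψ) {V₀ : Sub k P} {V U : Sub k S}
    (hV : ∀ z ∈ V, β.pr z ∈ V₀) {fs : List (MvPolynomial P.V k)}
    (hg : Gen J (idl (V₀ : Set (P.Pt k))) (idl (β.img U : Set (P.Pt k))) fs) :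
    Gen (J.map (rename β.ε)) (idl (V : Set (S.Pt k))) (idl (U : Set (S.Pt k)))
      (fs.map (rename β.ε)) := by
  obtain ⟨h1, s, hs, h2⟩ := hg
  refine ⟨fun f hf => ?_, rename β.ε s, fun h3 => hs ?_, ?_⟩
  · obtain ⟨g, hg, rfl⟩ := List.mem_map.1 hf
    exact Ideal.mem_map_of_mem _ (h1 g hg)
  · rw [← comap_idl hβ]
    exact h3
  · have h3 : (idl (V₀ : Set (P.Pt k)) ⊔ Ideal.ofList fs).map (rename β.ε) ≤
        idl (V : Set (S.Pt k)) ⊔ Ideal.ofList (fs.map (rename β.ε)) := by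
      rw [Ideal.map_sup]
      refine sup_le_sup (map_idl_le β hV) (Ideal.map_le_iff_le_comap.2 (Ideal.span_le.2 ?_))
      exact fun f hf => Ideal.subset_span (List.mem_map_of_mem hf)
    intro g hg
    refine Submodule.span_induction (p := fun g _ => rename β.ε s * g ∈
      idl (V : Set (S.Pt k)) ⊔ Ideal.ofList (fs.map (rename β.ε))) ?_ ?_ ?_ ?_ hg
    · rintro _ ⟨f, hf, rfl⟩
      rw [← map_mul]
      exact h3 (Ideal.mem_map_of_mem _ (h2 f hf))
    · rw [mul_zero]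
      exact zero_mem _
    · intro x y _ _ hx hy
      rw [mul_add]
      exact add_mem hx hy
    · intro a x _ hx
      rw [smul_eq_mul, mul_left_comm]
      exact Ideal.mul_mem_left _ _ hx

theorem gys_push (hβ : Inj β) (h : LG A J c) {V : Sub k S} (hV : ∀ z ∈ V, β.pr z ∈ A)
    (hp : PV (J.map (rename β.ε)) c V) :
    gys J c (push β.ε (cS V)) = push β.ε (gys (J.map (rename β.ε)) c (cS V)) := by
  have hA : (β.img V : Set (P.Pt k)) ⊆ A := fun x hx => by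
    obtain ⟨z, hz, rfl⟩ := β.mem_img_iff.1 hx
    exact hV z hz
  have m1 := gys_mem h hA
  have m2 := gys_mem (h.map β hV) (V := V) subset_rfl
  have m3 : push β.ε (gys (J.map (rename β.ε)) c (cS V)) ∈
      Sp fun T => T ≤ β.img V ∧ J ≤ idl (T : Set (P.Pt k)) := by
    refine Sp_mono ?_ (push_mem hβ m2)
    rintro _ ⟨U, ⟨h1, h2, -⟩, rfl, -⟩
    exact ⟨β.img_mono h1, (map_le_idl β h.hmg).1 h2⟩
  rw [push_cS hβ, map_smul]
  refine Sp_eq (Submodule.smul_mem _ _ m1) m3 ?_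
  intro T hT
  obtain ⟨h1, h2⟩ := hT.elim (fun h => And.intro h.1 h.2.1) id
  obtain ⟨fs, hl, hf, hg⟩ := h.gen' (T := T) (fun x hx => hA (h1 hx)) h2
  have e1 := push_coeff hβ m2 (cut_mem (hf.map β) V) T fun U hU => by
    rw [cut_rel _ _ (rel_idl U)]
    exact gys_coeff (Hmg_map β h.hmg) hp (by rw [List.length_map, hl]) (hf.map β)
      (G4b_gen hβ.ψ (fun z hz => β.mem_img hz) (hU ▸ hg _ hA)) le_rfl
  rw [e1, push_cut hβ hf, push_cS hβ, map_smul, Finsupp.smul_apply, Finsupp.smul_apply]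
  by_cases hd : deg β.ε (idl (V : Set (S.Pt k))) = 0
  · rw [hd, Nat.cast_zero, zero_smul, zero_smul]
  · rw [cut_rel _ _ (rel_idl T), gys_coeff h.hmg (hp.img h.hmg ((deg_ne_zero β V).1 hd)) hl hf
      (hg _ hA) le_rfl]

theorem G4b_ex (h : Bij β γ) {d d' : Sub k P → Prop} {a b : Cyc k P} (ha : a ∈ Sp d)
    (hb : b ∈ Sp d') (W : Sub k Q) (T : Sub k S)
    (e : a (idl (β.img T : Set (P.Pt k))) = b (idl (β.img T : Set (P.Pt k)))) :
    ex β.ε γ.ε a (cS W) (idl (T : Set (S.Pt k))) = ex β.ε γ.ε b (cS W) (idl (T : Set (S.Pt k))) := by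
  by_cases hT : T = h.xp (β.img T) W
  · rw [hT, h.ex_apply ha, h.ex_apply hb, e]
  · have key : ∀ {d : Sub k P → Prop} {a : Cyc k P}, a ∈ Sp d →
        ex β.ε γ.ε a (cS W) (idl (T : Set (S.Pt k))) = 0 := fun ha => by
      by_contra h0
      obtain ⟨U, _, -, rfl, rfl⟩ := Sp_of (h.ex_mem ha (cS_mem (c := fun Z => Z = W) rfl)) h0
      exact hT (by rw [h.img_xp])
    rw [key ha, key hb]

theorem gys_ex (hβ : Bij β γ) (h : LG A J c) {V : Sub k P} (hV : (V : Set (P.Pt k)) ⊆ A)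
    (hp : PV J c V) (W : Sub k Q) :
    gys (J.map (rename β.ε)) c (ex β.ε γ.ε (cS V) (cS W)) =
      ex β.ε γ.ε (gys J c (cS V)) (cS W) := by
  have hA : ∀ z ∈ hβ.xp V W, β.pr z ∈ V := fun z hz => (hβ.mem_xp.1 hz).1
  have m1 := gys_mem h hV
  have m2 := gys_mem (h.map β fun z hz => hV (hA z hz)) (V := hβ.xp V W) subset_rfl
  have m3 : ex β.ε γ.ε (gys J c (cS V)) (cS W) ∈
      Sp fun T => T ≤ hβ.xp V W ∧ J.map (rename β.ε) ≤ idl (T : Set (S.Pt k)) := by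
    refine Sp_mono ?_ (hβ.ex_mem m1 (cS_mem (c := fun Z => Z = W) rfl))
    rintro _ ⟨U, _, ⟨h1, h2, -⟩, rfl, rfl⟩
    rw [hβ.le_xp, map_le_idl β h.hmg, hβ.img_xp, hβ.img_xp']
    exact ⟨⟨h1, le_rfl⟩, h2⟩
  rw [hβ.ex_cS]
  refine Sp_eq m2 m3 ?_
  intro T hT
  obtain ⟨h1, h2⟩ := hT.elim (fun h => And.intro h.1 h.2.1) id
  have h3 := (hβ.le_xp.1 h1).1
  obtain ⟨fs, hl, hf, hg⟩ := h.gen' (T := β.img T) (fun x hx => hV (h3 hx))
    ((map_le_idl β h.hmg).1 h2)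
  rw [gys_coeff (Hmg_map β h.hmg) (hp.xp hβ h.hmg W) (by rw [List.length_map, hl]) (hf.map β)
    (G4b_gen hβ.inj.ψ hA (hg _ hV)) le_rfl, ← cut_rel _ _ (rel_idl T), ← hβ.ex_cS, cut_ex hβ hf]
  refine G4b_ex hβ (cut_mem hf V) m1 W T ?_
  rw [cut_rel _ _ (rel_idl _), gys_coeff h.hmg hp hl hf (hg _ hV) le_rfl]

end Pool.Agent.Work.MP_10f4af_ag
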