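import Pool.Agent.Work.MP_10f4af_ag.G4
import Pool.Agent.Work.MP_10f4af_ag.G1

/-!
# The diagonal of a smooth variety

Model: `unram` in `Work/MP_ffcd14_ag/Cyc/MvU.lean` (topological version).
Plan for `unram'`.  Fix a chart `ς` at `x`, the local equations `f j` of `X.smooth`, and put
`u s = x_(ς i) y_s - x_s y_(ς i)` for `s` in the block `i`.  `N` is the space of the `t` with
`t ⟨i, ς i⟩ = 0` killed by the differentials of the `f j`; `L = MvU_L` at a representative.  For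
a form `G (x, y)` of degree `b` in `y`, `G (x, x_ς y) - G (x, y_ς x) = ∑ A s * u s` (`divdiff`), the
first term is `mono * G`, the second is `mono' * G (x, x)` (`IsForm.aeval_scale`).  Apply this to
the `g n` (then `G (x, x)` vanishes on `X`) and to `r (y) f j (y)`, where `r` makes `r * f j`
vanish on `X`: every such combination `∑ A s * u s` lies in `H = idl (X × X) ⊔ sq g j`.  At the
point the matrix of the `A s`, together with the rows `u ⟨i, ς i⟩ = 0`, has trivial kernel, so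
there is a left inverse over `k`; the adjugate of the resulting square matrix gives `d * u s ∈ H`
with `d` not zero at the point.  Finally
`x_ς (x_s y_t - x_t y_s) = x_s u t - x_t u s`, and `exists_form_mul` makes the factor a form.
`LG.dia`: at a point `z` with `β.pr z = γ.pr z = x` choose `g` by `exists_seq` (empty family,
`W = DW'`, `j = X.dim`), and map along `β.pair γ` (`LG.map`, `dI_map`).
`gys_graph`: `gys_one`.  For a form `g` of degree `a` vanishing on the graph, modulo the minors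
`m * g = m' * rename (δ.ε ∘ j.ε) g`, where `m`, `m'` are monomials in coordinates which do not
vanish on the graph (`IsForm.aeval_scale` in the quotient ring), and `rename j.ε g` vanishes on
`C`.
-/

open MvPolynomial Topology TopologicalSpace Finsupp

namespace Pool.Agent.Work.MP_10f4af_ag

open MP_ffcd14_ag hiding len vl cyc pl Weil idl_hmg mem_idl idl_prime idl_le_iff

universe u

variable {k : Type u} [Field k] {P Q S S₀ : Amb}

/-- Forms of bidegree `(a, a)` in the ideal of the diagonal. -/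
noncomputable def DW' (k : Type u) [Field k] (a : P.ι →₀ ℕ) :
    Submodule k (MvPolynomial (P.sum P).V k) :=
  DW k a ⊓ (dI k vl vr).restrictScalars k

/-- The subvariety given by a smooth variety. -/
def SV.tp (X : SV k P) : Sub k P := X.toVar.top X.irr

theorem G5_mem {a : P.ι →₀ ℕ} (ha : ∀ i, 0 < a i) (ς ς' : ∀ i, P.σ i) (i : P.ι) (s t : P.σ i) :
    MvU_G k a ς ς' i s t ∈ DW' k a :=
  ⟨MvU_mem ha ς ς' i s t, Ideal.mul_mem_right _ (dI k vl vr) (Ideal.subset_span ⟨i, s, t, rfl⟩)⟩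

/-- A linear system which is injective at a point. -/
theorem G5_lin {R m n : Type*} [CommRing R] [Algebra k R] [Fintype m] [Fintype n]
    (φ : R →ₐ[k] k) (H : Ideal R) (M : Matrix m n R) (u : n → R) (hM : ∀ r, M.mulVec u r ∈ H)
    (h : ∀ t, (M.map φ).mulVec t = 0 → t = 0) : ∃ d, φ d ≠ 0 ∧ ∀ s, d * u s ∈ H := by
  classical
  obtain ⟨g, hg⟩ := LinearMap.exists_leftInverse_of_injective
    (Matrix.toLin' (M.map φ)) (LinearMap.ker_eq_bot'.2 h)
  have h1 := congrArg LinearMap.toMatrix' hg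
  rw [LinearMap.toMatrix'_comp, LinearMap.toMatrix'_toLin', LinearMap.toMatrix'_id] at h1
  generalize LinearMap.toMatrix' g = B at h1
  let E : Matrix n n R := B.map (algebraMap k R) * M
  refine ⟨E.det, ?_, fun s => ?_⟩
  · have h2 : φ E.det = (B * M.map φ).det := by
      rw [AlgHom.map_det]
      congr 1
      ext i j
      simp [E, Matrix.mul_apply]
    rw [h2, h1, Matrix.det_one]
    exact one_ne_zero
  · have h3 : E.det * u s = ((E.adjugate * B.map (algebraMap k R)).mulVec (M.mulVec u)) s := by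
      rw [Matrix.mulVec_mulVec, Matrix.mul_assoc, Matrix.adjugate_mul, Matrix.smul_mulVec,
        Matrix.one_mulVec]
      rfl
    rw [h3]
    exact H.sum_mem fun r _ => H.mul_mem_left _ (hM r)

/-- The minors which contain the chart coordinate. -/
noncomputable def G5_u (k : Type u) [Field k] (ς : ∀ i, P.σ i) (s : P.V) :
    MvPolynomial (P.sum P).V k :=
  X (vl ⟨s.1, ς s.1⟩) * X (vr s) - X (vr ⟨s.1, ς s.1⟩) * X (vl s)

/-- Restriction to the diagonal. -/
noncomputable def G5_r (k : Type u) [Field k] (P : Amb) :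
    MvPolynomial (P.sum P).V k →ₐ[k] MvPolynomial (P.sum P).V k :=
  aeval (Amb.elim (fun s => X (vl s)) fun s => X (vl s))

theorem G5_r_dI {G : MvPolynomial (P.sum P).V k} (hG : G ∈ dI k vl vr) : G5_r k P G = 0 := by
  refine (Ideal.span_le (I := RingHom.ker (G5_r k P))).2 ?_ hG
  rintro _ ⟨i, s, t, rfl⟩
  refine RingHom.mem_ker.2 ?_
  simp only [G5_r, map_sub, map_mul, aeval_X]
  exact sub_eq_zero.2 (mul_comm _ _)

theorem G5_r_vr (F : MvPolynomial P.V k) : G5_r k P (rename vr F) = rename vl F := by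
  rw [G5_r, aeval_rename, rename_eq_aeval]
  rfl

theorem G5_dd [Fintype P.V] (ς : ∀ i, P.σ i) {G : MvPolynomial (P.sum P).V k}
    {c : (P.sum P).ι →₀ ℕ} (hG : IsForm G c) (y : P.V → k) (hy : ∀ i, y ⟨i, ς i⟩ = 1) :
    ∃ (A : P.V → MvPolynomial (P.sum P).V k) (m m' : MvPolynomial (P.sum P).V k),
      ∑ s, A s * G5_u k ς s = m * G - m' * G5_r k P G ∧
      ∀ s, aeval (Amb.elim y y) (A s) = eval (Amb.elim y y) (pderiv (vr s) G) := by
  let _ := Fintype.ofFinite (P.sum P).V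
  let μ : (P.sum P).ι → MvPolynomial (P.sum P).V k :=
    Sum.elim (fun _ => 1) fun i => X (vl ⟨i, ς i⟩)
  let ν : (P.sum P).ι → MvPolynomial (P.sum P).V k :=
    Sum.elim (fun _ => 1) fun i => X (vr ⟨i, ς i⟩)
  let p : (P.sum P).V → MvPolynomial (P.sum P).V k :=
    Amb.elim (fun s => X (vl s)) fun s => X (vl s)
  obtain ⟨A, h1, h2⟩ := divdiff (k := k) (fun s => ν s.1 * p s) (fun s => μ s.1 * X s) G
  rw [hG.aeval_scale, hG.aeval_scale, aeval_X_left_apply] at h1
  have e1 : ∀ s, aeval (Amb.elim y y) (ν s.1 * p s) = Amb.elim y y s := by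
    rintro ⟨i | i, s⟩
    · exact (congrArg _ (one_mul _)).trans (aeval_X _ _)
    · change aeval (Amb.elim y y) (X (vr ⟨i, ς i⟩) * X (vl ⟨i, s⟩)) = y ⟨i, s⟩
      rw [map_mul, aeval_X, aeval_X]
      change y ⟨i, ς i⟩ * y ⟨i, s⟩ = _
      rw [hy, one_mul]
  have e2 : ∀ s, aeval (Amb.elim y y) (μ s.1 * X s) = Amb.elim y y s := by
    rintro ⟨i | i, s⟩
    · exact (congrArg _ (one_mul _)).trans (aeval_X _ _)
    · change aeval (Amb.elim y y) (X (vl ⟨i, ς i⟩) * X (vr ⟨i, s⟩)) = y ⟨i, s⟩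
      rw [map_mul, aeval_X, aeval_X]
      change y ⟨i, ς i⟩ * y ⟨i, s⟩ = _
      rw [hy, one_mul]
  refine ⟨fun s => A (vr s), _, _, Eq.trans ?_ h1.symm, fun s => ?_⟩
  · refine Fintype.sum_of_injective vr (Blk.inr (k := k) P P).inj _ _ ?_ fun s => rfl
    rintro ⟨i | i, s⟩ h
    · exact (congrArg _ (sub_self _)).trans (mul_zero _)
    · exact absurd ⟨⟨i, s⟩, rfl⟩ h
  · rw [h2 (aeval (Amb.elim y y)) (fun s => (e1 s).trans (e2 s).symm), funext e1]

theorem DW'_sep {a : P.ι →₀ ℕ} (ha : ∀ i, 0 < a i) {z : (P.sum P).Pt k} (h : z ∉ Dia k P) :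
    ∃ G ∈ DW' k a, ev z G ≠ 0 := by
  obtain ⟨ς, hς⟩ := exists_inCh ((Crd.inl k P P).pr z)
  obtain ⟨ς', hς'⟩ := exists_inCh ((Crd.inr k P P).pr z)
  by_contra hc
  push Not at hc
  refine h (funext fun i => ((eq_mk_of_minors ((Crd.inr k P P).pr z i) (hς i) (fun s => ?_)
    ((Crd.inl k P P).pr z i).rep_nonzero).trans ((Crd.inl k P P).pr z i).mk_rep).symm)
  have := hc _ (G5_mem ha ς ς' i (ς i) s)
  rw [MvU_ev] at this
  exact sub_eq_zero.1 ((mul_eq_zero.1 this).resolve_right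
    (mul_ne_zero (MvU_mono hς _) (MvU_mono hς' _)))

/-- From the minors `G5_u` to the whole ideal. -/
theorem G5_fin {ς : ∀ i, P.σ i} {x : P.Pt k} (hς : InCh ς x)
    {H : Ideal (MvPolynomial (P.sum P).V k)} (hH : Hmg H) {d : MvPolynomial (P.sum P).V k}
    (hd : aeval (Amb.elim (hat ς x) (hat ς x)) d ≠ 0) (h : ∀ s, d * G5_u k ς s ∈ H) :
    ∃ s b, IsForm s b ∧ ev (mkPt x x) s ≠ 0 ∧ ∀ f ∈ dI k vl vr, s * f ∈ H := by
  classical
  let _ := Fintype.ofFinite P.ι
  have e : hat (MvU_ch ς) (mkPt x x) = Amb.elim (hat ς x) (hat ς x) := by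
    funext r
    rcases r with ⟨i | i, s⟩
    exacts [rfl, rfl]
  have h1 : ∀ f ∈ dI k vl vr, (d * ∏ i, X (vl ⟨i, ς i⟩)) * f ∈ H := by
    intro f hf
    refine (Ideal.span_le (I := Submodule.comap
      (LinearMap.mulLeft _ (d * ∏ i, X (vl ⟨i, ς i⟩))) H)).2 ?_ hf
    rintro _ ⟨i, s, t, rfl⟩
    have h2 : (d * ∏ i, X (vl ⟨i, ς i⟩)) * (X (vl ⟨i, s⟩) * X (vr ⟨i, t⟩) -
        X (vl ⟨i, t⟩) * X (vr ⟨i, s⟩)) = (∏ i' ∈ Finset.univ.erase i, X (vl ⟨i', ς i'⟩)) *
          (X (vl ⟨i, s⟩) * (d * G5_u k ς ⟨i, t⟩) - X (vl ⟨i, t⟩) * (d * G5_u k ς ⟨i, s⟩)) := by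
      rw [← Finset.mul_prod_erase _ _ (Finset.mem_univ i), G5_u, G5_u]
      ring
    refine (congrArg (· ∈ H) h2).mpr ?_
    exact H.mul_mem_left _ (sub_mem (H.mul_mem_left _ (h _)) (H.mul_mem_left _ (h _)))
  have h2 : ∃ b, eval (hat (MvU_ch ς) (mkPt x x)) (cpt b (d * ∏ i, X (vl ⟨i, ς i⟩))) ≠ 0 := by
    by_contra hc
    push Not at hc
    have h3 := GrA_mem (J := RingHom.ker (eval (hat (MvU_ch ς) (mkPt x x)))) hc
    rw [RingHom.mem_ker, e, map_mul, map_prod, Finset.prod_eq_one, mul_one] at h3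
    · exact hd h3
    · exact fun i _ => (eval_X _).trans (hat_one hς i)
  obtain ⟨b, hb⟩ := h2
  exact ⟨_, b, cpt_form b _, fun h0 => hb ((eval_hat_eq_zero (MvU_inCh hς) (cpt_form b _)).2 h0),
    exists_form_mul (dI_hmg (Crd.inl k P P) (Crd.inr k P P)) hH h1 b⟩

theorem unram' (X : Var k P) {x : P.Pt k} (hx : x ∈ X.pts) {a : P.ι →₀ ℕ} (ha : ∀ i, 0 < a i) :
    ∃ (N : Submodule k (P.V → k)) (L : MvPolynomial (P.sum P).V k →ₗ[k] (P.V → k) →ₗ[k] k),
      Module.finrank k N ≤ X.dim ∧ (∀ t ∈ N, t ≠ 0 → ∃ G ∈ DW' k a, L G t ≠ 0) ∧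
      ∀ (j : ℕ) (g : ℕ → MvPolynomial (P.sum P).V k), (∀ n, g n ∈ DW' k a) →
        (∀ t ∈ N, (∀ n < j, L (g n) t = 0) → t = 0) →
        ∃ s b, IsForm s b ∧ ev (mkPt x x) s ≠ 0 ∧
          ∀ f ∈ dI k vl vr, s * f ∈ idl (X.prod X).pts ⊔ sq g j := by
  classical
  obtain ⟨ς, hς⟩ := exists_inCh x
  obtain ⟨κ, _, f, g₀, b, hc, -, -, hf, -, hI, hli⟩ := X.chart_eq hx hς
  let _ := Fintype.ofFinite κ
  let _ := Fintype.ofFinite P.V
  let _ := Fintype.ofFinite P.ι
  obtain ⟨ff, hff⟩ : ∃ ff : κ ⊕ P.ι → MvPolynomial P.V k,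
    ff = Sum.elim (fun j => g₀ * f j) (fun i => MvPolynomial.X ⟨i, ς i⟩ - 1) := ⟨_, rfl⟩
  rw [← hff] at hI hli
  let D : Matrix (κ ⊕ P.ι) P.V k := Matrix.of fun j s => eval (hat ς x) (pderiv s (ff j))
  refine ⟨LinearMap.ker D.mulVecLin, MvU_L (hat (MvU_ch ς) (mkPt x x)), ?_, fun t ht h0 => ?_,
    fun j g hg hN => ?_⟩
  · have h1 : D.rank = _ := LinearIndependent.rank_matrix hli
    have h2 := LinearMap.finrank_range_add_finrank_ker D.mulVecLin
    rw [Module.finrank_fintype_fun_eq_card] at h2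
    rw [Nat.card_eq_fintype_card, Nat.card_eq_fintype_card] at hc
    unfold Matrix.rank at h1
    omega
  · obtain ⟨⟨i, s⟩, hs⟩ := Function.ne_iff.1 h0
    refine ⟨_, G5_mem ha ς ς i (ς i) s, ?_⟩
    rw [MvU_L_G a hς i s]
    · exact hs
    · have := congrFun (LinearMap.mem_ker.1 ht) (Sum.inr i)
      simpa [D, hff, Matrix.mulVec, dotProduct, pderiv_X, Pi.single_apply, apply_ite] using this
  · have e : hat (MvU_ch ς) (mkPt x x) = Amb.elim (hat ς x) (hat ς x) := by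
      funext r
      rcases r with ⟨i | i, s⟩
      exacts [rfl, rfl]
    have hA : ∀ r, ∃ A : P.V → MvPolynomial (P.sum P).V k,
        ∑ s, A s * G5_u k ς s ∈ idl (X.prod X).pts ∧
          ∀ s, aeval (Amb.elim (hat ς x) (hat ς x)) (A s) = D r s := by
      rintro (r | i)
      · obtain ⟨c, hc⟩ := hf r
        have h0 : ff (Sum.inl r) = g₀ * f r := by rw [hff]; rfl
        rw [← h0] at hc
        let o : P.ι →₀ ℕ := Finsupp.equivFunOnFinite.symm fun _ => 1
        have h1 : IsForm (mono ς o * ff (Sum.inl r)) (o + c) := (mono_form ς o).mul hc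
        have h2 : mono ς o * ff (Sum.inl r) ∈ idl X.pts := by
          refine (mem_idl h1).2 fun y hy => ?_
          rw [ev_mul]
          by_cases hy' : InCh ς y
          · rw [(eval_hat_eq_zero hy' hc).1 (hI _ y hy hy'), mul_zero]
          · obtain ⟨i, hi⟩ := not_forall.1 hy'
            refine mul_eq_zero_of_left ?_ _
            rw [ev_eq, mono, eval_rename, eval_monomial, one_mul]
            refine Finset.prod_eq_zero (i := i) (by simp [o]) ?_
            exact (congrArg (· ^ o i) (not_not.1 hi)).trans (by simp [o])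
        obtain ⟨A, m, m', h3, h4⟩ := G5_dd ς ((Crd.inr k P P).form h1) _ (hat_one hς)
        refine ⟨A, ?_, fun s => ?_⟩
        · rw [h3]
          refine sub_mem (Ideal.mul_mem_left _ _ ?_) (Ideal.mul_mem_left _ _ ?_)
          · exact map_idl_le (Crd.inr k P P) (fun z hz => hz.2) (Ideal.mem_map_of_mem _ h2)
          · erw [G5_r_vr]
            exact map_idl_le (Crd.inl k P P) (fun z hz => hz.1) (Ideal.mem_map_of_mem _ h2)
        · rw [h4]
          erw [pderiv_rename (f := (Crd.inr k P P).ε) (Blk.inr (k := k) P P).inj]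
          rw [eval_rename]
          change eval (hat ς x) _ = eval (hat ς x) _
          rw [pderiv_mul, map_add, map_mul, map_mul, hI _ x hx hς, mul_zero, zero_add,
            ← aeval_eq_eval (hat ς x), aeval_mono ς o _ (hat_one hς), one_mul]
      · refine ⟨fun s => C (D (Sum.inr i) s), ?_, fun s => aeval_C _ _⟩
        rw [Finset.sum_eq_single ⟨i, ς i⟩ (fun s _ hs => ?_) (by simp), G5_u,
          mul_comm (MvPolynomial.X (vl _)), sub_self, mul_zero]
        · exact zero_mem _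
        · simp [D, hff, pderiv_X, Ne.symm hs]
    choose A hA hA' using hA
    choose B m m' hB hB' using fun n => G5_dd ς (hg n).1.1 _ (hat_one hς)
    let M : Matrix ((κ ⊕ P.ι) ⊕ Fin j) P.V (MvPolynomial (P.sum P).V k) :=
      Matrix.of (Sum.elim A fun n => B n)
    refine (G5_lin (aeval (Amb.elim (hat ς x) (hat ς x))) (idl (X.prod X).pts ⊔ sq g j) M
      (G5_u k ς) ?_ fun t ht => hN t ?_ fun n hn => ?_).elim fun d hd =>
        G5_fin hς ((idl_hmg _).sup (Fm.hmg fun f hf => ?_)) hd.1 hd.2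
    rotate_left 3
    · obtain ⟨n, -, rfl⟩ := List.mem_map.1 hf
      exact ⟨_, (hg n).1.1⟩
    · rintro (r | n)
      · exact Ideal.mem_sup_left (hA r)
      · refine Ideal.mem_sup_right ?_
        change ∑ s, B n s * G5_u k ς s ∈ _
        rw [hB, G5_r_dI (hg n).2, mul_zero, sub_zero]
        exact Ideal.mul_mem_left _ _
          (Ideal.subset_span (List.mem_map.2 ⟨n, List.mem_range.2 n.2, rfl⟩))
    · refine LinearMap.mem_ker.2 (funext fun r => Eq.trans ?_ (congrFun ht (Sum.inl r)))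
      exact Finset.sum_congr rfl fun s _ => congrArg (· * t s) (hA' r s).symm
    · refine Eq.trans ?_ (congrFun ht (Sum.inr ⟨n, hn⟩))
      rw [e]
      exact Finset.sum_congr rfl fun s _ => congrArg (· * t s) (hB' n s).symm

variable [IsAlgClosed k]

theorem SV.sdim_tp (X : SV k P) : sdim X.tp = X.dim := X.toVar.sdim_top X.irr

theorem LG.dia (X : SV k P) (β γ : Crd k P S) {A : Set (S.Pt k)} (h : ∀ z ∈ A, β.pr z ∈ X.pts)
    (h' : ∀ z ∈ A, γ.pr z ∈ X.pts) : LG A (dI k β.ε γ.ε) X.dim := by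
  have h1 : LG (X.toVar.prod X.toVar).pts (dI k vl vr) X.dim := by
    refine ⟨dI_hmg (Crd.inl k P P) (Crd.inr k P P), fun z hz hJ => ?_⟩
    have e : (Crd.inl k P P).pr z = (Crd.inr k P P).pr z :=
      (dI_le_iff (Crd.inl k P P) (Crd.inr k P P) (A := {z})).1
        ((dI_hmg _ _).le fun f a hf hf' => (mem_idl hf).2 fun y hy => by
          rw [show y = z from hy]; exact hJ f hf') z rfl
    have e' : z = mkPt ((Crd.inl k P P).pr z) ((Crd.inl k P P).pr z) := sum_ext rfl e.symm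
    let a : P.ι →₀ ℕ := Finsupp.equivFunOnFinite.symm fun _ => 1
    have ha : ∀ i, 0 < a i := fun _ => Nat.one_pos
    obtain ⟨N, L, h1, h2, h3⟩ := unram' X.toVar hz.1 ha
    obtain ⟨g, h4, -, h5⟩ := exists_seq (DW' k a) (fun g hg => hg.1.1) (Dia k P)
      (fun x hx => DW'_sep ha hx) Set.finite_empty (I := Unit) (fun _ => N) (fun _ => L)
      (fun _ => h2) X.dim
    obtain ⟨s, b, h6, h7, h8⟩ := h3 X.dim g h4 (h5 () h1)
    refine ⟨(List.range X.dim).map g, by simp, fun f hf => ?_, fun f hf => ?_, s, b, h6,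
      by rw [e']; exact h7, h8⟩
    · obtain ⟨n, -, rfl⟩ := List.mem_map.1 hf
      exact ⟨_, (h4 n).1.1⟩
    · obtain ⟨n, -, rfl⟩ := List.mem_map.1 hf
      exact (h4 n).2
  have h2 := h1.map (β.pair γ) (B := A) fun z hz => ⟨h z hz, h' z hz⟩
  rw [dI_map] at h2
  exact h2

theorem gys_graph (Y : SV k Q) {δ : Crd k S₀ S} {γ : Crd k Q S} (h : Bij δ γ) (γ₀ : Crd k Q S₀)
    (j : Crd k S S₀) (e : j.ε ∘ δ.ε = id) (e' : j.ε ∘ γ.ε = γ₀.ε) {C : Sub k S₀}
    (hC : ∀ z ∈ C, γ₀.pr z ∈ Y.pts) :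
    gys (dI k γ.ε (δ.ε ∘ γ₀.ε)) Y.dim (cS (h.xp C Y.tp)) = cS (j.img C) := by
  have e1 : ∀ z, δ.pr (j.pr z) = z := pr_comp (ν := Crd.refl k S₀) e
  have e2 : ∀ z, γ.pr (j.pr z) = γ₀.pr z := pr_comp e'
  have hT : ∀ z ∈ j.img C, δ.pr z ∈ C ∧ γ.pr z = γ₀.pr (δ.pr z) := fun z hz => by
    obtain ⟨y, hy, rfl⟩ := j.mem_img_iff.1 hz
    rw [e1, e2]
    exact ⟨hy, rfl⟩
  refine gys_one (A := h.xp C Y.tp) (LG.dia Y γ (γ₀.comp δ) (fun z hz => (h.mem_xp.1 hz).2)
    fun z hz => hC _ (h.mem_xp.1 hz).1) subset_rfl (fun z hz => h.mem_xp.2 ⟨(hT z hz).1, ?_⟩)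
    ((dI_le_iff γ (γ₀.comp δ)).2 fun z hz => (hT z hz).2) ?_ (fun U hU hJ z hz => ?_)
    fun g a hg hv => ?_
  · rw [(hT z hz).2]
    exact hC _ (hT z hz).1
  · rw [h.sdim_xp, SV.sdim_tp, sdim_img_of_inj j fun x _ y _ hxy => by rw [← e1 x, hxy, e1]]
  · have h1 : j.pr (δ.pr z) = z :=
      h.ext (e1 _) ((e2 _).trans ((dI_le_iff γ (γ₀.comp δ)).1 hJ z hz).symm)
    rw [← h1]
    exact j.mem_img (h.mem_xp.1 (hU hz)).1
  · obtain ⟨z, hz⟩ := (j.img C).isIrreducible.nonempty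
    obtain ⟨ς, hς⟩ := exists_inCh (γ₀.pr (δ.pr z))
    have h1 : ∀ b : S.ι, ∃ m n : MvPolynomial S.V k, ev z m ≠ 0 ∧ ∀ s : S.V, s.1 = b →
        m * X s - n * X (δ.ε (j.ε s)) ∈ dI k γ.ε (δ.ε ∘ γ₀.ε) := fun b => by
      obtain ⟨i | i, rfl⟩ := h.ψ.2 b
      · refine ⟨1, 1, by rw [ev_eq, map_one]; exact one_ne_zero, fun s hs => ?_⟩
        obtain ⟨r, rfl⟩ := h.inj.blk s i hs
        rw [show j.ε (δ.ε r) = r from congrFun e r, sub_self]
        exact zero_mem _
      · refine ⟨X (δ.ε (γ₀.ε ⟨i, ς i⟩)), X (γ.ε ⟨i, ς i⟩), ?_, fun s hs => ?_⟩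
        · rw [ev_eq, eval_X, ← δ.rp_pr, ← γ₀.rp_pr]
          exact hς i
        · obtain ⟨⟨i', t⟩, rfl⟩ := h.symm.inj.blk s i hs
          obtain rfl : i' = i := h.symm.inj.ψ ((γ.fst ⟨i', t⟩).symm.trans hs)
          rw [show j.ε (γ.ε ⟨i', t⟩) = γ₀.ε ⟨i', t⟩ from congrFun e' _, mul_comm]
          exact Ideal.subset_span ⟨i', t, ς i', rfl⟩
    choose μ ν h2 h3 using h1
    let _ := Fintype.ofFinite S.V
    obtain ⟨B, h4, -⟩ := divdiff (k := k) (fun s => ν s.1 * X (δ.ε (j.ε s)))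
      (fun s => μ s.1 * X s) g
    rw [hg.aeval_scale, hg.aeval_scale, aeval_X_left_apply, sub_eq_iff_eq_add'] at h4
    refine ⟨a.prod fun i n => μ i ^ n, fun h0 => ?_, ?_⟩
    · have h5 := van_idl h0 z hz
      rw [ev_eq, Finsupp.prod, map_prod] at h5
      obtain ⟨i, -, h6⟩ := Finset.prod_eq_zero_iff.1 h5
      rw [map_pow] at h6
      exact h2 i (eq_zero_of_pow_eq_zero h6)
    · rw [h4]
      refine Submodule.add_mem_sup (Ideal.mul_mem_left _ _ ?_)
        (Ideal.sum_mem _ fun s _ => Ideal.mul_mem_left _ _ (h3 _ s rfl))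
      have h5 : aeval (fun s => X (δ.ε (j.ε s))) g = rename δ.ε (rename j.ε g) := by
        rw [rename_rename, rename_eq_aeval]
        rfl
      rw [h5]
      exact map_idl_le δ (fun y hy => (h.mem_xp.1 hy).1)
        (Ideal.mem_map_of_mem _ ((mem_idl (j.form hg)).2 ((j.van_img hg).1 hv)))

end Pool.Agent.Work.MP_10f4af_ag
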