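import Pool.Agent.Work.MP_10f4af_ag.G4b
import Pool.Agent.Work.MP_10f4af_ag.G5

/-!
# The intersection of two subvarieties which meet properly

Plan.  `PV_dia`: for `U` in the diagonal `β.img U = γ.img U` has the dimension of `U`
(`sdim_img_of_inj`, `Bij.ext`).  `ip_vr`: `push_congr` with `gys_mem`, `LG.dia`, `dI_le_iff`.
`ip_model`: `ex vl vr V W = push (β.pair γ).ε (ex β γ V W)` (`push_ex_cS` with `α = Crd.refl`),
`gys_push`, `dI_map`, `push_comp`.  `ip_comm`: `ip_model` for `(inr, inl)`, `ex_swap`, `dI_comm`,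
`ip_vr`.  `ip_top`: `gys_graph` with `j = Crd.diag`, `push_sec`.  `ip_pos`: the coefficient of
`(Crd.diag k P).img T` is positive (`gys_pos`); split it off, `push_sec`, `push_nonneg`.
`ip_gys`: `ex V (gys J W) = gys (J.map vr) (ex V W)` (`gys_ex`, `ex_swap`), `gys_comm` on
`X × X`, `gys_push` for `vr` on the components, `ip_vr`, `Sp_ext`.
`ip_rcomm`: in `(P.sum P).sum P` with projections `β₁ β₂ β₃` both sides are
`push β₁ (gys (dI β₁ β₂ ⊔ dI β₁ β₃) (n + n) (V × W × U))`: prove for an arbitrary model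
(`Bij μ β₃`, `β₁ = inl.comp μ`, `β₂ = inr.comp μ`) that `ip (ip V W) U` is
`push β₁ (gys (dI β₁ β₃) (gys (dI β₁ β₂) (ex μ β₃ (ex vl vr V W) U)))` by `push_ex`, `gys_push`,
`push_comp`, `gys_ex`; apply it to `μ = inl` and to `μ' = β₁.pair β₃`; `ex_assoc`, `gys_comm`.
-/

open MvPolynomial Topology TopologicalSpace Finsupp

namespace Pool.Agent.Work.MP_10f4af_ag

open MP_ffcd14_ag hiding len vl cyc pl Weil idl_hmg mem_idl idl_prime idl_le_iff

universe u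

variable {k : Type u} [Field k] {P Q S : Amb}

/-- `V` and `W` meet properly in a variety of dimension `n`. -/
def Pp (n : ℕ) (V W : Sub k P) : Prop :=
  ∀ U ≤ V, U ≤ W → sdim U + n ≤ sdim V + sdim W

theorem Pp.symm {n : ℕ} {V W : Sub k P} (h : Pp n V W) : Pp n W V :=
  fun U h1 h2 => (h U h2 h1).trans (add_comm _ _).le

theorem ip_apply (n : ℕ) (a b : Cyc k P) :
    ip n a b = push vl (gys (dI k vl vr) n (ex vl vr a b)) := rfl

theorem ip_nonneg (n : ℕ) [IsAlgClosed k] (V W : Sub k P) (q) : 0 ≤ ip n (cS V) (cS W) q := by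
  rw [ip_apply, cS, cS, ex_single]
  refine push_nonneg (β := Crd.inl k P P) (fun p => ?_) q
  obtain ⟨m, hm⟩ := gys_nat (J := dI k vl vr) (c := n) _ p
  rw [hm]
  exact Nat.cast_nonneg m

variable [IsAlgClosed k] (X : SV k P) {V W U : Sub k P}

theorem Pp_top (V : Sub k P) : Pp X.dim V X.tp := by
  intro U h _
  rw [X.sdim_tp]
  exact Nat.add_le_add_right (sdim_mono h) _

theorem PV_dia {β γ : Crd k P S} (h : Bij β γ) {n : ℕ} (hp : Pp n V W) :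
    PV (dI k β.ε γ.ε) n (h.xp V W) := by
  intro U hU hJ
  have e := (dI_le_iff β γ).1 hJ
  rw [h.sdim_xp, ← sdim_img_of_inj β (U := U) fun x hx y hy e' =>
    h.ext e' ((e x hx).symm.trans (e'.trans (e y hy)))]
  exact hp _ (h.le_xp.1 hU).1 (β.img_congr γ e ▸ (h.le_xp.1 hU).2)

theorem I1_lg {β γ : Crd k P S} (h : Bij β γ) (hV : (V : Set (P.Pt k)) ⊆ X.pts)
    (hW : (W : Set (P.Pt k)) ⊆ X.pts) :
    LG (h.xp V W : Set (S.Pt k)) (dI k β.ε γ.ε) X.dim :=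
  LG.dia X β γ (fun _ hz => hV (h.mem_xp.1 hz).1) fun _ hz => hW (h.mem_xp.1 hz).2

theorem I1_mem {β γ : Crd k P S} (h : Bij β γ) (hV : (V : Set (P.Pt k)) ⊆ X.pts)
    (hW : (W : Set (P.Pt k)) ⊆ X.pts) : gys (dI k β.ε γ.ε) X.dim (cS (h.xp V W)) ∈
      Sp fun T => T ≤ h.xp V W ∧ dI k β.ε γ.ε ≤ idl (T : Set (S.Pt k)) ∧
        sdim T + X.dim = sdim (h.xp V W) :=
  gys_mem (I1_lg X h hV hW) subset_rfl

theorem I1_lg0 : LG {z | (Crd.inl k P P).pr z ∈ X.pts ∧ (Crd.inr k P P).pr z ∈ X.pts}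
    (dI k (Crd.inl k P P).ε (Crd.inr k P P).ε) X.dim :=
  LG.dia X _ _ (fun _ hz => hz.1) fun _ hz => hz.2

theorem I1_apply (n : ℕ) (V W : Sub k P) : ip n (cS V) (cS W) = push (Crd.inl k P P).ε
    (gys (dI k (Crd.inl k P P).ε (Crd.inr k P P).ε) n (cS (bij_sum.xp V W))) := by
  rw [← bij_sum.ex_cS]
  rfl

theorem I1_push {β : Crd k P S} (hβ : Inj β) {A : Set (P.Pt k)} {J : Ideal (MvPolynomial P.V k)}
    {c : ℕ} (h : LG A J c) {a : Cyc k S}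
    (ha : a ∈ Sp fun T => (∀ z ∈ T, β.pr z ∈ A) ∧ PV (J.map (rename β.ε)) c T) :
    gys J c (push β.ε a) = push β.ε (gys (J.map (rename β.ε)) c a) :=
  Sp_ext (gys J c ∘ₗ push β.ε) (push β.ε ∘ₗ gys (J.map (rename β.ε)) c)
    (fun _ hT => gys_push hβ h hT.1 hT.2) ha

omit [IsAlgClosed k] in
theorem I1_le {β : Crd k P S} {T : Sub k S} (h : ∀ z ∈ T, β.pr z ∈ V) : β.img T ≤ V :=
  (β.img_sub V.isClosed).2 h

theorem ip_vr (hV : (V : Set (P.Pt k)) ⊆ X.pts) (hW : (W : Set (P.Pt k)) ⊆ X.pts) :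
    ip X.dim (cS V) (cS W) = push vr (gys (dI k vl vr) X.dim (ex vl vr (cS V) (cS W))) := by
  rw [I1_apply]
  refine (push_congr bij_sum.inj bij_sum.symm.inj (Sp_mono (fun T hT => (dI_le_iff _ _).1 hT.2.1)
    (I1_mem X bij_sum hV hW))).trans ?_
  rw [← bij_sum.ex_cS]
  rfl

theorem ip_mem (hV : (V : Set (P.Pt k)) ⊆ X.pts) (hW : (W : Set (P.Pt k)) ⊆ X.pts) :
    ip X.dim (cS V) (cS W) ∈
      Sp fun U => U ≤ V ∧ U ≤ W ∧ sdim U + X.dim = sdim V + sdim W := by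
  rw [I1_apply]
  refine Sp_mono ?_ (push_mem bij_sum.inj (I1_mem X bij_sum hV hW))
  rintro _ ⟨T, ⟨t1, t2, t3⟩, rfl, t4⟩
  exact ⟨(bij_sum.le_xp.1 t1).1, Crd.img_congr _ _ ((dI_le_iff _ _).1 t2) ▸ (bij_sum.le_xp.1 t1).2,
    by rw [t4, t3, bij_sum.sdim_xp]⟩

theorem ip_model {β γ : Crd k P S} (h : Bij β γ) (hV : (V : Set (P.Pt k)) ⊆ X.pts)
    (hW : (W : Set (P.Pt k)) ⊆ X.pts) (hp : Pp X.dim V W) : ip X.dim (cS V) (cS W) =
      push β.ε (gys (dI k β.ε γ.ε) X.dim (ex β.ε γ.ε (cS V) (cS W))) := by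
  have e1 := push_ex_cS (α := Crd.refl k P) h bij_sum Inj.refl h.pair_inj rfl rfl V W
  have e2 := gys_push h.pair_inj (I1_lg0 X) (V := h.xp V W)
    (fun z hz => ⟨hV (h.mem_xp.1 hz).1, hW (h.mem_xp.1 hz).2⟩)
    (by rw [dI_map]; exact PV_dia h hp)
  have e3 := push_comp bij_sum.inj h.pair_inj (I1_mem X h hV hW)
  rw [dI_map] at e2
  rw [h.ex_cS] at e1 ⊢
  rw [e1, show push (Crd.refl k P).ε (cS V) = cS V from push_refl V, bij_sum.ex_cS] at e2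
  rw [I1_apply, e2]
  exact e3.symm

theorem ip_comm (hV : (V : Set (P.Pt k)) ⊆ X.pts) (hW : (W : Set (P.Pt k)) ⊆ X.pts)
    (hp : Pp X.dim V W) : ip X.dim (cS V) (cS W) = ip X.dim (cS W) (cS V) := by
  rw [ip_model X bij_sum.symm hV hW hp, ip_vr X hW hV, ex_swap, dI_comm]
  rfl

theorem ip_top (hV : (V : Set (P.Pt k)) ⊆ X.pts) : ip X.dim (cS V) (cS X.tp) = cS V := by
  have e := gys_graph X bij_sum (Crd.refl k P) (Crd.diag k P) rfl rfl (C := V) hV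
  rw [dI_comm] at e
  rw [I1_apply]
  refine (congrArg _ e).trans ((push_sec bij_sum.inj (Crd.diag k P) fun z hz => ?_).trans ?_)
  · obtain ⟨x, -, rfl⟩ := (Crd.mem_img_iff _).1 hz
    rfl
  · rw [img_img (ν := Crd.refl k P) rfl, Crd.img_refl]

theorem ip_pos (hV : (V : Set (P.Pt k)) ⊆ X.pts) (hW : (W : Set (P.Pt k)) ⊆ X.pts)
    (hp : Pp X.dim V W) (h1 : U ≤ V) (h2 : U ≤ W) (hd : sdim U + X.dim = sdim V + sdim W) :
    0 < ip X.dim (cS V) (cS W) (idl (U : Set (P.Pt k))) := by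
  have hz : ∀ z ∈ (Crd.diag k P).img U, ∃ x ∈ U, (Crd.diag k P).pr x = z := fun z hz =>
    (Crd.mem_img_iff _).1 hz
  have h3 : 0 < gys (dI k (Crd.inl k P P).ε (Crd.inr k P P).ε) X.dim (cS (bij_sum.xp V W))
      (idl ((Crd.diag k P).img U : Set ((P.sum P).Pt k))) := by
    refine gys_pos (I1_lg X bij_sum hV hW) subset_rfl (PV_dia bij_sum hp) (fun z h => ?_)
      ((dI_le_iff _ _).2 fun z h => ?_) ?_
    · obtain ⟨x, hx, rfl⟩ := hz z h
      exact bij_sum.mem_xp.2 ⟨h1 hx, h2 hx⟩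
    · obtain ⟨x, -, rfl⟩ := hz z h
      rfl
    · rw [bij_sum.sdim_xp, ← hd,
        sdim_img_of_inj (Crd.diag k P) fun x _ y _ e => congrArg (Crd.inl k P P).pr e]
  have h4 : push (Crd.inl k P P).ε (cS ((Crd.diag k P).img U)) = cS U := by
    rw [push_sec bij_sum.inj (Crd.diag k P) fun z h => ?_, img_img (ν := Crd.refl k P) rfl,
      Crd.img_refl]
    obtain ⟨x, -, rfl⟩ := hz z h
    rfl
  have h5 : ∀ p, 0 ≤ gys (dI k (Crd.inl k P P).ε (Crd.inr k P P).ε) X.dim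
      (cS (bij_sum.xp V W)) p := fun p => by
    obtain ⟨m, hm⟩ := gys_nat (J := dI k (Crd.inl k P P).ε (Crd.inr k P P).ε) (c := X.dim)
      (idl (bij_sum.xp V W : Set ((P.sum P).Pt k))) p
    exact (Nat.cast_nonneg m).trans hm.ge
  rw [I1_apply]
  generalize gys (dI k (Crd.inl k P P).ε (Crd.inr k P P).ε) X.dim (cS (bij_sum.xp V W)) = a
    at h3 h5
  rw [← single_add_erase (idl ((Crd.diag k P).img U : Set ((P.sum P).Pt k))) a, map_add,
    ← smul_single_one, map_smul, ← cS, h4, Finsupp.add_apply, Finsupp.smul_apply, cS_self,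
    smul_eq_mul, mul_one]
  refine add_pos_of_pos_of_nonneg h3 (push_nonneg (fun p => ?_) _)
  classical
  rw [erase_apply]
  split_ifs
  exacts [le_rfl, h5 p]

theorem ip_gys (hV : (V : Set (P.Pt k)) ⊆ X.pts) (hW : (W : Set (P.Pt k)) ⊆ X.pts)
    (hp : Pp X.dim V W) {J : Ideal (MvPolynomial P.V k)} {c : ℕ} (hJ : LG X.pts J c)
    (hc : PV J c W) (h : ∀ T ≤ V, T ≤ W → J ≤ idl (T : Set (P.Pt k)) →
      sdim T + X.dim + c ≤ sdim V + sdim W) :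
    ip X.dim (cS V) (gys J c (cS W)) = gys J c (ip X.dim (cS V) (cS W)) := by
  have e1 : ip X.dim (cS V) (gys J c (cS W)) =
      push vr (gys (dI k vl vr) X.dim (ex vl vr (cS V) (gys J c (cS W)))) :=
    Sp_ext (ip X.dim (cS V)) (push vr ∘ₗ gys (dI k vl vr) X.dim ∘ₗ ex vl vr (cS V))
      (fun T hT => ip_vr X hV fun z hz => hW (hT.1 hz)) (gys_mem hJ hW)
  have e2 := gys_ex (bij_sum (k := k) (P := P) (Q := P)).symm hJ hW hc V
  rw [bij_sum.symm.ex_cS, bij_sum.xp_symm, ex_swap] at e2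
  have hl : LG (bij_sum.xp V W : Set ((P.sum P).Pt k)) (J.map (rename (Crd.inr k P P).ε)) c :=
    hJ.map _ fun z hz => hW (bij_sum.mem_xp.1 hz).2
  have hq : PV (J.map (rename (Crd.inr k P P).ε) ⊔ dI k (Crd.inl k P P).ε (Crd.inr k P P).ε)
      (c + X.dim) (bij_sum.xp V W) := by
    intro Y hY hJ'
    have e := (dI_le_iff _ _).1 (le_sup_right.trans hJ')
    have := h ((Crd.inr k P P).img Y) (Crd.img_congr _ _ e ▸ (bij_sum.le_xp.1 hY).1)
      (bij_sum.le_xp.1 hY).2 ((map_le_idl _ hJ.hmg).1 (le_sup_left.trans hJ'))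
    rw [sdim_img_of_inj _ fun x hx y hy e' =>
      sum_ext ((e x hx).trans (e'.trans (e y hy).symm)) e'] at this
    rw [bij_sum.sdim_xp]
    omega
  have e3 := gys_comm hl (I1_lg X bij_sum hV hW) subset_rfl
    (bij_sum.xp_symm V W ▸ PV.xp bij_sum.symm hJ.hmg hc V) (PV_dia bij_sum hp) hq
  have e4 := I1_push bij_sum.symm.inj hJ (Sp_mono (fun T hT =>
    ⟨fun z hz => hW (bij_sum.mem_xp.1 (hT.1 hz)).2, fun Y hY hJ' => by
      have := hq Y (hY.trans hT.1) (sup_le hJ' (hT.2.1.trans (idl_le_iff.2 hY)))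
      have := hT.2.2
      omega⟩) (I1_mem X bij_sum hV hW))
  rw [← e3, e2, ← bij_sum.ex_cS] at e4
  rw [e1, ip_vr X hV hW]
  exact e4.symm

theorem I1_dim {μ : Crd k (P.sum P) S} {θ : Crd k P S} (H : Bij μ θ) {m : ℕ}
    (h : ∀ T ≤ V, T ≤ W → T ≤ U → sdim T + m ≤ sdim V + sdim W + sdim U) {Y : Sub k S}
    (hY : Y ≤ H.xp (bij_sum.xp V W) U)
    (e1 : ∀ z ∈ Y, (Crd.inl k P P).pr (μ.pr z) = (Crd.inr k P P).pr (μ.pr z))
    (e2 : ∀ z ∈ Y, (Crd.inl k P P).pr (μ.pr z) = θ.pr z) :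
    sdim Y + m ≤ sdim V + sdim W + sdim U := by
  rw [← sdim_img_of_inj ((Crd.inl k P P).comp μ) (U := Y) fun x hx y hy e =>
    H.ext (sum_ext e ((e1 x hx).symm.trans (e.trans (e1 y hy))))
      ((e2 x hx).symm.trans (e.trans (e2 y hy)))]
  refine h _ (I1_le fun z hz => (bij_sum.mem_xp.1 (H.mem_xp.1 (hY hz)).1).1)
    (I1_le fun z hz => ?_) (I1_le fun z hz => ?_)
  · exact Set.mem_of_eq_of_mem (e1 z hz) (bij_sum.mem_xp.1 (H.mem_xp.1 (hY hz)).1).2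
  · exact Set.mem_of_eq_of_mem (e2 z hz) (H.mem_xp.1 (hY hz)).2

theorem I1_three {μ : Crd k (P.sum P) S} {θ : Crd k P S} (H : Bij μ θ)
    (hV : (V : Set (P.Pt k)) ⊆ X.pts) (hW : (W : Set (P.Pt k)) ⊆ X.pts)
    (hU : (U : Set (P.Pt k)) ⊆ X.pts) (h1 : Pp X.dim V W)
    (h : ∀ T ≤ V, T ≤ W → T ≤ U → sdim T + (X.dim + X.dim) ≤ sdim V + sdim W + sdim U) :
    ip X.dim (ip X.dim (cS V) (cS W)) (cS U) = push ((Crd.inl k P P).comp μ).ε
      (gys (dI k ((Crd.inl k P P).comp μ).ε θ.ε) X.dim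
        (gys (dI k ((Crd.inl k P P).comp μ).ε ((Crd.inr k P P).comp μ).ε) X.dim
          (cS (H.xp (bij_sum.xp V W) U)))) := by
  have hν : Inj (((Crd.inl k P P).comp μ).pair θ) := (bij_sum.symm.assoc H).symm.inj
  have ha := I1_mem X bij_sum hV hW
  have hU' : cS U ∈ Sp fun T => T = U := cS_mem rfl
  have e1 := push_ex (α := Crd.inl k P P) H bij_sum bij_sum.inj hν rfl rfl ha hU'
  have e2 := gys_ex H (I1_lg X bij_sum hV hW) subset_rfl (PV_dia bij_sum h1) U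
  rw [H.ex_cS, dI_map] at e2
  have hb : ex μ.ε θ.ε (gys (dI k (Crd.inl k P P).ε (Crd.inr k P P).ε) X.dim
      (cS (bij_sum.xp V W))) (cS U) ∈ Sp fun T =>
        (∀ z ∈ T, (((Crd.inl k P P).comp μ).pair θ).pr z ∈
          {z | (Crd.inl k P P).pr z ∈ X.pts ∧ (Crd.inr k P P).pr z ∈ X.pts}) ∧
        PV ((dI k (Crd.inl k P P).ε (Crd.inr k P P).ε).map
          (rename (((Crd.inl k P P).comp μ).pair θ).ε)) X.dim T := by
    refine Sp_mono ?_ (H.ex_mem ha hU')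
    rintro _ ⟨T, _, ⟨t1, t2, t3⟩, rfl, rfl⟩
    refine ⟨fun z hz => ⟨hV (bij_sum.mem_xp.1 (t1 (H.mem_xp.1 hz).1)).1, hU (H.mem_xp.1 hz).2⟩,
      fun Y hY hJ => ?_⟩
    rw [dI_map] at hJ
    have := I1_dim H h (fun z hz => H.mem_xp.2 ⟨t1 (H.mem_xp.1 (hY hz)).1, (H.mem_xp.1 (hY hz)).2⟩)
      (fun z hz => (dI_le_iff _ _).1 t2 _ (H.mem_xp.1 (hY hz)).1)
      ((dI_le_iff ((Crd.inl k P P).comp μ) θ).1 hJ)
    rw [bij_sum.sdim_xp] at t3
    rw [H.sdim_xp]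
    omega
  have e3 := I1_push hν (I1_lg0 X) hb
  have hc := Sp_map (gys ((dI k (Crd.inl k P P).ε (Crd.inr k P P).ε).map
    (rename (((Crd.inl k P P).comp μ).pair θ).ε)) X.dim) (Sp fun _ => True)
    (fun T hT => Sp_mono (fun _ _ => trivial) (gys_mem ((I1_lg0 X).map _ hT.1) subset_rfl)) hb
  have e4 := push_comp bij_sum.inj hν hc
  rw [← e3, e1, ← e2, dI_map] at e4
  rw [I1_apply]
  exact e4.symm

theorem ip_rcomm (hV : (V : Set (P.Pt k)) ⊆ X.pts) (hW : (W : Set (P.Pt k)) ⊆ X.pts)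
    (hU : (U : Set (P.Pt k)) ⊆ X.pts) (h1 : Pp X.dim V W) (h2 : Pp X.dim V U)
    (h : ∀ T ≤ V, T ≤ W → T ≤ U → sdim T + X.dim + X.dim ≤ sdim V + sdim W + sdim U) :
    ip X.dim (ip X.dim (cS V) (cS W)) (cS U) = ip X.dim (ip X.dim (cS V) (cS U)) (cS W) := by
  have H : Bij (Crd.inl k (P.sum P) P) (Crd.inr k (P.sum P) P) := bij_sum
  have H' := (bij_sum.symm.assoc H).symm
  have e : H'.xp (bij_sum.xp V U) W = H.xp (bij_sum.xp V W) U := by
    ext z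
    simp only [SetLike.mem_coe, Bij.mem_xp]
    exact and_right_comm
  have h' : ∀ T ≤ V, T ≤ W → T ≤ U → sdim T + (X.dim + X.dim) ≤ sdim V + sdim W + sdim U :=
    fun T t1 t2 t3 => add_assoc (sdim T) _ _ ▸ h T t1 t2 t3
  have m1 : ∀ z ∈ H.xp (bij_sum.xp V W) U, _ := fun z hz => bij_sum.mem_xp.1 (H.mem_xp.1 hz).1
  have p1 := PV.xp H (dI_hmg _ _) (PV_dia bij_sum h1) U
  have p2 := PV.xp H' (dI_hmg _ _) (PV_dia bij_sum h2) W
  rw [dI_map] at p1 p2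
  rw [e] at p2
  rw [I1_three X H hV hW hU h1 h', I1_three X H' hV hU hW h2 fun T t1 t2 t3 =>
    add_right_comm (sdim V) _ _ ▸ h' T t1 t3 t2, e]
  refine congrArg _ (gys_comm (A := H.xp (bij_sum.xp V W) U)
    (LG.dia X _ _ (fun z hz => hV (m1 z hz).1) fun z hz => hW (m1 z hz).2)
    (LG.dia X _ _ (fun z hz => hV (m1 z hz).1) fun z hz => hU (H.mem_xp.1 hz).2)
    subset_rfl p1 p2 fun Y hY hJ => ?_)
  rw [H.sdim_xp, bij_sum.sdim_xp]
  exact I1_dim H h' hY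
    ((dI_le_iff ((Crd.inl k P P).comp _) ((Crd.inr k P P).comp _)).1 (le_sup_left.trans hJ))
    ((dI_le_iff ((Crd.inl k P P).comp _) _).1 (le_sup_right.trans hJ))

end Pool.Agent.Work.MP_10f4af_ag
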