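import Pool.Agent.Work.MP_10f4af_ag.I1

/-!
# Intersections on a product

Plan.  `Pd.tp`: extensionality with `Bij.mem_xp`.  `ip_mix`: on `S.sum S` write
`dI vl vr = dI (vl ∘ β) (vr ∘ β) ⊔ dI (vl ∘ γ) (vr ∘ γ)` (`Bij.dI_sup`) and use `gys_gys`, the
second ideal first.  Let `μ = (β.comp inl).pair inr : Crd (P.sum S) (S.sum S)`, `γ₁ = γ.comp inl`;
`Bij μ γ₁` (`Bij.assoc`, `Bij.assoc'`, or directly), and `(V × Y) × C = (V × C) × Y` for this
splitting.  `gys_graph` (with `j` from `Bij.exists_lift`) gives the graph `Γ`, with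
`push μ Γ = V × C` (`push_sec`); then `gys_push`, `push_comp`, `ip_vr`.
`ip_proj`: `ip_mix`; with `ν = inl.pair (β.comp inr) : Crd (P.sum P) (P.sum S)`,
`push ν (ex V C) = ex V (push β C)` (`push_ex_cS`, `ex_swap`), `gys_push`, `push_comp`; `ip_vr` on
the components of `push β C`.  `ip_ex`: `ip_mix`; `ex V (ex β γ V' W) = ex ν θ (ex vl vr V V') W`
with `θ = γ.comp inr` (`ex_assoc`, `Bij.assoc'`), `gys_ex`, `push_ex`, `ip_vr`.
`ip_sec`: the cycle is a multiple of the class of `j.img V` (`ip_mem`, `Sp_one`); its image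
under `push β` is `ip V X = V` by `ip_proj`, `push_sec`, `ip_top`.
-/

open MvPolynomial Topology TopologicalSpace Finsupp

namespace Pool.Agent.Work.MP_10f4af_ag

open MP_ffcd14_ag hiding len vl cyc pl Weil idl_hmg mem_idl idl_prime idl_le_iff

universe u

variable {k : Type u} [Field k] {P Q S : Amb}

/-- `Z` is the product of `X` and `Y`. -/
structure Pd (X : SV k P) (Y : SV k Q) (Z : SV k S) (β : Crd k P S) (γ : Crd k Q S) : Prop where
  bij : Bij β γ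
  mem : ∀ z, z ∈ Z.pts ↔ β.pr z ∈ X.pts ∧ γ.pr z ∈ Y.pts

variable [IsAlgClosed k] {X : SV k P} {Y : SV k Q} {Z : SV k S} {β : Crd k P S} {γ : Crd k Q S}

theorem I2_sec (β : Crd k P S) (j : Crd k S P) {U : Sub k S} (h : ∀ z ∈ U, j.pr (β.pr z) = z) :
    sdim (β.img U) = sdim U :=
  sdim_img_of_inj β fun x hx y hy e => by rw [← h x hx, e, h y hy]

omit [IsAlgClosed k] in
theorem I2_img (j : Crd k S P) (e : j.ε ∘ β.ε = id) (V : Sub k P) : β.img (j.img V) = V :=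
  (img_img (ν := Crd.refl k P) e V).trans (Crd.img_refl V)

theorem I2_fix (j : Crd k S P) (e : j.ε ∘ β.ε = id) (V : Sub k P) :
    ∀ z ∈ j.img V, j.pr (β.pr z) = z := by
  intro z hz
  obtain ⟨x, -, rfl⟩ := j.mem_img_iff.1 hz
  rw [pr_comp (ν := Crd.refl k P) e]
  rfl

theorem mem_prod {z : (P.sum Q).Pt k} : z ∈ (X.prod Y).pts ↔
    (Crd.inl k P Q).pr z ∈ X.pts ∧ (Crd.inr k P Q).pr z ∈ Y.pts := by
  rw [SV.prod, (prod_var X Y).choose_spec.1]
  rfl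

theorem prod_dim (X : SV k P) (Y : SV k Q) : (X.prod Y).dim = X.dim + Y.dim :=
  (prod_var X Y).choose_spec.2

theorem pd_prod (X : SV k P) (Y : SV k Q) : Pd X Y (X.prod Y) (Crd.inl k P Q) (Crd.inr k P Q) :=
  ⟨bij_sum, fun _ => mem_prod⟩

namespace Pd

variable (h : Pd X Y Z β γ)
include h

theorem symm : Pd Y X Z γ β := by
  exact ⟨h.bij.symm, fun z => (h.mem z).trans and_comm⟩

theorem tp : Z.tp = h.bij.xp X.tp Y.tp := by
  exact SetLike.ext fun z => (h.mem z).trans (h.bij.mem_xp (V := X.tp) (W := Y.tp)).symm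

theorem dim : Z.dim = X.dim + Y.dim := by
  rw [← Z.sdim_tp, h.tp, h.bij.sdim_xp, X.sdim_tp, Y.sdim_tp]

theorem isProd : IsProd X Y Z β.ε γ.ε := by
  refine ⟨h.bij.ε, ⟨Equiv.ofBijective _ h.bij.ψ, β.fst, γ.fst⟩, ?_⟩
  have := h.bij.idl_xp X.tp Y.tp
  rwa [← h.tp] at this

theorem xp_sub {V : Sub k P} {W : Sub k Q} (hV : (V : Set (P.Pt k)) ⊆ X.pts)
    (hW : (W : Set (Q.Pt k)) ⊆ Y.pts) : (h.bij.xp V W : Set (S.Pt k)) ⊆ Z.pts := by
  exact fun z hz => (h.mem z).2 ⟨hV (h.bij.mem_xp.1 hz).1, hW (h.bij.mem_xp.1 hz).2⟩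

theorem img_sub {C : Sub k S} (hC : (C : Set (S.Pt k)) ⊆ Z.pts) :
    (β.img C : Set (P.Pt k)) ⊆ X.pts := by
  exact (β.img_sub X.closed).2 fun z hz => ((h.mem z).1 (hC hz)).1

theorem pull_cS {V : Sub k P} (hV : (V : Set (P.Pt k)) ⊆ X.pts) :
    pull β.ε (idl Z.pts) (cS V) = cS (h.bij.xp V Y.tp) := by
  have e : (idl X.pts).map (rename β.ε) ≤
      ((idl (V : Set (P.Pt k))).map (rename β.ε) : Ideal (MvPolynomial S.V k)) :=
    Ideal.map_mono (idl_anti hV)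
  rw [cS, cS, pull, lmapDomain_apply, mapDomain_single, h.isProd.2.2, h.bij.idl_xp, ← sup_assoc,
    sup_eq_left.2 e]
  rfl

theorem pp_xp {V V' : Sub k P} (hp : Pp X.dim V V') (W : Sub k Q) :
    Pp Z.dim (h.bij.xp V Y.tp) (h.bij.xp V' W) := by
  intro U h1 h2
  have k1 := hp _ (h.bij.le_xp.1 h1).1 (h.bij.le_xp.1 h2).1
  have k2 := sdim_mono (h.bij.le_xp.1 h2).2
  have k3 := h.bij.sdim_le U
  rw [h.dim, h.bij.sdim_xp, h.bij.sdim_xp, Y.sdim_tp]
  omega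

theorem ip_mix {V : Sub k P} {C : Sub k S} (hV : (V : Set (P.Pt k)) ⊆ X.pts)
    (hC : (C : Set (S.Pt k)) ⊆ Z.pts) (hp : Pp Z.dim (h.bij.xp V Y.tp) C) :
    ip Z.dim (cS (h.bij.xp V Y.tp)) (cS C) =
      push vr (gys (dI k vl (vr ∘ β.ε)) X.dim (ex vl vr (cS V) (cS C))) := by
  have hμ := (h.bij.symm.assoc (bij_sum (k := k) (P := S) (Q := S))).symm
  set μ := (β.comp (Crd.inl k S S)).pair (Crd.inr k S S) with eμ
  obtain ⟨j, e1, e2, -, -, e3, e4⟩ :=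
    hμ.exists_lift (Crd.refl k (P.sum S)) (γ.comp (Crd.inr k P S))
  have hZ := h.xp_sub hV (W := Y.tp) subset_rfl
  set C' := (bij_sum (k := k)).xp V C with eC
  set T := (bij_sum (k := k)).xp (h.bij.xp V Y.tp) C with eT
  have hT : hμ.xp C' Y.tp = T := SetLike.ext fun z => by
    rw [hμ.mem_xp, bij_sum.mem_xp, bij_sum.mem_xp, h.bij.mem_xp]
    exact and_right_comm
  have l1 : ∀ z ∈ (T : Set ((S.sum S).Pt k)), (Crd.inl k S S).pr z ∈ Z.pts :=
    fun z hz => hZ (bij_sum.mem_xp.1 hz).1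
  have l2 : ∀ z ∈ (T : Set ((S.sum S).Pt k)), (Crd.inr k S S).pr z ∈ Z.pts :=
    fun z hz => hC (bij_sum.mem_xp.1 hz).2
  have g1 := LG.dia Y (γ.comp (Crd.inl k S S)) (γ.comp (Crd.inr k S S))
    (fun z hz => ((h.mem _).1 (l1 z hz)).2) fun z hz => ((h.mem _).1 (l2 z hz)).2
  have g2 := LG.dia X (β.comp (Crd.inl k S S)) (β.comp (Crd.inr k S S))
    (fun z hz => ((h.mem _).1 (l1 z hz)).1) fun z hz => ((h.mem _).1 (l2 z hz)).1
  have g3 := LG.dia X (Crd.inl k P S) (β.comp (Crd.inr k P S)) (A := (C' : Set ((P.sum S).Pt k)))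
    (fun z hz => hV (bij_sum.mem_xp.1 hz).1)
    fun z hz => ((h.mem _).1 (hC (bij_sum.mem_xp.1 hz).2)).1
  have fx : ∀ U : Sub k (S.sum S), dI k (γ.comp (Crd.inl k S S)).ε (γ.comp (Crd.inr k S S)).ε ≤
      idl (U : Set ((S.sum S).Pt k)) → ∀ z ∈ U, j.pr (μ.pr z) = z := fun U hU z hz =>
    hμ.ext (e3 _) ((e4 _).trans ((dI_le_iff _ _).1 hU z hz).symm)
  have dT : sdim T = sdim C' + Y.dim := by rw [← hT, hμ.sdim_xp, Y.sdim_tp]
  have p1 : PV (dI k (γ.comp (Crd.inl k S S)).ε (γ.comp (Crd.inr k S S)).ε) Y.dim T := by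
    intro U h1 h2
    rw [← I2_sec μ j (fx U h2), dT]
    exact Nat.add_le_add_right (sdim_mono (hμ.le_xp.1 (hT ▸ h1)).1) _
  have es : dI k (γ.comp (Crd.inl k S S)).ε (γ.comp (Crd.inr k S S)).ε ⊔
      dI k (β.comp (Crd.inl k S S)).ε (β.comp (Crd.inr k S S)).ε = dI k vl vr :=
    (h.bij.symm.dI_sup vl vr).symm
  have p2 : PV (dI k (γ.comp (Crd.inl k S S)).ε (γ.comp (Crd.inr k S S)).ε ⊔
      dI k (β.comp (Crd.inl k S S)).ε (β.comp (Crd.inr k S S)).ε) (Y.dim + X.dim) T := by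
    rw [es, ← h.symm.dim]
    exact PV_dia bij_sum hp
  have gr : gys (dI k (γ.comp (Crd.inl k S S)).ε (γ.comp (Crd.inr k S S)).ε) Y.dim (cS T) =
      cS (j.img C') := by
    rw [← hT]
    exact gys_graph Y hμ _ j e1 e2 fun z hz => ((h.mem _).1 (hC (bij_sum.mem_xp.1 hz).2)).2
  have m1 := gys_mem g1 subset_rfl
  rw [gr] at m1
  obtain ⟨a1, a2, a3⟩ := Sp_of m1 (by rw [cS_self]; exact one_ne_zero)
  have em : (dI k (Crd.inl k P S).ε (β.comp (Crd.inr k P S)).ε).map (rename μ.ε) =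
      dI k (β.comp (Crd.inl k S S)).ε (β.comp (Crd.inr k S S)).ε := dI_map _ _ _
  have ei : μ.img (j.img C') = C' := I2_img j e1 C'
  have gp := gys_push hμ.inj g3 (V := j.img C') (fun z hz => ei ▸ μ.mem_img hz) (by
    rw [em]
    intro U h1 h2
    have := p2 U (h1.trans a1) (sup_le (a2.trans (idl_le_iff.2 h1)) h2)
    omega)
  rw [push_sec hμ.inj j (fx _ a2), ei, em] at gp
  have gg := gys_gys g1 g2 subset_rfl p1 p2
  rw [gr, es, ← h.symm.dim] at gg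
  rw [ip_vr Z hZ hC]
  change push vr (gys _ _ (ex (Crd.inl k S S).ε (Crd.inr k S S).ε _ _)) =
    push vr (gys _ _ (ex (Crd.inl k P S).ε (Crd.inr k P S).ε _ _))
  rw [bij_sum.ex_cS, bij_sum.ex_cS, ← eT, ← gg]
  refine (push_comp bij_sum.symm.inj hμ.inj (gys_mem g2 (V := j.img C') a1)).trans ?_
  rw [← gp]
  rfl

theorem ip_proj {V : Sub k P} {C : Sub k S} (hV : (V : Set (P.Pt k)) ⊆ X.pts)
    (hC : (C : Set (S.Pt k)) ⊆ Z.pts) (hp : Pp Z.dim (h.bij.xp V Y.tp) C) :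
    push β.ε (ip Z.dim (cS (h.bij.xp V Y.tp)) (cS C)) = ip X.dim (cS V) (push β.ε (cS C)) := by
  have hν := (bij_sum (k := k) (P := P) (Q := S)).assoc' h.bij
  set ν := (Crd.inl k P S).pair (β.comp (Crd.inr k P S)) with eν
  set C' := (bij_sum (k := k)).xp V C with eC
  have g0 := LG.dia X (Crd.inl k P P) (Crd.inr k P P) (A := (X.prod X).pts)
    (fun z hz => (mem_prod.1 hz).1) fun z hz => (mem_prod.1 hz).2
  have l : ∀ z ∈ C', ν.pr z ∈ (X.prod X).pts := fun z hz => mem_prod.2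
    ⟨hV (bij_sum.mem_xp.1 hz).1, ((h.mem _).1 (hC (bij_sum.mem_xp.1 hz).2)).1⟩
  have em : (dI k (Crd.inl k P P).ε (Crd.inr k P P).ε).map (rename ν.ε) =
      dI k (Crd.inl k P S).ε (β.comp (Crd.inr k P S)).ε := dI_map _ _ _
  have gp := gys_push hν.inj g0 l (by
    rw [em]
    intro U h1 h2
    have k0 := (dI_le_iff _ _).1 h2
    have k1 := bij_sum.le_xp.1 h1
    have k2 := hp ((Crd.inr k P S).img U) (((Crd.inr k P S).img_sub (h.bij.xp V Y.tp).isClosed).2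
      fun z hz => h.bij.mem_xp.2 ⟨by
        have := (bij_sum.mem_xp.1 (h1 hz)).1
        rwa [k0 z hz] at this, ((h.mem _).1 (hC (bij_sum.mem_xp.1 (h1 hz)).2)).2⟩) k1.2
    rw [I2_sec _ (β.pair (Crd.refl k S)) fun z hz => bij_sum.ext (k0 z hz).symm rfl,
      h.bij.sdim_xp, h.dim, Y.sdim_tp] at k2
    rw [eC, bij_sum.sdim_xp]
    omega)
  have pe := push_ex_cS (μ := ν) bij_sum.symm bij_sum.symm h.bij.inj hν.inj rfl rfl C V
  rw [ex_swap, bij_sum.ex_cS, ex_swap] at pe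
  rw [pe, em] at gp
  have m := gys_mem (g0.map ν (B := (C' : Set ((P.sum S).Pt k))) l) subset_rfl
  rw [em] at m
  rw [h.ip_mix hV hC hp]
  change push β.ε (push (Crd.inr k P S).ε
    (gys _ _ (ex (Crd.inl k P S).ε (Crd.inr k P S).ε _ _))) = _
  rw [bij_sum.ex_cS]
  refine (push_comp h.bij.inj bij_sum.symm.inj m).symm.trans ?_
  refine (push_comp bij_sum.symm.inj hν.inj m).trans ?_
  rw [← gp, push_cS h.bij.inj, map_smul, map_smul, map_smul, map_smul,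
    ip_vr X hV (h.img_sub hC)]
  rfl

theorem ip_ex {V V' : Sub k P} {W : Sub k Q} (hV : (V : Set (P.Pt k)) ⊆ X.pts)
    (hV' : (V' : Set (P.Pt k)) ⊆ X.pts) (hW : (W : Set (Q.Pt k)) ⊆ Y.pts) (hp : Pp X.dim V V') :
    ip Z.dim (cS (h.bij.xp V Y.tp)) (cS (h.bij.xp V' W)) =
      ex β.ε γ.ε (ip X.dim (cS V) (cS V')) (cS W) := by
  have hν := (bij_sum (k := k) (P := P) (Q := S)).assoc' h.bij
  set ν := (Crd.inl k P S).pair (β.comp (Crd.inr k P S)) with eν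
  have g0 := LG.dia X (Crd.inl k P P) (Crd.inr k P P) (A := (X.prod X).pts)
    (fun z hz => (mem_prod.1 hz).1) fun z hz => (mem_prod.1 hz).2
  have l := (pd_prod X X).xp_sub hV hV'
  have em : (dI k (Crd.inl k P P).ε (Crd.inr k P P).ε).map (rename ν.ε) =
      dI k vl (vr ∘ β.ε) := dI_map _ _ _
  have ge := gys_ex hν g0 l (PV_dia bij_sum hp) W
  have ea := ex_assoc (μ := ν.ε) (ε := (Crd.inl k P P).ε) (η := (Crd.inr k P P).ε)
    (θ := (γ.comp (Crd.inr k P S)).ε) (ν := vr) (η' := β.ε) (θ' := γ.ε) rfl rfl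
    (cS V) (cS V') (cS W)
  rw [bij_sum.ex_cS, h.bij.ex_cS] at ea
  rw [em, ea] at ge
  have pe := push_ex (μ := Crd.inr k P S) (α := Crd.inr k P P) hν h.bij bij_sum.symm.inj
    bij_sum.symm.inj rfl rfl (gys_mem g0 l) (cS_mem (c := fun _ => True) (Z := W) trivial)
  rw [h.ip_mix hV (h.xp_sub hV' hW) (h.pp_xp hp W), ip_vr X hV hV']
  refine (congrArg (push vr) ge).trans (pe.trans ?_)
  rw [← bij_sum.ex_cS]
  rfl

theorem pp_sec (j : Crd k S P) (e : j.ε ∘ β.ε = id) (V : Sub k P) :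
    Pp Z.dim (h.bij.xp V Y.tp) (j.img X.tp) := by
  intro U h1 h2
  have k1 := I2_sec β j fun z hz => I2_fix j e X.tp z (h2 hz)
  have k2 := sdim_mono (h.bij.le_xp.1 h1).1
  have k3 := I2_sec β j (I2_fix j e X.tp)
  rw [I2_img j e, X.sdim_tp] at k3
  rw [h.dim, h.bij.sdim_xp, Y.sdim_tp]
  omega

theorem ip_sec (j : Crd k S P) (e : j.ε ∘ β.ε = id) (hj : ∀ x ∈ X.pts, j.pr x ∈ Z.pts)
    {V : Sub k P} (hV : (V : Set (P.Pt k)) ⊆ X.pts) :
    ip Z.dim (cS (h.bij.xp V Y.tp)) (cS (j.img X.tp)) = cS (j.img V) := by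
  have hC : (j.img X.tp : Set (S.Pt k)) ⊆ Z.pts := (j.img_sub Z.closed).2 hj
  have m := ip_mem Z (h.xp_sub hV (W := Y.tp) subset_rfl) hC
  have k3 := I2_sec β j (I2_fix j e X.tp)
  rw [I2_img j e, X.sdim_tp] at k3
  have m' := Sp_one (T := j.img V) (Sp_mono (fun U hU => by
    obtain ⟨h1, h2, h3⟩ := hU
    have fx := fun z hz => I2_fix j e X.tp z (h2 hz)
    have k1 := I2_sec β j fx
    rw [h.dim, h.bij.sdim_xp, Y.sdim_tp] at h3
    rw [← eq_of_sdim_le (h.bij.le_xp.1 h1).1 (by omega), ← Crd.img_comp,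
      Crd.img_congr _ (Crd.refl k S) fx, Crd.img_refl]) m)
  have pr := h.ip_proj hV hC (h.pp_sec j e V)
  rw [push_sec h.bij.inj j (I2_fix j e X.tp), I2_img j e, ip_top X hV, m', map_smul,
    push_sec h.bij.inj j (I2_fix j e V), I2_img j e] at pr
  have k4 := congrArg (fun a : Cyc k P => a (idl (V : Set (P.Pt k)))) pr
  simp only [Finsupp.smul_apply, cS_self, smul_eq_mul, mul_one] at k4
  rw [m', k4, one_smul]

end Pd

end Pool.Agent.Work.MP_10f4af_ag
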