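import Pool.Agent.Work.MP_10f4af_ag.K4

/-!
# Finite dimensionality

Plan.  `rho_even`, `rho_odd`: test on `pn x` (`span_tn`, `LinearMap.ext_on`), `rho_tn`,
`rho_gp_pn`, `rho_smul`; with `f s = upA (it s) (y (σ⁻¹ s))` use `prod_perm_comm`
(`even_comm`, `upA_gr`), resp. `prod_perm_anti` (`gr_comm`, bilinearity over the sum of the odd
members), then reindex by `σ ↦ σ⁻¹` and apply `alt_zero`.
`avg_zero`: `a = ∑ χ σ • gp σ` has `a * a = N ! • a` (`gp_gp`, `Equiv.mulLeft`), commutes with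
`tn e` (`gp_tn`), so `(N !)⁻¹ • (a * tn e)` is an idempotent of `R0` killed by `rho`; `H4'` for
the model `Mod.pow X (Fin N)` and the decomposition `(Fam.tn _ N).isCK`, `Mod.pow_dim`.
`H2`: `IsCK.fam` for `Mod.one X`, `ofFam_val`, `vv_mul`, `vv_tn`, `vv_gp`.
-/

open Function Function.Embedding

namespace Pool.Agent.Work.MP_10f4af_ag

open MP_ffcd14_ag (Amb)

universe u v w

variable {k : Type u} [Field k] [IsAlgClosed k] {K : Type v} [Field K] [CharZero K] {P : Amb}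
  {W : Weil.{u, v, w} k K} {X : SV k P} {ι : Type} [Fintype ι] {q : ι → Cor (Mod.one X)}
  {n : ι → ℕ} {N : ℕ}

theorem K5_key (hN : Module.finrank K (W.H X) < N) (χ : Equiv.Perm (Fin N) → ℚ)
    {e : Cor (Mod.one X)} (h : ∀ (σ : Equiv.Perm (Fin N)) (x : Fin N → W.H X), (χ σ : K) •
      (List.ofFn fun t => W.upA (Mod.one X) (Mod.pow X (Fin N)) (it (σ t))
        (W.rho (Mod.one X) e (x t))).prod = Equiv.Perm.sign σ •
      (List.ofFn fun t => W.upA (Mod.one X) (Mod.pow X (Fin N)) (it t)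
        (W.rho (Mod.one X) e (x (σ⁻¹ t)))).prod) :
    W.rho _ ((∑ σ, χ σ • Cor.gp (Mod.pow X (Fin N)) σ) * Cor.tn fun _ => e) = 0 := by
  refine LinearMap.ext_on_range W.span_tn fun x => ?_
  have h1 := alt_zero hN (fun t => (W.upA (Mod.one X) (Mod.pow X (Fin N)) (it t)).toLinearMap)
    fun t => W.rho (Mod.one X) e (x t)
  rw [← Equiv.sum_comp (Equiv.inv _)] at h1
  rw [RingHom.map_mul, Module.End.mul_apply, W.rho_tn, map_sum, LinearMap.sum_apply,
    LinearMap.zero_apply, ← h1]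
  refine Finset.sum_congr rfl fun σ _ => ?_
  rw [W.rho_smul, LinearMap.smul_apply, Equiv.inv_apply, Equiv.Perm.sign_inv]
  exact (congrArg (fun z => (χ σ : K) • z) (W.rho_gp_pn σ _)).trans (h σ x)

omit [Fintype ι] [CharZero K] in
theorem K5_sum (s : Finset ι) (t : Fin N) (x : W.H X) :
    W.upA (Mod.one X) (Mod.pow X (Fin N)) (it t) (W.rho (Mod.one X) (∑ c ∈ s, q c) x) =
      ∑ c ∈ s, W.upA (Mod.one X) (Mod.pow X (Fin N)) (it t) (W.rho (Mod.one X) (q c) x) := by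
  rw [map_sum, LinearMap.sum_apply, map_sum]

theorem rho_even (hq : Fam W (Mod.one X) q n) (hN : Module.finrank K (W.H X) < N) :
    W.rho _ ((∑ σ : Equiv.Perm (Fin N), ((Equiv.Perm.sign σ : ℤ) : ℚ) • Cor.gp _ σ) *
      Cor.tn fun _ => ∑ c with Even (n c), q c) = 0 := by
  refine K5_key hN _ fun σ x => ?_
  rw [Rat.cast_intCast, Int.cast_smul_eq_zsmul, Units.smul_def]
  congr 1
  refine Eq.trans ?_ (prod_perm_comm _ (fun i j => ?_) σ)
  · simp only [Equiv.Perm.coe_inv, Equiv.symm_apply_apply]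
  · rw [K5_sum]
    exact Commute.sum_left _ _ _ fun c hc => Weil.even_comm (W.upA_gr _ _ _ (hq.img c _))
      (Finset.mem_filter.1 hc).2 _

theorem rho_odd (hq : Fam W (Mod.one X) q n) (hN : Module.finrank K (W.H X) < N) :
    W.rho _ ((∑ σ : Equiv.Perm (Fin N), Cor.gp _ σ) *
      Cor.tn fun _ => ∑ c with Odd (n c), q c) = 0 := by
  have h := K5_key hN (fun _ => 1) (e := ∑ c with Odd (n c), q c) fun σ x => ?_
  · simpa only [one_smul] using h
  rw [Rat.cast_one, one_smul, ← prod_perm_anti (K := K) _ (fun i j => ?_) σ]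
  · simp only [Equiv.Perm.coe_inv, Equiv.symm_apply_apply]
  · rw [K5_sum, K5_sum, Finset.sum_mul_sum, Finset.sum_mul_sum, Finset.sum_comm, Finset.smul_sum]
    refine Finset.sum_congr rfl fun c hc => ?_
    rw [Finset.smul_sum]
    refine Finset.sum_congr rfl fun c' hc' => ?_
    rw [Weil.gr_comm (W.upA_gr _ _ _ (hq.img c' _)) (W.upA_gr _ _ _ (hq.img c _)),
      ((Finset.mem_filter.1 hc').2.mul (Finset.mem_filter.1 hc).2).neg_one_pow]

theorem avg_zero (hq : Fam W (Mod.one X) q n)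
    (h : Indep W _ (Fil ((X.pow (Fin N)).prod (X.pow (Fin N))) (N * X.dim) 0) ∨
      Indep W _ (Ker ((X.pow (Fin N)).prod (X.pow (Fin N))) (N * X.dim) 1))
    (χ : Equiv.Perm (Fin N) → ℚ) (hχ : ∀ σ τ, χ (σ * τ) = χ σ * χ τ)
    {e : Cor (Mod.one X)} (he : e ∈ Cor.R0 (Mod.one X)) (hee : e * e = e)
    (h0 : W.rho _ ((∑ σ, χ σ • Cor.gp (Mod.pow X (Fin N)) σ) * Cor.tn fun _ => e) = 0) :
    (∑ σ, χ σ • Cor.gp (Mod.pow X (Fin N)) σ) * Cor.tn (fun _ => e) = 0 := by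
  obtain ⟨a, ha⟩ : ∃ a, a = ∑ σ, χ σ • Cor.gp (Mod.pow X (Fin N)) σ := ⟨_, rfl⟩
  obtain ⟨t, ht⟩ : ∃ t : Cor (Mod.pow X (Fin N)), t = Cor.tn fun _ => e := ⟨_, rfl⟩
  have h1 : a * a = (Fintype.card (Equiv.Perm (Fin N)) : ℚ) • a := by
    rw [Nat.cast_smul_eq_nsmul, ← Finset.card_univ, ← Finset.sum_const]
    conv_lhs => rw [ha, Finset.sum_mul_sum]
    refine Finset.sum_congr rfl fun σ _ => ?_
    rw [ha]
    refine Eq.trans (Finset.sum_congr rfl fun τ _ => ?_) (Equiv.sum_comp (Equiv.mulLeft σ) _)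
    rw [smul_mul_smul_comm, Cor.gp_gp, ← hχ, Equiv.coe_mulLeft]
  have h2 : t * a = a * t := by
    rw [ha, ht, Finset.mul_sum, Finset.sum_mul]
    exact Finset.sum_congr rfl fun σ _ => by rw [mul_smul_comm, smul_mul_assoc, Cor.gp_tn]
  have h3 : t * t = t := by
    rw [ht, Cor.tn_mul, hee]
  have h4 : a * t ∈ Cor.R0 _ := mul_mem
    (ha ▸ sum_mem fun σ _ => Subalgebra.smul_mem _ (Cor.gp_mem _ σ) _) (ht ▸ Cor.tn_mem fun _ => he)
  have h5 : (Fintype.card (Equiv.Perm (Fin N)) : ℚ) ≠ 0 := Nat.cast_ne_zero.2 Fintype.card_ne_zero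
  have hd : (Mod.pow X (Fin N)).Z.dim = N * X.dim := by rw [Mod.pow_dim, Nat.card_fin]
  rw [← ha, ← ht] at h0 ⊢
  rw [← hd] at h
  refine (smul_eq_zero.1 (H4' (hq.tn N).isCK h (Subalgebra.smul_mem _ h4 _) ?_ ?_)).resolve_left
    (inv_ne_zero h5)
  · rw [smul_mul_smul_comm, mul_assoc, ← mul_assoc t, h2, mul_assoc, h3, ← mul_assoc, h1,
      smul_mul_assoc, smul_smul, inv_mul_cancel_right₀ h5]
  · rw [W.rho_smul, h0, smul_zero]

theorem H2 (W : Weil.{u, v, w} k K) (X : SV k P) (π : Fin (2 * X.dim + 1) → Cl (X.prod X))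
    (hπ : IsCK W X π) (N : ℕ) (hN : Module.finrank K (W.H X) < N)
    (h : Indep W _ (Fil ((X.pow (Fin N)).prod (X.pow (Fin N))) (N * X.dim) 0) ∨
      Indep W _ (Ker ((X.pow (Fin N)).prod (X.pow (Fin N))) (N * X.dim) 1)) :
    comp (X.pow (Fin N)) (∑ σ : Equiv.Perm (Fin N), ((Equiv.Perm.sign σ : ℤ) : ℚ) • gr X σ)
        (tens X N (∑ j : Fin (2 * X.dim + 1) with Even j.val, π j)) = 0 ∧
      comp (X.pow (Fin N)) (∑ σ : Equiv.Perm (Fin N), gr X σ)
        (tens X N (∑ j : Fin (2 * X.dim + 1) with Odd j.val, π j)) = 0 := by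
  obtain ⟨q, hq, rfl⟩ := IsCK.fam (Mod.one X) hπ
  have h1 := congrArg (Cor.vv _) (avg_zero hq h (fun σ => ((Equiv.Perm.sign σ : ℤ) : ℚ))
    (fun σ τ => by simp) (sum_mem fun c _ => hq.mem c)
    hq.coi.toOrthogonalIdempotents.isIdempotentElem_sum (rho_even hq hN))
  have h2 := congrArg (Cor.vv _) (avg_zero hq h (fun _ => 1) (fun σ τ => by simp)
    (sum_mem fun c _ => hq.mem c) hq.coi.toOrthogonalIdempotents.isIdempotentElem_sum
    (by simpa only [one_smul] using rho_odd hq hN))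
  simp only [Cor.vv_mul, Cor.vv_tn, map_sum, map_smul, Cor.vv_gp, map_zero, one_smul] at h1 h2
  simp only [ofFam_val]
  exact ⟨h1, h2⟩

end Pool.Agent.Work.MP_10f4af_ag
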