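import Pool.Agent.Work.MP_10f4af_ag.R2
import Pool.Agent.Work.MP_10f4af_ag.I2

/-!
# The moving lemma

Model: `MvD_forms` in `Work/MP_ffcd14_ag/Cyc/MvD.lean`.
Plan.  `exists_forms`: `exists_seq` with `W = DW' k a`, `D = Dia k P`, the family of the
`bij_sum.xp V F`, `F ∈ insert X.tp 𝓕`, and `unram'` at one point of `V` and of each member of the
family of `MvD_meets`.  An irreducible `U ⊆ X × X` in `V(D)` which contains such a point `(x, x)`
lies in the diagonal, since the form `s` does not vanish on it (`dI_le_iff`).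
`resid`: let `Δ = (Crd.diag k P).img V`.  The coefficient of `Δ` in `gys (sq D n) n (V × X)` is
`mult` of the list, which is the coefficient in `gys (dI vl vr) n (V × X)` (`gys_coeff` twice),
i.e. one (`gys_graph`, `dI_comm`).  A component inside the diagonal equals `Δ` by dimension.
`push_sec` for `Δ`, `push_mem` for the rest.  `moving_aux`: induction on `e`, `resid`, `gys_move`,
`push_Rt`; for the components of `push vr (gys (sq g n) n (V × X))` lift a subvariety by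
`Crd.exists_over'`.  If `e = 0` take `cS V`.  `Ex n n V F` always holds.
-/

open MvPolynomial Topology TopologicalSpace Finsupp

namespace Pool.Agent.Work.MP_10f4af_ag

open MP_ffcd14_ag hiding len vl cyc pl Weil idl_hmg mem_idl idl_prime idl_le_iff

universe u

variable {k : Type u} [Field k] {P : Amb}

/-- `V` and `W` meet with excess at most `e`. -/
def Ex (n e : ℕ) (V W : Sub k P) : Prop :=
  ∀ U ≤ V, U ≤ W → sdim U + n ≤ sdim V + sdim W + e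

theorem M1_sup {M : Type*} [AddCommGroup M] [Module ℚ M] {A B : Submodule ℚ M} {x : M} :
    x ∈ A ⊔ B ↔ ∃ a ∈ A, x - a ∈ B := by
  refine Submodule.mem_sup.trans ⟨?_, fun ⟨a, ha, h⟩ => ⟨a, ha, _, h, add_sub_cancel a x⟩⟩
  rintro ⟨a, ha, b, hb, rfl⟩
  exact ⟨a, ha, by rwa [add_sub_cancel_left]⟩

theorem M1_dia [IsAlgClosed k] {V F : Sub k P} {U : Sub k (P.sum P)} (hU : U ≤ bij_sum.xp V F)
    (h : (U : Set ((P.sum P).Pt k)) ⊆ Dia k P) : (Crd.inl k P P).img U ≤ V ∧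
      (Crd.inl k P P).img U ≤ F ∧ (Crd.inl k P P).img U = (Crd.inr k P P).img U := by
  have c : (Crd.inl k P P).img U = (Crd.inr k P P).img U :=
    (Crd.inl k P P).img_congr _ fun z hz => h hz
  exact ⟨(bij_sum.le_xp.1 hU).1, c ▸ (bij_sum.le_xp.1 hU).2, c⟩

variable [IsAlgClosed k] (X : SV k P) {V : Sub k P} (hV : (V : Set (P.Pt k)) ⊆ X.pts)
  {𝓕 : Set (Sub k P)} (h𝓕 : 𝓕.Finite)
include hV h𝓕

theorem exists_forms : ∃ (D : ℕ → MvPolynomial (P.sum P).V k) (a : (P.sum P).ι →₀ ℕ),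
    (∀ m, IsForm (D m) a) ∧ (∀ m, D m ∈ dI k vl vr) ∧ PS D X.dim (bij_sum.xp V X.tp) ∧
    (∀ F ∈ 𝓕, Pp X.dim V F → PS D X.dim (bij_sum.xp V F)) ∧
    (∃ x ∈ V, ∃ s b, IsForm s b ∧ ev (mkPt x x) s ≠ 0 ∧
      ∀ f ∈ dI k vl vr, s * f ∈ idl (X.prod X).pts ⊔ sq D X.dim) ∧
    ∀ U ≤ bij_sum.xp V X.tp, (∀ m < X.dim, Van (U : Set ((P.sum P).Pt k)) (D m)) →
      ¬ (U : Set ((P.sum P).Pt k)) ⊆ Dia k P → ∀ F ∈ 𝓕, ∀ e, Ex X.dim (e + 1) V F →
      ∀ T ≤ (Crd.inr k P P).img U, T ≤ F → sdim T + X.dim ≤ sdim V + sdim F + e := by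
  obtain ⟨a, ha⟩ : ∃ a : P.ι →₀ ℕ, ∀ i, 0 < a i :=
    ⟨Finsupp.equivFunOnFinite.symm fun _ => 1, fun _ => Nat.one_pos⟩
  obtain ⟨𝓦, w1, w2, w3⟩ := MvD_meets V h𝓕
  have := (w1.insert V).to_subtype
  choose x hx using fun W : ↥(insert V 𝓦) => W.1.isIrreducible.nonempty
  have hW : ∀ W ∈ insert V 𝓦, W ≤ V := fun W h => h.elim le_of_eq (w2 W)
  choose N L u1 u2 u3 using fun W : ↥(insert V 𝓦) =>
    unram' X.toVar (hV (hW W.1 W.2 (hx W))) ha
  obtain ⟨g, e1, e2, e3⟩ := exists_seq (DW' k a) (fun g hg => hg.1.1) (Dia k P)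
    (fun z hz => DW'_sep ha hz) ((h𝓕.insert X.tp).image (bij_sum.xp V)) N L u2 X.dim
  have hp : (X.toVar.prod X.toVar).pts = (X.prod X).pts := Set.ext fun _ => mem_prod.symm
  simp only [hp] at u3
  have ps : ∀ F ∈ insert X.tp 𝓕, Pp X.dim V F → PS g X.dim (bij_sum.xp V F) :=
    fun F hF hp j hj U hU hv => by
      refine (e2 j hj _ ⟨F, hF, rfl⟩ U hU hv).elim (fun e => ?_) id
      have h1 := hp _ (M1_dia hU e).1 (M1_dia hU e).2.1
      rw [MvD_sdim e] at h1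
      rw [bij_sum.sdim_xp]
      omega
  refine ⟨g, dbl a, fun m => (e1 m).1.1, fun m => (e1 m).2,
    ps _ (Set.mem_insert _ _) (Pp_top X V), fun F hF => ps F (Set.mem_insert_of_mem _ hF),
    ⟨x ⟨V, Set.mem_insert _ _⟩, hx ⟨V, _⟩, u3 _ X.dim g e1 (e3 _ (u1 _))⟩, ?_⟩
  intro U hU hv hD F hF e hE T hT hTF
  have nd : ∀ W, mkPt (x W) (x W) ∉ U := fun W hW => by
    obtain ⟨s, b, -, s0, s1⟩ := u3 W X.dim g e1 (e3 W (u1 W))
    refine hD ((dI_le_iff (Crd.inl k P P) (Crd.inr k P P)).1 fun f hf => ?_)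
    have h1 : idl (X.prod X).pts ⊔ sq g X.dim ≤ idl (U : Set ((P.sum P).Pt k)) :=
      sup_le (idl_anti fun z hz => (pd_prod X X).xp_sub hV subset_rfl (hU hz))
        ((sq_le_idl fun m => (e1 m).1.1).2 hv)
    exact ((idl_prime U).mem_or_mem (h1 (s1 f hf))).resolve_left fun h => s0 (van_idl h _ hW)
  obtain ⟨V', hV', rfl⟩ := (Crd.inr k P P).exists_over' hT
  have h1 : V' ≤ bij_sum.xp V F := bij_sum.le_xp.2 ⟨(bij_sum.le_xp.1 (hV'.trans hU)).1, hTF⟩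
  rcases e2 _ le_rfl _ ⟨F, Set.mem_insert_of_mem _ hF, rfl⟩ V' h1
    (fun m hm => num2_van_mono hV' (hv m hm)) with e' | e'
  · obtain ⟨c1, c2, c⟩ := M1_dia h1 e'
    rw [← c]
    obtain ⟨W, hW', c3, c4⟩ := w3 F hF _ c1 c2
    have c5 : (Crd.inl k P P).img V' ≠ W := fun H => by
      obtain ⟨z, hz, ez⟩ := (Crd.inl k P P).mem_img_iff.1
        (H.ge (hx ⟨W, Set.mem_insert_of_mem _ hW'⟩))
      refine nd ⟨W, Set.mem_insert_of_mem _ hW'⟩ (hV' ?_)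
      rw [← ez, ← MvD_dia (e' hz)]
      exact hz
    have c6 := sdim_lt (lt_of_le_of_ne c3 c5)
    have c7 := hE W (w2 W hW') c4
    omega
  · have := (Crd.inr k P P).sdim_img_le V'
    rw [bij_sum.sdim_xp] at e'
    omega

theorem resid : ∃ (D : ℕ → MvPolynomial (P.sum P).V k) (a : (P.sum P).ι →₀ ℕ),
    (∀ m, IsForm (D m) a) ∧ PS D X.dim (bij_sum.xp V X.tp) ∧
    (∀ F ∈ 𝓕, Pp X.dim V F → PS D X.dim (bij_sum.xp V F)) ∧
    push vr (gys (sq D X.dim) X.dim (cS (bij_sum.xp V X.tp))) - cS V ∈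
      Sp fun T => (T : Set (P.Pt k)) ⊆ X.pts ∧ sdim T = sdim V ∧
        ∀ F ∈ 𝓕, ∀ e, Ex X.dim (e + 1) V F → Ex X.dim e T F := by
  obtain ⟨D, a, hD, hD', h1, h2, ⟨x, hx, s, b, -, s0, s1⟩, h3⟩ := exists_forms X hV h𝓕
  refine ⟨D, a, hD, h1, h2, ?_⟩
  have hΔ : ∀ z, z ∈ (Crd.diag k P).img V ↔ ∃ y ∈ V, mkPt y y = z := fun z =>
    (Crd.diag k P).mem_img_iff
  have d1 : sdim ((Crd.diag k P).img V) = sdim V :=
    sdim_img_of_inj _ fun y _ y' _ e => congrArg (Crd.inl k P P).pr e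
  have d2 : sdim (bij_sum.xp V X.tp) = sdim V + X.dim := by rw [bij_sum.sdim_xp, X.sdim_tp]
  have hl : ((List.range X.dim).map D).length = X.dim := by
    rw [List.length_map, List.length_range]
  have hm : ∀ {p : MvPolynomial (P.sum P).V k → Prop}, (∀ m, p (D m)) →
      ∀ f ∈ (List.range X.dim).map D, p f := fun h f hf => by
    obtain ⟨m, -, rfl⟩ := List.mem_map.1 hf
    exact h m
  have hf : Fm ((List.range X.dim).map D) := hm fun m => ⟨a, hD m⟩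
  have c1 := gys_coeff (T := (Crd.diag k P).img V) (LG.sq (A := ∅) hD X.dim).hmg
    (h1.pv hD le_rfl) hl hf ⟨fun f hf => Ideal.subset_span hf, 1,
      (Ideal.ne_top_iff_one _).1 (idl_prime _).ne_top,
      fun g hg => by rw [one_mul]; exact Ideal.mem_sup_right hg⟩ le_rfl
  have c2 := gys_coeff (T := (Crd.diag k P).img V) (dI_hmg (Crd.inl k P P) (Crd.inr k P P))
    (PV_dia bij_sum (Pp_top X V)) hl hf ⟨hm hD', s,
      fun h => s0 (van_idl h _ ((hΔ _).2 ⟨x, hx, rfl⟩)), fun g hg => sup_le_sup_right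
        (idl_anti ((pd_prod X X).xp_sub hV subset_rfl)) _ (s1 g hg)⟩ le_rfl
  have c3 := gys_graph X bij_sum (Crd.refl k P) (Crd.diag k P) rfl rfl (C := V) hV
  rw [dI_comm] at c3
  have c4 : gys (sq D X.dim) X.dim (cS (bij_sum.xp V X.tp))
      (idl ((Crd.diag k P).img V : Set ((P.sum P).Pt k))) = 1 := by
    rw [c1, ← c2, ← cS_self ((Crd.diag k P).img V), ← c3]
    rfl
  have c5 := gys_mem (LG.sq hD X.dim) (V := bij_sum.xp V X.tp) subset_rfl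
  have c6 : cS ((Crd.diag k P).img V) ∈ Sp fun T => T ≤ bij_sum.xp V X.tp ∧
      sq D X.dim ≤ idl (T : Set ((P.sum P).Pt k)) ∧ sdim T + X.dim = sdim (bij_sum.xp V X.tp) :=
    cS_mem (Sp_of c5 (c4 ▸ one_ne_zero))
  have c7 := Sp_to (c' := fun T => (T ≤ bij_sum.xp V X.tp ∧
      sq D X.dim ≤ idl (T : Set ((P.sum P).Pt k)) ∧ sdim T + X.dim = sdim (bij_sum.xp V X.tp)) ∧
      T ≠ (Crd.diag k P).img V) (Submodule.sub_mem _ c5 c6) fun T hT h => ⟨hT, fun e => h (by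
    rw [e, Finsupp.sub_apply, c4, cS_self, sub_self])⟩
  have c8 := push_mem (bij_sum (k := k) (P := P) (Q := P)).symm.inj c7
  rw [map_sub, push_sec bij_sum.symm.inj (Crd.diag k P) (fun z hz => by
    obtain ⟨y, -, rfl⟩ := (hΔ z).1 hz
    rfl), img_img (ν := Crd.refl k P) rfl, Crd.img_refl] at c8
  refine Sp_mono ?_ c8
  rintro _ ⟨U, ⟨⟨u1, u2, u3⟩, u4⟩, rfl, u5⟩
  have u6 : sdim ((Crd.inr k P P).img U) = sdim V := by omega
  refine ⟨(bij_sum.le_xp.1 u1).2, u6, fun F hF e hE T hT hTF => ?_⟩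
  rw [u6]
  refine h3 U u1 ((sq_le_idl hD).1 u2) (fun h => u4 (eq_of_sdim_le (fun z hz => ?_) (by omega)))
    F hF e hE T hT hTF
  exact (hΔ z).2 ⟨_, (bij_sum.mem_xp.1 (u1 hz)).1, (MvD_dia (h hz)).symm⟩

omit hV in
theorem moving_aux (e : ℕ) : ∀ V : Sub k P, (V : Set (P.Pt k)) ⊆ X.pts →
    (∀ F ∈ 𝓕, Ex X.dim e V F) → ∃ a ∈ Sp fun T : Sub k P => (T : Set (P.Pt k)) ⊆ X.pts ∧
      sdim T = sdim V ∧ ∀ F ∈ 𝓕, Pp X.dim T F, cS V - a ∈ Rt X.pts := by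
  induction e with
  | zero => exact fun V hV h => ⟨cS V, cS_mem ⟨hV, rfl, h⟩, by rw [sub_self]; exact zero_mem _⟩
  | succ e ih =>
    intro V hV h
    obtain ⟨D, a, hD, h1, -, h2⟩ := resid X hV h𝓕
    obtain ⟨g, g1, g2, g3⟩ := gys_move hD (Set.finite_singleton (bij_sum.xp V X.tp))
      (h𝓕.image (bij_sum.xp V)) fun _ hW => hW ▸ h1
    have hi := (bij_sum (k := k) (P := P) (Q := P)).symm.inj
    have h3 := push_Rt hi (A := X.pts) (fun z hz => (bij_sum.mem_xp.1 hz).2) (g3 _ rfl)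
    have h4 := push_mem hi (gys_mem (LG.sq g1 X.dim) (V := bij_sum.xp V X.tp) subset_rfl)
    rw [map_sub] at h3
    refine M1_sup.1 ?_
    have h5 := Sp_map LinearMap.id ((Sp fun T : Sub k P => (T : Set (P.Pt k)) ⊆ X.pts ∧
        sdim T = sdim V ∧ ∀ F ∈ 𝓕, Pp X.dim T F) ⊔ Rt X.pts) (fun T hT => by
      have h6 := ih T hT.1 fun F hF => hT.2.2 F hF e (h F hF)
      rw [hT.2.1] at h6
      exact M1_sup.2 h6) h2
    have h6 := Submodule.sub_mem _ (Submodule.add_mem _ (Submodule.mem_sup_right h3)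
      (Submodule.mem_sup_left (Sp_mono ?_ h4))) h5
    · rwa [sub_add_cancel, LinearMap.id_apply, vr_eq (k := k), sub_sub_cancel] at h6
    rintro _ ⟨U, ⟨u1, u2, u3⟩, rfl, u4⟩
    rw [bij_sum.sdim_xp, X.sdim_tp] at u3
    refine ⟨(bij_sum.le_xp.1 u1).2, by omega, fun F hF T hT hTF => ?_⟩
    obtain ⟨U', hU', rfl⟩ := (Crd.inr k P P).exists_over' hT
    have h7 := g2 _ ⟨F, hF, rfl⟩ _ le_rfl U'
      (bij_sum.le_xp.2 ⟨(bij_sum.le_xp.1 (hU'.trans u1)).1, hTF⟩)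
      fun m hm => num2_van_mono hU' ((sq_le_idl g1).1 u2 m hm)
    have h8 := (Crd.inr k P P).sdim_img_le U'
    rw [bij_sum.sdim_xp] at h7
    omega

omit hV in
theorem moving (d : ℕ → Prop) {a : Cyc k P}
    (ha : a ∈ Sp fun T : Sub k P => (T : Set (P.Pt k)) ⊆ X.pts ∧ d (sdim T)) :
    ∃ a' ∈ Sp fun T : Sub k P => (T : Set (P.Pt k)) ⊆ X.pts ∧ d (sdim T) ∧
      ∀ F ∈ 𝓕, Pp X.dim T F, a - a' ∈ Rt X.pts := by
  refine M1_sup.1 (Sp_map LinearMap.id _ (fun T hT => ?_) ha)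
  obtain ⟨b, hb, h⟩ := moving_aux X h𝓕 X.dim T hT.1 fun F _ U hU _ => by
    have := sdim_mono hU
    omega
  exact M1_sup.2 ⟨b, Sp_mono (fun Z hZ => ⟨hZ.1, hZ.2.1 ▸ hT.2, hZ.2.2⟩) hb, h⟩

end Pool.Agent.Work.MP_10f4af_ag
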