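import Pool.Agent.Work.MP_10f4af_ag.M1

/-!
# The intersection product respects rational equivalence

Plan.  `ip_SD`: on `Ω = X.prod X` use `Pd.ip_proj` for `(pd_prod X X).symm` on the components `U`
of `gys (sq D n) n (V × X)` (they meet `X × F` properly), `ip_gys`, and
`ip (X × F) (V × X) = V × F` (`Pd.ip_ex`, `ip_top`, `Bij.xp_symm`, `ex_swap`).
`ip_Rt`: let `𝓖` be the family of `Rt_fam`, `𝓕` its union with the components of `a`
(`finite_comp`).  Induction on `e`: for all `V ⊆ X` with `Ex n e V G`, `G ∈ 𝓖`, and `Pp n F V` for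
the components `F` of `a`.  `e = 0`: `Rt_fam` with `bij_sum`, `J = dI vl vr` (`LG.dia`, `PV_dia`),
`push_Rt`.  Step: `resid`; the residual cycle by induction (`Sp_map`; `Pp` is `Ex n 0`, which
implies `Ex n 1`); for the main term `ip_SD` on each component of `a` (`Sp_ext`), `gys_move` with
`𝓥` the `V × F` and `𝓖` the `V × G`, then `Rt_fam` with `bij_sum.symm`, `J = sq g n`.
-/

open MvPolynomial Topology TopologicalSpace Finsupp

namespace Pool.Agent.Work.MP_10f4af_ag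

open MP_ffcd14_ag hiding len vl cyc pl Weil idl_hmg mem_idl idl_prime idl_le_iff

universe u

variable {k : Type u} [Field k] [IsAlgClosed k] {P : Amb} (X : SV k P)

theorem ip_SD {V F : Sub k P} (hV : (V : Set (P.Pt k)) ⊆ X.pts) (hF : (F : Set (P.Pt k)) ⊆ X.pts)
    {D : ℕ → MvPolynomial (P.sum P).V k} {a : (P.sum P).ι →₀ ℕ} (hD : ∀ m, IsForm (D m) a)
    (h1 : PS D X.dim (bij_sum.xp V X.tp)) (h2 : PS D X.dim (bij_sum.xp V F)) :
    ip X.dim (cS F) (push vr (gys (sq D X.dim) X.dim (cS (bij_sum.xp V X.tp)))) =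
      push vr (gys (sq D X.dim) X.dim (cS (bij_sum.xp V F))) := by
  have h := (pd_prod X X).symm
  have hY := (pd_prod X X).xp_sub hV (W := X.tp) subset_rfl
  have e1 : h.bij.xp X.tp V = bij_sum.xp V X.tp := bij_sum.xp_symm V X.tp
  have e2 : h.bij.xp F V = bij_sum.xp V F := bij_sum.xp_symm V F
  have d1 : sdim (h.bij.xp F X.tp) = sdim F + X.dim := by rw [h.bij.sdim_xp, X.sdim_tp]
  have d2 : sdim (bij_sum.xp V X.tp) = sdim V + X.dim := by rw [bij_sum.sdim_xp, X.sdim_tp]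
  have d3 := prod_dim X X
  have key : ∀ T ≤ h.bij.xp F X.tp, T ≤ bij_sum.xp V X.tp →
      sq D X.dim ≤ idl (T : Set ((P.sum P).Pt k)) → sdim T + X.dim ≤ sdim V + sdim F :=
    fun T t1 t2 t3 => (h2 _ le_rfl T (bij_sum.le_xp.2 ⟨(bij_sum.le_xp.1 t2).1,
      (h.bij.le_xp.1 t1).1⟩) ((sq_le_idl hD).1 t3)).trans_eq (bij_sum.sdim_xp V F)
  have h3 := Sp_ext (ip X.dim (cS F) ∘ₗ push vr)
    (push vr ∘ₗ ip (X.prod X).dim (cS (h.bij.xp F X.tp)))
    (fun U hU => (h.ip_proj hF (fun z hz => hY (hU.1 hz)) fun T t1 t2 => by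
      have := key T t1 (t2.trans hU.1) (hU.2.1.trans (idl_le_iff.2 t2))
      have := hU.2.2
      omega).symm) (gys_mem (LG.sq hD X.dim) (V := bij_sum.xp V X.tp) subset_rfl)
  have h4 := ip_gys (X.prod X) (h.xp_sub hF (W := X.tp) subset_rfl) hY
    (e1 ▸ h.pp_xp (Pp_top X F) V) (LG.sq hD X.dim) (h1.pv hD le_rfl) fun T t1 t2 t3 => by
      have := key T t1 t2 t3
      omega
  have h5 := h.ip_ex hF (V' := X.tp) subset_rfl hV (Pp_top X F)
  rw [ip_top X hF, h.bij.ex_cS, e1, e2] at h5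
  rw [LinearMap.comp_apply, LinearMap.comp_apply, h4, h5] at h3
  exact h3

theorem ip_Rt {a : Cyc k P} (ha : a ∈ Rt X.pts) {V : Sub k P} (hV : (V : Set (P.Pt k)) ⊆ X.pts)
    (hp : a ∈ Sp fun F => Pp X.dim F V) : ip X.dim a (cS V) ∈ Rt X.pts := by
  obtain ⟨𝓖, g1, g2, g3⟩ := Rt_fam ha
  have h0 : a ∈ Sp fun F => (F : Set (P.Pt k)) ⊆ X.pts := by
    have h := Rt_le X.pts ha
    rwa [ZA] at h
  have ha' : a ∈ Sp fun F : Sub k P =>
      (F : Set (P.Pt k)) ⊆ X.pts ∧ a (idl (F : Set (P.Pt k))) ≠ 0 :=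
    Sp_to h0 fun Z h1 h2 => ⟨h1, h2⟩
  have key : ∀ (e : ℕ) (V : Sub k P), (V : Set (P.Pt k)) ⊆ X.pts → (∀ G ∈ 𝓖, Ex X.dim e V G) →
      (∀ F : Sub k P, a (idl (F : Set (P.Pt k))) ≠ 0 → Pp X.dim V F) →
      ip X.dim a (cS V) ∈ Rt X.pts := by
    intro e
    induction e with
    | zero =>
      intro V hV h1 _
      rw [ip_apply]
      exact push_Rt bij_sum.inj (B := (X.prod X).pts) (fun z hz => (mem_prod.1 hz).1)
        (g3 bij_sum V _ _ _ (LG.dia X (Crd.inl k P P) (Crd.inr k P P)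
          (fun z hz => (mem_prod.1 hz).1) fun z hz => (mem_prod.1 hz).2)
          (fun z z1 z2 => mem_prod.2 ⟨z1, hV z2⟩) fun G hG => PV_dia bij_sum (Pp.symm (h1 G hG)))
    | succ e ih =>
      intro V hV h1 h2
      obtain ⟨D, b, hD, r1, r2, r3⟩ := resid X hV (g1.union (finite_comp a))
      have h3 := Sp_map (ip X.dim a) (Rt X.pts) (fun T hT => ih T hT.1
        (fun G hG => hT.2.2 G (Or.inl hG) e (h1 G hG))
        fun F hF => hT.2.2 F (Or.inr hF) 0 fun U u1 u2 => (h2 F hF U u1 u2).trans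
          (Nat.le_add_right _ _)) r3
      have h4 := Sp_ext ((ip X.dim).flip (push vr (gys (sq D X.dim) X.dim
          (cS (bij_sum.xp V X.tp)))))
        (push vr ∘ₗ gys (sq D X.dim) X.dim ∘ₗ ex (Crd.inl k P P).ε (Crd.inr k P P).ε (cS V))
        (fun F hF => by
          rw [LinearMap.flip_apply, LinearMap.comp_apply, LinearMap.comp_apply, bij_sum.ex_cS]
          exact ip_SD X hV hF.1 hD r1 (r2 F (Or.inr hF.2) (h2 F hF.2))) ha'
      obtain ⟨g, m1, m2, m3⟩ := gys_move hD ((finite_comp a).image (bij_sum.xp V))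
        (g1.image (bij_sum.xp V)) (n := X.dim) (by
          rintro _ ⟨F, hF, rfl⟩
          exact r2 F (Or.inr hF) (h2 F hF))
      have h5 := Sp_map ((gys (sq D X.dim) X.dim - gys (sq g X.dim) X.dim) ∘ₗ
          ex (Crd.inl k P P).ε (Crd.inr k P P).ε (cS V)) (Rt (X.prod X).pts) (fun F hF => by
        rw [LinearMap.comp_apply, bij_sum.ex_cS]
        exact Rt_mono ((pd_prod X X).xp_sub hV hF.1) (m3 _ ⟨F, hF.2, rfl⟩)) ha'
      have h6 := g3 bij_sum.symm V (X.prod X).pts _ _ (LG.sq m1 X.dim)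
        (fun z z1 z2 => mem_prod.2 ⟨hV z2, z1⟩) fun G hG => by
          rw [bij_sum.xp_symm]
          exact (m2 _ ⟨G, hG, rfl⟩).pv m1 le_rfl
      rw [ex_swap] at h6
      have h7 := add_mem h5 h6
      rw [LinearMap.comp_apply, LinearMap.sub_apply, sub_add_cancel] at h7
      have h8 : ip X.dim a (push vr (gys (sq D X.dim) X.dim (cS (bij_sum.xp V X.tp)))) ∈
          Rt X.pts := by
        rw [← LinearMap.flip_apply, h4]
        exact push_Rt bij_sum.symm.inj (fun z hz => (mem_prod.1 hz).2) h7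
      have h9 := sub_mem h8 h3
      rwa [← map_sub, sub_sub_cancel] at h9
  refine key X.dim V hV (fun G _ U hU _ => ?_) fun F hF => ?_
  · have := sdim_mono hU
    omega
  · have h := Sp_of hp hF
    exact h.symm

end Pool.Agent.Work.MP_10f4af_ag
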