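import Pool.Agent.Work.MP_ffcd14_ag.Cyc.Gp0
import Pool.Agent.Work.MP_ffcd14_ag.Cyc.GrA
import Pool.Agent.Work.MP_ffcd14_ag.Cyc.Mult

/-! # Powers of a variety -/

open MvPolynomial Topology TopologicalSpace Filter

namespace Pool.Agent.Work.MP_10f4af_ag

open MP_ffcd14_ag

universe u

/-- A power of the ambient space. -/
def pw (P : Amb) (T : Type) [Finite T] : Amb where
  ι := T × P.ι
  σ j := P.σ j.2

variable {k : Type u} [Field k] {P : Amb}

/-- The projection of a power onto a factor. -/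
def Pre_blk (k : Type u) [Field k] (P : Amb) {T : Type} [Finite T] (t : T) :
    Blk k P (pw P T) where
  ε s := ⟨(t, s.1), s.2⟩
  ψ i := (t, i)
  fst _ := rfl
  inj := by
    rintro ⟨i, s⟩ ⟨i', s'⟩ h
    obtain ⟨h1, h2⟩ := Sigma.mk.inj h
    obtain rfl : i = i' := (Prod.mk.inj h1).2
    obtain rfl := eq_of_heq h2
    rfl
  pr y i := y (t, i)
  rp_pr _ _ := rfl

theorem Pre_smooth (X : Var k P) (T : Type) [Finite T] :
    ∃ Z : Var k (pw P T), Z.pts = {z | ∀ t, (fun i => z (t, i)) ∈ X.pts} ∧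
      Z.dim = Nat.card T * X.dim := by
  classical
  let _ := Fintype.ofFinite T
  refine ⟨⟨{z | ∀ t, (fun i => z (t, i)) ∈ X.pts}, Nat.card T * X.dim, ?_, fun y hy => ?_⟩,
    rfl, rfl⟩
  · rw [Set.ofPred_forall]
    exact isClosed_iInter fun j => X.closed.preimage (Pre_blk k P j).continuous
  choose κ f hc hL using fun j => X.smooth _ (hy j)
  have := fun j => (hL j).finite
  refine ⟨Σ j, κ j, fun c => rename (Pre_blk k P c.1).ε (f c.1 c.2), ?_, fun c => ?_, ?_, ?_⟩
  · have h1 : Nat.card (pw P T).V = ∑ _j : T, Nat.card P.V := by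
      rw [← Nat.card_sigma]
      exact Nat.card_congr ⟨fun s => ⟨s.1.1, s.1.2, s.2⟩, fun s => ⟨(s.1, s.2.1), s.2.2⟩,
        fun _ => rfl, fun _ => rfl⟩
    have h2 : Nat.card (pw P T).ι = ∑ _j : T, Nat.card P.ι := by
      rw [← Nat.card_sigma]
      exact Nat.card_congr (Equiv.sigmaEquivProd T P.ι).symm
    have h3 : Nat.card T * X.dim = ∑ _j : T, X.dim := by simp
    rw [h1, h2, h3, Nat.card_sigma, ← Finset.sum_add_distrib, ← Finset.sum_add_distrib]
    exact Finset.sum_congr rfl fun j _ => hc j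
  · obtain ⟨a, ha⟩ := (hL c.1).1 c.2
    exact ⟨_, (Pre_blk k P c.1).form ha⟩
  · filter_upwards [eventually_all.mpr fun j =>
      ((Pre_blk k P j).continuous.continuousAt (x := y)).eventually (hL j).2.1] with z hz
    simp only [Blk.ev_rename, Sigma.forall]
    exact forall_congr' hz
  · let _ := fun j => Fintype.ofFinite (κ j)
    rw [Fintype.linearIndependent_iff]
    rintro l hl ⟨j, c⟩
    refine Fintype.linearIndependent_iff.mp (hL j).2.2 (fun c => l ⟨j, c⟩) (funext fun s => ?_) c
    have := congrFun hl ((Pre_blk k P j).ε s)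
    simp only [Finset.sum_apply, Pi.smul_apply, Pi.zero_apply] at this ⊢
    rw [Fintype.sum_sigma, Finset.sum_eq_single j] at this
    · simp only [Blk.ev_pderiv] at this
      exact this
    · intro j' _ hj
      refine Finset.sum_eq_zero fun c _ => ?_
      rw [pderiv_rename_of_notMem]
      · simp [ev]
      · rintro ⟨s, hs⟩
        exact hj (congrArg (fun s : (pw P T).V => s.1.1) hs)
    · simp

/-- Reindexing of a power. -/
def Pre_map (k : Type u) [Field k] (P : Amb) {T T' : Type} [Finite T] [Finite T'] (f : T → T') :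
    Crd k (pw P T) (pw P T') where
  ε s := ⟨(f s.1.1, s.1.2), s.2⟩
  ψ j := (f j.1, j.2)
  fst _ := rfl
  pr y j := y (f j.1, j.2)
  rp_pr _ _ := rfl

/-- Splitting off one factor. -/
def Pre_opt (k : Type u) [Field k] (P : Amb) (T : Type) [Finite T] :
    Crd k (pw P (Option T)) ((pw P T).sum P) where
  ε
    | ⟨(none, i), s⟩ => ⟨Sum.inr i, s⟩
    | ⟨(some t, i), s⟩ => ⟨Sum.inl (t, i), s⟩
  ψ
    | (none, i) => Sum.inr i
    | (some t, i) => Sum.inl (t, i)
  fst
    | ⟨(none, _), _⟩ => rfl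
    | ⟨(some _, _), _⟩ => rfl
  pr y
    | (none, i) => y (Sum.inr i)
    | (some t, i) => y (Sum.inl (t, i))
  rp_pr _
    | ⟨(none, _), _⟩ => rfl
    | ⟨(some _, _), _⟩ => rfl

theorem Pre_irr [IsAlgClosed k] (X : Var k P) (hX : IsIrreducible X.pts) (T : Type) [Finite T] :
    IsIrreducible {z : (pw P T).Pt k | ∀ t, (fun i => z (t, i)) ∈ X.pts} := by
  refine Finite.induction_empty_option (P := fun T => ∀ [Finite T],
    IsIrreducible {z : (pw P T).Pt k | ∀ t, (fun i => z (t, i)) ∈ X.pts}) ?_ ?_ ?_ T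
  · intro α β e ih _
    have : Finite α := Finite.of_equiv β e.symm
    have h := ih.image _ (Pre_map k P e.symm).continuous.continuousOn
    convert h using 1
    ext z
    refine ⟨fun hz => ⟨(Pre_map k P e).pr z, fun t => hz (e t), ?_⟩, ?_⟩
    · funext ⟨t, i⟩
      exact congrArg (β := Projectivization k (P.σ i → k)) (fun t => z (t, i))
        (e.apply_symm_apply t)
    · rintro ⟨y, hy, rfl⟩ t
      exact hy (e.symm t)
  · intro _
    have : Subsingleton ((pw P PEmpty).Pt k) := ⟨fun _ _ => funext fun j => j.1.elim⟩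
    exact ⟨⟨fun j => j.1.elim, fun t => t.elim⟩, Set.Subsingleton.isPreirreducible
      (Set.subsingleton_of_subsingleton)⟩
  · intro α _ ih _
    obtain ⟨Z, hZ, -⟩ := Pre_smooth X α
    have hi : IsIrreducible Z.pts := by rw [hZ]; exact ih
    have h := (Var.prod_irr hi hX).image _ (Pre_opt k P α).continuous.continuousOn
    convert h using 1
    ext z
    refine ⟨fun hz => ⟨mkPt ((Pre_map k P some).pr z) fun i => z (none, i),
      ⟨by rw [hZ]; exact fun t => hz (some t), hz none⟩, ?_⟩, ?_⟩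
    · funext ⟨t, i⟩
      cases t <;> rfl
    · rintro ⟨y, hy, rfl⟩ t
      cases t with
      | none => exact hy.2
      | some t =>
        have h1 := hy.1
        rw [hZ] at h1
        exact h1 t

end Pool.Agent.Work.MP_10f4af_ag
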