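import Pool.Agent.Work.MP_10f4af_ag.G4b

/-!
# Rational equivalence

Plan.  `exists_line`: the zero ideal is prime, homogeneous, relevant (`exists_idl`), so `univ` is
irreducible; `Var.sdim_top` for `Var.full k P1`.  `cut_line`: `gys_single`, `gys_one` (a form on
`P1` vanishing at the point `tt b = 0` is divisible by `tt b`).  `fib_van`: if `tt b` vanishes on
`W` then `fib b W = 0` (`cut_van`) and the other coordinate has no zero on `W` (`cut_unit`).
`push_fib`, `ex_fib`: `fib_cS`, `push_cut`, `push_comp`, `cut_ex`, `push_ex`, `Bij.map`; the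
variable `tt b` is fixed by `rename (β.map P1).ε`.  `gys_fib`: `gys_push` on the components of
`gys (span {tt b}) 1 W`, and `gys_comm`.  `pencil`: let `h = tt true * g' - tt false * f'` up to
sign on `V × P1`, `W = cut [h] (V × P1)`.  Then `fib b W = push vl (cut [h] (cut [tt b] (V × P1)))`
(`gys_single`, `gys_comm`), `cut [tt b] (V × P1) = V × pt` (`cut_ex`, `ex_swap`, `cut_line`), on
`V × pt` the form `h` is `± tt (!b) * f'` (`cut_congr`, `cut_mul`, `cut_unit`), and `cut_ex`,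
`push_ex_pt` finish.
-/

open MvPolynomial Topology TopologicalSpace Finsupp

namespace Pool.Agent.Work.MP_10f4af_ag

open MP_ffcd14_ag hiding len vl cyc pl Weil idl_hmg mem_idl idl_prime idl_le_iff

universe u

variable {k : Type u} [Field k] {P Q S : Amb}

/-- The cycles on `A`. -/
noncomputable def ZA (A : Set (P.Pt k)) : Submodule ℚ (Cyc k P) :=
  Sp fun V => (V : Set (P.Pt k)) ⊆ A

/-- The coordinates of the projective line. -/
noncomputable def tt (k : Type u) [Field k] (P : Amb) (b : Bool) : MvPolynomial (P.sum P1).V k :=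
  X (vr ⟨(), b⟩)

theorem tt_form (b : Bool) : IsForm (tt k P b) (single (Sum.inr ()) 1) := by
  exact IsForm.X (k := k) (vr ⟨(), b⟩ : (P.sum P1).V)

theorem fib_apply (b : Bool) (a : Cyc k (P.sum P1)) :
    fib b a = push vl (gys (Ideal.span {tt k P b}) 1 a) := rfl

theorem Rt_mono {A A' : Set (P.Pt k)} (h : A ⊆ A') : Rt A ≤ Rt A' := by
  exact Submodule.map_mono (Sp_mono fun W hW z hz => h (hW z hz))

theorem map_inj {β : Crd k P S} (h : Inj β) (T : Amb) : Inj (β.map T) := by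
  refine ⟨?_, ?_, ?_⟩
  · rintro (i | i) (j | j) e
    · exact congrArg Sum.inl (h.ψ (Sum.inl_injective e))
    · exact absurd e Sum.inl_ne_inr
    · exact absurd e Sum.inr_ne_inl
    · exact congrArg Sum.inr (Sum.inr_injective e)
  · rintro ⟨i | i, s⟩ ⟨j | j, t⟩ e
    · exact congrArg (vl : P.V → (P.sum T).V) (h.ε ((bij_sum (k := k) (P := S) (Q := T)).inj.ε e))
    · exact absurd (congrArg Sigma.fst e) Sum.inl_ne_inr
    · exact absurd (congrArg Sigma.fst e) Sum.inr_ne_inl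
    · exact congrArg (vr : T.V → (P.sum T).V)
        ((bij_sum (k := k) (P := S) (Q := T)).symm.inj.ε (a₁ := ⟨i, s⟩) (a₂ := ⟨j, t⟩) e)
  · rintro ⟨j | j, t⟩ (i | i) e
    · obtain ⟨s, hs⟩ := h.blk ⟨j, t⟩ i (Sum.inl_injective e)
      exact ⟨vl s, congrArg (vl : S.V → (S.sum T).V) hs⟩
    · exact absurd e Sum.inl_ne_inr
    · exact absurd e Sum.inr_ne_inl
    · exact ⟨⟨Sum.inr j, t⟩, rfl⟩

variable [IsAlgClosed k]

omit [IsAlgClosed k] in
theorem R1_both (y : P1.Pt k) (b : Bool) (h : ev y (X ⟨(), b⟩) = 0) :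
    ev y (X ⟨(), !b⟩) ≠ 0 := by
  intro e
  refine (y ()).rep_nonzero (funext fun s : Bool => ?_)
  rw [ev_X] at h e
  cases b <;> cases s <;> assumption

omit [IsAlgClosed k] in
theorem R1_uniq {y z : P1.Pt k} {b : Bool} (hy : ev y (X ⟨(), b⟩) = 0)
    (hz : ev z (X ⟨(), b⟩) = 0) : z = y := by
  funext i
  have h0 := R1_both y b hy
  rw [ev_X] at hy hz h0
  refine (eq_mk_of_minors (z ()) h0 (fun s : Bool => ?_) (y ()).rep_nonzero).trans (y ()).mk_rep
  by_cases e : s = b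
  · subst e
    exact (mul_eq_zero_of_right _ hz).trans (mul_eq_zero_of_left hy _).symm
  · rw [Bool.eq_not_of_ne e]

omit [IsAlgClosed k] in
theorem R1_pt (b : Bool) : ∃ y : P1.Pt k, ev y (X ⟨(), b⟩) = 0 := by
  have h : (fun s : Bool => if s = b then (0 : k) else 1) ≠ 0 := fun e => by
    simpa using congrFun e (!b)
  refine ⟨fun _ => Projectivization.mk k _ h, ?_⟩
  obtain ⟨a, ha⟩ := Projectivization.exists_smul_eq_mk_rep k _ h
  rw [ev_X]
  have := congrFun ha b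
  simp only [Pi.smul_apply, if_true, smul_zero] at this
  exact this.symm

omit [IsAlgClosed k] in
theorem R1_ev (z : (P.sum P1).Pt k) (b : Bool) :
    ev z (tt k P b) = ev ((Crd.inr k P P1).pr z) (X ⟨(), b⟩) := by
  rw [← Crd.ev_rename, rename_X]
  rfl

omit [IsAlgClosed k] in
theorem R1_span {f : MvPolynomial P.V k} {a : P.ι →₀ ℕ} (hf : IsForm f a) {A : Set (P.Pt k)} :
    Ideal.span {f} ≤ idl A ↔ Van A f := by
  rw [Ideal.span_singleton_le_iff_mem, mem_idl hf]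

omit [IsAlgClosed k] in
theorem R1_fm {f : MvPolynomial P.V k} {a : P.ι →₀ ℕ} (hf : IsForm f a) : Fm [f] :=
  fun _ hg => ⟨a, List.mem_singleton.1 hg ▸ hf⟩

theorem R1_PV {f : MvPolynomial P.V k} {a : P.ι →₀ ℕ} (hf : IsForm f a) {V : Sub k P}
    (h : ¬ Van (V : Set (P.Pt k)) f) : PV (Ideal.span {f}) 1 V :=
  fun _ hU e => sdim_lt (hU.lt_of_ne fun e' => h (e' ▸ (R1_span hf).1 e))

theorem exists_line : ∃ L : Sub k P1, (∀ z, z ∈ L) ∧ sdim L = 1 := by
  obtain ⟨T, hT⟩ := exists_idl (k := k) (P := P1) (q := ⊥)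
    (fun f hf a => by rw [Ideal.mem_bot.1 hf, map_zero]; exact zero_mem _)
    fun i => ⟨true, fun e => X_ne_zero _ (Ideal.mem_bot.1 e)⟩
  have h1 : ∀ z, z ∈ T := fun z => by
    by_contra hz
    obtain ⟨g, a, hg, h2, h3⟩ := isClosed_iff_form.1 T.isClosed z hz
    have h4 := (mem_idl hg).2 h3
    rw [← hT, Ideal.mem_bot] at h4
    exact h2 (by rw [h4, ev_eq, map_zero])
  have h2 : (T : Set (P1.Pt k)) = (Var.full k P1).pts := Set.eq_univ_of_forall h1
  have h3 : IsIrreducible (Var.full k P1).pts := h2 ▸ T.isIrreducible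
  refine ⟨(Var.full k P1).top h3, fun _ => Set.mem_univ _, ((Var.full k P1).sdim_top h3).trans ?_⟩
  change Nat.card (Σ _ : Unit, Bool) - Nat.card Unit = 1
  simp

theorem cut_line {L : Sub k P1} (hL : ∀ z, z ∈ L) (b : Bool) : ∃ y : P1.Pt k,
    ev y (X ⟨(), b⟩) = 0 ∧ cut [X ⟨(), b⟩] (cS L) = cS ({y} : Sub k P1) := by
  obtain ⟨y, hy⟩ := R1_pt (k := k) b
  obtain ⟨L', hL', hd⟩ := exists_line (k := k)
  obtain rfl : L = L' := le_antisymm (fun z _ => hL' z) fun z _ => hL z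
  have hf := IsForm.X (k := k) (P := P1) ⟨(), b⟩
  have hu : ∀ U : Sub k P1, Ideal.span {X ⟨(), b⟩} ≤ idl (U : Set (P1.Pt k)) → U ≤ {y} :=
    fun U h z hz => R1_uniq hy ((R1_span hf).1 h z hz)
  have hp : (Ideal.span {X ⟨(), b⟩} : Ideal (MvPolynomial P1.V k)).IsPrime :=
    (Ideal.span_singleton_prime (X_ne_zero _)).2 X_prime
  have hr : Rel (Ideal.span {X ⟨(), b⟩} : Ideal (MvPolynomial P1.V k)) := fun i => by
    refine ⟨!b, fun e => ?_⟩
    have h : b = !b := congrArg (fun s : P1.V => (s.2 : Bool))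
      (X_dvd_X.1 (Ideal.mem_span_singleton.1 e))
    cases b <;> simp at h
  obtain ⟨T, hT⟩ := exists_idl (LG.single (A := ∅) hf).hmg hr
  have h1 : idl (({y} : Sub k P1) : Set (P1.Pt k)) ≤ Ideal.span {X ⟨(), b⟩} :=
    (idl_le_iff.2 (hu T hT.le)).trans hT.ge
  have h2 : Van (({y} : Sub k P1) : Set (P1.Pt k)) (X ⟨(), b⟩) := fun z hz => by
    rw [show z = y from hz, hy]
  refine ⟨y, hy, (gys_single hf L).symm.trans ?_⟩
  refine gys_one (A := Set.univ) (LG.single hf) (Set.subset_univ _) (fun z _ => hL z)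
    ((R1_span hf).2 h2) (by rw [sdim_pt, hd]) (fun U _ => hu U) fun g a hg hv =>
      ⟨1, (Ideal.ne_top_iff_one _).1 (idl_prime _).ne_top, ?_⟩
  rw [one_mul]
  exact Ideal.mem_sup_right (h1 ((mem_idl hg).2 hv))

theorem fib_cS (b : Bool) (W : Sub k (P.sum P1)) :
    fib b (cS W) = push vl (cut [tt k P b] (cS W)) := by
  rw [fib_apply, gys_single (tt_form b)]

theorem fib_van {b : Bool} {W : Sub k (P.sum P1)}
    (h : Van (W : Set ((P.sum P1).Pt k)) (tt k P b)) (b' : Bool) : fib b' (cS W) = 0 := by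
  rw [fib_cS]
  by_cases e : b' = b
  · rw [e, cut_van (tt_form b) h, map_zero]
  · rw [cut_unit (tt_form b') fun x hx => ?_, map_zero]
    rw [Bool.eq_not_of_ne e, R1_ev]
    exact R1_both _ b ((R1_ev x b).symm.trans (h x hx))

theorem fib_mem (b : Bool) (W : Sub k (P.sum P1)) : fib b (cS W) ∈
    Sp fun T => T ≤ (Crd.inl k P P1).img W ∧ sdim T + 1 = sdim W := by
  rw [fib_cS]
  refine Sp_mono ?_ (push_mem (bij_sum (k := k) (P := P) (Q := P1)).inj
    (cut_mem (R1_fm (tt_form b)) W))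
  rintro T ⟨V, ⟨h1, h2, -⟩, rfl, h3⟩
  exact ⟨Crd.img_mono _ h1, h3 ▸ h2⟩

theorem Rt_rep {A : Set (P.Pt k)} {a : Cyc k P} (h : a ∈ Rt A) :
    ∃ w ∈ Sp fun W : Sub k (P.sum P1) => (∀ z ∈ W, (Crd.inl k P P1).pr z ∈ A) ∧
      ∀ b, ¬ Van (W : Set ((P.sum P1).Pt k)) (tt k P b), a = fib true w - fib false w := by
  obtain ⟨w, hw, rfl⟩ := h
  refine Exists.imp (fun w' h => And.imp_right Eq.symm h) (Sp_map (fib true - fib false)
    (Submodule.map (fib true - fib false) (Sp _)) (fun Z hZ => ?_) hw)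
  by_cases e : ∀ b, ¬ Van (Z : Set ((P.sum P1).Pt k)) (tt k P b)
  · exact Submodule.mem_map_of_mem (cS_mem ⟨hZ, e⟩)
  · push Not at e
    obtain ⟨b, e⟩ := e
    rw [LinearMap.sub_apply, fib_van e, fib_van e, sub_zero]
    exact zero_mem _

theorem Rt_le (A : Set (P.Pt k)) : Rt A ≤ ZA A := by
  rintro _ ⟨w, hw, rfl⟩
  refine Sp_map (fib true - fib false) (ZA A) (fun Z hZ => ?_) hw
  have h : ∀ b, fib b (cS Z) ∈ ZA A := fun b => Sp_mono (fun T hT x hx => by
    obtain ⟨z, hz, rfl⟩ := (Crd.mem_img_iff _).1 (hT.1 hx)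
    exact hZ z hz) (fib_mem b Z)
  exact sub_mem (h true) (h false)

theorem R1_fib {c : Sub k (P.sum P1) → Prop} {a : Cyc k (P.sum P1)} (ha : a ∈ Sp c) (b : Bool) :
    fib b a = push vl (cut [tt k P b] a) :=
  Sp_ext (fib b) (push vl ∘ₗ cut [tt k P b]) (fun Z _ => fib_cS b Z) ha

theorem push_fib {β : Crd k P S} (hβ : Inj β) (b : Bool) (W : Sub k (S.sum P1)) :
    push β.ε (fib b (cS W)) = fib b (push (β.map P1).ε (cS W)) := by
  have hm := cut_mem (R1_fm (tt_form (k := k) (P := S) b)) W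
  have h1 : rename (β.map P1).ε (tt k P b) = tt k S b := rename_X _ _
  rw [R1_fib (push_mem (map_inj hβ P1) (cS_mem (c := fun _ => True) trivial)),
    ← push_cut_one (map_inj hβ P1) (tt_form b), h1, fib_cS, vl_eq (k := k), vl_eq (k := k),
    ← push_comp hβ bij_sum.inj hm, ← push_comp bij_sum.inj (map_inj hβ P1) hm]
  rfl

theorem push_Rt {β : Crd k P S} (hβ : Inj β) {A : Set (P.Pt k)} {B : Set (S.Pt k)}
    (h : ∀ z ∈ B, β.pr z ∈ A) {a : Cyc k S} (ha : a ∈ Rt B) : push β.ε a ∈ Rt A := by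
  obtain ⟨w, hw, rfl⟩ := ha
  rw [← LinearMap.comp_apply]
  refine Sp_map (push β.ε ∘ₗ (fib true - fib false)) (Rt A) (fun Z hZ => ?_) hw
  refine ⟨push (β.map P1).ε (cS Z), Sp_mono ?_
    (push_mem (map_inj hβ P1) (cS_mem (c := fun V => V = Z) rfl)), ?_⟩
  · rintro T ⟨V, rfl, rfl, -⟩ x hx
    obtain ⟨z, hz, rfl⟩ := (Crd.mem_img_iff _).1 hx
    exact h _ (hZ z hz)
  · rw [LinearMap.comp_apply, LinearMap.sub_apply, LinearMap.sub_apply, map_sub, push_fib hβ,
      push_fib hβ]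

theorem ex_fib {β : Crd k P S} {γ : Crd k Q S} (h : Bij β γ) (b : Bool) (W : Sub k (P.sum P1))
    (V : Sub k Q) : ex β.ε γ.ε (fib b (cS W)) (cS V) =
      fib b (ex (β.map P1).ε (γ.comp (Crd.inl k S P1)).ε (cS W) (cS V)) := by
  have hf := R1_fm (tt_form (k := k) (P := P) b)
  have h1 : rename (β.map P1).ε (tt k P b) = tt k S b := rename_X _ _
  have h2 := cut_ex (h.map P1) hf W V
  rw [List.map_singleton, h1] at h2
  have e : (Crd.inl k S P1).ε ∘ β.ε = (β.map P1).ε ∘ (Crd.inl k P P1).ε := funext fun _ => rfl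
  have e' : (Crd.inl k S P1).ε ∘ γ.ε = (γ.comp (Crd.inl k S P1)).ε := rfl
  have h3 := push_ex (h.map P1) h bij_sum.inj bij_sum.inj e e' (cut_mem hf W)
    (cS_mem (c := fun _ => True) (Z := V) trivial)
  rw [← h2, (h.map P1).ex_cS] at h3
  rw [(h.map P1).ex_cS, fib_cS, fib_cS, vl_eq (k := k), vl_eq (k := k), h3]

theorem ex_Rt {β : Crd k P S} {γ : Crd k Q S} (h : Bij β γ) {A : Set (P.Pt k)} {V : Sub k Q}
    {C : Set (S.Pt k)} (hC : ∀ z, β.pr z ∈ A → γ.pr z ∈ V → z ∈ C) {a : Cyc k P}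
    (ha : a ∈ Rt A) : ex β.ε γ.ε a (cS V) ∈ Rt C := by
  obtain ⟨w, hw, rfl⟩ := ha
  rw [← LinearMap.flip_apply (ex β.ε γ.ε), ← LinearMap.comp_apply]
  refine Sp_map _ (Rt C) (fun Z hZ => ?_) hw
  rw [LinearMap.comp_apply, LinearMap.flip_apply, LinearMap.sub_apply, map_sub,
    LinearMap.sub_apply, ex_fib h, ex_fib h, (h.map P1).ex_cS, ← LinearMap.sub_apply]
  refine Submodule.mem_map_of_mem (cS_mem fun z hz => ?_)
  obtain ⟨h1, h2⟩ := (h.map P1).mem_xp.1 hz
  exact hC _ (hZ _ h1) h2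

theorem gys_fib {A : Set (P.Pt k)} {J : Ideal (MvPolynomial P.V k)} {c : ℕ} (h : LG A J c)
    {W : Sub k (P.sum P1)} (hW : ∀ z ∈ W, (Crd.inl k P P1).pr z ∈ A) {b : Bool}
    (hb : ¬ Van (W : Set ((P.sum P1).Pt k)) (tt k P b)) (h1 : PV (J.map (rename vl)) c W)
    (h2 : PV (J.map (rename vl) ⊔ Ideal.span {tt k P b}) (c + 1) W) :
    gys J c (fib b (cS W)) = fib b (gys (J.map (rename vl)) c (cS W)) := by
  have l1 : LG {z | (Crd.inl k P P1).pr z ∈ A} (J.map (rename vl)) c :=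
    h.map (Crd.inl k P P1) fun _ hz => hz
  have l2 : LG {z | (Crd.inl k P P1).pr z ∈ A} (Ideal.span {tt k P b}) 1 := LG.single (tt_form b)
  rw [fib_apply, fib_apply, gys_comm l1 l2 hW h1 (R1_PV (tt_form b) hb) h2]
  refine Sp_ext (gys J c ∘ₗ push vl) (push vl ∘ₗ gys (J.map (rename vl)) c) (fun T hT => ?_)
    (gys_mem l2 hW)
  refine gys_push (β := Crd.inl k P P1) bij_sum.inj h (fun z hz => hW z (hT.1 hz)) fun U hU e => ?_
  have h3 := h2 U (hU.trans hT.1) (sup_le e (hT.2.1.trans (idl_le_iff.2 hU)))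
  have h4 := hT.2.2
  omega

omit [IsAlgClosed k] in
theorem R1_form {f g : MvPolynomial P.V k} {a : P.ι →₀ ℕ} (hf : IsForm f a) (hg : IsForm g a)
    (b b' : Bool) : IsForm (tt k P b * rename (Crd.inl k P P1).ε f +
      tt k P b' * rename (Crd.inl k P P1).ε g)
      ((single (Sum.inr ()) 1 : (P.sum P1).ι →₀ ℕ) + a.mapDomain (Crd.inl k P P1).ψ) :=
  (weightedHomogeneousSubmodule k _ _).add_mem ((tt_form b).mul ((Crd.inl k P P1).form hf))
    ((tt_form b').mul ((Crd.inl k P P1).form hg))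

theorem R1_pen {V : Sub k P} {L : Sub k P1} (hL : ∀ z, z ∈ L) (hd : sdim L = 1)
    {f g : MvPolynomial P.V k} {a : P.ι →₀ ℕ} (hf : IsForm f a) (hg : IsForm g a)
    (hf' : ¬ Van (V : Set (P.Pt k)) f) (b : Bool) :
    fib b (gys (Ideal.span {tt k P (!b) * rename (Crd.inl k P P1).ε f +
      tt k P b * rename (Crd.inl k P P1).ε g}) 1 (cS (bij_sum.xp V L))) = cut [f] (cS V) := by
  have B := bij_sum (k := k) (P := P) (Q := P1)
  obtain ⟨y, hy, hc⟩ := cut_line hL b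
  have hh := R1_form hf hg (!b) b
  set h := tt k P (!b) * rename (Crd.inl k P P1).ε f + tt k P b * rename (Crd.inl k P P1).ε g
  have e0 : ∀ z, ev z (tt k P b) = 0 → (ev z h = 0 ↔ ev ((Crd.inl k P P1).pr z) f = 0) :=
    fun z hz => by
      have h1 := R1_both _ b ((R1_ev z b).symm.trans hz)
      rw [← R1_ev] at h1
      rw [← Crd.ev_rename]
      simp only [ev_eq] at hz h1 ⊢
      simp only [h, map_add, map_mul, hz, zero_mul, add_zero, mul_eq_zero, h1, false_or]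
  have e1 : ∀ z ∈ B.xp V {y}, ev z (tt k P b) = 0 := fun z hz => by
    rw [R1_ev, show (Crd.inr k P P1).pr z = y from (B.mem_xp.1 hz).2, hy]
  have e2 : ¬ Van (B.xp V {y} : Set ((P.sum P1).Pt k)) (rename (Crd.inl k P P1).ε f) := by
    rw [← Crd.van_img _ hf, B.img_xp]
    exact hf'
  have e3 : ¬ Van (B.xp V {y} : Set ((P.sum P1).Pt k)) h := fun e => e2 fun z hz =>
    (Crd.ev_rename _ z f).trans ((e0 z (e1 z hz)).1 (e z hz))
  have e4 : B.xp V {y} ≤ B.xp V L := fun z hz => B.mem_xp.2 ⟨(B.mem_xp.1 hz).1, hL _⟩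
  have d1 : sdim (B.xp V {y}) + 1 = sdim (B.xp V L) := by
    rw [B.sdim_xp, B.sdim_xp, sdim_pt, hd]
  have e5 : ∀ U ≤ B.xp V L, Van (U : Set ((P.sum P1).Pt k)) (tt k P b) → U ≤ B.xp V {y} :=
    fun U hU e z hz => B.mem_xp.2 ⟨(B.mem_xp.1 (hU hz)).1,
      R1_uniq hy ((R1_ev z b).symm.trans (e z hz))⟩
  have e6 : ∀ z ∈ B.xp V {y}, ev z (tt k P (!b)) ≠ 0 := fun z hz => by
    rw [R1_ev]
    exact R1_both _ b ((R1_ev z b).symm.trans (e1 z hz))
  have e7 : gys (Ideal.span {tt k P b}) 1 (cS (B.xp V L)) = cS (B.xp V {y}) := by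
    have h2 := cut_ex B.symm (R1_fm (IsForm.X (k := k) (P := P1) ⟨(), b⟩)) L V
    rw [List.map_singleton, rename_X, hc, B.symm.ex_cS, B.symm.ex_cS, B.xp_symm, B.xp_symm] at h2
    rw [gys_single (tt_form b)]
    exact h2
  rw [fib_apply, gys_comm (A := Set.univ) (LG.single hh) (LG.single (tt_form b))
    (Set.subset_univ _) (R1_PV hh fun e => e3 fun z hz => e z (e4 hz))
    (fun U hU e => d1 ▸ Nat.succ_le_succ (sdim_mono (e5 U hU ((R1_span (tt_form b)).1 e))))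
    (fun U hU e => d1 ▸ Nat.succ_le_succ (R1_PV hh e3 U
      (e5 U hU ((R1_span (tt_form b)).1 (le_sup_right.trans e))) (le_sup_left.trans e))),
    e7, gys_single hh, cut_congr (g := tt k P (!b) * rename (Crd.inl k P P1).ε f),
    cut_mul _ e2, cut_unit (tt_form _) e6, zero_add]
  · have h2 := cut_ex B (R1_fm hf) V {y}
    rw [List.map_singleton, B.ex_cS] at h2
    rw [h2]
    exact Sp_ext (push (Crd.inl k P P1).ε ∘ₗ
      (ex (Crd.inl k P P1).ε (Crd.inr k P P1).ε).flip (cS {y})) LinearMap.id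
      (fun T _ => push_ex_pt B T y) (cut_mem (R1_fm hf) V)
  · obtain ⟨z, hz⟩ := (B.xp V {y}).isIrreducible.nonempty
    exact fun e => e6 z hz (e z hz)
  · rw [add_sub_cancel_left]
    exact Ideal.mul_mem_right _ _ ((mem_idl (tt_form b)).2 e1)

theorem pencil {A : Set (P.Pt k)} {V : Sub k P} (hV : (V : Set (P.Pt k)) ⊆ A)
    {f g : MvPolynomial P.V k} {a : P.ι →₀ ℕ} (hf : IsForm f a) (hg : IsForm g a)
    (hf' : ¬ Van (V : Set (P.Pt k)) f) (hg' : ¬ Van (V : Set (P.Pt k)) g) :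
    cut [f] (cS V) - cut [g] (cS V) ∈ Rt A := by
  obtain ⟨L, hL, hd⟩ := exists_line (k := k)
  have h1 := R1_pen hL hd hf hg hf' true
  have h2 := R1_pen hL hd hg hf hg' false
  rw [Bool.not_false, add_comm] at h2
  rw [Bool.not_true] at h1
  rw [← h1, ← h2]
  refine ⟨_, Sp_mono (fun T hT z hz => ?_) (gys_mem (A := Set.univ)
    (LG.single (R1_form hf hg false true)) (Set.subset_univ _)), rfl⟩
  exact hV (bij_sum.mem_xp.1 (hT.1 hz)).1

end Pool.Agent.Work.MP_10f4af_ag
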