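import Pool.Agent.Work.MP_10f4af_ag.R1

/-!
# Rational equivalence and intersections

Plan.  `Rt_fam`: take `w` from `Rt_rep`.  For each component `W` of `w` put in `𝓖`: the image of
`W` in `P`, the images of the components of `W ∩ {tt b = 0}` (`exists_cmp`), and the components of
the closed set `{x | ∀ y, mkPt x y ∈ W}` (`exists_comps`; it is an intersection of preimages under
the continuous maps `x ↦ mkPt x y`); if `F` is one of the latter, `F × P1 ≤ W`, so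
`sdim F + 1 ≤ sdim W`.  Then `ex_fib`, `gys_fib` for `W' = (h.map P1).xp W V`: if `U ≤ W'` has the
image `U'` in `S`, either `sdim U = sdim U'`, or `U = U' × P1` (`eq_of_sdim_le`, `Bij.sdim_xp`,
`exists_line`); on `tt b = 0` the projection is injective.
`gys_move`: choose `g` by `exists_seq` (all forms of degree `a`, `D = ∅`, empty index type) for
the family made of `𝓖` and the components of `V ∩ V(sq D i)`, `i ≤ n` (`exists_cmp`).  Then
`PV (sq D i ⊔ sq g j) (i + j) V` for `i, j ≤ n`.  For `i + j + 1 = n` compare `(i + 1, j)` with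
`(i, j + 1)`: `sq_succ`, `gys_gys`, `gys_single`, `gys_mem`, `pencil`, `Sp_map`.
-/

open MvPolynomial Topology TopologicalSpace Finsupp

namespace Pool.Agent.Work.MP_10f4af_ag

open MP_ffcd14_ag hiding len vl cyc pl Weil idl_hmg mem_idl idl_prime idl_le_iff

universe u

variable {k : Type u} [Field k] {P Q S : Amb}

/-- The first `n` terms of `g` cut `V` properly, one after the other. -/
def PS (g : ℕ → MvPolynomial P.V k) (n : ℕ) (V : Sub k P) : Prop :=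
  ∀ j ≤ n, ∀ U ≤ V, (∀ m < j, Van (U : Set (P.Pt k)) (g m)) → sdim U + j ≤ sdim V

theorem PS.pv {g : ℕ → MvPolynomial P.V k} {a : P.ι →₀ ℕ} (hg : ∀ m, IsForm (g m) a) {n : ℕ}
    {V : Sub k P} (h : PS g n V) {j : ℕ} (hj : j ≤ n) : PV (sq g j) j V := by
  exact fun U hU hJ => h j hj U hU ((sq_le_idl hg).1 hJ)

variable [IsAlgClosed k]

omit [IsAlgClosed k] in
theorem R2_tt (β : Crd k P S) (b : Bool) : rename (β.map P1).ε (tt k P b) = tt k S b :=
  rename_X _ _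

theorem R2_fam (W : Sub k (P.sum P1)) :
    ∃ 𝓖 : Set (Sub k P), 𝓖.Finite ∧ (∀ G ∈ 𝓖, G ≤ (Crd.inl k P P1).img W) ∧
      ∀ {Q S : Amb} {β : Crd k P S} {γ : Crd k Q S} (h : Bij β γ) (V : Sub k Q)
        (J : Ideal (MvPolynomial S.V k)) (c : ℕ), Hmg J → (∀ G ∈ 𝓖, PV J c (h.xp G V)) →
        PV (J.map (rename vl)) c ((h.map P1).xp W V) ∧
          ∀ b, ¬ Van (W : Set ((P.sum P1).Pt k)) (tt k P b) →
            PV (J.map (rename vl) ⊔ Ideal.span {tt k S b}) (c + 1) ((h.map P1).xp W V) := by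
  obtain ⟨L, hL, dL⟩ := exists_line (k := k)
  obtain ⟨𝓕, f1, f2, f3⟩ := (Crd.inl k P P1).gp W
  choose 𝓒 c1 c2 c3 using fun b : Bool =>
    exists_cmp (LG.single (A := ∅) (tt_form (k := k) (P := P) b)).hmg W
  refine ⟨insert ((Crd.inl k P P1).img W) (𝓕 ∪ ⋃ b, (Crd.inl k P P1).img '' 𝓒 b),
    (f1.union (Set.finite_iUnion fun b => (c1 b).image _)).insert _, ?_,
    fun {Q S β γ} h V J c hJ hG => ?_⟩
  · rintro G (rfl | hG | hG)
    · exact le_rfl
    · exact f2 G hG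
    · obtain ⟨b, T, hT, rfl⟩ := Set.mem_iUnion.1 hG
      exact Crd.img_mono _ (c2 b T hT).1
  have key : ∀ U ≤ (h.map P1).xp W V, J.map (rename vl) ≤ idl (U : Set ((S.sum P1).Pt k)) →
      ∀ G ∈ insert ((Crd.inl k P P1).img W) (𝓕 ∪ ⋃ b, (Crd.inl k P P1).img '' 𝓒 b),
        β.img ((Crd.inl k S P1).img U) ≤ G →
          sdim ((Crd.inl k S P1).img U) + c ≤ sdim G + sdim V := fun U hU hJU G hG' hle => by
    rw [← h.sdim_xp]
    refine hG G hG' _ (h.le_xp.2 ⟨hle, ?_⟩) ((map_le_idl (Crd.inl k S P1) hJ).1 hJU)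
    rw [← Crd.img_comp]
    exact ((h.map P1).le_xp.1 hU).2
  have e : ∀ U : Sub k (S.sum P1), β.img ((Crd.inl k S P1).img U) =
      (Crd.inl k P P1).img ((β.map P1).img U) := fun U => by
    rw [← Crd.img_comp, ← Crd.img_comp]
    exact Crd.img_congr _ _ fun _ _ => rfl
  refine ⟨fun U hU hJU => ?_, fun b hb U hU hJU => ?_⟩
  · have h1 := key U hU hJU _ (Set.mem_insert _ _)
      (e U ▸ Crd.img_mono _ ((h.map P1).le_xp.1 hU).1)
    have h2 := (Crd.inl k P P1).sdim_img_le W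
    rw [Bij.sdim_xp]
    by_cases hd : sdim U ≤ sdim ((Crd.inl k S P1).img U)
    · omega
    have h3 : U = bij_sum.xp ((Crd.inl k S P1).img U) L :=
      eq_of_sdim_le (bij_sum.le_xp.2 ⟨le_rfl, fun z _ => hL z⟩) (by rw [Bij.sdim_xp]; omega)
    have h4 : sdim U = sdim ((Crd.inl k S P1).img U) + 1 := by
      rw [← dL, ← bij_sum.sdim_xp, ← h3]
    have h5 : bij_sum.xp (β.img ((Crd.inl k S P1).img U)) L ≤ W := fun z hz => by
      obtain ⟨u, hu, e1⟩ := β.mem_img_iff.1 (bij_sum.mem_xp.1 hz).1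
      have h6 : mkPt u ((Crd.inr k P P1).pr z) ∈ U := h3 ▸ bij_sum.mem_xp.2 ⟨hu, hL _⟩
      rw [← sum_ext (x := (β.map P1).pr (mkPt u ((Crd.inr k P P1).pr z))) (y := z) e1 rfl]
      exact ((h.map P1).mem_xp.1 (hU h6)).1
    have h7 := f3 _ h5
    rw [Bij.sdim_xp, Bij.img_xp] at h7
    rcases h7 with h7 | ⟨F, hF, h7, h8⟩
    · omega
    · have := key U hU hJU F (Or.inr (Or.inl hF)) h7
      omega
  · have hv : Van (U : Set ((S.sum P1).Pt k)) (tt k S b) :=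
      van_idl ((Ideal.span_singleton_le_iff_mem _).1 (le_sup_right.trans hJU))
    obtain ⟨T, hT, h1⟩ := c3 b _ ((h.map P1).le_xp.1 hU).1
      ((Ideal.span_singleton_le_iff_mem _).2 ((mem_idl (tt_form b)).2
        (((β.map P1).van_img (tt_form b)).2 (R2_tt β b ▸ hv))))
    have h2 := key U hU (le_sup_left.trans hJU) _
      (Or.inr (Or.inr (Set.mem_iUnion.2 ⟨b, T, hT, rfl⟩))) (e U ▸ Crd.img_mono _ h1)
    have h3 := (Crd.inl k P P1).sdim_img_le T
    have h4 := sdim_lt (lt_of_le_of_ne (c2 b T hT).1 fun e' =>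
      hb (e' ▸ van_idl ((Ideal.span_singleton_le_iff_mem _).1 (c2 b T hT).2)))
    have h5 := bij_sum.sdim_le U
    have h6 : (Crd.inr k S P1).img U < L := by
      refine lt_of_le_of_ne (fun z _ => hL z) fun e' => hb fun z _ => ?_
      have h7 := ((Crd.inr k S P1).van_img (Z := U) (IsForm.X ⟨(), b⟩)).2 (by rwa [rename_X])
      rw [e'] at h7
      exact ((Crd.inr k P P1).ev_rename z (X ⟨(), b⟩)).trans (h7 _ (hL _)) ▸
        congrArg (ev z) (rename_X _ _).symm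
    have h8 := sdim_lt h6
    rw [Bij.sdim_xp]
    omega

theorem Rt_fam {A : Set (P.Pt k)} {a : Cyc k P} (ha : a ∈ Rt A) :
    ∃ 𝓖 : Set (Sub k P), 𝓖.Finite ∧ (∀ G ∈ 𝓖, (G : Set (P.Pt k)) ⊆ A) ∧
      ∀ {Q S : Amb} {β : Crd k P S} {γ : Crd k Q S} (h : Bij β γ) (V : Sub k Q)
        (C : Set (S.Pt k)) (J : Ideal (MvPolynomial S.V k)) (c : ℕ), LG C J c →
        (∀ z, β.pr z ∈ A → γ.pr z ∈ V → z ∈ C) → (∀ G ∈ 𝓖, PV J c (h.xp G V)) →
        gys J c (ex β.ε γ.ε a (cS V)) ∈ Rt C := by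
  obtain ⟨w, hw, rfl⟩ := Rt_rep ha
  choose 𝓖 g1 g2 g3 using fun W : Sub k (P.sum P1) => R2_fam W
  refine ⟨⋃ W ∈ {W : Sub k (P.sum P1) | w (idl (W : Set ((P.sum P1).Pt k))) ≠ 0}, 𝓖 W,
    (finite_comp w).biUnion fun W _ => g1 W, fun G hG x hx => ?_,
    fun {Q S β γ} h V C J c hJ hC hG => ?_⟩
  · obtain ⟨W, hW, hG⟩ := Set.mem_iUnion₂.1 hG
    obtain ⟨z, hz, rfl⟩ := (Crd.inl k P P1).mem_img_iff.1 (g2 W G hG hx)
    exact (Sp_of hw hW).1 z hz
  have key := Sp_map (gys J c ∘ₗ (ex β.ε γ.ε).flip (cS V) ∘ₗ (fib true - fib false)) (Rt C)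
    (fun W hW => ?_) (Sp_to hw fun W h1 h2 => And.intro h1 h2)
  · simpa only [LinearMap.comp_apply, LinearMap.sub_apply, LinearMap.flip_apply] using key
  obtain ⟨⟨h1, h2⟩, h3⟩ := hW
  obtain ⟨h4, h5⟩ := g3 W h V J c hJ.hmg fun G hG' => hG G (Set.mem_biUnion h3 hG')
  have h6 : ∀ z ∈ (h.map P1).xp W V, (Crd.inl k S P1).pr z ∈ C := fun z hz =>
    hC _ (h1 _ ((h.map P1).mem_xp.1 hz).1) ((h.map P1).mem_xp.1 hz).2
  have h7 : ∀ b, gys J c (ex β.ε γ.ε (fib b (cS W)) (cS V)) =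
      fib b (gys (J.map (rename vl)) c (cS ((h.map P1).xp W V))) := fun b => by
    rw [ex_fib h, (h.map P1).ex_cS]
    refine gys_fib hJ h6 (fun hv => h2 b fun z hz => ?_) h4 (h5 b (h2 b))
    obtain ⟨y, hy⟩ := V.isIrreducible.nonempty
    obtain ⟨u, rfl, rfl⟩ := (h.map P1).exists_pt z y
    rw [← Crd.ev_rename, R2_tt]
    exact hv u ((h.map P1).mem_xp.2 ⟨hz, hy⟩)
  simp only [LinearMap.comp_apply, LinearMap.sub_apply, map_sub, LinearMap.flip_apply, h7]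
  exact Submodule.mem_map.2 ⟨_, Sp_mono (fun T hT z hz => h6 z (hT.1 hz))
    (gys_mem (hJ.map (Crd.inl k S P1) h6) Set.Subset.rfl), LinearMap.sub_apply _ _ _⟩

theorem R2_step {V : Sub k P} {J : Ideal (MvPolynomial P.V k)} {c : ℕ}
    (hJ : LG (V : Set (P.Pt k)) J c) {f g : MvPolynomial P.V k} {a : P.ι →₀ ℕ} (hf : IsForm f a)
    (hg : IsForm g a) (h : PV J c V) (h1 : PV (J ⊔ Ideal.span {f}) (c + 1) V)
    (h2 : PV (J ⊔ Ideal.span {g}) (c + 1) V) :
    gys (J ⊔ Ideal.span {f}) (c + 1) (cS V) - gys (J ⊔ Ideal.span {g}) (c + 1) (cS V) ∈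
      Rt (V : Set (P.Pt k)) := by
  rw [← gys_gys hJ (LG.single hf) Set.Subset.rfl h h1,
    ← gys_gys hJ (LG.single hg) Set.Subset.rfl h h2]
  refine Sp_map (gys (Ideal.span {f}) 1 - gys (Ideal.span {g}) 1) _ (fun T hT => ?_)
    (gys_mem hJ Set.Subset.rfl)
  have key : ∀ {f : MvPolynomial P.V k}, IsForm f a → PV (J ⊔ Ideal.span {f}) (c + 1) V →
      ¬ Van (T : Set (P.Pt k)) f := fun hf h1 hv => by
    have := h1 T hT.1 (sup_le hT.2.1 ((Ideal.span_singleton_le_iff_mem _).2 ((mem_idl hf).2 hv)))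
    have := hT.2.2
    omega
  rw [LinearMap.sub_apply, gys_single hf, gys_single hg]
  exact pencil hT.1 hf hg (key hf h1) (key hg h2)

theorem gys_move {D : ℕ → MvPolynomial P.V k} {a : P.ι →₀ ℕ} (hD : ∀ m, IsForm (D m) a) {n : ℕ}
    {𝓥 𝓖 : Set (Sub k P)} (h𝓥 : 𝓥.Finite) (h𝓖 : 𝓖.Finite) (h : ∀ V ∈ 𝓥, PS D n V) :
    ∃ g : ℕ → MvPolynomial P.V k, (∀ m, IsForm (g m) a) ∧ (∀ G ∈ 𝓖, PS g n G) ∧
      ∀ V ∈ 𝓥, gys (sq D n) n (cS V) - gys (sq g n) n (cS V) ∈ Rt (V : Set (P.Pt k)) := by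
  choose 𝓒 c1 c2 c3 using fun (V : Sub k P) (i : ℕ) => exists_cmp (LG.sq (A := ∅) hD i).hmg V
  obtain ⟨g, g1, g2, -⟩ := exists_seq (weightedHomogeneousSubmodule k _ a) (fun _ hg => hg) ∅
    (fun x _ => by
      obtain ⟨f, h1, h2⟩ := exists_form_deg (Set.finite_singleton ({x} : Sub k P)) a
      exact ⟨f, h1, fun h0 => h2 _ rfl fun y hy => by rwa [show y = x from hy]⟩)
    (h𝓖.union (h𝓥.biUnion fun V _ => (Set.finite_Iic n).biUnion fun i _ => c1 V i))
    (I := Empty) (V := k) (fun i => i.elim) (fun i => i.elim) (fun i => i.elim) n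
  have g3 : ∀ G ∈ 𝓖 ∪ ⋃ V ∈ 𝓥, ⋃ i ∈ Set.Iic n, 𝓒 V i, PS g n G := fun G hG j hj U hU hv =>
    (g2 j hj G hG U hU hv).resolve_left fun h0 => by
      obtain ⟨x, hx⟩ := U.isIrreducible.nonempty
      exact h0 hx
  refine ⟨g, g1, fun G hG => g3 G (Or.inl hG), fun V hV => ?_⟩
  have hp : ∀ i ≤ n, ∀ j ≤ n, PV (sq D i ⊔ sq g j) (i + j) V := fun i hi j hj U hU hJ => by
    obtain ⟨T, hT, h1⟩ := c3 V i U hU (le_sup_left.trans hJ)
    have h2 := (h V hV).pv hD hi T (c2 V i T hT).1 (c2 V i T hT).2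
    have h3 := (g3 T (Or.inr (Set.mem_biUnion hV (Set.mem_biUnion hi hT)))).pv g1 hj U h1
      (le_sup_right.trans hJ)
    omega
  have key : ∀ i j, i + j = n →
      gys (sq D i ⊔ sq g j) n (cS V) - gys (sq g n) n (cS V) ∈ Rt (V : Set (P.Pt k)) := by
    intro i
    induction i with
    | zero =>
      rintro j rfl
      rw [sq_zero, bot_sup_eq, zero_add, sub_self]
      exact zero_mem _
    | succ i ih =>
      rintro j rfl
      have e1 : sq D (i + 1) ⊔ sq g j = sq D i ⊔ sq g j ⊔ Ideal.span {D i} := by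
        rw [sq_succ, sup_right_comm]
      have e2 : sq D i ⊔ sq g (j + 1) = sq D i ⊔ sq g j ⊔ Ideal.span {g j} := by
        rw [sq_succ, sup_assoc]
      have e3 : i + 1 + j = i + j + 1 := by omega
      have h1 := hp (i + 1) (by omega) j (by omega)
      have h2 := hp i (by omega) (j + 1) (by omega)
      have h3 := ih (j + 1) (by omega)
      rw [e1, e3] at h1
      rw [e2] at h2 h3
      have h4 := R2_step ((LG.sq hD i).sup (LG.sq g1 j)) (hD i) (g1 j)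
        (hp i (by omega) j (by omega)) h1 h2
      rw [e1]
      rw [e3] at h3 ⊢
      simpa only [sub_add_sub_cancel] using add_mem h4 h3
  simpa only [sq_zero, sup_bot_eq] using key n 0 rfl

end Pool.Agent.Work.MP_10f4af_ag
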