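import Pool.Agent.Work.MP_10f4af_ag.F2

/-! # Models of the powers of a variety -/

open MvPolynomial Topology TopologicalSpace Finsupp

namespace Pool.Agent.Work.MP_10f4af_ag

open MP_ffcd14_ag hiding len vl cyc pl Weil idl_hmg mem_idl idl_prime idl_le_iff

universe u

variable {k : Type u} [Field k] {P S' : Amb}

theorem pt_eq {x y : P.Pt k} {μ : P.ι → k} (h : ∀ s, rp x s = μ s.1 * rp y s) : x = y := by
  funext i
  rw [← (x i).mk_rep, ← (y i).mk_rep, Projectivization.mk_eq_mk_iff']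
  exact ⟨μ i, funext fun s => (h ⟨i, s⟩).symm⟩

/-- `Z` is the power `X ^ T`, with the projections `β t`. -/
structure Mod (X : SV k P) (T : Type) where
  S : Amb
  Z : SV k S
  β : T → Crd k P S
  fin : Finite T
  bε : Function.Bijective fun p : T × P.V => (β p.1).ε p.2
  bψ : Function.Bijective fun p : T × P.ι => (β p.1).ψ p.2
  mem : ∀ z, z ∈ Z.pts ↔ ∀ t, (β t).pr z ∈ X.pts

namespace Mod

variable {X : SV k P} {T T' T'' : Type} (M : Mod X T) (M' : Mod X T') (M'' : Mod X T'')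

theorem eps_ext {α : Sort*} {ε ε' : M.S.V → α}
    (h : ∀ t s, ε ((M.β t).ε s) = ε' ((M.β t).ε s)) : ε = ε' := by
  funext s
  obtain ⟨⟨t, s⟩, rfl⟩ := M.bε.2 s
  exact h t s

theorem pt_ext {z z' : M.S.Pt k} (h : ∀ t, (M.β t).pr z = (M.β t).pr z') : z = z' :=
  pt_eq (μ := fun _ => 1) fun s => by
    obtain ⟨⟨t, s⟩, rfl⟩ := M.bε.2 s
    rw [one_mul, ← (M.β t).rp_pr, ← (M.β t).rp_pr, h]

theorem exists_pt' (x : T → P.Pt k) : ∃ z, ∀ t, (M.β t).pr z = x t := by
  let e := Equiv.ofBijective _ M.bε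
  have he : ∀ t s, e.symm ((M.β t).ε s) = (t, s) := fun t s => e.symm_apply_apply (t, s)
  obtain ⟨z, μ, -, hz⟩ := exists_pt (P := M.S) (fun s => rp (x (e.symm s).1) (e.symm s).2)
    fun j => by
      obtain ⟨⟨t, i⟩, rfl⟩ := M.bψ.2 j
      obtain ⟨s, hs⟩ := Function.ne_iff.mp (x t i).rep_nonzero
      have h1 := (M.β t).fst ⟨i, s⟩
      generalize hw : (M.β t).ε ⟨i, s⟩ = w at h1
      obtain ⟨j, w⟩ := w
      obtain rfl : j = (M.β t).ψ i := h1
      refine ⟨w, ?_⟩
      rw [← hw, he]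
      exact hs
  refine ⟨z, fun t => pt_eq (μ := fun i => μ ((M.β t).ψ i)) fun s => ?_⟩
  rw [(M.β t).rp_pr, hz]
  simp only [he, (M.β t).fst]

theorem exists_crd (f : T → T') : ∃ c : Crd k M.S M'.S,
    (∀ t s, c.ε ((M.β t).ε s) = (M'.β (f t)).ε s) ∧
      ∀ t i, c.ψ ((M.β t).ψ i) = (M'.β (f t)).ψ i := by
  let e := Equiv.ofBijective _ M.bε
  let e' := Equiv.ofBijective _ M.bψ
  have he : ∀ t s, e.symm ((M.β t).ε s) = (t, s) := fun t s => e.symm_apply_apply (t, s)
  have he' : ∀ t i, e'.symm ((M.β t).ψ i) = (t, i) := fun t s => e'.symm_apply_apply (t, s)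
  choose pr hpr using fun y : M'.S.Pt k => M.exists_pt' fun t => (M'.β (f t)).pr y
  refine ⟨⟨fun s => (M'.β (f (e.symm s).1)).ε (e.symm s).2,
    fun j => (M'.β (f (e'.symm j).1)).ψ (e'.symm j).2, fun s => ?_, pr, fun y s => ?_⟩,
    fun t s => by simp only [he], fun t i => by simp only [he']⟩
  · obtain ⟨⟨t, s⟩, rfl⟩ := M.bε.2 s
    simp only [he, (M.β t).fst, he', (M'.β (f t)).fst]
  · obtain ⟨⟨t, s⟩, rfl⟩ := M.bε.2 s
    simp only [he]
    rw [← (M.β t).rp_pr, hpr, (M'.β (f t)).rp_pr]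

/-- The coordinate map given by a map of index sets. -/
noncomputable def crd (f : T → T') : Crd k M.S M'.S := (M.exists_crd M' f).choose

theorem crd_ε (f : T → T') (t : T) (s : P.V) :
    (M.crd M' f).ε ((M.β t).ε s) = (M'.β (f t)).ε s := (M.exists_crd M' f).choose_spec.1 t s

theorem crd_ψ (f : T → T') (t : T) (i : P.ι) :
    (M.crd M' f).ψ ((M.β t).ψ i) = (M'.β (f t)).ψ i := (M.exists_crd M' f).choose_spec.2 t i

theorem crd_pr (f : T → T') (t : T) (z : M'.S.Pt k) :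
    (M.β t).pr ((M.crd M' f).pr z) = (M'.β (f t)).pr z :=
  pr_comp (funext (M.crd_ε M' f t)) z

theorem crd_eq (f : T → T') {ε : M.S.V → M'.S.V}
    (h : ∀ t s, ε ((M.β t).ε s) = (M'.β (f t)).ε s) : (M.crd M' f).ε = ε :=
  M.eps_ext fun t s => by rw [crd_ε, h]

theorem crd_comp {f : T → T'} {g : T' → T''} {h : T → T''} (e : ∀ t, g (f t) = h t) :
    (M'.crd M'' g).ε ∘ (M.crd M' f).ε = (M.crd M'' h).ε :=
  M.eps_ext fun t s => by rw [Function.comp_apply, crd_ε, crd_ε, crd_ε, e]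

theorem crd_id {f : T → T} (e : ∀ t, f t = t) : (M.crd M f).ε = id :=
  M.crd_eq M f fun t s => by rw [e]; rfl

theorem crd_mem (f : T → T') {z : M'.S.Pt k} (hz : z ∈ M'.Z.pts) : (M.crd M' f).pr z ∈ M.Z.pts :=
  (M.mem _).2 fun t => by rw [crd_pr]; exact (M'.mem z).1 hz _

theorem T0_bij {A B B' C : Type} {u : T × A → B} {u' : T' × A → B'} {u'' : T'' × A → C}
    (hu : Function.Bijective u) (hu' : Function.Bijective u') (hu'' : Function.Bijective u'')
    {f : T → T''} {g : T' → T''} (h : Function.Bijective (Sum.elim f g)) {c : B → C} {c' : B' → C}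
    (e : ∀ t a, c (u (t, a)) = u'' (f t, a)) (e' : ∀ t a, c' (u' (t, a)) = u'' (g t, a)) :
    Function.Bijective (Sum.elim c c') := by
  have h1 : Sum.elim c c' ∘ Sum.map u u' ∘ Equiv.sumProdDistrib T T' A =
      u'' ∘ Prod.map (Sum.elim f g) id := by
    funext ⟨t, a⟩
    rcases t with t | t
    · exact e t a
    · exact e' t a
  have h2 : Function.Bijective (Sum.map u u' ∘ Equiv.sumProdDistrib T T' A) :=
    (hu.sumMap hu').comp (Equiv.bijective _)
  rw [← Function.Bijective.of_comp_iff _ h2, h1]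
  exact hu''.comp (h.prodMap Function.bijective_id)

theorem pd {f : T → T''} {g : T' → T''} (h : Function.Bijective (Sum.elim f g)) :
    Pd M.Z M'.Z M''.Z (M.crd M'' f) (M'.crd M'' g) := by
  refine ⟨⟨T0_bij M.bε M'.bε M''.bε h (M.crd_ε M'' f) (M'.crd_ε M'' g),
    T0_bij M.bψ M'.bψ M''.bψ h (M.crd_ψ M'' f) (M'.crd_ψ M'' g)⟩, fun z =>
    ⟨fun hz => ⟨M.crd_mem M'' f hz, M'.crd_mem M'' g hz⟩, fun hz => (M''.mem z).2 fun t => ?_⟩⟩
  obtain ⟨t | t, rfl⟩ := h.2 t
  · exact M.crd_pr M'' f t z ▸ (M.mem _).1 hz.1 t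
  · exact M'.crd_pr M'' g t z ▸ (M'.mem _).1 hz.2 t

variable (X) in
/-- The variety itself. -/
def one : Mod X Unit where
  S := P
  Z := X
  β _ := Crd.refl k P
  fin := inferInstance
  bε := (Equiv.punitProd P.V).bijective
  bψ := (Equiv.punitProd P.ι).bijective
  mem _ := ⟨fun h _ => h, fun h => h ()⟩

variable [IsAlgClosed k]

/-- The product of two models. -/
noncomputable def prod : Mod X (T ⊕ T') where
  S := M.S.sum M'.S
  Z := M.Z.prod M'.Z
  β := Sum.elim (fun t => (M.β t).comp (Crd.inl k _ _)) fun t => (M'.β t).comp (Crd.inr k _ _)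
  fin := by
    have := M.fin
    have := M'.fin
    infer_instance
  bε := by
    have := ((bij_sum (k := k) (P := M.S) (Q := M'.S)).ε.comp (M.bε.sumMap M'.bε)).comp
      (Equiv.sumProdDistrib T T' P.V).bijective
    convert this using 1
    funext ⟨t, s⟩
    rcases t with t | t <;> rfl
  bψ := by
    have := ((bij_sum (k := k) (P := M.S) (Q := M'.S)).ψ.comp (M.bψ.sumMap M'.bψ)).comp
      (Equiv.sumProdDistrib T T' P.ι).bijective
    convert this using 1
    funext ⟨t, s⟩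
    rcases t with t | t <;> rfl
  mem z := by
    rw [mem_prod, M.mem, M'.mem, Sum.forall]
    rfl

variable (X T) in
/-- The standard model. -/
noncomputable def pow [Finite T] : Mod X T where
  S := pw P T
  Z := X.pow T
  β t := ⟨vj t, fun i => (t, i), fun _ => rfl, fun y i => y (t, i), fun _ _ => rfl⟩
  fin := inferInstance
  bε := Function.bijective_iff_has_inverse.2
    ⟨fun s => (s.1.1, ⟨s.1.2, s.2⟩), fun _ => rfl, fun _ => rfl⟩
  bψ := Function.bijective_id
  mem z := by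
    rw [SV.pow, (pow_var X T).choose_spec.1]
    rfl

theorem pow_dim [Finite T] : (pow X T).Z.dim = Nat.card T * X.dim := (pow_var X T).choose_spec.2

theorem prod_dim' : (M.prod M').Z.dim = M.Z.dim + M'.Z.dim := prod_dim _ _

theorem T0_compl {f : T → T'} (hf : Function.Injective f) :
    Function.Bijective (Sum.elim f (Subtype.val : {t // t ∉ Set.range f} → T')) := by
  refine ⟨hf.sumElim Subtype.val_injective fun a b e => b.2 ⟨a, e⟩, fun t => ?_⟩
  by_cases h : t ∈ Set.range f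
  · obtain ⟨a, rfl⟩ := h
    exact ⟨Sum.inl a, rfl⟩
  · exact ⟨Sum.inr ⟨t, h⟩, rfl⟩

/-- The complementary factor. -/
noncomputable def co (f : T → T') : Mod X {t // t ∉ Set.range f} :=
  haveI := M'.fin
  pow X _

theorem pd_co (f : T ↪ T') :
    Pd M.Z (M'.co f).Z M'.Z (M.crd M' f) ((M'.co f).crd M' Subtype.val) :=
  M.pd _ M' (T0_compl f.injective)

theorem isPr (f : T ↪ T') : IsPr M.Z M'.Z (M.crd M' f).ε := ⟨_, _, _, (M.pd_co M' f).isProd⟩

theorem dim : M.Z.dim = Nat.card T * X.dim := by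
  have := M.fin
  have h := (M.pd (pow X Empty) (pow X T) (f := id) (g := Empty.elim)
    ⟨Function.injective_id.sumElim (fun a => a.elim) fun _ b => b.elim,
      fun t => ⟨Sum.inl t, rfl⟩⟩).dim
  rw [pow_dim, pow_dim] at h
  simpa using h.symm

theorem crd_inl : (M.crd (M.prod M') Sum.inl).ε = vl := M.crd_eq _ _ fun _ _ => rfl

theorem crd_inr : (M'.crd (M.prod M') Sum.inr).ε = vr := M'.crd_eq _ _ fun _ _ => rfl

end Mod

end Pool.Agent.Work.MP_10f4af_ag
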